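import Pool.Agent.Lib.MP_f11a48_ag.AS.SpecX

/-!
# Project AS, module ADF (helper70): the functions `th_i(z + w) th_j(z - w) / (th_o(z) th_o(w))²`
-/

set_option autoImplicit false
set_option linter.unusedSectionVars false

open MvPolynomial Pool.Agent.Lib.MPf11a48.CM Filter Topology Asymptotics

namespace Pool.Agent.Lib.MPf11a48.AS

namespace ADFM

variable {Z I Λ : Type} [Fintype Z] [Fintype I] [Fintype Λ]

/-- the automorphy factor -/
noncomputable def e (D : TH Z I Λ) (x : Λ → ℤ) (z : Z → ℂ) : ℂ :=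
  Complex.exp (D.al x z + D.al x (D.vec x) / 2)

theorem e_ne (D : TH Z I Λ) (x : Λ → ℤ) (z : Z → ℂ) : e D x z ≠ 0 := Complex.exp_ne_zero _

theorem vec_neg (D : TH Z I Λ) (x : Λ → ℤ) : D.vec (-x) = -D.vec x := by
  unfold TH.vec
  rw [← Finset.sum_neg_distrib]
  apply Finset.sum_congr rfl
  intro l _
  simp

theorem al_neg (D : TH Z I Λ) (x : Λ → ℤ) : D.al (-x) = -D.al x := by
  unfold TH.al
  rw [← Finset.sum_neg_distrib]
  apply Finset.sum_congr rfl
  intro l _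
  simp

theorem vec_single [DecidableEq Λ] (D : TH Z I Λ) (l : Λ) : D.vec (Pi.single l 1) = D.lat l := by
  unfold TH.vec
  rw [Finset.sum_eq_single l]
  · simp
  · intro b _ hb
    simp [Pi.single_eq_of_ne hb]
  · intro h
    exact absurd (Finset.mem_univ l) h

theorem e_add_sub (D : TH Z I Λ) (x : Λ → ℤ) (z w : Z → ℂ) :
    e D x (z + w) * e D x (z - w) = e D x z ^ 2 := by
  unfold e
  rw [← Complex.exp_add, ← Complex.exp_nat_mul, map_add, map_sub]
  congr 1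
  push_cast
  ring

theorem e_add_neg (D : TH Z I Λ) (x : Λ → ℤ) (z w : Z → ℂ) :
    e D x (z + w) * e D (-x) (z - w) = e D x w ^ 2 := by
  unfold e
  rw [← Complex.exp_add, ← Complex.exp_nat_mul, al_neg, vec_neg]
  simp only [LinearMap.neg_apply, map_neg, map_add, map_sub]
  congr 1
  push_cast
  ring

/-- the first coordinates -/
def p1 (zw : Z ⊕ Z → ℂ) : Z → ℂ := fun k => zw (Sum.inl k)

/-- the second coordinates -/
def p2 (zw : Z ⊕ Z → ℂ) : Z → ℂ := fun k => zw (Sum.inr k)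

omit [Fintype Z] [Fintype I] [Fintype Λ] in
theorem prod_o (D : TH Z I Λ) (zw : Z ⊕ Z → ℂ) :
    (D.prod D).th (D.prod D).o zw = D.th D.o (p1 zw) * D.th D.o (p2 zw) := rfl

omit [Fintype Z] [Fintype I] [Fintype Λ] in
theorem p1_inl (D : TH Z I Λ) (zw : Z ⊕ Z → ℂ) (l : Λ) :
    p1 (zw + (D.prod D).lat (Sum.inl l)) = p1 zw + D.lat l ∧
      p2 (zw + (D.prod D).lat (Sum.inl l)) = p2 zw := by
  constructor
  · rfl
  · funext k
    show zw (Sum.inr k) + 0 = zw (Sum.inr k)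
    rw [add_zero]

omit [Fintype Z] [Fintype I] [Fintype Λ] in
theorem p1_inr (D : TH Z I Λ) (zw : Z ⊕ Z → ℂ) (l : Λ) :
    p1 (zw + (D.prod D).lat (Sum.inr l)) = p1 zw ∧
      p2 (zw + (D.prod D).lat (Sum.inr l)) = p2 zw + D.lat l := by
  constructor
  · funext k
    show zw (Sum.inl k) + 0 = zw (Sum.inl k)
    rw [add_zero]
  · rfl

omit [Fintype I] [Fintype Λ] in
theorem p1_diff : Differentiable ℂ (p1 : (Z ⊕ Z → ℂ) → (Z → ℂ)) :=
  differentiable_pi.2 fun k => differentiable_apply (Sum.inl k)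

omit [Fintype I] [Fintype Λ] in
theorem p2_diff : Differentiable ℂ (p2 : (Z ⊕ Z → ℂ) → (Z → ℂ)) :=
  differentiable_pi.2 fun k => differentiable_apply (Sum.inr k)

end ADFM

open ADFM in
theorem specADF : SpecADF := by
  classical
  intro Z I Λ _ _ _ D hD i j
  have hA : ∀ zw : Z ⊕ Z → ℂ, addF D i j zw = D.th i (p1 zw + p2 zw) * D.th j (p1 zw - p2 zw) /
      (D.th D.o (p1 zw) * D.th D.o (p2 zw)) ^ 2 := fun _ => rfl
  have haut : ∀ (x : Λ → ℤ) (i : I) (z : Z → ℂ), D.th i (z + D.vec x) = e D x z * D.th i z :=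
    hD.aut
  refine ⟨⟨2, fun zw => D.th i (p1 zw + p2 zw) * D.th j (p1 zw - p2 zw), ?_, ?_⟩, ?_⟩
  · exact ((hD.diff i).comp (p1_diff.add p2_diff)).mul ((hD.diff j).comp (p1_diff.sub p2_diff))
  · intro zw hz
    rw [prod_o] at hz
    rw [hA, prod_o, div_mul_cancel₀ _ (pow_ne_zero 2 hz)]
  · rintro (l | l) zw hz
    · obtain ⟨h1, h2⟩ := p1_inl D zw l
      rw [prod_o] at hz
      rw [hA, hA, h1, h2, ← vec_single D l]
      obtain ⟨x, hx⟩ : ∃ x : Λ → ℤ, x = Pi.single l 1 := ⟨_, rfl⟩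
      rw [← hx]
      have e1 : p1 zw + D.vec x + p2 zw = (p1 zw + p2 zw) + D.vec x := by abel
      have e2 : p1 zw + D.vec x - p2 zw = (p1 zw - p2 zw) + D.vec x := by abel
      rw [e1, e2, haut, haut, haut]
      have h3 := e_add_sub D x (p1 zw) (p2 zw)
      have h4 := e_ne D x (p1 zw)
      have h5 : e D x (p1 zw + p2 zw) * D.th i (p1 zw + p2 zw) *
          (e D x (p1 zw - p2 zw) * D.th j (p1 zw - p2 zw)) =
          e D x (p1 zw) ^ 2 * (D.th i (p1 zw + p2 zw) * D.th j (p1 zw - p2 zw)) := by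
        rw [← h3]; ring
      have h6 : (e D x (p1 zw) * D.th D.o (p1 zw) * D.th D.o (p2 zw)) ^ 2 =
          e D x (p1 zw) ^ 2 * (D.th D.o (p1 zw) * D.th D.o (p2 zw)) ^ 2 := by ring
      rw [h5, h6, mul_div_mul_left _ _ (pow_ne_zero 2 h4)]
    · obtain ⟨h1, h2⟩ := p1_inr D zw l
      rw [prod_o] at hz
      rw [hA, hA, h1, h2, ← vec_single D l]
      obtain ⟨x, hx⟩ : ∃ x : Λ → ℤ, x = Pi.single l 1 := ⟨_, rfl⟩
      rw [← hx]
      have e1 : p1 zw + (p2 zw + D.vec x) = (p1 zw + p2 zw) + D.vec x := by abel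
      have e2 : p1 zw - (p2 zw + D.vec x) = (p1 zw - p2 zw) + D.vec (-x) := by
        rw [vec_neg]; abel
      rw [e1, e2, haut, haut, haut]
      have h3 := e_add_neg D x (p1 zw) (p2 zw)
      have h4 := e_ne D x (p2 zw)
      have h5 : e D x (p1 zw + p2 zw) * D.th i (p1 zw + p2 zw) *
          (e D (-x) (p1 zw - p2 zw) * D.th j (p1 zw - p2 zw)) =
          e D x (p2 zw) ^ 2 * (D.th i (p1 zw + p2 zw) * D.th j (p1 zw - p2 zw)) := by
        rw [← h3]; ring
      have h6 : (D.th D.o (p1 zw) * (e D x (p2 zw) * D.th D.o (p2 zw))) ^ 2 =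
          e D x (p2 zw) ^ 2 * (D.th D.o (p1 zw) * D.th D.o (p2 zw)) ^ 2 := by ring
      rw [h5, h6, mul_div_mul_left _ _ (pow_ne_zero 2 h4)]

end Pool.Agent.Lib.MPf11a48.AS
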