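import Pool.Agent.Lib.MP_f11a48_ag.AS.Adf

/-!
# Project AS, module ADZ (helper70): addition theorem for the quasi-periodic function
-/

set_option autoImplicit false
set_option linter.unusedSectionVars false

open MvPolynomial Pool.Agent.Lib.MPf11a48.CM Filter Topology Asymptotics

namespace Pool.Agent.Lib.MPf11a48.AS

namespace ADZM

open ADFM

variable {β : ℕ} {I Λ : Type} [Fintype I] [Fintype Λ]

/-- transformation of `Y` -/
theorem Y_trans [DecidableEq Λ] (hBAS : SpecBAS) (D : QD β I Λ) (hD : D.Good) (l : Λ)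
    (z : Fin β → ℂ) :
    D.Y (z + D.lat l) = e D.toTH (Pi.single l 1) z ^ D.m *
      (D.Y z + D.ell l * D.th D.o z ^ D.m) := by
  obtain ⟨x, hx⟩ : ∃ x : Λ → ℤ, x = Pi.single l 1 := ⟨_, rfl⟩
  have hxl : D.lat l = D.vec x := by rw [hx]; exact (vec_single D.toTH l).symm
  have haut : ∀ (i : I) (z : Fin β → ℂ), D.th i (z + D.vec x) = e D.toTH x z * D.th i z :=
    hD.good.aut x
  obtain ⟨-, -, hz, -⟩ := hBAS D.toTH hD.good
  have hediff : Differentiable ℂ fun z => e D.toTH x z := by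
    unfold e
    apply Differentiable.cexp
    apply Differentiable.add
    · exact (LinearMap.toContinuousLinearMap (D.al x)).differentiable
    · exact differentiable_const _
  have hdiff : Differentiable ℂ fun z => D.Y (z + D.vec x) - e D.toTH x z ^ D.m *
      (D.Y z + D.ell l * D.th D.o z ^ D.m) := by
    apply Differentiable.sub
    · exact hD.Y_diff.comp (differentiable_id.add (differentiable_const _))
    · exact (hediff.pow _).mul (hD.Y_diff.add (((hD.good.diff D.o).pow _).const_mul _))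
  have hzero := hz _ hdiff (by
    intro z h0
    have h1 := hD.per l z h0
    rw [hxl] at h1
    have h2 : D.th D.o (z + D.vec x) ≠ 0 := by
      rw [haut]
      exact mul_ne_zero (e_ne _ _ _) h0
    have h3 : D.ze (z + D.vec x) = D.Y (z + D.vec x) / D.th D.o (z + D.vec x) ^ D.m := rfl
    have h4 : D.ze z = D.Y z / D.th D.o z ^ D.m := rfl
    rw [h3, h4, div_eq_iff (pow_ne_zero _ h2), haut] at h1
    rw [h1]
    have h5 : D.th D.o z ^ D.m ≠ 0 := pow_ne_zero _ h0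
    have h6 : D.Y z / D.th D.o z ^ D.m * D.th D.o z ^ D.m = D.Y z := div_mul_cancel₀ _ h5
    calc (D.Y z / D.th D.o z ^ D.m + D.ell l) * (e D.toTH x z * D.th D.o z) ^ D.m -
          e D.toTH x z ^ D.m * (D.Y z + D.ell l * D.th D.o z ^ D.m)
        = e D.toTH x z ^ D.m * (D.Y z / D.th D.o z ^ D.m * D.th D.o z ^ D.m - D.Y z) := by
          rw [mul_pow]; ring
      _ = 0 := by rw [h6, sub_self, mul_zero]) z
  rw [hxl, ← hx]
  exact sub_eq_zero.1 hzero

end ADZM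

open ADFM ADZM in
theorem specADZ (hBAS : SpecBAS) : SpecADZ := by
  classical
  intro β I Λ _ _ D hD j
  have hA : ∀ zw : Fin β ⊕ Fin β → ℂ, addZ D j zw = (D.Y (p1 zw + p2 zw) -
      (D.ze (p1 zw) + D.ze (p2 zw)) * D.th D.o (p1 zw + p2 zw) ^ D.m) *
      D.th j (p1 zw - p2 zw) ^ D.m / (D.th D.o (p1 zw) * D.th D.o (p2 zw)) ^ (2 * D.m) :=
    fun _ => rfl
  have haut : ∀ (x : Λ → ℤ) (i : I) (z : Fin β → ℂ),
      D.th i (z + D.vec x) = e D.toTH x z * D.th i z := hD.good.aut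
  have hp1 : Differentiable ℂ (p1 : (Fin β ⊕ Fin β → ℂ) → (Fin β → ℂ)) := p1_diff
  have hp2 : Differentiable ℂ (p2 : (Fin β ⊕ Fin β → ℂ) → (Fin β → ℂ)) := p2_diff
  refine ⟨⟨3 * D.m, fun zw =>
    (D.Y (p1 zw + p2 zw) * (D.th D.o (p1 zw) * D.th D.o (p2 zw)) ^ D.m -
      (D.Y (p1 zw) * D.th D.o (p2 zw) ^ D.m + D.Y (p2 zw) * D.th D.o (p1 zw) ^ D.m) *
        D.th D.o (p1 zw + p2 zw) ^ D.m) * D.th j (p1 zw - p2 zw) ^ D.m, ?_, ?_⟩, ?_⟩
  · have o1 : Differentiable ℂ fun zw : Fin β ⊕ Fin β → ℂ => D.th D.o (p1 zw) :=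
      (hD.good.diff D.o).comp hp1
    have o2 : Differentiable ℂ fun zw : Fin β ⊕ Fin β → ℂ => D.th D.o (p2 zw) :=
      (hD.good.diff D.o).comp hp2
    have o3 : Differentiable ℂ fun zw : Fin β ⊕ Fin β → ℂ => D.th D.o (p1 zw + p2 zw) :=
      (hD.good.diff D.o).comp (hp1.add hp2)
    have o4 : Differentiable ℂ fun zw : Fin β ⊕ Fin β → ℂ => D.th j (p1 zw - p2 zw) :=
      (hD.good.diff j).comp (hp1.sub hp2)
    have y1 : Differentiable ℂ fun zw : Fin β ⊕ Fin β → ℂ => D.Y (p1 zw) := hD.Y_diff.comp hp1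
    have y2 : Differentiable ℂ fun zw : Fin β ⊕ Fin β → ℂ => D.Y (p2 zw) := hD.Y_diff.comp hp2
    have y3 : Differentiable ℂ fun zw : Fin β ⊕ Fin β → ℂ => D.Y (p1 zw + p2 zw) :=
      hD.Y_diff.comp (hp1.add hp2)
    exact ((y3.mul ((o1.mul o2).pow _)).sub (((y1.mul (o2.pow _)).add (y2.mul (o1.pow _))).mul
      (o3.pow _))).mul (o4.pow _)
  · intro zw hz
    rw [prod_o] at hz
    have h1 := left_ne_zero_of_mul hz
    have h2 := right_ne_zero_of_mul hz
    have q1 : D.ze (p1 zw) * D.th D.o (p1 zw) ^ D.m = D.Y (p1 zw) :=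
      div_mul_cancel₀ _ (pow_ne_zero _ h1)
    have q2 : D.ze (p2 zw) * D.th D.o (p2 zw) ^ D.m = D.Y (p2 zw) :=
      div_mul_cancel₀ _ (pow_ne_zero _ h2)
    simp only []
    rw [hA, prod_o, div_mul_eq_mul_div, div_eq_iff (pow_ne_zero _ hz), ← q1, ← q2]
    have e3 : (D.th D.o (p1 zw) * D.th D.o (p2 zw)) ^ (3 * D.m) =
        ((D.th D.o (p1 zw) * D.th D.o (p2 zw)) ^ D.m) ^ 3 := by
      rw [← pow_mul, mul_comm 3 D.m]
    have e2 : (D.th D.o (p1 zw) * D.th D.o (p2 zw)) ^ (2 * D.m) =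
        ((D.th D.o (p1 zw) * D.th D.o (p2 zw)) ^ D.m) ^ 2 := by
      rw [← pow_mul, mul_comm 2 D.m]
    rw [e3, e2, mul_pow]
    ring
  · rintro (l | l) zw hz
    · obtain ⟨h1, h2⟩ := p1_inl D.toTH zw l
      rw [prod_o] at hz
      have g1 := left_ne_zero_of_mul hz
      obtain ⟨x, hx⟩ : ∃ x : Λ → ℤ, x = Pi.single l 1 := ⟨_, rfl⟩
      have hxl : D.lat l = D.vec x := by rw [hx]; exact (vec_single D.toTH l).symm
      have hY := fun z => Y_trans hBAS D hD l z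
      have hper := hD.per l _ g1
      rw [hxl] at h1 hper
      rw [hxl, ← hx] at hY
      have e1 : p1 zw + D.vec x + p2 zw = (p1 zw + p2 zw) + D.vec x := by abel
      have e2 : p1 zw + D.vec x - p2 zw = (p1 zw - p2 zw) + D.vec x := by abel
      have h3 := e_add_sub D.toTH x (p1 zw) (p2 zw)
      have h4 := e_ne D.toTH x (p1 zw)
      rw [hA, hA, h1, h2, e1, e2, hY, hper, haut, haut, haut]
      have h5 : (e D.toTH x (p1 zw) * D.th D.o (p1 zw) * D.th D.o (p2 zw)) ^ (2 * D.m) =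
          (e D.toTH x (p1 zw) ^ 2) ^ D.m *
            (D.th D.o (p1 zw) * D.th D.o (p2 zw)) ^ (2 * D.m) := by
        rw [← pow_mul, ← mul_pow, mul_assoc]
      have h6 : (e D.toTH x (p1 zw + p2 zw) ^ D.m *
          (D.Y (p1 zw + p2 zw) + D.ell l * D.th D.o (p1 zw + p2 zw) ^ D.m) -
          (D.ze (p1 zw) + D.ell l + D.ze (p2 zw)) *
            (e D.toTH x (p1 zw + p2 zw) * D.th D.o (p1 zw + p2 zw)) ^ D.m) *
          (e D.toTH x (p1 zw - p2 zw) * D.th j (p1 zw - p2 zw)) ^ D.m =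
          (e D.toTH x (p1 zw) ^ 2) ^ D.m * ((D.Y (p1 zw + p2 zw) -
            (D.ze (p1 zw) + D.ze (p2 zw)) * D.th D.o (p1 zw + p2 zw) ^ D.m) *
            D.th j (p1 zw - p2 zw) ^ D.m) := by
        rw [← h3, mul_pow, mul_pow, mul_pow]
        ring
      rw [h5, h6, mul_div_mul_left _ _ (pow_ne_zero _ (pow_ne_zero 2 h4))]
    · obtain ⟨h1, h2⟩ := p1_inr D.toTH zw l
      rw [prod_o] at hz
      have g2 := right_ne_zero_of_mul hz
      obtain ⟨x, hx⟩ : ∃ x : Λ → ℤ, x = Pi.single l 1 := ⟨_, rfl⟩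
      have hxl : D.lat l = D.vec x := by rw [hx]; exact (vec_single D.toTH l).symm
      have hY := fun z => Y_trans hBAS D hD l z
      have hper := hD.per l _ g2
      rw [hxl] at h2 hper
      rw [hxl, ← hx] at hY
      have e1 : p1 zw + (p2 zw + D.vec x) = (p1 zw + p2 zw) + D.vec x := by abel
      have e2 : p1 zw - (p2 zw + D.vec x) = (p1 zw - p2 zw) + D.vec (-x) := by
        rw [vec_neg]; abel
      have h3 := e_add_neg D.toTH x (p1 zw) (p2 zw)
      have h4 := e_ne D.toTH x (p2 zw)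
      rw [hA, hA, h1, h2, e1, e2, hY, hper, haut, haut, haut]
      have h5 : (D.th D.o (p1 zw) * (e D.toTH x (p2 zw) * D.th D.o (p2 zw))) ^ (2 * D.m) =
          (e D.toTH x (p2 zw) ^ 2) ^ D.m *
            (D.th D.o (p1 zw) * D.th D.o (p2 zw)) ^ (2 * D.m) := by
        rw [← pow_mul, ← mul_pow]
        congr 1
        ring
      have h6 : (e D.toTH x (p1 zw + p2 zw) ^ D.m *
          (D.Y (p1 zw + p2 zw) + D.ell l * D.th D.o (p1 zw + p2 zw) ^ D.m) -
          (D.ze (p1 zw) + (D.ze (p2 zw) + D.ell l)) *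
            (e D.toTH x (p1 zw + p2 zw) * D.th D.o (p1 zw + p2 zw)) ^ D.m) *
          (e D.toTH (-x) (p1 zw - p2 zw) * D.th j (p1 zw - p2 zw)) ^ D.m =
          (e D.toTH x (p2 zw) ^ 2) ^ D.m * ((D.Y (p1 zw + p2 zw) -
            (D.ze (p1 zw) + D.ze (p2 zw)) * D.th D.o (p1 zw + p2 zw) ^ D.m) *
            D.th j (p1 zw - p2 zw) ^ D.m) := by
        rw [← h3, mul_pow, mul_pow, mul_pow]
        ring
      rw [h5, h6, mul_div_mul_left _ _ (pow_ne_zero _ (pow_ne_zero 2 h4))]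

end Pool.Agent.Lib.MPf11a48.AS
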