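import Pool.Agent.Lib.MP_f11a48_ag.AS.SpecX

/-!
# Project AS, modules AGD and AGO: algebraic germs are algebraically dependent; germs of one variable
-/

set_option autoImplicit false

open MvPolynomial Pool.Agent.Lib.MPf11a48.CM Filter Topology Asymptotics

namespace Pool.Agent.Lib.MPf11a48.AS

namespace AGDM

section dom

variable {E : Type} [NormedAddCommGroup E] [NormedSpace ℂ E]

/-- products of analytic functions on a convex set -/
theorem loc_mul {U : Set E} (hU : Convex ℝ U) {F G : E → ℂ}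
    (hF : AnalyticOnNhd ℂ F U) (hG : AnalyticOnNhd ℂ G U) (h : ∀ z ∈ U, F z * G z = 0) :
    (∀ z ∈ U, F z = 0) ∨ (∀ z ∈ U, G z = 0) := by
  by_contra hc
  push Not at hc
  obtain ⟨⟨z₁, hz₁, h₁⟩, z₂, hz₂, h₂⟩ := hc
  let γ : ℂ → E := fun t => z₁ + t • (z₂ - z₁)
  have hγ : ∀ t, AnalyticAt ℂ γ t := by
    intro t
    exact analyticAt_const.add (analyticAt_id.smul analyticAt_const)
  have hconv : Convex ℝ (γ ⁻¹' U) := by
    intro s hs t ht a b ha hb hab
    show γ (a • s + b • t) ∈ U
    have h3 : γ (a • s + b • t) = a • γ s + b • γ t := by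
      show z₁ + (a • s + b • t) • (z₂ - z₁) =
        a • (z₁ + s • (z₂ - z₁)) + b • (z₁ + t • (z₂ - z₁))
      rw [smul_add, smul_add, add_smul, smul_assoc, smul_assoc]
      have h4 : z₁ = a • z₁ + b • z₁ := by rw [← add_smul, hab, one_smul]
      nth_rewrite 1 [h4]
      abel
    rw [h3]
    exact hU hs ht ha hb hab
  rcases AnalyticOnNhd.eq_zero_or_eq_zero_of_mul_eq_zero (U := γ ⁻¹' U)
    (f := fun t => F (γ t)) (g := fun t => G (γ t))
    (fun t ht => (hF (γ t) ht).comp (hγ t)) (fun t ht => (hG (γ t) ht).comp (hγ t))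
    (fun t ht => h (γ t) ht) hconv.isPreconnected with h5 | h5
  · apply h₁
    have h6 := h5 0 (by
      show z₁ + (0 : ℂ) • (z₂ - z₁) ∈ U
      rw [zero_smul, add_zero]; exact hz₁)
    have h7 : γ 0 = z₁ := by
      show z₁ + (0 : ℂ) • (z₂ - z₁) = z₁
      rw [zero_smul, add_zero]
    rw [h7] at h6
    exact h6
  · apply h₂
    have h7 : γ 1 = z₂ := by
      show z₁ + (1 : ℂ) • (z₂ - z₁) = z₂
      rw [one_smul, add_sub_cancel]
    have h6 := h5 1 (by show γ 1 ∈ U; rw [h7]; exact hz₂)
    rw [h7] at h6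
    exact h6

/-- the analytic functions on `U` -/
def An (U : Set E) : Subalgebra ℂ (U → ℂ) where
  carrier := {g | ∃ F : E → ℂ, AnalyticOnNhd ℂ F U ∧ ∀ z : U, F z = g z}
  mul_mem' := by
    rintro a b ⟨F, hF, h1⟩ ⟨G, hG, h2⟩
    exact ⟨fun z => F z * G z, hF.mul hG, fun z => by simp [h1, h2]⟩
  add_mem' := by
    rintro a b ⟨F, hF, h1⟩ ⟨G, hG, h2⟩
    exact ⟨fun z => F z + G z, hF.add hG, fun z => by simp [h1, h2]⟩
  algebraMap_mem' := fun c => ⟨fun _ => c, analyticOnNhd_const, fun z => rfl⟩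

theorem An_noZeroDivisors {U : Set E} (hU : Convex ℝ U) : NoZeroDivisors (An U) := by
  refine ⟨fun {a b} hab => ?_⟩
  obtain ⟨F, hF, h1⟩ := a.2
  obtain ⟨G, hG, h2⟩ := b.2
  rcases loc_mul hU hF hG (fun z hz => by
    have h3 : (a.1 * b.1) ⟨z, hz⟩ = 0 := by
      have := congrArg (fun q : An U => q.1 ⟨z, hz⟩) hab
      exact this
    rw [h1 ⟨z, hz⟩, h2 ⟨z, hz⟩]
    exact h3) with h | h
  · left
    apply Subtype.ext
    funext z
    rw [← h1 z]
    exact h z z.2
  · right
    apply Subtype.ext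
    funext z
    rw [← h2 z]
    exact h z z.2

end dom

/-- evaluation of `optionEquivLeft` -/
theorem eval_opt {r : ℕ} (u : Fin r → ℂ) (t : ℂ) (Q : MvPolynomial (Option (Fin r)) ℂ) :
    ((optionEquivLeft ℂ (Fin r) Q).map (eval u)).eval t =
      eval (fun k => Option.elim k t u) Q := by
  induction Q using MvPolynomial.induction_on with
  | C a => rw [optionEquivLeft_C]; simp
  | add p q hp hq => rw [map_add, Polynomial.map_add, Polynomial.eval_add, hp, hq, map_add]
  | mul_X p n hp =>
    rw [map_mul, Polynomial.map_mul, Polynomial.eval_mul, hp, map_mul]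
    cases n with
    | none => rw [optionEquivLeft_X_none]; simp
    | some n => rw [optionEquivLeft_X_some]; simp

end AGDM

open AGDM in
/-- Module AGD. -/
theorem specAGD : SpecAGD := by
  intro r u₀ h hh
  choose hha Q hQ0 hQ using hh
  -- a ball where everything holds
  have hev : ∀ᶠ u in 𝓝 u₀, ∀ k, AnalyticAt ℂ (h k) u ∧
      eval (fun j => Option.elim j (h k u) u) (Q k) = 0 := by
    rw [eventually_all]
    intro k
    exact (hha k).eventually_analyticAt.and (hQ k)
  obtain ⟨ε, hε, hball⟩ := Metric.eventually_nhds_iff_ball.1 hev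
  obtain ⟨U, hU⟩ : ∃ U, U = Metric.ball u₀ ε := ⟨_, rfl⟩
  have hUc : Convex ℝ U := by rw [hU]; exact convex_ball _ _
  have hu₀ : u₀ ∈ U := by rw [hU]; exact Metric.mem_ball_self hε
  have := An_noZeroDivisors hUc
  have : Nontrivial (An U) := by
    refine ⟨0, 1, fun h => ?_⟩
    have := congrArg (fun q : An U => q.1 ⟨u₀, hu₀⟩) h
    simp at this
  have : IsDomain (An U) := NoZeroDivisors.to_isDomain _
  -- coordinates
  let X : Fin r → An U := fun k => ⟨fun z => z.1 k, fun z => z k,
    fun z _ => (ContinuousLinearMap.proj (R := ℂ) (φ := fun _ : Fin r => ℂ) k).analyticAt z,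
    fun z => rfl⟩
  let alg : Algebra (MvPolynomial (Fin r) ℂ) (An U) := (aeval X).toRingHom.toAlgebra
  have halg : ∀ P : MvPolynomial (Fin r) ℂ, ∀ z : U,
      (algebraMap (MvPolynomial (Fin r) ℂ) (An U) P).1 z = eval z.1 P := by
    intro P z
    show (aeval X P).1 z = _
    let ev : An U →ₐ[ℂ] ℂ :=
      (Pi.evalAlgHom ℂ (fun _ : U => ℂ) z).comp (An U).val
    have h1 : (ev.comp (aeval X)) = aeval (R := ℂ) (z.1 : Fin r → ℂ) := by
      apply MvPolynomial.algHom_ext
      intro k
      simp only [AlgHom.comp_apply, aeval_X]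
      rfl
    have h2 := congrArg (fun f => f P) h1
    simp only [AlgHom.comp_apply] at h2
    rw [show (aeval X P).1 z = ev (aeval X P) from rfl, h2]
    rfl
  have tow : IsScalarTower ℂ (MvPolynomial (Fin r) ℂ) (An U) := by
    apply IsScalarTower.of_algebraMap_eq
    intro c
    apply Subtype.ext
    funext z
    rw [halg, MvPolynomial.algebraMap_eq, eval_C]
    rfl
  have hinj : Function.Injective (algebraMap (MvPolynomial (Fin r) ℂ) (An U)) := by
    intro P P' hP
    apply MvPolynomial.funext_set (fun i => Metric.ball (u₀ i) ε)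
    · intro i
      exact (infinite_of_mem_nhds (u₀ i) (Metric.ball_mem_nhds _ hε))
    · intro x hx
      have hx' : x ∈ U := by
        rw [hU, ball_pi _ hε]
        exact hx
      rw [← halg P ⟨x, hx'⟩, ← halg P' ⟨x, hx'⟩, hP]
  have : FaithfulSMul (MvPolynomial (Fin r) ℂ) (An U) :=
    (faithfulSMul_iff_algebraMap_injective _ _).2 hinj
  -- the functions
  let H : Fin (r + 1) → An U := fun k => ⟨fun z => h k z.1, h k,
    fun z hz => (hball z (by rw [← hU]; exact hz) k).1, fun z => rfl⟩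
  have hHalg : ∀ k, IsAlgebraic (MvPolynomial (Fin r) ℂ) (H k) := by
    intro k
    refine ⟨optionEquivLeft ℂ (Fin r) (Q k), ?_, ?_⟩
    · intro h0
      exact hQ0 k ((optionEquivLeft ℂ (Fin r)).map_eq_zero_iff.1 h0)
    · apply Subtype.ext
      funext z
      let ev : An U →+* ℂ :=
        (Pi.evalRingHom (fun _ : U => ℂ) z).comp (An U).val.toRingHom
      show ev (Polynomial.aeval (H k) (optionEquivLeft ℂ (Fin r) (Q k))) = 0
      rw [Polynomial.aeval_def, Polynomial.hom_eval₂]
      have h1 : ev.comp (algebraMap (MvPolynomial (Fin r) ℂ) (An U)) = eval z.1 := by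
        apply RingHom.ext
        intro P
        exact halg P z
      have h2 := (hball z.1 (by rw [← hU]; exact z.2) k).2
      rw [h1, Polynomial.eval₂_eq_eval_map]
      rw [show ev (H k) = h k z.1 from rfl, eval_opt]
      exact h2
  let B := Subalgebra.algebraicClosure (MvPolynomial (Fin r) ℂ) (An U)
  let x : Fin (r + 1) → B := fun k => ⟨H k, hHalg k⟩
  -- evaluation at a point, as a ring homomorphism of `B`
  have hnot : ¬ AlgebraicIndependent ℂ x := by
    intro hind
    have h1 := hind.lift_cardinalMk_le_trdeg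
    have hfB : FaithfulSMul (MvPolynomial (Fin r) ℂ) B := by
      rw [faithfulSMul_iff_algebraMap_injective]
      intro P P' hP
      exact hinj (congrArg Subtype.val hP)
    have h2 := trdeg_add_eq ℂ (MvPolynomial (Fin r) ℂ) (A := B)
    have h3 : Algebra.trdeg (MvPolynomial (Fin r) ℂ) B = 0 := trdeg_eq_zero
    rw [h3, MvPolynomial.trdeg_of_isDomain, add_zero] at h2
    rw [← h2] at h1
    simp only [Cardinal.mk_fin, Cardinal.lift_natCast] at h1
    have h4 : r + 1 ≤ r := by exact_mod_cast h1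
    omega
  rw [algebraicIndependent_iff] at hnot
  push Not at hnot
  obtain ⟨P, hP, hP0⟩ := hnot
  refine ⟨P, hP0, Filter.mem_of_superset (Metric.ball_mem_nhds u₀ hε) ?_⟩
  intro z hz
  have hzU : z ∈ U := by rw [hU]; exact hz
  let ev : B →ₐ[ℂ] ℂ :=
    ((Pi.evalAlgHom ℂ (fun _ : U => ℂ) ⟨z, hzU⟩).comp (An U).val).comp (B.val.restrictScalars ℂ)
  have h1 : (ev.comp (aeval x)) = aeval (R := ℂ) (fun k => h k z) := by
    apply MvPolynomial.algHom_ext
    intro k
    simp only [AlgHom.comp_apply, aeval_X]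
    rfl
  have h2 := congrArg (fun f => f P) h1
  simp only [AlgHom.comp_apply, hP, map_zero] at h2
  exact h2.symm

open AGDM in
/-- Module AGO. -/
theorem specAGO : SpecAGO := by
  intro u₀ g
  let ψ := uniqueAlgEquiv ℂ (Fin 1)
  have hψ : ∀ u : Fin 1 → ℂ, (Polynomial.evalRingHom (u 0)).comp ψ.toAlgHom.toRingHom = eval u := by
    intro u
    apply MvPolynomial.ringHom_ext
    · intro c
      simp [ψ]
    · intro k
      have hk : k = 0 := Subsingleton.elim _ _
      subst hk
      simp [ψ]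
  have hψ' : ∀ u : Fin 1 → ℂ, (eval u).comp ψ.symm.toAlgHom.toRingHom =
      Polynomial.evalRingHom (u 0) := by
    intro u
    rw [← hψ u]
    apply RingHom.ext
    intro P
    simp
  constructor
  · rintro ⟨h1, Q, hQ0, hQ⟩
    refine ⟨?_, (optionEquivLeft ℂ (Fin 1)).symm (Q.map ψ.symm.toAlgHom.toRingHom), ?_, ?_⟩
    · exact AnalyticAt.comp (f := fun u : Fin 1 → ℂ => u 0) h1
        ((ContinuousLinearMap.proj (R := ℂ) (φ := fun _ : Fin 1 => ℂ) 0).analyticAt _)
    · intro h0
      rw [EmbeddingLike.map_eq_zero_iff] at h0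
      apply hQ0
      exact Polynomial.map_injective _ (ψ.symm.injective) (by rw [h0, Polynomial.map_zero])
    · have ht : Tendsto (fun u : Fin 1 → ℂ => u 0) (𝓝 fun _ => u₀) (𝓝 u₀) :=
        (continuous_apply 0).tendsto _
      filter_upwards [ht.eventually hQ] with u hu
      have h2 := eval_opt u (g (u 0))
        ((optionEquivLeft ℂ (Fin 1)).symm (Q.map ψ.symm.toAlgHom.toRingHom))
      rw [AlgEquiv.apply_symm_apply, Polynomial.map_map, hψ' u] at h2
      rw [← h2]
      exact hu
  · rintro ⟨h1, Q, hQ0, hQ⟩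
    refine ⟨?_, (optionEquivLeft ℂ (Fin 1) Q).map ψ.toAlgHom.toRingHom, ?_, ?_⟩
    · have h2 : AnalyticAt ℂ (fun (t : ℂ) (_ : Fin 1) => t) u₀ :=
        (ContinuousLinearMap.pi (R := ℂ) (φ := fun _ : Fin 1 => ℂ)
          fun _ => ContinuousLinearMap.id ℂ ℂ).analyticAt _
      exact AnalyticAt.comp (g := fun u : Fin 1 → ℂ => g (u 0)) (f := fun t _ => t) h1 h2
    · intro h0
      have h3 : optionEquivLeft ℂ (Fin 1) Q = 0 :=
        Polynomial.map_injective _ (ψ.injective) (by rw [h0, Polynomial.map_zero])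
      exact hQ0 ((optionEquivLeft ℂ (Fin 1)).map_eq_zero_iff.1 h3)
    · have ht : Tendsto (fun (t : ℂ) (_ : Fin 1) => t) (𝓝 u₀) (𝓝 fun _ => u₀) :=
        (continuous_pi fun _ => continuous_id).tendsto _
      filter_upwards [ht.eventually hQ] with t htq
      rw [Polynomial.map_map, show Polynomial.evalRingHom t =
        Polynomial.evalRingHom ((fun _ : Fin 1 => t) 0) from rfl, hψ (fun _ => t), eval_opt]
      exact htq

end Pool.Agent.Lib.MPf11a48.AS
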