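import Pool.Agent.Lib.MP_f11a48_ag.AS.SpecX
import Pool.Agent.Lib.MP_f11a48_ag.AS.Agd

/-!
# Project AS, module AGR: the ring of algebraic germs
-/

set_option autoImplicit false

open MvPolynomial Pool.Agent.Lib.MPf11a48.CM Filter Topology Asymptotics

namespace Pool.Agent.Lib.MPf11a48.AS

namespace AGRM

variable {r : ℕ} (u₀ : Fin r → ℂ)

/-- the ring of germs of analytic functions -/
def Og : Subring (Germ (𝓝 u₀) ℂ) where
  carrier := {φ | ∃ h : (Fin r → ℂ) → ℂ, AnalyticAt ℂ h u₀ ∧ Germ.coeRingHom (𝓝 u₀) h = φ}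
  mul_mem' := by
    rintro _ _ ⟨g, hg, rfl⟩ ⟨h, hh, rfl⟩
    exact ⟨g * h, hg.mul hh, map_mul _ _ _⟩
  one_mem' := ⟨1, analyticAt_const, map_one _⟩
  add_mem' := by
    rintro _ _ ⟨g, hg, rfl⟩ ⟨h, hh, rfl⟩
    exact ⟨g + h, hg.add hh, map_add _ _ _⟩
  zero_mem' := ⟨0, analyticAt_const, map_zero _⟩
  neg_mem' := by
    rintro _ ⟨g, hg, rfl⟩
    exact ⟨-g, hg.neg, map_neg _ _⟩

variable {u₀}

theorem germ_eq {g h : (Fin r → ℂ) → ℂ} :
    Germ.coeRingHom (𝓝 u₀) g = Germ.coeRingHom (𝓝 u₀) h ↔ ∀ᶠ u in 𝓝 u₀, g u = h u :=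
  Germ.coe_eq

theorem germ_zero {g : (Fin r → ℂ) → ℂ} :
    Germ.coeRingHom (𝓝 u₀) g = 0 ↔ ∀ᶠ u in 𝓝 u₀, g u = 0 := by
  rw [← map_zero (Germ.coeRingHom (R := ℂ) (𝓝 u₀)), germ_eq]
  rfl

/-- the germ of an analytic function -/
noncomputable def mk (h : (Fin r → ℂ) → ℂ) (hh : AnalyticAt ℂ h u₀) : Og u₀ :=
  ⟨Germ.coeRingHom (𝓝 u₀) h, h, hh, rfl⟩

theorem mk_val (h : (Fin r → ℂ) → ℂ) (hh : AnalyticAt ℂ h u₀) :
    (mk h hh : Germ (𝓝 u₀) ℂ) = Germ.coeRingHom (𝓝 u₀) h := rfl

instance noZero : NoZeroDivisors (Og u₀) := by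
  refine ⟨fun {a b} hab => ?_⟩
  obtain ⟨F, hF, h1⟩ := a.2
  obtain ⟨G, hG, h2⟩ := b.2
  have h3 : ∀ᶠ u in 𝓝 u₀, F u * G u = 0 := by
    have h4 : Germ.coeRingHom (𝓝 u₀) (F * G) = 0 := by
      rw [map_mul, h1, h2]
      exact congrArg Subtype.val hab
    exact germ_zero.1 h4
  obtain ⟨ε, hε, hball⟩ := Metric.eventually_nhds_iff_ball.1
    ((hF.eventually_analyticAt.and hG.eventually_analyticAt).and h3)
  rcases AGDM.loc_mul (convex_ball u₀ ε) (fun z hz => (hball z hz).1.1)
    (fun z hz => (hball z hz).1.2) (fun z hz => (hball z hz).2) with h | h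
  · left
    apply Subtype.ext
    rw [← h1]
    exact germ_zero.2 (Filter.mem_of_superset (Metric.ball_mem_nhds u₀ hε) h)
  · right
    apply Subtype.ext
    rw [← h2]
    exact germ_zero.2 (Filter.mem_of_superset (Metric.ball_mem_nhds u₀ hε) h)

/-- polynomial functions -/
theorem an_poly (P : MvPolynomial (Fin r) ℂ) : AnalyticAt ℂ (fun u => eval u P) u₀ := by
  induction P using MvPolynomial.induction_on with
  | C a =>
    simp only [eval_C]
    exact analyticAt_const
  | add p q hp hq =>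
    simp only [map_add]
    exact hp.add hq
  | mul_X p n hp =>
    simp only [map_mul, eval_X]
    exact hp.mul ((ContinuousLinearMap.proj (R := ℂ) (φ := fun _ : Fin r => ℂ) n).analyticAt _)

/-- the germ of a polynomial function -/
noncomputable def pol : MvPolynomial (Fin r) ℂ →+* Og u₀ :=
  RingHom.codRestrict ((Germ.coeRingHom (𝓝 u₀)).comp (RingHom.pi fun u => eval u)) (Og u₀)
    fun P => ⟨_, an_poly P, rfl⟩

noncomputable instance alg : Algebra (MvPolynomial (Fin r) ℂ) (Og u₀) := (pol (u₀ := u₀)).toAlgebra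

theorem alg_val (P : MvPolynomial (Fin r) ℂ) :
    (algebraMap (MvPolynomial (Fin r) ℂ) (Og u₀) P : Germ (𝓝 u₀) ℂ) =
      Germ.coeRingHom (𝓝 u₀) fun u => eval u P := rfl

/-- the value of a polynomial with polynomial coefficients -/
theorem aeval_val (h : (Fin r → ℂ) → ℂ) (hh : AnalyticAt ℂ h u₀)
    (q : Polynomial (MvPolynomial (Fin r) ℂ)) :
    ((Polynomial.aeval (mk h hh) q : Og u₀) : Germ (𝓝 u₀) ℂ) =
      Germ.coeRingHom (𝓝 u₀) fun u => (q.map (eval u)).eval (h u) := by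
  have key : (Og u₀).subtype.comp (Polynomial.aeval (mk h hh)).toRingHom =
      (Germ.coeRingHom (𝓝 u₀)).comp (RingHom.pi fun u =>
        (Polynomial.evalRingHom (h u)).comp (Polynomial.mapRingHom (eval u))) := by
    apply Polynomial.ringHom_ext
    · intro P
      show ((Polynomial.aeval (mk h hh) (Polynomial.C P) : Og u₀) : Germ (𝓝 u₀) ℂ) =
        Germ.coeRingHom (𝓝 u₀) fun u => ((Polynomial.C P).map (eval u)).eval (h u)
      simp only [Polynomial.aeval_C, Polynomial.map_C, Polynomial.eval_C]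
      rfl
    · show ((Polynomial.aeval (mk h hh) Polynomial.X : Og u₀) : Germ (𝓝 u₀) ℂ) =
        Germ.coeRingHom (𝓝 u₀) fun u =>
          ((Polynomial.X : Polynomial (MvPolynomial (Fin r) ℂ)).map (eval u)).eval (h u)
      simp only [Polynomial.aeval_X, Polynomial.map_X, Polynomial.eval_X]
      rfl
  exact congrArg (fun f => f q) key

theorem alg_iff (h : (Fin r → ℂ) → ℂ) (hh : AnalyticAt ℂ h u₀) :
    AG u₀ h ↔ IsAlgebraic (MvPolynomial (Fin r) ℂ) (mk h hh) := by
  constructor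
  · rintro ⟨-, Q, hQ0, hQ⟩
    refine ⟨optionEquivLeft ℂ (Fin r) Q, ?_, ?_⟩
    · intro h0
      exact hQ0 ((optionEquivLeft ℂ (Fin r)).map_eq_zero_iff.1 h0)
    · apply Subtype.ext
      rw [aeval_val]
      refine germ_zero.2 (hQ.mono fun u hu => ?_)
      rw [AGDM.eval_opt]
      exact hu
  · rintro ⟨q, hq0, hq⟩
    refine ⟨hh, (optionEquivLeft ℂ (Fin r)).symm q, ?_, ?_⟩
    · intro h0
      rw [EmbeddingLike.map_eq_zero_iff] at h0
      exact hq0 h0
    · have h1 := congrArg Subtype.val hq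
      rw [aeval_val] at h1
      refine (germ_zero.1 h1).mono fun u hu => ?_
      rw [← AGDM.eval_opt, AlgEquiv.apply_symm_apply]
      exact hu

theorem of_alg {h : (Fin r → ℂ) → ℂ} (hh : AnalyticAt ℂ h u₀)
    (h1 : IsAlgebraic (MvPolynomial (Fin r) ℂ) (mk h hh)) : AG u₀ h := (alg_iff h hh).2 h1

theorem to_alg {h : (Fin r → ℂ) → ℂ} (h1 : AG u₀ h) :
    IsAlgebraic (MvPolynomial (Fin r) ℂ) (mk h h1.1) := (alg_iff h h1.1).1 h1

theorem proj_an (k : Fin r) : AnalyticAt ℂ (fun u : Fin r → ℂ => u k) u₀ :=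
  (ContinuousLinearMap.proj (R := ℂ) (φ := fun _ : Fin r => ℂ) k).analyticAt _

/-- one coordinate -/
theorem one_coord (k : Fin r) (g : ℂ → ℂ) (hg : AG1 (u₀ k) g) : AG u₀ fun u => g (u k) := by
  obtain ⟨ha, Q, hQ0, hQ⟩ := hg
  have hh : AnalyticAt ℂ (fun u : Fin r → ℂ => g (u k)) u₀ :=
    AnalyticAt.comp (f := fun u : Fin r → ℂ => u k) ha (proj_an k)
  refine of_alg hh ?_
  let ψ : Polynomial ℂ →+* MvPolynomial (Fin r) ℂ := (Polynomial.aeval (X k)).toRingHom
  have hψ : ∀ u : Fin r → ℂ, (eval u).comp ψ = Polynomial.evalRingHom (u k) := by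
    intro u
    apply Polynomial.ringHom_ext
    · intro c
      simp [ψ]
    · simp [ψ]
  have hinj : Function.Injective ψ := by
    intro p q hpq
    apply Polynomial.funext
    intro t
    have h1 := congrArg (eval fun _ => t) hpq
    have h2 := congrArg (fun f => f p) (hψ fun _ => t)
    have h3 := congrArg (fun f => f q) (hψ fun _ => t)
    simp only [RingHom.comp_apply, Polynomial.coe_evalRingHom] at h2 h3
    rw [← h2, ← h3, h1]
  refine ⟨Q.map ψ, ?_, ?_⟩
  · intro h0
    apply hQ0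
    exact Polynomial.map_injective _ hinj (by rw [h0, Polynomial.map_zero])
  · apply Subtype.ext
    rw [aeval_val]
    have ht : Tendsto (fun u : Fin r → ℂ => u k) (𝓝 u₀) (𝓝 (u₀ k)) :=
      (continuous_apply k).tendsto _
    refine germ_zero.2 ((ht.eventually hQ).mono fun u hu => ?_)
    rw [Polynomial.map_map, hψ u]
    exact hu

end AGRM

open AGRM in
/-- Module AGR. -/
theorem specAGR : SpecAGR := by
  intro r u₀
  refine ⟨fun c => ?_, fun k => ?_, fun g h hg hh => ?_, fun g h hg hh => ?_,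
    fun g hg hne => ?_, fun k g hg => one_coord k g hg, fun h n c hh hc hr => ?_,
    fun g h hg hgh => ?_⟩
  · refine of_alg analyticAt_const ?_
    have h1 : mk (u₀ := u₀) (fun _ => c) analyticAt_const =
        algebraMap (MvPolynomial (Fin r) ℂ) (Og u₀) (C c) := by
      apply Subtype.ext
      rw [alg_val]
      simp only [eval_C]
      rfl
    rw [h1]
    exact isAlgebraic_algebraMap _
  · refine of_alg (proj_an k) ?_
    have h1 : mk (u₀ := u₀) (fun u => u k) (proj_an k) =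
        algebraMap (MvPolynomial (Fin r) ℂ) (Og u₀) (X k) := by
      apply Subtype.ext
      rw [alg_val]
      simp only [eval_X]
      rfl
    rw [h1]
    exact isAlgebraic_algebraMap _
  · exact of_alg (hg.1.add hh.1) ((to_alg hg).add (to_alg hh))
  · exact of_alg (hg.1.mul hh.1) ((to_alg hg).mul (to_alg hh))
  · have hi : AnalyticAt ℂ (fun u => (g u)⁻¹) u₀ := hg.1.inv hne
    refine of_alg hi ?_
    have hev : ∀ᶠ u in 𝓝 u₀, g u ≠ 0 := hg.1.continuousAt.eventually_ne hne
    have h1 : mk (fun u => (g u)⁻¹) hi * mk g hg.1 = 1 := by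
      apply Subtype.ext
      show Germ.coeRingHom (𝓝 u₀) (fun u => (g u)⁻¹) * Germ.coeRingHom (𝓝 u₀) g = 1
      rw [← map_mul, ← map_one (Germ.coeRingHom (R := ℂ) (𝓝 u₀)), germ_eq]
      refine hev.mono fun u hu => ?_
      exact inv_mul_cancel₀ hu
    let _ : Invertible (mk g hg.1) := ⟨mk (fun u => (g u)⁻¹) hi, h1, by rw [mul_comm]; exact h1⟩
    exact (to_alg hg).invOf
  · refine of_alg hh ?_
    let B := Subalgebra.algebraicClosure (MvPolynomial (Fin r) ℂ) (Og u₀)
    let x : Fin n → B := fun k => ⟨mk (c k) (hc k).1, to_alg (hc k)⟩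
    have hint : IsIntegral B (mk h hh) := by
      refine ⟨Polynomial.X ^ n + ∑ k : Fin n, Polynomial.C (x k) * Polynomial.X ^ (k : ℕ),
        Polynomial.monic_X_pow_add (Polynomial.degree_sum_fin_lt _), ?_⟩
      rw [Polynomial.eval₂_add, Polynomial.eval₂_X_pow, Polynomial.eval₂_finsetSum]
      simp only [Polynomial.eval₂_mul, Polynomial.eval₂_C, Polynomial.eval₂_X_pow]
      have h1 : (mk h hh ^ n + ∑ k : Fin n, mk (c k) (hc k).1 * mk h hh ^ (k : ℕ) : Og u₀) =
          mk (fun u => h u ^ n + ∑ k, c k u * h u ^ (k : ℕ)) (by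
            refine (hh.pow n).add (Finset.analyticAt_fun_sum _ fun k _ => ?_)
            exact (hc k).1.mul (hh.pow _)) := by
        apply Subtype.ext
        rw [mk_val]
        have h2 : (fun u => h u ^ n + ∑ k, c k u * h u ^ (k : ℕ)) =
            h ^ n + ∑ k, c k * h ^ (k : ℕ) := by
          funext u
          simp
        rw [h2, map_add, map_pow, map_sum]
        simp only [map_mul, map_pow]
        push_cast
        rfl
      refine Eq.trans ?_ (h1.trans ?_)
      · rfl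
      · apply Subtype.ext
        rw [mk_val]
        exact germ_zero.2 hr
    exact hint.trans_isAlgebraic (MvPolynomial (Fin r) ℂ)
  · have hha : AnalyticAt ℂ h u₀ := hg.1.congr hgh
    refine of_alg hha ?_
    have h1 : mk h hha = mk g hg.1 := by
      apply Subtype.ext
      rw [mk_val, mk_val, germ_eq]
      exact hgh.mono fun u hu => hu.symm
    rw [h1]
    exact to_alg hg

end Pool.Agent.Lib.MPf11a48.AS
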