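import Mathlib

/-!
# Project AS: the analytic inverse function theorem (auxiliary file for COV and ARC)
-/

set_option autoImplicit false

open Filter Topology
open scoped ContDiff

namespace Pool.Agent.Lib.MPf11a48.AS.InvAux

theorem inv_fun {E : Type*} [NormedAddCommGroup E] [NormedSpace ℂ E] [FiniteDimensional ℂ E]
    {f : E → E} {a : E} (hf : AnalyticAt ℂ f a) (hinj : ∀ v, fderiv ℂ f a v = 0 → v = 0) :
    ∃ g : E → E, AnalyticAt ℂ g (f a) ∧ g (f a) = a ∧ (∀ᶠ x in 𝓝 a, g (f x) = x) ∧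
      ∀ᶠ y in 𝓝 (f a), f (g y) = y := by
  have : CompleteSpace E := FiniteDimensional.complete ℂ E
  have hcd : ContDiffAt ℂ ω f a := hf.contDiffAt
  have hi : Function.Injective ((fderiv ℂ f a : E →L[ℂ] E) : E →ₗ[ℂ] E) :=
    (injective_iff_map_eq_zero _).2 hinj
  set L : E ≃ₗ[ℂ] E := LinearEquiv.ofInjectiveEndo _ hi with hL
  set f' : E ≃L[ℂ] E := L.toContinuousLinearEquiv with hf'
  have hfe : (f' : E →L[ℂ] E) = fderiv ℂ f a := by
    ext v
    rfl
  have hd : HasFDerivAt f (f' : E →L[ℂ] E) a := by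
    rw [hfe]
    exact hf.differentiableAt.hasFDerivAt
  have hn : (ω : WithTop ℕ∞) ≠ 0 := by simp
  have hst := hcd.hasStrictFDerivAt' hd hn
  refine ⟨hcd.localInverse hd hn, ?_, hcd.localInverse_apply_image hd hn, ?_, ?_⟩
  · exact (hcd.to_localInverse hd hn).analyticAt
  · exact hst.eventually_left_inverse
  · exact hst.eventually_right_inverse

end Pool.Agent.Lib.MPf11a48.AS.InvAux
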