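import Pool.Agent.Lib.MP_f11a48_ag.AS.SpecZ
import Pool.Agent.Lib.MP_f11a48_ag.AS.InvAux

/-!
# Project AS, module ARC: algebraic arcs
-/

set_option autoImplicit false

open MvPolynomial Filter Topology

namespace Pool.Agent.Lib.MPf11a48.AS

namespace ARCM

/-! ### Values of elements of an extension at a point -/

section rel

variable {R₁ K : Type*} [CommRing R₁] [Field K] {e : R₁ →+* K} {ψ : R₁ →+* ℂ}

/-- `z` is the value of `x` at the point `ψ` -/
def Rel (e : R₁ →+* K) (ψ : R₁ →+* ℂ) (x : K) (z : ℂ) : Prop :=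
  ∃ p q, ψ q ≠ 0 ∧ x * e q = e p ∧ z * ψ q = ψ p

theorem Rel.add {x x' : K} {z z' : ℂ} (h : Rel e ψ x z) (h' : Rel e ψ x' z') :
    Rel e ψ (x + x') (z + z') := by
  obtain ⟨p, q, h1, h2, h3⟩ := h
  obtain ⟨p', q', h1', h2', h3'⟩ := h'
  refine ⟨p * q' + p' * q, q * q', by rw [map_mul]; exact mul_ne_zero h1 h1', ?_, ?_⟩
  · rw [map_mul, map_add, map_mul, map_mul, ← h2, ← h2']
    ring
  · rw [map_mul, map_add, map_mul, map_mul, ← h3, ← h3']
    ring

theorem Rel.mul {x x' : K} {z z' : ℂ} (h : Rel e ψ x z) (h' : Rel e ψ x' z') :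
    Rel e ψ (x * x') (z * z') := by
  obtain ⟨p, q, h1, h2, h3⟩ := h
  obtain ⟨p', q', h1', h2', h3'⟩ := h'
  refine ⟨p * p', q * q', by rw [map_mul]; exact mul_ne_zero h1 h1', ?_, ?_⟩
  · rw [map_mul, map_mul, ← h2, ← h2']
    ring
  · rw [map_mul, map_mul, ← h3, ← h3']
    ring

theorem Rel.of (a : R₁) : Rel e ψ (e a) (ψ a) := ⟨a, 1, by simp, by simp, by simp⟩

theorem Rel.pow {x : K} {z : ℂ} (h : Rel e ψ x z) (n : ℕ) : Rel e ψ (x ^ n) (z ^ n) := by
  induction n with
  | zero => simpa using Rel.of (e := e) (ψ := ψ) 1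
  | succ n ih => simpa only [pow_succ] using ih.mul h

theorem Rel.zero (hk : ∀ p, e p = 0 → ψ p = 0) {z : ℂ} (h : Rel e ψ 0 z) : z = 0 := by
  obtain ⟨p, q, h1, h2, h3⟩ := h
  rw [zero_mul] at h2
  rw [hk p h2.symm] at h3
  exact (mul_eq_zero.1 h3).resolve_right h1

end rel

/-! ### The analytic root -/

/-- the value of a polynomial in `t`, `T` -/
noncomputable def hev (p : Polynomial (Polynomial ℂ)) (z : ℂ × ℂ) : ℂ :=
  (p.map (Polynomial.evalRingHom z.1)).eval z.2

theorem an_hev (p : Polynomial (Polynomial ℂ)) (z : ℂ × ℂ) : AnalyticAt ℂ (hev p) z := by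
  induction p using Polynomial.induction_on' with
  | add p q hp hq =>
    have e : hev (p + q) = fun z => hev p z + hev q z := by
      funext z
      simp [hev, Polynomial.map_add]
    rw [e]
    exact hp.add hq
  | monomial n a =>
    have e : hev (Polynomial.monomial n a) = fun z => Polynomial.aeval z.1 a * z.2 ^ n := by
      funext z
      simp [hev, Polynomial.map_monomial, Polynomial.coe_aeval_eq_eval]
    rw [e]
    exact (analyticAt_fst.aeval_polynomial a).mul (analyticAt_snd.pow n)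

theorem root {H : Polynomial (Polynomial ℂ)} {u₀ θ₀ : ℂ} (h0 : hev H (u₀, θ₀) = 0)
    (h1 : hev (Polynomial.derivative H) (u₀, θ₀) ≠ 0) :
    ∃ θ : ℂ → ℂ, AnalyticAt ℂ θ u₀ ∧ θ u₀ = θ₀ ∧ ∀ᶠ u in 𝓝 u₀, hev H (u, θ u) = 0 := by
  have hL := (an_hev H (u₀, θ₀)).differentiableAt.hasFDerivAt
  set L := fderiv ℂ (hev H) (u₀, θ₀) with hLdef
  have hT : L (0, 1) = hev (Polynomial.derivative H) (u₀, θ₀) := by
    have e1 : HasDerivAt (fun T : ℂ => (u₀, T)) ((0 : ℂ), (1 : ℂ)) θ₀ :=
      (hasDerivAt_const _ _).prodMk (hasDerivAt_id _)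
    have e2 := hL.comp_hasDerivAt θ₀ e1
    have e3 : HasDerivAt (fun T : ℂ => hev H (u₀, T))
        (hev (Polynomial.derivative H) (u₀, θ₀)) θ₀ := by
      have := (H.map (Polynomial.evalRingHom u₀)).hasDerivAt θ₀
      rw [Polynomial.derivative_map] at this
      exact this
    exact e2.unique e3
  set Ψ : ℂ × ℂ → ℂ × ℂ := fun z => (z.1, hev H z) with hΨdef
  have hΨ : HasFDerivAt Ψ ((ContinuousLinearMap.fst ℂ ℂ ℂ).prod L) (u₀, θ₀) :=
    hasFDerivAt_fst.prodMk hL
  have hΨa : AnalyticAt ℂ Ψ (u₀, θ₀) := analyticAt_fst.prod (an_hev H _)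
  obtain ⟨g, g1, g2, -, g4⟩ := InvAux.inv_fun hΨa (fun v hv => by
    rw [hΨ.fderiv] at hv
    have hv' : (v.1, L v) = (0, 0) := hv
    rw [Prod.mk.injEq] at hv'
    have hv2 : v = v.2 • ((0 : ℂ), (1 : ℂ)) := by
      ext <;> simp [hv'.1]
    have hv3 : v.2 * L (0, 1) = 0 := by
      rw [← smul_eq_mul, ← map_smul, ← hv2]
      exact hv'.2
    rw [hT] at hv3
    have hv4 : v.2 = 0 := (mul_eq_zero.1 hv3).resolve_right h1
    rw [hv2, hv4, zero_smul])
  have hpt : Ψ (u₀, θ₀) = (u₀, 0) := by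
    simp only [hΨdef, h0]
  rw [hpt] at g1 g2 g4
  have hline : AnalyticAt ℂ (fun u : ℂ => (u, (0 : ℂ))) u₀ := analyticAt_id.prod analyticAt_const
  refine ⟨fun u => (g (u, 0)).2, ?_, congrArg Prod.snd g2, ?_⟩
  · have e1 : AnalyticAt ℂ (fun u => g (u, 0)) u₀ := AnalyticAt.comp (g := g) g1 hline
    exact AnalyticAt.comp (g := Prod.snd) analyticAt_snd e1
  · have hc : Tendsto (fun u : ℂ => (u, (0 : ℂ))) (𝓝 u₀) (𝓝 (u₀, 0)) := hline.continuousAt
    filter_upwards [hc.eventually g4] with u hu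
    have h3 : (g (u, 0)).1 = u := congrArg Prod.fst hu
    have h4 : hev H (g (u, 0)) = 0 := congrArg Prod.snd hu
    have h5 : ((u, (g (u, 0)).2) : ℂ × ℂ) = g (u, 0) := by
      rw [Prod.ext_iff]
      exact ⟨h3.symm, rfl⟩
    rw [h5]
    exact h4

/-! ### Algebra -/

/-- `ℂ(t)` -/
abbrev FF := FractionRing (Polynomial ℂ)

/-- the algebraic closure of `ℂ(t)` -/
abbrev OO := AlgebraicClosure FF

theorem inj_O : Function.Injective (algebraMap (Polynomial ℂ) OO) := by
  rw [IsScalarTower.algebraMap_eq (Polynomial ℂ) FF OO]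
  exact (algebraMap FF OO).injective.comp (IsFractionRing.injective (Polynomial ℂ) FF)

theorem tf_O : Module.IsTorsionFree (Polynomial ℂ) OO :=
  Module.isTorsionFree_iff_algebraMap_injective.2 inj_O

theorem prim {σ : Type} [Fintype σ] (x : σ → OO) (hx : ∀ k, IsIntegral (Polynomial ℂ) (x k)) :
    ∃ (θ : OO) (c : σ → Polynomial (Polynomial ℂ)) (h : σ → Polynomial ℂ),
      IsIntegral (Polynomial ℂ) θ ∧
      ∀ k, h k ≠ 0 ∧ x k * algebraMap _ _ (h k) = Polynomial.aeval θ (c k) := by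
  have hxF : ∀ k, IsIntegral FF (x k) := fun k => (hx k).tower_top
  set K := IntermediateField.adjoin FF (Set.range x) with hK
  have : FiniteDimensional FF K := IntermediateField.finiteDimensional_adjoin (by
    rintro y ⟨k, rfl⟩
    exact hxF k)
  obtain ⟨α, hα⟩ := Field.exists_primitive_element FF K
  have hp : ∀ k, ∃ p : Polynomial FF, Polynomial.aeval (α : OO) p = x k := by
    intro k
    have hk : (⟨x k, IntermediateField.subset_adjoin _ _ ⟨k, rfl⟩⟩ : K) ∈
        (⊤ : IntermediateField FF K) := trivial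
    rw [← hα, ← IntermediateField.mem_toSubalgebra,
      IntermediateField.adjoin_simple_toSubalgebra_of_isAlgebraic
        (Algebra.IsAlgebraic.isAlgebraic α), Algebra.adjoin_singleton_eq_range_aeval] at hk
    obtain ⟨p, hp⟩ := hk
    refine ⟨p, ?_⟩
    have h2 := congrArg K.val hp
    have h3 := Polynomial.aeval_algHom_apply K.val α p
    exact h3.trans h2
  have hαalg : IsAlgebraic (Polynomial ℂ) (α : OO) :=
    (IsFractionRing.isAlgebraic_iff (Polynomial ℂ) FF OO).2
      (Algebra.IsAlgebraic.isAlgebraic (α : OO))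
  obtain ⟨y, hy0, hy⟩ := hαalg.exists_integral_multiple
  have hyF : algebraMap (Polynomial ℂ) FF y ≠ 0 := by
    rw [Ne, FaithfulSMul.algebraMap_eq_zero_iff]
    exact hy0
  have hc : ∀ k, ∃ (h : Polynomial ℂ) (c : Polynomial (Polynomial ℂ)), h ≠ 0 ∧
      x k * algebraMap _ _ h = Polynomial.aeval (y • (α : OO)) c := by
    intro k
    obtain ⟨p, hp⟩ := hp k
    set p' : Polynomial FF :=
      p.comp (Polynomial.C (algebraMap (Polynomial ℂ) FF y)⁻¹ * Polynomial.X) with hp'
    have hp2 : Polynomial.aeval (y • (α : OO)) p' = x k := by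
      rw [hp', Polynomial.aeval_comp]
      have e1 : Polynomial.aeval (y • (α : OO))
          (Polynomial.C (algebraMap (Polynomial ℂ) FF y)⁻¹ * Polynomial.X) = (α : OO) := by
        rw [map_mul, Polynomial.aeval_C, Polynomial.aeval_X, Algebra.smul_def,
          IsScalarTower.algebraMap_apply (Polynomial ℂ) FF OO, ← mul_assoc, ← map_mul,
          inv_mul_cancel₀ hyF, map_one, one_mul]
      rw [e1, hp]
    obtain ⟨b, hb, hb2⟩ :=
      IsLocalization.integerNormalization_spec (nonZeroDivisors (Polynomial ℂ)) p'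
    refine ⟨b, IsLocalization.integerNormalization (nonZeroDivisors (Polynomial ℂ)) p',
      nonZeroDivisors.ne_zero hb, ?_⟩
    rw [← Polynomial.aeval_map_algebraMap FF, hb2, ← algebraMap_smul FF b p', map_smul, hp2,
      algebraMap_smul, Algebra.smul_def, mul_comm]
  choose h c hh using hc
  exact ⟨y • (α : OO), c, h, hy, hh⟩

theorem bez {θ : OO} (hθ : IsIntegral (Polynomial ℂ) θ) :
    ∃ (a b : Polynomial (Polynomial ℂ)) (d : Polynomial ℂ), d ≠ 0 ∧
      a * minpoly (Polynomial ℂ) θ + b * Polynomial.derivative (minpoly (Polynomial ℂ) θ) =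
        Polynomial.C d := by
  set H := minpoly (Polynomial ℂ) θ with hH
  have hF : minpoly FF θ = H.map (algebraMap (Polynomial ℂ) FF) :=
    minpoly.isIntegrallyClosed_eq_field_fractions' FF hθ
  have hirr : Irreducible (minpoly FF θ) := minpoly.irreducible hθ.tower_top
  have hcz : CharZero FF := algebraRat.charZero FF
  obtain ⟨a₀, b₀, hab⟩ := hirr.separable
  rw [hF] at hab
  obtain ⟨ba, hba, ha⟩ :=
    IsLocalization.integerNormalization_spec (nonZeroDivisors (Polynomial ℂ)) a₀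
  obtain ⟨bb, hbb, hb⟩ :=
    IsLocalization.integerNormalization_spec (nonZeroDivisors (Polynomial ℂ)) b₀
  set a' := IsLocalization.integerNormalization (nonZeroDivisors (Polynomial ℂ)) a₀
  set b' := IsLocalization.integerNormalization (nonZeroDivisors (Polynomial ℂ)) b₀
  refine ⟨Polynomial.C bb * a', Polynomial.C ba * b', ba * bb,
    mul_ne_zero (nonZeroDivisors.ne_zero hba) (nonZeroDivisors.ne_zero hbb), ?_⟩
  apply Polynomial.map_injective (algebraMap (Polynomial ℂ) FF)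
    (IsFractionRing.injective (Polynomial ℂ) FF)
  simp only [Polynomial.map_add, Polynomial.map_mul, Polynomial.map_C, ha, hb, map_mul,
    ← Polynomial.derivative_map]
  have e1 : ∀ (r : Polynomial ℂ) (p : Polynomial FF),
      r • p = Polynomial.C (algebraMap (Polynomial ℂ) FF r) * p := by
    intro r p
    rw [← Polynomial.smul_eq_C_mul, algebraMap_smul]
  rw [e1, e1]
  linear_combination (Polynomial.C (algebraMap (Polynomial ℂ) FF ba) *
    Polynomial.C (algebraMap (Polynomial ℂ) FF bb)) * hab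

/-- a point of `J` over the algebraic closure of `ℂ(t)` which is integral over `ℂ[t]` -/
theorem pts {σ : Type} [Fintype σ] (J : Ideal (MvPolynomial σ ℂ))
    (hJ : ¬ Module.Finite ℂ (MvPolynomial σ ℂ ⧸ J)) :
    ∃ Φ : MvPolynomial σ ℂ →+* OO, (∀ P ∈ J, Φ P = 0) ∧
      (∀ a : ℂ, Φ (C a) = algebraMap (Polynomial ℂ) OO (Polynomial.C a)) ∧
      (∀ k, IsIntegral (Polynomial ℂ) (Φ (X k))) ∧
      ∃ t, Φ t = algebraMap (Polynomial ℂ) OO Polynomial.X := by
  have hnt : Nontrivial (MvPolynomial σ ℂ ⧸ J) := by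
    by_contra h
    rw [not_nontrivial_iff_subsingleton] at h
    exact hJ inferInstance
  obtain ⟨s, g, g1, g2⟩ := exists_integral_inj_algHom_of_fg ℂ (MvPolynomial σ ℂ ⧸ J)
  rcases s with _ | s
  · exfalso
    apply hJ
    have h1 : (algebraMap ℂ (MvPolynomial σ ℂ ⧸ J)).IsIntegral := by
      have e : algebraMap ℂ (MvPolynomial σ ℂ ⧸ J) =
          (g : MvPolynomial (Fin 0) ℂ →+* (MvPolynomial σ ℂ ⧸ J)).comp
            (algebraMap ℂ (MvPolynomial (Fin 0) ℂ)) := (g.comp_algebraMap).symm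
      rw [e]
      exact RingHom.IsIntegral.trans _ _
        (RingHom.isIntegral_of_surjective _ (C_surjective (Fin 0))) g2
    exact RingHom.finite_algebraMap.1
      (h1.to_finite (RingHom.finiteType_algebraMap.mpr inferInstance))
  set π : MvPolynomial (Fin (s + 1)) ℂ →ₐ[ℂ] Polynomial ℂ :=
    aeval fun i => if i = 0 then Polynomial.X else 0 with hπ
  let alg1 : Algebra (MvPolynomial (Fin (s + 1)) ℂ) (MvPolynomial σ ℂ ⧸ J) :=
    g.toRingHom.toAlgebra
  have int1 : Algebra.IsIntegral (MvPolynomial (Fin (s + 1)) ℂ) (MvPolynomial σ ℂ ⧸ J) :=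
    ⟨fun x => g2 x⟩
  have hkp : (RingHom.ker π).IsPrime := RingHom.ker_isPrime _
  obtain ⟨Q, -, hQp, hQ⟩ := Ideal.exists_ideal_over_prime_of_isIntegral (RingHom.ker π)
    (⊥ : Ideal (MvPolynomial σ ℂ ⧸ J)) (by
      intro x hx
      have h2 : g x = 0 := hx
      have h3 : x = 0 := g1 (by rw [h2, map_zero])
      rw [h3]
      exact Ideal.zero_mem _)
  have hQ' : ∀ x, g x ∈ Q ↔ π x = 0 := by
    intro x
    have h2 : x ∈ Q.comap (algebraMap (MvPolynomial (Fin (s + 1)) ℂ) (MvPolynomial σ ℂ ⧸ J)) ↔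
        x ∈ RingHom.ker π := by rw [hQ]
    exact h2
  set B := (MvPolynomial σ ℂ ⧸ J) ⧸ Q with hB
  set mk : (MvPolynomial σ ℂ ⧸ J) →ₐ[ℂ] B := Ideal.Quotient.mkₐ ℂ Q with hmk
  have hmk0 : ∀ x, mk x = 0 ↔ x ∈ Q := fun x => Ideal.Quotient.eq_zero_iff_mem
  set ι : Polynomial ℂ →ₐ[ℂ] B := Polynomial.aeval (mk (g (X 0))) with hι
  have hcomp : mk.comp g = ι.comp π := by
    apply MvPolynomial.algHom_ext
    intro i
    by_cases hi : i = 0
    · subst hi
      simp [hπ, hι]
    · have h2 : π (X i) = 0 := by simp [hπ, hi]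
      have h3 : mk (g (X i)) = 0 := (hmk0 _).2 ((hQ' _).2 h2)
      rw [AlgHom.comp_apply, AlgHom.comp_apply, h3, h2, map_zero]
  have hιinj : Function.Injective ι := by
    rw [injective_iff_map_eq_zero]
    intro p hp
    have h2 : π (Polynomial.aeval (X 0) p) = p := by
      rw [← Polynomial.aeval_algHom_apply]
      have : π (X 0) = Polynomial.X := by simp [hπ]
      rw [this, Polynomial.aeval_X_left_apply]
    have h3 : mk (g (Polynomial.aeval (X 0) p)) = 0 := by
      have := congrArg (fun f => f (Polynomial.aeval (X 0) p)) hcomp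
      simp only [AlgHom.comp_apply] at this
      rw [this, h2, hp]
    rw [← h2]
    exact (hQ' _).1 ((hmk0 _).1 h3)
  have hιint : (ι : Polynomial ℂ →+* B).IsIntegral := by
    have h2 : ((mk.comp g : MvPolynomial (Fin (s + 1)) ℂ →ₐ[ℂ] B) :
        MvPolynomial (Fin (s + 1)) ℂ →+* B).IsIntegral :=
      RingHom.IsIntegral.trans (g : MvPolynomial (Fin (s + 1)) ℂ →+* (MvPolynomial σ ℂ ⧸ J))
        (mk : (MvPolynomial σ ℂ ⧸ J) →+* B) g2
        (RingHom.isIntegral_of_surjective _ Ideal.Quotient.mk_surjective)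
    rw [hcomp] at h2
    exact RingHom.IsIntegral.tower_top (π : MvPolynomial (Fin (s + 1)) ℂ →+* Polynomial ℂ) _ h2
  have hBd : IsDomain B := Ideal.Quotient.isDomain Q
  let alg2 : Algebra (Polynomial ℂ) B := (ι : Polynomial ℂ →+* B).toAlgebra
  have int2 : Algebra.IsIntegral (Polynomial ℂ) B := ⟨fun x => hιint x⟩
  have tf1 : Module.IsTorsionFree (Polynomial ℂ) B :=
    Module.isTorsionFree_iff_algebraMap_injective.2 hιinj
  have tf2 := tf_O
  set φ : B →ₐ[Polynomial ℂ] OO := IsAlgClosed.lift with hφ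
  have hφι : ∀ p, φ (ι p) = algebraMap (Polynomial ℂ) OO p := fun p => φ.commutes p
  refine ⟨(φ : B →+* OO).comp ((mk : (MvPolynomial σ ℂ ⧸ J) →+* B).comp (Ideal.Quotient.mk J)),
    fun P hP => ?_, fun a => ?_, fun k => ?_, ?_⟩
  · show φ (mk (Ideal.Quotient.mk J P)) = 0
    rw [Ideal.Quotient.eq_zero_iff_mem.2 hP, map_zero, map_zero]
  · show φ (mk (Ideal.Quotient.mk J (C a))) = _
    rw [← hφι]
    congr 1
    have h2 : ι (Polynomial.C a) = algebraMap ℂ B a := by
      rw [hι, Polynomial.aeval_C]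
    rw [h2]
    exact mk.commutes a
  · exact (int2.isIntegral (mk (Ideal.Quotient.mk J (X k)))).map φ
  · obtain ⟨t, ht⟩ := Ideal.Quotient.mk_surjective (g (X 0))
    refine ⟨t, ?_⟩
    show φ (mk (Ideal.Quotient.mk J t)) = _
    rw [ht, ← hφι]
    congr 1
    rw [hι, Polynomial.aeval_X]

/-! ### The values of all elements -/

theorem rel_mv {σ : Type} {Φ : MvPolynomial σ ℂ →+* OO}
    (hΦC : ∀ a : ℂ, Φ (C a) = algebraMap (Polynomial ℂ) OO (Polynomial.C a)) {θ : OO}
    {ψ : Polynomial (Polynomial ℂ) →+* ℂ} (hψ : ∀ a : ℂ, ψ (Polynomial.C (Polynomial.C a)) = a)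
    {w : σ → ℂ}
    (hw : ∀ k, Rel (Polynomial.aeval θ : Polynomial (Polynomial ℂ) →ₐ[Polynomial ℂ] OO).toRingHom
      ψ (Φ (X k)) (w k)) (P : MvPolynomial σ ℂ) :
    Rel (Polynomial.aeval θ : Polynomial (Polynomial ℂ) →ₐ[Polynomial ℂ] OO).toRingHom
      ψ (Φ P) (eval w P) := by
  induction P using MvPolynomial.induction_on with
  | C a =>
    have h1 := Rel.of (e := (Polynomial.aeval θ :
      Polynomial (Polynomial ℂ) →ₐ[Polynomial ℂ] OO).toRingHom) (ψ := ψ)
      (Polynomial.C (Polynomial.C a))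
    rw [hψ] at h1
    rw [hΦC, eval_C]
    have h2 : (Polynomial.aeval θ : Polynomial (Polynomial ℂ) →ₐ[Polynomial ℂ] OO).toRingHom
        (Polynomial.C (Polynomial.C a)) = algebraMap (Polynomial ℂ) OO (Polynomial.C a) :=
      Polynomial.aeval_C θ _
    rw [h2] at h1
    exact h1
  | add p q hp hq =>
    rw [map_add, map_add]
    exact hp.add hq
  | mul_X p k hp =>
    rw [map_mul, map_mul, eval_X]
    exact hp.mul (hw k)

theorem rel_poly {θ x : OO} {ψ : Polynomial (Polynomial ℂ) →+* ℂ} {u z : ℂ}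
    (hψ : ∀ a : Polynomial ℂ, ψ (Polynomial.C a) = a.eval u)
    (hz : Rel (Polynomial.aeval θ : Polynomial (Polynomial ℂ) →ₐ[Polynomial ℂ] OO).toRingHom
      ψ x z) (Q : Polynomial (Polynomial ℂ)) :
    Rel (Polynomial.aeval θ : Polynomial (Polynomial ℂ) →ₐ[Polynomial ℂ] OO).toRingHom
      ψ (Polynomial.aeval x Q) ((Q.map (Polynomial.evalRingHom u)).eval z) := by
  induction Q using Polynomial.induction_on' with
  | add p q hp hq =>
    rw [map_add, Polynomial.map_add, Polynomial.eval_add]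
    exact hp.add hq
  | monomial n a =>
    rw [Polynomial.aeval_monomial, Polynomial.map_monomial, Polynomial.eval_monomial]
    have h1 := Rel.of (e := (Polynomial.aeval θ :
      Polynomial (Polynomial ℂ) →ₐ[Polynomial ℂ] OO).toRingHom) (ψ := ψ) (Polynomial.C a)
    rw [hψ] at h1
    have h2 : (Polynomial.aeval θ : Polynomial (Polynomial ℂ) →ₐ[Polynomial ℂ] OO).toRingHom
        (Polynomial.C a) = algebraMap (Polynomial ℂ) OO a := Polynomial.aeval_C θ _
    rw [h2] at h1
    exact h1.mul (hz.pow n)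

end ARCM

open ARCM in
theorem specARC : SpecARC := by
  intro σ _ J hJ
  obtain ⟨Φ, hΦJ, hΦC, hΦint, t, ht⟩ := pts J hJ
  obtain ⟨θ, c, h, hθ, hx⟩ := prim (fun k => Φ (X k)) hΦint
  obtain ⟨a, b, d, hd, hab⟩ := bez hθ
  set H := minpoly (Polynomial ℂ) θ with hH
  have hprod : d * ∏ k, h k ≠ 0 :=
    mul_ne_zero hd (Finset.prod_ne_zero_iff.2 fun k _ => (hx k).1)
  obtain ⟨u₀, hu₀⟩ : ∃ u₀, (d * ∏ k, h k).eval u₀ ≠ 0 := by
    by_contra hcon
    push Not at hcon
    exact hprod (Polynomial.funext fun u => by rw [hcon u, Polynomial.eval_zero])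
  rw [Polynomial.eval_mul, Polynomial.eval_prod, mul_ne_zero_iff, Finset.prod_ne_zero_iff] at hu₀
  have hHm : H.Monic := minpoly.monic hθ
  have hHd : 0 < H.natDegree := minpoly.natDegree_pos hθ
  obtain ⟨θ₀, hθ₀⟩ : ∃ θ₀, hev H (u₀, θ₀) = 0 := by
    obtain ⟨z, hz⟩ := IsAlgClosed.exists_root (H.map (Polynomial.evalRingHom u₀)) (by
      rw [hHm.degree_map]
      exact (Polynomial.natDegree_pos_iff_degree_pos.1 hHd).ne')
    exact ⟨z, hz⟩
  have hH1 : hev (Polynomial.derivative H) (u₀, θ₀) ≠ 0 := by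
    intro h0
    have h1 := congrArg (fun p => hev p (u₀, θ₀)) hab
    have h2 : hev (a * H + b * Polynomial.derivative H) (u₀, θ₀) =
        hev a (u₀, θ₀) * hev H (u₀, θ₀) +
          hev b (u₀, θ₀) * hev (Polynomial.derivative H) (u₀, θ₀) := by
      simp only [hev, Polynomial.map_add, Polynomial.map_mul, Polynomial.eval_add,
        Polynomial.eval_mul]
    have h3 : hev (Polynomial.C d) (u₀, θ₀) = d.eval u₀ := by
      simp [hev]
    rw [h2, h3, hθ₀, h0, mul_zero, mul_zero, add_zero] at h1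
    exact hu₀.1 h1.symm
  obtain ⟨θf, hθ1, hθ2, hθ3⟩ := root hθ₀ hH1
  set w : σ → ℂ → ℂ := fun k u => hev (c k) (u, θf u) / (h k).eval u with hw
  -- the good values of `u`
  have hgood : ∀ᶠ u in 𝓝 u₀, hev H (u, θf u) = 0 ∧ ∀ k, (h k).eval u ≠ 0 := by
    refine hθ3.and (eventually_all.2 fun k => ?_)
    exact (h k).continuous.continuousAt.eventually_ne (hu₀.2 k (Finset.mem_univ k))
  set ψ : ℂ → Polynomial (Polynomial ℂ) →+* ℂ := fun u =>
    (Polynomial.evalRingHom (θf u)).comp (Polynomial.mapRingHom (Polynomial.evalRingHom u)) with hψ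
  have hψe : ∀ u p, ψ u p = hev p (u, θf u) := fun u p => rfl
  have hψC : ∀ u (a : Polynomial ℂ), ψ u (Polynomial.C a) = a.eval u := by
    intro u a
    rw [hψe]
    simp [hev]
  have hker : ∀ u, hev H (u, θf u) = 0 → ∀ p,
      (Polynomial.aeval θ : Polynomial (Polynomial ℂ) →ₐ[Polynomial ℂ] OO).toRingHom p = 0 →
        ψ u p = 0 := by
    intro u hu p hp
    have tf := tf_O
    obtain ⟨q, rfl⟩ := minpoly.isIntegrallyClosed_dvd hθ hp
    rw [map_mul, hψe u (minpoly (Polynomial ℂ) θ), hu, zero_mul]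
  have hrel : ∀ u, (∀ k, (h k).eval u ≠ 0) → ∀ k,
      Rel (Polynomial.aeval θ : Polynomial (Polynomial ℂ) →ₐ[Polynomial ℂ] OO).toRingHom
        (ψ u) (Φ (X k)) (w k u) := by
    intro u hu k
    refine ⟨c k, Polynomial.C (h k), ?_, ?_, ?_⟩
    · rw [hψC]
      exact hu k
    · have h2 : (Polynomial.aeval θ : Polynomial (Polynomial ℂ) →ₐ[Polynomial ℂ] OO).toRingHom
        (Polynomial.C (h k)) = algebraMap (Polynomial ℂ) OO (h k) := Polynomial.aeval_C θ _
      rw [h2]
      exact (hx k).2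
    · rw [hψC, hψe, hw]
      exact div_mul_cancel₀ _ (hu k)
  have hmv : ∀ u, (∀ k, (h k).eval u ≠ 0) → ∀ P : MvPolynomial σ ℂ,
      Rel (Polynomial.aeval θ : Polynomial (Polynomial ℂ) →ₐ[Polynomial ℂ] OO).toRingHom
        (ψ u) (Φ P) (eval (fun k => w k u) P) := fun u hu P =>
    rel_mv hΦC (fun a => by rw [hψC, Polynomial.eval_C]) (hrel u hu) P
  refine ⟨u₀, w, fun k => ⟨?_, ?_⟩, ?_, t, ?_⟩
  · have e1 : AnalyticAt ℂ (fun u => hev (c k) (u, θf u)) u₀ :=
      AnalyticAt.comp (g := hev (c k)) (an_hev (c k) _) (analyticAt_id.prod hθ1)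
    have e2 : AnalyticAt ℂ (fun u => (h k).eval u) u₀ := by
      have := (analyticAt_id (𝕜 := ℂ) (z := u₀)).aeval_polynomial (h k)
      simpa [Polynomial.coe_aeval_eq_eval] using this
    exact e1.div e2 (hu₀.2 k (Finset.mem_univ k))
  · obtain ⟨Q, hQ1, hQ2⟩ := hΦint k
    refine ⟨Q, hQ1.ne_zero, ?_⟩
    filter_upwards [hgood] with u hu
    have h1 := rel_poly (hψC u) (hrel u hu.2 k) Q
    have h2 : Polynomial.aeval (Φ (X k)) Q = 0 := hQ2
    rw [h2] at h1
    exact Rel.zero (hker u hu.1) h1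
  · filter_upwards [hgood] with u hu P hP
    have h1 := hmv u hu.2 P
    rw [hΦJ P hP] at h1
    exact Rel.zero (hker u hu.1) h1
  · filter_upwards [hgood] with u hu
    have h1 := (hmv u hu.2 t).add
      (Rel.of (-(Polynomial.C (Polynomial.X : Polynomial ℂ))))
    have h2 : (Polynomial.aeval θ : Polynomial (Polynomial ℂ) →ₐ[Polynomial ℂ] OO).toRingHom
        (-(Polynomial.C (Polynomial.X : Polynomial ℂ))) =
          -algebraMap (Polynomial ℂ) OO Polynomial.X := by
      rw [map_neg]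
      congr 1
      exact Polynomial.aeval_C θ _
    rw [h2, ht, add_neg_cancel, map_neg, hψC, Polynomial.eval_X] at h1
    have h3 := Rel.zero (hker u hu.1) h1
    linear_combination h3

end Pool.Agent.Lib.MPf11a48.AS
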