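import Pool.Agent.Lib.MP_f11a48_ag.AS.SpecE

/-! # MP_f11a48_ag, project AS: module ASP -/

set_option autoImplicit false

open Matrix MvPolynomial Pool.Agent.Lib.MPf11a48.CM Pool.Agent.Lib.MPf11a48.GL2T
open Filter Topology
open Pool.Agent.Lib.MPf11a48.U (AbData Ix EndAlg ComAlg mR mC HDAM.JM)

namespace Pool.Agent.Lib.MPf11a48.AS

namespace ASPM

variable {g : ℕ}

/-- A common denominator of a rational matrix. -/
theorem exists_den (X : Matrix (Ix g) (Ix g) ℚ) :
    ∃ n : ℕ, 0 < n ∧ ∃ Y : Matrix (Ix g) (Ix g) ℤ, Y.map (fun x => (x : ℚ)) = (n : ℚ) • X := by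
  classical
  refine ⟨∏ i, ∏ j, (X i j).den, Finset.prod_pos fun i _ => Finset.prod_pos fun j _ => (X i j).pos,
    Matrix.of fun i j => ((((∏ i, ∏ j, (X i j).den : ℕ) : ℚ) * X i j).num), ?_⟩
  ext i j
  simp only [Matrix.map_apply, Matrix.of_apply, Matrix.smul_apply, smul_eq_mul]
  have h1 : (X i j).den ∣ ∏ i, ∏ j, (X i j).den :=
    (Finset.dvd_prod_of_mem (fun j => (X i j).den) (Finset.mem_univ j)).trans
      (Finset.dvd_prod_of_mem (fun i => ∏ j, (X i j).den) (Finset.mem_univ i))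
  obtain ⟨k, hk⟩ := h1
  have h2 : ((∏ i, ∏ j, (X i j).den : ℕ) : ℚ) * X i j = ((k : ℤ) * (X i j).num : ℤ) := by
    rw [hk]
    have h3 : ((X i j).den : ℚ) * X i j = (X i j).num := by
      rw [mul_comm]
      exact Rat.mul_den_eq_num _
    push_cast
    rw [mul_comm ((X i j).den : ℚ) (k : ℚ), mul_assoc, h3]
  rw [h2, Rat.num_intCast]

end ASPM

open ASPM in
theorem specASP (hHDC : SpecHDC) (hSTB : SpecSTB) (hEMB : SpecEMB) (hCQD : SpecCQD)
    (hESS : SpecESS) (hMAIN : SpecMAIN) : SpecASP := by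
  intro K g N A c hK hA hc R hR htr X hX
  obtain ⟨L, hL⟩ : ∃ L : Matrix (Ix g) (Ix g) ℚ →ₗ[ℚ] ℂ, ∀ X, L X = (mC X * c.1 * R).trace := by
    refine ⟨{ toFun := fun X => (mC X * c.1 * R).trace, map_add' := ?_, map_smul' := ?_ },
      fun X => rfl⟩
    · intro X Y
      have h1 : mC (X + Y) = mC X + mC Y := by
        ext i j
        simp
      change (mC (X + Y) * c.1 * R).trace = _
      rw [h1, Matrix.add_mul, Matrix.add_mul, Matrix.trace_add]
    · intro r X
      have h1 : mC (r • X) = (r : ℂ) • mC X := by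
        ext i j
        simp
      change (mC (r • X) * c.1 * R).trace = r • (mC X * c.1 * R).trace
      rw [h1, Matrix.smul_mul, Matrix.smul_mul, Matrix.trace_smul, smul_eq_mul,
        Algebra.smul_def]
      rfl
  obtain ⟨N₀, N₁, hJ0, hJ1, hcompl, hL0, hmax⟩ := hHDC K g N A hA L
  obtain ⟨X₀, hX0, X₁, hX1, h01⟩ : ∃ X₀ ∈ N₀, ∃ X₁ ∈ N₁, X₀ + X₁ = 1 := by
    have h1 : (1 : Matrix (Ix g) (Ix g) ℚ) ∈ N₀ ⊔ N₁ := by
      rw [hcompl.sup_eq_top]
      trivial
    exact Submodule.mem_sup.1 h1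
  have hL1 : L 1 = 0 := by
    rw [hL]
    have h1 : mC (1 : Matrix (Ix g) (Ix g) ℚ) = 1 := by
      ext i j
      by_cases h : i = j
      · subst h; simp
      · simp [Matrix.one_apply_ne h]
    rw [h1, Matrix.one_mul]
    exact htr
  have hLX1 : L X₁ = 0 := by
    have h1 := congrArg L h01
    rw [map_add, hL0 X₀ hX0, zero_add, hL1] at h1
    exact h1
  have hX10 : X₁ = 0 := by
    by_contra hne
    obtain ⟨n, hn, Y, hY⟩ := exists_den X₁
    obtain ⟨β, E, hE, hER, hEX, hEY, -⟩ := hEMB K g N A c hK hA hc N₀ N₁ hJ0 hJ1 hcompl R hR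
    obtain ⟨D, hD, hDa, hDl, hDe⟩ := hCQD K A E hK hA hE
    have hSS : D.SS := hESS K g N A hA N₀ N₁ R hcompl (fun N' hN' hz => hmax N' hN' fun X hX => by
      rw [hL, hc]
      exact hz X hX) β E hE hER hEX hEY _ D hDl hDe
    obtain ⟨x, hx⟩ := hEY Y (by
      rw [hY]
      exact N₁.smul_mem _ hX1)
    have hYne : Y ≠ 0 := by
      rintro rfl
      apply hne
      have h1 : (n : ℚ) • X₁ = 0 := by
        rw [← hY]
        ext i j
        simp
      rcases smul_eq_zero.1 h1 with h2 | h2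
      · exact absurd (Nat.cast_eq_zero.1 h2) hn.ne'
      · exact h2
    have hxne : x ≠ 0 := by
      rintro rfl
      apply hYne
      ext k m
      rw [hx k m]
      simp
    have hβ : 0 < β := by
      rcases Nat.eq_zero_or_pos β with h | h
      · exfalso
        apply hxne
        funext l
        have := l.2
        omega
      · exact h
    have hDL := hMAIN D hβ hD hDa hSS x hxne
    apply hDL
    -- `D.L x = L (n X₁)`
    have h1 : D.L x = L ((n : ℚ) • X₁) := by
      rw [hL, ← hY]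
      unfold QD.L
      rw [hDe]
      have h2 : mC (Y.map (fun x => (x : ℚ))) = Matrix.of fun k m => ∑ l, (x l : ℂ) * (E.X l k m : ℂ) := by
        ext k m
        simp only [Matrix.map_apply, Matrix.of_apply]
        rw [hx k m]
        push_cast
        rfl
      rw [h2, hc]
      have h3 : ((Matrix.of fun k m => ∑ l, (x l : ℂ) * (E.X l k m : ℂ)) * A.per * R).trace =
          ∑ k, ∑ m, (∑ l, (x l : ℂ) * (E.X l k m : ℂ)) * ∑ y, A.per m y * R y k := by
        rw [Matrix.mul_assoc, Matrix.trace]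
        refine Finset.sum_congr rfl fun k _ => ?_
        rw [Matrix.diag_apply, Matrix.mul_apply]
        refine Finset.sum_congr rfl fun m _ => ?_
        rw [Matrix.mul_apply]
        rfl
      rw [h3]
      unfold Emb.ell
      simp_rw [hER, Finset.mul_sum, Finset.sum_mul]
      rw [Finset.sum_comm]
      refine Finset.sum_congr rfl fun k _ => ?_
      rw [Finset.sum_comm]
      refine Finset.sum_congr rfl fun m _ => ?_
      rw [Finset.sum_comm]
      refine Finset.sum_congr rfl fun y _ => ?_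
      refine Finset.sum_congr rfl fun l _ => ?_
      ring
    rw [h1, map_smul, hLX1, smul_zero]
  have h1 : (1 : Matrix (Ix g) (Ix g) ℚ) ∈ N₀ := by
    rw [← h01, hX10, add_zero]
    exact hX0
  have h2 := hSTB K g N A c hK hA hc N₀ N₁ hJ0 hJ1 hcompl 1 h1 X hX
  rw [Matrix.one_mul] at h2
  rw [← hL]
  exact hL0 X h2

end Pool.Agent.Lib.MPf11a48.AS
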