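import Pool.Agent.Lib.MP_f11a48_ag.AS.SpecT
import Pool.Agent.Lib.MP_f11a48_ag.helper17.AutC

/-!
# Project AS, module AUT: automorphisms of `ℂ` which fix the algebraic numbers
-/

set_option autoImplicit false

open MvPolynomial Pool.Agent.Lib.MPf11a48.CM Filter Topology Asymptotics NumberField

namespace Pool.Agent.Lib.MPf11a48.AS

namespace AUTM

open Cardinal

theorem countable_Qbar : Countable Qbar := by
  have h1 := Algebraic.countable ℚ ℂ
  have h : {x : ℂ | IsAlgebraic ℚ x} = (Qbar : Set ℂ) := by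
    ext z
    exact mem_algebraicClosure_iff.symm
  rw [h] at h1
  exact h1.to_subtype

theorem uncountable {ι : Type} (v : ι → ℂ) (hv : IsTranscendenceBasis Qbar v) :
    ¬ Countable ι := by
  intro hc
  have h1 := IsAlgClosed.cardinal_le_max_transcendence_basis' v hv
  have h2 : #Qbar ≤ ℵ₀ := Cardinal.mk_le_aleph0_iff.2 countable_Qbar
  have h3 : #ι ≤ ℵ₀ := Cardinal.mk_le_aleph0_iff.2 hc
  have h4 : #ℂ ≤ ℵ₀ := h1.trans (max_le (max_le h2 h3) le_rfl)
  rw [Cardinal.mk_complex] at h4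
  exact absurd h4 (not_le.2 Cardinal.aleph0_lt_continuum)

end AUTM

open AUTM in
theorem specAUT : SpecAUT := by
  refine ⟨fun z h => AutC.mem_of_fixed Qbar (fun σ hσ => h σ hσ), ?_⟩
  intro z hz
  by_contra hcon
  have htr : Transcendental Qbar z := by
    intro halg
    apply hcon
    have h1 : IsAlgebraic ℚ z := by
      have : Algebra.IsAlgebraic ℚ Qbar := algebraicClosure.isAlgebraic ℚ ℂ
      exact IsAlgebraic.restrictScalars ℚ halg
    exact mem_algebraicClosure_iff.2 h1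
  have hind : AlgebraicIndepOn Qbar id ({z} : Set ℂ) :=
    algebraicIndependent_unique_type_iff.2 htr
  obtain ⟨t, hzt, ht⟩ := exists_isTranscendenceBasis_superset hind
  have hunc := uncountable _ ht
  apply hunc
  have hsub : t ⊆ {w : ℂ | ∃ τ : ℂ ≃+* ℂ, FixQ τ ∧ τ z = w} := by
    intro u hu
    have hu' : z ∈ t := hzt rfl
    obtain ⟨σ, hσ⟩ := AutC.exists_ringEquiv ht
      (renameEquiv Qbar (Equiv.swap (⟨z, hu'⟩ : t) ⟨u, hu⟩)).toRingEquiv
    refine ⟨σ, ?_, ?_⟩
    · intro a ha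
      have h := hσ (C ⟨a, ha⟩)
      have h1 : (renameEquiv Qbar (Equiv.swap (⟨z, hu'⟩ : t) ⟨u, hu⟩)).toRingEquiv
          (C ⟨a, ha⟩) = C ⟨a, ha⟩ :=
        (renameEquiv Qbar (Equiv.swap (⟨z, hu'⟩ : t) ⟨u, hu⟩)).commutes _
      rw [h1, aeval_C] at h
      exact h
    · have h := hσ (X ⟨z, hu'⟩)
      have h1 : (renameEquiv Qbar (Equiv.swap (⟨z, hu'⟩ : t) ⟨u, hu⟩)).toRingEquiv
          (X ⟨z, hu'⟩) = X ⟨u, hu⟩ := by
        change rename _ (X _) = _
        rw [rename_X, Equiv.swap_apply_left]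
      rw [h1, aeval_X, aeval_X] at h
      exact h
  exact (hz.mono hsub).to_subtype

end Pool.Agent.Lib.MPf11a48.AS
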