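import Pool.Agent.Lib.MP_f11a48_ag.AS.SpecT
import Pool.Agent.Lib.MP_f11a48_ag.U.Tl
import Pool.Agent.Lib.MP_f11a48_ag.U.Size
import Pool.Agent.Lib.MP_f11a48_ag.U.Jac

/-!
# Project AS, module AUX: the auxiliary polynomial
-/

set_option autoImplicit false

open MvPolynomial Pool.Agent.Lib.MPf11a48.CM Filter Topology Asymptotics NumberField
open Pool.Agent.Lib.MPf11a48.U

namespace Pool.Agent.Lib.MPf11a48.AS

namespace AUXM

/-! ## Independent functions -/

theorem indep (hBAS : SpecBAS) {β : ℕ} {I Λ : Type} [Fintype I] [Fintype Λ] (D : QD β I Λ)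
    (hD : D.Good) : ∃ s : Fin (β + 1) → Option I, ∀ Q : MvPolynomial (Fin (β + 1)) ℂ,
      rename s Q ∈ D.nn → Q = 0 := by
  classical
  obtain ⟨-, han, -, -, himm, -⟩ := hBAS D.toTH hD.good
  have h0 : D.th D.o 0 ≠ 0 := hD.good.zero
  set φ : I → Module.Dual ℂ (Fin β → ℂ) := fun i => (fderiv ℂ (D.f i) 0 : (Fin β → ℂ) →L[ℂ] ℂ)
    with hφ
  have hspan : Submodule.span ℂ (Set.range φ) = ⊤ := by
    rw [eq_top_iff]
    intro K _
    apply mem_span_of_iInf_ker_le_ker
    intro v hv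
    have hv0 : v = 0 := by
      apply himm 0 v h0
      intro i
      rw [Submodule.mem_iInf] at hv
      exact hv i
    rw [hv0]
    exact Submodule.zero_mem _
  obtain ⟨g, hg1, hg2, -⟩ := Submodule.exists_fun_fin_finrank_span_eq ℂ (Set.range φ)
  have hfin : Module.finrank ℂ (Submodule.span ℂ (Set.range φ)) = β := by
    rw [hspan, finrank_top, Subspace.dual_finrank_eq]
    simp
  choose s' hs' using hg1
  let s : Fin β → I := fun k => s' (Fin.cast hfin.symm k)
  have hs : ∀ v, (∀ k, fderiv ℂ (D.f (s k)) 0 v = 0) → v = 0 := by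
    intro v hv
    apply himm 0 v h0
    intro i
    have h1 : φ i ∈ Submodule.span ℂ (Set.range g) := by
      rw [hg2]; exact Submodule.subset_span ⟨i, rfl⟩
    have h2 : Submodule.span ℂ (Set.range g) ≤
        LinearMap.ker (LinearMap.applyₗ (R := ℂ) (M := Fin β → ℂ) (M₂ := ℂ) v) := by
      rw [Submodule.span_le]
      rintro _ ⟨k, rfl⟩
      rw [SetLike.mem_coe, LinearMap.mem_ker, LinearMap.applyₗ_apply_apply, ← hs' k]
      exact hv (Fin.cast hfin k)
    exact h2 h1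
  -- the local isomorphism
  set F : (Fin β → ℂ) → (Fin β → ℂ) := fun z k => D.f (s k) z with hF
  set F' : (Fin β → ℂ) →L[ℂ] (Fin β → ℂ) :=
    ContinuousLinearMap.pi fun k => fderiv ℂ (D.f (s k)) 0 with hF'
  have hstrict : HasStrictFDerivAt F F' 0 := by
    rw [hF', hasStrictFDerivAt_pi]
    intro k
    exact (han (s k) 0 h0).hasStrictFDerivAt
  have hinj : Function.Injective (F' : (Fin β → ℂ) →ₗ[ℂ] (Fin β → ℂ)) := by
    rw [← LinearMap.ker_eq_bot, LinearMap.ker_eq_bot']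
    intro v hv
    apply hs
    intro k
    exact congrFun hv k
  have hsurj : F'.range = ⊤ := by
    have h1 := LinearMap.injective_iff_surjective.1 hinj
    exact LinearMap.range_eq_top.2 h1
  have hmap := hstrict.map_nhds_eq_of_surj hsurj
  have hcont : ∀ᶠ z in 𝓝 (0 : Fin β → ℂ), D.th D.o z ≠ 0 :=
    (hD.good.diff D.o).continuous.continuousAt.eventually_ne h0
  have hex : ∀ᶠ u in 𝓝 (F 0), ∃ z, D.th D.o z ≠ 0 ∧ F z = u := by
    rw [← hmap, eventually_map]
    filter_upwards [hcont] with z hz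
    exact ⟨z, hz, rfl⟩
  refine ⟨Fin.cons none fun k => some (s k), fun Q hQ => ?_⟩
  refine JacM.eq_zero_of_eventually Q (Fin.cons 0 (F 0)) ?_
  have ht : Tendsto (fun y : Fin (β + 1) → ℂ => fun k : Fin β => y k.succ)
      (𝓝 (Fin.cons 0 (F 0))) (𝓝 (F 0)) := by
    have h1 : Continuous (fun y : Fin (β + 1) → ℂ => fun k : Fin β => y k.succ) := by fun_prop
    exact h1.tendsto _
  filter_upwards [ht.eventually hex] with y hy
  obtain ⟨z, hz, hzy⟩ := hy
  have h1 := hQ z (y 0 - D.ze z) hz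
  rw [QD.ev, aeval_rename] at h1
  rw [← h1]
  congr 2
  funext k
  refine Fin.cases ?_ (fun k => ?_) k
  · simp
  · simp only [Function.comp_apply, Fin.cons_succ, Option.elim_some]
    exact (congrFun hzy k).symm

/-! ## Numerical part -/

theorem numE (β T : ℕ) (hT : 1 ≤ T) : ∃ E : ℕ, 1 ≤ E ∧ E ≤ 2 * T ∧
    2 * T ^ β ≤ E ^ (β + 1) ∧ E ^ (β + 1) ≤ 2 ^ (β + 2) * T ^ β := by
  have hTβ : 1 ≤ T ^ β := Nat.one_le_pow _ _ hT
  have h2T : 2 * T ^ β ≤ (2 * T) ^ (β + 1) := by
    rw [mul_pow]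
    apply Nat.mul_le_mul
    · calc 2 = 2 ^ 1 := rfl
        _ ≤ 2 ^ (β + 1) := Nat.pow_le_pow_right (by norm_num) (by omega)
    · exact Nat.pow_le_pow_right hT (by omega)
  have hex : ∃ E : ℕ, 2 * T ^ β ≤ E ^ (β + 1) := ⟨_, h2T⟩
  have hE2 : 2 ≤ Nat.find hex := by
    by_contra h
    have h1 := Nat.find_spec hex
    have h2 : Nat.find hex ≤ 1 := by omega
    have h3 : Nat.find hex ^ (β + 1) ≤ 1 ^ (β + 1) := Nat.pow_le_pow_left h2 _
    rw [one_pow] at h3
    omega
  refine ⟨Nat.find hex, by omega, Nat.find_min' hex h2T, Nat.find_spec hex, ?_⟩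
  have h1 : (Nat.find hex - 1) ^ (β + 1) < 2 * T ^ β := by
    have := Nat.find_min hex (m := Nat.find hex - 1) (by omega)
    omega
  calc Nat.find hex ^ (β + 1) ≤ (2 * (Nat.find hex - 1)) ^ (β + 1) :=
        Nat.pow_le_pow_left (by omega) _
    _ = 2 ^ (β + 1) * (Nat.find hex - 1) ^ (β + 1) := mul_pow _ _ _
    _ ≤ 2 ^ (β + 1) * (2 * T ^ β) := Nat.mul_le_mul_left _ h1.le
    _ = _ := by ring

/-! ## Words -/

theorem lw_eq {β : ℕ} {I Λ : Type} (D : QD β I Λ) (w : List (Fin β))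
    (P : MvPolynomial (Option I) ℂ) : D.lw w P = dW (fun i j => D.pp i (some j)) w P := by
  unfold QD.lw
  induction w with
  | nil => rfl
  | cons j w ih =>
    rw [List.map_cons, it, dW, ih]
    rfl

theorem lw_map {β : ℕ} {I Λ : Type} [Fintype I] (D : QD β I Λ) {K : Type} [Field K]
    [NumberField K] {σ : K →+* ℂ} {xv : Option I → 𝓞 K}
    {p : Option I → Fin β → MvPolynomial (Option I) (𝓞 K)} (hI : D.IntD σ xv p)
    (w : List (Fin β)) (P : MvPolynomial (Option I) (𝓞 K)) :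
    D.lw w (map (oEmb σ) P) = map (oEmb σ) (dW p w P) := by
  rw [lw_eq, TlM.map_dW]
  congr 1
  funext i j
  exact hI.ders i j

theorem ev_map {β : ℕ} {I Λ : Type} [Fintype I] (D : QD β I Λ) {K : Type} [Field K]
    [NumberField K] {σ : K →+* ℂ} {xv : Option I → 𝓞 K}
    {p : Option I → Fin β → MvPolynomial (Option I) (𝓞 K)} (hI : D.IntD σ xv p)
    (P : MvPolynomial (Option I) (𝓞 K)) :
    D.ev 0 0 (map (oEmb σ) P) = oEmb σ (aeval xv P) := by
  rw [TlM.map_aeval', QD.ev]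
  congr 2
  funext i
  have h1 := hI.value i
  rw [QD.ev, aeval_X] at h1
  exact h1

end AUXM

open AUXM TlM SizeM in
/-- Module AUX. -/
theorem specAUX (hBAS : SpecBAS) (hNNP : SpecNNP) : SpecAUX := by
  intro β I Λ _ _ D hD hβ K _ _ σ xv p hI
  classical
  obtain ⟨s, hs⟩ := indep hBAS D hD
  obtain ⟨c, hc1, hSieg⟩ := siegel K
  obtain ⟨C1, hC1, hSize⟩ := specSIZE β (Option I) K xv p
  set a : ℝ := c * C1 * (3 * β + 2) with ha
  have hrR : (1 : ℝ) ≤ β := by exact_mod_cast hβ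
  have hcC1 : 1 ≤ c * C1 := by nlinarith
  have ha1 : 1 ≤ a := by rw [ha]; nlinarith
  refine ⟨⌈a⌉₊ + 2 * (3 * β + 2) + (β + 1) ^ (β + 1) * 2 ^ (β + 2), by omega, ?_⟩
  set C := ⌈a⌉₊ + 2 * (3 * β + 2) + (β + 1) ^ (β + 1) * 2 ^ (β + 2) with hC
  intro T hT
  obtain ⟨E, hE1, hE2T, hEl, hEu⟩ := numE β T hT
  set M := (3 * β + 2) * T with hM
  have hM1 : 1 ≤ M := by rw [hM]; nlinarith
  -- the monomials
  let pm : (Fin (β + 1) → Fin E) → MvPolynomial (Option I) (𝓞 K) :=
    fun e => monomial (Finsupp.mapDomain s (mon e)) 1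
  have hpmdeg : ∀ e, (pm e).totalDegree ≤ (β + 1) * E := fun e =>
    (totalDegree_monomial_le _ _).trans (degree_le_mapDomain s e)
  have hpmsum : ∀ e, ∑ m ∈ (pm e).support, house (algebraMap (𝓞 K) K ((pm e).coeff m)) ≤ 1 := by
    intro e
    simp only [pm]
    rw [support_monomial, if_neg one_ne_zero, Finset.sum_singleton, coeff_monomial, if_pos rfl,
      map_one, house_one]
  have hval : ∀ (w : List (Fin β)) (e), (β + 1) * E + w.length ≤ M →
      house (algebraMap (𝓞 K) K (aeval xv (dW p w (pm e)))) ≤ (C1 * M) ^ M := by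
    intro w e hM'
    refine (hSize _ 1 (pm e) w (hpmdeg e) (hpmsum e)).trans ?_
    rw [one_mul]
    exact pow_bound hC1 hM' (by omega) hM1
  -- the linear system
  let mat : Matrix (Fin β → Fin T) (Fin (β + 1) → Fin E) (𝓞 K) :=
    fun m e => aeval xv (dW p (word fun j => (m j : ℕ)) (pm e))
  have hMR : (1 : ℝ) ≤ M := by exact_mod_cast hM1
  have hC1M : 1 ≤ C1 * M := by nlinarith
  have hmat : ∀ m e, house (algebraMap (𝓞 K) K (mat m e)) ≤ (C1 * M) ^ M := by
    intro m e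
    apply hval
    rw [length_word, hM]
    have h1 : ∑ j, (m j : ℕ) ≤ β * T := by
      calc ∑ j, (m j : ℕ) ≤ ∑ _j : Fin β, T := Finset.sum_le_sum fun j _ => (m j).isLt.le
        _ = β * T := by simp
    nlinarith
  have hcardβ : Fintype.card (Fin (β + 1) → Fin E) = E ^ (β + 1) := by simp
  have hcardα : Fintype.card (Fin β → Fin T) = T ^ β := by simp
  obtain ⟨ξ, hξ0, hξ1, hξ2⟩ := hSieg _ _ mat ((C1 * M) ^ M) (one_le_pow₀ hC1M) hmat
    (by rw [hcardα, hcardβ]; exact hEl)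
    (by rw [hcardβ]; positivity)
  rw [hcardβ] at hξ2
  set N : ℕ := E ^ (β + 1) with hN
  set P : MvPolynomial (Option I) (𝓞 K) := rename s (QQ ξ) with hP
  have hPsum : P = ∑ e, ξ e • pm e := rename_QQ s ξ
  -- numerical estimates
  have hTR : (1 : ℝ) ≤ T := by exact_mod_cast hT
  have hMT : (M : ℝ) = (3 * β + 2) * T := by rw [hM]; push_cast; ring
  have haT : a * T = c * C1 * M := by rw [ha, hMT]; ring
  have haT1 : 1 ≤ a * T := by nlinarith
  have hNle : (N : ℝ) ≤ (a * T) ^ (β + 1) := by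
    rw [hN]
    push_cast
    apply pow_le_pow_left₀ (by positivity)
    have h2 : (E : ℝ) ≤ 2 * T := by exact_mod_cast hE2T
    have h3 : (2 : ℝ) ≤ a := by rw [ha]; nlinarith
    nlinarith
  have hcle : c ≤ a * T := by
    have h1 : (1 : ℝ) ≤ C1 * M := hC1M
    calc c = c * 1 := (mul_one c).symm
      _ ≤ c * (C1 * M) := by gcongr
      _ = a * T := by rw [haT]; ring
  have hC1Ma : C1 * M ≤ a * T := by
    rw [haT]
    have h1 : 0 ≤ C1 * (M : ℝ) := by positivity
    nlinarith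
  have hB : (C1 * (M : ℝ)) ^ M ≤ (a * T) ^ M := pow_le_pow_left₀ (by positivity) hC1Ma _
  have hr3 : 2 * β + 3 ≤ M := by rw [hM]; nlinarith
  have hH : ∑ e, house (algebraMap (𝓞 K) K (ξ e)) ≤ (a * T) ^ (2 * M) := by
    calc ∑ e, house (algebraMap (𝓞 K) K (ξ e)) ≤
          ∑ _e : Fin (β + 1) → Fin E, c * N * (C1 * M) ^ M :=
          Finset.sum_le_sum fun e _ => hξ2 e
      _ = N * (c * N * (C1 * M) ^ M) := by
          rw [Finset.sum_const, Finset.card_univ, hcardβ, nsmul_eq_mul]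
      _ ≤ (a * T) ^ (β + 1) * ((a * T) * (a * T) ^ (β + 1) * (a * T) ^ M) := by gcongr
      _ = (a * T) ^ (2 * β + 3 + M) := by ring
      _ ≤ (a * T) ^ (2 * M) := pow_le_pow_right₀ haT1 (by omega)
  refine ⟨(β + 1) * E, P, ?_, ?_, ?_, ?_, ?_, ?_⟩
  · exact Nat.mul_pos (by omega) hE1
  · calc ((β + 1) * E) ^ (β + 1) = (β + 1) ^ (β + 1) * E ^ (β + 1) := mul_pow _ _ _
      _ ≤ (β + 1) ^ (β + 1) * (2 ^ (β + 2) * T ^ β) := Nat.mul_le_mul_left _ hEu
      _ = (β + 1) ^ (β + 1) * 2 ^ (β + 2) * T ^ β := by ring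
      _ ≤ C * T ^ β := Nat.mul_le_mul_right _ (by rw [hC]; omega)
  · rw [hPsum]
    refine totalDegree_finsetSum_le fun e _ => ?_
    exact (totalDegree_smul_le _ _).trans (hpmdeg e)
  · intro hmem
    rw [hP, map_rename] at hmem
    have h1 := hs _ hmem
    apply QQ_ne hξ0
    apply map_injective _ (oEmb_injective σ)
    rw [h1, map_zero]
  · have hsz := isSize_house K
    have h1 : ∑ m ∈ P.support, house (algebraMap (𝓞 K) K (P.coeff m)) ≤
        ∑ e, house (algebraMap (𝓞 K) K (ξ e)) := by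
      have h2 := len_sum hsz Finset.univ
        fun e => monomial (Finsupp.mapDomain s (mon (r := β) (D := E) e)) (ξ e)
      have h3 : ∑ e, monomial (Finsupp.mapDomain s (mon (r := β) (D := E) e)) (ξ e) = P := by
        rw [hPsum]
        refine Finset.sum_congr rfl fun e _ => ?_
        simp only [pm]
        rw [smul_monomial, smul_eq_mul, mul_one]
      rw [h3] at h2
      exact h2.trans (Finset.sum_le_sum fun e _ => len_monomial_le hsz _ _)
    refine h1.trans (hH.trans ?_)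
    have hCa : a ≤ C := by
      have h2 : a ≤ ⌈a⌉₊ := Nat.le_ceil a
      have h3 : (⌈a⌉₊ : ℝ) ≤ C := by
        exact_mod_cast (show ⌈a⌉₊ ≤ C by rw [hC]; omega)
      linarith
    have hCT : a * T ≤ ((C * T : ℕ) : ℝ) := by push_cast; gcongr
    have h2M : 2 * M ≤ C * T := by
      rw [hM, ← mul_assoc]
      exact Nat.mul_le_mul_right _ (by rw [hC]; omega)
    calc (a * T) ^ (2 * M) ≤ ((C * T : ℕ) : ℝ) ^ (2 * M) := pow_le_pow_left₀ (by positivity) hCT _
      _ ≤ ((C * T : ℕ) : ℝ) ^ (C * T) := pow_le_pow_right₀ (haT1.trans hCT) h2M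
  · intro w hw
    have hvalP : ∀ w, aeval xv (dW p w P) = ∑ e, ξ e * aeval xv (dW p w (pm e)) := by
      intro w
      rw [dW_eq, hPsum, map_sum, map_sum]
      refine Finset.sum_congr rfl fun e _ => ?_
      rw [map_smul, ← dW_eq, map_smul, smul_eq_mul]
    have h1 : ∀ j, w.count j < T := fun j => lt_of_le_of_lt (List.count_le_length) hw
    have h2 : aeval xv (dW p (word fun j => w.count j) P) = 0 := by
      have h3 : mat.mulVec ξ (fun j => ⟨w.count j, h1 j⟩) = 0 := by rw [hξ1]; rfl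
      rw [hvalP]
      refine Eq.trans ?_ h3
      rw [Matrix.mulVec, dotProduct]
      exact Finset.sum_congr rfl fun e _ => mul_comm _ _
    have h3 := (hNNP D hD).2.2.2 (w.map some) ((word fun j => w.count j).map some)
      ((perm_word w).map some) (map (oEmb σ) P)
    have h4 := h3 0 0 hD.good.zero
    rw [map_sub, sub_eq_zero] at h4
    change D.ev 0 0 (it D.dl (w.map some) (map (oEmb σ) P)) = 0
    rw [h4]
    change D.ev 0 0 (D.lw (word fun j => w.count j) (map (oEmb σ) P)) = 0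
    rw [lw_map D hI, ev_map D hI, h2, map_zero]

end Pool.Agent.Lib.MPf11a48.AS
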