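import Pool.Agent.Lib.MP_f11a48_ag.AS.SpecX

/-!
# Project AS, module AXF: Theorem AX, no algebraic curve lies in a leaf
-/

set_option autoImplicit false

open MvPolynomial Pool.Agent.Lib.MPf11a48.CM Filter Topology

namespace Pool.Agent.Lib.MPf11a48.AS

theorem specAXF (hS : SpecSHF) (hB : SpecBIH) (hC : SpecCLO) (hQ : SpecQUA) : SpecAXF := by
  intro β I Λ _ _ D hD hSS u₀ ζ hζ hζ0 hf hz
  by_contra hne
  obtain ⟨hf', hz'⟩ := hS D hD u₀ ζ hζ hζ0 hf hz
  obtain ⟨U, hU0, hU⟩ := hB D hD u₀ (fun u => ζ u - ζ u₀) (hζ.sub analyticAt_const)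
    (sub_self _) hf' hz' (fun h => hne (h.mono fun u hu => sub_eq_zero.1 hu))
  have hspan := hC D.toTH hD.good U (fun s => by
    obtain ⟨P, hP0, hP⟩ := hU fun k => some (s k)
    exact ⟨P, hP0, fun z hzU hz0 => hP z hzU hz0⟩)
  obtain ⟨x, hxU, hx⟩ := hSS U hU0 hspan
  refine hx (hQ D hD U (fun s => ?_) x hxU)
  obtain ⟨P, hP0, hP⟩ := hU (Fin.cons none fun k => some (s k))
  refine ⟨rename (finSuccEquiv (Module.finrank ℂ U)) P, fun h => hP0 ?_, fun z hzU hz0 => ?_⟩
  · exact rename_injective _ (finSuccEquiv (Module.finrank ℂ U)).injective (by rw [h, map_zero])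
  · rw [eval_rename]
    have h1 := hP z hzU hz0
    convert h1 using 2
    congr 1
    funext k
    refine Fin.cases ?_ (fun j => ?_) k
    · simp
    · simp

end Pool.Agent.Lib.MPf11a48.AS
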