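import Pool.Agent.Lib.MP_f11a48_ag.AS.SpecF
import Pool.Agent.Lib.MP_f11a48_ag.U.Osgood

/-!
# Project AS, module SRG: the ring `S`
-/

set_option autoImplicit false

open MvPolynomial Pool.Agent.Lib.MPf11a48.CM Filter Topology Asymptotics

namespace Pool.Agent.Lib.MPf11a48.AS

namespace SRGM

variable {Z I Λ : Type} [Fintype Z] [Fintype I] [Fintype Λ] {D : TH Z I Λ}

theorem add {A B : (Z → ℂ) → ℂ} (hD : D.Good) (hA : D.IsS A) (hB : D.IsS B) :
    D.IsS fun z => A z + B z := by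
  obtain ⟨⟨k, G, hG, hAG⟩, hAp⟩ := hA
  obtain ⟨⟨k', G', hG', hBG⟩, hBp⟩ := hB
  refine ⟨⟨k + k', fun z => G z * D.th D.o z ^ k' + G' z * D.th D.o z ^ k, ?_, ?_⟩, ?_⟩
  · exact (hG.mul ((hD.diff D.o).pow k')).add (hG'.mul ((hD.diff D.o).pow k))
  · intro z hz
    beta_reduce
    rw [← hAG z hz, ← hBG z hz, pow_add]
    ring
  · intro l z hz
    beta_reduce
    rw [hAp l z hz, hBp l z hz]

theorem mul {A B : (Z → ℂ) → ℂ} (hA : D.IsS A) (hB : D.IsS B) :
    D.IsS fun z => A z * B z := by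
  obtain ⟨⟨k, G, hG, hAG⟩, hAp⟩ := hA
  obtain ⟨⟨k', G', hG', hBG⟩, hBp⟩ := hB
  refine ⟨⟨k + k', fun z => G z * G' z, hG.mul hG', ?_⟩, ?_⟩
  · intro z hz
    beta_reduce
    rw [← hAG z hz, ← hBG z hz, pow_add]
    ring
  · intro l z hz
    beta_reduce
    rw [hAp l z hz, hBp l z hz]

theorem const (c : ℂ) : D.IsS fun _ => c :=
  ⟨⟨0, fun _ => c, differentiable_const c, fun z _ => by rw [pow_zero, mul_one]⟩, fun _ _ _ => rfl⟩

theorem vec_single (l : Λ) [DecidableEq Λ] : D.vec (Pi.single l 1) = D.lat l := by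
  unfold TH.vec
  rw [Finset.sum_eq_single l]
  · rw [Pi.single_eq_same, Int.cast_one, one_smul]
  · intro b _ hb
    rw [Pi.single_eq_of_ne hb, Int.cast_zero, zero_smul]
  · intro h
    exact absurd (Finset.mem_univ l) h

theorem gen (hD : D.Good) (i : I) : D.IsS (D.f i) := by
  classical
  refine ⟨⟨1, D.th i, hD.diff i, ?_⟩, ?_⟩
  · intro z hz
    unfold TH.f
    rw [pow_one, div_mul_cancel₀ _ hz]
  · intro l z hz
    have h1 := hD.aut (Pi.single l 1) i z
    have h2 := hD.aut (Pi.single l 1) D.o z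
    rw [vec_single] at h1 h2
    unfold TH.f
    rw [h1, h2, mul_div_mul_left _ _ (Complex.exp_ne_zero _)]

theorem poly (hD : D.Good) (P : MvPolynomial I ℂ) : D.IsS fun z => eval (D.fv z) P := by
  induction P using MvPolynomial.induction_on with
  | C a => simpa using const (D := D) a
  | add p q hp hq => simpa using add hD hp hq
  | mul_X p i hp => simpa [TH.fv] using mul hp (gen hD i)

theorem ana (hD : D.Good) {A : (Z → ℂ) → ℂ} (hA : D.IsS A) (z : Z → ℂ) (hz : D.th D.o z ≠ 0) :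
    AnalyticAt ℂ A z := by
  obtain ⟨⟨k, G, hG, hAG⟩, _⟩ := hA
  have h1 : AnalyticAt ℂ G z := U.Osgood.analyticAt_of_differentiable hG z
  have h2 : AnalyticAt ℂ (D.th D.o) z := U.Osgood.analyticAt_of_differentiable (hD.diff D.o) z
  have h3 : AnalyticAt ℂ (fun w => G w / D.th D.o w ^ k) z := h1.div (h2.pow k) (pow_ne_zero k hz)
  refine h3.congr ?_
  have h4 : ∀ᶠ w in 𝓝 z, D.th D.o w ≠ 0 := (hD.diff D.o).continuous.continuousAt.eventually_ne hz
  filter_upwards [h4] with w hw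
  rw [← hAG w hw, mul_div_assoc, div_self (pow_ne_zero k hw), mul_one]

end SRGM

/-- Module SRG. -/
theorem specSRG : SpecSRG := by
  intro Z I Λ _ _ _ D hD
  exact ⟨fun P => SRGM.poly hD P, fun A B hA hB => SRGM.add hD hA hB,
    fun A B hA hB => SRGM.mul hA hB, fun A hA z hz => SRGM.ana hD hA z hz⟩

end Pool.Agent.Lib.MPf11a48.AS
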