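import Pool.Agent.Lib.MP_f11a48_ag.AS.SpecF
import Pool.Agent.Lib.MP_f11a48_ag.AS.Srg
import Pool.Agent.Lib.MP_f11a48_ag.U.Osgood
import Pool.Agent.Lib.MP_f11a48_ag.U.Clos

/-!
# Project AS, module BAS: basic properties of theta data
-/

set_option autoImplicit false

open MvPolynomial Pool.Agent.Lib.MPf11a48.CM Filter Topology Asymptotics

namespace Pool.Agent.Lib.MPf11a48.AS

namespace BASM

section analytic

variable {E : Type} [NormedAddCommGroup E] [NormedSpace ℂ E]

/-- products of analytic functions on a convex open set (as in `U/Orb.lean`) -/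
theorem loc_mul {U : Set E} (hU : Convex ℝ U) {F G : E → ℂ}
    (hF : AnalyticOnNhd ℂ F U) (hG : AnalyticOnNhd ℂ G U) (h : ∀ z ∈ U, F z * G z = 0) :
    (∀ z ∈ U, F z = 0) ∨ (∀ z ∈ U, G z = 0) := by
  by_contra hc
  push Not at hc
  obtain ⟨⟨z₁, hz₁, h₁⟩, z₂, hz₂, h₂⟩ := hc
  let γ : ℂ → E := fun t => z₁ + t • (z₂ - z₁)
  have hγ : ∀ t, AnalyticAt ℂ γ t := by
    intro t
    exact analyticAt_const.add (analyticAt_id.smul analyticAt_const)
  have hconv : Convex ℝ (γ ⁻¹' U) := by
    intro s hs t ht a b ha hb hab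
    show γ (a • s + b • t) ∈ U
    have h3 : γ (a • s + b • t) = a • γ s + b • γ t := by
      show z₁ + (a • s + b • t) • (z₂ - z₁) =
        a • (z₁ + s • (z₂ - z₁)) + b • (z₁ + t • (z₂ - z₁))
      rw [smul_add, smul_add, add_smul, smul_assoc, smul_assoc]
      have h4 : z₁ = a • z₁ + b • z₁ := by rw [← add_smul, hab, one_smul]
      nth_rewrite 1 [h4]
      abel
    rw [h3]
    exact hU hs ht ha hb hab
  rcases AnalyticOnNhd.eq_zero_or_eq_zero_of_mul_eq_zero (U := γ ⁻¹' U)
    (f := fun t => F (γ t)) (g := fun t => G (γ t))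
    (fun t ht => (hF (γ t) ht).comp (hγ t)) (fun t ht => (hG (γ t) ht).comp (hγ t))
    (fun t ht => h (γ t) ht) hconv.isPreconnected with h5 | h5
  · apply h₁
    have h6 := h5 0 (by
      show z₁ + (0 : ℂ) • (z₂ - z₁) ∈ U
      rw [zero_smul, add_zero]; exact hz₁)
    have h7 : γ 0 = z₁ := by
      show z₁ + (0 : ℂ) • (z₂ - z₁) = z₁
      rw [zero_smul, add_zero]
    rw [h7] at h6
    exact h6
  · apply h₂
    have h7 : γ 1 = z₂ := by
      show z₁ + (1 : ℂ) • (z₂ - z₁) = z₂
      rw [one_smul, add_sub_cancel]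
    have h6 := h5 1 (by show γ 1 ∈ U; rw [h7]; exact hz₂)
    rw [h7] at h6
    exact h6

variable [FiniteDimensional ℂ E]

/-- products of entire functions -/
theorem ent_mul {F G : E → ℂ} (hF : Differentiable ℂ F) (hG : Differentiable ℂ G)
    (h : ∀ z, F z * G z = 0) : (∀ z, F z = 0) ∨ ∀ z, G z = 0 := by
  rcases loc_mul (U := Set.univ) convex_univ
    (fun z _ => U.Osgood.analyticAt_of_differentiable hF z)
    (fun z _ => U.Osgood.analyticAt_of_differentiable hG z) (fun z _ => h z) with h1 | h1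
  · exact Or.inl fun z => h1 z trivial
  · exact Or.inr fun z => h1 z trivial

end analytic

variable {Z I Λ : Type} [Fintype Z] [Fintype I] [Fintype Λ] {D : TH Z I Λ}

/-- part (1) -/
theorem per (hD : D.Good) (x : Λ → ℤ) (z : Z → ℂ) :
    (D.th D.o (z + D.vec x) ≠ 0 ↔ D.th D.o z ≠ 0) ∧ D.fv (z + D.vec x) = D.fv z := by
  constructor
  · rw [hD.aut x D.o z, mul_ne_zero_iff]
    exact ⟨fun h => h.2, fun h => ⟨Complex.exp_ne_zero _, h⟩⟩
  · funext i
    unfold TH.fv TH.f
    rw [hD.aut x i z, hD.aut x D.o z, mul_div_mul_left _ _ (Complex.exp_ne_zero _)]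

/-- part (3) -/
theorem ext_zero (hD : D.Good) (F : (Z → ℂ) → ℂ) (hF : Differentiable ℂ F)
    (h : ∀ z, D.th D.o z ≠ 0 → F z = 0) : ∀ z, F z = 0 := by
  have h1 : ∀ z, F z * D.th D.o z = 0 := by
    intro z
    by_cases hz : D.th D.o z = 0
    · rw [hz, mul_zero]
    · rw [h z hz, zero_mul]
  rcases ent_mul hF (hD.diff D.o) h1 with h2 | h2
  · exact h2
  · exact absurd (h2 0) hD.zero

/-- part (4) -/
theorem prime (hD : D.Good) : D.nf.IsPrime := by
  refine ⟨?_, ?_⟩
  · intro h
    have h1 : (1 : MvPolynomial I ℂ) ∈ D.nf := by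
      rw [h]
      exact Submodule.mem_top
    have h2 := h1 0 hD.zero
    rw [map_one] at h2
    exact one_ne_zero h2
  · intro P Q hPQ
    obtain ⟨⟨k, G, hG, hPG⟩, -⟩ := SRGM.poly hD P
    obtain ⟨⟨m, H, hH, hQH⟩, -⟩ := SRGM.poly hD Q
    have h1 : ∀ z, G z * H z = 0 := by
      refine ext_zero hD (fun z => G z * H z) (hG.mul hH) fun z hz => ?_
      beta_reduce
      rw [← hPG z hz, ← hQH z hz]
      have h2 := hPQ z hz
      rw [map_mul] at h2
      calc eval (D.fv z) P * D.th D.o z ^ k * (eval (D.fv z) Q * D.th D.o z ^ m)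
          = (eval (D.fv z) P * eval (D.fv z) Q) * (D.th D.o z ^ k * D.th D.o z ^ m) := by ring
        _ = 0 := by rw [h2, zero_mul]
    rcases ent_mul hG hH h1 with h2 | h2
    · left
      intro z hz
      have h3 := hPG z hz
      rw [h2 z] at h3
      exact (mul_eq_zero.1 h3).resolve_right (pow_ne_zero _ hz)
    · right
      intro z hz
      have h3 := hQH z hz
      rw [h2 z] at h3
      exact (mul_eq_zero.1 h3).resolve_right (pow_ne_zero _ hz)

/-- part (5) -/
theorem imm (hD : D.Good) (z v : Z → ℂ) (hz : D.th D.o z ≠ 0)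
    (h : ∀ i, fderiv ℂ (D.f i) z v = 0) : v = 0 := by
  by_contra hv
  obtain ⟨i, j, hij⟩ := hD.imm z v hv
  have h1 : ∀ i, fderiv ℂ (D.th i) z v * D.th D.o z = D.th i z * fderiv ℂ (D.th D.o) z v := by
    intro i
    have hf : HasFDerivAt (D.th i) (fderiv ℂ (D.th i) z) z := ((hD.diff i) z).hasFDerivAt
    have ho : HasFDerivAt (D.th D.o) (fderiv ℂ (D.th D.o) z) z := ((hD.diff D.o) z).hasFDerivAt
    have hq : HasFDerivAt (D.f i) (fderiv ℂ (D.f i) z) z := by
      have : DifferentiableAt ℂ (D.f i) z := by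
        have e : D.f i = fun w => D.th i w * (D.th D.o w)⁻¹ := by
          funext w
          exact div_eq_mul_inv _ _
        rw [e]
        exact ((hD.diff i) z).mul (((hD.diff D.o) z).inv hz)
      exact this.hasFDerivAt
    -- differentiate `f_i th_o = th_i`
    have hm := hq.mul ho
    have hev : (fun w => D.f i w * D.th D.o w) =ᶠ[𝓝 z] D.th i := by
      have hne : ∀ᶠ w in 𝓝 z, D.th D.o w ≠ 0 :=
        ((hD.diff D.o) z).continuousAt.eventually_ne hz
      filter_upwards [hne] with w hw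
      unfold TH.f
      rw [div_mul_cancel₀ _ hw]
    have hm' : HasFDerivAt (fun w => D.f i w * D.th D.o w) (fderiv ℂ (D.th i) z) z :=
      hf.congr_of_eventuallyEq hev
    have hu := hm'.unique hm
    have hu' := DFunLike.congr_fun hu v
    simp only [ContinuousLinearMap.add_apply, ContinuousLinearMap.smul_apply, smul_eq_mul,
      h i, mul_zero, add_zero] at hu'
    rw [hu']
    unfold TH.f
    field_simp
  apply hij
  have h2 := h1 i
  have h3 := h1 j
  apply mul_right_cancel₀ hz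
  calc D.th i z * fderiv ℂ (D.th j) z v * D.th D.o z
      = D.th i z * (fderiv ℂ (D.th j) z v * D.th D.o z) := by ring
    _ = D.th i z * (D.th j z * fderiv ℂ (D.th D.o) z v) := by rw [h3]
    _ = D.th j z * (D.th i z * fderiv ℂ (D.th D.o) z v) := by ring
    _ = D.th j z * (fderiv ℂ (D.th i) z v * D.th D.o z) := by rw [h2]
    _ = D.th j z * fderiv ℂ (D.th i) z v * D.th D.o z := by ring

/-- part (6) -/
theorem inj (hD : D.Good) (z w : Z → ℂ) (hz : D.th D.o z ≠ 0) (hw : D.th D.o w ≠ 0)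
    (h : D.fv z = D.fv w) : ∃ x : Λ → ℤ, z - w = D.vec x := by
  refine hD.inj z w fun i j => ?_
  have hi : D.th i z / D.th D.o z = D.th i w / D.th D.o w := congrFun h i
  have hj : D.th j z / D.th D.o z = D.th j w / D.th D.o w := congrFun h j
  rw [div_eq_div_iff hz hw] at hi hj
  apply mul_right_cancel₀ (mul_ne_zero hz hw)
  calc D.th i z * D.th j w * (D.th D.o z * D.th D.o w)
      = (D.th i z * D.th D.o w) * (D.th j w * D.th D.o z) := by ring
    _ = (D.th i w * D.th D.o z) * (D.th j z * D.th D.o w) := by rw [hi, hj]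
    _ = D.th j z * D.th i w * (D.th D.o z * D.th D.o w) := by ring

theorem vec_single (l : Λ) [DecidableEq Λ] : D.vec (Pi.single l 1) = D.lat l :=
  SRGM.vec_single l

/-- part (7) -/
theorem perS (hD : D.Good) (A : (Z → ℂ) → ℂ) (hA : D.IsS A) (x : Λ → ℤ) (z : Z → ℂ)
    (hz : D.th D.o z ≠ 0) : A (z + D.vec x) = A z := by
  classical
  let S : AddSubgroup (Z → ℂ) :=
    { carrier := {v | ∀ z, (D.th D.o (z + v) ≠ 0 ↔ D.th D.o z ≠ 0) ∧
        (D.th D.o z ≠ 0 → A (z + v) = A z)}
      zero_mem' := by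
        intro z
        rw [add_zero]
        exact ⟨Iff.rfl, fun _ => rfl⟩
      add_mem' := by
        intro a b ha hb z
        rw [← add_assoc]
        exact ⟨(hb _).1.trans (ha _).1,
          fun hz => ((hb _).2 ((ha _).1.2 hz)).trans ((ha _).2 hz)⟩
      neg_mem' := by
        intro a ha z
        have h := ha (z + -a)
        rw [neg_add_cancel_right] at h
        exact ⟨h.1.symm, fun hz => (h.2 (h.1.1 hz)).symm⟩ }
  have hlat : ∀ l, D.lat l ∈ S := by
    intro l z
    have h1 := (per hD (Pi.single l 1) z).1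
    rw [vec_single] at h1
    exact ⟨h1, fun hz => hA.2 l z hz⟩
  have hmem : D.vec x ∈ S := by
    unfold TH.vec
    refine S.sum_mem fun a _ => ?_
    rw [U.Clos.int_smul_eq]
    exact S.zsmul_mem (hlat a) _
  exact (hmem z).2 hz

/-- part (8) -/
theorem ball (hD : D.Good) : ∃ R : ℝ, 1 ≤ R ∧ ∀ z, ∃ x : Λ → ℤ, ‖z + D.vec x‖ ≤ R := by
  obtain ⟨R, hR⟩ := U.Clos.near D.lat hD.indep hD.card
  refine ⟨max 1 R, le_max_left _ _, fun z => ?_⟩
  obtain ⟨x, hx⟩ := hR z
  refine ⟨-x, ?_⟩
  have h1 : z + D.vec (-x) = z - ∑ a, (x a : ℂ) • D.lat a := by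
    unfold TH.vec
    rw [sub_eq_add_neg, ← Finset.sum_neg_distrib]
    congr 1
    refine Finset.sum_congr rfl fun a _ => ?_
    rw [Pi.neg_apply, Int.cast_neg, neg_smul]
  rw [h1]
  exact hx.trans (le_max_right _ _)

end BASM

open BASM in
theorem specBAS : SpecBAS := by
  intro Z I Λ _ _ _ D hD
  refine ⟨per hD, fun i z hz => SRGM.ana hD (SRGM.gen hD i) z hz, ext_zero hD, prime hD,
    imm hD, inj hD, perS hD, ball hD⟩

end Pool.Agent.Lib.MPf11a48.AS
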