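import Pool.Agent.Lib.MP_f11a48_ag.AS.SpecX

/-!
# Project AS, module BIH: algebraic relations on the span of the curve
-/

set_option autoImplicit false

open MvPolynomial Pool.Agent.Lib.MPf11a48.CM Filter Topology

namespace Pool.Agent.Lib.MPf11a48.AS

namespace BIHM

/-- the polynomials in the `f_i` and `ze` become entire after multiplication by a power of `th_o` -/
theorem poly_entire {β : ℕ} {I Λ : Type} [Fintype I] [Fintype Λ] (D : QD β I Λ) (hD : D.Good)
    {σ : Type} (s : σ → Option I) (P : MvPolynomial σ ℂ) :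
    ∃ (N : ℕ) (G : (Fin β → ℂ) → ℂ), Differentiable ℂ G ∧ ∀ z, D.th D.o z ≠ 0 →
      G z = D.th D.o z ^ N *
        eval (fun k => Option.elim (s k) (D.ze z) fun i => D.f i z) P := by
  have hth := hD.good.diff
  induction P using MvPolynomial.induction_on with
  | C a =>
    refine ⟨0, fun _ => a, differentiable_const _, fun z _ => ?_⟩
    rw [eval_C, pow_zero, one_mul]
  | add p q hp hq =>
    obtain ⟨N, G, hG, h1⟩ := hp
    obtain ⟨M, H, hH, h2⟩ := hq
    refine ⟨N + M, fun z => D.th D.o z ^ M * G z + D.th D.o z ^ N * H z, ?_, fun z hz => ?_⟩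
    · exact (((hth D.o).pow M).mul hG).add (((hth D.o).pow N).mul hH)
    · show D.th D.o z ^ M * G z + D.th D.o z ^ N * H z = _
      rw [h1 z hz, h2 z hz, map_add]
      ring
  | mul_X p k hp =>
    obtain ⟨N, G, hG, h1⟩ := hp
    rcases hk : s k with _ | i
    · refine ⟨N + D.m, fun z => G z * D.Y z, hG.mul hD.Y_diff, fun z hz => ?_⟩
      show G z * D.Y z = _
      rw [h1 z hz, map_mul, eval_X, hk]
      simp only [Option.elim_none, QD.ze]
      rw [pow_add]
      field_simp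
    · refine ⟨N + 1, fun z => G z * D.th i z, hG.mul (hth i), fun z hz => ?_⟩
      show G z * D.th i z = _
      rw [h1 z hz, map_mul, eval_X, hk]
      simp only [Option.elim_some, TH.f]
      rw [pow_add, pow_one]
      field_simp

/-- the derivatives of the curve in any neighbourhood of `u₀` span the span of the curve -/
theorem span_deriv {E : Type} [NormedAddCommGroup E] [NormedSpace ℂ E] [FiniteDimensional ℂ E]
    (u₀ : ℂ) (ζ : ℂ → E) (ε : ℝ) (hζ : AnalyticOnNhd ℂ ζ (Metric.ball u₀ ε)) (h0 : ζ u₀ = 0)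
    (hsp : Submodule.span ℂ (ζ '' Metric.ball u₀ ε) = ⊤) (δ : ℝ) (hδ : 0 < δ) (hδε : δ ≤ ε) :
    Submodule.span ℂ (deriv ζ '' Metric.ball u₀ δ) = ⊤ := by
  by_contra hne
  obtain ⟨f, hf0, hf⟩ := Submodule.exists_le_ker_of_lt_top _ (lt_top_iff_ne_top.2 hne)
  let F : E →L[ℂ] ℂ := LinearMap.toContinuousLinearMap f
  have hsub : Metric.ball u₀ δ ⊆ Metric.ball u₀ ε := Metric.ball_subset_ball hδε
  have hFζ : AnalyticOnNhd ℂ (fun u => F (ζ u)) (Metric.ball u₀ ε) := fun u hu =>
    (F.analyticAt _).comp (hζ u hu)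
  have hd : ∀ u ∈ Metric.ball u₀ δ, deriv (fun u => F (ζ u)) u = 0 := by
    intro u hu
    have h1 : HasDerivAt ζ (deriv ζ u) u := (hζ u (hsub hu)).differentiableAt.hasDerivAt
    have h2 : HasDerivAt (fun u => F (ζ u)) (F (deriv ζ u)) u := F.hasFDerivAt.comp_hasDerivAt u h1
    rw [h2.deriv]
    exact hf (Submodule.subset_span ⟨u, hu, rfl⟩)
  have hconst : ∀ u ∈ Metric.ball u₀ δ, F (ζ u) = 0 := by
    intro u hu
    have h1 := Metric.isOpen_ball.is_const_of_deriv_eq_zero
      (convex_ball u₀ δ).isPreconnected (f := fun u => F (ζ u))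
      (fun u hu => (hFζ u (hsub hu)).differentiableAt.differentiableWithinAt)
      (fun u hu => hd u hu) hu (Metric.mem_ball_self hδ)
    simp only [h0, map_zero] at h1
    exact h1
  have hall := hFζ.eqOn_zero_of_preconnected_of_eventuallyEq_zero
    (convex_ball u₀ ε).isPreconnected (Metric.mem_ball_self (hδ.trans_le hδε))
    (Filter.mem_of_superset (Metric.ball_mem_nhds u₀ hδ) fun u hu => hconst u hu)
  apply hf0
  have h2 : Submodule.span ℂ (ζ '' Metric.ball u₀ ε) ≤ LinearMap.ker f := by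
    rw [Submodule.span_le]
    rintro _ ⟨u, hu, rfl⟩
    exact hall hu
  rw [hsp] at h2
  exact LinearMap.ker_eq_top.1 (top_le_iff.1 h2)

end BIHM

open BIHM in
theorem specBIH (hS : SpecSMM) (hA : SpecAGD) : SpecBIH := by
  intro β I Λ _ _ D hD u₀ ζ hζ hζ0 hf hz hne
  -- a ball where `ζ` is analytic
  obtain ⟨ε, hε, hball⟩ := Metric.eventually_nhds_iff_ball.1 hζ.eventually_analyticAt
  set U : Submodule ℂ (Fin β → ℂ) := Submodule.span ℂ (ζ '' Metric.ball u₀ ε) with hU
  have hmem : ∀ u ∈ Metric.ball u₀ ε, ζ u ∈ U := fun u hu => Submodule.subset_span ⟨u, hu, rfl⟩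
  refine ⟨U, ?_, fun s => ?_⟩
  · intro h0
    apply hne
    refine Filter.mem_of_superset (Metric.ball_mem_nhds u₀ hε) fun u hu => ?_
    have := hmem u hu
    rw [h0, Submodule.mem_bot] at this
    exact this
  -- the curve in `U`
  obtain ⟨p, hp⟩ := U.subtype.exists_leftInverse_of_injective U.ker_subtype
  let pc : (Fin β → ℂ) →L[ℂ] U := LinearMap.toContinuousLinearMap p
  have hpc : ∀ z : U, pc (z : Fin β → ℂ) = z := fun z => DFunLike.congr_fun hp z
  have hpU : ∀ z ∈ U, ((pc z : U) : Fin β → ℂ) = z := by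
    intro z hz
    have := hpc ⟨z, hz⟩
    rw [this]
  let ξ : ℂ → U := fun u => pc (ζ u)
  have hξ : AnalyticOnNhd ℂ ξ (Metric.ball u₀ ε) := fun u hu => (pc.analyticAt _).comp (hball u hu)
  have hξv : ∀ u ∈ Metric.ball u₀ ε, ((ξ u : U) : Fin β → ℂ) = ζ u := fun u hu =>
    hpU _ (hmem u hu)
  have hξ0 : ξ u₀ = 0 := by
    show pc (ζ u₀) = 0
    rw [hζ0, map_zero]
  have hξsp : Submodule.span ℂ (ξ '' Metric.ball u₀ ε) = ⊤ := by
    have h1 : (Submodule.span ℂ (ξ '' Metric.ball u₀ ε)).map U.subtype = U := by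
      have h2 : (U.subtype ∘ ξ) '' Metric.ball u₀ ε = ζ '' Metric.ball u₀ ε :=
        Set.image_congr fun u hu => hξv u hu
      rw [Submodule.map_span, ← Set.image_comp, h2]
    rw [eq_top_iff]
    intro z _
    have h2 : (z : Fin β → ℂ) ∈ (Submodule.span ℂ (ξ '' Metric.ball u₀ ε)).map U.subtype := by
      rw [h1]
      exact z.2
    obtain ⟨y, hy, hyz⟩ := Submodule.mem_map.1 h2
    rwa [← Subtype.ext hyz]
  -- the relation
  obtain ⟨hA1, hA2, hA3, hA4⟩ := hS D hD u₀ ζ hζ hζ0 hf hz (Module.finrank ℂ U)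
  obtain ⟨P, hP0, hP⟩ := hA (fun _ : Fin (Module.finrank ℂ U) => u₀)
    (fun k u => Option.elim (s k) (D.ze (∑ k, ζ (u k))) fun i => D.f i (∑ k, ζ (u k)))
    (fun k => by
      rcases hk : s k with _ | i
      · exact hA4
      · exact hA3 i)
  refine ⟨P, hP0, ?_⟩
  obtain ⟨N, G, hG, hGP⟩ := poly_entire D hD s P
  have hnz : ∀ᶠ u in 𝓝 (fun _ : Fin (Module.finrank ℂ U) => u₀), D.th D.o (∑ k, ζ (u k)) ≠ 0 := by
    have h1 : ContinuousAt (fun u : Fin (Module.finrank ℂ U) → ℂ => D.th D.o (∑ k, ζ (u k)))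
        (fun _ => u₀) :=
      ((hD.good.diff D.o).continuous.continuousAt).comp hA1.continuousAt
    exact h1.eventually_ne hA2
  obtain ⟨δ₀, hδ₀, hrel⟩ := Metric.eventually_nhds_iff_ball.1 (hP.and hnz)
  set δ := min δ₀ ε with hδ
  have hδ0 : 0 < δ := lt_min hδ₀ hε
  have hδε : δ ≤ ε := min_le_right _ _
  have hder := span_deriv u₀ ξ ε hξ hξ0 hξsp δ hδ0 hδε
  -- a basis of derivatives
  obtain ⟨κ, a, ha, hspan, hli⟩ := exists_linearIndependent' ℂ
    (fun u : Metric.ball u₀ δ => deriv ξ u.1)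
  have : Finite κ := hli.finite
  have := Fintype.ofFinite κ
  have hrange : Set.range (fun u : Metric.ball u₀ δ => deriv ξ u.1) =
      deriv ξ '' Metric.ball u₀ δ := by
    ext y
    constructor
    · rintro ⟨u, rfl⟩
      exact ⟨u.1, u.2, rfl⟩
    · rintro ⟨u, hu, rfl⟩
      exact ⟨⟨u, hu⟩, rfl⟩
  rw [hrange, hder] at hspan
  let B := Module.Basis.mk hli hspan.ge
  have hcard : Fintype.card κ = Module.finrank ℂ U := by
    rw [← Module.finrank_eq_card_basis B]
  let e : Fin (Module.finrank ℂ U) ≃ κ := (Fintype.equivFinOfCardEq hcard).symm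
  let us : Fin (Module.finrank ℂ U) → ℂ := fun k => (a (e k)).1
  have hus : ∀ k, us k ∈ Metric.ball u₀ δ := fun k => (a (e k)).2
  let Φ : (Fin (Module.finrank ℂ U) → ℂ) → U := fun u => ∑ k, ξ (u k)
  have hΦd : HasStrictFDerivAt Φ (∑ k, ContinuousLinearMap.smulRight
      (ContinuousLinearMap.proj (R := ℂ) (φ := fun _ : Fin (Module.finrank ℂ U) => ℂ) k)
      (deriv ξ (us k))) us := by
    have h1 : ∀ k ∈ Finset.univ, HasStrictFDerivAt
        (fun u : Fin (Module.finrank ℂ U) → ℂ => ξ (u k)) (ContinuousLinearMap.smulRight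
        (ContinuousLinearMap.proj (R := ℂ) (φ := fun _ : Fin (Module.finrank ℂ U) => ℂ) k)
        (deriv ξ (us k))) us := by
      intro k _
      have h2 : HasStrictFDerivAt ξ (ContinuousLinearMap.toSpanSingleton ℂ (deriv ξ (us k))) (us k) :=
        ((hξ (us k) (Metric.ball_subset_ball hδε (hus k))).hasStrictDerivAt).hasStrictFDerivAt
      have h3 := h2.comp us (ContinuousLinearMap.proj (R := ℂ)
        (φ := fun _ : Fin (Module.finrank ℂ U) => ℂ) k).hasStrictFDerivAt
      refine h3.congr_fderiv ?_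
      ext v
      simp
    have h4 := HasStrictFDerivAt.fun_sum h1
    exact h4
  have hsurj : (∑ k, ContinuousLinearMap.smulRight
      (ContinuousLinearMap.proj (R := ℂ) (φ := fun _ : Fin (Module.finrank ℂ U) => ℂ) k)
      (deriv ξ (us k)) : (Fin (Module.finrank ℂ U) → ℂ) →L[ℂ] U).range = ⊤ := by
    rw [eq_top_iff, ← hspan, Submodule.span_le]
    rintro _ ⟨k, rfl⟩
    refine ⟨Pi.single (e.symm k) 1, ?_⟩
    rw [ContinuousLinearMap.coe_coe, sum_apply, Finset.sum_eq_single (e.symm k)]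
    · simp [us]
    · intro b _ hb
      simp [Pi.single_eq_of_ne hb]
    · simp
  have hmap := hΦd.map_nhds_eq_of_surj hsurj
  -- `G` vanishes near `Φ us` in `U`
  have hΦv : ∀ u, (∀ k, u k ∈ Metric.ball u₀ ε) → ((Φ u : U) : Fin β → ℂ) = ∑ k, ζ (u k) := by
    intro u hu
    show ((∑ k, ξ (u k) : U) : Fin β → ℂ) = _
    rw [Submodule.coe_sum]
    exact Finset.sum_congr rfl fun k _ => hξv _ (hu k)
  have hev : ∀ᶠ z in 𝓝 (Φ us), G (z : U) = 0 := by
    rw [← hmap, Filter.eventually_map]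
    have h1 : ∀ᶠ u in 𝓝 us, ∀ k, u k ∈ Metric.ball u₀ δ := by
      rw [eventually_all]
      intro k
      exact ((continuous_apply k).tendsto us).eventually (Metric.isOpen_ball.mem_nhds (hus k))
    filter_upwards [h1] with u hu
    have h2 : u ∈ Metric.ball (fun _ : Fin (Module.finrank ℂ U) => u₀) δ₀ := by
      rw [Metric.mem_ball, dist_pi_lt_iff hδ₀]
      intro k
      exact lt_of_lt_of_le (hu k) (min_le_left _ _)
    obtain ⟨h3, h4⟩ := hrel u h2
    rw [hΦv u fun k => Metric.ball_subset_ball hδε (hu k), hGP _ h4, h3, mul_zero]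
  intro z hzU hz0
  -- the line from `Φ us` to `z`
  have hline : ∀ t : ℂ, G ((Φ us : U) + t • (z - (Φ us : U))) = 0 := by
    have hdiff : Differentiable ℂ fun t : ℂ => G ((Φ us : U) + t • (z - (Φ us : U))) :=
      hG.comp ((differentiable_const _).add (differentiable_id.smul_const _))
    have han : AnalyticOnNhd ℂ (fun t : ℂ => G ((Φ us : U) + t • (z - (Φ us : U)))) Set.univ :=
      fun t _ => hdiff.analyticAt t
    have h0 : ∀ᶠ t in 𝓝 (0 : ℂ), G ((Φ us : U) + t • (z - (Φ us : U))) = 0 := by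
      have hc : Tendsto (fun t : ℂ => (Φ us) + t • ((⟨z, hzU⟩ : U) - Φ us)) (𝓝 0) (𝓝 (Φ us)) := by
        have h1 : Continuous fun t : ℂ => (Φ us) + t • ((⟨z, hzU⟩ : U) - Φ us) := by fun_prop
        have h2 := h1.tendsto 0
        rwa [zero_smul, add_zero] at h2
      filter_upwards [hc.eventually hev] with t ht
      exact ht
    have h1 := han.eq_of_eventuallyEq (g := fun _ => 0) (fun t _ => analyticAt_const) (z₀ := 0) h0
    intro t
    exact congrFun h1 t
  have h1 := hline 1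
  rw [one_smul, add_sub_cancel, hGP z hz0] at h1
  exact (mul_eq_zero.1 h1).resolve_left (pow_ne_zero _ hz0)

end Pool.Agent.Lib.MPf11a48.AS
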