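import Pool.Agent.Lib.MP_f11a48_ag.AS.Adf

/-!
# Project AS, module C0 (helper70): the order bound
-/

set_option autoImplicit false
set_option linter.unusedSectionVars false

open MvPolynomial Pool.Agent.Lib.MPf11a48.CM Filter Topology Asymptotics

namespace Pool.Agent.Lib.MPf11a48.AS

namespace C0M

open ADFM

/-- growth of polynomials in one variable -/
theorem poly_growth (d : ℕ) : ∀ (p : Polynomial ℂ) (r K M : ℝ), p.natDegree ≤ d → 0 < r → 0 ≤ K →
    (∀ x, ‖x‖ ≤ r → ‖p.eval x‖ ≤ M) → ∀ x, ‖x‖ ≤ K * r → ‖p.eval x‖ ≤ (1 + 2 * K) ^ d * M := by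
  induction d with
  | zero =>
    intro p r K M hp hr hK hM x _
    have h1 : p = Polynomial.C (p.coeff 0) := Polynomial.eq_C_of_natDegree_le_zero hp
    have h2 := hM 0 (by simpa using hr.le)
    rw [h1] at h2 ⊢
    simpa using h2
  | succ d ih =>
    intro p r K M hp hr hK hM x hx
    have hM0 : 0 ≤ M := (norm_nonneg _).trans (hM 0 (by simpa using hr.le))
    obtain ⟨q, hq⟩ : ∃ q : Polynomial ℂ, q = p.divX := ⟨_, rfl⟩
    have hdec : ∀ y, p.eval y = q.eval y * y + p.coeff 0 := by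
      intro y
      have h1 := congrArg (Polynomial.eval y) (Polynomial.divX_mul_X_add p)
      rw [hq, ← h1]
      simp
    have h0 : ‖p.coeff 0‖ ≤ M := by
      have h1 := hM 0 (by simpa using hr.le)
      rw [hdec 0] at h1
      simpa using h1
    have hqdeg : q.natDegree ≤ d := by
      rw [hq, Polynomial.natDegree_divX_eq_natDegree_tsub_one]
      omega
    have hsph : ∀ y ∈ frontier (Metric.ball (0 : ℂ) r), ‖q.eval y‖ ≤ 2 * M / r := by
      intro y hy
      rw [frontier_ball (0 : ℂ) hr.ne', mem_sphere_zero_iff_norm] at hy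
      rw [le_div_iff₀ hr]
      have h2 : q.eval y * y = p.eval y - p.coeff 0 := by rw [hdec y]; ring
      calc ‖q.eval y‖ * r = ‖q.eval y * y‖ := by rw [norm_mul, hy]
        _ = ‖p.eval y - p.coeff 0‖ := by rw [h2]
        _ ≤ ‖p.eval y‖ + ‖p.coeff 0‖ := norm_sub_le _ _
        _ ≤ M + M := add_le_add (hM y hy.le) h0
        _ = 2 * M := by ring
    have hball : ∀ y, ‖y‖ ≤ r → ‖q.eval y‖ ≤ 2 * M / r := by
      intro y hy
      refine Complex.norm_le_of_forall_mem_frontier_norm_le (U := Metric.ball (0 : ℂ) r)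
        Metric.isBounded_ball (f := fun y => q.eval y) ?_ hsph ?_
      · exact q.differentiable.diffContOnCl
      · rw [closure_ball (0 : ℂ) hr.ne']
        simpa using hy
    have h3 := ih q r K (2 * M / r) hqdeg hr hK hball x hx
    rw [hdec x]
    have hc : (1 : ℝ) ≤ (1 + 2 * K) ^ d := one_le_pow₀ (by linarith)
    calc ‖q.eval x * x + p.coeff 0‖ ≤ ‖q.eval x‖ * ‖x‖ + ‖p.coeff 0‖ := by
          rw [← norm_mul]; exact norm_add_le _ _
      _ ≤ ((1 + 2 * K) ^ d * (2 * M / r)) * (K * r) + M := by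
          apply add_le_add _ h0
          exact mul_le_mul h3 hx (norm_nonneg _) (by positivity)
      _ = (1 + 2 * K) ^ d * (2 * K) * M + 1 * M := by field_simp
      _ ≤ (1 + 2 * K) ^ d * (2 * K) * M + (1 + 2 * K) ^ d * M :=
          add_le_add le_rfl (mul_le_mul_of_nonneg_right hc hM0)
      _ = (1 + 2 * K) ^ (d + 1) * M := by ring

variable {β : ℕ} {I Λ : Type} [Fintype I] [Fintype Λ]

/-- the degree in the variables `X_i` -/
def sI (m : Option I →₀ ℕ) : ℕ := ∑ i, m (some i)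

/-- the coefficient -/
noncomputable def cf (D : QD β I Λ) (d : ℕ) (P : MvPolynomial (Option I) ℂ) (m : Option I →₀ ℕ)
    (z : Fin β → ℂ) : ℂ :=
  P.coeff m * ((∏ i, D.th i z ^ m (some i)) * D.th D.o z ^ (d - sI m))

/-- the entire function `th_o(z)^d P(f(z), x)` -/
noncomputable def G (D : QD β I Λ) (d : ℕ) (P : MvPolynomial (Option I) ℂ)
    (zt : (Fin β → ℂ) × ℂ) : ℂ :=
  ∑ m ∈ P.support, cf D d P m zt.1 * zt.2 ^ m none

theorem deg_le (d : ℕ) (P : MvPolynomial (Option I) ℂ) (hP : P.totalDegree ≤ d)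
    (m : Option I →₀ ℕ) (hm : m ∈ P.support) : m none + sI m ≤ d := by
  have h1 := (MvPolynomial.le_totalDegree hm).trans hP
  rw [Finsupp.sum_fintype _ _ (fun _ => rfl), Fintype.sum_option] at h1
  exact h1

theorem G_diff (D : QD β I Λ) (hD : D.Good) (d : ℕ) (P : MvPolynomial (Option I) ℂ) :
    Differentiable ℂ (G D d P) := by
  have hth : ∀ i, Differentiable ℂ fun zt : (Fin β → ℂ) × ℂ => D.th i zt.1 := fun i =>
    (hD.good.diff i).comp differentiable_fst
  have h : ∀ m : Option I →₀ ℕ, Differentiable ℂ fun zt : (Fin β → ℂ) × ℂ =>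
      cf D d P m zt.1 * zt.2 ^ m none := by
    intro m
    unfold cf
    refine ((Differentiable.mul ?_ ((hth D.o).pow _)).const_mul _).mul (differentiable_snd.pow _)
    fun_prop
  intro zt
  unfold G
  exact DifferentiableAt.fun_sum fun m _ => h m zt

theorem G_per (D : QD β I Λ) (hD : D.Good) (d : ℕ) (P : MvPolynomial (Option I) ℂ)
    (hP : P.totalDegree ≤ d) (x : Λ → ℤ) (z : Fin β → ℂ) (t : ℂ) :
    G D d P (z + D.vec x, t) = e D.toTH x z ^ d * G D d P (z, t) := by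
  have haut : ∀ (i : I) (z : Fin β → ℂ), D.th i (z + D.vec x) = e D.toTH x z * D.th i z :=
    hD.good.aut x
  unfold G
  rw [Finset.mul_sum]
  apply Finset.sum_congr rfl
  intro m hm
  have h1 := deg_le d P hP m hm
  have h2 : ∏ i, D.th i (z + D.vec x) ^ m (some i) =
      e D.toTH x z ^ sI m * ∏ i, D.th i z ^ m (some i) := by
    have h3 : ∀ i, D.th i (z + D.vec x) ^ m (some i) =
        e D.toTH x z ^ m (some i) * D.th i z ^ m (some i) := by
      intro i
      rw [haut, mul_pow]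
    rw [Finset.prod_congr rfl fun i _ => h3 i, Finset.prod_mul_distrib,
      Finset.prod_pow_eq_pow_sum]
    rfl
  have h4 : e D.toTH x z ^ d = e D.toTH x z ^ sI m * e D.toTH x z ^ (d - sI m) := by
    rw [← pow_add]
    congr 1
    omega
  show cf D d P m (z + D.vec x) * t ^ m none = e D.toTH x z ^ d * (cf D d P m z * t ^ m none)
  unfold cf
  rw [h2, haut, mul_pow, h4]
  ring

theorem G_ev (D : QD β I Λ) (d : ℕ) (P : MvPolynomial (Option I) ℂ)
    (hP : P.totalDegree ≤ d) (z : Fin β → ℂ) (hz : D.th D.o z ≠ 0) (t : ℂ) :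
    G D d P (z, t) = D.th D.o z ^ d * D.ev z (t - D.ze z) P := by
  have h0 : D.ev z (t - D.ze z) P = ∑ m ∈ P.support, P.coeff m *
      ∏ i, (Option.elim i (D.ze z + (t - D.ze z)) fun i => D.f i z) ^ m i := by
    show aeval _ P = _
    rw [aeval_def, eval₂_eq']
    rfl
  rw [h0]
  unfold G
  rw [Finset.mul_sum]
  apply Finset.sum_congr rfl
  intro m hm
  have h1 := deg_le d P hP m hm
  rw [Fintype.prod_option]
  show cf D d P m z * t ^ m none = _
  have h2 : Option.elim (none : Option I) (D.ze z + (t - D.ze z)) (fun i => D.f i z) = t := by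
    show D.ze z + (t - D.ze z) = t
    ring
  have h3 : ∏ i : I, (Option.elim (some i) (D.ze z + (t - D.ze z)) fun i => D.f i z) ^
      m (some i) = (∏ i, D.th i z ^ m (some i)) / D.th D.o z ^ sI m := by
    have h4 : ∀ i : I, (Option.elim (some i) (D.ze z + (t - D.ze z)) fun i => D.f i z) ^
        m (some i) = D.th i z ^ m (some i) / D.th D.o z ^ m (some i) := by
      intro i
      show (D.th i z / D.th D.o z) ^ m (some i) = _
      rw [div_pow]
    rw [Finset.prod_congr rfl fun i _ => h4 i, Finset.prod_div_distrib,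
      Finset.prod_pow_eq_pow_sum]
    rfl
  have h5 : D.th D.o z ^ d = D.th D.o z ^ sI m * D.th D.o z ^ (d - sI m) := by
    rw [← pow_add]
    congr 1
    omega
  have h6 : D.th D.o z ^ sI m ≠ 0 := pow_ne_zero _ hz
  rw [h2, h3, h5]
  unfold cf
  field_simp

theorem G_poly (D : QD β I Λ) (d : ℕ) (P : MvPolynomial (Option I) ℂ)
    (hP : P.totalDegree ≤ d) (z : Fin β → ℂ) :
    ∃ p : Polynomial ℂ, p.natDegree ≤ d ∧ ∀ t, G D d P (z, t) = p.eval t := by
  refine ⟨∑ m ∈ P.support, Polynomial.C (cf D d P m z) * Polynomial.X ^ m none, ?_, ?_⟩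
  · apply Polynomial.natDegree_sum_le_of_forall_le
    intro m hm
    refine (Polynomial.natDegree_C_mul_X_pow_le _ _).trans ?_
    have := deg_le d P hP m hm
    omega
  · intro t
    rw [Polynomial.eval_finsetSum]
    apply Finset.sum_congr rfl
    intro m _
    simp

/-- bounded coordinates of lattice vectors and the linear parts -/
theorem al_bound (D : QD β I Λ) (hD : D.Good) : ∃ A : ℝ, 0 ≤ A ∧ ∀ (x : Λ → ℤ) (z : Fin β → ℂ),
    ‖D.al x z‖ ≤ A * ‖D.vec x‖ * ‖z‖ := by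
  have hi := hD.good.indep
  obtain ⟨K, hK0, hK⟩ := LinearMap.exists_antilipschitzWith (𝕜 := ℝ)
    (Fintype.linearCombination ℝ D.lat) (LinearMap.ker_eq_bot.2
      hi.fintypeLinearCombination_injective)
  have hcoord : ∀ (x : Λ → ℤ) (l : Λ), ‖(x l : ℂ)‖ ≤ K * ‖D.vec x‖ := by
    intro x l
    have h1 : Fintype.linearCombination ℝ D.lat (fun l => (x l : ℝ)) = D.vec x := by
      rw [Fintype.linearCombination_apply]
      unfold TH.vec
      apply Finset.sum_congr rfl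
      intro l _
      funext k
      simp
    have h2 := hK.le_mul_dist (fun l => (x l : ℝ)) 0
    rw [map_zero, dist_zero_right, dist_zero_right, h1] at h2
    have h3 := norm_le_pi_norm (fun l => (x l : ℝ)) l
    have h4 : ‖(x l : ℂ)‖ = ‖(x l : ℝ)‖ := by
      rw [Real.norm_eq_abs]
      simp [Complex.norm_intCast]
    rw [h4]
    exact h3.trans h2
  refine ⟨∑ l, K * ‖LinearMap.toContinuousLinearMap (D.a l)‖, by positivity, ?_⟩
  intro x z
  have h1 : D.al x z = ∑ l, (x l : ℂ) * D.a l z := by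
    unfold TH.al
    rw [LinearMap.sum_apply]
    rfl
  rw [h1, Finset.sum_mul, Finset.sum_mul]
  refine (norm_sum_le _ _).trans (Finset.sum_le_sum fun l _ => ?_)
  rw [norm_mul]
  have h2 : ‖D.a l z‖ ≤ ‖LinearMap.toContinuousLinearMap (D.a l)‖ * ‖z‖ :=
    (LinearMap.toContinuousLinearMap (D.a l)).le_opNorm z
  calc ‖(x l : ℂ)‖ * ‖D.a l z‖
      ≤ (K * ‖D.vec x‖) * (‖LinearMap.toContinuousLinearMap (D.a l)‖ * ‖z‖) :=
        mul_le_mul (hcoord x l) h2 (norm_nonneg _) (by positivity)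
    _ = K * ‖LinearMap.toContinuousLinearMap (D.a l)‖ * ‖D.vec x‖ * ‖z‖ := by ring

theorem e_cont (D : QD β I Λ) (x : Λ → ℤ) : Continuous fun z => e D.toTH x z := by
  unfold e
  apply Complex.continuous_exp.comp
  apply Continuous.add
  · exact (LinearMap.toContinuousLinearMap (D.al x)).continuous
  · exact continuous_const

/-- order of vanishing of `G` -/
theorem G_order (hPHI : SpecPHI) (D : QD β I Λ) (hD : D.Good) (d : ℕ)
    (P : MvPolynomial (Option I) ℂ) (hP : P.totalDegree ≤ d) (T : ℕ) (z₀ : Fin β → ℂ) (ρ : ℂ)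
    (hz : D.th D.o z₀ ≠ 0)
    (hw : ∀ w : List (Option (Fin β)), w.length < T → D.ev z₀ ρ (it D.dl w P) = 0)
    (x : Λ → ℤ) :
    (G D d P) =O[𝓝 (z₀ + D.vec x, D.ze z₀ + ρ)]
      fun zt => ‖zt - (z₀ + D.vec x, D.ze z₀ + ρ)‖ ^ T := by
  obtain ⟨ξ, hξ⟩ : ∃ ξ, ξ = D.ze z₀ + ρ := ⟨_, rfl⟩
  rw [← hξ]
  have h1 := hPHI D hD P T z₀ ρ hz hw
  obtain ⟨ψ, hψ⟩ : ∃ ψ : (Fin β → ℂ) × ℂ → (Fin β → ℂ) × ℂ,
      ψ = fun zt => (zt.1, zt.2 - D.ze zt.1) := ⟨_, rfl⟩
  have hψ0 : ψ (z₀, ξ) = (z₀, ρ) := by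
    rw [hψ, hξ]
    show (z₀, D.ze z₀ + ρ - D.ze z₀) = (z₀, ρ)
    rw [add_sub_cancel_left]
  have hzed : DifferentiableAt ℂ D.ze z₀ := by
    have h1 : DifferentiableAt ℂ (fun z => D.Y z / D.th D.o z ^ D.m) z₀ := by
      have h2 : DifferentiableAt ℂ D.Y z₀ := hD.Y_diff z₀
      have h3 : DifferentiableAt ℂ (fun z => D.th D.o z ^ D.m) z₀ :=
        DifferentiableAt.fun_pow ((hD.good.diff D.o) z₀) _
      have h5 : D.th D.o z₀ ^ D.m ≠ 0 := pow_ne_zero _ hz
      fun_prop (disch := exact h5)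
    exact h1
  have hψd : DifferentiableAt ℂ ψ (z₀, ξ) := by
    rw [hψ]
    apply DifferentiableAt.prodMk differentiableAt_fst
    apply DifferentiableAt.sub differentiableAt_snd
    exact DifferentiableAt.comp (z₀, ξ) (g := D.ze) hzed differentiableAt_fst
  have hψt : Tendsto ψ (𝓝 (z₀, ξ)) (𝓝 (z₀, ρ)) := by
    have := hψd.continuousAt.tendsto
    rwa [hψ0] at this
  have h2 := h1.comp_tendsto hψt
  have h3 : (fun zt => ψ zt - (z₀, ρ)) =O[𝓝 (z₀, ξ)] fun zt => zt - (z₀, ξ) := by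
    have := hψd.isBigO_sub
    rwa [hψ0] at this
  have h4 : (fun zt => ‖ψ zt - (z₀, ρ)‖ ^ T) =O[𝓝 (z₀, ξ)] fun zt => ‖zt - (z₀, ξ)‖ ^ T :=
    (h3.norm_norm).pow T
  have h5 : (fun zt : (Fin β → ℂ) × ℂ => D.ev zt.1 (zt.2 - D.ze zt.1) P) =O[𝓝 (z₀, ξ)]
      fun zt => ‖zt - (z₀, ξ)‖ ^ T := by
    have h6 := h2.trans h4
    rw [hψ] at h6
    exact h6
  -- the function `G` near `(z₀, ξ)`
  have hthc : Continuous fun zt : (Fin β → ℂ) × ℂ => D.th D.o zt.1 :=
    (hD.good.diff D.o).continuous.comp continuous_fst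
  have h7 : G D d P =O[𝓝 (z₀, ξ)] fun zt => ‖zt - (z₀, ξ)‖ ^ T := by
    have h8 : (fun zt : (Fin β → ℂ) × ℂ => D.th D.o zt.1 ^ d) =O[𝓝 (z₀, ξ)]
        fun _ => (1 : ℝ) := (hthc.pow d).continuousAt.tendsto.isBigO_one ℝ
    have h9 := h8.mul h5
    simp only [one_mul] at h9
    refine (EventuallyEq.trans_isBigO ?_ h9)
    have h10 : ∀ᶠ zt : (Fin β → ℂ) × ℂ in 𝓝 (z₀, ξ), D.th D.o zt.1 ≠ 0 :=
      hthc.continuousAt.eventually_ne hz
    filter_upwards [h10] with zt hzt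
    exact G_ev D d P hP zt.1 hzt zt.2
  -- translation
  have h11 : Tendsto (fun zt : (Fin β → ℂ) × ℂ => (zt.1 - D.vec x, zt.2))
      (𝓝 (z₀ + D.vec x, ξ)) (𝓝 (z₀, ξ)) := by
    have hc : Continuous fun zt : (Fin β → ℂ) × ℂ => (zt.1 - D.vec x, zt.2) := by fun_prop
    have := hc.tendsto (z₀ + D.vec x, ξ)
    simpa using this
  have h12 := h7.comp_tendsto h11
  have h13 : (fun zt : (Fin β → ℂ) × ℂ => e D.toTH x (zt.1 - D.vec x) ^ d)
      =O[𝓝 (z₀ + D.vec x, ξ)] fun _ => (1 : ℝ) := by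
    have hc : Continuous fun zt : (Fin β → ℂ) × ℂ => e D.toTH x (zt.1 - D.vec x) ^ d :=
      ((e_cont D x).comp (continuous_fst.sub continuous_const)).pow d
    exact hc.continuousAt.tendsto.isBigO_one ℝ
  have h14 := h13.mul h12
  refine (h14.congr ?_ ?_)
  · intro zt
    have h15 := G_per D hD d P hP x (zt.1 - D.vec x) zt.2
    rw [sub_add_cancel] at h15
    exact h15.symm
  · intro zt
    show 1 * ‖((zt.1 - D.vec x, zt.2) : (Fin β → ℂ) × ℂ) - (z₀, ξ)‖ ^ T = _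
    rw [one_mul]
    congr 2
    ext1
    · show zt.1 - D.vec x - z₀ = zt.1 - (z₀ + D.vec x)
      abel
    · rfl

end C0M

open ADFM C0M in
theorem specC0 (hBAS : SpecBAS) (hSCH : SpecSCH) (hPHI : SpecPHI) : SpecC0 := by
  intro β I Λ _ _ D hD
  obtain ⟨-, -, -, -, -, -, -, R, hR1, hR⟩ := hBAS D.toTH hD.good
  obtain ⟨A, hA0, hA⟩ := al_bound D hD
  obtain ⟨E, hE⟩ : ∃ E : ℝ, E = Real.exp (A * (8 * R) * (7 * R) + A * (8 * R) * (8 * R) / 2) :=
    ⟨_, rfl⟩
  have hE1 : 1 ≤ E := by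
    rw [hE]
    exact Real.one_le_exp (by positivity)
  have hR0 : 0 < R := by linarith
  obtain ⟨C, hC⟩ : ∃ C : ℕ, 15 * E < 3 ^ C := pow_unbounded_of_one_lt _ (by norm_num)
  have hC1 : 1 ≤ C := by
    by_contra h
    have h0 : C = 0 := by omega
    rw [h0] at hC
    norm_num at hC
    linarith
  refine ⟨C, hC1, ?_⟩
  intro d P hP z₀ ρ hz hw
  rcases Nat.eq_zero_or_pos d with hd | hd
  · subst hd
    have h1 : P = MvPolynomial.C (P.coeff 0) :=
      totalDegree_eq_zero_iff_eq_C.1 (Nat.le_zero.1 hP)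
    have h2 := hw [] (by simp)
    have h3 : D.ev z₀ ρ P = 0 := h2
    rw [h1] at h3
    have h4 : P.coeff 0 = 0 := by
      have h5 : D.ev z₀ ρ (MvPolynomial.C (P.coeff 0)) = P.coeff 0 := by
        show aeval _ _ = _
        rw [aeval_C]
        rfl
      rw [h5] at h3
      exact h3
    rw [h1, h4, map_zero]
    exact Ideal.zero_mem _
  obtain ⟨T, hT⟩ : ∃ T : ℕ, T = C * d + 1 := ⟨_, rfl⟩
  obtain ⟨x₀, hx₀⟩ := hR z₀
  obtain ⟨z₁, hz₁⟩ : ∃ z₁, z₁ = z₀ + D.vec x₀ := ⟨_, rfl⟩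
  obtain ⟨ξ, hξ⟩ : ∃ ξ, ξ = D.ze z₀ + ρ := ⟨_, rfl⟩
  obtain ⟨r, hr⟩ : ∃ r : ℝ, r = max 1 ‖ξ‖ := ⟨_, rfl⟩
  have hr1 : 1 ≤ r := by rw [hr]; exact le_max_left _ _
  have hrξ : ‖ξ‖ ≤ r := by rw [hr]; exact le_max_right _ _
  have hr0 : 0 < r := by linarith
  have hz₁R : ‖z₁‖ ≤ R := by rw [hz₁]; exact hx₀
  have hO : (G D d P) =O[𝓝 (z₁, ξ)] fun zt => ‖zt - (z₁, ξ)‖ ^ T := by
    rw [hz₁, hξ]
    exact G_order hPHI D hD d P hP T z₀ ρ hz (fun w hwl => hw w (by omega)) x₀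
  have hGd := G_diff D hD d P
  -- the maximum
  obtain ⟨M, hM0, hMle, hMeq⟩ : ∃ M : ℝ, 0 ≤ M ∧
      (∀ z t, ‖z‖ ≤ R → ‖t‖ ≤ r → ‖G D d P (z, t)‖ ≤ M) ∧
      ∃ z t, ‖z‖ ≤ R ∧ ‖t‖ ≤ r ∧ ‖G D d P (z, t)‖ = M := by
    have hcomp : IsCompact (Metric.closedBall (0 : Fin β → ℂ) R ×ˢ
        Metric.closedBall (0 : ℂ) r) :=
      (isCompact_closedBall _ _).prod (isCompact_closedBall _ _)
    have hne : (Metric.closedBall (0 : Fin β → ℂ) R ×ˢ Metric.closedBall (0 : ℂ) r).Nonempty :=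
      ⟨(0, 0), by simp [hR0.le, hr0.le]⟩
    obtain ⟨⟨z, t⟩, hzt, hmax⟩ := hcomp.exists_isMaxOn hne hGd.continuous.norm.continuousOn
    have hzt' : ‖z‖ ≤ R ∧ ‖t‖ ≤ r := by simpa using hzt
    refine ⟨‖G D d P (z, t)‖, norm_nonneg _, ?_, z, t, hzt'.1, hzt'.2, rfl⟩
    intro z' t' h1 h2
    exact hmax (by simpa using ⟨h1, h2⟩ : (z', t') ∈ Metric.closedBall (0 : Fin β → ℂ) R ×ˢ
      Metric.closedBall (0 : ℂ) r)
  -- periodicity
  have hper : ∀ z t, ‖z‖ ≤ 7 * R → ‖t‖ ≤ r → ‖G D d P (z, t)‖ ≤ E ^ d * M := by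
    intro z t hz7 ht
    obtain ⟨x, hx⟩ := hR z
    have hx' : ‖z + D.vec x‖ ≤ R := hx
    have hv : ‖D.vec x‖ ≤ 8 * R := by
      have h1 : D.vec x = (z + D.vec x) - z := by abel
      rw [h1]
      refine (norm_sub_le _ _).trans ?_
      linarith
    have h2 := G_per D hD d P hP x z t
    have h3 : G D d P (z, t) = (e D.toTH x z)⁻¹ ^ d * G D d P (z + D.vec x, t) := by
      rw [h2, ← mul_assoc, ← mul_pow, inv_mul_cancel₀ (e_ne _ _ _), one_pow, one_mul]
    have h4 : ‖(e D.toTH x z)⁻¹‖ ≤ E := by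
      unfold e
      rw [← Complex.exp_neg, Complex.norm_exp, hE]
      apply Real.exp_le_exp.2
      refine (Complex.re_le_norm _).trans ?_
      rw [norm_neg]
      refine (norm_add_le _ _).trans (add_le_add ?_ ?_)
      · refine (hA x z).trans ?_
        exact mul_le_mul (mul_le_mul_of_nonneg_left hv hA0) hz7 (norm_nonneg _) (by positivity)
      · rw [norm_div, Complex.norm_two]
        apply div_le_div_of_nonneg_right _ (by norm_num)
        refine (hA x _).trans ?_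
        exact mul_le_mul (mul_le_mul_of_nonneg_left hv hA0) hv (norm_nonneg _) (by positivity)
    rw [h3, norm_mul, norm_pow]
    exact mul_le_mul (pow_le_pow_left₀ (norm_nonneg _) h4 d) (hMle _ _ hx' ht) (norm_nonneg _)
      (by positivity)
  -- growth in the last variable
  have hgr : ∀ z t, ‖z‖ ≤ 7 * R → ‖t‖ ≤ 7 * r → ‖G D d P (z, t)‖ ≤ 15 ^ d * (E ^ d * M) := by
    intro z t hz7 ht
    obtain ⟨p, hp1, hp2⟩ := G_poly D d P hP z
    rw [hp2]
    have h1 := poly_growth d p r 7 (E ^ d * M) hp1 hr0 (by norm_num)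
      (fun y hy => by rw [← hp2]; exact hper z y hz7 hy) t ht
    norm_num at h1
    exact h1
  -- Schwarz
  obtain ⟨zm, tm, hzm, htm, hm⟩ := hMeq
  have hS := hSCH (G D d P) hGd (z₁, ξ) (zm, tm) T (15 ^ d * (E ^ d * M)) hO (by
    intro s hs
    have h1 : ((z₁, ξ) : (Fin β → ℂ) × ℂ) + s • ((zm, tm) - (z₁, ξ)) =
        (z₁ + s • (zm - z₁), ξ + s * (tm - ξ)) := rfl
    rw [h1]
    apply hgr
    · calc ‖z₁ + s • (zm - z₁)‖ ≤ ‖z₁‖ + ‖s • (zm - z₁)‖ := norm_add_le _ _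
        _ ≤ R + 3 * (R + R) := by
            apply add_le_add hz₁R
            rw [norm_smul]
            apply mul_le_mul hs _ (norm_nonneg _) (by norm_num)
            exact (norm_sub_le _ _).trans (add_le_add hzm hz₁R)
        _ = 7 * R := by ring
    · calc ‖ξ + s * (tm - ξ)‖ ≤ ‖ξ‖ + ‖s * (tm - ξ)‖ := norm_add_le _ _
        _ ≤ r + 3 * (r + r) := by
            apply add_le_add hrξ
            rw [norm_mul]
            apply mul_le_mul hs _ (norm_nonneg _) (by norm_num)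
            exact (norm_sub_le _ _).trans (add_le_add htm hrξ)
        _ = 7 * r := by ring)
  rw [hm] at hS
  have hMz : M = 0 := by
    by_contra hne
    have hMpos : 0 < M := lt_of_le_of_ne hM0 (Ne.symm hne)
    have h1 : (15 * E) ^ d < 3 ^ T := by
      calc (15 * E) ^ d ≤ (3 ^ C) ^ d :=
            pow_le_pow_left₀ (by positivity) hC.le d
        _ = 3 ^ (C * d) := by rw [← pow_mul]
        _ < 3 ^ T := by rw [hT]; exact pow_lt_pow_right₀ (by norm_num) (Nat.lt_succ_self _)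
    have h2 : (1 / 3 : ℝ) ^ T * (15 ^ d * (E ^ d * M)) = (15 * E) ^ d / 3 ^ T * M := by
      rw [div_pow, one_pow, mul_pow]
      ring
    rw [h2] at hS
    have h3 : (15 * E) ^ d / 3 ^ T < 1 := by
      rw [div_lt_one (by positivity)]
      exact h1
    have h4 := mul_lt_mul_of_pos_right h3 hMpos
    linarith
  -- conclusion
  rw [QD.mem_nn]
  intro z ρ' hz'
  obtain ⟨x, hx⟩ := hR z
  have hx' : ‖z + D.vec x‖ ≤ R := hx
  have hG0 : ∀ t, G D d P (z, t) = 0 := by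
    intro t
    obtain ⟨p, hp1, hp2⟩ := G_poly D d P hP (z + D.vec x)
    have h1 := poly_growth d p r (‖t‖ / r) 0 hp1 hr0 (by positivity)
      (fun y hy => by rw [← hp2]; rw [hMz] at hMle; exact hMle _ _ hx' hy) t (by
        rw [div_mul_cancel₀ _ hr0.ne'])
    rw [mul_zero, ← hp2] at h1
    have h2 : G D d P (z + D.vec x, t) = 0 := norm_le_zero_iff.1 h1
    rw [G_per D hD d P hP x z t] at h2
    exact (mul_eq_zero.1 h2).resolve_left (pow_ne_zero _ (e_ne _ _ _))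
  have h1 := G_ev D d P hP z hz' (D.ze z + ρ')
  rw [hG0, add_sub_cancel_left] at h1
  exact (mul_eq_zero.1 h1.symm).resolve_left (pow_ne_zero _ hz')

end Pool.Agent.Lib.MPf11a48.AS
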