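import Pool.Agent.Lib.MP_f11a48_ag.AS.SpecE

/-!
# Project AS, module CDV: derivatives of the restricted theta functions
-/

set_option autoImplicit false

open Matrix MvPolynomial Pool.Agent.Lib.MPf11a48.CM Pool.Agent.Lib.MPf11a48.GL2T
open Filter Topology
open Pool.Agent.Lib.MPf11a48.U (AbData Ix)

namespace Pool.Agent.Lib.MPf11a48.AS

namespace CDVM

section cl

variable {Z I Λ : Type} {D : TH Z I Λ}

/-- `F` is a polynomial over `Qbar` in the functions `f_i` on `V'` -/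
def Cl (D : TH Z I Λ) (F : (Z → ℂ) → ℂ) : Prop :=
  ∃ p : MvPolynomial I Qbar, ∀ s, D.th D.o s ≠ 0 → F s = aeval (D.fv s) p

theorem Cl.congr {F G : (Z → ℂ) → ℂ} (h : Cl D F) (hFG : ∀ s, D.th D.o s ≠ 0 → G s = F s) :
    Cl D G := by
  obtain ⟨p, hp⟩ := h
  exact ⟨p, fun s hs => (hFG s hs).trans (hp s hs)⟩

theorem Cl.add {F G : (Z → ℂ) → ℂ} (h : Cl D F) (h' : Cl D G) : Cl D fun s => F s + G s := by
  obtain ⟨p, hp⟩ := h
  obtain ⟨q, hq⟩ := h'
  exact ⟨p + q, fun s hs => by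
    show F s + G s = _
    rw [map_add, hp s hs, hq s hs]⟩

theorem Cl.mul {F G : (Z → ℂ) → ℂ} (h : Cl D F) (h' : Cl D G) : Cl D fun s => F s * G s := by
  obtain ⟨p, hp⟩ := h
  obtain ⟨q, hq⟩ := h'
  exact ⟨p * q, fun s hs => by
    show F s * G s = _
    rw [map_mul, hp s hs, hq s hs]⟩

theorem Cl.const {c : ℂ} (hc : c ∈ Qbar) : Cl D fun _ => c :=
  ⟨C ⟨c, hc⟩, fun s _ => by rw [← algebraMap_eq, AlgHom.commutes]; rfl⟩

theorem Cl.sum {σ : Type} (S : Finset σ) {F : σ → (Z → ℂ) → ℂ} (h : ∀ i, Cl D (F i)) :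
    Cl D fun s => ∑ i ∈ S, F i s := by
  classical
  induction S using Finset.induction_on with
  | empty => simpa using Cl.const (D := D) (Qbar.zero_mem)
  | insert a S ha ih =>
    simp only [Finset.sum_insert ha]
    exact (h a).add ih

theorem Cl.poly {K : IntermediateField ℚ ℂ} (hK : K ≤ Qbar) {σ : Type} {F : σ → (Z → ℂ) → ℂ}
    (h : ∀ i, Cl D (F i)) (p : MvPolynomial σ K) : Cl D fun s => aeval (fun i => F i s) p := by
  induction p using MvPolynomial.induction_on with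
  | C a =>
    refine (Cl.const (D := D) (hK a.2)).congr fun s _ => ?_
    rw [← algebraMap_eq, AlgHom.commutes]
    rfl
  | add p q hp hq =>
    simp only [map_add]
    exact hp.add hq
  | mul_X p i hp =>
    simp only [map_mul, aeval_X]
    exact hp.mul (h i)

theorem Cl.finish {F : (Z → ℂ) → ℂ} (h : Cl D F) : ∃ p : MvPolynomial I ℂ,
    (∀ m, p.coeff m ∈ Qbar) ∧ ∀ s, D.th D.o s ≠ 0 → F s = eval (D.fv s) p := by
  obtain ⟨p, hp⟩ := h
  refine ⟨map (algebraMap Qbar ℂ) p, fun m => ?_, fun s hs => ?_⟩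
  · rw [coeff_map]
    exact (p.coeff m).2
  · rw [hp s hs, eval_map]
    rfl

end cl

section pd

variable {β : ℕ} {I Λ : Type} {D : TH (Fin β) I Λ}

/-- `F` is a polynomial over `Qbar` in the `f_i`, and its derivatives too -/
structure Pd (D : TH (Fin β) I Λ) (F : (Fin β → ℂ) → ℂ) : Prop where
  diff : ∀ s, D.th D.o s ≠ 0 → DifferentiableAt ℂ F s
  cl : Cl D F
  dcl : ∀ a : Fin β, Cl D fun s => fderiv ℂ F s (Pi.single a 1)

theorem Pd.mul {F G : (Fin β → ℂ) → ℂ} (h : Pd D F) (h' : Pd D G) :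
    Pd D fun s => F s * G s := by
  refine ⟨fun s hs => (h.diff s hs).mul (h'.diff s hs), h.cl.mul h'.cl, fun a => ?_⟩
  refine ((h.cl.mul (h'.dcl a)).add (h'.cl.mul (h.dcl a))).congr fun s hs => ?_
  have h1 := ((h.diff s hs).hasFDerivAt.mul (h'.diff s hs).hasFDerivAt).fderiv
  have h2 : fderiv ℂ (fun s => F s * G s) s = F s • fderiv ℂ G s + G s • fderiv ℂ F s := h1
  rw [h2]
  simp

theorem Pd.one : Pd D fun _ => 1 := by
  refine ⟨fun s _ => differentiableAt_const _, Cl.const Qbar.one_mem, fun a => ?_⟩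
  refine (Cl.const (D := D) Qbar.zero_mem).congr fun s _ => ?_
  simp

theorem Pd.prod {σ : Type} (S : Finset σ) {F : σ → (Fin β → ℂ) → ℂ} (h : ∀ i, Pd D (F i)) :
    Pd D fun s => ∏ i ∈ S, F i s := by
  classical
  induction S using Finset.induction_on with
  | empty => simpa using Pd.one (D := D)
  | insert a S ha ih =>
    simp only [Finset.prod_insert ha]
    exact (h a).mul ih

end pd

section comp

variable {g N β : ℕ} {K : IntermediateField ℚ ℂ} {A : AbData g N} {I Λ : Type}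
  {D : TH (Fin β) I Λ}

theorem fderiv_comp (T : (Fin β → ℂ) →ₗ[ℂ] (Fin g → ℂ)) {F : (Fin g → ℂ) → ℂ} {s : Fin β → ℂ}
    (hF : DifferentiableAt ℂ F (T s)) (a : Fin β) :
    DifferentiableAt ℂ (fun s => F (T s)) s ∧
      fderiv ℂ (fun s => F (T s)) s (Pi.single a 1) =
        ∑ j, T (Pi.single a 1) j * AbData.pd j F (T s) := by
  have hT : HasFDerivAt (fun s => T s) (LinearMap.toContinuousLinearMap T) s :=
    (LinearMap.toContinuousLinearMap T).hasFDerivAt
  have h1 := hF.hasFDerivAt.comp s hT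
  refine ⟨h1.differentiableAt, ?_⟩
  have h2 : fderiv ℂ (fun s => F (T s)) s =
      (fderiv ℂ F (T s)).comp (LinearMap.toContinuousLinearMap T) := h1.fderiv
  rw [h2, ContinuousLinearMap.comp_apply]
  have h3 : LinearMap.toContinuousLinearMap T (Pi.single a 1) =
      ∑ j, T (Pi.single a 1) j • (Pi.single j (1 : ℂ) : Fin g → ℂ) :=
    pi_eq_sum_univ' (T (Pi.single a 1))
  rw [h3, map_sum]
  refine Finset.sum_congr rfl fun j _ => ?_
  rw [map_smul, smul_eq_mul]
  rfl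

/-- composition with a linear map over `Qbar` -/
theorem comp_dcl (hK : K ≤ Qbar) (T : (Fin β → ℂ) →ₗ[ℂ] (Fin g → ℂ))
    (hT : ∀ a j, T (Pi.single a 1) j ∈ Qbar) (hV : ∀ s, D.th D.o s ≠ 0 → A.th 0 (T s) ≠ 0)
    (hf : ∀ i, Cl D fun s => A.f i (T s)) {F : (Fin g → ℂ) → ℂ}
    (hF : ∀ z, A.th 0 z ≠ 0 → DifferentiableAt ℂ F z) (hR : ∀ j, A.Reg K (AbData.pd j F)) :
    (∀ s, D.th D.o s ≠ 0 → DifferentiableAt ℂ (fun s => F (T s)) s) ∧
      ∀ a : Fin β, Cl D fun s => fderiv ℂ (fun s => F (T s)) s (Pi.single a 1) := by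
  refine ⟨fun s hs => ?_, fun a => ?_⟩
  · have h2 : DifferentiableAt ℂ (fun s => T s) s :=
      (LinearMap.toContinuousLinearMap T).differentiableAt
    exact (hF _ (hV s hs)).comp s h2
  · choose p hp using hR
    have h1 : Cl D fun s => ∑ j, T (Pi.single a 1) j * aeval (fun i => A.f i (T s)) (p j) :=
      Cl.sum _ fun j => (Cl.const (hT a j)).mul (Cl.poly hK hf (p j))
    refine h1.congr fun s hs => ?_
    rw [(fderiv_comp T (hF _ (hV s hs)) a).2]
    refine Finset.sum_congr rfl fun j _ => ?_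
    rw [hp j (T s) (hV s hs)]

end comp

section main

variable {g N β : ℕ} {κ Λ : Type} [Fintype κ] [DecidableEq κ] {K : IntermediateField ℚ ℂ}
  {A : AbData g N} {E : Emb g β κ Λ}

omit [Fintype κ] [DecidableEq κ] in
theorem ik_single (a : Fin β) (k : κ) : E.ik k (Pi.single a 1) = E.u a k := by
  show E.io (Pi.single a 1) k = _
  have h1 : E.io (Pi.single a 1) = (1 : ℂ) • E.u a :=
    Fintype.linearCombination_apply_single ℂ E.u a 1
  rw [h1, one_smul]

omit [DecidableEq κ] in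
theorem th_ne {s : Fin β → ℂ} (h : (E.toTH A).th (E.toTH A).o s ≠ 0) (k : κ) :
    A.th 0 (E.ik k s) ≠ 0 ∧ A.th 0 (-(E.ik k s)) ≠ 0 := by
  have h1 : (∏ k, A.th 0 (E.io s k)) * ∏ k, A.th 0 (-(E.io s k)) ≠ 0 := h
  rw [mul_ne_zero_iff, Finset.prod_ne_zero_iff, Finset.prod_ne_zero_iff] at h1
  exact ⟨h1.1 k (Finset.mem_univ k), h1.2 k (Finset.mem_univ k)⟩

omit [DecidableEq κ] in
theorem f_eq (i : (κ → Fin (N + 1)) × (κ → Fin (N + 1))) (s : Fin β → ℂ) :
    (E.toTH A).f i s = (∏ k, A.f (i.1 k) (E.ik k s)) * ∏ k, A.f (i.2 k) (-(E.ik k s)) := by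
  show ((∏ k, A.th (i.1 k) (E.io s k)) * ∏ k, A.th (i.2 k) (-(E.io s k))) /
    ((∏ k, A.th 0 (E.io s k)) * ∏ k, A.th 0 (-(E.io s k))) = _
  rw [mul_div_mul_comm, ← Finset.prod_div_distrib, ← Finset.prod_div_distrib]
  rfl

theorem f0 {z : Fin g → ℂ} (h : A.th 0 z ≠ 0) : A.f 0 z = 1 := div_self h

theorem cl_fst (k : κ) (i : Fin (N + 1)) : Cl (E.toTH A) fun s => A.f i (E.ik k s) := by
  refine ⟨X (Function.update (fun _ => 0) k i, fun _ => 0), fun s hs => ?_⟩
  rw [aeval_X]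
  have h1 := f_eq (E := E) (A := A) (Function.update (fun _ => 0) k i, fun _ => 0) s
  have h2 : ∏ k', A.f ((Function.update (fun _ => 0) k i : κ → Fin (N + 1)) k') (E.ik k' s) =
      A.f i (E.ik k s) := by
    rw [Finset.prod_eq_single k]
    · rw [Function.update_self]
    · intro k' _ hk'
      rw [Function.update_of_ne hk']
      exact f0 (th_ne hs k').1
    · intro h
      exact absurd (Finset.mem_univ k) h
  have h3 : ∏ k', A.f ((fun _ => 0 : κ → Fin (N + 1)) k') (-(E.ik k' s)) = 1 :=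
    Finset.prod_eq_one fun k' _ => f0 (th_ne hs k').2
  show A.f i (E.ik k s) = (E.toTH A).f (Function.update (fun _ => 0) k i, fun _ => 0) s
  rw [h1]
  show _ = (∏ k', A.f ((Function.update (fun _ => 0) k i : κ → Fin (N + 1)) k') (E.ik k' s)) *
    ∏ k', A.f ((fun _ => 0 : κ → Fin (N + 1)) k') (-(E.ik k' s))
  rw [h2, h3, mul_one]

theorem cl_snd (k : κ) (i : Fin (N + 1)) : Cl (E.toTH A) fun s => A.f i ((-(E.ik k)) s) := by
  refine ⟨X (fun _ => 0, Function.update (fun _ => 0) k i), fun s hs => ?_⟩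
  rw [aeval_X]
  have h1 := f_eq (E := E) (A := A) (fun _ => 0, Function.update (fun _ => 0) k i) s
  have h2 : ∏ k', A.f ((Function.update (fun _ => 0) k i : κ → Fin (N + 1)) k')
      (-(E.ik k' s)) = A.f i (-(E.ik k s)) := by
    rw [Finset.prod_eq_single k]
    · rw [Function.update_self]
    · intro k' _ hk'
      rw [Function.update_of_ne hk']
      exact f0 (th_ne hs k').2
    · intro h
      exact absurd (Finset.mem_univ k) h
  have h3 : ∏ k', A.f ((fun _ => 0 : κ → Fin (N + 1)) k') (E.ik k' s) = 1 :=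
    Finset.prod_eq_one fun k' _ => f0 (th_ne hs k').1
  show A.f i (-(E.ik k s)) = (E.toTH A).f (fun _ => 0, Function.update (fun _ => 0) k i) s
  rw [h1]
  show _ = (∏ k', A.f ((fun _ => 0 : κ → Fin (N + 1)) k') (E.ik k' s)) *
    ∏ k', A.f ((Function.update (fun _ => 0) k i : κ → Fin (N + 1)) k') (-(E.ik k' s))
  rw [h2, h3, one_mul]

theorem f_diff (hA : A.IsAbVar K) (i : Fin (N + 1)) {z : Fin g → ℂ} (h : A.th 0 z ≠ 0) :
    DifferentiableAt ℂ (A.f i) z := by
  have e : A.f i = fun z => A.th i z * (A.th 0 z)⁻¹ := by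
    funext w
    exact div_eq_mul_inv _ _
  rw [e]
  exact ((hA.th_diff i) z).mul (((hA.th_diff 0) z).inv h)

theorem zt_diff (hA : A.IsAbVar K) (t : Fin g) {z : Fin g → ℂ} (h : A.th 0 z ≠ 0) :
    DifferentiableAt ℂ (A.zt t) z := by
  have e : A.zt t = fun z => A.Y t z * (A.th 0 z ^ A.m)⁻¹ := by
    funext w
    exact div_eq_mul_inv _ _
  rw [e]
  exact ((hA.Y_diff t) z).mul ((((hA.th_diff 0) z).pow _).inv (pow_ne_zero _ h))

end main

end CDVM

open CDVM in
theorem specCDV : SpecCDV := by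
  intro K g N β κ Λ _ _ _ A E hK hA hE
  have hT1 : ∀ k (a : Fin β) j, (E.ik k) (Pi.single a 1) j ∈ Qbar := fun k a j => by
    rw [ik_single]
    exact hE.u_alg a k j
  have hT2 : ∀ k (a : Fin β) j, (-(E.ik k)) (Pi.single a 1) j ∈ Qbar := fun k a j => by
    rw [LinearMap.neg_apply, ik_single, Pi.neg_apply]
    exact Qbar.neg_mem (hE.u_alg a k j)
  have c1 : ∀ k, (∀ s, (E.toTH A).th (E.toTH A).o s ≠ 0 → A.th 0 (E.ik k s) ≠ 0) :=
    fun k s hs => (th_ne hs k).1
  have c2 : ∀ k, (∀ s, (E.toTH A).th (E.toTH A).o s ≠ 0 → A.th 0 ((-(E.ik k)) s) ≠ 0) :=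
    fun k s hs => (th_ne hs k).2
  refine ⟨fun i a => ?_, fun a => ?_⟩
  · have p1 : Pd (E.toTH A) fun s => ∏ k, A.f (i.1 k) (E.ik k s) := Pd.prod _ fun k => by
      obtain ⟨h1, h2⟩ := comp_dcl hK (E.ik k) (hT1 k) (c1 k) (cl_fst k)
        (fun z hz => f_diff hA (i.1 k) hz) (fun j => hA.deriv (i.1 k) j)
      exact ⟨h1, cl_fst k _, h2⟩
    have p2 : Pd (E.toTH A) fun s => ∏ k, A.f (i.2 k) ((-(E.ik k)) s) := Pd.prod _ fun k => by
      obtain ⟨h1, h2⟩ := comp_dcl hK (-(E.ik k)) (hT2 k) (c2 k) (cl_snd k)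
        (fun z hz => f_diff hA (i.2 k) hz) (fun j => hA.deriv (i.2 k) j)
      exact ⟨h1, cl_snd k _, h2⟩
    have e : (E.toTH A).f i = fun s =>
        (∏ k, A.f (i.1 k) (E.ik k s)) * ∏ k, A.f (i.2 k) ((-(E.ik k)) s) := by
      funext s
      exact f_eq i s
    rw [e]
    exact ((p1.mul p2).dcl a).finish
  · -- the function `ze`
    have q1 : ∀ k t, (∀ s, (E.toTH A).th (E.toTH A).o s ≠ 0 →
        DifferentiableAt ℂ (fun s => A.zt t (E.ik k s)) s) ∧
        ∀ a : Fin β, Cl (E.toTH A) fun s => fderiv ℂ (fun s => A.zt t (E.ik k s)) s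
          (Pi.single a 1) := fun k t =>
      comp_dcl hK (E.ik k) (hT1 k) (c1 k) (cl_fst k) (fun z hz => zt_diff hA t hz)
        (fun j => hA.zt_deriv t j)
    have q2 : Cl (E.toTH A) fun s => ∑ k, (∑ j, E.R k (Sum.inl j) * E.u a k j +
        ∑ t, E.R k (Sum.inr t) *
          fderiv ℂ (fun s => A.zt t (E.ik k s)) s (Pi.single a 1)) :=
      Cl.sum _ fun k => (Cl.sum _ fun j => (Cl.const (hE.R_alg k _)).mul
        (Cl.const (hE.u_alg a k j))).add (Cl.sum _ fun t =>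
          (Cl.const (hE.R_alg k _)).mul ((q1 k t).2 a))
    refine (q2.congr fun s hs => ?_).finish
    have hlin : ∀ k j, HasFDerivAt (fun s => E.ik k s j)
        ((ContinuousLinearMap.proj (R := ℂ) (φ := fun _ : Fin g => ℂ) j).comp
          (LinearMap.toContinuousLinearMap (E.ik k))) s := fun k j =>
      ((ContinuousLinearMap.proj (R := ℂ) (φ := fun _ : Fin g => ℂ) j).comp
          (LinearMap.toContinuousLinearMap (E.ik k))).hasFDerivAt
    have h1 : HasFDerivAt (E.zeF A) (∑ k, (∑ j, E.R k (Sum.inl j) •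
        ((ContinuousLinearMap.proj (R := ℂ) (φ := fun _ : Fin g => ℂ) j).comp
          (LinearMap.toContinuousLinearMap (E.ik k))) +
        ∑ t, E.R k (Sum.inr t) • fderiv ℂ (fun s => A.zt t (E.ik k s)) s)) s := by
      have h2 : HasFDerivAt (fun s => ∑ k, (∑ j, E.R k (Sum.inl j) * E.ik k s j +
          ∑ t, E.R k (Sum.inr t) * A.zt t (E.ik k s))) (∑ k, (∑ j, E.R k (Sum.inl j) •
        ((ContinuousLinearMap.proj (R := ℂ) (φ := fun _ : Fin g => ℂ) j).comp
          (LinearMap.toContinuousLinearMap (E.ik k))) +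
        ∑ t, E.R k (Sum.inr t) • fderiv ℂ (fun s => A.zt t (E.ik k s)) s)) s := by
        refine HasFDerivAt.fun_sum fun k _ => HasFDerivAt.add ?_ ?_
        · exact HasFDerivAt.fun_sum fun j _ => (hlin k j).const_mul _
        · exact HasFDerivAt.fun_sum fun t _ =>
            ((q1 k t).1 s hs).hasFDerivAt.const_mul _
      exact h2
    rw [h1.fderiv]
    rw [_root_.sum_apply]
    refine Finset.sum_congr rfl fun k _ => ?_
    rw [_root_.add_apply, _root_.sum_apply, _root_.sum_apply]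
    congr 1
    refine Finset.sum_congr rfl fun j _ => ?_
    rw [_root_.smul_apply, smul_eq_mul]
    congr 1
    show (E.ik k) (Pi.single a 1) j = _
    rw [ik_single]

end Pool.Agent.Lib.MPf11a48.AS
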