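import Pool.Agent.Lib.MP_f11a48_ag.AS.SpecF
import Pool.Agent.Lib.MP_f11a48_ag.U.Orb

/-!
Module CHR of project AS for MP_f11a48_ag: characteristic polynomials of the elements of `S`.
-/

set_option autoImplicit false

open MvPolynomial Pool.Agent.Lib.MPf11a48.CM Filter Topology

namespace Pool.Agent.Lib.MPf11a48.AS

namespace CHRM

/-! ### Elements of `S` -/

section ring

variable {Z I Λ : Type} [Fintype Z] [Fintype I] [Fintype Λ] {D : TH Z I Λ}

theorem isS_const (hSRG : SpecSRG) (hD : D.Good) (c : ℂ) : D.IsS fun _ => c := by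
  have h := (hSRG D hD).1 (C c)
  simpa using h

theorem isS_neg (hSRG : SpecSRG) (hD : D.Good) {A : (Z → ℂ) → ℂ} (hA : D.IsS A) :
    D.IsS fun z => -A z := by
  have h := (hSRG D hD).2.2.1 _ _ (isS_const hSRG hD (-1)) hA
  simpa using h

theorem isS_sub (hSRG : SpecSRG) (hD : D.Good) {A B : (Z → ℂ) → ℂ} (hA : D.IsS A)
    (hB : D.IsS B) : D.IsS fun z => A z - B z := by
  have h := (hSRG D hD).2.1 _ _ hA (isS_neg hSRG hD hB)
  simpa [sub_eq_add_neg] using h

theorem isS_pow (hSRG : SpecSRG) (hD : D.Good) {A : (Z → ℂ) → ℂ} (hA : D.IsS A) (n : ℕ) :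
    D.IsS fun z => A z ^ n := by
  induction n with
  | zero => simpa using isS_const hSRG hD 1
  | succ n ih => simpa [pow_succ] using (hSRG D hD).2.2.1 _ _ ih hA

theorem isS_sum (hSRG : SpecSRG) (hD : D.Good) {ι : Type} (s : Finset ι)
    (A : ι → (Z → ℂ) → ℂ) (hA : ∀ i ∈ s, D.IsS (A i)) : D.IsS fun z => ∑ i ∈ s, A i z := by
  classical
  induction s using Finset.induction_on with
  | empty => simpa using isS_const hSRG hD 0
  | insert a s ha ih =>
    have h := (hSRG D hD).2.1 _ _ (hA a (Finset.mem_insert_self a s))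
      (ih fun i hi => hA i (Finset.mem_insert_of_mem hi))
    simpa [Finset.sum_insert ha] using h

/-- `S` is a domain. -/
theorem isS_mul_zero (hBAS : SpecBAS) (hD : D.Good) {A B : (Z → ℂ) → ℂ} (hA : D.IsS A)
    (hB : D.IsS B) (h : ∀ z, D.th D.o z ≠ 0 → A z * B z = 0) :
    (∀ z, D.th D.o z ≠ 0 → A z = 0) ∨ ∀ z, D.th D.o z ≠ 0 → B z = 0 := by
  obtain ⟨⟨k, G, hG, hGA⟩, -⟩ := hA
  obtain ⟨⟨l, H, hH, hHB⟩, -⟩ := hB
  have h1 : ∀ z, G z * H z = 0 := by
    apply (hBAS D hD).2.2.1 (fun z => G z * H z) (hG.mul hH)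
    intro z hz
    show G z * H z = 0
    rw [← hGA z hz, ← hHB z hz]
    have := h z hz
    linear_combination (D.th D.o z ^ k * D.th D.o z ^ l) * this
  rcases U.OrbM.ent_mul hG hH h1 with h2 | h2
  · left
    intro z hz
    have h3 := hGA z hz
    rw [h2 z] at h3
    exact (mul_eq_zero.mp h3).resolve_right (pow_ne_zero _ hz)
  · right
    intro z hz
    have h3 := hHB z hz
    rw [h2 z] at h3
    exact (mul_eq_zero.mp h3).resolve_right (pow_ne_zero _ hz)

omit [Fintype Z] [Fintype I] [Fintype Λ] in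
theorem eval_yv (N : TH.Nor I Z) (z : Z → ℂ) (P : MvPolynomial Z ℂ) :
    eval (D.yv N z) P = eval (D.fv z) (bind₁ N.y P) := by
  rw [← coe_aeval_eq_eval, ← coe_aeval_eq_eval]
  show _ = aeval (D.fv z) (bind₁ N.y P)
  rw [aeval_bind₁]
  rfl

theorem isS_yv (hSRG : SpecSRG) (hD : D.Good) (N : TH.Nor I Z) (P : MvPolynomial Z ℂ) :
    D.IsS fun z => eval (D.yv N z) P := by
  have h := (hSRG D hD).1 (bind₁ N.y P)
  simpa only [eval_yv] using h

/-- The density of `Ω`. -/
theorem dense (hBAS : SpecBAS) (hSRG : SpecSRG) (hD : D.Good) {N : TH.Nor I Z}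
    (hN : D.NorGood N) {A : (Z → ℂ) → ℂ} (hA : D.IsS A)
    (h : ∀ z, D.th D.o z ≠ 0 → eval (D.yv N z) N.Δ ≠ 0 → A z = 0) :
    ∀ z, D.th D.o z ≠ 0 → A z = 0 := by
  rcases isS_mul_zero hBAS hD hA (isS_yv hSRG hD N N.Δ) (fun z hz => by
    by_cases h1 : eval (D.yv N z) N.Δ = 0
    · show A z * eval (D.yv N z) N.Δ = 0
      rw [h1, mul_zero]
    · show A z * eval (D.yv N z) N.Δ = 0
      rw [h z hz h1, zero_mul]) with h2 | h2
  · exact h2
  · exact absurd (hN.indep N.Δ h2) hN.ne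

/-- The value of `A ∈ S` depends only on `f(z)`. -/
theorem isS_eq (hBAS : SpecBAS) (hD : D.Good) {A : (Z → ℂ) → ℂ} (hA : D.IsS A)
    {z w : Z → ℂ} (hz : D.th D.o z ≠ 0) (hw : D.th D.o w ≠ 0) (h : D.fv z = D.fv w) :
    A z = A w := by
  obtain ⟨x, hx⟩ := (hBAS D hD).2.2.2.2.2.1 z w hz hw h
  have h1 := (hBAS D hD).2.2.2.2.2.2.1 A hA x w hw
  rw [← hx] at h1
  rw [← h1]
  congr 1
  abel

end ring

/-! ### Interpolation -/

/-- the nodes `0, …, d` -/
noncomputable def node (d : ℕ) (t : Fin (d + 1)) : ℂ := ((t : ℕ) : ℂ)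

theorem node_inj (d : ℕ) : Function.Injective (node d) := by
  intro a b h
  have h1 : ((a : ℕ) : ℂ) = ((b : ℕ) : ℂ) := h
  exact Fin.ext (by exact_mod_cast h1)

/-- the Lagrange basis -/
noncomputable def bas (d : ℕ) (t : Fin (d + 1)) : Polynomial ℂ :=
  Lagrange.basis Finset.univ (node d) t

theorem coeff_eq (d : ℕ) (g : Polynomial ℂ) (hg : g.natDegree ≤ d) (k : ℕ) :
    g.coeff k = ∑ t : Fin (d + 1), g.eval (node d t) * (bas d t).coeff k := by
  have h1 : g.degree < ((Finset.univ : Finset (Fin (d + 1))).card : ℕ) := by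
    rw [Finset.card_univ, Fintype.card_fin]
    refine lt_of_le_of_lt Polynomial.degree_le_natDegree ?_
    exact_mod_cast Nat.lt_succ_of_le hg
  have h2 := Lagrange.eq_interpolate (s := Finset.univ) (v := node d) (f := g)
    (node_inj d).injOn h1
  rw [Lagrange.interpolate_apply] at h2
  have h3 := congrArg (fun p => Polynomial.coeff p k) h2
  simp only [Polynomial.finsetSum_coeff, Polynomial.coeff_C_mul] at h3
  exact h3

end CHRM

open CHRM

theorem specCHR (hBAS : SpecBAS) (hSRG : SpecSRG) (hSYM : SpecSYM) : SpecCHR := by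
  classical
  intro Z I Λ _ _ _ D hD N hN d hd hE A hA
  have h1 : ∀ t : Fin (d + 1), ∃ P : MvPolynomial Z ℂ, ∀ y, eval y N.Δ ≠ 0 →
      ∀ z : Fin d → (Z → ℂ), D.Enum N y z → eval y P = ∏ j, (node d t - A (z j)) := fun t =>
    hSYM D hD N hN d hE (fun z => node d t - A z)
      (isS_sub hSRG hD (isS_const hSRG hD _) hA)
  choose P hP using h1
  obtain ⟨c, hc⟩ : ∃ c : Fin d → MvPolynomial Z ℂ,
      ∀ k, c k = ∑ t, C ((bas d t).coeff k) * P t := ⟨_, fun _ => rfl⟩
  obtain ⟨χ, hχ⟩ : ∃ χ : Polynomial (MvPolynomial Z ℂ), χ =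
    Polynomial.X ^ d + ∑ k : Fin d, Polynomial.C (c k) * Polynomial.X ^ (k : ℕ) := ⟨_, rfl⟩
  have hdeg := Polynomial.degree_sum_fin_lt c
  have hmon : χ.Monic := by
    rw [hχ]
    exact Polynomial.monic_X_pow_add hdeg
  have hnat : χ.natDegree = d := by
    rw [hχ, Polynomial.natDegree_eq_of_degree_eq (Polynomial.degree_add_eq_left_of_degree_lt ?_)]
    · exact Polynomial.natDegree_X_pow d
    · rw [Polynomial.degree_X_pow]
      exact hdeg
  have hprod : ∀ y, eval y N.Δ ≠ 0 → ∀ z : Fin d → (Z → ℂ), D.Enum N y z →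
      χ.map (eval y) = ∏ j, (Polynomial.X - Polynomial.C (A (z j))) := by
    intro y hy z hz
    obtain ⟨g, hg⟩ : ∃ g : Polynomial ℂ, g = ∏ j, (Polynomial.X - Polynomial.C (A (z j))) :=
      ⟨_, rfl⟩
    have hgm : g.Monic := by
      rw [hg]
      exact Polynomial.monic_prod_X_sub_C _ _
    have hgn : g.natDegree = d := by
      rw [hg, Polynomial.natDegree_finsetProd_X_sub_C_eq_card, Finset.card_univ,
        Fintype.card_fin]
    have hge : ∀ t : Fin (d + 1), g.eval (node d t) = eval y (P t) := by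
      intro t
      rw [hP t y hy z hz, hg, Polynomial.eval_prod]
      simp
    have h2 : ∀ k : Fin d, g.coeff (k : ℕ) = eval y (c k) := by
      intro k
      rw [coeff_eq d g hgn.le k, hc k]
      simp only [map_sum, map_mul, eval_C]
      refine Finset.sum_congr rfl fun t _ => ?_
      rw [hge t, mul_comm]
    have e := hgm.as_sum
    rw [hgn, Finset.sum_range] at e
    calc χ.map (eval y) = Polynomial.X ^ d +
        ∑ k : Fin d, Polynomial.C (eval y (c k)) * Polynomial.X ^ (k : ℕ) := by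
          rw [hχ]
          simp only [Polynomial.map_add, Polynomial.map_pow, Polynomial.map_X, Polynomial.map_sum,
            Polynomial.map_mul, Polynomial.map_C]
      _ = Polynomial.X ^ d +
        ∑ k : Fin d, Polynomial.C (g.coeff (k : ℕ)) * Polynomial.X ^ (k : ℕ) := by
          simp only [h2]
      _ = g := e.symm
      _ = _ := hg
  refine ⟨χ, hmon, hnat, hprod, ?_⟩
  have hS : D.IsS fun z => (χ.map (eval (D.yv N z))).eval (A z) := by
    have h3 : (fun z => (χ.map (eval (D.yv N z))).eval (A z)) = fun z =>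
        ∑ k ∈ Finset.range (d + 1), eval (D.yv N z) (χ.coeff k) * A z ^ k := by
      funext z
      rw [Polynomial.eval_eq_sum_range' (n := d + 1)]
      · simp only [Polynomial.coeff_map]
      · have := Polynomial.natDegree_map_le (f := eval (D.yv N z)) (p := χ)
        omega
    rw [h3]
    exact isS_sum hSRG hD _ _ fun k _ =>
      (hSRG D hD).2.2.1 _ _ (isS_yv hSRG hD N _) (isS_pow hSRG hD hA k)
  refine dense hBAS hSRG hD hN hS ?_
  intro z hz hΔ
  obtain ⟨w, hw⟩ := hE _ hΔ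
  obtain ⟨j, hj⟩ := hw.2.2 z hz rfl
  show (χ.map (eval (D.yv N z))).eval (A z) = 0
  rw [hprod _ hΔ w hw, Polynomial.eval_prod]
  refine Finset.prod_eq_zero (Finset.mem_univ j) ?_
  rw [isS_eq hBAS hD hA hz (hw.1 j).1 hj]
  simp

end Pool.Agent.Lib.MPf11a48.AS
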