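import Pool.Agent.Lib.MP_f11a48_ag.AS.SpecX
import Pool.Agent.Lib.MP_f11a48_ag.U.Clos
import Pool.Agent.Lib.MP_f11a48_ag.U.Jac

/-!
# Project AS, module CLO

If any `dim U + 1` of the functions `f_i` are algebraically dependent on the complex subspace `U`,
then `U` is spanned over `ℝ` by lattice vectors.
-/

set_option autoImplicit false

open MvPolynomial Pool.Agent.Lib.MPf11a48.CM Filter Topology

namespace Pool.Agent.Lib.MPf11a48.AS

namespace CLOM

open Pool.Agent.Lib.MPf11a48.U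

variable {Z I Λ : Type} [Fintype Z] [Fintype I] [Fintype Λ]

/-- extension of the relation to `U + ℝ x` -/
theorem extend_real (hB : SpecBAS) (D : TH Z I Λ) (hD : D.Good) (U : Submodule ℂ (Z → ℂ))
    {σ : Type} (s : σ → I) (P : MvPolynomial σ ℂ)
    (hP : ∀ z ∈ U, D.th D.o z ≠ 0 → aeval (fun k => D.f (s k) z) P = 0)
    (x : Z → ℂ) (t : ℝ) (g : ℕ → Λ → ℤ) (w : ℕ → Z → ℂ) (hw : ∀ k, w k ∈ U)
    (hlim : Tendsto (fun k => w k + ∑ a, (g k a : ℂ) • D.lat a) atTop (𝓝 ((t : ℂ) • x)))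
    (u : Z → ℂ) (hu : u ∈ U) (hz : D.th D.o (u + (t : ℂ) • x) ≠ 0) :
    aeval (fun k => D.f (s k) (u + (t : ℂ) • x)) P = 0 := by
  obtain ⟨hper, han, -⟩ := hB D hD
  have h1 : Tendsto (fun k => u + (w k + ∑ a, (g k a : ℂ) • D.lat a)) atTop
      (𝓝 (u + (t : ℂ) • x)) := tendsto_const_nhds.add hlim
  have hc : ContinuousAt (fun z => aeval (fun k => D.f (s k) z) P) (u + (t : ℂ) • x) :=
    (Clos.diff_aeval (fun k => D.f (s k)) _
      (fun k => (han (s k) _ hz).differentiableAt) P).continuousAt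
  have h2 := hc.tendsto.comp h1
  have hne : ∀ᶠ k in atTop, D.th D.o (u + (w k + ∑ a, (g k a : ℂ) • D.lat a)) ≠ 0 :=
    (((hD.diff D.o).continuous.tendsto _).comp h1).eventually_ne hz
  have h3 : ∀ᶠ k in atTop, ((fun z => aeval (fun k => D.f (s k) z) P) ∘
      fun k => u + (w k + ∑ a, (g k a : ℂ) • D.lat a)) k = 0 := by
    filter_upwards [hne] with k hk
    simp only [Function.comp]
    rw [← add_assoc] at hk ⊢
    obtain ⟨p1, p2⟩ := hper (g k) (u + w k)
    have hk' : D.th D.o (u + w k) ≠ 0 := p1.1 hk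
    have p3 : ∀ i, D.f i (u + w k + ∑ a, (g k a : ℂ) • D.lat a) = D.f i (u + w k) := fun i =>
      congrFun p2 i
    simp only [p3]
    exact hP _ (U.add_mem hu (hw k)) hk'
  exact tendsto_nhds_unique (h2.congr' h3) tendsto_const_nhds |>.symm ▸ rfl

/-- extension of the relation to `U + ℂ x`, near `0` -/
theorem extend_complex (hB : SpecBAS) (D : TH Z I Λ) (hD : D.Good) (U : Submodule ℂ (Z → ℂ))
    {σ : Type} (s : σ → I) (P : MvPolynomial σ ℂ)
    (hP : ∀ z ∈ U, D.th D.o z ≠ 0 → aeval (fun k => D.f (s k) z) P = 0)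
    (p : (Z → ℂ) →L[ℂ] (Z → ℂ)) (hp0 : ∀ z ∈ U, p z = 0)
    (x : Z → ℂ) (hx0 : x ≠ 0) (hx : p x = x)
    (hdir : ∀ t : ℝ, ∃ (g : ℕ → Λ → ℤ) (w : ℕ → Z → ℂ), (∀ k, w k ∈ U) ∧
      Tendsto (fun k => w k + ∑ a, (g k a : ℂ) • D.lat a) atTop (𝓝 ((t : ℂ) • x))) :
    ∀ᶠ z in 𝓝 (0 : Z → ℂ), ∀ u ∈ U, ∀ t : ℂ, z = u + t • x →
      aeval (fun k => D.f (s k) z) P = 0 := by
  obtain ⟨-, hanf, -⟩ := hB D hD
  have hne : ∀ᶠ z in 𝓝 (0 : Z → ℂ), D.th D.o z ≠ 0 :=
    ((hD.diff D.o).continuous.tendsto 0).eventually_ne hD.zero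
  obtain ⟨r, hr, hrθ⟩ := Metric.eventually_nhds_iff.1 hne
  simp only [dist_zero_right] at hrθ
  have hx1 : 0 < ‖x‖ := norm_pos_iff.2 hx0
  have hN : 0 ≤ ‖p‖ := norm_nonneg _
  refine Metric.eventually_nhds_iff.2 ⟨r / (1 + 2 * ‖p‖), by positivity, ?_⟩
  intro z hz u hu t hzut
  rw [dist_zero_right, lt_div_iff₀ (by positivity)] at hz
  have h1 : ‖t‖ * ‖x‖ ≤ ‖p‖ * ‖z‖ := by
    have h2 : p z = t • x := by
      rw [hzut, map_add, hp0 u hu, map_smul, hx, zero_add]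
    calc ‖t‖ * ‖x‖ = ‖p z‖ := by rw [h2, norm_smul]
      _ ≤ ‖p‖ * ‖z‖ := p.le_opNorm z
  have h2 : ‖u‖ ≤ ‖z‖ + ‖t‖ * ‖x‖ := by
    have : u = z - t • x := by rw [hzut]; abel
    rw [this, ← norm_smul]
    exact norm_sub_le _ _
  have h3 : ‖t‖ * ‖x‖ < r - ‖u‖ := by nlinarith
  have hpos : 0 < r - ‖u‖ := lt_of_le_of_lt (by positivity) h3
  set ρ := (r - ‖u‖) / ‖x‖ with hρ
  have hρ0 : 0 < ρ := by positivity
  have hball : ∀ τ ∈ Metric.ball (0 : ℂ) ρ, D.th D.o (u + τ • x) ≠ 0 := by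
    intro τ hτ
    apply hrθ
    rw [Metric.mem_ball, dist_zero_right, hρ, lt_div_iff₀ hx1] at hτ
    calc ‖u + τ • x‖ ≤ ‖u‖ + ‖τ • x‖ := norm_add_le _ _
      _ = ‖u‖ + ‖τ‖ * ‖x‖ := by rw [norm_smul]
      _ < r := by linarith
  set h : ℂ → ℂ := fun τ => aeval (fun k => D.f (s k) (u + τ • x)) P with hh
  have hdiff : DifferentiableOn ℂ h (Metric.ball 0 ρ) := by
    intro τ hτ
    refine DifferentiableAt.differentiableWithinAt ?_
    have h4 : DifferentiableAt ℂ (fun τ : ℂ => u + τ • x) τ := by fun_prop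
    have h5 := Clos.diff_aeval (fun k => D.f (s k)) (u + τ • x)
      (fun k => (hanf (s k) _ (hball τ hτ)).differentiableAt) P
    exact DifferentiableAt.comp (g := fun w => aeval (fun k => D.f (s k) w) P)
      (f := fun τ : ℂ => u + τ • x) τ h5 h4
  have han : AnalyticOnNhd ℂ h (Metric.ball 0 ρ) := hdiff.analyticOnNhd Metric.isOpen_ball
  have hreal : ∀ t : ℝ, (t : ℂ) ∈ Metric.ball (0 : ℂ) ρ → h t = 0 := by
    intro t ht
    obtain ⟨g, w, hw, hlim⟩ := hdir t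
    exact extend_real hB D hD U s P hP x t g w hw hlim u hu (hball _ ht)
  have hseq : Tendsto (fun n : ℕ => ((1 / ((n : ℝ) + 1) : ℝ) : ℂ)) atTop (𝓝[≠] 0) := by
    refine tendsto_nhdsWithin_iff.2 ⟨?_, Eventually.of_forall fun n => ?_⟩
    · have := (Complex.continuous_ofReal.tendsto 0).comp
        (tendsto_one_div_add_atTop_nhds_zero_nat (𝕜 := ℝ))
      rw [Complex.ofReal_zero] at this
      exact this
    · have : (1 / ((n : ℝ) + 1) : ℝ) ≠ 0 := by positivity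
      exact Complex.ofReal_ne_zero.2 this
  have hfreq : ∃ᶠ τ in 𝓝[≠] (0 : ℂ), h τ = 0 := by
    refine hseq.frequently (Eventually.frequently ?_)
    have h5 : ∀ᶠ n : ℕ in atTop, ((1 / ((n : ℝ) + 1) : ℝ) : ℂ) ∈ Metric.ball (0 : ℂ) ρ :=
      (tendsto_nhdsWithin_iff.1 hseq).1 (Metric.ball_mem_nhds _ hρ0)
    filter_upwards [h5] with n hn
    exact hreal _ hn
  have hzero := han.eqOn_zero_of_preconnected_of_frequently_eq_zero
    (convex_ball (0 : ℂ) ρ).isPreconnected (Metric.mem_ball_self hρ0) hfreq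
  have ht : t ∈ Metric.ball (0 : ℂ) ρ := by
    rw [Metric.mem_ball, dist_zero_right, hρ, lt_div_iff₀ hx1]
    exact h3
  rw [hzut]
  exact hzero ht

/-- immersion at the origin -/
theorem imm (hB : SpecBAS) (D : TH Z I Λ) (hD : D.Good) (v : Z → ℂ) (hv : v ≠ 0) :
    ∃ i, fderiv ℂ (D.f i) 0 v ≠ 0 := by
  obtain ⟨-, -, -, -, h5, -⟩ := hB D hD
  by_contra h
  push Not at h
  exact hv (h5 0 v hD.zero h)

/-- choice of coordinates with independent differentials on `X` -/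
theorem exists_indices (hB : SpecBAS) (D : TH Z I Λ) (hD : D.Good) (X : Submodule ℂ (Z → ℂ))
    (n : ℕ) (hn : n ≤ Module.finrank ℂ X) :
    ∃ s : Fin n → I, ∀ b : Fin n → ℂ,
      (∀ v ∈ X, ∑ k, b k * fderiv ℂ (D.f (s k)) 0 v = 0) → b = 0 := by
  let F : I → Module.Dual ℂ X := fun i => (fderiv ℂ (D.f i) 0).toLinearMap ∘ₗ X.subtype
  have hco : (Submodule.span ℂ (Set.range F)).dualCoannihilator = ⊥ := by
    rw [eq_bot_iff]
    intro v hv
    rw [Submodule.mem_dualCoannihilator] at hv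
    by_contra hv0
    have hv0' : (v : Z → ℂ) ≠ 0 := by
      intro h
      apply hv0
      simpa using h
    obtain ⟨i, hi⟩ := imm hB D hD v hv0'
    exact hi (hv (F i) (Submodule.subset_span ⟨i, rfl⟩))
  have hsp : Submodule.span ℂ (Set.range F) = ⊤ := by
    rw [← Subspace.dualCoannihilator_dualAnnihilator_eq (W := Submodule.span ℂ (Set.range F)), hco,
      Submodule.dualAnnihilator_bot]
  obtain ⟨κ, a, -, hspan, hli⟩ := exists_linearIndependent' ℂ F
  have : Finite κ := hli.finite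
  have := Fintype.ofFinite κ
  let B := Module.Basis.mk hli (by rw [hspan, hsp])
  have hcard : Fintype.card κ = Module.finrank ℂ X := by
    rw [← Module.finrank_eq_card_basis B, Subspace.dual_finrank_eq]
  obtain ⟨e⟩ : Nonempty (Fin n ↪ κ) :=
    Function.Embedding.nonempty_of_card_le (by rw [Fintype.card_fin, hcard]; exact hn)
  refine ⟨fun k => a (e k), fun b hb => ?_⟩
  have hli' : LinearIndependent ℂ fun k => F (a (e k)) := hli.comp e e.injective
  rw [Fintype.linearIndependent_iff] at hli'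
  funext k
  refine hli' b ?_ k
  ext v
  have := hb v v.2
  simpa [F] using this

end CLOM

theorem specCLO (hB : SpecBAS) : SpecCLO := by
  intro β I Λ _ _ D hD U hU u hu
  by_contra hus
  obtain ⟨p, hp0, hp1⟩ := Pool.Agent.Lib.MPf11a48.U.Clos.exists_proj U
  obtain ⟨x, hxU, hpx, hdir⟩ := Pool.Agent.Lib.MPf11a48.U.Clos.direction D.lat U p hp0 hp1
    (fun ε hε => Pool.Agent.Lib.MPf11a48.U.Clos.small D.lat hD.indep hD.card U p hp0 hp1 u hu hus ε hε)
  have hx0 : x ≠ 0 := fun h => hxU (h ▸ U.zero_mem)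
  set X := U ⊔ Submodule.span ℂ {x} with hX
  have hlt : U < X := by
    refine lt_of_le_of_ne le_sup_left fun h => hxU ?_
    rw [h]
    exact Submodule.mem_sup_right (Submodule.mem_span_singleton_self x)
  have hfr : Module.finrank ℂ U + 1 ≤ Module.finrank ℂ X := Submodule.finrank_lt_finrank_of_lt hlt
  obtain ⟨s, hs⟩ := CLOM.exists_indices hB D hD X _ hfr
  obtain ⟨P, hP0, hP⟩ := hU s
  apply hP0
  have han := (hB D hD).2.1
  refine Pool.Agent.Lib.MPf11a48.U.specJAC X _ (fun k => D.f (s k)) (fun k => han (s k) 0 hD.zero) hs P ?_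
  have hP' : ∀ z ∈ U, D.th D.o z ≠ 0 → aeval (fun k => D.f (s k) z) P = 0 := by
    intro z hz hz'
    exact (DFunLike.congr_fun (coe_aeval_eq_eval (fun k => D.f (s k) z)) P).trans (hP z hz hz')
  filter_upwards [CLOM.extend_complex hB D hD U s P hP' p hp0 x hx0 hpx hdir] with z hz hzX
  obtain ⟨v, hv, w, hw, rfl⟩ := Submodule.mem_sup.1 hzX
  obtain ⟨t, rfl⟩ := Submodule.mem_span_singleton.1 hw
  exact hz v hv t rfl

end Pool.Agent.Lib.MPf11a48.AS
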