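import Pool.Agent.Lib.MP_f11a48_ag.AS.SpecT

/-!
# Project AS, module CNJ: conjugation of derivatives along a line
-/

set_option autoImplicit false
set_option linter.unusedSectionVars false

open MvPolynomial Pool.Agent.Lib.MPf11a48.CM Filter Topology Asymptotics NumberField
open Pool.Agent.Lib.MPf11a48.U (oEmb)

namespace Pool.Agent.Lib.MPf11a48.AS

namespace CNJM

variable {β : ℕ} {I Λ : Type}

/-- the derivation along `v` -/
noncomputable def dv (D : QD β I Λ) (v : Fin β → ℂ) :
    Derivation ℂ (MvPolynomial I ℂ) (MvPolynomial I ℂ) :=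
  mkDerivation ℂ fun i => ∑ j, C (v j) * D.p i j

theorem dv_X (D : QD β I Λ) (v : Fin β → ℂ) (i : I) :
    dv D v (X i) = ∑ j, C (v j) * D.p i j := by
  unfold dv
  rw [mkDerivation_X]

theorem dv_C (D : QD β I Λ) (v : Fin β → ℂ) (a : ℂ) : dv D v (C a) = 0 :=
  (dv D v).map_algebraMap a

variable [Fintype I] [Fintype Λ]

theorem diff_f (D : QD β I Λ) (hD : D.Good) (i : I) {z : Fin β → ℂ} (hz : D.th D.o z ≠ 0) :
    DifferentiableAt ℂ (D.f i) z := by
  have h1 : DifferentiableAt ℂ (fun w => D.th i w * (D.th D.o w)⁻¹) z :=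
    ((hD.good.diff i) z).mul (((hD.good.diff D.o) z).inv hz)
  have h2 : D.f i = fun w => D.th i w * (D.th D.o w)⁻¹ := by
    funext w
    exact div_eq_mul_inv _ _
  rw [h2]
  exact h1

theorem fderiv_f (D : QD β I Λ) (hD : D.Good) (i : I) {z : Fin β → ℂ} (hz : D.th D.o z ≠ 0)
    (v : Fin β → ℂ) : fderiv ℂ (D.f i) z v = eval (D.fv z) (dv D v (X i)) := by
  have h : v = ∑ j, v j • (Pi.single j 1 : Fin β → ℂ) := by
    funext i
    simp [Finset.sum_apply, Pi.single_apply]
  rw [dv_X]
  conv_lhs => rw [h]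
  rw [map_sum, map_sum]
  refine Finset.sum_congr rfl fun j _ => ?_
  rw [map_smul, hD.f_deriv i j z hz, map_mul, eval_C]
  rfl

theorem hasDeriv (D : QD β I Λ) (hD : D.Good) (γ v : Fin β → ℂ) (P : MvPolynomial I ℂ)
    (t : ℂ) (ht : D.th D.o (γ + t • v) ≠ 0) :
    HasDerivAt (fun t : ℂ => eval (D.fv (γ + t • v)) P)
      (eval (D.fv (γ + t • v)) (dv D v P)) t := by
  induction P using MvPolynomial.induction_on with
  | C a =>
    rw [dv_C, map_zero]
    simp only [eval_C]
    exact hasDerivAt_const t a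
  | add p q hp hq =>
    simp only [map_add]
    exact hp.add hq
  | mul_X p i hp =>
    have hline : HasDerivAt (fun t : ℂ => γ + t • v) v t := by
      have h1 : HasDerivAt (fun t : ℂ => t • v) ((1 : ℂ) • v) t :=
        (hasDerivAt_id t).smul_const v
      rw [one_smul] at h1
      exact h1.const_add γ
    have hX : HasDerivAt (fun t : ℂ => D.f i (γ + t • v))
        (eval (D.fv (γ + t • v)) (dv D v (X i))) t := by
      rw [← fderiv_f D hD i ht v]
      exact ((diff_f D hD i ht).hasFDerivAt).comp_hasDerivAt t hline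
    have h2 := hp.mul hX
    rw [Derivation.leibniz]
    simp only [map_mul, map_add, eval_X, smul_eq_mul]
    refine h2.congr_deriv ?_
    change _ * D.f i _ + _ = _ * _ + D.f i _ * _
    ring

theorem iter (D : QD β I Λ) (hD : D.Good) (γ v : Fin β → ℂ) (hγ : D.th D.o γ ≠ 0) (k : ℕ) :
    ∀ P : MvPolynomial I ℂ, iteratedDeriv k (fun t : ℂ => eval (D.fv (γ + t • v)) P) 0 =
      eval (D.fv γ) ((dv D v)^[k] P) := by
  have hev : ∀ᶠ t : ℂ in 𝓝 0, D.th D.o (γ + t • v) ≠ 0 := by
    have hc : Continuous (fun t : ℂ => D.th D.o (γ + t • v)) :=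
      (hD.good.diff D.o).continuous.comp (continuous_const.add (continuous_id.smul continuous_const))
    apply hc.continuousAt.eventually_ne
    rw [zero_smul, add_zero]
    exact hγ
  induction k with
  | zero =>
    intro P
    rw [iteratedDeriv_zero, zero_smul, add_zero]
    rfl
  | succ k ih =>
    intro P
    rw [iteratedDeriv_succ', Function.iterate_succ_apply, ← ih]
    apply Filter.EventuallyEq.iteratedDeriv_eq
    filter_upwards [hev] with t ht
    exact (hasDeriv D hD γ v P t ht).deriv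

variable (τ : ℂ ≃+* ℂ)

theorem map_fix {σ : Type} (hτ : FixQ τ) (P : MvPolynomial σ ℂ) (h : ∀ m, P.coeff m ∈ Qbar) :
    map (τ : ℂ →+* ℂ) P = P := by
  ext m
  rw [coeff_map]
  exact hτ _ (h m)

theorem map_dv (D : QD β I Λ) (hA : D.Alg) (hτ : FixQ τ) (v : Fin β → ℂ)
    (hv : ∀ j, τ (v j) = v j) (P : MvPolynomial I ℂ) :
    map (τ : ℂ →+* ℂ) (dv D v P) = dv D v (map (τ : ℂ →+* ℂ) P) := by
  induction P using MvPolynomial.induction_on with
  | C a => rw [dv_C, map_C, dv_C, map_zero]
  | add p q hp hq => rw [map_add, map_add, map_add, map_add, hp, hq]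
  | mul_X p i hp =>
    have hX : map (τ : ℂ →+* ℂ) (dv D v (X i)) = dv D v (X i) := by
      rw [dv_X, map_sum]
      refine Finset.sum_congr rfl fun j _ => ?_
      rw [map_mul, map_C, map_fix τ hτ _ (hA.p_coeff i j)]
      congr 2
      exact hv j
    have e1 : map (τ : ℂ →+* ℂ) (p * X i) = map (τ : ℂ →+* ℂ) p * X i := by
      rw [map_mul, map_X]
    rw [e1, Derivation.leibniz, Derivation.leibniz, map_add, smul_eq_mul, smul_eq_mul,
      smul_eq_mul, smul_eq_mul, map_mul, map_mul, map_X, hp, hX]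

theorem map_iter (D : QD β I Λ) (hA : D.Alg) (hτ : FixQ τ) (v : Fin β → ℂ)
    (hv : ∀ j, τ (v j) = v j) (k : ℕ) : ∀ P : MvPolynomial I ℂ,
    map (τ : ℂ →+* ℂ) ((dv D v)^[k] P) = (dv D v)^[k] (map (τ : ℂ →+* ℂ) P) := by
  induction k with
  | zero =>
    intro P
    rfl
  | succ k ih =>
    intro P
    rw [Function.iterate_succ_apply, Function.iterate_succ_apply, ih, map_dv τ D hA hτ v hv]

theorem eval_conj (x : I → ℂ) (P : MvPolynomial I ℂ) :
    eval (fun i => τ (x i)) (map (τ : ℂ →+* ℂ) P) = τ (eval x P) := by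
  induction P using MvPolynomial.induction_on with
  | C a =>
    rw [map_C, eval_C, eval_C]
    rfl
  | add p q hp hq => rw [map_add, map_add, map_add, map_add, hp, hq]
  | mul_X p i hp => rw [map_mul, map_mul, map_mul, map_mul, map_X, eval_X, eval_X, hp]

end CNJM

open CNJM in
theorem specCNJ : SpecCNJ := by
  intro β I Λ _ _ D hD hA τ hτ γ γ' hγ hγ' hf v hv P k
  rw [iter D hD γ' v hγ', iter D hD γ v hγ, ← map_iter τ D hA hτ v hv]
  have h : D.fv γ' = fun i => τ (D.fv γ i) := by
    funext i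
    exact hf i
  rw [h]
  exact eval_conj τ _ _

end Pool.Agent.Lib.MPf11a48.AS
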