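import Pool.Agent.Lib.MP_f11a48_ag.AS.SpecF
import Pool.Agent.Lib.MP_f11a48_ag.U.Clos

/-!
# Module CNT (counting lemma)
-/

set_option autoImplicit false

open MvPolynomial Pool.Agent.Lib.MPf11a48.CM Filter Topology Asymptotics

namespace Pool.Agent.Lib.MPf11a48.AS

namespace CNTM

variable {Z : Type} [Fintype Z]

theorem ent_zero {F : (Z → ℂ) → ℂ} (hF : Differentiable ℂ F) {z₀ : Z → ℂ}
    (h : ∀ᶠ z in 𝓝 z₀, F z = 0) : ∀ z, F z = 0 := by
  have h1 := AnalyticOnNhd.eq_of_eventuallyEq (𝕜 := ℂ) (f := F) (g := fun _ => (0 : ℂ))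
    (z₀ := z₀) (fun z _ => Pool.Agent.Lib.MPf11a48.U.Osgood.analyticAt_of_differentiable hF z)
    (fun z _ => analyticAt_const) h
  intro z
  rw [h1]

theorem diff_prod {ι : Type} (s : Finset ι) (F : ι → (Z → ℂ) → ℂ)
    (hF : ∀ i, Differentiable ℂ (F i)) : Differentiable ℂ fun z => ∏ i ∈ s, F i z := by
  classical
  induction s using Finset.induction_on with
  | empty => simp
  | insert a s ha ih =>
    simp only [Finset.prod_insert ha]
    exact (hF a).mul ih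

/-- The monomials. -/
noncomputable def Fa {n D : ℕ} (k : ℕ) (w : (Z → ℂ) → ℂ) (G : Fin n → (Z → ℂ) → ℂ)
    (a : Fin n → Fin D) (z : Z → ℂ) : ℂ :=
  w z ^ (k * (n * D - ∑ j, (a j : ℕ))) * ∏ j, G j z ^ (a j : ℕ)

theorem sum_le {n D : ℕ} (a : Fin n → Fin D) : ∑ j, (a j : ℕ) ≤ n * D := by
  calc ∑ j, (a j : ℕ) ≤ ∑ _j : Fin n, D := Finset.sum_le_sum fun j _ => (a j).2.le
    _ = n * D := by simp

omit [Fintype Z] in
theorem Fa_eq {n D : ℕ} (k : ℕ) {w : (Z → ℂ) → ℂ} {G A : Fin n → (Z → ℂ) → ℂ}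
    (a : Fin n → Fin D) {z : Z → ℂ} (h : ∀ j, A j z * w z ^ k = G j z) :
    Fa k w G a z = w z ^ (k * (n * D)) * ∏ j, A j z ^ (a j : ℕ) := by
  unfold Fa
  have h1 : ∏ j, G j z ^ (a j : ℕ) = (∏ j, A j z ^ (a j : ℕ)) * w z ^ (k * ∑ j, (a j : ℕ)) := by
    rw [pow_mul, ← Finset.prod_pow_eq_pow_sum, ← Finset.prod_mul_distrib]
    refine Finset.prod_congr rfl fun j _ => ?_
    rw [← h j, mul_pow]
  rw [h1, mul_left_comm, ← pow_add, ← mul_add, Nat.sub_add_cancel (sum_le a), mul_comm]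

theorem Fa_diff {n D : ℕ} (k : ℕ) {w : (Z → ℂ) → ℂ} {G : Fin n → (Z → ℂ) → ℂ}
    (hw : Differentiable ℂ w) (hG : ∀ j, Differentiable ℂ (G j)) (a : Fin n → Fin D) :
    Differentiable ℂ (Fa k w G a) := by
  unfold Fa
  refine (hw.pow _).mul ?_
  exact diff_prod Finset.univ (fun j z => G j z ^ (a j : ℕ)) fun j => (hG j).pow _

/-- The set where an entire function does not vanish is dense. -/
theorem dense_ne {w : (Z → ℂ) → ℂ} (hw : Differentiable ℂ w) (hne : ∃ z, w z ≠ 0) :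
    Dense {z | w z ≠ 0} := by
  rw [dense_iff_inter_open]
  intro U hU hUn
  by_contra hcon
  obtain ⟨z₁, hz₁⟩ := hUn
  have h1 : ∀ z ∈ U, w z = 0 := by
    intro z hz
    by_contra h
    exact hcon ⟨z, hz, h⟩
  have h2 : ∀ᶠ z in 𝓝 z₁, w z = 0 := by
    filter_upwards [hU.mem_nhds hz₁] with z hz using h1 z hz
  obtain ⟨z, hz⟩ := hne
  exact hz (ent_zero hw h2 z)

/-- The group of the periods. -/
def Per {n : ℕ} (w : (Z → ℂ) → ℂ) (A : Fin n → (Z → ℂ) → ℂ) : AddSubgroup (Z → ℂ) where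
  carrier := {μ | ∃ e : (Z → ℂ) → ℂ, Continuous e ∧ (∀ z, e z ≠ 0) ∧
    (∀ z, w (z + μ) = e z * w z) ∧ ∀ j z, w z ≠ 0 → A j (z + μ) = A j z}
  zero_mem' := ⟨fun _ => 1, continuous_const, fun _ => one_ne_zero, by simp, by simp⟩
  add_mem' := by
    rintro μ ν ⟨e, c1, c2, c3, c4⟩ ⟨e', d1, d2, d3, d4⟩
    refine ⟨fun z => e' (z + μ) * e z,
      (d1.comp (continuous_id.add continuous_const)).mul c1,
      fun z => mul_ne_zero (d2 _) (c2 _), ?_, ?_⟩
    · intro z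
      rw [← add_assoc, d3, c3]; ring
    · intro j z hz
      have h1 : w (z + μ) ≠ 0 := by rw [c3]; exact mul_ne_zero (c2 _) hz
      rw [← add_assoc, d4 j _ h1, c4 j _ hz]
  neg_mem' := by
    rintro μ ⟨e, c1, c2, c3, c4⟩
    have hw : ∀ z, w z = e (z + -μ) * w (z + -μ) := by
      intro z
      have := c3 (z + -μ)
      rw [neg_add_cancel_right] at this
      exact this
    refine ⟨fun z => (e (z + -μ))⁻¹,
      (c1.comp (continuous_id.add continuous_const)).inv₀ fun z => c2 _,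
      fun z => inv_ne_zero (c2 _), ?_, ?_⟩
    · intro z
      have h1 := hw z
      rw [h1, inv_mul_cancel_left₀ (c2 _)]
    · intro j z hz
      have h1 : w (z + -μ) ≠ 0 := by
        intro h
        apply hz
        rw [hw z, h, mul_zero]
      have := c4 j _ h1
      rw [neg_add_cancel_right] at this
      exact this.symm

/-- Behaviour of the combinations under periods. -/
theorem law {n D : ℕ} (k : ℕ) {w : (Z → ℂ) → ℂ} {G A : Fin n → (Z → ℂ) → ℂ}
    (hw : Differentiable ℂ w) (hne : ∃ z, w z ≠ 0) (hG : ∀ j, Differentiable ℂ (G j))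
    (hA : ∀ j z, w z ≠ 0 → A j z * w z ^ k = G j z) {μ : Z → ℂ} {e : (Z → ℂ) → ℂ}
    (he : Continuous e) (he0 : ∀ z, e z ≠ 0) (h1 : ∀ z, w (z + μ) = e z * w z)
    (h2 : ∀ j z, w z ≠ 0 → A j (z + μ) = A j z) (a : Fin n → Fin D) (z : Z → ℂ) :
    Fa k w G a (z + μ) = e z ^ (k * (n * D)) * Fa k w G a z := by
  have c := (Fa_diff (D := D) k hw hG a).continuous
  have key := Continuous.ext_on (dense_ne hw hne)
    (c.comp (continuous_id.add (continuous_const : Continuous fun _ : Z → ℂ => μ)))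
    ((he.pow (k * (n * D))).mul c) (fun y hy => by
      have hy' : w y ≠ 0 := hy
      have hy2 : w (y + μ) ≠ 0 := by rw [h1]; exact mul_ne_zero (he0 _) hy'
      show Fa k w G a (y + μ) = e y ^ (k * (n * D)) * Fa k w G a y
      rw [Fa_eq k a (A := A) fun j => hA j _ hy2, Fa_eq k a (A := A) fun j => hA j _ hy', h1,
        mul_pow, Finset.prod_congr rfl fun j _ => by rw [h2 j y hy']]
      ring)
  exact congrFun key z

/-- Finitely many lattice vectors suffice on a ball. -/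
theorem cover {Λ : Type} [Fintype Λ] (lat : Λ → (Z → ℂ)) (hi : LinearIndependent ℝ lat)
    (hc : Fintype.card Λ = 2 * Fintype.card Z) :
    ∃ R : ℝ, 1 ≤ R ∧ ∃ t : Finset (Z → ℂ), (∀ μ ∈ t, ∃ x : Λ → ℤ, μ = ∑ a, (x a : ℂ) • lat a) ∧
      ∀ z : Z → ℂ, ‖z‖ ≤ 3 * R → ∃ μ ∈ t, ‖z - μ‖ ≤ R := by
  classical
  obtain ⟨R₀, h₀⟩ := Pool.Agent.Lib.MPf11a48.U.Clos.near lat hi hc
  choose x hx using h₀
  have htb := (isCompact_closedBall (0 : Z → ℂ) (3 * (|R₀| + 1))).totallyBounded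
  rw [Metric.totallyBounded_iff] at htb
  obtain ⟨t, ht, hcov⟩ := htb 1 one_pos
  refine ⟨|R₀| + 1, by linarith [abs_nonneg R₀],
    ht.toFinset.image (fun y => ∑ a, (x y a : ℂ) • lat a), ?_, ?_⟩
  · intro μ hμ
    rw [Finset.mem_image] at hμ
    obtain ⟨y, -, hy⟩ := hμ
    exact ⟨x y, hy.symm⟩
  · intro z hz
    have h1 : z ∈ Metric.closedBall (0 : Z → ℂ) (3 * (|R₀| + 1)) := by simpa using hz
    have h2 := hcov h1
    rw [Set.mem_iUnion₂] at h2
    obtain ⟨y, hy, hzy⟩ := h2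
    refine ⟨∑ a, (x y a : ℂ) • lat a, Finset.mem_image.2 ⟨y, ht.mem_toFinset.2 hy, rfl⟩, ?_⟩
    have h3 : ‖z - y‖ < 1 := by
      rw [← dist_eq_norm]; exact hzy
    have h4 := hx y
    calc ‖z - ∑ a, (x y a : ℂ) • lat a‖ = ‖(z - y) + (y - ∑ a, (x y a : ℂ) • lat a)‖ := by
          congr 1; abel
      _ ≤ ‖z - y‖ + ‖y - ∑ a, (x y a : ℂ) • lat a‖ := norm_add_le _ _
      _ ≤ |R₀| + 1 := by linarith [le_abs_self R₀]

/-- The exponent. -/
noncomputable def ex {n D : ℕ} (a : Fin n → Fin D) : Fin n →₀ ℕ :=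
  Finsupp.equivFunOnFinite.symm fun j => (a j : ℕ)

theorem ex_inj {n D : ℕ} {a b : Fin n → Fin D} (h : ex a = ex b) : a = b := by
  funext j
  have := congrArg (fun f : Fin n →₀ ℕ => f j) h
  exact Fin.ext (by simpa [ex] using this)

/-- The polynomial. -/
noncomputable def PP {n D : ℕ} (c : (Fin n → Fin D) → ℂ) : MvPolynomial (Fin n) ℂ :=
  ∑ a, monomial (ex a) (c a)

theorem PP_ne {n D : ℕ} {c : (Fin n → Fin D) → ℂ} (hc : c ≠ 0) : PP c ≠ 0 := by
  intro h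
  apply hc
  funext a
  have h1 := congrArg (coeff (ex a)) h
  unfold PP at h1
  rw [coeff_sum, coeff_zero, Finset.sum_eq_single a] at h1
  · rw [coeff_monomial, if_pos rfl] at h1
    exact h1
  · intro b _ hb
    rw [coeff_monomial, if_neg fun h2 => hb (ex_inj h2)]
  · intro h2
    exact absurd (Finset.mem_univ _) h2

theorem eval_PP {n D : ℕ} (c : (Fin n → Fin D) → ℂ) (x : Fin n → ℂ) :
    eval x (PP c) = ∑ a, c a * ∏ j, x j ^ (a j : ℕ) := by
  unfold PP
  rw [map_sum]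
  refine Finset.sum_congr rfl fun a _ => ?_
  rw [eval_monomial, Finsupp.prod_fintype _ _ (fun i => pow_zero _)]
  rfl

/-- Linear functionals of combinations. -/
theorem phi_sum {ι : Type} (s : Finset ι) (c : ι → ℂ) (F : ι → (Z → ℂ) → ℂ)
    (hF : ∀ a, Differentiable ℂ (F a)) (φ : ((Z → ℂ) → ℂ) → ℂ)
    (h1 : ∀ F G, Differentiable ℂ F → Differentiable ℂ G → φ (fun z => F z + G z) = φ F + φ G)
    (h2 : ∀ (c : ℂ) F, Differentiable ℂ F → φ (fun z => c * F z) = c * φ F) :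
    φ (fun z => ∑ a ∈ s, c a * F a z) = ∑ a ∈ s, c a * φ (F a) := by
  classical
  induction s using Finset.induction_on with
  | empty =>
    have := h2 0 (fun _ => 0) (differentiable_const 0)
    simpa using this
  | insert a s ha ih =>
    simp only [Finset.sum_insert ha]
    have hd : Differentiable ℂ fun z => ∑ a ∈ s, c a * F a z :=
      Differentiable.fun_sum fun a _ => (hF a).const_mul (c a)
    rw [h1 (fun z => c a * F a z) _ ((hF a).const_mul _) hd, h2 _ _ (hF a), ih]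

theorem main (hSCH : SpecSCH) (hJET : SpecJET) {Λ : Type} [Fintype Λ] {n : ℕ}
    (hn : n = Fintype.card Z + 1) (lat : Λ → (Z → ℂ)) (hi : LinearIndependent ℝ lat)
    (hc : Fintype.card Λ = 2 * Fintype.card Z)
    (w : (Z → ℂ) → ℂ) (hw : Differentiable ℂ w) (hne : ∃ z, w z ≠ 0)
    (hper : ∀ l, ∃ e : (Z → ℂ) → ℂ, Continuous e ∧ (∀ z, e z ≠ 0) ∧ ∀ z,
      w (z + lat l) = e z * w z)
    (A : Fin n → (Z → ℂ) → ℂ) (k : ℕ) (G : Fin n → (Z → ℂ) → ℂ)
    (hG : ∀ j, Differentiable ℂ (G j)) (hA : ∀ j z, w z ≠ 0 → A j z * w z ^ k = G j z)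
    (hAper : ∀ j l z, w z ≠ 0 → A j (z + lat l) = A j z) :
    ∃ P : MvPolynomial (Fin n) ℂ, P ≠ 0 ∧ ∀ z, w z ≠ 0 → eval (fun j => A j z) P = 0 := by
  classical
  -- all lattice vectors are periods
  have hl : ∀ x : Λ → ℤ, ∑ a, (x a : ℂ) • lat a ∈ Per w A := by
    intro x
    refine sum_mem fun a _ => ?_
    rw [Pool.Agent.Lib.MPf11a48.U.Clos.int_smul_eq]
    refine zsmul_mem ?_ _
    obtain ⟨e, h1, h2, h3⟩ := hper a
    exact ⟨e, h1, h2, h3, fun j z hz => hAper j a z hz⟩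
  obtain ⟨R, hR, t, ht, hcov⟩ := cover lat hi hc
  have hR0 : 0 ≤ R := by linarith
  have hex : ∀ μ : Z → ℂ, μ ∈ t → ∃ (e : (Z → ℂ) → ℂ) (C : ℝ), Continuous e ∧ (∀ z, e z ≠ 0) ∧
      (∀ z, w (z + μ) = e z * w z) ∧ (∀ j z, w z ≠ 0 → A j (z + μ) = A j z) ∧ 0 ≤ C ∧
      ∀ z, ‖z‖ ≤ R → ‖e z‖ ≤ C := by
    intro μ hμ
    obtain ⟨x, hx⟩ := ht μ hμ
    have h1 := hl x
    rw [← hx] at h1
    obtain ⟨e, e1, e2, e3, e4⟩ := h1
    obtain ⟨C, hC⟩ := (isCompact_closedBall (0 : Z → ℂ) R).exists_bound_of_continuousOn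
      e1.continuousOn
    refine ⟨e, |C|, e1, e2, e3, e4, abs_nonneg _, fun z hz => ?_⟩
    exact (hC z (by simpa using hz)).trans (le_abs_self _)
  choose! e C he using hex
  set E : ℝ := 1 + ∑ μ ∈ t, C μ with hE
  have hCE : ∀ μ ∈ t, C μ ≤ E := by
    intro μ hμ
    have := Finset.single_le_sum (f := C) (fun ν hν => (he ν hν).2.2.2.2.1) hμ
    linarith
  have hE1 : 1 ≤ E := by
    have := Finset.sum_nonneg (s := t) (f := C) (fun ν hν => (he ν hν).2.2.2.2.1)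
    linarith
  -- the parameters
  obtain ⟨q, hq⟩ := pow_unbounded_of_one_lt (E ^ (k * n)) (by norm_num : (1 : ℝ) < 3)
  set D : ℕ := q ^ Fintype.card Z + 1 with hD
  set T : ℕ := q * D with hT
  have hDpos : 0 < D := by omega
  have hTE : E ^ (k * (n * D)) < 3 ^ T := by
    rw [hT, ← mul_assoc, pow_mul, pow_mul 3 q D]
    exact pow_lt_pow_left₀ hq (by positivity) (by omega)
  have hcard : T ^ Fintype.card Z < D ^ n := by
    rw [hT, mul_pow, hn, pow_succ, mul_comm]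
    exact Nat.mul_lt_mul_of_pos_left (by omega) (by positivity)
  obtain ⟨φ, p1, p2, p3⟩ := hJET (0 : Z → ℂ) T
  -- a nonzero solution
  let M : Matrix (Z → Fin T) (Fin n → Fin D) ℂ := fun b a => φ b (Fa k w G a)
  have hker : LinearMap.ker M.mulVecLin ≠ ⊥ := by
    apply LinearMap.ker_ne_bot_of_finrank_lt
    rw [Module.finrank_fintype_fun_eq_card, Module.finrank_fintype_fun_eq_card]
    simpa using hcard
  obtain ⟨c, hcM, hc0⟩ := (Submodule.ne_bot_iff _).1 hker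
  have hcM' : ∀ b, ∑ a, c a * φ b (Fa k w G a) = 0 := by
    intro b
    have h1 : M.mulVec c = 0 := hcM
    have h2 := congrFun h1 b
    rw [Matrix.mulVec, dotProduct] at h2
    rw [← show (0 : (Z → Fin T) → ℂ) b = 0 from rfl, ← h2]
    exact Finset.sum_congr rfl fun a _ => mul_comm _ _
  have hFd : ∀ a : Fin n → Fin D, Differentiable ℂ (Fa k w G a) := fun a => Fa_diff k hw hG a
  set H : (Z → ℂ) → ℂ := fun z => ∑ a, c a * Fa k w G a z with hH
  have hHd : Differentiable ℂ H := Differentiable.fun_sum fun a _ => (hFd a).const_mul (c a)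
  have hHO : H =O[𝓝 (0 : Z → ℂ)] fun z => ‖z - 0‖ ^ T := by
    refine p3 H hHd fun b => ?_
    rw [hH, phi_sum Finset.univ c _ hFd (φ b) (p1 b) (p2 b)]
    exact hcM' b
  -- the maximum
  obtain ⟨y, hy, hmax⟩ := (isCompact_closedBall (0 : Z → ℂ) R).exists_isMaxOn
    ⟨0, by simpa using hR0⟩ hHd.continuous.norm.continuousOn
  have hyR : ‖y‖ ≤ R := by simpa using hy
  have hmax' : ∀ z, ‖z‖ ≤ R → ‖H z‖ ≤ ‖H y‖ := fun z hz => hmax (by simpa using hz)
  have hgrow : ∀ z, ‖z‖ ≤ 3 * R → ‖H z‖ ≤ E ^ (k * (n * D)) * ‖H y‖ := by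
    intro z hz
    obtain ⟨μ, hμ, hzμ⟩ := hcov z hz
    obtain ⟨e1, e2, e3, e4, e5, e6⟩ := he μ hμ
    have h1 : H z = e μ (z - μ) ^ (k * (n * D)) * H (z - μ) := by
      rw [hH]
      simp only
      rw [Finset.mul_sum]
      refine Finset.sum_congr rfl fun a _ => ?_
      have := law k hw hne hG hA e1 e2 e3 e4 a (z - μ)
      rw [sub_add_cancel] at this
      rw [this]; ring
    rw [h1, norm_mul, norm_pow]
    refine mul_le_mul (pow_le_pow_left₀ (norm_nonneg _) ((e6 _ hzμ).trans (hCE μ hμ)) _)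
      (hmax' _ hzμ) (norm_nonneg _) (by positivity)
  have hsch := hSCH H hHd 0 y T (E ^ (k * (n * D)) * ‖H y‖) hHO (fun s hs => by
    apply hgrow
    rw [zero_add, sub_zero, norm_smul]
    exact mul_le_mul hs hyR (norm_nonneg _) (by norm_num))
  have hy0 : ‖H y‖ = 0 := by
    by_contra hcon
    have hpos : 0 < ‖H y‖ := lt_of_le_of_ne (norm_nonneg _) (Ne.symm hcon)
    have h3 : (1 / 3 : ℝ) ^ T * (E ^ (k * (n * D)) * ‖H y‖) < ‖H y‖ := by
      rw [← mul_assoc]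
      have h4 : (1 / 3 : ℝ) ^ T * E ^ (k * (n * D)) < 1 := by
        rw [one_div, inv_pow, inv_mul_lt_iff₀ (by positivity), mul_one]
        exact hTE
      exact mul_lt_of_lt_one_left hpos h4
    linarith
  have hzero : ∀ z, H z = 0 := by
    refine ent_zero hHd (z₀ := 0) ?_
    have : Metric.closedBall (0 : Z → ℂ) R ∈ 𝓝 (0 : Z → ℂ) :=
      Metric.closedBall_mem_nhds _ (by linarith)
    filter_upwards [this] with z hz
    have h5 := hmax' z (by simpa using hz)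
    rw [hy0] at h5
    exact norm_le_zero_iff.1 h5
  refine ⟨PP c, PP_ne hc0, fun z hz => ?_⟩
  have h6 := hzero z
  rw [hH] at h6
  simp only at h6
  have h7 : ∑ a, c a * Fa k w G a z = w z ^ (k * (n * D)) * eval (fun j => A j z) (PP c) := by
    rw [eval_PP, Finset.mul_sum]
    refine Finset.sum_congr rfl fun a _ => ?_
    rw [Fa_eq k a fun j => hA j z hz]
    ring
  rw [h7] at h6
  exact (mul_eq_zero.1 h6).resolve_left (pow_ne_zero _ hz)

end CNTM

theorem specCNT (hSCH : SpecSCH) (hJET : SpecJET) : SpecCNT := by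
  intro Z Λ _ _ lat hi hc w hw hne hper A k G hG hA hAper
  exact CNTM.main hSCH hJET rfl lat hi hc w hw hne hper A k G hG hA hAper

end Pool.Agent.Lib.MPf11a48.AS
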