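import Pool.Agent.Lib.MP_f11a48_ag.AS.SpecF
import Pool.Agent.Lib.MP_f11a48_ag.AS.InvAux

/-!
# Project AS, module COV: local structure of the map `y`
-/

set_option autoImplicit false

open MvPolynomial Filter Topology

namespace Pool.Agent.Lib.MPf11a48.AS

namespace COVM

variable {Z I Λ : Type} (D : TH Z I Λ)

theorem yv_congr (N : TH.Nor I Z) {z w : Z → ℂ} (h : D.fv z = D.fv w) : D.yv N z = D.yv N w := by
  unfold TH.yv
  rw [h]

theorem vec_neg [Fintype Λ] (x : Λ → ℤ) : D.vec (-x) = -D.vec x := by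
  unfold TH.vec
  rw [← Finset.sum_neg_distrib]
  refine Finset.sum_congr rfl fun l _ => ?_
  rw [Pi.neg_apply, Int.cast_neg, neg_smul]

theorem an_fv [Fintype Z] [Fintype I] (hb : ∀ i z, D.th D.o z ≠ 0 → AnalyticAt ℂ (D.f i) z)
    {z : Z → ℂ} (hz : D.th D.o z ≠ 0) : AnalyticAt ℂ D.fv z :=
  AnalyticAt.pi fun i => hb i z hz

theorem an_yv [Fintype Z] [Fintype I] (hb : ∀ i z, D.th D.o z ≠ 0 → AnalyticAt ℂ (D.f i) z)
    (N : TH.Nor I Z) {z : Z → ℂ} (hz : D.th D.o z ≠ 0) : AnalyticAt ℂ (D.yv N) z := by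
  refine AnalyticAt.pi fun k => ?_
  have h1 : AnalyticAt ℂ (fun z => aeval (D.fv z) (N.y k)) z :=
    AnalyticAt.aeval_mvPolynomial (fun i => hb i z hz) (N.y k)
  simpa [TH.yv, MvPolynomial.aeval_eq_eval] using h1

end COVM

open COVM in
theorem specCOV (hBAS : SpecBAS) (hGRW : SpecGRW) : SpecCOV := by
  classical
  intro Z I Λ _ _ _ D hD N hN y₀ hy₀
  obtain ⟨b1, b2, -, -, -, b6, -, R, -, hR⟩ := hBAS D hD
  -- the finite set of the values
  set F : Set (I → ℂ) := {x | ∃ w, D.th D.o w ≠ 0 ∧ D.yv N w = y₀ ∧ D.fv w = x} with hFdef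
  have hF : F.Finite := by
    refine (Set.Finite.pi' fun i =>
      ((N.Q i).map (eval y₀)).roots.toFinset.finite_toSet).subset ?_
    rintro x ⟨w, h1, h2, rfl⟩ i
    have h3 := hN.root i w h1
    rw [h2] at h3
    have hne : (N.Q i).map (eval y₀) ≠ 0 := ((hN.monic i).map _).ne_zero
    rw [Finset.mem_coe, Multiset.mem_toFinset, Polynomial.mem_roots hne]
    exact h3
  obtain ⟨d, e, he1, he2⟩ : ∃ (d : ℕ) (e : Fin d → (I → ℂ)),
      Function.Injective e ∧ Set.range e = F := by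
    refine ⟨hF.toFinset.card, fun j => (hF.toFinset.equivFin.symm j : I → ℂ), ?_, ?_⟩
    · exact Subtype.val_injective.comp (Equiv.injective _)
    · ext x
      constructor
      · rintro ⟨j, rfl⟩
        exact hF.mem_toFinset.1 (hF.toFinset.equivFin.symm j).2
      · intro hx
        refine ⟨hF.toFinset.equivFin ⟨x, hF.mem_toFinset.2 hx⟩, ?_⟩
        simp
  have hmem : ∀ j, e j ∈ F := fun j => he2 ▸ Set.mem_range_self j
  choose w hw1 hw2 hw3 using hmem
  have hinv : ∀ j, ∃ g : (Z → ℂ) → (Z → ℂ), AnalyticAt ℂ g y₀ ∧ g y₀ = w j ∧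
      (∀ᶠ x in 𝓝 (w j), g (D.yv N x) = x) ∧ ∀ᶠ y in 𝓝 y₀, D.yv N (g y) = y := by
    intro j
    have h1 := InvAux.inv_fun (an_yv D b2 N (hw1 j))
      (hN.unram (w j) (hw1 j) (by rw [hw2 j]; exact hy₀))
    rw [hw2 j] at h1
    exact h1
  choose ζ hζ1 hζ2 hζ3 hζ4 using hinv
  refine ⟨d, ζ, hζ1, ?_⟩
  have hcth : ∀ z, ContinuousAt (D.th D.o) z := fun z => (hD.diff D.o).continuous.continuousAt
  -- (a)
  have ha : ∀ᶠ y in 𝓝 y₀, ∀ j, D.th D.o (ζ j y) ≠ 0 := by
    rw [eventually_all]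
    intro j
    have h1 : ContinuousAt (fun y => D.th D.o (ζ j y)) y₀ :=
      ContinuousAt.comp (hcth _) (hζ1 j).continuousAt
    refine h1.eventually_ne ?_
    rw [hζ2 j]
    exact hw1 j
  -- (b)
  have hb : ∀ᶠ y in 𝓝 y₀, ∀ j, D.yv N (ζ j y) = y := eventually_all.2 hζ4
  -- (c)
  have hfc : ∀ j, ContinuousAt (fun y => D.fv (ζ j y)) y₀ := by
    intro j
    have h1 : ContinuousAt D.fv (ζ j y₀) := by
      rw [hζ2 j]
      exact (an_fv D b2 (hw1 j)).continuousAt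
    exact ContinuousAt.comp h1 (hζ1 j).continuousAt
  have hc : ∀ᶠ y in 𝓝 y₀, ∀ j k, D.fv (ζ j y) = D.fv (ζ k y) → j = k := by
    rw [eventually_all]
    intro j
    rw [eventually_all]
    intro k
    by_cases hjk : j = k
    · exact Eventually.of_forall fun _ _ => hjk
    · have hne : D.fv (ζ j y₀) ≠ D.fv (ζ k y₀) := by
        rw [hζ2, hζ2, hw3, hw3]
        exact fun h => hjk (he1 h)
      have h1 : ∀ᶠ y in 𝓝 y₀, D.fv (ζ j y) - D.fv (ζ k y) ≠ 0 :=
        ((hfc j).sub (hfc k)).eventually_ne (sub_ne_zero.2 hne)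
      filter_upwards [h1] with y hy hy2 using absurd (sub_eq_zero.2 hy2) hy
  -- (d)
  have hd : ∀ᶠ y in 𝓝 y₀, ∀ w, D.th D.o w ≠ 0 → D.yv N w = y → ∃ j, D.fv w = D.fv (ζ j y) := by
    by_contra hcon
    rw [not_eventually] at hcon
    obtain ⟨ys, hys, hbad⟩ := exists_seq_forall_of_frequently hcon
    have hbad' : ∀ n, ∃ w, ‖w‖ ≤ R ∧ D.th D.o w ≠ 0 ∧ D.yv N w = ys n ∧
        ∀ j, D.fv w ≠ D.fv (ζ j (ys n)) := by
      intro n
      have h1 := hbad n
      push Not at h1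
      obtain ⟨v, hv1, hv2, hv3⟩ := h1
      obtain ⟨x, hx⟩ := hR v
      obtain ⟨p1, p2⟩ := b1 x v
      refine ⟨v + D.vec x, hx, p1.2 hv1, ?_, fun j => ?_⟩
      · rw [yv_congr D N p2, hv2]
      · rw [p2]
        exact hv3 j
    choose ws k1 k2 k3 k4 using hbad'
    obtain ⟨a, -, φ, hφ, hlim⟩ := (isCompact_closedBall (0 : Z → ℂ) R).tendsto_subseq
      (x := ws) (fun n => by simpa using k1 n)
    have hysφ : Tendsto (fun n => ys (φ n)) atTop (𝓝 y₀) := hys.comp hφ.tendsto_atTop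
    -- the limit is in `V'`
    obtain ⟨C, κ, hC, hgr⟩ := (hGRW D hD N hN).1 R
    have ha0 : D.th D.o a ≠ 0 := by
      have e1 : Tendsto (fun n => C * (1 + ‖ys (φ n)‖) ^ κ * ‖D.th D.o (ws (φ n))‖) atTop
          (𝓝 (C * (1 + ‖y₀‖) ^ κ * ‖D.th D.o a‖)) := by
        refine Tendsto.mul ?_ ?_
        · have hcc : Continuous fun y : Z → ℂ => C * (1 + ‖y‖) ^ κ := by fun_prop
          exact (hcc.tendsto y₀).comp hysφ
        · exact ((hcth a).norm.tendsto).comp hlim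
      have e2 : 1 ≤ C * (1 + ‖y₀‖) ^ κ * ‖D.th D.o a‖ := by
        refine ge_of_tendsto' e1 fun n => ?_
        have := hgr (ws (φ n)) (k1 _) (k2 _)
        rw [k3] at this
        exact this
      intro h0
      rw [h0, norm_zero, mul_zero] at e2
      linarith
    have hya : D.yv N a = y₀ := by
      have e1 : Tendsto (fun n => D.yv N (ws (φ n))) atTop (𝓝 (D.yv N a)) :=
        ((an_yv D b2 N ha0).continuousAt.tendsto).comp hlim
      have e2 : (fun n => D.yv N (ws (φ n))) = fun n => ys (φ n) := funext fun n => k3 (φ n)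
      rw [e2] at e1
      exact tendsto_nhds_unique e1 hysφ
    obtain ⟨j, hj⟩ : ∃ j, e j = D.fv a := by
      have : D.fv a ∈ F := ⟨a, ha0, hya, rfl⟩
      rw [← he2] at this
      exact this
    obtain ⟨x, hx⟩ := b6 a (w j) ha0 (hw1 j) (by rw [hw3 j, hj])
    have hu : Tendsto (fun n => ws (φ n) - D.vec x) atTop (𝓝 (w j)) := by
      have e1 : w j = a - D.vec x := by rw [← hx]; abel
      rw [e1]
      exact hlim.sub_const _
    obtain ⟨n, hn⟩ := (hu.eventually (hζ3 j)).exists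
    have hfv : D.fv (ws (φ n)) = D.fv (ws (φ n) - D.vec x) := by
      have := (b1 x (ws (φ n) - D.vec x)).2
      rw [sub_add_cancel] at this
      exact this
    have hyv : D.yv N (ws (φ n) - D.vec x) = ys (φ n) := by
      rw [← yv_congr D N hfv, k3]
    rw [hyv] at hn
    exact k4 (φ n) j (by rw [hn, hfv])
  filter_upwards [ha, hb, hc, hd] with y h1 h2 h3 h4
  exact ⟨fun j => ⟨h1 j, h2 j⟩, h3, h4⟩

end Pool.Agent.Lib.MPf11a48.AS
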