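import Pool.Agent.Lib.MP_f11a48_ag.AS.SpecE

/-!
# Project AS, block E, module CQD: the quasi-periodic data of a subspace
-/

set_option autoImplicit false

open Matrix MvPolynomial Pool.Agent.Lib.MPf11a48.CM Pool.Agent.Lib.MPf11a48.GL2T
open Filter Topology
open Pool.Agent.Lib.MPf11a48.U (AbData Ix EndAlg ComAlg mR mC HDAM.JM)

namespace Pool.Agent.Lib.MPf11a48.AS

namespace CQDM

theorem th_add_ne {Z I Λ : Type} [Fintype Z] [Fintype I] [Fintype Λ] {D : TH Z I Λ} (hD : D.Good)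
    (i : I) (l : Λ) {z : Z → ℂ} (hz : D.th i z ≠ 0) : D.th i (z + D.lat l) ≠ 0 := by
  classical
  have hv : D.vec (Pi.single l 1) = D.lat l := by
    unfold TH.vec
    rw [Finset.sum_eq_single l]
    · simp
    · intro b _ hb
      simp [hb]
    · intro hl
      exact absurd (Finset.mem_univ l) hl
  rw [← hv, hD.aut]
  exact mul_ne_zero (Complex.exp_ne_zero _) hz

end CQDM

theorem specCQD (hCTH : SpecCTH) (hCDV : SpecCDV) (hCZE : SpecCZE) : SpecCQD := by
  intro K g N β κ Λ _ _ _ A E hK hA hE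
  have hG := hCTH K A E hA hE
  obtain ⟨hp, hq⟩ := hCDV K A E hK hA hE
  obtain ⟨⟨Y, hY, hYz⟩, hper, hf0, hz0⟩ := hCZE K A E hK hA hE
  choose p hp1 hp2 using hp
  choose q hq1 hq2 using hq
  let D : QD β ((κ → Fin (N + 1)) × (κ → Fin (N + 1))) Λ :=
    { E.toTH A with m := A.m, Y := Y, ell := E.ell A, p := p, q := q }
  have hDze : ∀ s, (E.toTH A).th (E.toTH A).o s ≠ 0 → D.ze s = E.zeF A s := hYz
  refine ⟨D, ⟨hG, hY, ?_, hp2, ?_⟩, ⟨hf0, ?_, hp1, hq1⟩, rfl, rfl⟩
  · intro l z hz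
    have h1 : (E.toTH A).th (E.toTH A).o (z + (E.toTH A).lat l) ≠ 0 :=
      CQDM.th_add_ne hG (E.toTH A).o l hz
    rw [hDze z hz]
    have h2 := hDze (z + (E.toTH A).lat l) h1
    exact h2.trans (hper l z hz)
  · intro j z hz
    rw [← hq2 j z hz]
    have hev : D.ze =ᶠ[𝓝 z] E.zeF A := by
      have hc : ContinuousAt ((E.toTH A).th (E.toTH A).o) z :=
        (hG.diff (E.toTH A).o).continuous.continuousAt
      filter_upwards [hc.eventually_ne hz] with w hw
      exact hDze w hw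
    rw [hev.fderiv_eq]
  · rw [hDze 0 hG.zero]
    exact hz0

end Pool.Agent.Lib.MPf11a48.AS
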