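import Pool.Agent.Lib.MP_f11a48_ag.AS.SpecF

/-!
# Project AS, module CST: the number of points of the fibres is constant
-/

set_option autoImplicit false

open MvPolynomial Pool.Agent.Lib.MPf11a48.CM Filter Topology Asymptotics

namespace Pool.Agent.Lib.MPf11a48.AS

namespace CSTM

variable {Z I Λ : Type}

/-- the fibre, as a set of vectors `f(w)` -/
def fib (D : TH Z I Λ) (N : TH.Nor I Z) (y : Z → ℂ) : Set (I → ℂ) :=
  {x | ∃ w, D.th D.o w ≠ 0 ∧ D.yv N w = y ∧ D.fv w = x}

theorem enum_range {D : TH Z I Λ} {N : TH.Nor I Z} {y : Z → ℂ} {d : ℕ} {z : Fin d → (Z → ℂ)}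
    (h : D.Enum N y z) : Set.range (fun j => D.fv (z j)) = fib D N y := by
  ext x
  constructor
  · rintro ⟨j, rfl⟩
    exact ⟨z j, (h.1 j).1, (h.1 j).2, rfl⟩
  · rintro ⟨w, hw, hy, rfl⟩
    obtain ⟨j, hj⟩ := h.2.2 w hw hy
    exact ⟨j, hj.symm⟩

theorem enum_inj {D : TH Z I Λ} {N : TH.Nor I Z} {y : Z → ℂ} {d : ℕ} {z : Fin d → (Z → ℂ)}
    (h : D.Enum N y z) : Function.Injective (fun j => D.fv (z j)) := fun j k hjk => h.2.1 j k hjk

theorem enum_card {D : TH Z I Λ} {N : TH.Nor I Z} {y : Z → ℂ} {d : ℕ} {z : Fin d → (Z → ℂ)}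
    (h : D.Enum N y z) : (fib D N y).ncard = d := by
  rw [← enum_range h, ← Set.image_univ, Set.ncard_image_of_injective _ (enum_inj h),
    Set.ncard_univ, Nat.card_fin]

/-- Two enumerations of the same fibre have the same length. -/
theorem enum_len {D : TH Z I Λ} {N : TH.Nor I Z} {y : Z → ℂ} {d d' : ℕ} {z : Fin d → (Z → ℂ)}
    {z' : Fin d' → (Z → ℂ)} (h : D.Enum N y z) (h' : D.Enum N y z') : d = d' := by
  rw [← enum_card h, ← enum_card h']

/-- Two enumerations of the same fibre differ by a permutation. -/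
theorem enum_perm {D : TH Z I Λ} {N : TH.Nor I Z} {y : Z → ℂ} {d : ℕ} {z z' : Fin d → (Z → ℂ)}
    (h : D.Enum N y z) (h' : D.Enum N y z') :
    ∃ σ : Equiv.Perm (Fin d), ∀ j, D.fv (z j) = D.fv (z' (σ j)) := by
  choose σ hσ using fun j => h'.2.2 (z j) (h.1 j).1 (h.1 j).2
  have hinj : Function.Injective σ := by
    intro j k hjk
    apply h.2.1 j k
    rw [hσ j, hσ k, hjk]
  exact ⟨Equiv.ofBijective σ (Finite.injective_iff_bijective.1 hinj), fun j => hσ j⟩

end CSTM

theorem specCST (hCOV : SpecCOV) : SpecCST := by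
  intro Z I Λ _ _ _ D hD N hN
  have hloc : ∀ y₀ : Z → ℂ, eval y₀ N.Δ ≠ 0 →
      ∀ᶠ y in 𝓝 y₀, (CSTM.fib D N y).ncard = (CSTM.fib D N y₀).ncard := by
    intro y₀ hy₀
    obtain ⟨d, ζ, -, h⟩ := hCOV D hD N hN y₀ hy₀
    have h0 := CSTM.enum_card h.self_of_nhds
    filter_upwards [h] with y hy
    rw [CSTM.enum_card hy, h0]
  have hconst : ∀ y y' : Z → ℂ, eval y N.Δ ≠ 0 → eval y' N.Δ ≠ 0 →
      (CSTM.fib D N y).ncard = (CSTM.fib D N y').ncard := by
    intro y y' hy hy'
    -- the polynomial on the line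
    let g : MvPolynomial Z ℂ →ₐ[ℂ] Polynomial ℂ :=
      aeval fun k => Polynomial.C (y k) + Polynomial.C (y' k - y k) * Polynomial.X
    have hg : ∀ t : ℂ, (g N.Δ).eval t = eval (y + t • (y' - y)) N.Δ := by
      intro t
      have h1 : (Polynomial.evalRingHom t).comp (g : MvPolynomial Z ℂ →+* Polynomial ℂ) =
          (eval (y + t • (y' - y)) : MvPolynomial Z ℂ →+* ℂ) := by
        apply MvPolynomial.ringHom_ext
        · intro r
          simp [g]
        · intro k
          simp [g]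
          ring
      exact congrArg (fun φ : MvPolynomial Z ℂ →+* ℂ => φ N.Δ) h1
    have hne : g N.Δ ≠ 0 := by
      intro h0
      apply hy
      have := hg 0
      rw [h0] at this
      simpa using this.symm
    set S : Set ℂ := {t | (g N.Δ).eval t = 0} with hS
    have hfin : S.Finite := by
      refine (g N.Δ).roots.toFinset.finite_toSet.subset fun t ht => ?_
      simp only [Finset.mem_coe, Multiset.mem_toFinset, Polynomial.mem_roots hne]
      exact ht
    have hconn : IsPreconnected Sᶜ :=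
      (hfin.countable.isPathConnected_compl_of_one_lt_rank
        (by rw [Complex.rank_real_complex]; norm_num)).isConnected.isPreconnected
    have hcont : ContinuousOn (fun t : ℂ => (CSTM.fib D N (y + t • (y' - y))).ncard) Sᶜ := by
      intro t ht
      apply ContinuousAt.continuousWithinAt
      have h1 : eval (y + t • (y' - y)) N.Δ ≠ 0 := by
        rw [← hg]
        exact ht
      have h2 : ContinuousAt (fun t : ℂ => y + t • (y' - y)) t := by fun_prop
      have h3 := h2.eventually (hloc _ h1)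
      exact (continuousAt_const).congr (h3.mono fun _ h => h.symm)
    have h0 : (0 : ℂ) ∈ Sᶜ := by
      show ¬ _
      rw [hS, Set.mem_ofPred_eq, hg]
      simpa using hy
    have h1 : (1 : ℂ) ∈ Sᶜ := by
      show ¬ _
      rw [hS, Set.mem_ofPred_eq, hg]
      simpa using hy'
    have h2 := hconn.constant hcont h0 h1
    simpa using h2
  -- a point
  have hpt : ∃ z, D.th D.o z ≠ 0 ∧ eval (D.yv N z) N.Δ ≠ 0 := by
    by_contra hcon
    push Not at hcon
    exact hN.ne (hN.indep N.Δ hcon)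
  obtain ⟨z₀, hz₀, hΔ₀⟩ := hpt
  refine ⟨(CSTM.fib D N (D.yv N z₀)).ncard, ?_, ?_⟩
  · obtain ⟨d, ζ, -, h⟩ := hCOV D hD N hN _ hΔ₀
    have h0 := h.self_of_nhds
    rw [CSTM.enum_card h0]
    obtain ⟨j, -⟩ := h0.2.2 z₀ hz₀ rfl
    exact lt_of_le_of_lt (Nat.zero_le _) j.2
  · intro y hy
    obtain ⟨d, ζ, -, h⟩ := hCOV D hD N hN y hy
    have h0 := h.self_of_nhds
    have h1 := CSTM.enum_card h0
    rw [hconst _ _ hΔ₀ hy, h1]
    exact ⟨_, h0⟩

end Pool.Agent.Lib.MPf11a48.AS
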