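import Pool.Agent.Lib.MP_f11a48_ag.AS.SpecE

/-!
# Project AS, module CTH: theta functions of a power of `A`, restricted to a subspace
-/

set_option autoImplicit false

open Matrix MvPolynomial Pool.Agent.Lib.MPf11a48.CM Pool.Agent.Lib.MPf11a48.U Filter Topology

namespace Pool.Agent.Lib.MPf11a48.AS

namespace CTHM

set_option linter.unusedSectionVars false

section aut

variable {g N : ℕ} (A : AbData g N)

/-- lattice vectors -/
noncomputable def V (y : Ix g → ℤ) : Fin g → ℂ := ∑ m, (y m : ℂ) • A.lat m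

/-- linear parts -/
noncomputable def aa (y : Ix g → ℤ) : (Fin g → ℂ) →ₗ[ℂ] ℂ := ∑ m, (y m : ℂ) • A.a m

theorem V_add (y y' : Ix g → ℤ) : V A (y + y') = V A y + V A y' := by
  unfold V
  rw [← Finset.sum_add_distrib]
  refine Finset.sum_congr rfl fun m _ => ?_
  rw [← add_smul]
  push_cast [Pi.add_apply]
  rfl

theorem V_neg (y : Ix g → ℤ) : V A (-y) = -V A y := by
  unfold V
  rw [← Finset.sum_neg_distrib]
  refine Finset.sum_congr rfl fun m _ => ?_
  rw [← neg_smul]
  push_cast [Pi.neg_apply]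
  rfl

theorem V_zero : V A 0 = 0 := by
  unfold V
  simp

theorem V_single (m : Ix g) : V A (Pi.single m 1) = A.lat m := by
  unfold V
  rw [Finset.sum_eq_single m]
  · simp
  · intro m' _ hm
    rw [Pi.single_eq_of_ne hm]
    simp
  · intro h
    exact absurd (Finset.mem_univ _) h

theorem aa_add (y y' : Ix g → ℤ) : aa A (y + y') = aa A y + aa A y' := by
  unfold aa
  rw [← Finset.sum_add_distrib]
  refine Finset.sum_congr rfl fun m _ => ?_
  rw [← add_smul]
  push_cast [Pi.add_apply]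
  rfl

theorem aa_neg (y : Ix g → ℤ) : aa A (-y) = -aa A y := by
  unfold aa
  rw [← Finset.sum_neg_distrib]
  refine Finset.sum_congr rfl fun m _ => ?_
  rw [← neg_smul]
  push_cast [Pi.neg_apply]
  rfl

theorem aa_zero : aa A 0 = 0 := by
  unfold aa
  simp

theorem aa_single (m : Ix g) : aa A (Pi.single m 1) = A.a m := by
  unfold aa
  rw [Finset.sum_eq_single m]
  · simp
  · intro m' _ hm
    rw [Pi.single_eq_of_ne hm]
    simp
  · intro h
    exact absurd (Finset.mem_univ _) h

variable {A} {K : IntermediateField ℚ ℂ}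

/-- automorphy factors of all lattice vectors -/
theorem autA (hA : A.IsAbVar K) (y : Ix g → ℤ) :
    ∃ b : ℂ, ∀ i z, A.th i (z + V A y) = Complex.exp (aa A y z + b) * A.th i z := by
  let S : AddSubgroup (Ix g → ℤ) :=
    { carrier := {y | ∃ b : ℂ, ∀ i z, A.th i (z + V A y) = Complex.exp (aa A y z + b) * A.th i z}
      zero_mem' := ⟨0, fun i z => by rw [V_zero, aa_zero]; simp⟩
      add_mem' := by
        rintro y y' ⟨b, hb⟩ ⟨b', hb'⟩
        refine ⟨aa A y' (V A y) + b + b', fun i z => ?_⟩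
        rw [V_add, aa_add, ← add_assoc, hb', hb, map_add, LinearMap.add_apply, ← mul_assoc,
          ← Complex.exp_add]
        congr 2
        ring
      neg_mem' := by
        rintro y ⟨b, hb⟩
        refine ⟨aa A y (V A y) - b, fun i z => ?_⟩
        have h1 := hb i (z + V A (-y))
        have h2 : z + V A (-y) + V A y = z := by rw [V_neg]; abel
        rw [h2] at h1
        rw [h1, aa_neg, ← mul_assoc, ← Complex.exp_add, LinearMap.neg_apply, V_neg, map_add,
          map_neg]
        have h3 : -(aa A y) z + ((aa A y) (V A y) - b) + ((aa A y) z + -(aa A y) (V A y) + b) = 0 := by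
          ring
        rw [h3, Complex.exp_zero, one_mul] }
  have h1 : ∀ m, (Pi.single m 1 : Ix g → ℤ) ∈ S := by
    intro m
    refine ⟨A.b m, fun i z => ?_⟩
    rw [V_single, aa_single]
    exact hA.th_aut m i z
  have h2 : y = ∑ m, y m • (Pi.single m 1 : Ix g → ℤ) := by
    funext k
    rw [Finset.sum_apply, Finset.sum_eq_single k]
    · simp
    · intro m _ hm
      rw [Pi.smul_apply, Pi.single_eq_of_ne (Ne.symm hm), smul_zero]
    · intro h
      exact absurd (Finset.mem_univ _) h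
  have h3 : y ∈ S := by
    rw [h2]
    exact S.sum_mem fun m _ => S.zsmul_mem (h1 m) _
  exact h3

/-- the same at `-z` -/
theorem autA_neg (y : Ix g → ℤ) {b : ℂ}
    (hb : ∀ i z, A.th i (z + V A y) = Complex.exp (aa A y z + b) * A.th i z) (i : Fin (N + 1))
    (z : Fin g → ℂ) : A.th i (-(z + V A y)) =
      Complex.exp (aa A y z + aa A y (V A y) - b) * A.th i (-z) := by
  have h1 := hb i (-(z + V A y))
  have h2 : -(z + V A y) + V A y = -z := by abel
  rw [h2] at h1
  rw [h1, ← mul_assoc, ← Complex.exp_add, map_neg, map_add]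
  have h3 : (aa A y) z + (aa A y) (V A y) - b + (-((aa A y) z + (aa A y) (V A y)) + b) = 0 := by
    ring
  rw [h3, Complex.exp_zero, one_mul]

end aut

/-- Segre: the first factor. -/
theorem segre {J K : Type} (A C : J → ℂ) (B E : K → ℂ) (hA : ∃ i, A i ≠ 0) (hB : ∃ i, B i ≠ 0)
    (hC : ∃ i, C i ≠ 0) (hE : ∃ i, E i ≠ 0)
    (h : ∀ i j k l, (A i * B k) * (C j * E l) = (A j * B l) * (C i * E k)) (i j : J) :
    A i * C j = A j * C i := by
  obtain ⟨p, hp⟩ := hA
  obtain ⟨q, hq⟩ := hC
  obtain ⟨k, hk⟩ := hB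
  obtain ⟨l, hl⟩ := hE
  have h1 : (A q * B l) * (C p * E k) ≠ 0 := by
    rw [← h]
    exact mul_ne_zero (mul_ne_zero hp hk) (mul_ne_zero hq hl)
  have hEk : E k ≠ 0 := right_ne_zero_of_mul (right_ne_zero_of_mul h1)
  have h2 := h i j k k
  have h3 : (A i * C j - A j * C i) * (B k * E k) = 0 := by linear_combination h2
  rcases mul_eq_zero.1 h3 with h4 | h4
  · exact sub_eq_zero.1 h4
  · exact absurd h4 (mul_ne_zero hk hEk)

variable {g N β : ℕ} {κ Λ : Type} [Fintype κ] [DecidableEq κ] [Fintype Λ]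
  {K : IntermediateField ℚ ℂ} {A : AbData g N} {E : Emb g β κ Λ}

theorem th_eq (i : (κ → Fin (N + 1)) × (κ → Fin (N + 1))) (s : Fin β → ℂ) :
    (E.toTH A).th i s = (∏ k, A.th (i.1 k) (E.io s k)) * ∏ k, A.th (i.2 k) (-(E.io s k)) := rfl

/-- the product of the other factors -/
noncomputable def rest (A : AbData g N) (E : Emb g β κ Λ) (k : κ)
    (ρ : (κ → Fin (N + 1)) × (κ → Fin (N + 1))) (s : Fin β → ℂ) : ℂ :=
  (∏ k' ∈ Finset.univ.erase k, A.th (ρ.1 k') (E.io s k')) * ∏ k', A.th (ρ.2 k') (-(E.io s k'))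

theorem th_split (k : κ) (p : Fin (N + 1)) (ρ : (κ → Fin (N + 1)) × (κ → Fin (N + 1)))
    (s : Fin β → ℂ) : (E.toTH A).th (Function.update ρ.1 k p, ρ.2) s =
      A.th p (E.io s k) * rest A E k ρ s := by
  rw [th_eq, rest, ← Finset.mul_prod_erase Finset.univ _ (Finset.mem_univ k)]
  simp only [Function.update_self]
  rw [mul_assoc]
  congr 2
  refine Finset.prod_congr rfl fun k' hk' => ?_
  rw [Function.update_of_ne (Finset.ne_of_mem_erase hk')]

theorem rest_ne (hA : A.IsAbVar K) (k : κ) (s : Fin β → ℂ) : ∃ ρ, rest A E k ρ s ≠ 0 := by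
  choose i hi using fun k' : κ => hA.th_ne (E.io s k')
  choose j hj using fun k' : κ => hA.th_ne (-(E.io s k'))
  exact ⟨(i, j), mul_ne_zero (Finset.prod_ne_zero_iff.2 fun k' _ => hi k')
    (Finset.prod_ne_zero_iff.2 fun k' _ => hj k')⟩

theorem diff_th (hA : A.IsAbVar K) (p : Fin (N + 1)) (k : κ) :
    Differentiable ℂ fun s : Fin β → ℂ => A.th p (E.io s k) := by
  have h1 : Differentiable ℂ fun s : Fin β → ℂ => E.io s k :=
    (LinearMap.toContinuousLinearMap (E.ik k)).differentiable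
  exact (hA.th_diff p).comp h1

theorem diff_th_neg (hA : A.IsAbVar K) (p : Fin (N + 1)) (k : κ) :
    Differentiable ℂ fun s : Fin β → ℂ => A.th p (-(E.io s k)) := by
  have h1 : Differentiable ℂ fun s : Fin β → ℂ => E.io s k :=
    (LinearMap.toContinuousLinearMap (E.ik k)).differentiable
  exact (hA.th_diff p).comp h1.neg

theorem diff_fin {V J : Type} [NormedAddCommGroup V] [NormedSpace ℂ V] [DecidableEq J]
    (F : Finset J) (f : J → V → ℂ) (hf : ∀ i, Differentiable ℂ (f i)) :
    Differentiable ℂ fun z => ∏ i ∈ F, f i z := by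
  induction F using Finset.induction_on with
  | empty => simp
  | insert a s ha ih =>
    simp only [Finset.prod_insert ha]
    exact (hf a).mul ih

theorem diff_prod (hA : A.IsAbVar K) (F : Finset κ) (i : κ → Fin (N + 1)) :
    Differentiable ℂ fun s : Fin β → ℂ => ∏ k ∈ F, A.th (i k) (E.io s k) :=
  diff_fin F (fun (k : κ) (s : Fin β → ℂ) => A.th (i k) (E.io s k)) fun k' => diff_th hA _ _

theorem diff_prod_neg (hA : A.IsAbVar K) (F : Finset κ) (i : κ → Fin (N + 1)) :
    Differentiable ℂ fun s : Fin β → ℂ => ∏ k ∈ F, A.th (i k) (-(E.io s k)) :=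
  diff_fin F (fun (k : κ) (s : Fin β → ℂ) => A.th (i k) (-(E.io s k)))
    fun k' => diff_th_neg hA _ _

theorem diff_rest (hA : A.IsAbVar K) (k : κ) (ρ : (κ → Fin (N + 1)) × (κ → Fin (N + 1))) :
    Differentiable ℂ (rest A E k ρ) := by
  unfold rest
  exact (diff_prod hA _ _).mul (diff_prod_neg hA _ _)

theorem fd_th (hA : A.IsAbVar K) (p : Fin (N + 1)) (k : κ) (s v : Fin β → ℂ) :
    fderiv ℂ (fun s : Fin β → ℂ => A.th p (E.io s k)) s v =
      fderiv ℂ (A.th p) (E.io s k) (E.io v k) := by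
  have h1 : HasFDerivAt (fun s : Fin β → ℂ => E.io s k)
      (LinearMap.toContinuousLinearMap (E.ik k)) s :=
    (LinearMap.toContinuousLinearMap (E.ik k)).hasFDerivAt
  have h2 := ((hA.th_diff p) (E.io s k)).hasFDerivAt.comp s h1
  have h3 : fderiv ℂ (fun s : Fin β → ℂ => A.th p (E.io s k)) s =
      (fderiv ℂ (A.th p) (E.io s k)).comp (LinearMap.toContinuousLinearMap (E.ik k)) := h2.fderiv
  rw [h3]
  rfl

theorem fd_split (hA : A.IsAbVar K) (k : κ) (p : Fin (N + 1))
    (ρ : (κ → Fin (N + 1)) × (κ → Fin (N + 1))) (s v : Fin β → ℂ) :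
    fderiv ℂ ((E.toTH A).th (Function.update ρ.1 k p, ρ.2)) s v =
      A.th p (E.io s k) * fderiv ℂ (rest A E k ρ) s v +
        rest A E k ρ s * fderiv ℂ (A.th p) (E.io s k) (E.io v k) := by
  have h1 : (E.toTH A).th (Function.update ρ.1 k p, ρ.2) =
      fun s => A.th p (E.io s k) * rest A E k ρ s := funext fun s => th_split k p ρ s
  rw [h1, fderiv_fun_mul (diff_th hA p k s) (diff_rest hA k ρ s)]
  show A.th p (E.io s k) * fderiv ℂ (rest A E k ρ) s v +
    rest A E k ρ s * fderiv ℂ (fun s : Fin β → ℂ => A.th p (E.io s k)) s v = _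
  rw [fd_th hA]

/-- coordinates of the lattice vectors -/
def cY (E : Emb g β κ Λ) (x : Λ → ℤ) (k : κ) (m : Ix g) : ℤ := ∑ l, x l * E.X l k m

theorem io_vec (hE : E.Good A) (x : Λ → ℤ) (k : κ) :
    E.io ((E.toTH A).vec x) k = V A (cY E x k) := by
  have h1 : E.io ((E.toTH A).vec x) = ∑ l, (x l : ℂ) • E.io (E.lat l) := by
    show E.io (∑ l, (x l : ℂ) • E.lat l) = _
    rw [map_sum]
    simp only [map_smul]
  rw [h1, Finset.sum_apply]
  simp only [Pi.smul_apply, hE.lat_eq]
  unfold V cY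
  simp only [Finset.smul_sum, smul_smul]
  rw [Finset.sum_comm]
  refine Finset.sum_congr rfl fun m _ => ?_
  rw [← Finset.sum_smul]
  push_cast
  rfl

theorem al_eq (x : Λ → ℤ) (s : Fin β → ℂ) :
    (E.toTH A).al x s = ∑ k, 2 * aa A (cY E x k) (E.io s k) := by
  have h1 : (E.toTH A).al x s =
      ∑ l, (x l : ℂ) * ∑ k, ∑ m, (2 * (E.X l k m : ℂ)) * A.a m (E.io s k) := by
    show (∑ l, (x l : ℂ) • (E.toTH A).a l) s = _
    rw [LinearMap.sum_apply]
    refine Finset.sum_congr rfl fun l _ => ?_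
    rw [LinearMap.smul_apply, smul_eq_mul]
    congr 1
    show (∑ k, ∑ m, (2 * (E.X l k m : ℂ)) • (A.a m ∘ₗ E.ik k)) s = _
    rw [LinearMap.sum_apply]
    refine Finset.sum_congr rfl fun k _ => ?_
    rw [LinearMap.sum_apply]
    rfl
  rw [h1]
  simp only [Finset.mul_sum]
  rw [Finset.sum_comm]
  refine Finset.sum_congr rfl fun k _ => ?_
  rw [Finset.sum_comm, aa, LinearMap.sum_apply, Finset.mul_sum]
  refine Finset.sum_congr rfl fun m _ => ?_
  rw [LinearMap.smul_apply, smul_eq_mul, cY]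
  push_cast
  rw [Finset.sum_mul, Finset.mul_sum]
  refine Finset.sum_congr rfl fun l _ => ?_
  ring

theorem aut_main (hA : A.IsAbVar K) (hE : E.Good A) (x : Λ → ℤ)
    (i : (κ → Fin (N + 1)) × (κ → Fin (N + 1))) (s : Fin β → ℂ) :
    (E.toTH A).th i (s + (E.toTH A).vec x) =
      Complex.exp ((E.toTH A).al x s + (E.toTH A).al x ((E.toTH A).vec x) / 2) *
        (E.toTH A).th i s := by
  choose b hb using fun k => autA hA (cY E x k)
  have h1 : ∀ k, E.io (s + (E.toTH A).vec x) k = E.io s k + V A (cY E x k) := by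
    intro k
    rw [map_add, Pi.add_apply, io_vec hE]
  rw [th_eq, th_eq]
  simp only [h1]
  have h2 : ∏ k, A.th (i.1 k) (E.io s k + V A (cY E x k)) =
      (∏ k, Complex.exp (aa A (cY E x k) (E.io s k) + b k)) * ∏ k, A.th (i.1 k) (E.io s k) := by
    rw [← Finset.prod_mul_distrib]
    exact Finset.prod_congr rfl fun k _ => hb k _ _
  have h3 : ∏ k, A.th (i.2 k) (-(E.io s k + V A (cY E x k))) =
      (∏ k, Complex.exp (aa A (cY E x k) (E.io s k) +
        aa A (cY E x k) (V A (cY E x k)) - b k)) * ∏ k, A.th (i.2 k) (-(E.io s k)) := by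
    rw [← Finset.prod_mul_distrib]
    exact Finset.prod_congr rfl fun k _ => autA_neg _ (hb k) _ _
  have h4 : Complex.exp ((E.toTH A).al x s + (E.toTH A).al x ((E.toTH A).vec x) / 2) =
      (∏ k, Complex.exp (aa A (cY E x k) (E.io s k) + b k)) *
      ∏ k, Complex.exp (aa A (cY E x k) (E.io s k) +
        aa A (cY E x k) (V A (cY E x k)) - b k) := by
    rw [← Finset.prod_mul_distrib]
    simp only [← Complex.exp_add]
    rw [← Complex.exp_sum, al_eq, al_eq]
    simp only [io_vec hE]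
    congr 1
    rw [Finset.sum_div, ← Finset.sum_add_distrib]
    refine Finset.sum_congr rfl fun k _ => ?_
    ring
  rw [h2, h3, h4]
  ring

end CTHM

open CTHM in
/-- Module CTH. -/
theorem specCTH : SpecCTH := by
  intro K g N β κ Λ _ _ _ A E hA hE
  refine ⟨hE.indep, ?_, fun i => ?_, aut_main hA hE, fun s => ?_, ?_, fun s => ?_,
    fun s t h => ?_, fun s v hv => ?_⟩
  · rw [hE.card, Fintype.card_fin]
  · show Differentiable ℂ fun s => (∏ k, A.th (i.1 k) (E.io s k)) *
      ∏ k, A.th (i.2 k) (-(E.io s k))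
    exact (diff_prod hA _ _).mul (diff_prod_neg hA _ _)
  · choose i hi using fun k' : κ => hA.th_ne (E.io s k')
    choose j hj using fun k' : κ => hA.th_ne (-(E.io s k'))
    exact ⟨(i, j), mul_ne_zero (Finset.prod_ne_zero_iff.2 fun k' _ => hi k')
      (Finset.prod_ne_zero_iff.2 fun k' _ => hj k')⟩
  · rw [th_eq]
    have h1 : ∀ k, E.io (0 : Fin β → ℂ) k = 0 := by
      intro k
      rw [map_zero]
      rfl
    simp only [h1, neg_zero]
    exact mul_ne_zero (Finset.prod_ne_zero_iff.2 fun k' _ => hA.zero)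
      (Finset.prod_ne_zero_iff.2 fun k' _ => hA.zero)
  · rw [th_eq, th_eq]
    have h1 : ∀ k, E.io (-s) k = -(E.io s k) := by
      intro k
      rw [map_neg]
      rfl
    simp only [h1, neg_neg]
    exact mul_comm _ _
  · have h1 : ∀ k, ∃ Y : Ix g → ℤ, E.io s k - E.io t k = ∑ m, (Y m : ℂ) • A.lat m := by
      intro k
      refine hA.inj _ _ fun p q => ?_
      refine segre (fun p => A.th p (E.io s k)) (fun p => A.th p (E.io t k))
        (fun ρ => rest A E k ρ s) (fun ρ => rest A E k ρ t) (hA.th_ne _) (rest_ne hA k s)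
        (hA.th_ne _) (rest_ne hA k t) (fun i j ρ σ => ?_) p q
      have h2 := h (Function.update ρ.1 k i, ρ.2) (Function.update σ.1 k j, σ.2)
      rw [th_split, th_split, th_split, th_split] at h2
      exact h2
    choose Y hY using h1
    exact hE.sat Y (s - t) fun k => by
      rw [map_sub, Pi.sub_apply]
      exact hY k
  · have hinj : E.io v ≠ 0 := by
      intro h0
      apply hv
      have h1 := Fintype.linearIndependent_iff.1 hE.u_indep v (by
        rw [← h0]
        exact (Fintype.linearCombination_apply ℂ E.u v).symm)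
      funext a
      exact h1 a
    obtain ⟨k, hk⟩ : ∃ k, E.io v k ≠ 0 := by
      by_contra hcon
      push Not at hcon
      exact hinj (funext hcon)
    obtain ⟨p, q, hpq⟩ := hA.imm (E.io s k) (E.io v k) hk
    obtain ⟨ρ, hρ⟩ := rest_ne (E := E) hA k s
    refine ⟨(Function.update ρ.1 k p, ρ.2), (Function.update ρ.1 k q, ρ.2), ?_⟩
    rw [th_split, th_split, fd_split hA, fd_split hA]
    intro hcon
    apply hpq
    have h2 := mul_ne_zero hρ hρ
    apply mul_left_cancel₀ h2
    linear_combination hcon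

end Pool.Agent.Lib.MPf11a48.AS
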