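import Pool.Agent.Lib.MP_f11a48_ag.AS.SpecE

/-!
# Project AS, block E, module CZE: values and periods
-/

set_option autoImplicit false

open Matrix MvPolynomial Pool.Agent.Lib.MPf11a48.CM Pool.Agent.Lib.MPf11a48.GL2T
open Filter Topology
open Pool.Agent.Lib.MPf11a48.U (AbData Ix EndAlg ComAlg mR mC HDAM.JM)

namespace Pool.Agent.Lib.MPf11a48.AS

namespace CZEM

variable {K : IntermediateField ℚ ℂ} {g N : ℕ}

/-- shifts `v` under which the function `zt t` has the quasi-period `e` -/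
def Sh (A : AbData g N) (t : Fin g) : AddSubgroup ((Fin g → ℂ) × ℂ) where
  carrier := {p | (∀ z, A.th 0 (z + p.1) ≠ 0 ↔ A.th 0 z ≠ 0) ∧
    ∀ z, A.th 0 z ≠ 0 → A.zt t (z + p.1) = A.zt t z + p.2}
  zero_mem' := by
    refine ⟨fun z => ?_, fun z _ => ?_⟩
    · rw [Prod.fst_zero, add_zero]
    · rw [Prod.fst_zero, Prod.snd_zero, add_zero, add_zero]
  add_mem' := by
    rintro p q ⟨hp1, hp2⟩ ⟨hq1, hq2⟩
    refine ⟨fun z => ?_, fun z hz => ?_⟩
    · rw [Prod.fst_add, ← add_assoc, hq1, hp1]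
    · rw [Prod.fst_add, Prod.snd_add, ← add_assoc, hq2 _ ((hp1 z).2 hz), hp2 z hz, add_assoc]
  neg_mem' := by
    rintro p ⟨hp1, hp2⟩
    have h1 : ∀ z, A.th 0 (z + (-p).1) ≠ 0 ↔ A.th 0 z ≠ 0 := by
      intro z
      have h := hp1 (z + (-p).1)
      rw [Prod.fst_neg, neg_add_cancel_right] at h
      rw [Prod.fst_neg]
      exact h.symm
    refine ⟨h1, fun z hz => ?_⟩
    have h := hp2 (z + (-p).1) ((h1 z).2 hz)
    rw [Prod.fst_neg, neg_add_cancel_right] at h
    rw [Prod.fst_neg, Prod.snd_neg, h]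
    ring

theorem lat_mem {A : AbData g N} (hA : A.IsAbVar K) (t : Fin g) (m : Ix g) :
    ((A.lat m, A.eta m t) : (Fin g → ℂ) × ℂ) ∈ Sh A t := by
  refine ⟨fun z => ?_, fun z hz => hA.zt_period m t z hz⟩
  show A.th 0 (z + A.lat m) ≠ 0 ↔ _
  rw [hA.th_aut]
  exact ⟨fun h h0 => h (by rw [h0, mul_zero]), fun h => mul_ne_zero (Complex.exp_ne_zero _) h⟩

theorem zt_vec {A : AbData g N} (hA : A.IsAbVar K) (t : Fin g) (x : Ix g → ℤ) (z : Fin g → ℂ)
    (hz : A.th 0 z ≠ 0) :
    A.zt t (z + ∑ m, (x m : ℂ) • A.lat m) = A.zt t z + ∑ m, (x m : ℂ) * A.eta m t := by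
  have h : ∑ m, x m • ((A.lat m, A.eta m t) : (Fin g → ℂ) × ℂ) ∈ Sh A t :=
    AddSubgroup.sum_mem _ fun m _ => AddSubgroup.zsmul_mem _ (lat_mem hA t m) _
  have e : ∑ m, x m • ((A.lat m, A.eta m t) : (Fin g → ℂ) × ℂ) =
      (∑ m, (x m : ℂ) • A.lat m, ∑ m, (x m : ℂ) * A.eta m t) := by
    rw [Prod.ext_iff, Prod.fst_sum, Prod.snd_sum]
    constructor
    · refine Finset.sum_congr rfl fun m _ => ?_
      rw [Prod.smul_fst, Int.cast_smul_eq_zsmul]
    · refine Finset.sum_congr rfl fun m _ => ?_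
      rw [Prod.smul_snd, zsmul_eq_mul]
  rw [e] at h
  exact h.2 z hz

theorem diff_prod {ι V : Type} [NormedAddCommGroup V] [NormedSpace ℂ V] (S : Finset ι)
    (F : ι → V → ℂ) (h : ∀ i, Differentiable ℂ (F i)) :
    Differentiable ℂ fun s => ∏ i ∈ S, F i s := by
  classical
  induction S using Finset.induction_on with
  | empty => simp only [Finset.prod_empty]; exact differentiable_const _
  | insert a S ha ih => simp only [Finset.prod_insert ha]; exact (h a).mul ih

theorem prod_mem {ι : Type} (S : Finset ι) (F : ι → ℂ) (h : ∀ i, F i ∈ Qbar) :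
    ∏ i ∈ S, F i ∈ Qbar := by
  classical
  induction S using Finset.induction_on with
  | empty => rw [Finset.prod_empty]; exact one_mem _
  | insert a S ha ih => rw [Finset.prod_insert ha]; exact mul_mem (h a) ih

theorem sum_mem' {ι : Type} (S : Finset ι) (F : ι → ℂ) (h : ∀ i, F i ∈ Qbar) :
    ∑ i ∈ S, F i ∈ Qbar := by
  classical
  induction S using Finset.induction_on with
  | empty => rw [Finset.sum_empty]; exact zero_mem _
  | insert a S ha ih => rw [Finset.sum_insert ha]; exact add_mem (h a) ih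

end CZEM

theorem specCZE : SpecCZE := by
  intro K g N β κ Λ _ _ _ A E hK hA hE
  have hio : Differentiable ℂ fun s => E.io s := by
    have : Differentiable ℂ (LinearMap.toContinuousLinearMap E.io) :=
      (LinearMap.toContinuousLinearMap E.io).differentiable
    exact this
  have hiok : ∀ k, Differentiable ℂ fun s => E.io s k := fun k =>
    (differentiable_pi.1 hio) k
  have hiokj : ∀ k j, Differentiable ℂ fun s => E.io s k j := fun k j =>
    (differentiable_pi.1 (hiok k)) j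
  have hth : ∀ i k, Differentiable ℂ fun s => A.th i (E.io s k) := fun i k =>
    (hA.th_diff i).comp (hiok k)
  have hthn : ∀ i k, Differentiable ℂ fun s => A.th i (-(E.io s k)) := fun i k =>
    (hA.th_diff i).comp (hiok k).neg
  have hYt : ∀ t k, Differentiable ℂ fun s => A.Y t (E.io s k) := fun t k =>
    (hA.Y_diff t).comp (hiok k)
  have hP : ∀ S : Finset κ, Differentiable ℂ fun s => ∏ k ∈ S, A.th 0 (E.io s k) := fun S =>
    CZEM.diff_prod S (fun k s => A.th 0 (E.io s k)) fun k => hth 0 k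
  have hPn : Differentiable ℂ fun s => ∏ k, A.th 0 (-(E.io s k)) :=
    CZEM.diff_prod _ (fun k s => A.th 0 (-(E.io s k))) fun k => hthn 0 k
  have hto : ∀ s, (E.toTH A).th (E.toTH A).o s =
      (∏ k, A.th 0 (E.io s k)) * ∏ k, A.th 0 (-(E.io s k)) := fun s => rfl
  refine ⟨⟨fun s => (∑ k, ∑ j, E.R k (Sum.inl j) * E.io s k j) *
      ((∏ k, A.th 0 (E.io s k)) * ∏ k, A.th 0 (-(E.io s k))) ^ A.m +
      ∑ k, ∑ t, E.R k (Sum.inr t) * A.Y t (E.io s k) *
        ((∏ k' ∈ Finset.univ.erase k, A.th 0 (E.io s k')) *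
          ∏ k', A.th 0 (-(E.io s k'))) ^ A.m, ?_, ?_⟩, ?_, ?_, ?_⟩
  · refine Differentiable.add (Differentiable.mul ?_ ?_) ?_
    · exact Differentiable.fun_sum fun k _ => Differentiable.fun_sum fun j _ =>
        (hiokj k j).const_mul _
    · exact ((hP Finset.univ).mul hPn).pow _
    · exact Differentiable.fun_sum fun k _ => Differentiable.fun_sum fun t _ =>
        ((hYt t k).const_mul _).mul (((hP _).mul hPn).pow _)
  · intro s hs
    rw [hto] at hs ⊢
    have h1 := left_ne_zero_of_mul hs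
    have h2 := right_ne_zero_of_mul hs
    have h1k : ∀ k, A.th 0 (E.io s k) ≠ 0 := fun k => Finset.prod_ne_zero_iff.1 h1 k
      (Finset.mem_univ k)
    have hsp := pow_ne_zero A.m hs
    rw [div_eq_iff hsp]
    beta_reduce
    unfold Emb.zeF
    rw [Finset.sum_add_distrib, add_mul]
    congr 1
    rw [Finset.sum_mul]
    refine Finset.sum_congr rfl fun k _ => ?_
    rw [Finset.sum_mul]
    refine Finset.sum_congr rfl fun t _ => ?_
    rw [← Finset.mul_prod_erase Finset.univ (fun k' => A.th 0 (E.io s k')) (Finset.mem_univ k)]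
    have h3 : A.zt t (E.io s k) * A.th 0 (E.io s k) ^ A.m = A.Y t (E.io s k) := by
      show A.Y t (E.io s k) / A.th 0 (E.io s k) ^ A.m * _ = _
      exact div_mul_cancel₀ _ (pow_ne_zero _ (h1k k))
    rw [← h3, mul_assoc (A.th 0 (E.io s k)), mul_pow (A.th 0 (E.io s k))]
    ring
  · intro l s hs
    rw [hto] at hs
    have h1 := left_ne_zero_of_mul hs
    have h1k : ∀ k, A.th 0 (E.io s k) ≠ 0 := fun k => Finset.prod_ne_zero_iff.1 h1 k
      (Finset.mem_univ k)
    unfold Emb.zeF Emb.ell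
    rw [← Finset.sum_add_distrib]
    refine Finset.sum_congr rfl fun k _ => ?_
    have e1 : E.io (s + E.lat l) k = E.io s k + ∑ m, (E.X l k m : ℂ) • A.lat m := by
      rw [map_add, Pi.add_apply, hE.lat_eq]
    have e2 : ∀ t, A.zt t (E.io (s + E.lat l) k) = A.zt t (E.io s k) +
        ∑ m, (E.X l k m : ℂ) * A.eta m t := by
      intro t
      rw [e1]
      exact CZEM.zt_vec hA t _ _ (h1k k)
    have e3 : ∀ j, E.io (s + E.lat l) k j = E.io s k j + ∑ m, (E.X l k m : ℂ) * A.lat m j := by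
      intro j
      rw [e1, Pi.add_apply, Finset.sum_apply]
      rfl
    simp only [e2, e3, mul_add, Finset.sum_add_distrib]
    have e4 : ∑ m, (E.X l k m : ℂ) * ∑ y, A.per m y * E.R k y =
        (∑ j, E.R k (Sum.inl j) * ∑ m, (E.X l k m : ℂ) * A.lat m j) +
        ∑ t, E.R k (Sum.inr t) * ∑ m, (E.X l k m : ℂ) * A.eta m t := by
      have e5 : ∀ m, (E.X l k m : ℂ) * ∑ y, A.per m y * E.R k y =
          (∑ j, E.R k (Sum.inl j) * ((E.X l k m : ℂ) * A.lat m j)) +
          ∑ t, E.R k (Sum.inr t) * ((E.X l k m : ℂ) * A.eta m t) := by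
        intro m
        rw [Fintype.sum_sum_type, mul_add, Finset.mul_sum, Finset.mul_sum]
        congr 1
        · refine Finset.sum_congr rfl fun j _ => ?_
          show (E.X l k m : ℂ) * (A.lat m j * E.R k (Sum.inl j)) = _
          ring
        · refine Finset.sum_congr rfl fun j _ => ?_
          show (E.X l k m : ℂ) * (A.eta m j * E.R k (Sum.inr j)) = _
          ring
      simp only [e5, Finset.sum_add_distrib, Finset.mul_sum]
      rw [Finset.sum_comm]
      congr 1
      exact Finset.sum_comm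
    rw [e4]
    ring
  · intro i
    have e : (E.toTH A).f i 0 = (∏ k, A.f (i.1 k) 0) * ∏ k, A.f (i.2 k) 0 := by
      show ((∏ k, A.th (i.1 k) (E.io 0 k)) * ∏ k, A.th (i.2 k) (-(E.io 0 k))) /
        ((∏ k : κ, A.th 0 (E.io 0 k)) * ∏ k : κ, A.th 0 (-(E.io 0 k))) = _
      rw [map_zero]
      simp only [Pi.zero_apply, neg_zero]
      rw [mul_div_mul_comm, ← Finset.prod_div_distrib, ← Finset.prod_div_distrib]
      rfl
    rw [e]
    exact mul_mem (CZEM.prod_mem _ _ fun k => hK (hA.value _))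
      (CZEM.prod_mem _ _ fun k => hK (hA.value _))
  · unfold Emb.zeF
    rw [map_zero]
    refine CZEM.sum_mem' _ _ fun k => ?_
    simp only [Pi.zero_apply, mul_zero, Finset.sum_const_zero, zero_add]
    exact CZEM.sum_mem' _ _ fun t => mul_mem (hE.R_alg _ _) (hK (hA.zt_value t))

end Pool.Agent.Lib.MPf11a48.AS
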