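import Pool.Agent.Lib.MP_f11a48_ag.AS.Defs

/-!
# Project AS, block Z: the zero estimate

Paper: /team-store/MP_f11a48_ag_AST.md, section 4. Notation: `𝒫 = MvPolynomial (Option I) ℂ`; letters
`c : Option (Fin β)`; `D.dl c` the derivations; `D.lw w` the words in the letters `some j`.
All modules may take any `Spec` as a hypothesis.
-/

set_option autoImplicit false

open MvPolynomial Pool.Agent.Lib.MPf11a48.CM Filter Topology Asymptotics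

namespace Pool.Agent.Lib.MPf11a48.AS

/-! ## Abstract algebra -/

/-- `a` has weighted order `≥ r` at `ev`: all words of weight `< r` vanish. -/
def WO {R κ : Type} [CommRing R] [Algebra ℂ R] (δ : κ → Derivation ℂ R R) (wt : κ → ℕ)
    (ev : R →ₐ[ℂ] ℂ) (r : ℕ) (a : R) : Prop :=
  ∀ w : List κ, (w.map wt).sum < r → ev (it δ w a) = 0

/-- Module WGT (80 lines): weighted orders add under multiplication. Proof: induction on the word `w`
(innermost letter: `it δ (w ++ [c]) (a b) = it δ w ((δ c a) b + a (δ c b))`, and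
`WO r a → WO (r - wt c) (δ c a)`), for all `a, b, r, s`. -/
def SpecWGT : Prop :=
  ∀ {R κ : Type} [CommRing R] [Algebra ℂ R] (δ : κ → Derivation ℂ R R) (wt : κ → ℕ)
    (ev : R →ₐ[ℂ] ℂ) (r s : ℕ) (a b : R), WO δ wt ev r a → WO δ wt ev s b →
    WO δ wt ev (r + s) (a * b)

/-- Module IND (linear independence of the jet functionals, 300 lines). Proof: for `γ ∈ Γ` let
`𝔪 = ker (ev γ)`, `Y^b = ∏_c (Y γ c)^{b_c}`. (i) `δ c 𝔪^{r+1} ⊆ 𝔪^r`. (ii)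
`δ c (Y^b h) ≡ b_c Y^{b - e_c} h` modulo `𝔪^{|b|}` (for `b_c = 0`: `≡ 0`). (iii) So for every word `w`
of length `≤ |b|`, `it δ w (Y^b h) ≡ C_w Y^{b - count w} h` modulo `𝔪^{|b| - |w| + 1}`, with `C_w` a product
of falling factorials, `0` if `count w ≤ b` fails. In particular for `|w| < |b|` the value at `ev γ` is
`0`, and for `|w| = |b|` it is `(∏ b_c!) ev γ h` if `count w = b`, and `0` otherwise. (iv) Words of length
`≤ K` applied to multiples of `(e γ)^{K+1}` vanish at `ev γ'`, `γ' ≠ γ`. Now suppose that not all the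
coefficients `t γ b`, `b ∈ B`, are zero; let `|b₀| = K` be maximal with `t γ₀ b₀ ≠ 0`; the relation for
`a = (e γ₀)^{K+1} Y^{b₀}` gives `t γ₀ b₀ ∏ (b₀)_c! = 0`. -/
def SpecIND : Prop :=
  ∀ {R κ Γ : Type} [CommRing R] [Algebra ℂ R] [Fintype κ] [DecidableEq κ] [Fintype Γ]
    [DecidableEq Γ] (δ : κ → Derivation ℂ R R) (ev : Γ → R →ₐ[ℂ] ℂ) (Y : Γ → κ → R) (e : Γ → R)
    (wd : (κ → ℕ) → List κ), (∀ b c, (wd b).count c = b c) →
    (∀ γ c, ev γ (Y γ c) = 0) → (∀ γ c c', ev γ (δ c' (Y γ c)) = if c = c' then 1 else 0) →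
    (∀ γ γ', ev γ' (e γ) = if γ = γ' then 1 else 0) →
    ∀ (B : Finset (κ → ℕ)) (t : Γ → (κ → ℕ) → ℂ),
      (∀ a : R, ∑ γ, ∑ b ∈ B, t γ b * ev γ (it δ (wd b) a) = 0) → ∀ γ, ∀ b ∈ B, t γ b = 0

/-- Module PWR (120 lines): powers of an ideal of finite codimension. Proof: let `𝒰` be a finite
dimensional complement of `𝔫 + (G)`, contained in degrees `≤ M`. Induction on `k`: `k = 0` trivial
(`(G)^0 = 1`, take `v = 0`). Let `a = u + ν + ∑ g_i b_i`, `u ∈ 𝒰`, `ν ∈ 𝔫`; by induction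
`b_i = v_i + ν_i + r_i`, `deg v_i ≤ M + k D`, `r_i ∈ (G)^k`. Take `v = u + ∑ g_i v_i`. -/
def SpecPWR : Prop :=
  ∀ {σ : Type} [Fintype σ] (n : Ideal (MvPolynomial σ ℂ)) (G : Set (MvPolynomial σ ℂ)) (D : ℕ),
    (∀ g ∈ G, g.totalDegree ≤ D) →
    Module.Finite ℂ (MvPolynomial σ ℂ ⧸ (n ⊔ Ideal.span G)) →
    ∃ M : ℕ, ∀ (k : ℕ) (a : MvPolynomial σ ℂ), ∃ v : MvPolynomial σ ℂ,
      v.totalDegree ≤ M + k * D ∧ a - v ∈ n ⊔ Ideal.span G ^ k

/-- Module ARC (algebraic arcs, 350 lines). Proof: `A = ℂ[X] / J` is finitely generated and not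
finite, so by Noether normalisation it is integral over `ℂ[t_1, …, t_s] ⊆ A`, `s ≥ 1`. By lying over
(`Ideal.exists_ideal_over_prime_of_isIntegral`) there is a prime `𝔮` of `A` over `(t_2, …, t_s)`;
`B = A / 𝔮` is a domain, integral over `ℂ[t]`, `t = t_1` transcendental. Primitive element of the
fraction field, `θ ∈ B`, with monic minimal polynomial `H(t, T) ∈ ℂ[t][T]`, `a(t) = α H + β H'`, `a ≠ 0`;
the generators are `w_k = c_k(t, θ) / h(t)`, `h ≠ 0`. Let `u₀ ∈ ℂ` with `a(u₀) h(u₀) ≠ 0`, `θ₀` a root of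
`H(u₀, T)`; it is simple; by the implicit function theorem there is an analytic `θ(u)` near `u₀` with
`H(u, θ(u)) = 0`. For `u` near `u₀` there is a homomorphism `B → ℂ`, `t ↦ u`, `θ ↦ θ(u)`
(`ℂ[t,θ][1/h]` is free over `ℂ[t][1/h]`), so the functions `w_k(u) = c_k(u, θ(u)) / h(u)` satisfy all
relations in `J`; they are integral over `ℂ[u]`. -/
def SpecARC : Prop :=
  ∀ {σ : Type} [Fintype σ] (J : Ideal (MvPolynomial σ ℂ)),
    ¬ Module.Finite ℂ (MvPolynomial σ ℂ ⧸ J) →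
    ∃ (u₀ : ℂ) (w : σ → ℂ → ℂ), (∀ k, AG1 u₀ (w k)) ∧
      (∀ᶠ u in 𝓝 u₀, ∀ P ∈ J, eval (fun k => w k u) P = 0) ∧
      ∃ t : MvPolynomial σ ℂ, ∀ᶠ u in 𝓝 u₀, eval (fun k => w k u) t = u

/-! ## Quasi-periodic data -/

/-- Module DEV (150 lines; uses `SpecBAS` of block F): the letters are partial derivatives of the
functions `(z, ρ) ↦ ev z ρ P`. -/
def SpecDEV : Prop :=
  ∀ {β : ℕ} {I Λ : Type} [Fintype I] [Fintype Λ] (D : QD β I Λ), D.Good →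
    ∀ (P : MvPolynomial (Option I) ℂ) (z : Fin β → ℂ) (ρ : ℂ), D.th D.o z ≠ 0 →
    AnalyticAt ℂ (fun zr : (Fin β → ℂ) × ℂ => D.ev zr.1 zr.2 P) (z, ρ) ∧
    (∀ j, fderiv ℂ (fun zr : (Fin β → ℂ) × ℂ => D.ev zr.1 zr.2 P) (z, ρ) (Pi.single j 1, 0) =
      D.ev z ρ (D.dl (some j) P)) ∧
    fderiv ℂ (fun zr : (Fin β → ℂ) × ℂ => D.ev zr.1 zr.2 P) (z, ρ) (0, 1) =
      D.ev z ρ (D.dl none P)

/-- Module NNP (150 lines; uses DEV): `𝔫` is prime and stable under the letters; the letter `none`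
commutes with all letters, and all words commute modulo `𝔫` (symmetry of second derivatives). Prime:
the set `V' × ℂ` is open, connected up to the zeros of `th_o`: multiply by powers of `th_o(z)` and use
entire functions on `ℂ^β × ℂ`. -/
def SpecNNP : Prop :=
  ∀ {β : ℕ} {I Λ : Type} [Fintype I] [Fintype Λ] (D : QD β I Λ), D.Good →
    D.nn.IsPrime ∧ (∀ c, ∀ P ∈ D.nn, D.dl c P ∈ D.nn) ∧
    (∀ c P, D.dl none (D.dl c P) = D.dl c (D.dl none P)) ∧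
    ∀ (w w' : List (Option (Fin β))), w.Perm w' → ∀ P, it D.dl w P - it D.dl w' P ∈ D.nn

/-- Module PHI (120 lines; uses DEV): words of derivations and order of vanishing. Proof: induction
on `T`, `AnaM.bigO_succ` in `U/Ana.lean`. -/
def SpecPHI : Prop :=
  ∀ {β : ℕ} {I Λ : Type} [Fintype I] [Fintype Λ] (D : QD β I Λ), D.Good →
    ∀ (P : MvPolynomial (Option I) ℂ) (T : ℕ) (z : Fin β → ℂ) (ρ : ℂ), D.th D.o z ≠ 0 →
    (∀ w : List (Option (Fin β)), w.length < T → D.ev z ρ (it D.dl w P) = 0) →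
    (fun zr : (Fin β → ℂ) × ℂ => D.ev zr.1 zr.2 P) =O[𝓝 (z, ρ)] fun zr => ‖zr - (z, ρ)‖ ^ T

/-- Module C0 (order bound, 300 lines; uses BAS, SCH of block F, and PHI). Proof: `d = 0` trivial
(`P` is a constant, the empty word). Let `d ≥ 1`. `G(z, x) = th_o(z)^d P(f(z), x)` is entire on
`ℂ^β × ℂ`, a polynomial of degree `≤ d` in `x`, and `G(z + μ_x, x) = e_μ(z)^d G(z, x)`
(`e_μ(z) = exp(a_x(z) + a_x(μ_x)/2)`). Near `(z₀, ξ)`, `ξ = ze(z₀) + ρ₀`, it is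
`th_o(z)^d Φ_P(z, x - ze(z))`, so `O(‖(z,x) - (z₀,ξ)‖^T)` with `T = C d + 1` (PHI; `ze` is analytic
near `z₀`). By periodicity (BAS 8) we may assume `‖z₀‖ ≤ R` (the point `z₀ + μ`, with
`x`-coordinate unchanged). Let `r = max(1, |ξ|)`, `M(a,b) = max {|G(z,x)| : ‖z‖ ≤ a, |x| ≤ b}`. For
`‖z‖ ≤ R`, `|x| ≤ r` SCH (with `‖s‖ ≤ 3`: the line stays in `‖z‖ ≤ 7 R`, `|x| ≤ 7 r`) gives
`M(R,r) ≤ 3^{-T} M(7R,7r)`; `M(7R, 7r) ≤ E^d M(R, 7r)` (lattice vectors `μ` of norm `≤ 8R`) and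
`M(R, 7r) ≤ 7^{d+1} M(R, r)` (the coefficients of a polynomial in `x` by Cauchy's inequalities). So
`M(R,r) = 0` if `C` is large, uniformly in `z₀, ρ₀, d`; `G = 0`, `P ∈ 𝔫`. -/
def SpecC0 : Prop :=
  ∀ {β : ℕ} {I Λ : Type} [Fintype I] [Fintype Λ] (D : QD β I Λ), D.Good → ∃ C : ℕ, D.OB C

/-- Module PTS (150 lines; uses BAS): functions for IND. Proof: by BAS (5) at `z γ` there are linear
combinations `Y_j` of the `X_i - f_i(z γ)` with `(D_k Y_j)(z γ) = δ_{jk}`;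
`Y_none = X - ze(z γ) - ∑_j q_j(f(z γ)) Y_j`;
`e γ = ∏_{γ' ≠ γ} (X_i - f_i(z γ')) / (f_i(z γ) - f_i(z γ'))`, `i = i(γ, γ')`. -/
def SpecPTS : Prop :=
  ∀ {β : ℕ} {I Λ : Type} [Fintype I] [Fintype Λ] (D : QD β I Λ), D.Good →
    ∀ {Γ : Type} [Fintype Γ] [DecidableEq Γ] (z : Γ → (Fin β → ℂ)), (∀ γ, D.th D.o (z γ) ≠ 0) →
    (∀ γ γ', D.fv (z γ) = D.fv (z γ') → γ = γ') →
    ∃ (Y : Γ → Option (Fin β) → MvPolynomial (Option I) ℂ) (e : Γ → MvPolynomial (Option I) ℂ),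
      (∀ γ c, D.ev (z γ) 0 (Y γ c) = 0) ∧
      (∀ γ c c', D.ev (z γ) 0 (D.dl c' (Y γ c)) = if c = c' then 1 else 0) ∧
      ∀ γ γ', D.ev (z γ') 0 (e γ) = if γ = γ' then 1 else 0

/-- Module CTZ (the count, 300 lines; uses WGT, IND, PWR, NNP, PTS). Proof: let `wd b` be the sorted
word with `b c` letters `c`. `δ = D.dl`, weights: `some j ↦ 1`, `none ↦ T`. Every `g ∈ G` has weighted
order `≥ T` at `(z γ, 0)`: a word of weight `< T` has no letter `none`. By WGT all elements of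
`(G)^k` have weighted order `≥ k T`, and elements of `𝔫` have all orders. Let
`B_k = {b : ∑_j b (some j) + T b none < k T}`. The functionals `P ↦ ev (z γ) 0 (it δ (wd b) P)`,
`γ ∈ Γ`, `b ∈ B_k`, are linearly independent (IND, PTS), they vanish on `𝔫 + (G)^k`, so by PWR they
are linearly independent on the space `𝒫_{≤ d}`, `d = M + k D₂`. On `𝒫_{≤ d}` the common kernel of the
functionals `P ↦ ev 0 0 (it δ (wd b) P)`, `|b| ≤ C d`, is contained in `𝔫` (`OB C`; words commute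
modulo `𝔫`, NNP), so in their common kernel. So `#Γ #B_k ≤ #{b : |b| ≤ C d} ≤ (C d + 1)^{β+1}`. For
`k = 2 β m`: `B_k` contains all `b` with `b (some j) < m T`, `b none < β m`, so
`#Γ β m^{β+1} T^β ≤ (C (M + 2 β m D₂) + 1)^{β+1}` for all `m`; divide by `m^{β+1}`, `m → ∞`. -/
def SpecCTZ : Prop :=
  ∀ {β : ℕ} {I Λ : Type} [Fintype I] [Fintype Λ] (D : QD β I Λ), D.Good → 0 < β →
    ∀ C : ℕ, D.OB C →
    ∀ {Γ : Type} [Fintype Γ] (z : Γ → (Fin β → ℂ)), (∀ γ, D.th D.o (z γ) ≠ 0) →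
    (∀ γ γ', D.fv (z γ) = D.fv (z γ') → γ = γ') →
    ∀ (T D₂ : ℕ), 0 < T → ∀ G : Set (MvPolynomial (Option I) ℂ), (∀ g ∈ G, g.totalDegree ≤ D₂) →
    (∀ g ∈ G, ∀ γ, ∀ w : List (Fin β), w.length < T → D.ev (z γ) 0 (D.lw w g) = 0) →
    Module.Finite ℂ (MvPolynomial (Option I) ℂ ⧸ (D.nn ⊔ Ideal.span G)) →
    Fintype.card Γ * T ^ β ≤ (2 * β * C * D₂) ^ (β + 1)

/-- Module TAN (200 lines; uses DEV, NNP): a polynomial all of whose derivatives of order `≤ C d`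
along the leaves vanish on an arc which is not contained in a leaf is in `𝔫`. Proof: choose `u₁` near
`u₀` with `ρ'(u₁) ≠ 0` (identity theorem). `E_k = {Q : for all u near u₁ and all words w in the letters
some j, |w| ≤ k : ev (ζ u) (ρ u) (D.lw w Q) = 0}`; `P ∈ E_{Cd}`. `D_j E_k ⊆ E_{k-1}` clear
(`it δ w (δ c Q) = it δ (w ++ [c]) Q`), `D_none E_k ⊆ E_{k-1}`: differentiate
`ev (ζ u) (ρ u) (D.lw w Q) = 0`, `|w| ≤ k - 1`:
`0 = ∑_j ζ_j'(u) ev(D_j D.lw w Q) + ρ'(u) ev(D_none D.lw w Q)`; the first terms vanish, and `D_none`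
commutes with words (NNP). So all words of length `≤ C d` vanish at `(ζ u₁, ρ u₁)`, apply `OB`. -/
def SpecTAN : Prop :=
  ∀ {β : ℕ} {I Λ : Type} [Fintype I] [Fintype Λ] (D : QD β I Λ), D.Good → ∀ C : ℕ, D.OB C →
    ∀ (d : ℕ) (P : MvPolynomial (Option I) ℂ), P.totalDegree ≤ d →
    ∀ (u₀ : ℂ) (ζ : ℂ → (Fin β → ℂ)) (ρ : ℂ → ℂ), AnalyticAt ℂ ζ u₀ → AnalyticAt ℂ ρ u₀ →
    D.th D.o (ζ u₀) ≠ 0 →
    (∀ w : List (Fin β), w.length ≤ C * d → ∀ᶠ u in 𝓝 u₀, D.ev (ζ u) (ρ u) (D.lw w P) = 0) →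
    (¬ ∀ᶠ u in 𝓝 u₀, ρ u = ρ u₀) → P ∈ D.nn

/-- THEOREM AX (block X): no algebraic curve lies in a leaf, if the data are semistable. -/
def SpecAX : Prop :=
  ∀ {β : ℕ} {I Λ : Type} [Fintype I] [Fintype Λ] (D : QD β I Λ), D.Good → D.SS →
    ∀ (u₀ : ℂ) (ζ : ℂ → (Fin β → ℂ)), AnalyticAt ℂ ζ u₀ → D.th D.o (ζ u₀) ≠ 0 →
    (∀ i, AG1 u₀ fun u => D.f i (ζ u)) → (AG1 u₀ fun u => D.ze (ζ u)) →
    ∀ᶠ u in 𝓝 u₀, ζ u = ζ u₀

/-- Module FIN (150 lines; uses ARC, LFT of block F, TAN, AX, BAS): finiteness. Proof: otherwise ARC for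
`J = 𝔫 + (…)` gives `w_i, x`. For `P ∈ 𝔫_f` the polynomial `rename some P` is in `𝔫`, so LFT gives
`ζ` with `f(ζ u) = w(u)`. Let `ρ(u) = x(u) - ze(ζ u)`, analytic. `ev (ζ u) (ρ u) Q = eval (w u) Q`. If
`ρ` is not constant near `u₀`: TAN, `P ∈ 𝔫`, contradiction. If `ρ` is constant, `ze(ζ u) = x(u) - ρ₀` is
algebraic, so `ζ` is constant near `u₀` (AX), `w` and `x` too; but `t(w(u), x(u)) = u`. -/
def SpecFIN : Prop :=
  ∀ {β : ℕ} {I Λ : Type} [Fintype I] [Fintype Λ] (D : QD β I Λ), D.Good → D.SS → ∀ C : ℕ,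
    D.OB C → ∀ (d : ℕ) (P : MvPolynomial (Option I) ℂ), P.totalDegree ≤ d → P ∉ D.nn →
    Module.Finite ℂ (MvPolynomial (Option I) ℂ ⧸
      (D.nn ⊔ Ideal.span {Q | ∃ w : List (Fin β), w.length ≤ C * d ∧ Q = D.lw w P}))

/-- Module ZERO (80 lines; uses C0, FIN, CTZ): THE ZERO ESTIMATE. Proof: let `δ₀` be a bound for the
degrees of the `p i j`, `q j`; `deg (D.lw w P) ≤ d + δ₀ |w|`. Apply CTZ to `G = {D.lw w P : |w| ≤ C d}`,
`D₂ = (1 + C δ₀) d`. (`D.lw v (D.lw w P) = D.lw (v ++ w) P`.) -/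
def SpecZERO : Prop :=
  ∀ {β : ℕ} {I Λ : Type} [Fintype I] [Fintype Λ] (D : QD β I Λ), D.Good → D.SS → 0 < β →
    ∃ C : ℕ, ∀ (d : ℕ) (P : MvPolynomial (Option I) ℂ), 1 ≤ d → P.totalDegree ≤ d → P ∉ D.nn →
    ∀ T : ℕ, 0 < T → ∀ {Γ : Type} [Fintype Γ] (z : Γ → (Fin β → ℂ)),
    (∀ γ, D.th D.o (z γ) ≠ 0) → (∀ γ γ', D.fv (z γ) = D.fv (z γ') → γ = γ') →
    (∀ γ, ∀ w : List (Fin β), w.length < T + C * d → D.ev (z γ) 0 (D.lw w P) = 0) →
    Fintype.card Γ * T ^ β ≤ C * d ^ (β + 1)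

end Pool.Agent.Lib.MPf11a48.AS
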