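import Pool.Agent.Lib.MP_f11a48_ag.AS.SpecF
import Pool.Agent.Lib.MP_f11a48_ag.AS.SpecZ
import Pool.Agent.Lib.MP_f11a48_ag.U.Osgood

/-!
# Project AS, module DEV: the letters are partial derivatives
-/

set_option autoImplicit false

open MvPolynomial Pool.Agent.Lib.MPf11a48.CM Filter Topology Asymptotics

namespace Pool.Agent.Lib.MPf11a48.AS

namespace DEVM

variable {β : ℕ} {I Λ : Type} (D : QD β I Λ)

/-- the function of `(z, ρ)` -/
noncomputable def Phi (P : MvPolynomial (Option I) ℂ) (zr : (Fin β → ℂ) × ℂ) : ℂ :=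
  D.ev zr.1 zr.2 P

theorem ev_X (z : Fin β → ℂ) (ρ : ℂ) (i : Option I) :
    D.ev z ρ (X i) = Option.elim i (D.ze z + ρ) fun i => D.f i z := by
  unfold QD.ev
  rw [aeval_X]

theorem ev_rename (z : Fin β → ℂ) (ρ : ℂ) (p : MvPolynomial I ℂ) :
    D.ev z ρ (rename some p) = eval (D.fv z) p := by
  unfold QD.ev
  rw [aeval_rename, ← coe_aeval_eq_eval]
  rfl

theorem dl_X (c : Option (Fin β)) (i : Option I) : D.dl c (X i) = D.pp i c := by
  unfold QD.dl
  rw [mkDerivation_X]

/-- analyticity propagates from the variables -/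
theorem analytic_of_var {zr : (Fin β → ℂ) × ℂ} (h : ∀ i, AnalyticAt ℂ (Phi D (X i)) zr)
    (P : MvPolynomial (Option I) ℂ) : AnalyticAt ℂ (Phi D P) zr := by
  induction P using MvPolynomial.induction_on with
  | C a =>
    have : Phi D (C a) = fun _ => a := by
      funext x
      unfold Phi QD.ev
      rw [← algebraMap_eq, AlgHom.commutes]
      rfl
    rw [this]
    exact analyticAt_const
  | add P Q hP hQ =>
    have : Phi D (P + Q) = fun x => Phi D P x + Phi D Q x := by
      funext x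
      unfold Phi
      rw [map_add]
    rw [this]
    exact hP.add hQ
  | mul_X P i hP =>
    have : Phi D (P * X i) = fun x => Phi D P x * Phi D (X i) x := by
      funext x
      unfold Phi
      rw [map_mul]
    rw [this]
    exact hP.mul (h i)

/-- derivatives in one direction propagate from the variables -/
theorem deriv_of_var {zr : (Fin β → ℂ) × ℂ} (h : ∀ i, AnalyticAt ℂ (Phi D (X i)) zr)
    (v : (Fin β → ℂ) × ℂ) (c : Option (Fin β))
    (hv : ∀ i, fderiv ℂ (Phi D (X i)) zr v = D.ev zr.1 zr.2 (D.dl c (X i)))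
    (P : MvPolynomial (Option I) ℂ) :
    fderiv ℂ (Phi D P) zr v = D.ev zr.1 zr.2 (D.dl c P) := by
  have hd : ∀ Q, DifferentiableAt ℂ (Phi D Q) zr := fun Q =>
    (analytic_of_var D h Q).differentiableAt
  induction P using MvPolynomial.induction_on with
  | C a =>
    have : Phi D (C a) = fun _ => a := by
      funext x
      unfold Phi QD.ev
      rw [← algebraMap_eq, AlgHom.commutes]
      rfl
    rw [this, ← algebraMap_eq, Derivation.map_algebraMap, map_zero, fderiv_fun_const]
    rfl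
  | add P Q hP hQ =>
    have : Phi D (P + Q) = fun x => Phi D P x + Phi D Q x := by
      funext x
      unfold Phi
      rw [map_add]
    rw [this, fderiv_fun_add (hd P) (hd Q), add_apply, hP, hQ, map_add, map_add]
  | mul_X P i hP =>
    have : Phi D (P * X i) = fun x => Phi D P x * Phi D (X i) x := by
      funext x
      unfold Phi
      rw [map_mul]
    rw [this, fderiv_fun_mul (hd P) (hd (X i)), Derivation.leibniz, add_apply,
      _root_.smul_apply, _root_.smul_apply, hP, hv i]
    simp only [smul_eq_mul, map_add, map_mul]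
    unfold Phi
    ring

end DEVM

open DEVM in
theorem specDEV (hBAS : SpecBAS) : SpecDEV := by
  intro β I Λ _ _ D hD P z ρ hz
  have hf : ∀ i, AnalyticAt ℂ (D.f i) z := fun i => (hBAS D.toTH hD.good).2.1 i z hz
  have hth : AnalyticAt ℂ (D.th D.o) z :=
    Pool.Agent.Lib.MPf11a48.U.Osgood.analyticAt_of_differentiable (hD.good.diff D.o) z
  have hY : AnalyticAt ℂ D.Y z :=
    Pool.Agent.Lib.MPf11a48.U.Osgood.analyticAt_of_differentiable hD.Y_diff z
  have hze : AnalyticAt ℂ D.ze z := hY.div (hth.pow _) (pow_ne_zero _ hz)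
  have hfst : AnalyticAt ℂ (Prod.fst : (Fin β → ℂ) × ℂ → (Fin β → ℂ)) (z, ρ) := analyticAt_fst
  have hsnd : AnalyticAt ℂ (Prod.snd : (Fin β → ℂ) × ℂ → ℂ) (z, ρ) := analyticAt_snd
  have hvs : ∀ i : I, Phi D (X (some i)) = fun zr => D.f i zr.1 := by
    intro i
    funext zr
    exact ev_X D zr.1 zr.2 (some i)
  have hvn : Phi D (X none) = fun zr => D.ze zr.1 + zr.2 := by
    funext zr
    exact ev_X D zr.1 zr.2 none
  have hvar : ∀ i, AnalyticAt ℂ (Phi D (X i)) (z, ρ) := by
    intro i
    rcases i with _ | i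
    · rw [hvn]
      exact (AnalyticAt.fun_comp (g := D.ze) (f := Prod.fst) hze hfst).add hsnd
    · rw [hvs]
      exact AnalyticAt.fun_comp (g := D.f i) (f := Prod.fst) (hf i) hfst
  have hds : ∀ (i : I) (v : (Fin β → ℂ) × ℂ),
      fderiv ℂ (Phi D (X (some i))) (z, ρ) v = fderiv ℂ (D.f i) z v.1 := by
    intro i v
    rw [hvs]
    have h1 : HasFDerivAt (fun zr : (Fin β → ℂ) × ℂ => D.f i zr.1)
        ((fderiv ℂ (D.f i) z).comp (ContinuousLinearMap.fst ℂ (Fin β → ℂ) ℂ)) (z, ρ) :=
      HasFDerivAt.comp (g := D.f i) (f := Prod.fst) (z, ρ) (hf i).differentiableAt.hasFDerivAt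
        hasFDerivAt_fst
    rw [h1.fderiv]
    rfl
  have hdn : ∀ (v : (Fin β → ℂ) × ℂ),
      fderiv ℂ (Phi D (X none)) (z, ρ) v = fderiv ℂ D.ze z v.1 + v.2 := by
    intro v
    rw [hvn]
    have h1 : HasFDerivAt (fun zr : (Fin β → ℂ) × ℂ => D.ze zr.1)
        ((fderiv ℂ D.ze z).comp (ContinuousLinearMap.fst ℂ (Fin β → ℂ) ℂ)) (z, ρ) :=
      HasFDerivAt.comp (g := D.ze) (f := Prod.fst) (z, ρ) hze.differentiableAt.hasFDerivAt
        hasFDerivAt_fst
    have h2 : HasFDerivAt (fun zr : (Fin β → ℂ) × ℂ => D.ze zr.1 + zr.2)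
        ((fderiv ℂ D.ze z).comp (ContinuousLinearMap.fst ℂ (Fin β → ℂ) ℂ) +
          ContinuousLinearMap.snd ℂ (Fin β → ℂ) ℂ) (z, ρ) := h1.add hasFDerivAt_snd
    rw [h2.fderiv]
    rfl
  refine ⟨analytic_of_var D hvar P, fun j => ?_, ?_⟩
  · refine deriv_of_var D hvar (Pi.single j 1, 0) (some j) ?_ P
    intro i
    rw [dl_X]
    rcases i with _ | i
    · rw [hdn, add_zero]
      show _ = D.ev z ρ (rename some (D.q j))
      rw [ev_rename]
      exact hD.ze_deriv j z hz
    · rw [hds]
      show _ = D.ev z ρ (rename some (D.p i j))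
      rw [ev_rename]
      exact hD.f_deriv i j z hz
  · refine deriv_of_var D hvar (0, 1) none ?_ P
    intro i
    rw [dl_X]
    rcases i with _ | i
    · rw [hdn]
      show _ = D.ev z ρ 1
      rw [map_one, map_zero, zero_add]
    · rw [hds]
      show _ = D.ev z ρ 0
      rw [map_zero, map_zero]

end Pool.Agent.Lib.MPf11a48.AS
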