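import Pool.Agent.Lib.MP_f11a48_ag.AS.SpecF

/-!
# Module DIM (existence of Noether normalisations with `card Z` elements)
-/

set_option autoImplicit false

open MvPolynomial Pool.Agent.Lib.MPf11a48.CM Filter Topology Asymptotics

namespace Pool.Agent.Lib.MPf11a48.AS

namespace DIMM

/-! ### Derivatives along a line -/

theorem deriv_eval {K : Type} [Fintype K] {Y : ℂ → K → ℂ} (hY : HasDerivAt Y 0 0)
    (c : MvPolynomial K ℂ) : HasDerivAt (fun t => eval (Y t) c) 0 0 := by
  induction c using MvPolynomial.induction_on with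
  | C a =>
    simp only [eval_C]
    exact hasDerivAt_const _ _
  | add p q hp hq =>
    simp only [map_add]
    have h := hp.fun_add hq
    rw [add_zero] at h
    exact h
  | mul_X p k hp =>
    simp only [map_mul, eval_X]
    have h1 : HasDerivAt (fun t => Y t k) 0 0 := by
      have := (hasDerivAt_pi.1 hY) k
      simpa using this
    have h := hp.fun_mul h1
    rw [zero_mul, mul_zero, add_zero] at h
    exact h

theorem deriv_poly {K : Type} [Fintype K] {Y : ℂ → K → ℂ} (hY : HasDerivAt Y 0 0) {F : ℂ → ℂ}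
    {F' : ℂ} (hF : HasDerivAt F F' 0) (P : Polynomial (MvPolynomial K ℂ)) :
    HasDerivAt (fun t => (P.map (eval (Y t))).eval (F t))
      (((Polynomial.derivative P).map (eval (Y 0))).eval (F 0) * F') 0 := by
  induction P using Polynomial.induction_on' with
  | add p q hp hq =>
    simp only [Polynomial.map_add, Polynomial.eval_add]
    have e : Polynomial.derivative (p + q) = Polynomial.derivative p + Polynomial.derivative q :=
      map_add _ _ _
    rw [e, Polynomial.map_add, Polynomial.eval_add, add_mul]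
    exact hp.add hq
  | monomial n c =>
    have h1 : ∀ t, ((Polynomial.monomial n c).map (eval (Y t))).eval (F t) =
        eval (Y t) c * F t ^ n := by
      intro t
      rw [Polynomial.map_monomial, Polynomial.eval_monomial]
    simp only [h1]
    have h2 : ((Polynomial.derivative (Polynomial.monomial n c)).map (eval (Y 0))).eval (F 0) =
        eval (Y 0) c * (n * F 0 ^ (n - 1)) := by
      rw [Polynomial.derivative_monomial, Polynomial.map_monomial, Polynomial.eval_monomial]
      simp only [map_mul, map_natCast]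
      ring
    rw [h2]
    have h3 := (deriv_eval hY c).mul (hF.pow n)
    have h4 : (0 : ℂ) * F 0 ^ n + eval (Y 0) c * ((n : ℂ) * F 0 ^ (n - 1) * F') =
        eval (Y 0) c * (n * F 0 ^ (n - 1)) * F' := by ring
    rw [← h4]
    exact h3

variable {Z I Λ : Type} [Fintype Z] [Fintype I] [Fintype Λ] (D : TH Z I Λ)

/-- The functions `y`. -/
noncomputable def yk {K : Type} (y : K → MvPolynomial I ℂ) (z : Z → ℂ) : K → ℂ :=
  fun k => eval (D.fv z) (y k)

omit [Fintype Z] [Fintype I] [Fintype Λ] in
theorem eval_aeval {K : Type} (y : K → MvPolynomial I ℂ) (P : MvPolynomial K ℂ) (z : Z → ℂ) :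
    eval (D.fv z) (aeval y P) = eval (yk D y z) P := by
  have h : (eval (D.fv z)).comp (aeval y : MvPolynomial K ℂ →ₐ[ℂ] MvPolynomial I ℂ).toRingHom =
      eval (yk D y z) := by
    apply MvPolynomial.ringHom_ext
    · intro r
      simp
    · intro k
      simp [yk]
  exact RingHom.congr_fun h P

omit [Fintype Z] [Fintype I] [Fintype Λ] in
theorem root_eq {K : Type} (y : K → MvPolynomial I ℂ) (Q : Polynomial (MvPolynomial K ℂ)) (i : I)
    (z : Z → ℂ) :
    (Q.map (eval (yk D y z))).eval (D.f i z) = eval (D.fv z)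
      (Q.eval₂ (aeval y : MvPolynomial K ℂ →ₐ[ℂ] MvPolynomial I ℂ).toRingHom (X i)) := by
  rw [Polynomial.hom_eval₂, Polynomial.eval_map, eval_X]
  have h : (eval (D.fv z)).comp (aeval y : MvPolynomial K ℂ →ₐ[ℂ] MvPolynomial I ℂ).toRingHom =
      eval (yk D y z) := RingHom.ext fun P => eval_aeval D y P z
  rw [h]
  rfl

/-- `y` is unramified where the `a_i` do not vanish. -/
theorem unram (hD : D.Good) (hBAS : SpecBAS) (hSRG : SpecSRG) {K : Type} [Fintype K]
    (y : K → MvPolynomial I ℂ) (Q : I → Polynomial (MvPolynomial K ℂ)) (a : I → MvPolynomial K ℂ)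
    (hroot : ∀ i z, D.th D.o z ≠ 0 → ((Q i).map (eval (yk D y z))).eval (D.f i z) = 0)
    (hbez : ∀ i, ∃ u v : Polynomial (MvPolynomial K ℂ),
      Polynomial.C (a i) = u * Q i + v * Polynomial.derivative (Q i))
    (z : Z → ℂ) (hz : D.th D.o z ≠ 0) (ha : ∀ i, eval (yk D y z) (a i) ≠ 0) :
    ∀ v, fderiv ℂ (yk D y) z v = 0 → v = 0 := by
  obtain ⟨-, han, -, -, himm, -⟩ := hBAS D hD
  obtain ⟨hS1, -, -, hS4⟩ := hSRG D hD
  intro v hv
  apply himm z v hz
  intro i
  have hdy : DifferentiableAt ℂ (yk D y) z := by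
    rw [differentiableAt_pi]
    intro k
    exact (hS4 _ (hS1 (y k)) z hz).differentiableAt
  have hdf : DifferentiableAt ℂ (D.f i) z := (han i z hz).differentiableAt
  have hγ : HasDerivAt (fun t : ℂ => z + t • v) v 0 := by
    have h1 := ((hasDerivAt_id (0 : ℂ)).smul_const v).const_add z
    simpa using h1
  have hγ0 : z + (0 : ℂ) • v = z := by simp
  have hY : HasDerivAt (fun t : ℂ => yk D y (z + t • v)) 0 0 := by
    have h1 : HasFDerivAt (yk D y) (fderiv ℂ (yk D y) z) (z + (0 : ℂ) • v) := by
      rw [hγ0]; exact hdy.hasFDerivAt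
    have h2 := h1.comp_hasDerivAt (0 : ℂ) hγ
    rw [hv] at h2
    exact h2
  have hF : HasDerivAt (fun t : ℂ => D.f i (z + t • v)) (fderiv ℂ (D.f i) z v) 0 := by
    have h1 : HasFDerivAt (D.f i) (fderiv ℂ (D.f i) z) (z + (0 : ℂ) • v) := by
      rw [hγ0]; exact hdf.hasFDerivAt
    exact h1.comp_hasDerivAt (0 : ℂ) hγ
  have h3 := deriv_poly hY hF (Q i)
  have hev : ∀ᶠ t : ℂ in 𝓝 0, D.th D.o (z + t • v) ≠ 0 := by
    have hc : ContinuousAt (fun t : ℂ => D.th D.o (z + t • v)) 0 := by
      have : Continuous (fun t : ℂ => D.th D.o (z + t • v)) :=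
        (hD.diff D.o).continuous.comp (continuous_const.add (continuous_id.smul continuous_const))
      exact this.continuousAt
    exact hc.eventually_ne (by rw [hγ0]; exact hz)
  have h4 : HasDerivAt (fun t : ℂ => ((Q i).map (eval (yk D y (z + t • v)))).eval
      (D.f i (z + t • v))) 0 0 := by
    refine (hasDerivAt_const (0 : ℂ) (0 : ℂ)).congr_of_eventuallyEq ?_
    filter_upwards [hev] with t ht
    exact hroot i _ ht
  have h5 := h3.unique h4
  simp only [zero_smul, add_zero] at h5
  rcases mul_eq_zero.1 h5 with h6 | h6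
  · exfalso
    obtain ⟨p, q, hpq⟩ := hbez i
    have h7 := congrArg (fun R : Polynomial (MvPolynomial K ℂ) =>
      (R.map (eval (yk D y z))).eval (D.f i z)) hpq
    simp only [Polynomial.map_C, Polynomial.eval_C, Polynomial.map_add, Polynomial.map_mul,
      Polynomial.eval_add, Polynomial.eval_mul] at h7
    rw [hroot i z hz, h6, mul_zero, mul_zero, add_zero] at h7
    exact ha i h7
  · exact h6

/-- At most `card Z` algebraically independent functions. -/
theorem upper (hD : D.Good) (hCNT : SpecCNT) (hSRG : SpecSRG) {s : ℕ}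
    (y : Fin s → MvPolynomial I ℂ)
    (hind : ∀ P : MvPolynomial (Fin s) ℂ, aeval y P ∈ D.nf → P = 0) : s ≤ Fintype.card Z := by
  classical
  by_contra hcon
  have hle : Fintype.card Z + 1 ≤ s := by omega
  obtain ⟨hS1, -, -, -⟩ := hSRG D hD
  set em : Fin (Fintype.card Z + 1) → Fin s := Fin.castLE hle with hem
  choose hS hper using fun j : Fin (Fintype.card Z + 1) => hS1 (y (em j))
  choose κ G hG hA using hS
  have hκ : ∀ j, κ j ≤ ∑ j, κ j := fun j => Finset.single_le_sum (fun _ _ => Nat.zero_le _)
    (Finset.mem_univ j)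
  obtain ⟨P, hP, hP0⟩ := hCNT D.lat hD.indep hD.card (D.th D.o) (hD.diff D.o) ⟨0, hD.zero⟩
    (fun l => by
      refine ⟨fun z => Complex.exp (D.al (Pi.single l 1) z +
        D.al (Pi.single l 1) (D.vec (Pi.single l 1)) / 2), ?_, fun z => Complex.exp_ne_zero _, ?_⟩
      · exact Complex.continuous_exp.comp
          ((LinearMap.continuous_of_finiteDimensional _).add continuous_const)
      · intro z
        have h1 := hD.aut (Pi.single l 1) D.o z
        have h2 : D.vec (Pi.single l 1) = D.lat l := by
          unfold TH.vec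
          rw [Finset.sum_eq_single l]
          · simp
          · intro b _ hb
            rw [Pi.single_eq_of_ne hb]
            simp
          · intro h
            exact absurd (Finset.mem_univ _) h
        rw [← h1, h2])
    (fun j z => eval (D.fv z) (y (em j))) (∑ j, κ j)
    (fun j z => G j z * D.th D.o z ^ (∑ j, κ j - κ j))
    (fun j => (hG j).mul ((hD.diff D.o).pow _))
    (fun j z hz => by
      rw [← hA j z hz, mul_assoc, ← pow_add, Nat.add_sub_cancel' (hκ j)])
    (fun j l z hz => hper j l z hz)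
  have hinj : Function.Injective em := fun x y h => by
    have := congrArg Fin.val h
    exact Fin.ext this
  have h3 : rename em P = 0 := by
    apply hind
    intro z hz
    rw [eval_aeval, eval_rename]
    exact hP0 z hz
  exact hP (rename_injective em hinj (by rw [h3, map_zero]))

end DIMM

open DIMM in
theorem specDIM (hNOE : SpecNOE) (hCNT : SpecCNT) (hBAS : SpecBAS) (hSRG : SpecSRG) :
    SpecDIM := by
  classical
  intro Z I Λ _ _ _ D hD
  obtain ⟨-, -, -, hprime, -⟩ := hBAS D hD
  obtain ⟨s, y, Q, a, hind, hQ⟩ := hNOE D.nf hprime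
  have hroot : ∀ i z, D.th D.o z ≠ 0 → ((Q i).map (eval (yk D y z))).eval (D.f i z) = 0 := by
    intro i z hz
    rw [root_eq]
    exact (hQ i).2.1 z hz
  have hbez : ∀ i, ∃ u v : Polynomial (MvPolynomial (Fin s) ℂ),
      Polynomial.C (a i) = u * Q i + v * Polynomial.derivative (Q i) := fun i => (hQ i).2.2.2
  have ha : ∏ i, a i ≠ 0 := Finset.prod_ne_zero_iff.2 fun i _ => (hQ i).2.2.1
  -- a good point
  obtain ⟨z₀, hz₀, hz₀'⟩ : ∃ z, D.th D.o z ≠ 0 ∧ eval (yk D y z) (∏ i, a i) ≠ 0 := by
    by_contra hcon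
    push Not at hcon
    apply ha
    apply hind
    intro z hz
    rw [eval_aeval]
    exact hcon z hz
  have hle : Fintype.card Z ≤ s := by
    have h1 := unram D hD hBAS hSRG y Q a hroot hbez z₀ hz₀ (fun i h => hz₀' (by
      rw [map_prod]
      exact Finset.prod_eq_zero (Finset.mem_univ i) h))
    have h2 : Function.Injective (fderiv ℂ (yk D y) z₀ : (Z → ℂ) →ₗ[ℂ] (Fin s → ℂ)) := by
      rw [← LinearMap.ker_eq_bot, LinearMap.ker_eq_bot']
      intro v hv
      exact h1 v hv
    have h3 := LinearMap.finrank_le_finrank_of_injective h2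
    simpa using h3
  have hs : s = Fintype.card Z := le_antisymm (upper D hD hCNT hSRG y hind) hle
  let σ : Fin s ≃ Z := (Fintype.equivFinOfCardEq hs.symm).symm
  -- the evaluation after reindexing
  have hyv : ∀ z, yk D (fun k => y (σ.symm k)) z = yk D y z ∘ σ.symm := fun z => rfl
  have hren : ∀ (P : MvPolynomial (Fin s) ℂ) z,
      eval (yk D (fun k => y (σ.symm k)) z) (rename σ P) = eval (yk D y z) P := by
    intro P z
    rw [eval_rename, hyv, Function.comp_assoc, Equiv.symm_comp_self, Function.comp_id]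
  have hmap : ∀ (i : I) (z : Z → ℂ),
      ((Q i).map (rename σ : MvPolynomial (Fin s) ℂ →ₐ[ℂ] MvPolynomial Z ℂ).toRingHom).map
        (eval (yk D (fun k => y (σ.symm k)) z)) = (Q i).map (eval (yk D y z)) := by
    intro i z
    rw [Polynomial.map_map]
    congr 1
    exact RingHom.ext fun P => hren P z
  have hroot' : ∀ i z, D.th D.o z ≠ 0 →
      (((Q i).map (rename σ : MvPolynomial (Fin s) ℂ →ₐ[ℂ] MvPolynomial Z ℂ).toRingHom).map
        (eval (yk D (fun k => y (σ.symm k)) z))).eval (D.f i z) = 0 := by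
    intro i z hz
    rw [hmap]
    exact hroot i z hz
  refine ⟨⟨fun k => y (σ.symm k),
    fun i => (Q i).map (rename σ : MvPolynomial (Fin s) ℂ →ₐ[ℂ] MvPolynomial Z ℂ).toRingHom,
    rename σ (∏ i, a i)⟩, ?_, ?_, ?_, ?_, ?_⟩
  · intro P hP
    have h1 : rename σ.symm P = 0 := by
      apply hind
      intro z hz
      rw [eval_aeval, eval_rename]
      exact hP z hz
    exact rename_injective σ.symm σ.symm.injective (by rw [h1, map_zero])
  · intro i
    exact (hQ i).1.map _
  · intro i z hz
    exact hroot' i z hz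
  · intro h
    exact ha (rename_injective σ σ.injective (by
      show rename σ (∏ i, a i) = rename σ 0
      rw [map_zero]; exact h))
  · intro z hz hΔ
    refine unram D hD hBAS hSRG (fun k => y (σ.symm k))
      (fun i => (Q i).map (rename σ : MvPolynomial (Fin s) ℂ →ₐ[ℂ] MvPolynomial Z ℂ).toRingHom)
      (fun i => rename σ (a i)) hroot' (fun i => ?_) z hz (fun i h => ?_)
    · obtain ⟨u, v, huv⟩ := hbez i
      refine ⟨u.map (rename σ : MvPolynomial (Fin s) ℂ →ₐ[ℂ] MvPolynomial Z ℂ).toRingHom,
        v.map (rename σ : MvPolynomial (Fin s) ℂ →ₐ[ℂ] MvPolynomial Z ℂ).toRingHom, ?_⟩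
      have h1 := congrArg (Polynomial.map
        (rename σ : MvPolynomial (Fin s) ℂ →ₐ[ℂ] MvPolynomial Z ℂ).toRingHom) huv
      rw [Polynomial.map_C, Polynomial.map_add, Polynomial.map_mul, Polynomial.map_mul,
        ← Polynomial.derivative_map] at h1
      exact h1
    · apply hΔ
      show eval (yk D (fun k => y (σ.symm k)) z) (rename σ (∏ i, a i)) = 0
      rw [map_prod, map_prod]
      exact Finset.prod_eq_zero (Finset.mem_univ i) h

end Pool.Agent.Lib.MPf11a48.AS
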