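import Pool.Agent.Lib.MP_f11a48_ag.AS.SpecR
import Pool.Agent.Lib.MP_f11a48_ag.U.Der

/-! # Module DQS: spaces of matrices over `Qbar` and derivations -/

set_option autoImplicit false

open Matrix MvPolynomial Pool.Agent.Lib.MPf11a48.CM Pool.Agent.Lib.MPf11a48.GL2T
open Pool.Agent.Lib.MPf11a48.U (DerM.defQbar DerM.d_zero_of_mem)

namespace Pool.Agent.Lib.MPf11a48.AS

namespace DQSM

theorem map_mem {ι κ : Type} (δ : Derivation Qbar ℂ ℂ) (V : Submodule ℂ (Matrix ι κ ℂ))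
    (hV : QSpan V) {X : Matrix ι κ ℂ} (hX : X ∈ V) : X.map δ ∈ V := by
  have hle : Submodule.span ℂ {Y : Matrix ι κ ℂ | Y ∈ V ∧ ∀ i j, Y i j ∈ Qbar} ≤ V :=
    Submodule.span_le.2 fun Y hY => hY.1
  have h := hV X hX
  clear hX
  induction h using Submodule.span_induction with
  | mem Y hY =>
    have : Y.map δ = 0 := by
      ext i j
      exact DerM.d_zero_of_mem δ (hY.2 i j)
    rw [this]
    exact V.zero_mem
  | zero =>
    have : (0 : Matrix ι κ ℂ).map δ = 0 := by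
      ext i j
      simp
    rw [this]
    exact V.zero_mem
  | add Y Z hY hZ h1 h2 =>
    have : (Y + Z).map δ = Y.map δ + Z.map δ := by
      ext i j
      simp
    rw [this]
    exact V.add_mem h1 h2
  | smul a Y hY h1 =>
    have : (a • Y).map δ = a • Y.map δ + δ a • Y := by
      ext i j
      simp only [Matrix.map_apply, Matrix.smul_apply, Matrix.add_apply, smul_eq_mul,
        Derivation.leibniz]
      ring
    rw [this]
    exact V.add_mem (V.smul_mem _ h1) (V.smul_mem _ (hle hY))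

/-- the entries of a matrix as a vector -/
def vl (ι κ : Type) : Matrix ι κ ℂ ≃ₗ[ℂ] (ι × κ → ℂ) where
  toFun X := fun p => X p.1 p.2
  invFun w := fun i j => w (i, j)
  map_add' _ _ := rfl
  map_smul' _ _ := rfl
  left_inv _ := rfl
  right_inv _ := rfl

theorem qspan {ι κ : Type} [Fintype ι] [Fintype κ] (V : Submodule ℂ (Matrix ι κ ℂ))
    (hV : ∀ δ : Derivation Qbar ℂ ℂ, ∀ X ∈ V, X.map δ ∈ V) : QSpan V := by
  let W : Submodule ℂ (ι × κ → ℂ) := V.comap (vl ι κ).symm.toLinearMap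
  have hW : ∀ δ : Derivation Qbar ℂ ℂ, ∀ w ∈ W, (fun j => δ (w j)) ∈ W := by
    intro δ w hw
    exact hV δ _ hw
  have h1 : W = Submodule.span ℂ {w | w ∈ W ∧ ∀ j, w j ∈ Qbar} := DerM.defQbar W hW
  intro X hX
  have h2 : (vl ι κ) X ∈ W := hX
  rw [h1] at h2
  have h3 : (vl ι κ).symm ((vl ι κ) X) ∈
      (Submodule.span ℂ {w | w ∈ W ∧ ∀ j, w j ∈ Qbar}).map (vl ι κ).symm.toLinearMap :=
    Submodule.mem_map_of_mem h2
  rw [LinearEquiv.symm_apply_apply, Submodule.map_span] at h3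
  refine Submodule.span_mono ?_ h3
  rintro _ ⟨w, hw, rfl⟩
  exact ⟨hw.1, fun i j => hw.2 (i, j)⟩

end DQSM

theorem specDQS : SpecDQS := by
  intro ι _ _ V
  exact ⟨DQSM.qspan V, fun h δ X hX => DQSM.map_mem δ V h hX⟩

end Pool.Agent.Lib.MPf11a48.AS
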