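import Pool.Agent.Lib.MP_f11a48_ag.AS.SpecE

/-!
# Project AS, module EMB: the embedding given by a Hodge substructure
-/

set_option autoImplicit false

open Matrix MvPolynomial Pool.Agent.Lib.MPf11a48.CM Pool.Agent.Lib.MPf11a48.GL2T
open Filter Topology
open Pool.Agent.Lib.MPf11a48.U (AbData Ix EndAlg ComAlg mR mC HDAM.JM)

namespace Pool.Agent.Lib.MPf11a48.AS

namespace EMBM

/-- Linear independence over `ℚ` and over `ℝ`. -/
theorem real_indep {ι : Type} [Fintype ι] {n : ℕ} (v : Fin n → ι → ℚ)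
    (hv : LinearIndependent ℚ v) (t : Fin n → ℝ) (h : ∀ i, ∑ l, t l * (v l i : ℝ) = 0) :
    t = 0 := by
  classical
  obtain ⟨W, hW⟩ := LinearMap.exists_leftInverse_of_injective (Fintype.linearCombination ℚ v)
    (LinearMap.ker_eq_bot.2 hv.fintypeLinearCombination_injective)
  have h1 : ∀ l' l, ∑ i, W (Pi.single i 1) l' * v l i = if l = l' then 1 else 0 := by
    intro l' l
    have h2 : W (v l) = Pi.single l 1 := by
      have h3 := LinearMap.congr_fun hW (Pi.single l 1)
      rw [LinearMap.comp_apply, Fintype.linearCombination_apply_single, one_smul,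
        LinearMap.id_apply] at h3
      exact h3
    have h4 : v l = ∑ i, v l i • (Pi.single i 1 : ι → ℚ) := by
      funext k
      simp [Finset.sum_apply, Pi.single_apply]
    have h5 : W (v l) l' = ∑ i, W (Pi.single i 1) l' * v l i := by
      conv_lhs => rw [h4]
      rw [map_sum, Finset.sum_apply]
      refine Finset.sum_congr rfl fun i _ => ?_
      rw [map_smul, Pi.smul_apply, smul_eq_mul, mul_comm]
    rw [← h5, h2, Pi.single_apply]
    simp only [eq_comm]
  funext l'
  have h2 : t l' = ∑ i, (W (Pi.single i 1) l' : ℝ) * ∑ l, t l * (v l i : ℝ) := by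
    simp only [Finset.mul_sum]
    rw [Finset.sum_comm]
    have h3 : ∀ l, ∑ i, (W (Pi.single i 1) l' : ℝ) * (t l * (v l i : ℝ)) =
        t l * if l = l' then 1 else 0 := by
      intro l
      have h4 := congrArg (fun x : ℚ => (x : ℝ)) (h1 l' l)
      simp only [Rat.cast_sum, Rat.cast_mul] at h4
      have h5 : (((if l = l' then 1 else 0 : ℚ)) : ℝ) = if l = l' then 1 else 0 := by
        split_ifs <;> simp
      rw [← h5, ← h4, Finset.mul_sum]
      exact Finset.sum_congr rfl fun i _ => by ring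
    simp only [h3]
    simp
  rw [h2]
  simp [h]

/-- Descent from `ℝ` to `ℚ`. -/
theorem descend {g : ℕ} (N : Submodule ℚ (Matrix (Ix g) (Ix g) ℚ)) (Z : Matrix (Ix g) (Ix g) ℚ)
    (h : mR Z ∈ Submodule.span ℝ {Y : Matrix (Ix g) (Ix g) ℝ | ∃ X' ∈ N, Y = mR X'}) :
    Z ∈ N := by
  classical
  by_contra hZ
  obtain ⟨φ, hφ, hN⟩ := Submodule.exists_le_ker_of_notMem hZ
  have hφe : ∀ X : Matrix (Ix g) (Ix g) ℚ, φ X = ∑ i, ∑ k, φ (Matrix.single i k 1) * X i k := by
    intro X
    conv_lhs => rw [Matrix.matrix_eq_sum_single X]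
    rw [map_sum]
    refine Finset.sum_congr rfl fun i _ => ?_
    rw [map_sum]
    refine Finset.sum_congr rfl fun k _ => ?_
    have h1 : Matrix.single i k (X i k) = X i k • Matrix.single i k (1 : ℚ) := by
      rw [Matrix.smul_single, smul_eq_mul, mul_one]
    rw [h1, map_smul, smul_eq_mul, mul_comm]
  let ψ : Matrix (Ix g) (Ix g) ℝ →ₗ[ℝ] ℝ :=
    { toFun := fun Y => ∑ i, ∑ k, (φ (Matrix.single i k 1) : ℝ) * Y i k
      map_add' := fun Y Y' => by
        simp only [Matrix.add_apply, mul_add, Finset.sum_add_distrib]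
      map_smul' := fun r Y => by
        simp only [Matrix.smul_apply, smul_eq_mul, Finset.mul_sum, RingHom.id_apply]
        refine Finset.sum_congr rfl fun i _ => Finset.sum_congr rfl fun k _ => ?_
        ring }
  have hψ : ∀ X : Matrix (Ix g) (Ix g) ℚ, ψ (mR X) = (φ X : ℝ) := by
    intro X
    rw [hφe X]
    push_cast
    rfl
  have h1 : Submodule.span ℝ {Y : Matrix (Ix g) (Ix g) ℝ | ∃ X' ∈ N, Y = mR X'} ≤
      LinearMap.ker ψ := by
    rw [Submodule.span_le]
    rintro _ ⟨X', hX', rfl⟩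
    rw [SetLike.mem_coe, LinearMap.mem_ker, hψ, LinearMap.mem_ker.1 (hN hX'), Rat.cast_zero]
  have h2 := LinearMap.mem_ker.1 (h1 h)
  rw [hψ] at h2
  exact hφ (by exact_mod_cast h2)

/-- `Ph` of an integral matrix -/
theorem Ph_int {g N : ℕ} (A : AbData g N) (Y : Matrix (Ix g) (Ix g) ℤ) (k : Ix g) :
    Ph A (mR (Y.map fun x => (x : ℚ))) k = ∑ m, (Y k m : ℂ) • A.lat m := by
  unfold Ph
  refine Finset.sum_congr rfl fun m _ => ?_
  simp

end EMBM

open EMBM in
/-- Module EMB. -/
theorem specEMB (hUDF : SpecUDF) (hLAT : SpecLAT) : SpecEMB := by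
  intro K g N A c hK hA hc N₀ N₁ hJ₀ hJ₁ hcompl R hR
  classical
  obtain ⟨β, u, hu, hualg, hfr, hPh, hPhr⟩ := hUDF K g N A c hK hA hc N₀ N₁ hJ₀ hJ₁ hcompl
  -- the integral basis
  let e : Matrix (Ix g) (Ix g) ℚ ≃ₗ[ℚ] (Ix g × Ix g → ℚ) := (LinearEquiv.curry ℚ ℚ (Ix g) (Ix g)).symm
  have he : ∀ (X : Matrix (Ix g) (Ix g) ℚ) (p : Ix g × Ix g), e X p = X p.1 p.2 := fun X p => rfl
  have hmem : ∀ Y : Ix g × Ix g → ℚ, Y ∈ N₁.map e.toLinearMap ↔
      (Matrix.of fun k m => Y (k, m)) ∈ N₁ := by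
    intro Y
    rw [Submodule.mem_map_equiv]
    rfl
  obtain ⟨X', hX'N, hX'i, hX's⟩ := hLAT (N₁.map e.toLinearMap)
  have hfin : Module.finrank ℚ (N₁.map e.toLinearMap) = 2 * β := by
    rw [← hfr]
    exact LinearEquiv.finrank_map_eq e N₁
  let X : Fin (2 * β) → Ix g → Ix g → ℤ := fun l k m => X' (Fin.cast hfin.symm l) (k, m)
  have hXN : ∀ l, (Matrix.of fun k m => (X l k m : ℚ)) ∈ N₁ := fun l =>
    (hmem _).1 (hX'N (Fin.cast hfin.symm l))
  have hXs : ∀ Y : Matrix (Ix g) (Ix g) ℤ, Y.map (fun x => (x : ℚ)) ∈ N₁ →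
      ∃ x : Fin (2 * β) → ℤ, ∀ k m, Y k m = ∑ l, x l * X l k m := by
    intro Y hY
    obtain ⟨x, hx⟩ := hX's (fun p => Y p.1 p.2) ((hmem _).2 hY)
    refine ⟨fun l => x (Fin.cast hfin.symm l), fun k m => ?_⟩
    have h1 := hx (k, m)
    rw [← Equiv.sum_comp (finCongr hfin.symm)] at h1
    exact h1
  have hXi : ∀ t : Fin (2 * β) → ℝ, (∀ k m, ∑ l, t l * (X l k m : ℝ) = 0) → t = 0 := by
    intro t ht
    have h1 : LinearIndependent ℚ fun (l : Fin (2 * β)) (p : Ix g × Ix g) =>
        ((X' (Fin.cast hfin.symm l) p : ℤ) : ℚ) := hX'i.comp _ (Fin.cast_injective hfin.symm)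
    apply real_indep _ h1
    rintro ⟨k, m⟩
    have h2 := ht k m
    push_cast
    exact h2
  -- the lattice vectors
  have hrange : LinearMap.range (Fintype.linearCombination ℂ u) = Submodule.span ℂ (Set.range u) :=
    Fintype.range_linearCombination ℂ u
  have hlat : ∀ l, ∃ s : Fin β → ℂ, ∀ k, Fintype.linearCombination ℂ u s k =
      ∑ m, (X l k m : ℂ) • A.lat m := by
    intro l
    have h1 := hPh _ (hXN l)
    rw [← hrange] at h1
    obtain ⟨s, hs⟩ := h1
    refine ⟨s, fun k => ?_⟩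
    rw [hs]
    exact Ph_int A (Matrix.of (X l)) k
  choose lat hlat using hlat
  have hinj : Function.Injective (Fintype.linearCombination ℂ u) :=
    hu.fintypeLinearCombination_injective
  refine ⟨β, ⟨u, X, lat, fun k y => R y k⟩, ?_, fun k y => rfl, hXN, hXs, ?_⟩
  · refine ⟨hu, hualg, fun k y => hR y k, hlat, ?_, by simp, ?_⟩
    · rw [Fintype.linearIndependent_iff]
      intro t ht
      have h1 : ∀ k, ∑ m, ((∑ l, t l * (X l k m : ℝ) : ℝ) : ℂ) • A.lat m = 0 := by
        intro k
        have h2 : Fintype.linearCombination ℂ u (∑ l, t l • lat l) k = 0 := by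
          rw [ht, map_zero]; rfl
        have h3 : ∑ l, t l • lat l = ∑ l, (t l : ℂ) • lat l := by
          refine Finset.sum_congr rfl fun l _ => ?_
          rw [Complex.coe_smul]
        rw [h3, map_sum, Finset.sum_apply] at h2
        rw [← h2]
        have h4 : ∀ l, (Fintype.linearCombination ℂ u ((t l : ℂ) • lat l)) k =
            ∑ m, ((t l : ℂ) * (X l k m : ℂ)) • A.lat m := by
          intro l
          rw [map_smul, Pi.smul_apply, hlat, Finset.smul_sum]
          exact Finset.sum_congr rfl fun m _ => smul_smul _ _ _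
        simp only [h4]
        rw [Finset.sum_comm]
        refine Finset.sum_congr rfl fun m _ => ?_
        rw [← Finset.sum_smul]
        congr 1
        push_cast
        rfl
      have h2 : ∀ k m, ∑ l, t l * (X l k m : ℝ) = 0 := by
        intro k m
        have h3 := h1 k
        simp only [U.HDAM.real_smul] at h3
        exact Fintype.linearIndependent_iff.1 hA.lat_indep _ h3 m
      intro l
      exact congrFun (hXi t h2) l
    · intro Y s hY
      have h1 : Ph A (mR ((Matrix.of Y).map fun x => (x : ℚ))) ∈ Submodule.span ℂ (Set.range u) := by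
        rw [← hrange]
        refine ⟨s, ?_⟩
        funext k
        rw [Ph_int]
        exact hY k
      have h2 := descend N₁ _ (hPhr _ h1)
      obtain ⟨x, hx⟩ := hXs _ h2
      refine ⟨x, hinj ?_⟩
      funext k
      have h3 : (Fintype.linearCombination ℂ u) (∑ l, (x l : ℂ) • lat l) k =
          ∑ l, (x l : ℂ) • ∑ m, (X l k m : ℂ) • A.lat m := by
        rw [map_sum, Finset.sum_apply]
        refine Finset.sum_congr rfl fun l _ => ?_
        rw [map_smul, Pi.smul_apply, hlat]
      rw [h3]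
      have h4 : (Fintype.linearCombination ℂ u) s k = ∑ m, (Y k m : ℂ) • A.lat m := hY k
      rw [h4]
      simp only [Finset.smul_sum, smul_smul]
      rw [Finset.sum_comm]
      refine Finset.sum_congr rfl fun m _ => ?_
      rw [← Finset.sum_smul]
      congr 1
      have h5 : Y k m = ∑ l, x l * X l k m := hx k m
      rw [h5]
      push_cast
      rfl
  · intro Z hZ
    apply hPhr
    rw [← hrange]
    exact hZ

end Pool.Agent.Lib.MPf11a48.AS
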