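import Pool.Agent.Lib.MP_f11a48_ag.AS.SpecE

/-! # MP_f11a48_ag, project AS: module END -/

set_option autoImplicit false

open Matrix MvPolynomial Pool.Agent.Lib.MPf11a48.CM Pool.Agent.Lib.MPf11a48.GL2T
open Filter Topology
open Pool.Agent.Lib.MPf11a48.U (AbData Ix EndAlg ComAlg mR mC HDAM.JM)

namespace Pool.Agent.Lib.MPf11a48.AS

theorem specEND (hENQ : SpecENQ) (hAUT : SpecAUT) : SpecEND := by
  intro K g N A c hK hA hc B hB
  have hcc : c.1 * c⁻¹.1 = 1 := Units.mul_inv c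
  have hcc' : c⁻¹.1 * c.1 = 1 := Units.inv_mul c
  refine ⟨c⁻¹.1 * mC B * c.1, ?_, ?_⟩
  · intro i j
    refine hAUT.2 _ ?_
    have : Countable (Matrix (Ix g) (Ix g) ℚ) := inferInstanceAs (Countable (Ix g → Ix g → ℚ))
    refine (Set.countable_range fun B₂ : Matrix (Ix g) (Ix g) ℚ =>
      (c⁻¹.1 * mC B₂ * c.1) i j).mono ?_
    rintro w ⟨τ, hτ, rfl⟩
    obtain ⟨B₂, h2⟩ := hENQ K g N A c hK hA hc B hB τ hτ
    refine ⟨B₂, ?_⟩
    have h3 : (c⁻¹.1 * mC B * c.1).map τ = c⁻¹.1 * mC B₂ * c.1 := by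
      rw [Matrix.mul_assoc c⁻¹.1 (mC B₂) c.1, ← h2, ← Matrix.mul_assoc, hcc', Matrix.one_mul]
    change (c⁻¹.1 * mC B₂ * c.1) i j = τ ((c⁻¹.1 * mC B * c.1) i j)
    rw [← h3]
    rfl
  · rw [← Matrix.mul_assoc, ← Matrix.mul_assoc, hcc, Matrix.one_mul]

end Pool.Agent.Lib.MPf11a48.AS
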