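import Pool.Agent.Lib.MP_f11a48_ag.AS.SpecE
import Pool.Agent.Lib.MP_f11a48_ag.U.Gal
import Pool.Agent.Lib.MP_f11a48_ag.U.Conj
import Pool.Agent.Lib.MP_f11a48_ag.U.Orb

/-! # MP_f11a48_ag, project AS: module ENQ -/

set_option autoImplicit false

open Matrix MvPolynomial Pool.Agent.Lib.MPf11a48.CM Pool.Agent.Lib.MPf11a48.GL2T
open Filter Topology
open Pool.Agent.Lib.MPf11a48.U (AbData Ix EndAlg ComAlg mR mC HDAM.JM)

namespace Pool.Agent.Lib.MPf11a48.AS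

theorem specENQ (hENR : SpecENR) : SpecENQ := by
  intro K g N A c hK hA hc B hB τ hτ
  have hτK : ∀ a ∈ K, τ a = a := fun a ha => hτ a (hK ha)
  obtain ⟨B', hB'⟩ : ∃ B' : Matrix (Ix g) (Ix g) ℂ, B' = c⁻¹.1 * mC B * c.1 := ⟨_, rfl⟩
  have h : c.1 * B' = mC B * c.1 := by
    rw [hB', ← Matrix.mul_assoc, ← Matrix.mul_assoc]
    have h1 : c.1 * c⁻¹.1 = 1 := Units.mul_inv c
    rw [h1, Matrix.one_mul]
  rw [← hB']
  have hbl := U.GalM.blocks hc hB h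
  obtain ⟨P, hP⟩ : ∃ P, P = B'.toBlocks₁₁ := ⟨_, rfl⟩
  obtain ⟨Q, hQ⟩ : ∃ Q, Q = B'.toBlocks₁₂ := ⟨_, rfl⟩
  obtain ⟨S, hS⟩ : ∃ S, S = B'.toBlocks₂₂ := ⟨_, rfl⟩
  rw [← hP, ← hQ, ← hS] at hbl
  have hG := U.specGROW K g N A c hK hA hc
  obtain ⟨s, hs⟩ := U.Clos.exists_indices A.td hG ⊤ g (by rw [finrank_top]; simp)
  have hs' : ∀ b : Fin g → ℂ, (∀ v, ∑ k, b k * fderiv ℂ (A.f (s k)) 0 v = 0) → b = 0 :=
    fun b hb => hs b fun v _ => hb v
  rw [hbl] at h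
  obtain ⟨hr1, hr2⟩ := hENR K g N A c hA hc B hB P Q S h s
  have hinj : ∀ p : MvPolynomial (Option (Fin g)) ℂ, p ≠ 0 →
      MvPolynomial.map τ.toRingHom p ≠ 0 := by
    intro p hp h0
    apply hp
    apply MvPolynomial.map_injective τ.toRingHom τ.injective
    rw [h0, map_zero]
  obtain ⟨ho1, ho2⟩ := U.specORB K g N A hA s hs' (P.map τ) (Q.map τ) (S.map τ)
  obtain ⟨n, hn, hx⟩ := ho1 fun j => by
    obtain ⟨p, hp, hrel⟩ := hr1 j
    exact ⟨_, hinj p hp, (U.specCONJ K g N A hA τ hτK P Q S s p).1 j hrel⟩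
  choose x hx using hx
  have hn' : (n : ℂ) ≠ 0 := Nat.cast_ne_zero.2 hn.ne'
  refine ⟨Matrix.of fun l l' => (x l l' : ℚ) / n, ?_⟩
  have hmap : B'.map τ = Matrix.fromBlocks (P.map τ) (Q.map τ) 0 (S.map τ) := by
    rw [hbl, Matrix.fromBlocks_map]
    congr 1
    ext i j
    simp
  rw [hmap]
  ext l y
  have hR : (mC (Matrix.of fun l l' => (x l l' : ℚ) / n) * c.1) l y =
      (n : ℂ)⁻¹ * ∑ l', (x l l' : ℂ) * A.per l' y := by
    rw [Matrix.mul_apply, hc, Finset.mul_sum]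
    refine Finset.sum_congr rfl fun l' _ => ?_
    simp only [Matrix.map_apply, Matrix.of_apply]
    push_cast
    ring
  rw [hR, eq_inv_mul_iff_mul_eq₀ hn']
  rcases y with j | t
  · have h1 := congrFun (hx l) j
    simp only [Pi.smul_apply, smul_eq_mul, Finset.sum_apply] at h1
    rw [Matrix.mul_apply, Fintype.sum_sum_type, hc]
    simp only [Matrix.fromBlocks_apply₁₁, Matrix.fromBlocks_apply₂₁, Matrix.zero_apply, mul_zero,
      Finset.sum_const_zero, add_zero, AbData.per, Sum.elim_inl]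
    exact h1
  · have h1 := ho2 t (by
      obtain ⟨p, hp, hrel⟩ := hr2 t
      exact ⟨_, hinj p hp, (U.specCONJ K g N A hA τ hτK P Q S s p).2 t hrel⟩) n l (x l) (hx l)
    rw [Matrix.mul_apply, Fintype.sum_sum_type, hc]
    simp only [Matrix.fromBlocks_apply₁₂, Matrix.fromBlocks_apply₂₂, AbData.per, Sum.elim_inl,
      Sum.elim_inr]
    exact h1.symm

end Pool.Agent.Lib.MPf11a48.AS
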