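import Pool.Agent.Lib.MP_f11a48_ag.AS.Defs

/-!
# Project AS, block F (foundations): theta functions, Noether normalisation, the Nullstellensatz

Paper: /team-store/MP_f11a48_ag_AST.md, section 2. Throughout `D : TH Z I Λ` is good, `N` is a good
Noether normalisation, `V' = {th_o ≠ 0}`, `Ω = {Δ ≠ 0} ⊆ ℂ^Z`. All modules may take any `Spec` as
a hypothesis.
-/

set_option autoImplicit false

open MvPolynomial Pool.Agent.Lib.MPf11a48.CM Filter Topology Asymptotics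

namespace Pool.Agent.Lib.MPf11a48.AS

/-! ## General lemmas -/

/-- Module SCH (Schwarz lemma on lines, 60 lines). Proof: `g(s) = H(z₀ + s (z - z₀))` is entire on
`ℂ`, `g(s) = O(|s|^T)` at `0`, so `g(s) = s^T h(s)` with `h` entire (if `z = z₀` treat separately:
`T = 0` trivial, `T > 0`: `H z₀ = 0`), and `|h(1)| ≤ max_{|s|=3} |h| ≤ 3^{-T} B`. -/
def SpecSCH : Prop :=
  ∀ {E : Type} [NormedAddCommGroup E] [NormedSpace ℂ E] (H : E → ℂ), Differentiable ℂ H →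
    ∀ (z₀ z : E) (T : ℕ) (B : ℝ), (H =O[𝓝 z₀] fun w => ‖w - z₀‖ ^ T) →
      (∀ s : ℂ, ‖s‖ ≤ 3 → ‖H (z₀ + s • (z - z₀))‖ ≤ B) → ‖H z‖ ≤ (1 / 3 : ℝ) ^ T * B

/-- Module JET (150 lines): `T^β` linear conditions force an entire function to vanish to order `T`
at `z₀`. Proof: transport to `Fin r → ℂ`; the functionals are `F ↦` (iterated partial derivative of
`F` at `z₀`, `b_k` times in the direction `e_k`, in a fixed order), `b_k < T`. If all are `0`, all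
iterated partial derivatives of order `< T` at `z₀` are `0` (they commute), so
`F = O(‖z - z₀‖^T)` (`AnaM.bigO_succ` in `U/Ana.lean`, or `HolM.van_of_deriv` in `U/Hol.lean`). -/
def SpecJET : Prop :=
  ∀ {Z : Type} [Fintype Z] (z₀ : Z → ℂ) (T : ℕ), ∃ φ : (Z → Fin T) → ((Z → ℂ) → ℂ) → ℂ,
    (∀ b F G, Differentiable ℂ F → Differentiable ℂ G →
      φ b (fun z => F z + G z) = φ b F + φ b G) ∧
    (∀ b (c : ℂ) F, Differentiable ℂ F → φ b (fun z => c * F z) = c * φ b F) ∧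
    ∀ F, Differentiable ℂ F → (∀ b, φ b F = 0) → F =O[𝓝 z₀] fun z => ‖z - z₀‖ ^ T

/-- Module POL (300 lines): a function which is analytic and of polynomial growth on the complement
`Ω` of a hypersurface is a polynomial. Proof: choose `y₀ ∈ Ω`. For `v ∈ ℂ^Z` the polynomial
`t ↦ Δ(y₀ + t v)` is not zero, so has finitely many zeros; `g_v(t) = h(y₀ + t v)` is analytic and
bounded near them, so it extends to an entire function (removable singularities) of polynomial growth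
of degree `≤ κ`, i.e. a polynomial of degree `≤ κ` in `t`. The Taylor series
`h(y₀ + v) = ∑ h_j(v)` (`h_j(v) = p_j(v, …, v)`, for small `v`) gives `g_v(t) = ∑_{j ≤ κ} t^j h_j(v)`
for small `t`, and hence for all `t` with `y₀ + t v ∈ Ω`; take `t = 1`. The `h_j` are polynomials. -/
def SpecPOL : Prop :=
  ∀ {Z : Type} [Fintype Z] (Δ : MvPolynomial Z ℂ) (h : (Z → ℂ) → ℂ) (C : ℝ) (κ : ℕ), Δ ≠ 0 →
    (∀ y, eval y Δ ≠ 0 → AnalyticAt ℂ h y ∧ ‖h y‖ ≤ C * (1 + ‖y‖) ^ κ) →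
    ∃ P : MvPolynomial Z ℂ, ∀ y, eval y Δ ≠ 0 → h y = eval y P

/-- Module CNT (counting lemma, 250 lines; uses SCH, JET and `Clos.near` of `U/Clos.lean`). Proof:
let `w(z₀) ≠ 0`, `β = card Z`, `n = β + 1`, `k` the exponent, `N = n D`. For
`c : (Fin n → Fin D) → ℂ` the function `H = w^{kN} ∑ c_a A^a = ∑ c_a w^{k(N - |a|)} ∏ G_j^{a_j}` is
entire, and `H(z + μ) = e_μ(z)^{kN} H(z)` for lattice vectors `μ` (`e_μ` product of translates of the
`e_l` and their inverses; first where `w ≠ 0`, which is dense). Let `R ≥ 1` be such that every vector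
is within `R` of the lattice, and `E ≥ 1` a bound for `|e_μ(z)|`, `‖z - z₀‖ ≤ R`, `‖μ‖ ≤ 4 R`
(finitely many `μ`). So `max_{‖z - z₀‖ ≤ 3R} |H| ≤ E^{kN} max_{‖z - z₀‖ ≤ R} |H|`. Choose `T` with
`3^T > E^{kN}`, `T ≤ C D`, `C` independent of `D`; for `D` large `D^n > T^β`, so some `c ≠ 0` satisfies
the linear conditions of JET; SCH gives `max_R |H| ≤ 3^{-T} E^{kN} max_R |H|`, so `H = 0` on the ball,
so everywhere. -/
def SpecCNT : Prop :=
  ∀ {Z Λ : Type} [Fintype Z] [Fintype Λ] (lat : Λ → (Z → ℂ)), LinearIndependent ℝ lat →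
    Fintype.card Λ = 2 * Fintype.card Z →
    ∀ w : (Z → ℂ) → ℂ, Differentiable ℂ w → (∃ z, w z ≠ 0) →
    (∀ l, ∃ e : (Z → ℂ) → ℂ, Continuous e ∧ (∀ z, e z ≠ 0) ∧ ∀ z, w (z + lat l) = e z * w z) →
    ∀ (A : Fin (Fintype.card Z + 1) → (Z → ℂ) → ℂ) (k : ℕ)
      (G : Fin (Fintype.card Z + 1) → (Z → ℂ) → ℂ),
      (∀ j, Differentiable ℂ (G j)) → (∀ j z, w z ≠ 0 → A j z * w z ^ k = G j z) →
      (∀ j l z, w z ≠ 0 → A j (z + lat l) = A j z) →
      ∃ P : MvPolynomial (Fin (Fintype.card Z + 1)) ℂ, P ≠ 0 ∧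
        ∀ z, w z ≠ 0 → eval (fun j => A j z) P = 0

/-- Module NOE (pure algebra, 200 lines). Proof: Noether normalisation of the domain
`R = ℂ[X_i] / 𝔫` (Mathlib: `exists_integral_inj_algHom_of_fg`). With `A₀ = ℂ[Y] ⊆ R` integrally closed,
`Q i` = the minimal polynomial of (the class of) `X_i` over `A₀` (`minpoly A₀ x`; over the fraction
field it is the same, irreducible, so separable): monic. As `Q_i`, `Q_i'` are coprime over the fraction
field, clearing denominators gives `a_i ≠ 0`, `u`, `v`. -/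
def SpecNOE : Prop :=
  ∀ {I : Type} [Fintype I] (n : Ideal (MvPolynomial I ℂ)), n.IsPrime →
    ∃ (s : ℕ) (y : Fin s → MvPolynomial I ℂ) (Q : I → Polynomial (MvPolynomial (Fin s) ℂ))
      (a : I → MvPolynomial (Fin s) ℂ),
      (∀ P : MvPolynomial (Fin s) ℂ, aeval y P ∈ n → P = 0) ∧
      ∀ i, (Q i).Monic ∧
        (Q i).eval₂ (aeval y : MvPolynomial (Fin s) ℂ →ₐ[ℂ] MvPolynomial I ℂ).toRingHom (X i) ∈ n ∧
        a i ≠ 0 ∧ ∃ u v : Polynomial (MvPolynomial (Fin s) ℂ),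
          Polynomial.C (a i) = u * Q i + v * Polynomial.derivative (Q i)

/-! ## Theta functions -/

/-- Module BAS (200 lines): basic properties of theta data. (1) periodicity; (2) analyticity (Osgood:
`U/Osgood.lean`); (3) an entire function which is `0` on `V'` is `0`; (4) `𝔫_f` is prime (if
`P Q ∈ 𝔫_f` the entire functions `th_o^a P(f)`, `th_o^b Q(f)` have product `0`; entire functions are a
domain: `Orb.ent_mul`); (5) affine form of the immersion: if `df_i(v) = 0` for all `i` then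
`∂_v th_i = th_i (∂_v th_o) / th_o` for all `i`; (6) injectivity; (7) elements of `S` are periodic for
all lattice vectors; (8) representatives in a ball (`Clos.near`). -/
def SpecBAS : Prop :=
  ∀ {Z I Λ : Type} [Fintype Z] [Fintype I] [Fintype Λ] (D : TH Z I Λ), D.Good →
    (∀ (x : Λ → ℤ) (z : Z → ℂ), (D.th D.o (z + D.vec x) ≠ 0 ↔ D.th D.o z ≠ 0) ∧
      D.fv (z + D.vec x) = D.fv z) ∧
    (∀ i z, D.th D.o z ≠ 0 → AnalyticAt ℂ (D.f i) z) ∧
    (∀ F : (Z → ℂ) → ℂ, Differentiable ℂ F → (∀ z, D.th D.o z ≠ 0 → F z = 0) → ∀ z, F z = 0) ∧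
    D.nf.IsPrime ∧
    (∀ z v, D.th D.o z ≠ 0 → (∀ i, fderiv ℂ (D.f i) z v = 0) → v = 0) ∧
    (∀ z w, D.th D.o z ≠ 0 → D.th D.o w ≠ 0 → D.fv z = D.fv w → ∃ x : Λ → ℤ, z - w = D.vec x) ∧
    (∀ A, D.IsS A → ∀ (x : Λ → ℤ) z, D.th D.o z ≠ 0 → A (z + D.vec x) = A z) ∧
    ∃ R : ℝ, 1 ≤ R ∧ ∀ z, ∃ x : Λ → ℤ, ‖z + D.vec x‖ ≤ R

/-- Module SRG (100 lines): `S` is a ring which contains the polynomials in the `f_i`; the elements
of `S` are analytic on `V'`. -/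
def SpecSRG : Prop :=
  ∀ {Z I Λ : Type} [Fintype Z] [Fintype I] [Fintype Λ] (D : TH Z I Λ), D.Good →
    (∀ P : MvPolynomial I ℂ, D.IsS fun z => eval (D.fv z) P) ∧
    (∀ A B, D.IsS A → D.IsS B → D.IsS fun z => A z + B z) ∧
    (∀ A B, D.IsS A → D.IsS B → D.IsS fun z => A z * B z) ∧
    ∀ A, D.IsS A → ∀ z, D.th D.o z ≠ 0 → AnalyticAt ℂ A z

/-- Module DIM (250 lines; uses NOE, CNT, BAS, SRG): existence of Noether normalisations with
`y : Z → ℂ[f]`. Proof: NOE for `𝔫_f`; `Δ = ∏ a_i`, `y(z)` the functions. At `z ∈ V'` with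
`Δ(y(z)) ≠ 0` the map `v ↦ dy(v)` is injective: `Q_i(y(z), f_i(z)) = 0` gives
`Q_i'(y, f_i) df_i(v) + ∑_k (∂_k Q_i)(y, f_i) dy_k(v) = 0`, and `a_i(y) = v(y,f_i) Q_i'(y,f_i) ≠ 0`, so
`df_i(v) = 0` for all `i`, `v = 0` (BAS 5). Such `z` exist (`Δ(y) ∉ 𝔫_f`), so `card Z ≤ s`. If
`s > card Z` then CNT (with `w = th_o`) for `card Z + 1` of the `y_k` contradicts their algebraic
independence. So `s = card Z`; reindex. -/
def SpecDIM : Prop :=
  ∀ {Z I Λ : Type} [Fintype Z] [Fintype I] [Fintype Λ] (D : TH Z I Λ), D.Good →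
    ∃ N : TH.Nor I Z, D.NorGood N

/-- Module GRW (200 lines): growth. Proof: the roots of a monic polynomial are at most
`1 + ∑ |coefficients|`, so `|f_i(z)| ≤ C (1 + ‖y(z)‖)^κ`. On the compact ball `‖z‖ ≤ R` some `|th_i|` is
`≥ c > 0` (no common zeros), so `c ≤ |f_i(z)| |th_o(z)|`. (2) For `A ∈ S`, `A th_o^k = G`, `|G|` is
bounded on a ball containing representatives of all points (BAS 8, 1, 7). -/
def SpecGRW : Prop :=
  ∀ {Z I Λ : Type} [Fintype Z] [Fintype I] [Fintype Λ] (D : TH Z I Λ), D.Good →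
    ∀ N : TH.Nor I Z, D.NorGood N →
    (∀ R : ℝ, ∃ (C : ℝ) (κ : ℕ), 0 < C ∧ ∀ z, ‖z‖ ≤ R → D.th D.o z ≠ 0 →
      1 ≤ C * (1 + ‖D.yv N z‖) ^ κ * ‖D.th D.o z‖) ∧
    ∀ A, D.IsS A → ∃ (C : ℝ) (κ : ℕ), 0 < C ∧ ∀ z, D.th D.o z ≠ 0 →
      ‖A z‖ ≤ C * (1 + ‖D.yv N z‖) ^ κ

/-- Module COV (350 lines; uses BAS, GRW): local structure of the map `y` over `Ω`. Proof: the vectors
`f(w)`, `y(w) = y₀`, form a finite set (roots of the `Q_i(y₀, T)`); choose representatives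
`w_1, …, w_d`. By the inverse function theorem (`fderiv` of `y` is injective, hence bijective, at `w_j`)
there are analytic `ζ_j` near `y₀` with `ζ_j(y₀) = w_j`, `y(ζ_j(y)) = y`; the `f(ζ_j(y))` are different
for `y` near `y₀`. Exhaustion: otherwise there are `w` with `‖w‖ ≤ R` (BAS 8), `y(w) → y₀`,
`f(w) ≠ f(ζ_j(y(w)))` for all `j`; take a cluster point `w⋆` (compactness); `th_o(w⋆) ≠ 0` by GRW (1),
`y(w⋆) = y₀`, so `f(w⋆) = f(w_j)`, `w⋆ = w_j + μ`; for `w` near `w⋆`, `w - μ` is near `w_j`, so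
`w - μ = ζ_j(y(w))` by local injectivity of `y`. Contradiction. -/
def SpecCOV : Prop :=
  ∀ {Z I Λ : Type} [Fintype Z] [Fintype I] [Fintype Λ] (D : TH Z I Λ), D.Good →
    ∀ N : TH.Nor I Z, D.NorGood N → ∀ y₀ : Z → ℂ, eval y₀ N.Δ ≠ 0 →
    ∃ (d : ℕ) (ζ : Fin d → (Z → ℂ) → (Z → ℂ)), (∀ j, AnalyticAt ℂ (ζ j) y₀) ∧
      ∀ᶠ y in 𝓝 y₀, D.Enum N y fun j => ζ j y

/-- Module CST (120 lines; uses COV): the number of points of the fibres over `Ω` is constant, and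
positive. Proof: it is locally constant by COV (two enumerations of the same fibre have the same
length). For `y, y' ∈ Ω` the set of `t ∈ ℂ` with `y + t (y' - y) ∈ Ω` is the complement of a finite set,
so connected. It is positive: there is `z ∈ V'` with `Δ(y(z)) ≠ 0`. -/
def SpecCST : Prop :=
  ∀ {Z I Λ : Type} [Fintype Z] [Fintype I] [Fintype Λ] (D : TH Z I Λ), D.Good →
    ∀ N : TH.Nor I Z, D.NorGood N →
    ∃ d : ℕ, 0 < d ∧ ∀ y, eval y N.Δ ≠ 0 → ∃ z : Fin d → (Z → ℂ), D.Enum N y z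

/-- Module SYM (150 lines; uses BAS, SRG, GRW, COV, POL): norms of elements of `S` are polynomials.
Proof: `h(y) = ∏_j A(z_j)` does not depend on the enumeration (`A(z)` depends only on `f(z)`), it is
analytic on `Ω` by COV and of polynomial growth by GRW (2). Apply POL. -/
def SpecSYM : Prop :=
  ∀ {Z I Λ : Type} [Fintype Z] [Fintype I] [Fintype Λ] (D : TH Z I Λ), D.Good →
    ∀ N : TH.Nor I Z, D.NorGood N → ∀ d : ℕ,
    (∀ y, eval y N.Δ ≠ 0 → ∃ z : Fin d → (Z → ℂ), D.Enum N y z) → ∀ A, D.IsS A →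
    ∃ P : MvPolynomial Z ℂ, ∀ y, eval y N.Δ ≠ 0 → ∀ z : Fin d → (Z → ℂ), D.Enum N y z →
      eval y P = ∏ j, A (z j)

/-- Module CHR (250 lines; uses BAS, SRG, SYM): characteristic polynomials. Proof: for `t = 0, …, d` let
`N_t` be the polynomial of SYM for `t - A`. There are rational numbers `λ_{k t}` such that the `k`-th
coefficient of a polynomial `g` of degree `≤ d` is `∑_t λ_{k t} g(t)` (Lagrange interpolation). Put
`χ = T^d + ∑_{k < d} (∑_t λ_{k t} N_t) T^k`. For `y ∈ Ω`, `χ(y, T) = ∏_j (T - A(z_j))`. So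
`χ(y(z), A(z)) = 0` if `y(z) ∈ Ω`, which is a dense subset of `V'` (`Δ(y) ∉ 𝔫_f`), and by continuity for
all `z ∈ V'`. -/
def SpecCHR : Prop :=
  ∀ {Z I Λ : Type} [Fintype Z] [Fintype I] [Fintype Λ] (D : TH Z I Λ), D.Good →
    ∀ N : TH.Nor I Z, D.NorGood N → ∀ d : ℕ, 0 < d →
    (∀ y, eval y N.Δ ≠ 0 → ∃ z : Fin d → (Z → ℂ), D.Enum N y z) → ∀ A, D.IsS A →
    ∃ χ : Polynomial (MvPolynomial Z ℂ), χ.Monic ∧ χ.natDegree = d ∧
      (∀ y, eval y N.Δ ≠ 0 → ∀ z : Fin d → (Z → ℂ), D.Enum N y z →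
        χ.map (eval y) = ∏ j, (Polynomial.X - Polynomial.C (A (z j)))) ∧
      ∀ z, D.th D.o z ≠ 0 → (χ.map (eval (D.yv N z))).eval (A z) = 0

/-- Module INT (50 lines; uses DIM, CST, CHR): the elements of `S` are integral over `ℂ[f]`. -/
def SpecINT : Prop :=
  ∀ {Z I Λ : Type} [Fintype Z] [Fintype I] [Fintype Λ] (D : TH Z I Λ), D.Good → ∀ A, D.IsS A →
    ∃ (n : ℕ) (c : Fin n → MvPolynomial I ℂ), ∀ z, D.th D.o z ≠ 0 →
      A z ^ n + ∑ k, eval (D.fv z) (c k) * A z ^ (k : ℕ) = 0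

/-- Module NSZ (Nullstellensatz, 300 lines; uses BAS, DIM, GRW, CST, CHR): a point which satisfies
all relations between the `f_i` is a point `f(z)`. Proof: let `y₀ = (y_k(x))_k`. The vectors `f(w)`,
`y(w) = y₀`, form a finite set (the `f_i(w)` are roots of `Q_i(y₀, T)`; here `Δ(y₀) = 0` is allowed).
Suppose `x` is not one of them; there is a linear form `l` on `ℂ^I` with
`g := l(f) - l(x) ≠ 0` at all of them (`l(x - f(w)) ≠ 0` for finitely many non-zero vectors). There are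
`c, ε > 0` such that `|g(w)| ≥ c` if `w ∈ V'`, `‖w‖ ≤ R`, `‖y(w) - y₀‖ ≤ ε`: otherwise take a cluster
point (`th_o ≠ 0` there by GRW). Let `χ` be the characteristic polynomial of `g` (CHR),
`c₀ = χ.coeff 0`; `|c₀(y)| = ∏ |g(z_j)| ≥ c^d` for `y ∈ Ω`, `‖y - y₀‖ ≤ ε`, (`z_j` may be moved to the
ball) so `c₀(y₀) ≠ 0` (`Ω` is dense, `c₀` continuous). But `χ(y(X), l(X) - l(x)) ∈ 𝔫_f` (last part of
CHR); its value at `X = x` is `χ(y₀, 0) = c₀(y₀)`, which must be `0`. -/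
def SpecNSZ : Prop :=
  ∀ {Z I Λ : Type} [Fintype Z] [Fintype I] [Fintype Λ] (D : TH Z I Λ), D.Good → ∀ x : I → ℂ,
    (∀ P ∈ D.nf, eval x P = 0) → ∃ z, D.th D.o z ≠ 0 ∧ D.fv z = x

/-- Module FRC (250 lines; uses BAS, SRG, DIM, CST, SYM, CHR): elements of `S` are quotients of
polynomials in the `f_i`. Proof: choose `y₁ ∈ Ω`, an enumeration `z_j` of its fibre, and a linear form
`l` with different values at the (different) vectors `f(z_j)`; `g := l(f)`. For `t, ε ∈ {0, …, d}` let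
`N_{t,ε}` be the polynomial of SYM for `t - g + ε A`. For `y ∈ Ω` it is
`∏_j (t - g(z_j) + ε A(z_j))`, a polynomial of degree `≤ d` in `ε`; its coefficient of `ε` is
`L(y,t) = ∑_j A(z_j) ∏_{k ≠ j} (t - g(z_k))`, a polynomial of degree `< d` in `t`. By interpolation in
`ε` and `t` there is `L ∈ ℂ[Y][T]` with these values. For `z ∈ V'` with `y(z) ∈ Ω` (so for all `z` by
density) `A(z) χ_g'(y(z), g(z)) = L(y(z), g(z))`. Take `a = χ_g'(y(f), g)`, `b = L(y(f), g)`; `a(f) ≠ 0`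
at the `z_j`. -/
def SpecFRC : Prop :=
  ∀ {Z I Λ : Type} [Fintype Z] [Fintype I] [Fintype Λ] (D : TH Z I Λ), D.Good → ∀ A, D.IsS A →
    ∃ a b : MvPolynomial I ℂ, a ∉ D.nf ∧
      ∀ z, D.th D.o z ≠ 0 → A z * eval (D.fv z) a = eval (D.fv z) b

/-! ## Products -/

/-- Module PRD (200 lines): products of good theta data are good. (`imm`: if `v = (v₁, v₂)`,
`v₁ ≠ 0`, use indices `(i, k)`, `(j, k)` with `th'_k ≠ 0`.) -/
def SpecPRD : Prop :=
  ∀ {Z I Λ Z' I' Λ' : Type} [Fintype Z] [Fintype I] [Fintype Λ] [Fintype Z'] [Fintype I']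
    [Fintype Λ'] (D : TH Z I Λ) (D' : TH Z' I' Λ'), D.Good → D'.Good → (D.prod D').Good

/-- Module LFT (lifting of germs, 250 lines; uses BAS, DIM, GRW, NSZ). Proof: for `u` near `u₀` there is
`γ_u` with `f(γ_u) = w(u)` (NSZ), and we may take `‖γ_u‖ ≤ R` (BAS 8). Let `γ = γ_{u₀}`. By BAS (5)
there are `s : Z → I` such that `G = (f_{s_k})` has invertible differential at `γ` (linear algebra), so
a local analytic inverse; `ζ(u) := G^{-1}((w_{s_k}(u))_k)`. Claim: for `u` near `u₀`, `f(γ_u) = f(ζ(u))`.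
Otherwise take a cluster point `γ⋆` of the `γ_u`, `u → u₀`: `th_o(γ⋆) ≠ 0` (GRW (1): `y(γ_u)` is the
value of polynomials at `w(u)`, so bounded), `f(γ⋆) = w(u₀) = f(γ)`, `γ⋆ = γ + μ`; then `γ_u - μ` is
near `γ` and `G(γ_u - μ) = w_s(u)`, so `γ_u - μ = ζ(u)`. -/
def SpecLFT : Prop :=
  ∀ {Z I Λ : Type} [Fintype Z] [Fintype I] [Fintype Λ] (D : TH Z I Λ), D.Good →
    ∀ (u₀ : ℂ) (w : I → ℂ → ℂ), (∀ i, AnalyticAt ℂ (w i) u₀) →
    (∀ᶠ u in 𝓝 u₀, ∀ P ∈ D.nf, eval (fun i => w i u) P = 0) →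
    ∃ ζ : ℂ → (Z → ℂ), AnalyticAt ℂ ζ u₀ ∧
      ∀ᶠ u in 𝓝 u₀, D.th D.o (ζ u) ≠ 0 ∧ D.fv (ζ u) = fun i => w i u

end Pool.Agent.Lib.MPf11a48.AS
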