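import Pool.Agent.Lib.MP_f11a48_ag.AS.SpecE
import Pool.Agent.Lib.MP_f11a48_ag.AS.SpecF
import Pool.Agent.Lib.MP_f11a48_ag.U.Conj
import Pool.Agent.Lib.MP_f11a48_ag.U.Orb

/-! # MP_f11a48_ag, project AS: module ENR -/

set_option autoImplicit false

open Matrix MvPolynomial Pool.Agent.Lib.MPf11a48.CM Pool.Agent.Lib.MPf11a48.GL2T
open Filter Topology
open Pool.Agent.Lib.MPf11a48.U (AbData Ix EndAlg ComAlg mR mC HDAM.JM)

namespace Pool.Agent.Lib.MPf11a48.AS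

namespace EnrM

/-- vectors with a continuous automorphy factor -/
def AutG {g : ℕ} (F : (Fin g → ℂ) → ℂ) : AddSubgroup (Fin g → ℂ) where
  carrier := {v | ∃ e : (Fin g → ℂ) → ℂ, Continuous e ∧ (∀ z, e z ≠ 0) ∧
    ∀ z, F (z + v) = e z * F z}
  zero_mem' := ⟨fun _ => 1, continuous_const, fun _ => one_ne_zero, fun z => by simp⟩
  add_mem' := by
    rintro v w ⟨e, h1, h2, h3⟩ ⟨e', k1, k2, k3⟩
    refine ⟨fun z => e' (z + v) * e z, (k1.comp (continuous_id.add continuous_const)).mul h1,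
      fun z => mul_ne_zero (k2 _) (h2 _), fun z => ?_⟩
    rw [← add_assoc, k3, h3, mul_assoc]
  neg_mem' := by
    rintro v ⟨e, h1, h2, h3⟩
    refine ⟨fun z => (e (z + -v))⁻¹,
      (h1.comp (continuous_id.add continuous_const)).inv₀ (fun z => h2 _),
      fun z => inv_ne_zero (h2 _), fun z => ?_⟩
    have h4 := h3 (z + -v)
    rw [neg_add_cancel_right] at h4
    rw [h4, inv_mul_cancel_left₀ (h2 _)]

theorem aut_gen {g N : ℕ} {K : IntermediateField ℚ ℂ} {A : AbData g N} (hA : A.IsAbVar K)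
    (l : Ix g) : A.lat l ∈ AutG (A.th 0) := by
  refine ⟨fun z => Complex.exp (A.a l z + A.b l), ?_, fun z => Complex.exp_ne_zero _,
    fun z => hA.th_aut l 0 z⟩
  exact Complex.continuous_exp.comp
    ((LinearMap.continuous_of_finiteDimensional (A.a l)).add continuous_const)

theorem aut_comb {g N : ℕ} {K : IntermediateField ℚ ℂ} {A : AbData g N} (hA : A.IsAbVar K)
    (x : Ix g → ℤ) : (∑ a, (x a : ℂ) • A.lat a) ∈ AutG (A.th 0) := by
  have h1 : (∑ a, (x a : ℂ) • A.lat a) = ∑ a, x a • A.lat a :=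
    Finset.sum_congr rfl fun a _ => Int.cast_smul_eq_zsmul ℂ _ _
  rw [h1]
  exact AddSubgroup.sum_mem _ fun a _ => AddSubgroup.zsmul_mem _ (aut_gen hA a) _

theorem aut_nat {g N : ℕ} {K : IntermediateField ℚ ℂ} {A : AbData g N} (hA : A.IsAbVar K)
    (n : ℕ) (l : Ix g) : ((n : ℂ) • A.lat l) ∈ AutG (A.th 0) := by
  rw [Nat.cast_smul_eq_nsmul]
  exact AddSubgroup.nsmul_mem _ (aut_gen hA l) n

/-- clearing denominators -/
theorem exists_int {g : ℕ} (B : Matrix (Ix g) (Ix g) ℚ) :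
    ∃ (n : ℕ) (x : Ix g → Ix g → ℤ), 0 < n ∧ ∀ l l', (n : ℂ) * (B l l' : ℂ) = (x l l' : ℂ) := by
  refine ⟨∏ p : Ix g × Ix g, (B p.1 p.2).den, fun l l' =>
    (B l l').num * ((∏ p ∈ Finset.univ.erase (l, l'), (B p.1 p.2).den : ℕ) : ℤ),
    Finset.prod_pos fun p _ => (B p.1 p.2).den_pos, fun l l' => ?_⟩
  rw [← Finset.mul_prod_erase Finset.univ (fun p : Ix g × Ix g => (B p.1 p.2).den)
    (Finset.mem_univ (l, l'))]
  have h1 : ((B l l').den : ℂ) * (B l l' : ℂ) = ((B l l').num : ℂ) := by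
    exact_mod_cast congrArg (fun q : ℚ => (q : ℂ)) (Rat.den_mul_eq_num (B l l'))
  push_cast
  rw [← h1]
  ring

/-- rows of the equation -/
theorem rows {g N : ℕ} {A : AbData g N} {c : GL (Ix g) ℂ} (hc : c.1 = A.per)
    {B : Matrix (Ix g) (Ix g) ℚ} {P Q S : Matrix (Fin g) (Fin g) ℂ}
    (h : c.1 * Matrix.fromBlocks P Q 0 S = mC B * c.1) (l : Ix g) :
    (A.lat l ᵥ* P = ∑ l', (B l l' : ℂ) • A.lat l') ∧
      ∀ t, (A.lat l ᵥ* Q) t + (A.eta l ᵥ* S) t = ∑ l', (B l l' : ℂ) * A.eta l' t := by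
  have h1 : ∀ i, (c.1 * Matrix.fromBlocks P Q 0 S) l i = (mC B * c.1) l i := fun i => by rw [h]
  rw [hc] at h1
  constructor
  · funext j
    have h2 := h1 (Sum.inl j)
    simp only [Matrix.mul_apply, Fintype.sum_sum_type, AbData.per, Sum.elim_inl, Sum.elim_inr,
      Matrix.fromBlocks_apply₁₁, Matrix.fromBlocks_apply₂₁, Matrix.zero_apply, mul_zero,
      Finset.sum_const_zero, add_zero, Matrix.map_apply] at h2
    rw [Finset.sum_apply, Fintype.sum_sum_type]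
    simp only [Matrix.vecMul, dotProduct, Pi.smul_apply, smul_eq_mul]
    exact h2
  · intro t
    have h2 := h1 (Sum.inr t)
    simp only [Matrix.mul_apply, Fintype.sum_sum_type, AbData.per, Sum.elim_inl, Sum.elim_inr,
      Matrix.fromBlocks_apply₁₂, Matrix.fromBlocks_apply₂₂, Matrix.map_apply] at h2
    rw [Fintype.sum_sum_type]
    simp only [Matrix.vecMul, dotProduct]
    exact h2

/-- The relation, for any function with the right properties. -/
theorem rel (hCNT : SpecCNT) {g N : ℕ} {K : IntermediateField ℚ ℂ} {A : AbData g N}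
    (hA : A.IsAbVar K) (P : Matrix (Fin g) (Fin g) ℂ) (s : Fin g → Fin (N + 1)) {n : ℕ}
    (hn : 0 < n) (x : Ix g → Ix g → ℤ)
    (hP : ∀ l, ((n : ℂ) • A.lat l) ᵥ* P = ∑ l', (x l l' : ℂ) • A.lat l')
    (F : (Fin g → ℂ) → ℂ) (hE : U.ConjM.Ent (U.ConjM.ww A P) F)
    (hF : ∀ l z, A.th 0 z ≠ 0 → A.th 0 (z ᵥ* P) ≠ 0 → F (z + (n : ℂ) • A.lat l) = F z) :
    ∃ p : MvPolynomial (Option (Fin g)) ℂ, p ≠ 0 ∧ A.Rel P s F p := by
  have hn0 : (n : ℂ) ≠ 0 := Nat.cast_ne_zero.2 hn.ne'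
  obtain ⟨e⟩ : Nonempty (Fin (Fintype.card (Fin g) + 1) ≃ Option (Fin g)) :=
    ⟨Fintype.equivOfCardEq (by simp)⟩
  obtain ⟨Fk, hFk⟩ : ∃ Fk : Option (Fin g) → (Fin g → ℂ) → ℂ,
      Fk = fun k z => Option.elim k (F z) fun k => A.f (s k) z := ⟨_, rfl⟩
  have hEk : ∀ k, U.ConjM.Ent (U.ConjM.ww A P) (Fk k) := by
    rw [hFk]
    rintro (_ | k)
    · exact hE
    · exact U.ConjM.ent_f hA P (s k)
  choose M H hH1 hH2 using hEk
  have hlat : LinearIndependent ℝ fun l => (n : ℂ) • A.lat l := by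
    rw [Fintype.linearIndependent_iff]
    intro y hy
    refine Fintype.linearIndependent_iff.1 hA.lat_indep y ?_
    have h1 : ∑ i, y i • (n : ℂ) • A.lat i = (n : ℂ) • ∑ i, y i • A.lat i := by
      rw [Finset.smul_sum]
      exact Finset.sum_congr rfl fun i _ => smul_comm _ _ _
    rw [h1] at hy
    exact (smul_eq_zero.1 hy).resolve_left hn0
  have hw0 : U.ConjM.ww A P 0 ≠ 0 := by
    rw [U.ConjM.ww, Matrix.zero_vecMul]
    exact mul_ne_zero hA.zero hA.zero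
  obtain ⟨p, hp, hpe⟩ := hCNT (Z := Fin g) (Λ := Ix g) (fun l => (n : ℂ) • A.lat l) hlat
    (by rw [Fintype.card_sum]; ring) (U.ConjM.ww A P) (U.ConjM.diff_ww hA P) ⟨0, hw0⟩
    (by
      intro l
      obtain ⟨e1, h1, h2, h3⟩ := aut_nat hA n l
      obtain ⟨e2, k1, k2, k3⟩ := aut_comb hA (x l)
      refine ⟨fun z => e1 z * e2 (z ᵥ* P), h1.mul (k1.comp ?_),
        fun z => mul_ne_zero (h2 z) (k2 _), fun z => ?_⟩
      · exact (LinearMap.toContinuousLinearMap (Matrix.vecMulLinear P)).continuous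
      · show A.th 0 (z + (n : ℂ) • A.lat l) * A.th 0 ((z + (n : ℂ) • A.lat l) ᵥ* P) =
          e1 z * e2 (z ᵥ* P) * (A.th 0 z * A.th 0 (z ᵥ* P))
        rw [h3, Matrix.add_vecMul, hP, k3]
        ring)
    (fun j => Fk (e j)) (∑ k, M k)
    (fun j z => H (e j) z * U.ConjM.ww A P z ^ (∑ k ∈ Finset.univ.erase (e j), M k))
    (fun j => (hH1 (e j)).mul ((U.ConjM.diff_ww hA P).pow _))
    (fun j z hz => by
      rw [hH2 (e j) z hz, ← Finset.add_sum_erase Finset.univ M (Finset.mem_univ (e j)), pow_add]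
      ring)
    (fun j l z hz => by
      have h1 : A.th 0 z ≠ 0 := left_ne_zero_of_mul hz
      have h2 : A.th 0 (z ᵥ* P) ≠ 0 := right_ne_zero_of_mul hz
      rw [hFk]
      rcases e j with _ | k
      · exact hF l z h1 h2
      · obtain ⟨-, h3, -⟩ := U.OrbM.nsmul_pair (U.OrbM.gen_mem hA l) n
        exact h3 (s k) z h1)
  refine ⟨rename e p, fun h0 => hp ?_, fun z hz hz' => ?_⟩
  · exact (rename_injective e e.injective) (by rw [h0, map_zero])
  · have h1 := hpe z (mul_ne_zero hz hz')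
    rw [eval_rename]
    rw [hFk] at h1
    exact h1

end EnrM

open EnrM in
theorem specENR (hCNT : SpecCNT) : SpecENR := by
  intro K g N A c hA hc B _ P Q S h s
  obtain ⟨n, x, hn, hx⟩ := exists_int B
  have hr := rows hc h
  have hP : ∀ l, ((n : ℂ) • A.lat l) ᵥ* P = ∑ l', (x l l' : ℂ) • A.lat l' := by
    intro l
    rw [Matrix.smul_vecMul, (hr l).1, Finset.smul_sum]
    refine Finset.sum_congr rfl fun l' _ => ?_
    rw [smul_smul, hx]
  refine ⟨fun j => ?_, fun t => ?_⟩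
  · refine rel hCNT hA P s hn x hP _ (U.ConjM.ent_fP hA P j) fun l z _ hz' => ?_
    obtain ⟨-, h3, -⟩ := U.OrbM.comb_mem hA (x l)
    show A.f j ((z + (n : ℂ) • A.lat l) ᵥ* P) = A.f j (z ᵥ* P)
    rw [Matrix.add_vecMul, hP]
    exact h3 j _ hz'
  · refine rel hCNT hA P s hn x hP _ (U.ConjM.ent_gP hA P Q S t) fun l z hz hz' => ?_
    obtain ⟨-, -, h3⟩ := U.OrbM.comb_mem hA (x l)
    obtain ⟨-, -, k3⟩ := U.OrbM.nsmul_pair (U.OrbM.gen_mem hA l) n
    have h4 : A.zt t ((z + (n : ℂ) • A.lat l) ᵥ* P) =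
        A.zt t (z ᵥ* P) + ∑ l', (x l l' : ℂ) * A.eta l' t := by
      rw [Matrix.add_vecMul, hP]
      exact h3 t _ hz'
    have h5 : (fun s' => A.zt s' (z + (n : ℂ) • A.lat l)) =
        (fun s' => A.zt s' z) + (n : ℂ) • A.eta l := by
      funext s'
      exact k3 s' z hz
    have h6 : ∑ l', (x l l' : ℂ) * A.eta l' t =
        n * ((A.lat l ᵥ* Q) t + (A.eta l ᵥ* S) t) := by
      rw [(hr l).2 t, Finset.mul_sum]
      refine Finset.sum_congr rfl fun l' _ => ?_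
      rw [← hx, mul_assoc]
    have h7 : ((z + (n : ℂ) • A.lat l) ᵥ* Q) t = (z ᵥ* Q) t + n * (A.lat l ᵥ* Q) t := by
      rw [Matrix.add_vecMul, Matrix.smul_vecMul]
      rfl
    have h8 : (((fun s' => A.zt s' z) + (n : ℂ) • A.eta l) ᵥ* S) t =
        ((fun s' => A.zt s' z) ᵥ* S) t + n * (A.eta l ᵥ* S) t := by
      rw [Matrix.add_vecMul, Matrix.smul_vecMul]
      rfl
    unfold AbData.gP
    rw [h4, h5, h7, h8, h6]
    ring

end Pool.Agent.Lib.MPf11a48.AS
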