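import Pool.Agent.Lib.MP_f11a48_ag.AS.SpecE

/-!
# Project AS, module ESS: semistability
-/

set_option autoImplicit false

open Matrix Pool.Agent.Lib.MPf11a48.CM Pool.Agent.Lib.MPf11a48.GL2T
open Pool.Agent.Lib.MPf11a48.U (AbData Ix EndAlg ComAlg mR mC HDAM.JM)

namespace Pool.Agent.Lib.MPf11a48.AS

namespace ESSM

theorem clear {ι : Type} [Fintype ι] (X : Matrix ι ι ℚ) :
    ∃ (n : ℕ) (Y : Matrix ι ι ℤ), n ≠ 0 ∧ ∀ i j, (Y i j : ℚ) = n * X i j := by
  have h1 : ∀ i j, ∃ k : ℕ, ∏ p : ι × ι, (X p.1 p.2).den = (X i j).den * k := fun i j =>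
    Finset.dvd_prod_of_mem (fun p : ι × ι => (X p.1 p.2).den) (Finset.mem_univ (i, j))
  choose k hk using h1
  refine ⟨∏ p : ι × ι, (X p.1 p.2).den, fun i j => (k i j : ℤ) * (X i j).num,
    Finset.prod_ne_zero_iff.2 fun p _ => (X p.1 p.2).den_ne_zero, fun i j => ?_⟩
  rw [hk i j]
  push_cast
  have h2 : ((X i j).den : ℚ) * X i j = (X i j).num := by
    rw [mul_comm]
    exact Rat.mul_den_eq_num _
  rw [mul_right_comm, h2]
  ring

section Ph

variable {g N : ℕ} {K : IntermediateField ℚ ℂ} (A : AbData g N)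

theorem Ph_add (X Y : Matrix (Ix g) (Ix g) ℝ) : Ph A (X + Y) = Ph A X + Ph A Y := by
  funext k
  simp only [Ph, Matrix.add_apply, Pi.add_apply, Complex.ofReal_add, add_smul,
    Finset.sum_add_distrib]

theorem Ph_smul (r : ℝ) (X : Matrix (Ix g) (Ix g) ℝ) : Ph A (r • X) = (r : ℂ) • Ph A X := by
  funext k
  simp only [Ph, Matrix.smul_apply, Pi.smul_apply, smul_eq_mul, Complex.ofReal_mul,
    Finset.smul_sum, smul_smul]

theorem Ph_zero : Ph A 0 = 0 := by
  funext k
  simp [Ph]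

theorem Ph_inj (hA : A.IsAbVar K) {X Y : Matrix (Ix g) (Ix g) ℝ} (h : Ph A X = Ph A Y) :
    X = Y := by
  funext k
  exact U.HDAM.ind_real hA.lat_indep (congrFun h k)

theorem Ph_J (hA : A.IsAbVar K) (X : Matrix (Ix g) (Ix g) ℝ) :
    Ph A (X * U.HDAM.JM A.lat hA.lat_indep) = Complex.I • Ph A X := by
  funext k
  exact U.HDAM.JM_row A.lat hA.lat_indep (X k)

end Ph

section Emb

variable {g N β : ℕ} {K : IntermediateField ℚ ℂ} {A : AbData g N}
  {E : Emb g β (Ix g) (Fin (2 * β))}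

/-- the matrix of the lattice vector `μ_x` -/
def Xx (E : Emb g β (Ix g) (Fin (2 * β))) (x : Fin (2 * β) → ℤ) : Matrix (Ix g) (Ix g) ℚ :=
  Matrix.of fun k m => ∑ l, (x l : ℚ) * (E.X l k m : ℚ)

theorem Xx_mem {N₁ : Submodule ℚ (Matrix (Ix g) (Ix g) ℚ)}
    (hX : ∀ l, (Matrix.of fun k m => (E.X l k m : ℚ)) ∈ N₁) (x : Fin (2 * β) → ℤ) :
    Xx E x ∈ N₁ := by
  have h1 : Xx E x = ∑ l, (x l : ℚ) • Matrix.of fun k m => (E.X l k m : ℚ) := by
    ext k m
    simp [Xx, Matrix.sum_apply]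
  rw [h1]
  exact Submodule.sum_mem _ fun l _ => Submodule.smul_mem _ _ (hX l)

theorem io_inj (hE : E.Good A) : Function.Injective E.io := by
  rw [injective_iff_map_eq_zero]
  intro s hs
  have h1 : ∑ a, s a • E.u a = 0 := by
    rw [← hs]
    exact (Fintype.linearCombination_apply ℂ E.u s).symm
  exact funext (Fintype.linearIndependent_iff.1 hE.u_indep s h1)

theorem io_vec (hE : E.Good A) (x : Fin (2 * β) → ℤ) :
    E.io (∑ l, (x l : ℂ) • E.lat l) = Ph A (mR (Xx E x)) := by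
  funext k
  rw [map_sum, Finset.sum_apply]
  simp only [map_smul, Pi.smul_apply, hE.lat_eq, Ph]
  simp only [Finset.smul_sum, smul_smul]
  rw [Finset.sum_comm]
  refine Finset.sum_congr rfl fun m _ => ?_
  rw [← Finset.sum_smul]
  congr 1
  simp [Xx]

theorem trace_eq {R : Matrix (Ix g) (Ix g) ℂ} (hR : ∀ k y, E.R k y = R y k)
    (x : Fin (2 * β) → ℤ) :
    ∑ l, (x l : ℂ) * E.ell A l = (mC (Xx E x) * A.per * R).trace := by
  have h1 : (mC (Xx E x) * A.per * R).trace =
      ∑ k, ∑ m, mC (Xx E x) k m * ∑ y, A.per m y * R y k := by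
    rw [Matrix.mul_assoc]
    simp only [Matrix.trace, Matrix.diag_apply, Matrix.mul_apply]
  rw [h1]
  simp only [Emb.ell, Finset.mul_sum]
  rw [Finset.sum_comm]
  refine Finset.sum_congr rfl fun k _ => ?_
  rw [Finset.sum_comm]
  refine Finset.sum_congr rfl fun m _ => ?_
  rw [Finset.sum_comm]
  refine Finset.sum_congr rfl fun y _ => ?_
  simp only [Xx, Matrix.map_apply, Matrix.of_apply, hR]
  push_cast
  rw [Finset.sum_mul]
  refine Finset.sum_congr rfl fun l _ => ?_
  ring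

end Emb

end ESSM

open ESSM in
theorem specESS : SpecESS := by
  intro K g N A hA N₀ N₁ R hcompl h0 β E hE hR hX hsat I _ D hDlat hDell W hW hspan
  have hvec : ∀ x : Fin (2 * β) → ℤ, D.vec x = ∑ l, (x l : ℂ) • E.lat l := by
    intro x
    show ∑ l, (x l : ℂ) • D.lat l = _
    rw [hDlat]
  have hL : ∀ x : Fin (2 * β) → ℤ, D.L x = ∑ l, (x l : ℂ) * E.ell A l := by
    intro x
    show ∑ l, (x l : ℂ) * D.ell l = _
    rw [hDell]
  by_contra hcon
  push Not at hcon
  -- the rational subspace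
  let N' : Submodule ℚ (Matrix (Ix g) (Ix g) ℚ) :=
    { carrier := {X | X ∈ N₁ ∧ ∃ s ∈ W, E.io s = Ph A (mR X)}
      add_mem' := by
        rintro X Y ⟨h1, s, h2, h3⟩ ⟨h1', s', h2', h3'⟩
        refine ⟨N₁.add_mem h1 h1', s + s', W.add_mem h2 h2', ?_⟩
        have h4 : mR (X + Y) = mR X + mR Y := by
          ext i j
          simp
        rw [h4, Ph_add, map_add, h3, h3']
      zero_mem' := by
        refine ⟨N₁.zero_mem, 0, W.zero_mem, ?_⟩
        have h4 : mR (0 : Matrix (Ix g) (Ix g) ℚ) = 0 := by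
          ext i j
          simp
        rw [h4, Ph_zero, map_zero]
      smul_mem' := by
        rintro q X ⟨h1, s, h2, h3⟩
        refine ⟨N₁.smul_mem q h1, (q : ℂ) • s, W.smul_mem _ h2, ?_⟩
        have h4 : mR (q • X) = (q : ℝ) • mR X := by
          ext i j
          simp
        rw [h4, Ph_smul, map_smul, h3]
        simp }
  have hN' : ∀ X, X ∈ N' ↔ X ∈ N₁ ∧ ∃ s ∈ W, E.io s = Ph A (mR X) := fun X => Iff.rfl
  have hgen : ∀ x, D.vec x ∈ W → Xx E x ∈ N' := by
    intro x hx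
    refine (hN' _).2 ⟨Xx_mem hX x, D.vec x, hx, ?_⟩
    rw [hvec, io_vec hE]
  -- `J`-stable
  have hJ : JStab (U.HDAM.JM A.lat hA.lat_indep) N' := by
    intro X hX'
    obtain ⟨h1, s, h2, h3⟩ := (hN' X).1 hX'
    have key : ∀ u ∈ Submodule.span ℝ
        {w : Fin β → ℂ | w ∈ W ∧ ∃ x : Fin (2 * β) → ℤ, w = D.vec x},
        ∃ Y ∈ Submodule.span ℝ {Y : Matrix (Ix g) (Ix g) ℝ | ∃ X' ∈ N', Y = mR X'},
          Ph A Y = E.io u := by
      intro u hu
      induction hu using Submodule.span_induction with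
      | mem w hw =>
        obtain ⟨hw1, x, rfl⟩ := hw
        refine ⟨mR (Xx E x), Submodule.subset_span ⟨_, hgen x hw1, rfl⟩, ?_⟩
        rw [hvec, io_vec hE]
      | zero => exact ⟨0, Submodule.zero_mem _, by rw [Ph_zero, map_zero]⟩
      | add u v _ _ ih1 ih2 =>
        obtain ⟨Y, h4, h5⟩ := ih1
        obtain ⟨Y', h4', h5'⟩ := ih2
        exact ⟨Y + Y', Submodule.add_mem _ h4 h4', by rw [Ph_add, map_add, h5, h5']⟩
      | smul r u _ ih =>
        obtain ⟨Y, h4, h5⟩ := ih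
        refine ⟨r • Y, Submodule.smul_mem _ _ h4, ?_⟩
        have h6 : r • u = (r : ℂ) • u := by
          funext j
          simp
        rw [Ph_smul, h5, h6, map_smul]
    obtain ⟨Y, h4, h5⟩ := key (Complex.I • s) (hspan _ (W.smul_mem _ h2))
    have h6 : mR X * U.HDAM.JM A.lat hA.lat_indep = Y := by
      apply Ph_inj A hA
      rw [Ph_J A hA, h5, map_smul, h3]
    rw [h6]
    exact h4
  -- the form vanishes
  have htr : ∀ X ∈ N', (mC X * A.per * R).trace = 0 := by
    intro X hX'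
    obtain ⟨h1, s, h2, h3⟩ := (hN' X).1 hX'
    obtain ⟨n, Y, hn, hY⟩ := clear X
    obtain ⟨x, hx⟩ := hsat Y (by
      have h4 : Y.map (fun x => (x : ℚ)) = (n : ℚ) • X := by
        ext i j
        rw [Matrix.map_apply, hY, Matrix.smul_apply, smul_eq_mul]
      rw [h4]
      exact N₁.smul_mem _ h1)
    have h5 : Xx E x = (n : ℚ) • X := by
      ext i j
      rw [Matrix.smul_apply, smul_eq_mul, ← hY, hx i j]
      simp [Xx]
    have h6 : D.vec x ∈ W := by
      have h7 : D.vec x = (n : ℂ) • s := by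
        apply io_inj hE
        rw [hvec, io_vec hE, h5, map_smul, h3]
        have h8 : mR ((n : ℚ) • X) = (n : ℝ) • mR X := by
          ext i j
          simp
        rw [h8, Ph_smul]
        simp
      rw [h7]
      exact W.smul_mem _ h2
    have h7 := hcon x h6
    rw [hL, trace_eq hR, h5] at h7
    have h8 : mC ((n : ℚ) • X) = (n : ℂ) • mC X := by
      ext i j
      simp
    rw [h8, Matrix.smul_mul, Matrix.smul_mul, Matrix.trace_smul, smul_eq_mul] at h7
    exact (mul_eq_zero.1 h7).resolve_left (by exact_mod_cast hn)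
  have hbot : ∀ X ∈ N', X = 0 := by
    intro X hX'
    have h1 := h0 N' hJ htr hX'
    have h2 := ((hN' X).1 hX').1
    exact (Submodule.disjoint_def.1 hcompl.disjoint) X h1 h2
  apply hW
  rw [Submodule.eq_bot_iff]
  intro u hu
  have h1 := hspan u hu
  have h2 : Submodule.span ℝ {w : Fin β → ℂ | w ∈ W ∧ ∃ x : Fin (2 * β) → ℤ, w = D.vec x} ≤ ⊥ := by
    rw [Submodule.span_le]
    rintro w ⟨hw, x, rfl⟩
    have h3 := hbot _ (hgen x hw)
    have h4 : D.vec x = 0 := by
      apply io_inj hE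
      rw [hvec, io_vec hE, h3, map_zero]
      have h4 : mR (0 : Matrix (Ix g) (Ix g) ℚ) = 0 := by
        ext i j
        simp
      rw [h4, Ph_zero]
    rw [h4]
    exact Submodule.zero_mem _
  exact (Submodule.mem_bot ℝ).1 (h2 h1)

end Pool.Agent.Lib.MPf11a48.AS
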