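import Pool.Agent.Lib.MP_f11a48_ag.AS.SpecT

/-!
# Project AS, module QMU (helper23): multiplication by `q`
-/

set_option autoImplicit false

open MvPolynomial Pool.Agent.Lib.MPf11a48.CM Filter Topology Asymptotics NumberField

namespace Pool.Agent.Lib.MPf11a48.AS

namespace QMUM

section TH

variable {Z I Λ : Type} [Fintype Λ]

theorem vec_add (D : TH Z I Λ) (x y : Λ → ℤ) : D.vec (x + y) = D.vec x + D.vec y := by
  unfold TH.vec
  rw [← Finset.sum_add_distrib]
  refine Finset.sum_congr rfl fun l _ => ?_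
  rw [← add_smul, Pi.add_apply]
  push_cast
  rfl

theorem vec_zero (D : TH Z I Λ) : D.vec 0 = 0 := by
  unfold TH.vec
  simp

theorem vec_neg (D : TH Z I Λ) (x : Λ → ℤ) : D.vec (-x) = -D.vec x := by
  have h := vec_add D x (-x)
  rw [add_neg_cancel, vec_zero] at h
  exact (neg_eq_of_add_eq_zero_right h.symm).symm

theorem vec_smul (D : TH Z I Λ) (n : ℤ) (x : Λ → ℤ) : D.vec (n • x) = (n : ℂ) • D.vec x := by
  unfold TH.vec
  rw [Finset.smul_sum]
  refine Finset.sum_congr rfl fun l _ => ?_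
  rw [smul_smul, Pi.smul_apply, smul_eq_mul]
  push_cast
  rfl

theorem vec_single [DecidableEq Λ] (D : TH Z I Λ) (l : Λ) : D.vec (Pi.single l 1) = D.lat l := by
  unfold TH.vec
  rw [Finset.sum_eq_single l]
  · simp
  · intro k _ hk
    rw [Pi.single_eq_of_ne hk]
    simp
  · intro h
    exact absurd (Finset.mem_univ l) h

theorem al_smul (D : TH Z I Λ) (n : ℤ) (x : Λ → ℤ) : D.al (n • x) = (n : ℂ) • D.al x := by
  unfold TH.al
  rw [Finset.smul_sum]
  refine Finset.sum_congr rfl fun l _ => ?_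
  rw [smul_smul, Pi.smul_apply, smul_eq_mul]
  push_cast
  rfl

/-- the automorphy factor -/
noncomputable def ef (D : TH Z I Λ) (x : Λ → ℤ) (z : Z → ℂ) : ℂ :=
  Complex.exp (D.al x z + D.al x (D.vec x) / 2)

theorem ef_ne (D : TH Z I Λ) (x : Λ → ℤ) (z : Z → ℂ) : ef D x z ≠ 0 := Complex.exp_ne_zero _

theorem ef_mul (D : TH Z I Λ) (q : ℕ) (x : Λ → ℤ) (z : Z → ℂ) :
    ef D ((q : ℤ) • x) ((q : ℂ) • z) = ef D x z ^ (q ^ 2) := by
  unfold ef
  rw [← Complex.exp_nat_mul, al_smul, vec_smul, LinearMap.smul_apply, LinearMap.smul_apply,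
    map_smul, map_smul, smul_eq_mul, smul_eq_mul, smul_eq_mul, smul_eq_mul]
  congr 1
  push_cast
  ring

theorem aut [Fintype Z] [Fintype I] (D : TH Z I Λ) (hD : D.Good) (x : Λ → ℤ) (i : I)
    (z : Z → ℂ) : D.th i (z + D.vec x) = ef D x z * D.th i z := hD.aut x i z

theorem ne_vec [Fintype Z] [Fintype I] (D : TH Z I Λ) (hD : D.Good) (x : Λ → ℤ) {z : Z → ℂ}
    (h : D.th D.o z ≠ 0) : D.th D.o (z + D.vec x) ≠ 0 := by
  rw [aut D hD]
  exact mul_ne_zero (ef_ne _ _ _) h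

theorem ef_diff [Fintype Z] (D : TH Z I Λ) (x : Λ → ℤ) : Differentiable ℂ fun z => ef D x z := by
  unfold ef
  apply Differentiable.cexp
  apply Differentiable.add
  · exact (LinearMap.toContinuousLinearMap (D.al x)).differentiable
  · exact differentiable_const _

end TH

variable {β : ℕ} {I Λ : Type} [Fintype I] [Fintype Λ]

omit [Fintype I] in
theorem L_add (D : QD β I Λ) (x y : Λ → ℤ) : D.L (x + y) = D.L x + D.L y := by
  unfold QD.L
  rw [← Finset.sum_add_distrib]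
  refine Finset.sum_congr rfl fun l _ => ?_
  rw [← add_mul, Pi.add_apply]
  push_cast
  rfl

omit [Fintype I] in
theorem L_smul (D : QD β I Λ) (n : ℤ) (x : Λ → ℤ) : D.L (n • x) = (n : ℂ) * D.L x := by
  unfold QD.L
  rw [Finset.mul_sum]
  refine Finset.sum_congr rfl fun l _ => ?_
  rw [← mul_assoc, Pi.smul_apply, smul_eq_mul]
  push_cast
  rfl

omit [Fintype I] in
theorem L_single [DecidableEq Λ] (D : QD β I Λ) (l : Λ) : D.L (Pi.single l 1) = D.ell l := by
  unfold QD.L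
  rw [Finset.sum_eq_single l]
  · simp
  · intro k _ hk
    rw [Pi.single_eq_of_ne hk]
    simp
  · intro h
    exact absurd (Finset.mem_univ l) h

/-- quasi-periodicity for all lattice vectors -/
theorem ze_vec (D : QD β I Λ) (hD : D.Good) (x : Λ → ℤ) :
    ∀ z, D.th D.o z ≠ 0 → D.ze (z + D.vec x) = D.ze z + D.L x := by
  classical
  let G : AddSubgroup (Λ → ℤ) :=
    { carrier := {x | ∀ z, D.th D.o z ≠ 0 → D.ze (z + D.vec x) = D.ze z + D.L x}
      zero_mem' := by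
        intro z _
        have h1 : D.vec 0 = 0 := vec_zero D.toTH
        have h2 : D.L 0 = 0 := by simp [QD.L]
        rw [h1, h2, add_zero, add_zero]
      add_mem' := by
        intro x y hx hy z hz
        have h1 : D.vec (x + y) = D.vec x + D.vec y := vec_add D.toTH x y
        rw [h1, L_add, ← add_assoc, hy _ (ne_vec D.toTH hD.good x hz), hx z hz, add_assoc]
      neg_mem' := by
        intro x hx z hz
        have h1 : D.vec (-x) = -D.vec x := vec_neg D.toTH x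
        have h2 := hx (z + D.vec (-x)) (ne_vec D.toTH hD.good (-x) hz)
        have h3 : z + D.vec (-x) + D.vec x = z := by rw [h1]; abel
        have h4 : D.L (-x) = -D.L x := by
          have h := L_add D x (-x)
          have h5 : D.L (0 : Λ → ℤ) = 0 := by simp [QD.L]
          rw [add_neg_cancel, h5] at h
          exact (neg_eq_of_add_eq_zero_right h.symm).symm
        rw [h3] at h2
        rw [h4, h2]
        ring }
  have hx : x ∈ G := by
    rw [← Finset.univ_sum_single x]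
    refine AddSubgroup.sum_mem G fun l _ => ?_
    have h1 : (Pi.single l (x l) : Λ → ℤ) = x l • Pi.single l (1 : ℤ) := by
      rw [← Pi.single_smul, smul_eq_mul, mul_one]
    rw [h1]
    refine AddSubgroup.zsmul_mem G ?_ _
    intro z hz
    have h2 : D.vec (Pi.single l 1) = D.lat l := vec_single D.toTH l
    rw [h2, L_single]
    exact hD.per l z hz
  exact hx

/-- transformation of `Y` -/
theorem Y_vec (hBAS : SpecBAS) (D : QD β I Λ) (hD : D.Good) (x : Λ → ℤ) (z : Fin β → ℂ) :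
    D.Y (z + D.vec x) = ef D.toTH x z ^ D.m * (D.Y z + D.L x * D.th D.o z ^ D.m) := by
  obtain ⟨-, -, hz, -⟩ := hBAS D.toTH hD.good
  have hdiff : Differentiable ℂ fun z => D.Y (z + D.vec x) - ef D.toTH x z ^ D.m *
      (D.Y z + D.L x * D.th D.o z ^ D.m) := by
    apply Differentiable.sub
    · exact hD.Y_diff.comp (differentiable_id.add (differentiable_const _))
    · exact ((ef_diff D.toTH x).pow _).mul
        (hD.Y_diff.add (((hD.good.diff D.o).pow _).const_mul _))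
  refine sub_eq_zero.1 (hz _ hdiff (fun z h0 => ?_) z)
  have h1 := ze_vec D hD x z h0
  have haut : D.th D.o (z + D.vec x) = ef D.toTH x z * D.th D.o z := aut D.toTH hD.good x D.o z
  have h2 : D.th D.o (z + D.vec x) ≠ 0 := ne_vec D.toTH hD.good x h0
  have h3 : D.ze (z + D.vec x) = D.Y (z + D.vec x) / D.th D.o (z + D.vec x) ^ D.m := rfl
  have h4 : D.ze z = D.Y z / D.th D.o z ^ D.m := rfl
  rw [h3, h4, div_eq_iff (pow_ne_zero _ h2), haut] at h1
  rw [h1]
  have h5 : D.th D.o z ^ D.m ≠ 0 := pow_ne_zero _ h0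
  have h6 : D.Y z / D.th D.o z ^ D.m * D.th D.o z ^ D.m = D.Y z := div_mul_cancel₀ _ h5
  calc (D.Y z / D.th D.o z ^ D.m + D.L x) * (ef D.toTH x z * D.th D.o z) ^ D.m -
        ef D.toTH x z ^ D.m * (D.Y z + D.L x * D.th D.o z ^ D.m)
      = ef D.toTH x z ^ D.m * (D.Y z / D.th D.o z ^ D.m * D.th D.o z ^ D.m - D.Y z) := by
        rw [mul_pow]; ring
    _ = 0 := by rw [h6, sub_self, mul_zero]

end QMUM

open QMUM in
theorem specQMU (hBAS : SpecBAS) : SpecQMU := by
  classical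
  intro β I Λ _ _ D hD q hq
  have hsm : Differentiable ℂ fun z : Fin β → ℂ => (q : ℂ) • z := by fun_prop
  have hth : ∀ i, Differentiable ℂ fun z => D.th i ((q : ℂ) • z) := fun i =>
    (hD.good.diff i).comp hsm
  -- translation by a lattice vector
  have hlat : ∀ l : Λ, D.lat l = D.vec (Pi.single l 1) := fun l => (vec_single D.toTH l).symm
  have harg : ∀ (l : Λ) (z : Fin β → ℂ), (q : ℂ) • (z + D.lat l) =
      (q : ℂ) • z + D.vec ((q : ℤ) • (Pi.single l 1 : Λ → ℤ)) := by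
    intro l z
    have h1 : D.vec ((q : ℤ) • (Pi.single l 1 : Λ → ℤ)) =
        ((q : ℤ) : ℂ) • D.vec (Pi.single l 1) := vec_smul D.toTH _ _
    rw [h1, hlat, smul_add]
    push_cast
    rfl
  have h1 : ∀ (i : I) (l : Λ) (z : Fin β → ℂ), D.th i ((q : ℂ) • (z + D.lat l)) =
      ef D.toTH (Pi.single l 1) z ^ (q ^ 2) * D.th i ((q : ℂ) • z) := by
    intro i l z
    rw [harg, aut D.toTH hD.good, ef_mul]
  have h2 : ∀ (l : Λ) (z : Fin β → ℂ), D.th D.o (z + D.lat l) =
      ef D.toTH (Pi.single l 1) z * D.th D.o z := by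
    intro l z
    rw [hlat, aut D.toTH hD.good]
  refine ⟨fun i => ⟨⟨q ^ 2, fun z => D.th i ((q : ℂ) • z), hth i, fun z hz => ?_⟩,
    fun l z hz => ?_⟩, ⟨⟨q ^ 2 * D.m + D.m, fun z => D.Y ((q : ℂ) • z) * D.th D.o z ^ D.m -
      (q : ℂ) * D.Y z * D.th D.o ((q : ℂ) • z) ^ D.m, ?_, fun z hz => ?_⟩, fun l z hz => ?_⟩⟩
  · exact div_mul_cancel₀ _ (pow_ne_zero _ hz)
  · show D.th i ((q : ℂ) • (z + D.lat l)) / D.th D.o (z + D.lat l) ^ (q ^ 2) =
      D.th i ((q : ℂ) • z) / D.th D.o z ^ (q ^ 2)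
    rw [h1, h2, mul_pow, mul_div_mul_left _ _ (pow_ne_zero _ (ef_ne _ _ _))]
  · exact ((hD.Y_diff.comp hsm).mul ((hD.good.diff D.o).pow _)).sub
      ((hD.Y_diff.const_mul _).mul ((hth D.o).pow _))
  · have h3 : D.ze z = D.Y z / D.th D.o z ^ D.m := rfl
    have h4 : D.th D.o z ^ D.m ≠ 0 := pow_ne_zero _ hz
    have h5 : D.th D.o z ^ (q ^ 2 * D.m) ≠ 0 := pow_ne_zero _ hz
    show (D.Y ((q : ℂ) • z) - (q : ℂ) * D.ze z * D.th D.o ((q : ℂ) • z) ^ D.m) /
      D.th D.o z ^ (q ^ 2 * D.m) * D.th D.o z ^ (q ^ 2 * D.m + D.m) = _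
    rw [pow_add, ← mul_assoc, div_mul_cancel₀ _ h5, h3, sub_mul]
    congr 1
    field_simp
  · show (D.Y ((q : ℂ) • (z + D.lat l)) - (q : ℂ) * D.ze (z + D.lat l) *
        D.th D.o ((q : ℂ) • (z + D.lat l)) ^ D.m) / D.th D.o (z + D.lat l) ^ (q ^ 2 * D.m) =
      (D.Y ((q : ℂ) • z) - (q : ℂ) * D.ze z * D.th D.o ((q : ℂ) • z) ^ D.m) /
        D.th D.o z ^ (q ^ 2 * D.m)
    have h3 : D.Y ((q : ℂ) • (z + D.lat l)) = (ef D.toTH (Pi.single l 1) z ^ (q ^ 2)) ^ D.m *
        (D.Y ((q : ℂ) • z) + (q : ℂ) * D.ell l * D.th D.o ((q : ℂ) • z) ^ D.m) := by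
      rw [harg, Y_vec hBAS D hD, ef_mul, L_smul, L_single]
      push_cast
      rfl
    rw [h1, h2, h3, hD.per l z hz]
    have h4 : (ef D.toTH (Pi.single l 1) z * D.th D.o z) ^ (q ^ 2 * D.m) =
        (ef D.toTH (Pi.single l 1) z ^ (q ^ 2)) ^ D.m * D.th D.o z ^ (q ^ 2 * D.m) := by
      rw [mul_pow, pow_mul]
    have h5 : (ef D.toTH (Pi.single l 1) z ^ (q ^ 2)) ^ D.m *
          (D.Y ((q : ℂ) • z) + (q : ℂ) * D.ell l * D.th D.o ((q : ℂ) • z) ^ D.m) -
        (q : ℂ) * (D.ze z + D.ell l) *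
          (ef D.toTH (Pi.single l 1) z ^ (q ^ 2) * D.th D.o ((q : ℂ) • z)) ^ D.m =
        (ef D.toTH (Pi.single l 1) z ^ (q ^ 2)) ^ D.m *
          (D.Y ((q : ℂ) • z) - (q : ℂ) * D.ze z * D.th D.o ((q : ℂ) • z) ^ D.m) := by
      rw [mul_pow]
      ring
    rw [h4, h5, mul_div_mul_left _ _ (pow_ne_zero _ (pow_ne_zero _ (ef_ne _ _ _)))]

end Pool.Agent.Lib.MPf11a48.AS
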