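import Pool.Agent.Lib.MP_f11a48_ag.AS.SpecT
import Pool.Agent.Lib.MP_f11a48_ag.AS.SpecZ
import Pool.Agent.Lib.MP_f11a48_ag.AS.Qmu
import Pool.Agent.Lib.MP_f11a48_ag.U.Schw
import Pool.Agent.Lib.MP_f11a48_ag.U.Ana
import Pool.Agent.Lib.MP_f11a48_ag.U.Osgood

/-!
# Project AS, module EXT (helper23): the analytic estimate
-/

set_option autoImplicit false

open MvPolynomial Pool.Agent.Lib.MPf11a48.CM Filter Topology Asymptotics NumberField
open Pool.Agent.Lib.MPf11a48.U (oEmb)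

namespace Pool.Agent.Lib.MPf11a48.AS

namespace EXTM

variable {β : ℕ}

/-- iterated partial derivatives, the first letter is applied last -/
noncomputable def pd : List (Fin β) → ((Fin β → ℂ) → ℂ) → (Fin β → ℂ) → ℂ
  | [], F => F
  | j :: w, F => fun z => fderiv ℂ (pd w F) z (Pi.single j 1)

theorem pd_append (w : List (Fin β)) (j : Fin β) (F : (Fin β → ℂ) → ℂ) :
    pd (w ++ [j]) F = pd w fun z => fderiv ℂ F z (Pi.single j 1) := by
  induction w with
  | nil => rfl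
  | cons i w ih =>
    show (fun z => fderiv ℂ (pd (w ++ [j]) F) z (Pi.single i 1)) = _
    rw [ih]
    rfl

theorem pd_diff (w : List (Fin β)) {F : (Fin β → ℂ) → ℂ} (hF : Differentiable ℂ F) :
    Differentiable ℂ (pd w F) := by
  induction w with
  | nil => exact hF
  | cons j w ih => exact U.HolM.differentiable_fderiv ih _

theorem pd_analytic (w : List (Fin β)) {F : (Fin β → ℂ) → ℂ} {z : Fin β → ℂ}
    (hF : AnalyticAt ℂ F z) : AnalyticAt ℂ (pd w F) z := by
  induction w with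
  | nil => exact hF
  | cons j w ih =>
    exact ((ContinuousLinearMap.apply ℂ ℂ (Pi.single j (1 : ℂ) : Fin β → ℂ)).analyticAt _).comp
      ih.fderiv

theorem pd_congr (w : List (Fin β)) {F G : (Fin β → ℂ) → ℂ} {z : Fin β → ℂ}
    (h : F =ᶠ[𝓝 z] G) : pd w F =ᶠ[𝓝 z] pd w G := by
  induction w with
  | nil => exact h
  | cons j w ih =>
    filter_upwards [ih.fderiv (𝕜 := ℂ)] with y hy
    show fderiv ℂ (pd w F) y _ = fderiv ℂ (pd w G) y _
    rw [hy]

theorem pd_add (w : List (Fin β)) {F G : (Fin β → ℂ) → ℂ} {z : Fin β → ℂ}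
    (hF : AnalyticAt ℂ F z) (hG : AnalyticAt ℂ G z) :
    pd w (fun y => F y + G y) =ᶠ[𝓝 z] fun y => pd w F y + pd w G y := by
  induction w with
  | nil => exact EventuallyEq.rfl
  | cons j w ih =>
    have h1 := (pd_analytic w hF).eventually_analyticAt
    have h2 := (pd_analytic w hG).eventually_analyticAt
    filter_upwards [ih.fderiv (𝕜 := ℂ), h1, h2] with y hy hy1 hy2
    show fderiv ℂ (pd w fun y => F y + G y) y _ =
      fderiv ℂ (pd w F) y _ + fderiv ℂ (pd w G) y _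
    rw [hy, fderiv_fun_add hy1.differentiableAt hy2.differentiableAt]
    rfl

theorem pd_trans (w : List (Fin β)) (F : (Fin β → ℂ) → ℂ) (a : Fin β → ℂ) :
    (pd w fun z => F (a + z)) = fun z => pd w F (a + z) := by
  induction w with
  | nil => rfl
  | cons j w ih =>
    funext z
    show fderiv ℂ (pd w fun z => F (a + z)) z _ = fderiv ℂ (pd w F) (a + z) _
    rw [ih, fderiv_comp_add_left]

/-- Leibniz rule at a point where the lower derivatives vanish -/
theorem leib (z₀ : Fin β → ℂ) (n : ℕ) : ∀ (g F : (Fin β → ℂ) → ℂ), AnalyticAt ℂ g z₀ →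
    AnalyticAt ℂ F z₀ → ∀ w : List (Fin β), w.length = n →
    (∀ w' : List (Fin β), w'.length < n → pd w' F z₀ = 0) →
    pd w (fun z => g z * F z) z₀ = g z₀ * pd w F z₀ := by
  induction n with
  | zero =>
    intro g F _ _ w hw _
    rw [List.length_eq_zero_iff] at hw
    subst hw
    rfl
  | succ n ih =>
    intro g F hg hF w hw h
    rcases List.eq_nil_or_concat w with rfl | ⟨w1, j, rfl⟩
    · simp at hw
    rw [List.concat_eq_append] at hw ⊢
    rw [List.length_append, List.length_singleton] at hw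
    have hw1 : w1.length = n := by omega
    set e : Fin β → ℂ := Pi.single j 1 with he
    have hpF : AnalyticAt ℂ (fun z => fderiv ℂ F z e) z₀ := pd_analytic [j] hF
    have hpg : AnalyticAt ℂ (fun z => fderiv ℂ g z e) z₀ := pd_analytic [j] hg
    have h1 : (fun z => fderiv ℂ (fun z => g z * F z) z e) =ᶠ[𝓝 z₀]
        fun z => g z * fderiv ℂ F z e + fderiv ℂ g z e * F z := by
      filter_upwards [hg.eventually_analyticAt, hF.eventually_analyticAt] with z hz1 hz2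
      rw [fderiv_fun_mul hz1.differentiableAt hz2.differentiableAt]
      simp only [add_apply, smul_apply, smul_eq_mul]
      ring
    have h2 : pd (w1 ++ [j]) (fun z => g z * F z) z₀ =
        pd w1 (fun z => g z * fderiv ℂ F z e) z₀ + pd w1 (fun z => fderiv ℂ g z e * F z) z₀ := by
      rw [pd_append]
      exact ((pd_congr w1 h1).trans (pd_add w1 (hg.mul hpF) (hpg.mul hF))).self_of_nhds
    rw [h2, ih g _ hg hpF w1 hw1 (fun w' hw' => ?_), ih _ F hpg hF w1 hw1 (fun w' hw' => ?_),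
      h w1 (by omega), mul_zero, add_zero, pd_append]
    · exact h w' (by omega)
    · have h3 := h (w' ++ [j]) (by rw [List.length_append, List.length_singleton]; omega)
      rwa [pd_append] at h3

/-- the norm of a functional is bounded by its values on the basis -/
theorem norm_le_sum (u : (Fin β → ℂ) →L[ℂ] ℂ) : ‖u‖ ≤ ∑ k, ‖u (Pi.single k 1)‖ := by
  refine u.opNorm_le_bound (Finset.sum_nonneg fun _ _ => norm_nonneg _) fun x => ?_
  have hx : x = ∑ k, x k • (Pi.single k (1 : ℂ) : Fin β → ℂ) := by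
    ext j
    simp [Finset.sum_apply, Pi.single_apply]
  calc ‖u x‖ = ‖∑ k, x k * u (Pi.single k 1)‖ := by
        conv_lhs => rw [hx]
        rw [map_sum]
        simp only [map_smul, smul_eq_mul]
    _ ≤ ∑ k, ‖x k‖ * ‖u (Pi.single k 1)‖ := by
        refine (norm_sum_le _ _).trans (le_of_eq ?_)
        simp only [norm_mul]
    _ ≤ ∑ k, ‖x‖ * ‖u (Pi.single k 1)‖ :=
        Finset.sum_le_sum fun k _ => mul_le_mul_of_nonneg_right (norm_le_pi_norm x k)
          (norm_nonneg _)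
    _ = (∑ k, ‖u (Pi.single k 1)‖) * ‖x‖ := by
        rw [← Finset.mul_sum, mul_comm]

/-- vanishing derivatives and order of vanishing -/
theorem bigO (T : ℕ) : ∀ {F : (Fin β → ℂ) → ℂ}, Differentiable ℂ F → ∀ a : Fin β → ℂ,
    (∀ w : List (Fin β), w.length < T → pd w F a = 0) →
    (fun z => F (a + z)) =O[𝓝 0] fun z : Fin β → ℂ => ‖z‖ ^ T := by
  induction T with
  | zero =>
    intro F hF a _
    simp only [pow_zero]
    have hc : Continuous fun z => F (a + z) := hF.continuous.comp (by fun_prop)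
    exact hc.continuousAt.isBigO_one ℝ
  | succ T ih =>
    intro F hF a h
    have hd : Differentiable ℂ fun z => F (a + z) := hF.comp (by fun_prop)
    refine U.AnaM.bigO_succ (Eventually.of_forall fun x => hd x) ?_ ?_
    · rw [add_zero]
      exact h [] (by simp)
    have h1 : ∀ k : Fin β, (fun z => fderiv ℂ F (a + z) (Pi.single k 1)) =O[𝓝 0]
        fun z : Fin β → ℂ => ‖z‖ ^ T := by
      intro k
      refine ih (F := fun z => fderiv ℂ F z (Pi.single k 1))
        (U.HolM.differentiable_fderiv hF _) a fun w hw => ?_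
      rw [← pd_append]
      exact h (w ++ [k]) (by rw [List.length_append, List.length_singleton]; omega)
    have h2 : (fun z => ∑ k : Fin β, ‖fderiv ℂ F (a + z) (Pi.single k 1)‖) =O[𝓝 0]
        fun z : Fin β → ℂ => ‖z‖ ^ T :=
      IsBigO.fun_sum fun k _ => (h1 k).norm_left
    refine (IsBigO.of_bound 1 (Eventually.of_forall fun z => ?_)).trans h2
    rw [one_mul, Real.norm_eq_abs, fderiv_comp_add_left]
    exact (norm_le_sum (fderiv ℂ F (a + z))).trans (le_abs_self _)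

/-- Cauchy estimate -/
theorem cauchy (w : List (Fin β)) : ∀ {F : (Fin β → ℂ) → ℂ}, Differentiable ℂ F →
    ∀ (a : Fin β → ℂ) (h C : ℝ), 0 < h →
    (∀ z ∈ Metric.closedBall a (w.length * h), ‖F z‖ ≤ C) →
    ‖pd w F a‖ ≤ C / h ^ w.length := by
  induction w with
  | nil =>
    intro F hF a h C hh hC
    simp only [List.length_nil, pow_zero, div_one]
    exact hC a (Metric.mem_closedBall_self (by simp))
  | cons j w ih =>
    intro F hF a h C hh hC
    have h1 := U.HolM.norm_fderiv_apply_le (pd_diff w hF) (x := a) hh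
      (C := C / h ^ w.length) (fun z hz => ih hF z h C hh fun y hy => hC y ?_) (Pi.single j 1)
    · refine h1.trans ?_
      rw [Pi.norm_single, norm_one, mul_one, List.length_cons, pow_succ, div_div]
    · rw [Metric.mem_closedBall] at hy hz ⊢
      rw [List.length_cons]
      push_cast
      linarith [dist_triangle y z a]

section QD

variable {I Λ : Type} [Fintype I] [Fintype Λ]

omit [Fintype I] [Fintype Λ] in
theorem ev_X (D : QD β I Λ) (z : Fin β → ℂ) (ρ : ℂ) (i : Option I) :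
    D.ev z ρ (X i) = Option.elim i (D.ze z + ρ) fun i => D.f i z := by
  unfold QD.ev
  rw [aeval_X]

omit [Fintype Λ] in
theorem ev_eq (D : QD β I Λ) (z : Fin β → ℂ) (P : MvPolynomial (Option I) ℂ) :
    D.ev z 0 P = ∑ m ∈ P.support, P.coeff m * (D.ze z ^ m none * ∏ i, D.f i z ^ m (some i)) := by
  unfold QD.ev
  rw [aeval_def, eval₂_eq']
  refine Finset.sum_congr rfl fun m _ => ?_
  rw [Fintype.prod_option]
  simp

/-- the lattice translates -/
theorem ev_vec (D : QD β I Λ) (hD : D.Good) (x : Λ → ℤ) (hx : D.L x = 0) (z : Fin β → ℂ)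
    (hz : D.th D.o z ≠ 0) (P : MvPolynomial (Option I) ℂ) :
    D.ev (z + D.vec x) 0 P = D.ev z 0 P := by
  have h1 : D.ze (z + D.vec x) = D.ze z := by rw [QMUM.ze_vec D hD x z hz, hx, add_zero]
  have h2 : ∀ i, D.f i (z + D.vec x) = D.f i z := by
    intro i
    show D.th i (z + D.vec x) / D.th D.o (z + D.vec x) = D.th i z / D.th D.o z
    rw [QMUM.aut D.toTH hD.good, QMUM.aut D.toTH hD.good,
      mul_div_mul_left _ _ (QMUM.ef_ne _ _ _)]
  rw [ev_eq, ev_eq, h1]
  simp only [h2]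

theorem isOpen_V (D : QD β I Λ) (hD : D.Good) : IsOpen {z | D.th D.o z ≠ 0} :=
  isOpen_ne_fun (hD.good.diff D.o).continuous continuous_const

theorem ev_analytic (hDEV : SpecDEV) (D : QD β I Λ) (hD : D.Good)
    (P : MvPolynomial (Option I) ℂ) (z : Fin β → ℂ) (hz : D.th D.o z ≠ 0) :
    AnalyticAt ℂ (fun z => D.ev z 0 P) z := by
  have h1 := (hDEV D hD P z 0 hz).1
  have h2 : AnalyticAt ℂ (fun z : Fin β → ℂ => (z, (0 : ℂ))) z := analyticAt_id.prod analyticAt_const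
  exact AnalyticAt.fun_comp (g := fun zr : (Fin β → ℂ) × ℂ => D.ev zr.1 zr.2 P)
    (f := fun z : Fin β → ℂ => (z, (0 : ℂ))) h1 h2

theorem fderiv_slice {Φ : (Fin β → ℂ) × ℂ → ℂ} {z : Fin β → ℂ}
    (h : DifferentiableAt ℂ Φ (z, 0)) (v : Fin β → ℂ) :
    fderiv ℂ (fun z => Φ (z, 0)) z v = fderiv ℂ Φ (z, 0) (v, 0) := by
  have h3 : HasFDerivAt (fun z : Fin β → ℂ => (z, (0 : ℂ)))
      (ContinuousLinearMap.inl ℂ (Fin β → ℂ) ℂ) z := hasFDerivAt_prodMk_left z 0
  have h4 : HasFDerivAt (fun z => Φ (z, 0))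
      ((fderiv ℂ Φ (z, 0)).comp (ContinuousLinearMap.inl ℂ (Fin β → ℂ) ℂ)) z :=
    HasFDerivAt.comp (g := Φ) z h.hasFDerivAt h3
  rw [h4.fderiv, ContinuousLinearMap.comp_apply, ContinuousLinearMap.inl_apply]

theorem ev_fderiv (hDEV : SpecDEV) (D : QD β I Λ) (hD : D.Good)
    (P : MvPolynomial (Option I) ℂ) (z : Fin β → ℂ) (hz : D.th D.o z ≠ 0) (j : Fin β) :
    fderiv ℂ (fun z => D.ev z 0 P) z (Pi.single j 1) = D.ev z 0 (D.dl (some j) P) := by
  obtain ⟨h1, h2, -⟩ := hDEV D hD P z 0 hz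
  rw [← h2 j]
  exact fderiv_slice h1.differentiableAt _

theorem pd_ev (hDEV : SpecDEV) (D : QD β I Λ) (hD : D.Good)
    (P : MvPolynomial (Option I) ℂ) (w : List (Fin β)) : ∀ z : Fin β → ℂ, D.th D.o z ≠ 0 →
    pd w (fun z => D.ev z 0 P) =ᶠ[𝓝 z] fun z => D.ev z 0 (D.lw w P) := by
  induction w with
  | nil => intro z _; exact EventuallyEq.rfl
  | cons j w ih =>
    intro z hz
    filter_upwards [(ih z hz).fderiv (𝕜 := ℂ), (isOpen_V D hD).mem_nhds hz] with y hy hyz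
    show fderiv ℂ (pd w fun z => D.ev z 0 P) y _ = D.ev y 0 (D.dl (some j) (D.lw w P))
    rw [hy]
    exact ev_fderiv hDEV D hD (D.lw w P) y hyz j

/-- the degree in the variables `X_i` -/
def sI (m : Option I →₀ ℕ) : ℕ := ∑ i, m (some i)

/-- the entire function -/
noncomputable def Gd (D : QD β I Λ) (d : ℕ) (P : MvPolynomial (Option I) ℂ) (z : Fin β → ℂ) : ℂ :=
  ∑ m ∈ P.support, P.coeff m * ((∏ i, D.th i z ^ m (some i)) * D.Y z ^ m none *
    D.th D.o z ^ ((D.m + 1) * d - (sI m + D.m * m none)))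

theorem deg_le {d : ℕ} {P : MvPolynomial (Option I) ℂ} (hP : P.totalDegree ≤ d)
    {m : Option I →₀ ℕ} (hm : m ∈ P.support) : m none + sI m ≤ d := by
  have h1 := (MvPolynomial.le_totalDegree hm).trans hP
  rw [Finsupp.sum_fintype _ _ (fun _ => rfl), Fintype.sum_option] at h1
  exact h1

omit [Fintype Λ] in
theorem exp_le (D : QD β I Λ) {d : ℕ} {P : MvPolynomial (Option I) ℂ} (hP : P.totalDegree ≤ d)
    {m : Option I →₀ ℕ} (hm : m ∈ P.support) : sI m + D.m * m none ≤ (D.m + 1) * d := by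
  have h1 := deg_le hP hm
  have h2 : D.m * m none ≤ D.m * d := Nat.mul_le_mul_left _ (by omega)
  have h3 : (D.m + 1) * d = D.m * d + d := by ring
  omega

theorem Gd_diff (D : QD β I Λ) (hD : D.Good) (d : ℕ) (P : MvPolynomial (Option I) ℂ) :
    Differentiable ℂ (Gd D d P) := by
  have hth : ∀ i, Differentiable ℂ (D.th i) := hD.good.diff
  have hY := hD.Y_diff
  have hprod : ∀ m : Option I →₀ ℕ, Differentiable ℂ fun z => ∏ i, D.th i z ^ m (some i) := by
    intro m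
    fun_prop
  intro z
  unfold Gd
  refine DifferentiableAt.fun_sum fun m _ => ?_
  exact ((((hprod m).mul (hY.pow _)).mul ((hth D.o).pow _)).const_mul _) z

omit [Fintype Λ] in
theorem Gd_eq (D : QD β I Λ) (d : ℕ) (P : MvPolynomial (Option I) ℂ) (hP : P.totalDegree ≤ d)
    (z : Fin β → ℂ) (hz : D.th D.o z ≠ 0) :
    Gd D d P z = D.th D.o z ^ ((D.m + 1) * d) * D.ev z 0 P := by
  rw [ev_eq, Finset.mul_sum]
  unfold Gd
  refine Finset.sum_congr rfl fun m hm => ?_
  have h1 := exp_le D hP hm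
  have h2 : ∀ i, D.f i z = D.th i z / D.th D.o z := fun _ => rfl
  have h3 : D.ze z = D.Y z / D.th D.o z ^ D.m := rfl
  have h4 : ∏ i, D.f i z ^ m (some i) = (∏ i, D.th i z ^ m (some i)) / D.th D.o z ^ sI m := by
    simp only [h2, div_pow, Finset.prod_div_distrib]
    unfold sI
    rw [Finset.prod_pow_eq_pow_sum]
  have h5 : D.th D.o z ^ ((D.m + 1) * d) = D.th D.o z ^ ((D.m + 1) * d - (sI m + D.m * m none)) *
      (D.th D.o z ^ sI m * (D.th D.o z ^ D.m) ^ m none) := by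
    rw [← pow_mul, ← pow_add, ← pow_add, Nat.sub_add_cancel h1]
  rw [h3, h4, h5, div_pow]
  have h6 : D.th D.o z ^ sI m ≠ 0 := pow_ne_zero _ hz
  have h7 : (D.th D.o z ^ D.m) ^ m none ≠ 0 := pow_ne_zero _ (pow_ne_zero _ hz)
  field_simp

omit [Fintype Λ] in
theorem Gd_bound (D : QD β I Λ) (d : ℕ) (P : MvPolynomial (Option I) ℂ) (hP : P.totalDegree ≤ d)
    (H K : ℝ) (hH : ∑ m ∈ P.support, ‖P.coeff m‖ ≤ H) (hK : 1 ≤ K) (z : Fin β → ℂ)
    (hth : ∀ i, ‖D.th i z‖ ≤ K) (hY : ‖D.Y z‖ ≤ K) :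
    ‖Gd D d P z‖ ≤ H * K ^ ((D.m + 2) * d) := by
  have hK0 : 0 ≤ K := by linarith
  have h1 : ∀ m ∈ P.support, ‖P.coeff m * ((∏ i, D.th i z ^ m (some i)) * D.Y z ^ m none *
      D.th D.o z ^ ((D.m + 1) * d - (sI m + D.m * m none)))‖ ≤
      ‖P.coeff m‖ * K ^ ((D.m + 2) * d) := by
    intro m hm
    rw [norm_mul, norm_mul, norm_mul, norm_prod, norm_pow, norm_pow]
    refine mul_le_mul_of_nonneg_left ?_ (norm_nonneg _)
    have h2 : ∏ i, ‖D.th i z ^ m (some i)‖ ≤ K ^ sI m := by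
      unfold sI
      rw [← Finset.prod_pow_eq_pow_sum]
      refine Finset.prod_le_prod (fun i _ => norm_nonneg _) fun i _ => ?_
      rw [norm_pow]
      exact pow_le_pow_left₀ (norm_nonneg _) (hth i) _
    have h3 : ‖D.Y z‖ ^ m none ≤ K ^ m none := pow_le_pow_left₀ (norm_nonneg _) hY _
    have h4 : ‖D.th D.o z‖ ^ ((D.m + 1) * d - (sI m + D.m * m none)) ≤
        K ^ ((D.m + 1) * d - (sI m + D.m * m none)) := pow_le_pow_left₀ (norm_nonneg _) (hth _) _
    have h5 := deg_le hP hm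
    calc _ ≤ K ^ sI m * K ^ m none * K ^ ((D.m + 1) * d - (sI m + D.m * m none)) := by
          refine mul_le_mul (mul_le_mul h2 h3 (by positivity) (by positivity)) h4
            (by positivity) (by positivity)
      _ = K ^ (sI m + m none + ((D.m + 1) * d - (sI m + D.m * m none))) := by
          rw [← pow_add, ← pow_add]
      _ ≤ K ^ ((D.m + 2) * d) := by
          refine pow_le_pow_right₀ hK ?_
          have h6 : (D.m + 2) * d = (D.m + 1) * d + d := by ring
          omega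
  calc ‖Gd D d P z‖ ≤ ∑ m ∈ P.support, ‖P.coeff m‖ * K ^ ((D.m + 2) * d) := by
        unfold Gd
        exact norm_sum_le_of_le _ h1
    _ = (∑ m ∈ P.support, ‖P.coeff m‖) * K ^ ((D.m + 2) * d) := by rw [Finset.sum_mul]
    _ ≤ _ := mul_le_mul_of_nonneg_right hH (by positivity)

/-- words of `G` at a point where the lower words of `P` vanish -/
theorem pd_Gd (hDEV : SpecDEV) (D : QD β I Λ) (hD : D.Good) (d : ℕ)
    (P : MvPolynomial (Option I) ℂ) (hP : P.totalDegree ≤ d) (z : Fin β → ℂ)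
    (hz : D.th D.o z ≠ 0) (w : List (Fin β))
    (h : ∀ w' : List (Fin β), w'.length < w.length → D.ev z 0 (D.lw w' P) = 0) :
    pd w (Gd D d P) z = D.th D.o z ^ ((D.m + 1) * d) * D.ev z 0 (D.lw w P) := by
  have h1 : Gd D d P =ᶠ[𝓝 z] fun z => D.th D.o z ^ ((D.m + 1) * d) * D.ev z 0 P := by
    filter_upwards [(isOpen_V D hD).mem_nhds hz] with y hy
    exact Gd_eq D d P hP y hy
  have h2 : AnalyticAt ℂ (fun z => D.th D.o z ^ ((D.m + 1) * d)) z :=
    (U.Osgood.analyticAt_of_differentiable (hD.good.diff D.o) z).pow _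
  rw [(pd_congr w h1).self_of_nhds, leib z w.length (fun z => D.th D.o z ^ ((D.m + 1) * d))
    (fun z => D.ev z 0 P) h2 (ev_analytic hDEV D hD P z hz) w rfl (fun w' hw' => ?_),
    (pd_ev hDEV D hD P w z hz).self_of_nhds]
  rw [(pd_ev hDEV D hD P w' z hz).self_of_nhds]
  exact h w' hw'

end QD

theorem pd_pd (w w' : List (Fin β)) (F : (Fin β → ℂ) → ℂ) : pd w (pd w' F) = pd (w ++ w') F := by
  induction w with
  | nil => rfl
  | cons j w ih =>
    show (fun z => fderiv ℂ (pd w (pd w' F)) z (Pi.single j 1)) = _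
    rw [ih]
    rfl

/-- order of vanishing along a line -/
theorem van (F : (Fin β → ℂ) → ℂ) (hF : Differentiable ℂ F) (v : Fin β → ℂ) (j : ℂ) (M : ℕ)
    (h : ∀ w : List (Fin β), w.length < M → pd w F (j • v) = 0) :
    U.SchwM.Van M (fun z : Fin 1 → ℂ => F (z 0 • v)) (fun _ => j) := by
  obtain ⟨c, hc0, hc⟩ := (bigO M hF (j • v) h).exists_pos
  obtain ⟨ε, hε, hb⟩ := Metric.eventually_nhds_iff_ball.1 hc.bound
  have hv1 : 0 < ‖v‖ + 1 := by positivity
  refine ⟨c * ‖v‖ ^ M, ε / 2 / (‖v‖ + 1), by positivity, by positivity, fun z hz => ?_⟩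
  have h1 : ‖z 0 - j‖ ≤ ‖z - fun _ => j‖ := norm_le_pi_norm (z - fun _ => j) 0
  have h2 : z 0 • v = j • v + (z 0 - j) • v := by rw [sub_smul]; abel
  have h3 : ‖(z 0 - j) • v‖ = ‖z 0 - j‖ * ‖v‖ := norm_smul _ _
  have h4 : ‖(z 0 - j) • v‖ < ε := by
    rw [h3]
    have h5 : ‖z 0 - j‖ * (‖v‖ + 1) ≤ ε / 2 := by
      rw [← le_div_iff₀ hv1]
      exact h1.trans hz
    nlinarith [norm_nonneg (z 0 - j)]
  have h5 := hb _ (mem_ball_zero_iff.2 h4)
  show ‖F (z 0 • v)‖ ≤ _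
  rw [h2]
  refine h5.trans ?_
  rw [norm_pow, norm_norm, h3, mul_pow]
  calc c * (‖z 0 - j‖ ^ M * ‖v‖ ^ M) ≤ c * (‖z - fun _ => j‖ ^ M * ‖v‖ ^ M) := by gcongr
    _ = _ := by ring

end EXTM

open EXTM in
theorem specEXT (hDEV : SpecDEV) (hGRO : SpecGRO) : SpecEXT := by
  intro β I Λ _ _ D hD x hx
  obtain ⟨C, hC, hgro⟩ := hGRO D hD
  obtain ⟨v, hv⟩ : ∃ v, v = D.vec x := ⟨_, rfl⟩
  obtain ⟨C', hC'⟩ : ∃ C' : ℝ, C' = C * (D.m + 2) * (1 + (8 * ‖v‖ + 1) ^ 2) := ⟨_, rfl⟩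
  have hC'0 : 0 ≤ C' := by rw [hC']; positivity
  refine ⟨2 + C', by linarith, ?_⟩
  rw [← hv]
  intro d T S k H P hd hS hkT hP hH h0 t ht0 ht1 hth hk w hw
  have hH0 : 0 ≤ H := (Finset.sum_nonneg fun _ _ => norm_nonneg _).trans hH
  have hS' : (1 : ℝ) ≤ S := by exact_mod_cast hS
  obtain ⟨F, hF⟩ : ∃ F, F = pd w (Gd D d P) := ⟨_, rfl⟩
  have hFd : Differentiable ℂ F := by rw [hF]; exact pd_diff w (Gd_diff D hD d P)
  -- vanishing at the integers
  have hint : ∀ (j : ℤ) (w' : List (Fin β)), w'.length < T - k → pd w' F ((j : ℂ) • v) = 0 := by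
    intro j w' hw'
    have ha : (j : ℂ) • v = 0 + D.vec (j • x) := by
      rw [hv, zero_add]
      exact (QMUM.vec_smul D.toTH j x).symm
    have hL : D.L (j • x) = 0 := by rw [QMUM.L_smul, hx, mul_zero]
    have hne : D.th D.o ((j : ℂ) • v) ≠ 0 := by
      rw [ha]
      exact QMUM.ne_vec D.toTH hD.good _ hD.good.zero
    have hev : ∀ w'' : List (Fin β), w''.length < T →
        D.ev ((j : ℂ) • v) 0 (D.lw w'' P) = 0 := by
      intro w'' hw''
      rw [ha, ev_vec D hD _ hL 0 hD.good.zero]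
      exact h0 w'' hw''
    have hlen : (w' ++ w).length < T := by
      rw [List.length_append, hw]
      omega
    rw [hF, pd_pd, pd_Gd hDEV D hD d P hP _ hne (w' ++ w) (fun w'' hw'' => hev w'' (by omega)),
      hev _ hlen, mul_zero]
  -- the bound
  have hGb : ∀ y : Fin β → ℂ, ‖y‖ ≤ S * (8 * ‖v‖ + 1) →
      ‖Gd D d P y‖ ≤ H * Real.exp (C' * d * (S : ℝ) ^ 2) := by
    intro y hy
    have hK : 1 ≤ Real.exp (C * (1 + ‖y‖ ^ 2)) := Real.one_le_exp (by positivity)
    refine (Gd_bound D d P hP H _ hH hK y (hgro y).1 (hgro y).2).trans ?_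
    refine mul_le_mul_of_nonneg_left ?_ hH0
    rw [← Real.exp_nat_mul]
    apply Real.exp_le_exp.mpr
    have h1 : ‖y‖ ^ 2 ≤ (S * (8 * ‖v‖ + 1)) ^ 2 := pow_le_pow_left₀ (norm_nonneg _) hy 2
    have h2 : 1 + ‖y‖ ^ 2 ≤ (1 + (8 * ‖v‖ + 1) ^ 2) * (S : ℝ) ^ 2 := by
      have h3 : (1 : ℝ) ≤ (S : ℝ) ^ 2 := one_le_pow₀ hS'
      nlinarith
    have h4 : 0 ≤ C * (D.m + 2) * (d : ℝ) := by positivity
    push_cast
    calc ((D.m : ℝ) + 2) * d * (C * (1 + ‖y‖ ^ 2)) = C * (D.m + 2) * (d : ℝ) * (1 + ‖y‖ ^ 2) := by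
          ring
      _ ≤ C * (D.m + 2) * (d : ℝ) * ((1 + (8 * ‖v‖ + 1) ^ 2) * (S : ℝ) ^ 2) :=
          mul_le_mul_of_nonneg_left h2 h4
      _ = C' * d * (S : ℝ) ^ 2 := by rw [hC']; ring
  obtain ⟨B, hB⟩ : ∃ B : ℝ, B = H * Real.exp (C' * d * (S : ℝ) ^ 2) := ⟨_, rfl⟩
  have hFb : ∀ z : Fin 1 → ℂ, ‖z‖ ≤ 8 * S → ‖F (z 0 • v)‖ ≤ B * (k : ℝ) ^ k := by
    intro z hz
    have hz0 : ‖z 0‖ ≤ 8 * S := (norm_le_pi_norm z 0).trans hz
    have hball : ∀ y ∈ Metric.closedBall (z 0 • v) 1, ‖Gd D d P y‖ ≤ B := by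
      intro y hy
      rw [hB]
      refine hGb y ?_
      rw [Metric.mem_closedBall, dist_eq_norm] at hy
      have h1 : ‖y‖ ≤ ‖y - z 0 • v‖ + ‖z 0 • v‖ := by
        have := norm_add_le (y - z 0 • v) (z 0 • v)
        rwa [sub_add_cancel] at this
      rw [norm_smul] at h1
      have h2 : ‖z 0‖ * ‖v‖ ≤ 8 * S * ‖v‖ := mul_le_mul_of_nonneg_right hz0 (norm_nonneg _)
      nlinarith
    rw [hF]
    rcases Nat.eq_zero_or_pos k with hk0 | hk0
    · rw [hk0, pow_zero, mul_one]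
      have hw0 : w = [] := by
        rw [← List.length_eq_zero_iff, hw, hk0]
      rw [hw0]
      exact hball _ (Metric.mem_closedBall_self zero_le_one)
    · have hk0' : (0 : ℝ) < k := by exact_mod_cast hk0
      have h1 := cauchy w (Gd_diff D hD d P) (z 0 • v) (k : ℝ)⁻¹ B (inv_pos.2 hk0')
        (by rw [hw, mul_inv_cancel₀ hk0'.ne']; exact hball)
      rw [hw, inv_pow, div_inv_eq_mul] at h1
      exact h1
  -- Schwarz
  have hfd : Differentiable ℂ fun z : Fin 1 → ℂ => F (z 0 • v) := by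
    have h1 : Differentiable ℂ fun z : Fin 1 → ℂ => z 0 • v := by fun_prop
    exact hFd.comp h1
  have hs := U.SchwM.schwarz (S := S) (T := T - k) hS (r := 1) one_pos hfd (B := B * (k : ℝ) ^ k)
    (fun j _ => by
      rw [one_mul]
      have h1 := van F hFd v (j 0) (T - k) (hint (j 0))
      have h2 : (fun i : Fin 1 => ((j i : ℤ) : ℂ)) = fun _ => ((j 0 : ℤ) : ℂ) := by
        funext i
        rw [Fin.fin_one_eq_zero i]
      rw [h2]
      exact h1) hFb (fun _ => (t : ℂ)) ((pi_norm_le_iff_of_nonneg zero_le_one).2 fun _ => by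
        rw [Complex.norm_real, Real.norm_eq_abs, abs_of_nonneg ht0]
        exact ht1)
  have hval : F ((t : ℂ) • v) =
      D.th D.o ((t : ℂ) • v) ^ ((D.m + 1) * d) * D.ev ((t : ℂ) • v) 0 (D.lw w P) := by
    rw [hF]
    exact pd_Gd hDEV D hD d P hP _ hth w fun w' hw' => hk w' (by rwa [hw] at hw')
  have hs' : ‖F ((t : ℂ) • v)‖ ≤ 2 ^ 1 * (B * (k : ℝ) ^ k) * (1 / 2 : ℝ) ^ ((T - k) * S) := hs
  rw [hval, norm_mul, norm_pow] at hs'
  rw [mul_comm]
  refine hs'.trans ?_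
  have hexp : Real.exp (C' * d * (S : ℝ) ^ 2) ≤ Real.exp ((2 + C') * d * (S : ℝ) ^ 2) := by
    apply Real.exp_le_exp.mpr
    have : 0 ≤ (d : ℝ) * (S : ℝ) ^ 2 := by positivity
    nlinarith
  calc 2 ^ 1 * (B * (k : ℝ) ^ k) * (1 / 2 : ℝ) ^ ((T - k) * S)
      = 2 * H * (k : ℝ) ^ k * Real.exp (C' * d * (S : ℝ) ^ 2) * (1 / 2 : ℝ) ^ ((T - k) * S) := by
        rw [hB]; ring
    _ ≤ (2 + C') * H * (k : ℝ) ^ k * Real.exp ((2 + C') * d * (S : ℝ) ^ 2) *
        (1 / 2 : ℝ) ^ ((T - k) * S) := by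
        gcongr
        linarith

end Pool.Agent.Lib.MPf11a48.AS
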