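import Pool.Agent.Lib.MP_f11a48_ag.AS.SpecF
import Pool.Agent.Lib.MP_f11a48_ag.AS.SpecZ
import Pool.Agent.Lib.MP_f11a48_ag.U.Osgood

/-!
# Project AS, module FIN: finiteness
-/

set_option autoImplicit false

open MvPolynomial Pool.Agent.Lib.MPf11a48.CM Filter Topology Asymptotics

namespace Pool.Agent.Lib.MPf11a48.AS

namespace FINM

theorem AG1_congr {u₀ : ℂ} {g h : ℂ → ℂ} (hg : AG1 u₀ g) (he : ∀ᶠ u in 𝓝 u₀, h u = g u) :
    AG1 u₀ h := by
  obtain ⟨h1, Q, hQ, h2⟩ := hg
  refine ⟨h1.congr (he.mono fun u hu => hu.symm), Q, hQ, ?_⟩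
  filter_upwards [he, h2] with u h3 h4
  rw [h3, h4]

theorem AG1_sub_const {u₀ : ℂ} {g : ℂ → ℂ} (hg : AG1 u₀ g) (c : ℂ) :
    AG1 u₀ fun u => g u - c := by
  obtain ⟨h1, Q, hQ, h2⟩ := hg
  refine ⟨h1.sub analyticAt_const,
    Q.comp (Polynomial.X + Polynomial.C (Polynomial.C c)), ?_, ?_⟩
  · intro h0
    apply hQ
    have h3 := congrArg (fun R : Polynomial (Polynomial ℂ) =>
      R.comp (Polynomial.X - Polynomial.C (Polynomial.C c))) h0
    simp only [Polynomial.zero_comp, Polynomial.comp_assoc, Polynomial.add_comp,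
      Polynomial.X_comp, Polynomial.C_comp, sub_add_cancel, Polynomial.comp_X] at h3
    exact h3
  · filter_upwards [h2] with u h3
    rw [Polynomial.map_comp, Polynomial.eval_comp]
    simp only [Polynomial.map_add, Polynomial.map_X, Polynomial.map_C,
      Polynomial.coe_evalRingHom, Polynomial.eval_C, Polynomial.eval_add, Polynomial.eval_X,
      sub_add_cancel]
    exact h3

end FINM

open FINM in
theorem specFIN (hARC : SpecARC) (hLFT : SpecLFT) (hTAN : SpecTAN) (hAX : SpecAX) :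
    SpecFIN := by
  intro β I Λ _ _ D hD hSS Cc hC d P hdeg hP
  by_contra hfin
  obtain ⟨u₀, w, hw, hJ, t, ht⟩ := hARC _ hfin
  -- the lift
  have hnf : ∀ᶠ u in 𝓝 u₀, ∀ Q ∈ D.toTH.nf, eval (fun i => w (some i) u) Q = 0 := by
    filter_upwards [hJ] with u hu Q hQ
    have h1 : rename some Q ∈ D.nn := by
      intro z ρ hz
      unfold QD.ev
      rw [aeval_rename]
      have h2 := hQ z hz
      rw [← coe_aeval_eq_eval] at h2
      exact h2
    have h3 := hu _ (Ideal.mem_sup_left h1)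
    rw [eval_rename] at h3
    exact h3
  obtain ⟨ζ, hζ, hζ'⟩ := hLFT D.toTH hD.good u₀ (fun i => w (some i)) (fun i => (hw (some i)).1) hnf
  have hz0 : D.th D.o (ζ u₀) ≠ 0 := hζ'.self_of_nhds.1
  have hze : AnalyticAt ℂ D.ze (ζ u₀) :=
    (Pool.Agent.Lib.MPf11a48.U.Osgood.analyticAt_of_differentiable hD.Y_diff _).div
      ((Pool.Agent.Lib.MPf11a48.U.Osgood.analyticAt_of_differentiable
        (hD.good.diff D.o) _).pow _) (pow_ne_zero _ hz0)
  have hzeζ : AnalyticAt ℂ (fun u => D.ze (ζ u)) u₀ :=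
    AnalyticAt.fun_comp (g := D.ze) (f := ζ) hze hζ
  set ρ : ℂ → ℂ := fun u => w none u - D.ze (ζ u) with hρdef
  have hρ : AnalyticAt ℂ ρ u₀ := (hw none).1.sub hzeζ
  have hev : ∀ᶠ u in 𝓝 u₀, ∀ Q, D.ev (ζ u) (ρ u) Q = eval (fun k => w k u) Q := by
    filter_upwards [hζ'] with u hu Q
    have hfun : (fun i : Option I => Option.elim i (D.ze (ζ u) + ρ u) fun i => D.f i (ζ u)) =
        fun k => w k u := by
      funext k
      rcases k with _ | i
      · show D.ze (ζ u) + (w none u - D.ze (ζ u)) = w none u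
        ring
      · exact congrFun hu.2 i
    unfold QD.ev
    rw [hfun, ← coe_aeval_eq_eval]
    rfl
  by_cases hconst : ∀ᶠ u in 𝓝 u₀, ρ u = ρ u₀
  · -- the arc lies in a leaf
    have h1 : ∀ᶠ u in 𝓝 u₀, ζ u = ζ u₀ := by
      refine hAX D hD hSS u₀ ζ hζ hz0 (fun i => ?_) ?_
      · refine AG1_congr (hw (some i)) ?_
        filter_upwards [hζ'] with u hu
        exact congrFun hu.2 i
      · refine AG1_congr (AG1_sub_const (hw none) (ρ u₀)) ?_
        filter_upwards [hconst] with u hu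
        rw [← hu, hρdef]
        ring
    have h2 : ∀ᶠ u in 𝓝 u₀, u = u₀ := by
      have h3 := ht.self_of_nhds
      have h4 := hev.self_of_nhds t
      filter_upwards [h1, ht, hev, hconst] with u h5 h6 h7 h8
      rw [← h6, ← h7 t, h5, h8, h4, h3]
    obtain ⟨ε, hε, hb⟩ := Metric.eventually_nhds_iff_ball.1 h2
    have h5 := hb (u₀ + (ε / 2 : ℝ)) (by
      rw [mem_ball_iff_norm, add_sub_cancel_left, Complex.norm_real, Real.norm_eq_abs,
        abs_of_pos (by positivity)]
      linarith)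
    have h6 : ((ε / 2 : ℝ) : ℂ) = 0 := by
      have := add_eq_left.1 h5
      exact this
    have h7 : ε / 2 = 0 := by exact_mod_cast h6
    linarith
  · refine hP (hTAN D hD Cc hC d P hdeg u₀ ζ ρ hζ hρ hz0 (fun v hv => ?_) hconst)
    filter_upwards [hJ, hev] with u hu hu'
    rw [hu' (D.lw v P)]
    exact hu _ (Ideal.mem_sup_right (Ideal.subset_span ⟨v, hv, rfl⟩))

end Pool.Agent.Lib.MPf11a48.AS
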