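import Pool.Agent.Lib.MP_f11a48_ag.AS.SpecT
import Pool.Agent.Lib.MP_f11a48_ag.U.Grow

/-!
# Project AS, block T, module GRO: growth of theta functions
-/

set_option autoImplicit false

open MvPolynomial Pool.Agent.Lib.MPf11a48.CM Filter Topology Asymptotics

namespace Pool.Agent.Lib.MPf11a48.AS

namespace GROM

variable {β : ℕ} {I Λ : Type} [Fintype I] [Fintype Λ]

omit [Fintype I] in
theorem vec_single [DecidableEq Λ] (D : TH (Fin β) I Λ) (l : Λ) :
    D.vec (Pi.single l 1) = D.lat l := by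
  unfold TH.vec
  rw [Finset.sum_eq_single l]
  · simp
  · intro j _ hj
    simp [Pi.single_eq_of_ne hj]
  · intro h
    exact absurd (Finset.mem_univ l) h

omit [Fintype I] in
theorem al_single [DecidableEq Λ] (D : TH (Fin β) I Λ) (l : Λ) :
    D.al (Pi.single l 1) = D.a l := by
  unfold TH.al
  rw [Finset.sum_eq_single l]
  · simp
  · intro j _ hj
    simp [Pi.single_eq_of_ne hj]
  · intro h
    exact absurd (Finset.mem_univ l) h

theorem th_aut (D : TH (Fin β) I Λ) (hD : D.Good) (l : Λ) (i : I) (z : Fin β → ℂ) :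
    D.th i (z + D.lat l) = Complex.exp (D.a l z + D.a l (D.lat l) / 2) * D.th i z := by
  classical
  have h := hD.aut (Pi.single l 1) i z
  rwa [vec_single, al_single] at h

/-- Transformation of `Y`. -/
theorem Y_aut (D : QD β I Λ) (hD : D.Good) (l : Λ) (z : Fin β → ℂ) : D.Y (z + D.lat l) =
      Complex.exp (D.a l z + D.a l (D.lat l) / 2) ^ D.m *
        (D.Y z + D.ell l * D.th D.o z ^ D.m) := by
  have hd1 : Differentiable ℂ fun z => D.Y (z + D.lat l) :=
    hD.Y_diff.comp (differentiable_id.add_const _)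
  have hal : Differentiable ℂ fun z => D.a l z :=
    (LinearMap.toContinuousLinearMap (D.a l)).differentiable
  have hd2 : Differentiable ℂ fun z =>
      Complex.exp (D.a l z + D.a l (D.lat l) / 2) ^ D.m *
        (D.Y z + D.ell l * D.th D.o z ^ D.m) :=
    ((hal.add_const _).cexp.pow _).mul
      (hD.Y_diff.add (((hD.good.diff D.o).pow _).const_mul _))
  have h1 : AnalyticOnNhd ℂ (fun z => D.Y (z + D.lat l)) Set.univ :=
    fun z _ => U.Osgood.analyticAt_of_differentiable hd1 z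
  have h2 : AnalyticOnNhd ℂ (fun z =>
      Complex.exp (D.a l z + D.a l (D.lat l) / 2) ^ D.m *
        (D.Y z + D.ell l * D.th D.o z ^ D.m)) Set.univ :=
    fun z _ => U.Osgood.analyticAt_of_differentiable hd2 z
  have h3 : (fun z => D.Y (z + D.lat l)) =ᶠ[𝓝 0] fun z =>
      Complex.exp (D.a l z + D.a l (D.lat l) / 2) ^ D.m *
        (D.Y z + D.ell l * D.th D.o z ^ D.m) := by
    have h4 : ∀ᶠ z in 𝓝 (0 : Fin β → ℂ), D.th D.o z ≠ 0 :=
      (hD.good.diff D.o).continuous.continuousAt.eventually_ne hD.good.zero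
    filter_upwards [h4] with z hz
    have h5 := hD.per l z hz
    have h6 : D.th D.o (z + D.lat l) ≠ 0 := by
      rw [th_aut D.toTH hD.good]
      exact mul_ne_zero (Complex.exp_ne_zero _) hz
    unfold QD.ze at h5
    rw [div_eq_iff (pow_ne_zero _ h6), th_aut D.toTH hD.good] at h5
    rw [h5, mul_pow]
    field_simp
  have h4 := h1.eq_of_eventuallyEq h2 h3
  exact congrFun h4 z

/-- an enumeration of the basis of the lattice -/
noncomputable def enu (hcard : Fintype.card Λ = 2 * β) : (Fin β ⊕ Fin β) ≃ Λ :=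
  Fintype.equivOfCardEq (by rw [hcard]; simp [two_mul])

omit [Fintype I] in
/-- growth from quasi-periodicity, for any index set of the lattice -/
theorem growth' (lat : Λ → (Fin β → ℂ)) (hlat : LinearIndependent ℝ lat)
    (hcard : Fintype.card Λ = 2 * β) (H : (Fin β → ℂ) → ℝ)
    (hc : Continuous H) (h0 : ∀ z, 0 ≤ H z) (c : ℝ) (hc0 : 0 ≤ c)
    (h1 : ∀ l z, H (z + lat l) ≤ Real.exp (c * (1 + ‖z‖)) * H z)
    (h2 : ∀ l z, H (z - lat l) ≤ Real.exp (c * (1 + ‖z‖)) * H z) :
    ∃ C : ℝ, ∀ z, H z ≤ Real.exp (C * (1 + ‖z‖ ^ 2)) :=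
  U.GrowM.growth (fun i => lat (enu hcard i)) (hlat.comp _ (enu hcard).injective) H hc h0 c hc0
    (fun l z => h1 (enu hcard l) z) (fun l z => h2 (enu hcard l) z)

omit [Fintype I] in
/-- The automorphy factors. -/
theorem factor_bound' (hcard : Fintype.card Λ = 2 * β) (lat : Λ → (Fin β → ℂ))
    (a : Λ → (Fin β → ℂ) →ₗ[ℂ] ℂ)
    (b : Λ → ℂ) : ∃ c : ℝ, 0 ≤ c ∧ (∀ l z, ‖Complex.exp (a l z + b l)‖ ≤
      Real.exp (c * (1 + ‖z‖))) ∧ ∀ l z, ‖Complex.exp (-(a l (z - lat l) + b l))‖ ≤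
      Real.exp (c * (1 + ‖z‖)) := by
  obtain ⟨c, h0, h1, h2⟩ := U.GrowM.factor_bound (fun i => lat (enu hcard i))
    (fun i => a (enu hcard i)) (fun i => b (enu hcard i))
  refine ⟨c, h0, fun l z => ?_, fun l z => ?_⟩
  · have h := h1 ((enu hcard).symm l) z
    simpa using h
  · have h := h2 ((enu hcard).symm l) z
    simpa only [Equiv.apply_symm_apply] using h

/-- Growth of theta functions. -/
theorem th_growth (D : TH (Fin β) I Λ) (hD : D.Good) :
    ∃ C : ℝ, ∀ i z, ‖D.th i z‖ ≤ Real.exp (C * (1 + ‖z‖ ^ 2)) := by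
  have hcard : Fintype.card Λ = 2 * β := by
    have := hD.card
    rwa [Fintype.card_fin] at this
  obtain ⟨c, hc0, hc1, hc2⟩ := factor_bound' hcard D.lat D.a (fun l => D.a l (D.lat l) / 2)
  obtain ⟨C, hC⟩ := growth' D.lat hD.indep hcard (fun z => ∑ i, ‖D.th i z‖)
    (continuous_finsetSum _ fun i _ => (hD.diff i).continuous.norm)
    (fun z => Finset.sum_nonneg fun i _ => norm_nonneg _) c hc0
    (fun l z => by
      rw [Finset.mul_sum]
      refine Finset.sum_le_sum fun i _ => ?_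
      rw [th_aut D hD, norm_mul]
      exact mul_le_mul_of_nonneg_right (hc1 l z) (norm_nonneg _))
    (fun l z => by
      rw [Finset.mul_sum]
      refine Finset.sum_le_sum fun i _ => ?_
      have h1 := th_aut D hD l i (z - D.lat l)
      rw [sub_add_cancel] at h1
      have h2 : D.th i (z - D.lat l) =
          Complex.exp (-(D.a l (z - D.lat l) + D.a l (D.lat l) / 2)) * D.th i z := by
        rw [h1, ← mul_assoc, ← Complex.exp_add, neg_add_cancel, Complex.exp_zero, one_mul]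
      rw [h2, norm_mul]
      exact mul_le_mul_of_nonneg_right (hc2 l z) (norm_nonneg _))
  exact ⟨C, fun i z => (Finset.single_le_sum (f := fun i => ‖D.th i z‖) (fun i _ => norm_nonneg _)
    (Finset.mem_univ i)).trans (hC z)⟩

/-- Growth of `Y`. -/
theorem Y_growth (D : QD β I Λ) (hD : D.Good) :
    ∃ C : ℝ, ∀ z, ‖D.Y z‖ ≤ Real.exp (C * (1 + ‖z‖ ^ 2)) := by
  have hDt := hD.good
  have hcard : Fintype.card Λ = 2 * β := by
    have := hDt.card
    rwa [Fintype.card_fin] at this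
  obtain ⟨c, hc0, hc1, hc2⟩ := factor_bound' hcard D.lat D.a (fun l => D.a l (D.lat l) / 2)
  set S : ℝ := ∑ l, ‖D.ell l‖ with hS
  have hS0 : 0 ≤ S := Finset.sum_nonneg fun l _ => norm_nonneg _
  have hSl : ∀ l, ‖D.ell l‖ ≤ S := fun l =>
    Finset.single_le_sum (f := fun l => ‖D.ell l‖) (fun l _ => norm_nonneg _) (Finset.mem_univ l)
  have hpow : ∀ z : Fin β → ℂ, Real.exp (c * (1 + ‖z‖)) ^ D.m * (1 + S) ≤
      Real.exp ((D.m * c + S) * (1 + ‖z‖)) := by
    intro z
    have h1 : 1 + S ≤ Real.exp S := by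
      have := Real.add_one_le_exp S
      linarith
    refine (mul_le_mul_of_nonneg_left h1 (by positivity)).trans ?_
    rw [← Real.exp_nat_mul, ← Real.exp_add]
    refine Real.exp_le_exp.2 ?_
    have h2 := norm_nonneg z
    nlinarith [mul_nonneg hS0 h2]
  -- the common estimate
  have step : ∀ (z w : Fin β → ℂ) (l : Λ),
      ‖D.Y w‖ ≤ Real.exp (c * (1 + ‖z‖)) ^ D.m * (‖D.Y z‖ + ‖D.ell l‖ * ‖D.th D.o z‖ ^ D.m) →
      ‖D.th D.o w‖ ^ D.m ≤ Real.exp (c * (1 + ‖z‖)) ^ D.m * ‖D.th D.o z‖ ^ D.m →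
      ‖D.Y w‖ + ‖D.th D.o w‖ ^ D.m ≤
        Real.exp ((D.m * c + S) * (1 + ‖z‖)) * (‖D.Y z‖ + ‖D.th D.o z‖ ^ D.m) := by
    intro z w l h1 h2
    have h4 : 0 ≤ ‖D.Y z‖ := norm_nonneg _
    have h5 : (0 : ℝ) ≤ ‖D.th D.o z‖ ^ D.m := by positivity
    have h6 : (0 : ℝ) ≤ Real.exp (c * (1 + ‖z‖)) ^ D.m := by positivity
    refine le_trans ?_ (mul_le_mul_of_nonneg_right (hpow z) (add_nonneg h4 h5))
    have h7 : ‖D.ell l‖ * ‖D.th D.o z‖ ^ D.m ≤ S * ‖D.th D.o z‖ ^ D.m :=
      mul_le_mul_of_nonneg_right (hSl l) h5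
    calc ‖D.Y w‖ + ‖D.th D.o w‖ ^ D.m
        ≤ Real.exp (c * (1 + ‖z‖)) ^ D.m * (‖D.Y z‖ + S * ‖D.th D.o z‖ ^ D.m) +
          Real.exp (c * (1 + ‖z‖)) ^ D.m * ‖D.th D.o z‖ ^ D.m :=
          add_le_add (h1.trans (mul_le_mul_of_nonneg_left (by linarith) h6)) h2
      _ = Real.exp (c * (1 + ‖z‖)) ^ D.m * (‖D.Y z‖ + (1 + S) * ‖D.th D.o z‖ ^ D.m) := by
          ring
      _ ≤ Real.exp (c * (1 + ‖z‖)) ^ D.m * ((1 + S) * (‖D.Y z‖ + ‖D.th D.o z‖ ^ D.m)) := by
          refine mul_le_mul_of_nonneg_left ?_ h6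
          nlinarith [mul_nonneg hS0 h4]
      _ = Real.exp (c * (1 + ‖z‖)) ^ D.m * (1 + S) * (‖D.Y z‖ + ‖D.th D.o z‖ ^ D.m) := by ring
  obtain ⟨C, hC⟩ := growth' D.lat hDt.indep hcard (fun z => ‖D.Y z‖ + ‖D.th D.o z‖ ^ D.m)
    (hD.Y_diff.continuous.norm.add ((hDt.diff D.o).continuous.norm.pow _))
    (fun z => add_nonneg (norm_nonneg _) (by positivity))
    (D.m * c + S) (by positivity)
    (fun l z => by
      refine step z (z + D.lat l) l ?_ ?_
      · rw [Y_aut D hD, norm_mul, norm_pow]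
        refine mul_le_mul (pow_le_pow_left₀ (norm_nonneg _) (hc1 l z) _) ?_ (norm_nonneg _)
          (by positivity)
        refine (norm_add_le _ _).trans ?_
        rw [norm_mul, norm_pow]
      · rw [th_aut D.toTH hDt, norm_mul, mul_pow]
        exact mul_le_mul_of_nonneg_right (pow_le_pow_left₀ (norm_nonneg _) (hc1 l z) _)
          (by positivity))
    (fun l z => by
      set w := z - D.lat l with hw
      have hwz : w + D.lat l = z := sub_add_cancel _ _
      have h0 : D.th D.o w = Complex.exp (-(D.a l w + D.a l (D.lat l) / 2)) * D.th D.o z := by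
        rw [← hwz, th_aut D.toTH hDt, ← mul_assoc, ← Complex.exp_add, neg_add_cancel,
          Complex.exp_zero, one_mul]
      have hY : D.Y w = Complex.exp (-(D.a l w + D.a l (D.lat l) / 2)) ^ D.m *
          (D.Y z - D.ell l * D.th D.o z ^ D.m) := by
        have h1 := Y_aut D hD l w
        rw [hwz] at h1
        have h2 : Complex.exp (-(D.a l w + D.a l (D.lat l) / 2)) ^ D.m *
            Complex.exp (D.a l w + D.a l (D.lat l) / 2) ^ D.m = 1 := by
          rw [← mul_pow, ← Complex.exp_add, neg_add_cancel, Complex.exp_zero, one_pow]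
        have h3 : D.th D.o w ^ D.m = Complex.exp (-(D.a l w + D.a l (D.lat l) / 2)) ^ D.m *
            D.th D.o z ^ D.m := by
          rw [h0, mul_pow]
        rw [h1, mul_sub, ← mul_assoc, h2, one_mul]
        have h4 : Complex.exp (-(D.a l w + D.a l (D.lat l) / 2)) ^ D.m *
            (D.ell l * D.th D.o z ^ D.m) = D.ell l * D.th D.o w ^ D.m := by
          rw [h3]
          ring
        rw [h4]
        ring
      refine step z w l ?_ ?_
      · rw [hY, norm_mul, norm_pow]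
        refine mul_le_mul (pow_le_pow_left₀ (norm_nonneg _) (hc2 l z) _) ?_ (norm_nonneg _)
          (by positivity)
        refine (norm_sub_le _ _).trans ?_
        rw [norm_mul, norm_pow]
      · rw [h0, norm_mul, mul_pow]
        exact mul_le_mul_of_nonneg_right (pow_le_pow_left₀ (norm_nonneg _) (hc2 l z) _)
          (by positivity))
  refine ⟨C, fun z => le_trans ?_ (hC z)⟩
  have h2 : (0 : ℝ) ≤ ‖D.th D.o z‖ ^ D.m := by positivity
  show ‖D.Y z‖ ≤ ‖D.Y z‖ + ‖D.th D.o z‖ ^ D.m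
  linarith

end GROM

open GROM in
/-- Growth. -/
theorem specGRO : SpecGRO := by
  intro β I Λ _ _ D hD
  obtain ⟨C1, h1⟩ := th_growth D.toTH hD.good
  obtain ⟨C2, h2⟩ := Y_growth D hD
  refine ⟨max 1 (max C1 C2), le_max_left _ _, fun z => ⟨fun i => ?_, ?_⟩⟩
  · refine (h1 i z).trans (Real.exp_le_exp.2 ?_)
    exact mul_le_mul_of_nonneg_right ((le_max_left _ _).trans (le_max_right _ _)) (by positivity)
  · refine (h2 z).trans (Real.exp_le_exp.2 ?_)
    exact mul_le_mul_of_nonneg_right ((le_max_right _ _).trans (le_max_right _ _)) (by positivity)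

end Pool.Agent.Lib.MPf11a48.AS
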