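import Pool.Agent.Lib.MP_f11a48_ag.AS.SpecF

/-!
# Project AS, block F, module GRW: growth
-/

set_option autoImplicit false

open MvPolynomial Pool.Agent.Lib.MPf11a48.CM Filter Topology Asymptotics

namespace Pool.Agent.Lib.MPf11a48.AS

namespace GRWM

/-- polynomial growth in terms of `y`, on a set -/
def PG {V W : Type} [NormedAddCommGroup W] (y : V → W) (S : Set V) (g : V → ℝ) : Prop :=
  ∃ (C : ℝ) (κ : ℕ), 0 < C ∧ ∀ z ∈ S, g z ≤ C * (1 + ‖y z‖) ^ κ

theorem one_le {W : Type} [NormedAddCommGroup W] (y : W) : 1 ≤ 1 + ‖y‖ := by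
  have := norm_nonneg y
  linarith

theorem PG.mono {V W : Type} [NormedAddCommGroup W] {y : V → W} {S : Set V} {g h : V → ℝ}
    (hg : PG y S g) (hh : ∀ z ∈ S, h z ≤ g z) : PG y S h := by
  obtain ⟨C, κ, hC, h1⟩ := hg
  exact ⟨C, κ, hC, fun z hz => (hh z hz).trans (h1 z hz)⟩

theorem PG.const {V W : Type} [NormedAddCommGroup W] (y : V → W) (S : Set V) (c : ℝ) :
    PG y S fun _ => c := by
  refine ⟨max c 1, 0, lt_of_lt_of_le one_pos (le_max_right _ _), fun z _ => ?_⟩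
  rw [pow_zero, mul_one]
  exact le_max_left _ _

theorem PG.add {V W : Type} [NormedAddCommGroup W] {y : V → W} {S : Set V} {g h : V → ℝ}
    (hg : PG y S g) (hh : PG y S h) : PG y S fun z => g z + h z := by
  obtain ⟨C, κ, hC, h1⟩ := hg
  obtain ⟨C', κ', hC', h2⟩ := hh
  refine ⟨C + C', κ + κ', by positivity, fun z hz => ?_⟩
  have h3 := h1 z hz
  have h4 := h2 z hz
  have h5 : (1 + ‖y z‖) ^ κ ≤ (1 + ‖y z‖) ^ (κ + κ') :=
    pow_le_pow_right₀ (one_le _) (by omega)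
  have h6 : (1 + ‖y z‖) ^ κ' ≤ (1 + ‖y z‖) ^ (κ + κ') :=
    pow_le_pow_right₀ (one_le _) (by omega)
  have h7 := mul_le_mul_of_nonneg_left h5 hC.le
  have h8 := mul_le_mul_of_nonneg_left h6 hC'.le
  linarith

theorem PG.mul {V W : Type} [NormedAddCommGroup W] {y : V → W} {S : Set V} {g h : V → ℝ}
    (hg : PG y S g) (hh : PG y S h) (hg0 : ∀ z ∈ S, 0 ≤ g z) (hh0 : ∀ z ∈ S, 0 ≤ h z) :
    PG y S fun z => g z * h z := by
  obtain ⟨C, κ, hC, h1⟩ := hg
  obtain ⟨C', κ', hC', h2⟩ := hh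
  refine ⟨C * C', κ + κ', by positivity, fun z hz => ?_⟩
  have h3 := mul_le_mul (h1 z hz) (h2 z hz) (hh0 z hz)
    ((hg0 z hz).trans (h1 z hz))
  refine h3.trans (le_of_eq ?_)
  rw [pow_add]
  ring

theorem PG.pow {V W : Type} [NormedAddCommGroup W] {y : V → W} {S : Set V} {g : V → ℝ}
    (hg : PG y S g) (hg0 : ∀ z ∈ S, 0 ≤ g z) (k : ℕ) :
    PG y S fun z => g z ^ k := by
  induction k with
  | zero => simpa using PG.const y S 1
  | succ k ih =>
    have := ih.mul hg (fun z hz => pow_nonneg (hg0 z hz) k) hg0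
    simpa only [pow_succ] using this

theorem PG.sum {V W ι : Type} [NormedAddCommGroup W] {y : V → W} {S : Set V} {g : ι → V → ℝ}
    (s : Finset ι) (hg : ∀ i ∈ s, PG y S (g i)) : PG y S fun z => ∑ i ∈ s, g i z := by
  classical
  induction s using Finset.induction_on with
  | empty => simpa using PG.const y S 0
  | insert i s hi ih =>
    simp only [Finset.sum_insert hi]
    exact (hg i (Finset.mem_insert_self i s)).add
      (ih fun j hj => hg j (Finset.mem_insert_of_mem hj))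

theorem PG.poly {V Z : Type} [Fintype Z] (y : V → (Z → ℂ)) (S : Set V) (P : MvPolynomial Z ℂ) :
    PG y S fun z => ‖eval (y z) P‖ := by
  induction P using MvPolynomial.induction_on with
  | C a => simpa using PG.const y S ‖a‖
  | add p q hp hq =>
    refine (hp.add hq).mono fun z _ => ?_
    rw [map_add]
    exact norm_add_le _ _
  | mul_X p k hp =>
    have h1 : PG y S fun z => ‖y z k‖ := by
      refine ⟨1, 1, one_pos, fun z _ => ?_⟩
      have := norm_le_pi_norm (y z) k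
      rw [one_mul, pow_one]
      linarith
    refine (hp.mul h1 (fun _ _ => norm_nonneg _) fun _ _ => norm_nonneg _).mono fun z _ => ?_
    rw [map_mul, eval_X, norm_mul]

/-- bound for the roots of a monic polynomial -/
theorem root_le (p : Polynomial ℂ) (hp : p.Monic) {x : ℂ} (hx : p.eval x = 0) :
    ‖x‖ ≤ ∑ k ∈ Finset.range p.natDegree, ‖p.coeff k‖ + 1 := by
  have h1 := Polynomial.IsRoot.norm_lt_cauchyBound hp.ne_zero (show p.IsRoot x from hx)
  have h2 : (Polynomial.cauchyBound p : ℝ) ≤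
      ∑ k ∈ Finset.range p.natDegree, ‖p.coeff k‖ + 1 := by
    unfold Polynomial.cauchyBound
    rw [hp.leadingCoeff, nnnorm_one, div_one, NNReal.coe_add, NNReal.coe_one]
    have h3 : ((Finset.range p.natDegree).sup fun k => ‖p.coeff k‖₊) ≤
        ∑ k ∈ Finset.range p.natDegree, ‖p.coeff k‖₊ :=
      Finset.sup_le fun k hk => Finset.single_le_sum (f := fun k => ‖p.coeff k‖₊)
        (fun _ _ => zero_le) hk
    have h4 := NNReal.coe_le_coe.2 h3
    rw [NNReal.coe_sum] at h4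
    simpa using h4
  have h5 : ‖x‖ < (Polynomial.cauchyBound p : ℝ) := by exact_mod_cast h1
  linarith

variable {Z I Λ : Type} [Fintype Z] [Fintype I] [Fintype Λ]

omit [Fintype I] [Fintype Λ] in
/-- the functions `f_i` have polynomial growth -/
theorem PGf (D : TH Z I Λ) {N : TH.Nor I Z} (hN : D.NorGood N) (i : I) :
    PG (D.yv N) {z | D.th D.o z ≠ 0} fun z => ‖D.f i z‖ := by
  have h1 : PG (D.yv N) {z | D.th D.o z ≠ 0} fun z =>
      ∑ k ∈ Finset.range (N.Q i).natDegree, ‖eval (D.yv N z) ((N.Q i).coeff k)‖ + 1 :=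
    (PG.sum _ fun k _ => PG.poly _ _ _).add (PG.const _ _ 1)
  refine h1.mono fun z hz => ?_
  have h2 := root_le _ ((hN.monic i).map (eval (D.yv N z))) (hN.root i z hz)
  rw [(hN.monic i).natDegree_map] at h2
  simpa only [Polynomial.coeff_map] using h2

theorem PGsum (D : TH Z I Λ) {N : TH.Nor I Z} (hN : D.NorGood N) :
    PG (D.yv N) {z | D.th D.o z ≠ 0} fun z => ∑ i, ‖D.f i z‖ :=
  PG.sum _ fun i _ => PGf D hN i

theorem part1 (D : TH Z I Λ) (hD : D.Good) {N : TH.Nor I Z} (hN : D.NorGood N) (R : ℝ) :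
    ∃ (C : ℝ) (κ : ℕ), 0 < C ∧ ∀ z, ‖z‖ ≤ R → D.th D.o z ≠ 0 →
      1 ≤ C * (1 + ‖D.yv N z‖) ^ κ * ‖D.th D.o z‖ := by
  obtain ⟨C, κ, hC, h1⟩ := PGsum D hN
  have hc : Continuous fun z : Z → ℂ => ∑ i, ‖D.th i z‖ :=
    continuous_finsetSum _ fun i _ => (hD.diff i).continuous.norm
  have hpos : ∀ z, 0 < ∑ i, ‖D.th i z‖ := by
    intro z
    obtain ⟨i, hi⟩ := hD.ne z
    exact Finset.sum_pos' (fun _ _ => norm_nonneg _) ⟨i, Finset.mem_univ _, norm_pos_iff.2 hi⟩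
  obtain ⟨c, hc0, hcb⟩ : ∃ c : ℝ, 0 < c ∧ ∀ z : Z → ℂ, ‖z‖ ≤ R → c ≤ ∑ i, ‖D.th i z‖ := by
    rcases (Metric.closedBall (0 : Z → ℂ) R).eq_empty_or_nonempty with he | hne
    · refine ⟨1, one_pos, fun z hz => ?_⟩
      have : z ∈ Metric.closedBall (0 : Z → ℂ) R := by
        rw [mem_closedBall_zero_iff]
        exact hz
      rw [he] at this
      exact absurd this (Set.notMem_empty _)
    · obtain ⟨z₀, -, h2⟩ := (isCompact_closedBall (0 : Z → ℂ) R).exists_isMinOn hne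
        hc.continuousOn
      refine ⟨_, hpos z₀, fun z hz => h2 ?_⟩
      rw [mem_closedBall_zero_iff]
      exact hz
  refine ⟨C / c, κ, by positivity, fun z hz h0 => ?_⟩
  have h2 := h1 z h0
  have h3 := hcb z hz
  have h4 : ∑ i, ‖D.th i z‖ = (∑ i, ‖D.f i z‖) * ‖D.th D.o z‖ := by
    rw [Finset.sum_mul]
    refine Finset.sum_congr rfl fun i _ => ?_
    rw [← norm_mul]
    unfold TH.f
    rw [div_mul_cancel₀ _ h0]
  have h5 : c ≤ C * (1 + ‖D.yv N z‖) ^ κ * ‖D.th D.o z‖ := by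
    rw [h4] at h3
    exact h3.trans (mul_le_mul_of_nonneg_right h2 (norm_nonneg _))
  have h6 : C / c * (1 + ‖D.yv N z‖) ^ κ * ‖D.th D.o z‖ =
      (C * (1 + ‖D.yv N z‖) ^ κ * ‖D.th D.o z‖) / c := by ring
  rw [h6, le_div_iff₀ hc0, one_mul]
  exact h5

end GRWM

open GRWM in
/-- Growth. -/
theorem specGRW (hBAS : SpecBAS) : SpecGRW := by
  intro Z I Λ _ _ _ D hD N hN
  refine ⟨part1 D hD hN, ?_⟩
  rintro A ⟨⟨k, G, hG, hAG⟩, hper⟩
  obtain ⟨hb1, -, -, -, -, -, hb7, R, hR1, hR⟩ := hBAS D hD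
  obtain ⟨C, κ, hC, h1⟩ := part1 D hD hN R
  obtain ⟨M, hM⟩ := (isCompact_closedBall (0 : Z → ℂ) R).exists_bound_of_continuousOn
    hG.continuous.continuousOn
  have hpg : PG (D.yv N) {z | D.th D.o z ≠ 0}
      fun z => max M 0 * (C * (1 + ‖D.yv N z‖) ^ κ) ^ k := by
    refine (PG.const _ _ (max M 0)).mul (PG.pow ⟨C, κ, hC, fun z _ => le_rfl⟩ ?_ k)
      (fun _ _ => le_max_right _ _) ?_
    · intro z _
      positivity
    · intro z _
      positivity
  obtain ⟨C', κ', hC', h2⟩ := hpg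
  refine ⟨C', κ', hC', fun z hz => ?_⟩
  obtain ⟨x, hx⟩ := hR z
  have hz' : D.th D.o (z + D.vec x) ≠ 0 := (hb1 x z).1.2 hz
  have hA : A (z + D.vec x) = A z := hb7 A ⟨⟨k, G, hG, hAG⟩, hper⟩ x z hz
  have hy : D.yv N (z + D.vec x) = D.yv N z := by
    unfold TH.yv
    rw [(hb1 x z).2]
  refine le_trans ?_ (h2 z hz)
  have h3 := h1 _ hx hz'
  rw [hy] at h3
  have h4 := hAG _ hz'
  have h5 : ‖G (z + D.vec x)‖ ≤ max M 0 :=
    (hM _ (by rw [mem_closedBall_zero_iff]; exact hx)).trans (le_max_left _ _)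
  rw [← h4, hA, norm_mul, norm_pow] at h5
  have h6 : 1 ≤ (C * (1 + ‖D.yv N z‖) ^ κ) ^ k * ‖D.th D.o (z + D.vec x)‖ ^ k := by
    rw [← mul_pow]
    exact one_le_pow₀ h3
  calc ‖A z‖ = ‖A z‖ * 1 := (mul_one _).symm
    _ ≤ ‖A z‖ * ((C * (1 + ‖D.yv N z‖) ^ κ) ^ k * ‖D.th D.o (z + D.vec x)‖ ^ k) :=
      mul_le_mul_of_nonneg_left h6 (norm_nonneg _)
    _ = (‖A z‖ * ‖D.th D.o (z + D.vec x)‖ ^ k) * (C * (1 + ‖D.yv N z‖) ^ κ) ^ k := by ring
    _ ≤ max M 0 * (C * (1 + ‖D.yv N z‖) ^ κ) ^ k :=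
      mul_le_mul_of_nonneg_right h5 (by positivity)

end Pool.Agent.Lib.MPf11a48.AS
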