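import Pool.Agent.Lib.MP_f11a48_ag.AS.SpecE

/-!
# Project AS, module HDC: the largest Hodge substructure in the kernel of a linear form
-/

set_option autoImplicit false

open Matrix MvPolynomial Pool.Agent.Lib.MPf11a48.CM Pool.Agent.Lib.MPf11a48.GL2T
open Pool.Agent.Lib.MPf11a48.U (AbData Ix EndAlg ComAlg mR mC)
open Pool.Agent.Lib.MPf11a48.U.HDAM (ER JM E_J pos_E ER_skew JM_sq)

namespace Pool.Agent.Lib.MPf11a48.AS

namespace HDCM

variable {g : ℕ}

/-- the real span -/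
def RS (N : Submodule ℚ (Matrix (Ix g) (Ix g) ℚ)) : Submodule ℝ (Matrix (Ix g) (Ix g) ℝ) :=
  Submodule.span ℝ {Y : Matrix (Ix g) (Ix g) ℝ | ∃ X' ∈ N, Y = mR X'}

theorem mem_RS {N : Submodule ℚ (Matrix (Ix g) (Ix g) ℚ)} {X : Matrix (Ix g) (Ix g) ℚ}
    (hX : X ∈ N) : mR X ∈ RS N := Submodule.subset_span ⟨X, hX, rfl⟩

theorem RS_mono {N N' : Submodule ℚ (Matrix (Ix g) (Ix g) ℚ)} (h : N ≤ N') : RS N ≤ RS N' :=
  Submodule.span_mono (by rintro _ ⟨X, hX, rfl⟩; exact ⟨X, h hX, rfl⟩)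

theorem mR_add (X Y : Matrix (Ix g) (Ix g) ℚ) : mR (X + Y) = mR X + mR Y := by
  ext i j
  simp

theorem mR_smul (t : ℚ) (X : Matrix (Ix g) (Ix g) ℚ) : mR (t • X) = (t : ℝ) • mR X := by
  ext i j
  simp

/-- right multiplication by `J` -/
def RJ (J : Matrix (Ix g) (Ix g) ℝ) :
    Matrix (Ix g) (Ix g) ℝ →ₗ[ℝ] Matrix (Ix g) (Ix g) ℝ where
  toFun X := X * J
  map_add' X Y := Matrix.add_mul X Y J
  map_smul' t X := Matrix.smul_mul t X J

/-- the real span of a `J`-stable subspace is stable -/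
theorem RS_stab {J : Matrix (Ix g) (Ix g) ℝ} {N : Submodule ℚ (Matrix (Ix g) (Ix g) ℚ)}
    (h : JStab J N) {Z : Matrix (Ix g) (Ix g) ℝ} (hZ : Z ∈ RS N) : Z * J ∈ RS N := by
  have h1 : RS N ≤ (RS N).comap (RJ J) := by
    refine Submodule.span_le.2 ?_
    rintro _ ⟨X, hX, rfl⟩
    exact h X hX
  exact h1 hZ

/-- the rational matrices span -/
theorem mem_RS_top (Z : Matrix (Ix g) (Ix g) ℝ) : Z ∈ RS (⊤ : Submodule ℚ (Matrix (Ix g) (Ix g) ℚ)) := by
  have h1 : Z = ∑ i, ∑ j, Z i j • mR (Matrix.single i j (1 : ℚ)) := by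
    conv_lhs => rw [Matrix.matrix_eq_sum_single Z]
    refine Finset.sum_congr rfl fun i _ => Finset.sum_congr rfl fun j _ => ?_
    ext a b
    simp only [Matrix.smul_apply, Matrix.map_apply, Matrix.single_apply, smul_eq_mul]
    split_ifs <;> simp
  rw [h1]
  exact Submodule.sum_mem _ fun i _ => Submodule.sum_mem _ fun j _ =>
    Submodule.smul_mem _ _ (mem_RS Submodule.mem_top)

theorem RS_sup {N₀ N₁ : Submodule ℚ (Matrix (Ix g) (Ix g) ℚ)} (h : N₀ ⊔ N₁ = ⊤) :
    RS N₀ ⊔ RS N₁ = ⊤ := by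
  rw [eq_top_iff]
  intro Z _
  have h1 : RS (⊤ : Submodule ℚ (Matrix (Ix g) (Ix g) ℚ)) ≤ RS N₀ ⊔ RS N₁ := by
    refine Submodule.span_le.2 ?_
    rintro _ ⟨X, -, rfl⟩
    have hX : X ∈ N₀ ⊔ N₁ := by rw [h]; trivial
    obtain ⟨a, ha, b, hb, rfl⟩ := Submodule.mem_sup.1 hX
    rw [mR_add]
    exact Submodule.add_mem_sup (mem_RS ha) (mem_RS hb)
  exact h1 (mem_RS_top Z)

section Form

variable {N : ℕ} {K : IntermediateField ℚ ℂ} {A : AbData g N}

/-- the form over a field -/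
def fm {R : Type} [CommRing R] (E X Y : Matrix (Ix g) (Ix g) R) : R :=
  ∑ k, X k ⬝ᵥ (E *ᵥ Y k)

theorem fm_add_left {R : Type} [CommRing R] (E X X' Y : Matrix (Ix g) (Ix g) R) :
    fm E (X + X') Y = fm E X Y + fm E X' Y := by
  simp only [fm, ← Finset.sum_add_distrib]
  refine Finset.sum_congr rfl fun k _ => ?_
  rw [show (X + X') k = X k + X' k from rfl, add_dotProduct]

theorem fm_add_right {R : Type} [CommRing R] (E X Y Y' : Matrix (Ix g) (Ix g) R) :
    fm E X (Y + Y') = fm E X Y + fm E X Y' := by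
  simp only [fm, ← Finset.sum_add_distrib]
  refine Finset.sum_congr rfl fun k _ => ?_
  rw [show (Y + Y') k = Y k + Y' k from rfl, Matrix.mulVec_add, dotProduct_add]

theorem fm_smul_left {R : Type} [CommRing R] (E : Matrix (Ix g) (Ix g) R) (t : R)
    (X Y : Matrix (Ix g) (Ix g) R) : fm E (t • X) Y = t * fm E X Y := by
  simp only [fm, Finset.mul_sum]
  refine Finset.sum_congr rfl fun k _ => ?_
  rw [show (t • X) k = t • X k from rfl, smul_dotProduct, smul_eq_mul]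

theorem fm_smul_right {R : Type} [CommRing R] (E : Matrix (Ix g) (Ix g) R) (t : R)
    (X Y : Matrix (Ix g) (Ix g) R) : fm E X (t • Y) = t * fm E X Y := by
  simp only [fm, Finset.mul_sum]
  refine Finset.sum_congr rfl fun k _ => ?_
  rw [show (t • Y) k = t • Y k from rfl, Matrix.mulVec_smul, dotProduct_smul, smul_eq_mul]

theorem fm_skew {R : Type} [CommRing R] {E : Matrix (Ix g) (Ix g) R} (hE : Eᵀ = -E)
    (X Y : Matrix (Ix g) (Ix g) R) : fm E X Y = -fm E Y X := by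
  simp only [fm, ← Finset.sum_neg_distrib]
  refine Finset.sum_congr rfl fun k _ => ?_
  rw [Matrix.dotProduct_mulVec, ← Matrix.mulVec_transpose, hE, Matrix.neg_mulVec, neg_dotProduct,
    dotProduct_comm]

/-- the rational form -/
def EQ (A : AbData g N) : Matrix (Ix g) (Ix g) ℚ := A.E.map (fun x => (x : ℚ))

theorem fm_cast (A : AbData g N) (X Y : Matrix (Ix g) (Ix g) ℚ) :
    fm (ER A) (mR X) (mR Y) = ((fm (EQ A) X Y : ℚ) : ℝ) := by
  simp only [fm, dotProduct, Matrix.mulVec, ER, EQ, Matrix.map_apply]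
  push_cast
  rfl

/-- the bilinear form -/
def bil (A : AbData g N) : LinearMap.BilinForm ℚ (Matrix (Ix g) (Ix g) ℚ) :=
  LinearMap.mk₂ ℚ (fm (EQ A)) (fm_add_left _) (fun t X Y => fm_smul_left _ t X Y)
    (fm_add_right _) (fun t X Y => fm_smul_right _ t X Y)

theorem bil_apply (A : AbData g N) (X Y : Matrix (Ix g) (Ix g) ℚ) :
    bil A X Y = fm (EQ A) X Y := rfl

theorem EQ_skew (hA : A.IsAbVar K) : (EQ A)ᵀ = -EQ A := by
  ext i j
  have := congrFun (congrFun (U.HDAM.E_skew hA) i) j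
  simp only [Matrix.transpose_apply, Matrix.neg_apply] at this
  simp [EQ, this]

theorem bil_refl (hA : A.IsAbVar K) : (bil A).IsRefl := by
  intro X Y h
  rw [bil_apply] at h ⊢
  rw [fm_skew (EQ_skew hA), h, neg_zero]

theorem dot_J (hA : A.IsAbVar K) (x y : Ix g → ℝ) :
    (x ᵥ* JM A.lat hA.lat_indep) ⬝ᵥ (ER A *ᵥ (y ᵥ* JM A.lat hA.lat_indep)) =
      x ⬝ᵥ (ER A *ᵥ y) := by
  have h := E_J hA
  set J := JM A.lat hA.lat_indep with hJ
  rw [← Matrix.mulVec_transpose J y, Matrix.mulVec_mulVec, ← Matrix.dotProduct_mulVec,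
    Matrix.mulVec_mulVec, ← Matrix.mul_assoc, h]

theorem fm_J (hA : A.IsAbVar K) (X Y : Matrix (Ix g) (Ix g) ℝ) :
    fm (ER A) X (Y * JM A.lat hA.lat_indep) = -fm (ER A) (X * JM A.lat hA.lat_indep) Y := by
  have hsq := JM_sq A.lat hA.lat_indep
  simp only [fm, ← Finset.sum_neg_distrib]
  refine Finset.sum_congr rfl fun k _ => ?_
  have h1 := dot_J hA (X k) (Y k ᵥ* JM A.lat hA.lat_indep)
  rw [Matrix.vecMul_vecMul, hsq, Matrix.vecMul_neg, Matrix.vecMul_one, Matrix.mulVec_neg,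
    dotProduct_neg] at h1
  exact h1.symm

theorem fm_pos (hA : A.IsAbVar K) {X : Matrix (Ix g) (Ix g) ℝ}
    (h : fm (ER A) X (X * JM A.lat hA.lat_indep) = 0) : X = 0 := by
  by_contra hX
  have h1 : ∀ k, 0 ≤ X k ⬝ᵥ (ER A *ᵥ (X k ᵥ* JM A.lat hA.lat_indep)) := by
    intro k
    by_cases hk : X k = 0
    · rw [hk, zero_dotProduct]
    · exact (pos_E hA (X k) hk).le
  obtain ⟨k, hk⟩ : ∃ k, X k ≠ 0 := by
    by_contra hcon
    simp only [not_exists, not_not] at hcon
    exact hX (funext hcon)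
  have h2 : 0 < fm (ER A) X (X * JM A.lat hA.lat_indep) :=
    Finset.sum_pos' (fun k _ => h1 k) ⟨k, Finset.mem_univ k, pos_E hA (X k) hk⟩
  rw [h] at h2
  exact lt_irrefl _ h2

/-- orthogonality extends to the real span -/
theorem fm_span_right {N₀ : Submodule ℚ (Matrix (Ix g) (Ix g) ℚ)} {E X : Matrix (Ix g) (Ix g) ℝ}
    (h : ∀ Y ∈ N₀, fm E X (mR Y) = 0) {Z : Matrix (Ix g) (Ix g) ℝ} (hZ : Z ∈ RS N₀) :
    fm E X Z = 0 := by
  refine Submodule.span_induction (p := fun Z _ => fm E X Z = 0) ?_ ?_ ?_ ?_ hZ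
  · rintro _ ⟨Y, hY, rfl⟩
    exact h Y hY
  · have h0 := fm_smul_right E 0 X 0
    rwa [zero_smul, zero_mul] at h0
  · intro a b _ _ ha hb
    rw [fm_add_right, ha, hb, add_zero]
  · intro t a _ ha
    rw [fm_smul_right, ha, mul_zero]

end Form

end HDCM

open HDCM in
theorem specHDC : SpecHDC := by
  intro K g N A hA L
  set J := U.HDAM.JM A.lat hA.lat_indep with hJ
  let S : Set (Submodule ℚ (Matrix (Ix g) (Ix g) ℚ)) :=
    {N' | JStab J N' ∧ ∀ X ∈ N', L X = 0}
  let N₀ := sSup S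
  have hN₀J : JStab J N₀ := by
    let T : Submodule ℚ (Matrix (Ix g) (Ix g) ℚ) :=
      { carrier := {X | mR X * J ∈ RS N₀}
        add_mem' := by
          intro X Y hX hY
          change mR (X + Y) * J ∈ RS N₀
          rw [mR_add, Matrix.add_mul]
          exact (RS N₀).add_mem hX hY
        zero_mem' := by
          change mR 0 * J ∈ RS N₀
          have : mR (0 : Matrix (Ix g) (Ix g) ℚ) = 0 := by
            ext i j
            simp
          rw [this, Matrix.zero_mul]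
          exact (RS N₀).zero_mem
        smul_mem' := by
          intro t X hX
          change mR (t • X) * J ∈ RS N₀
          rw [mR_smul, Matrix.smul_mul]
          exact (RS N₀).smul_mem _ hX }
    have hT : N₀ ≤ T := by
      refine sSup_le ?_
      rintro N' hN' X hX
      exact RS_mono (le_sSup hN') (hN'.1 X hX)
    exact fun X hX => hT hX
  have hN₀L : ∀ X ∈ N₀, L X = 0 := by
    have h1 : N₀ ≤ LinearMap.ker L := sSup_le fun N' hN' X hX => hN'.2 X hX
    exact fun X hX => h1 hX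
  have hdis : ∀ X ∈ RS N₀, (∀ Y ∈ N₀, fm (ER A) X (mR Y) = 0) → X = 0 := by
    intro X hX h
    exact fm_pos hA (fm_span_right h (RS_stab hN₀J hX))
  have hC : IsCompl N₀ ((bil A).orthogonal N₀) := by
    rw [LinearMap.BilinForm.isCompl_orthogonal_iff_disjoint (bil_refl hA), Submodule.disjoint_def]
    intro X hX hX'
    have h1 : mR X = 0 := by
      refine hdis _ (mem_RS hX) fun Y hY => ?_
      have h2 : bil A Y X = 0 := LinearMap.BilinForm.mem_orthogonal_iff.1 hX' Y hY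
      rw [fm_cast, fm_skew (EQ_skew hA), ← bil_apply, h2]
      simp
    ext i j
    have := congrFun (congrFun h1 i) j
    simpa using this
  refine ⟨N₀, (bil A).orthogonal N₀, hN₀J, ?_, hC, hN₀L, fun N' h1 h2 => le_sSup ⟨h1, h2⟩⟩
  intro Y hY
  have hYo : ∀ X ∈ N₀, fm (ER A) (mR Y) (mR X) = 0 := by
    intro X hX
    have h2 : bil A X Y = 0 := LinearMap.BilinForm.mem_orthogonal_iff.1 hY X hX
    rw [fm_cast, fm_skew (EQ_skew hA), ← bil_apply, h2]
    simp
  -- `Y J` is orthogonal to `N₀`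
  have hYJ : ∀ X ∈ N₀, fm (ER A) (mR Y * J) (mR X) = 0 := by
    intro X hX
    have h1 := fm_J hA (mR Y) (mR X)
    have h2 := fm_span_right hYo (RS_stab hN₀J (mem_RS hX))
    rw [← hJ] at h1
    rw [h2] at h1
    linarith
  have htop : mR Y * J ∈ RS N₀ ⊔ RS ((bil A).orthogonal N₀) := by
    rw [RS_sup hC.sup_eq_top]
    trivial
  obtain ⟨a, ha, b, hb, hab⟩ := Submodule.mem_sup.1 htop
  have hbo : ∀ X ∈ N₀, fm (ER A) (mR X) b = 0 := by
    intro X hX
    refine fm_span_right ?_ hb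
    intro Z hZ
    have h2 : bil A X Z = 0 := LinearMap.BilinForm.mem_orthogonal_iff.1 hZ X hX
    rw [fm_cast, ← bil_apply, h2]
    simp
  have ha0 : a = 0 := by
    refine hdis a ha fun X hX => ?_
    have h1 := hYJ X hX
    rw [← hab, fm_add_left, fm_skew (ER_skew hA) b, hbo X hX] at h1
    simpa using h1
  rw [← hab, ha0, zero_add]
  exact hb

end Pool.Agent.Lib.MPf11a48.AS
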