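import Pool.Agent.Lib.MP_f11a48_ag.AS.Wgt

/-!
# Project AS, block Z, module IND: linear independence of the jet functionals
-/

set_option autoImplicit false

namespace Pool.Agent.Lib.MPf11a48.AS

namespace INDM

open WGTM

section

variable {R κ : Type} [CommRing R] [Algebra ℂ R] {δ : κ → Derivation ℂ R R} {ev : R →ₐ[ℂ] ℂ}

/-- all words of length `< r` vanish -/
abbrev O (δ : κ → Derivation ℂ R R) (ev : R →ₐ[ℂ] ℂ) (r : ℕ) (a : R) : Prop :=
  WO δ (fun _ => 1) ev r a

theorem O_iff {r : ℕ} {a : R} : O δ ev r a ↔ ∀ w : List κ, w.length < r → ev (it δ w a) = 0 := by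
  constructor
  · intro h w hw
    exact h w (by simpa using hw)
  · intro h w hw
    exact h w (by simpa using hw)

theorem O_mul {r s : ℕ} {a b : R} (ha : O δ ev r a) (hb : O δ ev s b) : O δ ev (r + s) (a * b) :=
  specWGT δ (fun _ => 1) ev r s a b ha hb

theorem O_zero (a : R) : O δ ev 0 a := by
  intro w hw
  omega

theorem O_one {a : R} (h : ev a = 0) : O δ ev 1 a := by
  rw [O_iff]
  intro w hw
  have : w = [] := List.length_eq_zero_iff.1 (by omega)
  rw [this]
  exact h

theorem O_add {r : ℕ} {a b : R} (ha : O δ ev r a) (hb : O δ ev r b) : O δ ev r (a + b) := by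
  intro w hw
  rw [it_add, map_add, ha w hw, hb w hw, add_zero]

theorem O_nil (r : ℕ) : O δ ev r (0 : R) := by
  intro w _
  rw [it_zero, map_zero]

theorem O_pow {a : R} (h : ev a = 0) (n : ℕ) : O δ ev n (a ^ n) := by
  induction n with
  | zero => exact O_zero _
  | succ n ih =>
    rw [pow_succ]
    exact O_mul ih (O_one h)

theorem O_prod {Y : κ → R} (hY : ∀ c, ev (Y c) = 0) (u : List κ) :
    O δ ev u.length (u.map Y).prod := by
  induction u with
  | nil => exact O_zero _
  | cons x u ih =>
    rw [List.map_cons, List.prod_cons, List.length_cons, add_comm]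
    exact O_mul (O_one (hY x)) ih

variable [DecidableEq κ]

/-- derivative of a monomial -/
theorem der {Y : κ → R} (hY : ∀ c, ev (Y c) = 0)
    (hd : ∀ c c', ev (δ c' (Y c)) = if c = c' then 1 else 0) (c : κ) (u : List κ) :
    O δ ev u.length (δ c (u.map Y).prod - u.count c • ((u.erase c).map Y).prod) := by
  induction u with
  | nil => exact O_zero _
  | cons x u ih =>
    rw [List.map_cons, List.prod_cons, List.length_cons, Derivation.leibniz, smul_eq_mul,
      smul_eq_mul]
    by_cases hx : x = c
    · subst hx
      rw [List.erase_cons_head, List.count_cons_self]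
      have h1 : u.count x • (u.map Y).prod =
          Y x * (u.count x • ((u.erase x).map Y).prod) := by
        by_cases hm : x ∈ u
        · have h2 : (u.map Y).prod = Y x * ((u.erase x).map Y).prod := by
            have h3 := (List.perm_cons_erase hm).map Y
            rw [h3.prod_eq, List.map_cons, List.prod_cons]
          rw [h2, mul_smul_comm]
        · rw [List.count_eq_zero_of_not_mem hm, zero_smul, zero_smul, mul_zero]
      have h4 : Y x * (δ x) (u.map Y).prod + (u.map Y).prod * (δ x) (Y x) -
          (u.count x + 1) • (u.map Y).prod =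
          Y x * ((δ x) (u.map Y).prod - u.count x • ((u.erase x).map Y).prod) +
          (u.map Y).prod * ((δ x) (Y x) - 1) := by
        rw [add_smul, one_smul, h1]
        ring
      rw [h4]
      refine O_add ?_ ?_
      · rw [add_comm]
        exact O_mul (O_one (hY x)) ih
      · refine O_mul (O_prod hY u) (O_one ?_)
        rw [map_sub, hd, map_one, if_pos rfl, sub_self]
    · have hx' : ¬ c = x := fun h => hx h.symm
      rw [List.erase_cons_tail (by simpa using hx), List.count_cons_of_ne hx,
        List.map_cons, List.prod_cons]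
      have h4 : Y x * (δ c) (u.map Y).prod + (u.map Y).prod * (δ c) (Y x) -
          u.count c • (Y x * ((u.erase c).map Y).prod) =
          Y x * ((δ c) (u.map Y).prod - u.count c • ((u.erase c).map Y).prod) +
          (u.map Y).prod * ((δ c) (Y x)) := by
        rw [← mul_smul_comm]
        ring
      rw [h4]
      refine O_add ?_ ?_
      · rw [add_comm]
        exact O_mul (O_one (hY x)) ih
      · refine O_mul (O_prod hY u) (O_one ?_)
        rw [hd, if_neg hx]

/-- value of a word on a monomial of the same degree -/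
theorem val {Y : κ → R} (hY : ∀ c, ev (Y c) = 0)
    (hd : ∀ c c', ev (δ c' (Y c)) = if c = c' then 1 else 0) (w : List κ) :
    ∀ u : List κ, w.length = u.length → ∃ N : ℕ, (N ≠ 0 ↔ w.Perm u) ∧
      ∀ h : R, ev (it δ w ((u.map Y).prod * h)) = N * ev h := by
  induction w using List.reverseRecOn with
  | nil =>
    intro u hu
    have : u = [] := List.length_eq_zero_iff.1 (by simpa using hu.symm)
    subst this
    refine ⟨1, by simp, fun h => ?_⟩
    show ev (([].map Y).prod * h) = _
    simp
  | append_singleton w c ih =>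
    intro u hu
    rw [List.length_append, List.length_singleton] at hu
    have hstep : ∀ h : R, ev (it δ (w ++ [c]) ((u.map Y).prod * h)) =
        u.count c • ev (it δ w (((u.erase c).map Y).prod * h)) := by
      intro h
      rw [it_append, Derivation.leibniz, smul_eq_mul, smul_eq_mul]
      have h1 : (u.map Y).prod * (δ c) h + h * (δ c) (u.map Y).prod =
          ((u.map Y).prod * (δ c) h + h * ((δ c) (u.map Y).prod -
            u.count c • ((u.erase c).map Y).prod)) +
          u.count c • (((u.erase c).map Y).prod * h) := by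
        rw [mul_sub, mul_smul_comm, mul_comm h ((u.erase c).map Y).prod]
        ring
      rw [h1, it_add, map_add, it_nsmul, map_nsmul]
      have h2 : O δ ev (u.length) ((u.map Y).prod * (δ c) h + h * ((δ c) (u.map Y).prod -
            u.count c • ((u.erase c).map Y).prod)) := by
        refine O_add ?_ ?_
        · have := O_mul (O_prod (δ := δ) hY u) (O_zero ((δ c) h))
          rwa [add_zero] at this
        · have := O_mul (O_zero (δ := δ) (ev := ev) h) (der hY hd c u)
          rwa [zero_add] at this
      rw [O_iff.1 h2 w (by omega), zero_add]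
    by_cases hc : c ∈ u
    · have hlen : w.length = (u.erase c).length := by
        rw [List.length_erase_of_mem hc]; omega
      obtain ⟨N, hN, hval⟩ := ih (u.erase c) hlen
      refine ⟨u.count c * N, ?_, fun h => ?_⟩
      · have h1 : u.count c ≠ 0 := by
          rw [Ne, List.count_eq_zero]; exact not_not.2 hc
        rw [mul_ne_zero_iff, and_iff_right h1, hN]
        have h2 : (w ++ [c]).Perm (c :: w) := List.perm_append_singleton c w
        have h3 : u.Perm (c :: u.erase c) := List.perm_cons_erase hc
        constructor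
        · intro h
          exact h2.trans ((h.cons c).trans h3.symm)
        · intro h
          exact (List.perm_cons c).1 (h2.symm.trans (h.trans h3))
      · rw [hstep, hval, nsmul_eq_mul]
        push_cast
        ring
    · refine ⟨0, ?_, fun h => ?_⟩
      · constructor
        · intro h; exact absurd rfl h
        · intro h
          exact absurd (h.subset (by simp)) hc
      · rw [hstep, List.count_eq_zero_of_not_mem hc]
        simp

end

end INDM

open INDM in
theorem specIND : SpecIND := by
  intro R κ Γ _ _ _ _ _ _ δ ev Y e wd hwd hY hd he B t ht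
  by_contra hcon
  push Not at hcon
  obtain ⟨γ1, b1, hb1, ht1⟩ := hcon
  classical
  set S : Finset (Γ × (κ → ℕ)) := (Finset.univ ×ˢ B).filter (fun p => t p.1 p.2 ≠ 0) with hS
  have hSne : S.Nonempty := ⟨(γ1, b1), by simp [hS, hb1, ht1]⟩
  obtain ⟨p, hp, hmax⟩ := Finset.exists_max_image S (fun p => (wd p.2).length) hSne
  obtain ⟨γ0, b0⟩ := p
  have hp' : b0 ∈ B ∧ t γ0 b0 ≠ 0 := by simpa [hS] using hp
  have hmax' : ∀ γ b, b ∈ B → t γ b ≠ 0 → (wd b).length ≤ (wd b0).length := by
    intro γ b hb hne
    exact hmax (γ, b) (by simp [hS, hb, hne])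
  have hrel := ht (((wd b0).map (Y γ0)).prod * e γ0 ^ ((wd b0).length + 1))
  have hother : ∀ γ, γ ≠ γ0 → ∀ b ∈ B, t γ b * ev γ (it δ (wd b)
      (((wd b0).map (Y γ0)).prod * e γ0 ^ ((wd b0).length + 1))) = 0 := by
    intro γ hγ b hb
    by_cases h0 : t γ b = 0
    · rw [h0, zero_mul]
    · have h1 : O δ (ev γ) (0 + ((wd b0).length + 1))
          (((wd b0).map (Y γ0)).prod * e γ0 ^ ((wd b0).length + 1)) :=
        O_mul (O_zero _) (O_pow (by rw [he, if_neg (fun h => hγ h.symm)]) _)
      rw [O_iff.1 h1 (wd b) (by have := hmax' γ b hb h0; omega), mul_zero]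
  obtain ⟨N0, hN0, hval0⟩ := val (δ := δ) (ev := ev γ0) (hY γ0) (hd γ0) (wd b0) (wd b0) rfl
  have hsame : ∀ b ∈ B, b ≠ b0 → t γ0 b * ev γ0 (it δ (wd b)
      (((wd b0).map (Y γ0)).prod * e γ0 ^ ((wd b0).length + 1))) = 0 := by
    intro b hb hne
    by_cases h0 : t γ0 b = 0
    · rw [h0, zero_mul]
    · rcases lt_or_eq_of_le (hmax' γ0 b hb h0) with hlt | heq
      · have h1 : O δ (ev γ0) ((wd b0).length + 0)
            (((wd b0).map (Y γ0)).prod * e γ0 ^ ((wd b0).length + 1)) :=
          O_mul (O_prod (hY γ0) _) (O_zero _)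
        rw [O_iff.1 h1 (wd b) (by omega), mul_zero]
      · obtain ⟨N, hN, hval⟩ := val (δ := δ) (ev := ev γ0) (hY γ0) (hd γ0) (wd b) (wd b0) heq
        have hN' : N = 0 := by
          by_contra hne0
          have hperm := hN.1 hne0
          refine hne (funext fun c => ?_)
          rw [← hwd b c, ← hwd b0 c]
          exact hperm.count_eq c
        rw [hval, hN', Nat.cast_zero, zero_mul, mul_zero]
  have hN0' : N0 ≠ 0 := hN0.2 (List.Perm.refl _)
  rw [Finset.sum_eq_single γ0 (fun γ _ hγ => Finset.sum_eq_zero fun b hb => hother γ hγ b hb)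
    (fun h => absurd (Finset.mem_univ _) h),
    Finset.sum_eq_single b0 (fun b hb hne => hsame b hb hne) (fun h => absurd hp'.1 h),
    hval0, map_pow, he, if_pos rfl, one_pow, mul_one] at hrel
  rcases mul_eq_zero.1 hrel with h | h
  · exact hp'.2 h
  · exact hN0' (by exact_mod_cast h)

end Pool.Agent.Lib.MPf11a48.AS
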