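import Pool.Agent.Lib.MP_f11a48_ag.AS.SpecF

/-!
# Project AS, module INT: the elements of `S` are integral over `ℂ[f]`
-/

set_option autoImplicit false

open MvPolynomial Pool.Agent.Lib.MPf11a48.CM Filter Topology Asymptotics

namespace Pool.Agent.Lib.MPf11a48.AS

namespace INTM

theorem eval_aeval {I Z : Type} (y : Z → MvPolynomial I ℂ) (x : I → ℂ) (P : MvPolynomial Z ℂ) :
    eval x (aeval y P) = eval (fun k => eval x (y k)) P := by
  induction P using MvPolynomial.induction_on with
  | C a => simp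
  | add p q hp hq => rw [map_add, map_add, map_add, hp, hq]
  | mul_X p i hp => rw [map_mul, map_mul, map_mul, hp, aeval_X, eval_X]

end INTM

/-- Module INT. -/
theorem specINT (hDIM : SpecDIM) (hCST : SpecCST) (hCHR : SpecCHR) : SpecINT := by
  intro Z I Λ _ _ _ D hD A hA
  obtain ⟨N, hN⟩ := hDIM D hD
  obtain ⟨d, hd, hz⟩ := hCST D hD N hN
  obtain ⟨χ, hm, hdeg, _, hlast⟩ := hCHR D hD N hN d hd hz A hA
  refine ⟨d, fun k => aeval N.y (χ.coeff k), fun z hz => ?_⟩
  have h1 := hlast z hz
  have hm' : (χ.map (eval (D.yv N z))).Monic := hm.map _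
  have hdeg' : (χ.map (eval (D.yv N z))).natDegree = d := by rw [hm.natDegree_map, hdeg]
  rw [hm'.as_sum, hdeg', Polynomial.eval_add, Polynomial.eval_pow, Polynomial.eval_X,
    Polynomial.eval_finsetSum, Finset.sum_range] at h1
  rw [← h1]
  congr 1
  refine Finset.sum_congr rfl fun k _ => ?_
  rw [Polynomial.eval_mul, Polynomial.eval_C, Polynomial.eval_pow, Polynomial.eval_X,
    Polynomial.coeff_map, INTM.eval_aeval]
  rfl

end Pool.Agent.Lib.MPf11a48.AS
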