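import Pool.Agent.Lib.MP_f11a48_ag.AS.SpecF
import Pool.Agent.Lib.MP_f11a48_ag.U.Ana
import Pool.Agent.Lib.MP_f11a48_ag.U.Hol

/-!
# Project AS, module JET: finitely many linear conditions force vanishing of high order
-/

set_option autoImplicit false

open MvPolynomial Pool.Agent.Lib.MPf11a48.CM Filter Topology Asymptotics

namespace Pool.Agent.Lib.MPf11a48.AS

namespace JETM

open Classical in
/-- The partial derivative in the direction `k`. -/
noncomputable def pd {Z : Type} [Fintype Z] (k : Z) (F : (Z → ℂ) → ℂ) : (Z → ℂ) → ℂ :=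
  fun x => fderiv ℂ F x (Pi.single k 1)

/-- The iterated partial derivatives. -/
noncomputable def pw {Z : Type} [Fintype Z] : List Z → ((Z → ℂ) → ℂ) → ((Z → ℂ) → ℂ)
  | [], F => F
  | k :: w, F => pw w (pd k F)

variable {Z : Type} [Fintype Z]

theorem pd_diff (k : Z) {F : (Z → ℂ) → ℂ} (hF : Differentiable ℂ F) : Differentiable ℂ (pd k F) :=
  U.HolM.differentiable_fderiv hF _

theorem pd_add (k : Z) {F G : (Z → ℂ) → ℂ} (hF : Differentiable ℂ F) (hG : Differentiable ℂ G) :
    pd k (fun z => F z + G z) = fun z => pd k F z + pd k G z := by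
  funext x
  simp only [pd]
  rw [fderiv_fun_add (hF x) (hG x)]
  rfl

theorem pd_smul (k : Z) (c : ℂ) {F : (Z → ℂ) → ℂ} (hF : Differentiable ℂ F) :
    pd k (fun z => c * F z) = fun z => c * pd k F z := by
  funext x
  simp only [pd]
  rw [fderiv_const_mul (hF x)]
  rfl

theorem pd_comm (k l : Z) {F : (Z → ℂ) → ℂ} (hF : Differentiable ℂ F) :
    pd k (pd l F) = pd l (pd k F) := by
  classical
  funext x
  have h2 : ContDiff ℂ 2 F := U.HolM.contDiff hF 2
  have hs : IsSymmSndFDerivAt ℂ F x :=
    h2.contDiffAt.isSymmSndFDerivAt (by simp)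
  have hd : DifferentiableAt ℂ (fderiv ℂ F) x := by
    have : ContDiff ℂ 1 (fderiv ℂ F) := h2.fderiv_right (by norm_num)
    exact (this.differentiable (by norm_num)) x
  have key : ∀ u v : Z → ℂ, fderiv ℂ (fun x => fderiv ℂ F x u) x v =
      fderiv ℂ (fderiv ℂ F) x v u := by
    intro u v
    rw [fderiv_clm_apply hd (differentiableAt_const u)]
    simp
  have e1 : pd k (pd l F) x = fderiv ℂ (fderiv ℂ F) x (Pi.single k 1) (Pi.single l 1) :=
    key (Pi.single l 1) (Pi.single k 1)
  have e2 : pd l (pd k F) x = fderiv ℂ (fderiv ℂ F) x (Pi.single l 1) (Pi.single k 1) :=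
    key (Pi.single k 1) (Pi.single l 1)
  rw [e1, e2]
  exact hs _ _

theorem pw_perm {w w' : List Z} (h : w.Perm w') : ∀ {F : (Z → ℂ) → ℂ}, Differentiable ℂ F →
    pw w F = pw w' F := by
  induction h with
  | nil => intro F _; rfl
  | cons k _ ih => intro F hF; exact ih (pd_diff k hF)
  | swap k l w => intro F hF; simp only [pw]; rw [pd_comm k l hF]
  | trans _ _ ih1 ih2 => intro F hF; rw [ih1 hF, ih2 hF]

theorem pw_add (w : List Z) : ∀ {F G : (Z → ℂ) → ℂ}, Differentiable ℂ F → Differentiable ℂ G →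
    pw w (fun z => F z + G z) = fun z => pw w F z + pw w G z := by
  induction w with
  | nil => intro F G _ _; rfl
  | cons k w ih =>
    intro F G hF hG
    simp only [pw]
    rw [pd_add k hF hG, ih (pd_diff k hF) (pd_diff k hG)]

theorem pw_smul (w : List Z) (c : ℂ) : ∀ {F : (Z → ℂ) → ℂ}, Differentiable ℂ F →
    pw w (fun z => c * F z) = fun z => c * pw w F z := by
  induction w with
  | nil => intro F _; rfl
  | cons k w ih =>
    intro F hF
    simp only [pw]
    rw [pd_smul k c hF, ih (pd_diff k hF)]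

/-- the norm of a functional is bounded by its values on the basis -/
theorem norm_le_sum (u : (Z → ℂ) →L[ℂ] ℂ) : by
    classical exact ‖u‖ ≤ ∑ k, ‖u (Pi.single k 1)‖ := by
  classical
  refine u.opNorm_le_bound (Finset.sum_nonneg fun _ _ => norm_nonneg _) fun x => ?_
  have hx : x = ∑ k, x k • (Pi.single k (1 : ℂ) : Z → ℂ) := by
    ext j
    simp [Finset.sum_apply, Pi.single_apply]
  calc ‖u x‖ = ‖∑ k, x k * u (Pi.single k 1)‖ := by
        conv_lhs => rw [hx]
        rw [map_sum]
        simp only [map_smul, smul_eq_mul]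
    _ ≤ ∑ k, ‖x k‖ * ‖u (Pi.single k 1)‖ := by
        refine (norm_sum_le _ _).trans (le_of_eq ?_)
        simp only [norm_mul]
    _ ≤ ∑ k, ‖x‖ * ‖u (Pi.single k 1)‖ :=
        Finset.sum_le_sum fun k _ => mul_le_mul_of_nonneg_right (norm_le_pi_norm x k)
          (norm_nonneg _)
    _ = (∑ k, ‖u (Pi.single k 1)‖) * ‖x‖ := by
        rw [← Finset.mul_sum, mul_comm]

theorem bigO_of_pw (T : ℕ) : ∀ {F : (Z → ℂ) → ℂ}, Differentiable ℂ F →
    (∀ w : List Z, w.length < T → pw w F 0 = 0) → F =O[𝓝 0] fun z => ‖z‖ ^ T := by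
  induction T with
  | zero =>
    intro F hF _
    simp only [pow_zero]
    exact hF.continuous.continuousAt.isBigO_one ℝ
  | succ T ih =>
    intro F hF h
    refine U.AnaM.bigO_succ (Eventually.of_forall fun x => hF x) (h [] (by simp)) ?_
    have h1 : ∀ k : Z, pd k F =O[𝓝 0] fun z => ‖z‖ ^ T := by
      intro k
      refine ih (pd_diff k hF) fun w hw => ?_
      exact h (k :: w) (by simpa using hw)
    have h2 : (fun z => ∑ k : Z, ‖pd k F z‖) =O[𝓝 0] fun z : Z → ℂ => ‖z‖ ^ T :=
      IsBigO.fun_sum fun k _ => (h1 k).norm_left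
    refine (IsBigO.of_bound 1 (Eventually.of_forall fun z => ?_)).trans h2
    rw [one_mul, Real.norm_eq_abs]
    exact (norm_le_sum (fderiv ℂ F z)).trans (le_abs_self _)

/-- the word with `b k` letters `k` -/
noncomputable def wd (b : Z → ℕ) : List Z :=
  (Finset.univ : Finset Z).toList.flatMap fun k => List.replicate (b k) k

theorem wd_perm (w : List Z) : by classical exact w.Perm (wd fun k => w.count k) := by
  classical
  rw [List.perm_iff_count]
  intro a
  rw [wd, List.count_flatMap]
  have h1 : (List.count a ∘ fun k => List.replicate (List.count k w) k) =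
      fun k => if k = a then List.count a w else 0 := by
    funext k
    simp only [Function.comp, List.count_replicate]
    by_cases hk : k = a
    · subst hk; simp
    · simp [hk]
  rw [h1, Finset.sum_map_toList]
  simp

end JETM

theorem specJET : SpecJET := by
  classical
  intro Z _ z₀ T
  refine ⟨fun b F => JETM.pw (JETM.wd fun k => (b k : ℕ)) (fun z => F (z₀ + z)) 0, ?_, ?_, ?_⟩
  · intro b F G hF hG
    have hF' : Differentiable ℂ fun z => F (z₀ + z) := hF.comp (by fun_prop)
    have hG' : Differentiable ℂ fun z => G (z₀ + z) := hG.comp (by fun_prop)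
    exact congrFun (JETM.pw_add _ hF' hG') 0
  · intro b c F hF
    have hF' : Differentiable ℂ fun z => F (z₀ + z) := hF.comp (by fun_prop)
    exact congrFun (JETM.pw_smul _ c hF') 0
  · intro F hF h
    have hF' : Differentiable ℂ fun z => F (z₀ + z) := hF.comp (by fun_prop)
    have h1 : (fun z => F (z₀ + z)) =O[𝓝 0] fun z => ‖z‖ ^ T := by
      refine JETM.bigO_of_pw T hF' fun w hw => ?_
      rw [JETM.pw_perm (JETM.wd_perm w) hF']
      have h2 := h fun k => ⟨w.count k, lt_of_le_of_lt List.count_le_length hw⟩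
      exact h2
    have h3 : Tendsto (fun w : Z → ℂ => w - z₀) (𝓝 z₀) (𝓝 0) := by
      have : Tendsto (fun w : Z → ℂ => w - z₀) (𝓝 z₀) (𝓝 (z₀ - z₀)) :=
        (continuous_id.sub continuous_const).tendsto z₀
      rwa [sub_self] at this
    have h4 := h1.comp_tendsto h3
    refine h4.congr (fun w => ?_) fun w => rfl
    simp

end Pool.Agent.Lib.MPf11a48.AS
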