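import Pool.Agent.Lib.MP_f11a48_ag.AS.SpecE

/-!
# Project AS, module LAT: integral points of a rational subspace
-/

set_option autoImplicit false

namespace Pool.Agent.Lib.MPf11a48.AS

namespace LATM

/-- integral functions as rational functions -/
def jj (ι : Type) : (ι → ℤ) →ₗ[ℤ] (ι → ℚ) where
  toFun Y := fun i => (Y i : ℚ)
  map_add' _ _ := by funext i; simp
  map_smul' _ _ := by funext i; simp

theorem jj_inj (ι : Type) : Function.Injective (jj ι) := by
  intro x y h
  funext i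
  have h1 : ((x i : ℤ) : ℚ) = ((y i : ℤ) : ℚ) := congrFun h i
  exact_mod_cast h1

theorem exists_mul {ι : Type} [Fintype ι] (v : ι → ℚ) :
    ∃ (n : ℤ) (Y : ι → ℤ), n ≠ 0 ∧ (n : ℚ) • v = jj ι Y := by
  classical
  have h1 : ∀ i, ∃ y : ℤ, ((∏ k, (v k).den : ℕ) : ℚ) * v i = y := by
    intro i
    refine ⟨((∏ k ∈ Finset.univ.erase i, (v k).den : ℕ) : ℤ) * (v i).num, ?_⟩
    rw [← Finset.mul_prod_erase Finset.univ (fun k => (v k).den) (Finset.mem_univ i)]
    push_cast
    have h2 : ((v i).den : ℚ) * v i = (v i).num := by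
      rw [mul_comm]; exact Rat.mul_den_eq_num (v i)
    rw [mul_right_comm, h2, mul_comm]
  choose Y hY using h1
  refine ⟨((∏ k, (v k).den : ℕ) : ℤ), Y, ?_, ?_⟩
  · have : (∏ k, (v k).den : ℕ) ≠ 0 := Finset.prod_ne_zero_iff.2 fun k _ => (v k).den_ne_zero
    exact_mod_cast this
  · funext i
    rw [Pi.smul_apply, smul_eq_mul]
    exact_mod_cast hY i

end LATM

open LATM in
/-- Module LAT. -/
theorem specLAT : SpecLAT := by
  intro ι _ N
  classical
  let M : Submodule ℤ (ι → ℤ) := (N.restrictScalars ℤ).comap (jj ι)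
  have hM : ∀ Y : ι → ℤ, Y ∈ M ↔ jj ι Y ∈ N := fun Y => Iff.rfl
  let b := Module.finBasis ℤ M
  set r := Module.finrank ℤ M with hr
  let v : Fin r → (ι → ℚ) := fun l => jj ι (b l : ι → ℤ)
  have hvN : ∀ l, v l ∈ N := fun l => (b l).2
  have hvi : LinearIndependent ℚ v := by
    refine (LinearIndependent.iff_fractionRing ℤ ℚ).1 ?_
    have h1 : LinearIndependent ℤ (fun l => (b l : M)) := b.linearIndependent
    have h2 := h1.map' ((jj ι).comp M.subtype) (by
      rw [LinearMap.ker_eq_bot]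
      intro x y h
      exact Subtype.ext (jj_inj ι h))
    exact h2
  have hsum : ∀ Y : ι → ℤ, jj ι Y ∈ N → ∃ x : Fin r → ℤ, Y = ∑ l, x l • (b l : ι → ℤ) := by
    intro Y hY
    refine ⟨fun l => b.repr ⟨Y, hY⟩ l, ?_⟩
    have h1 := congrArg (fun m : M => (m : ι → ℤ)) (b.sum_repr ⟨Y, hY⟩)
    simp only [Submodule.coe_sum, Submodule.coe_smul] at h1
    exact h1.symm
  have hspan : Submodule.span ℚ (Set.range v) = N := by
    refine le_antisymm (Submodule.span_le.2 ?_) fun w hw => ?_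
    · rintro _ ⟨l, rfl⟩
      exact hvN l
    · obtain ⟨n, Y, hn, hY⟩ := exists_mul w
      have h1 : jj ι Y ∈ N := by rw [← hY]; exact N.smul_mem _ hw
      obtain ⟨x, hx⟩ := hsum Y h1
      have h2 : jj ι Y ∈ Submodule.span ℚ (Set.range v) := by
        rw [hx, map_sum]
        refine Submodule.sum_mem _ fun l _ => ?_
        rw [map_smul]
        have h3 : x l • jj ι (b l : ι → ℤ) = (x l : ℚ) • v l := by
          rw [Int.cast_smul_eq_zsmul]
        rw [h3]
        exact Submodule.smul_mem _ _ (Submodule.subset_span ⟨l, rfl⟩)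
      have h3 : w = (n : ℚ)⁻¹ • jj ι Y := by
        rw [← hY, smul_smul, inv_mul_cancel₀ (by exact_mod_cast hn), one_smul]
      rw [h3]
      exact Submodule.smul_mem _ _ h2
  have hfin : Module.finrank ℚ N = r := by
    rw [← hspan, finrank_span_eq_card hvi, Fintype.card_fin]
  refine ⟨fun l => (b (Fin.cast hfin l) : ι → ℤ), fun l => hvN _, ?_, ?_⟩
  · exact hvi.comp _ (Fin.cast_injective hfin)
  · intro Y hY
    obtain ⟨x, hx⟩ := hsum Y hY
    refine ⟨fun l => x (Fin.cast hfin l), fun i => ?_⟩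
    rw [congrFun hx i, Finset.sum_apply, ← Equiv.sum_comp (finCongr hfin)]
    rfl

end Pool.Agent.Lib.MPf11a48.AS
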