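import Pool.Agent.Lib.MP_f11a48_ag.AS.SpecT

/-! # Module LDC: leading coefficients -/

set_option autoImplicit false

open Filter Topology

namespace Pool.Agent.Lib.MPf11a48.AS

namespace LDCM

theorem taylor {f : ℂ → ℂ} (hf : AnalyticAt ℂ f 0) (j : ℕ)
    (h : ∀ i < j, iteratedDeriv i f 0 = 0) :
    ∃ F : ℂ → ℂ, AnalyticAt ℂ F 0 ∧ ∀ᶠ z in 𝓝 (0 : ℂ),
      f z = z ^ j * (iteratedDeriv j f 0 / j.factorial + z * F z) := by
  obtain ⟨F, hF, he⟩ := hf.exists_eventuallyEq_sum_add_pow_mul (j + 1)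
  refine ⟨F, hF, he.mono fun z hz => ?_⟩
  rw [hz, Finset.sum_range_succ, Finset.sum_eq_zero]
  · simp only [smul_eq_mul]
    ring
  · intro i hi
    rw [h i (Finset.mem_range.1 hi), smul_zero]

theorem step {α β φ : ℂ → ℂ} (hα : AnalyticAt ℂ α 0) (hβ : AnalyticAt ℂ β 0)
    (hφ : ContinuousAt φ 0) (he : ∀ᶠ t in 𝓝 (0 : ℂ), φ t * α t = β t) (j : ℕ)
    (h1 : ∀ i < j, iteratedDeriv i α 0 = 0) (h2 : ∀ i < j, iteratedDeriv i β 0 = 0) :
    iteratedDeriv j β 0 = φ 0 * iteratedDeriv j α 0 := by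
  obtain ⟨F, hF, hFe⟩ := taylor hα j h1
  obtain ⟨G, hG, hGe⟩ := taylor hβ j h2
  have hev : ∀ᶠ z in 𝓝[≠] (0 : ℂ), iteratedDeriv j β 0 / j.factorial + z * G z =
      φ z * (iteratedDeriv j α 0 / j.factorial + z * F z) := by
    have h3 : ∀ᶠ z in 𝓝[≠] (0 : ℂ), φ z * α z = β z := he.filter_mono nhdsWithin_le_nhds
    have h4 := hFe.filter_mono (nhdsWithin_le_nhds (s := {0}ᶜ))
    have h5 := hGe.filter_mono (nhdsWithin_le_nhds (s := {0}ᶜ))
    filter_upwards [h3, h4, h5, self_mem_nhdsWithin] with z e1 e2 e3 e4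
    have hz : z ^ j ≠ 0 := pow_ne_zero _ e4
    have h6 : z ^ j * (iteratedDeriv j β 0 / j.factorial + z * G z) =
        z ^ j * (φ z * (iteratedDeriv j α 0 / j.factorial + z * F z)) := by
      rw [← e3, ← e1, e2]
      ring
    exact mul_left_cancel₀ hz h6
  have t1 : Tendsto (fun z : ℂ => iteratedDeriv j β 0 / j.factorial + z * G z) (𝓝[≠] 0)
      (𝓝 (iteratedDeriv j β 0 / j.factorial + 0 * G 0)) :=
    ((continuousAt_const.add (continuousAt_id.mul hG.continuousAt)).tendsto).mono_left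
      nhdsWithin_le_nhds
  have t2 : Tendsto (fun z : ℂ => φ z * (iteratedDeriv j α 0 / j.factorial + z * F z)) (𝓝[≠] 0)
      (𝓝 (φ 0 * (iteratedDeriv j α 0 / j.factorial + 0 * F 0))) :=
    ((hφ.mul (continuousAt_const.add (continuousAt_id.mul hF.continuousAt))).tendsto).mono_left
      nhdsWithin_le_nhds
  have h7 := tendsto_nhds_unique (t1.congr' hev) t2
  have hj : (j.factorial : ℂ) ≠ 0 := by exact_mod_cast j.factorial_ne_zero
  have h8 : iteratedDeriv j β 0 / j.factorial = φ 0 * (iteratedDeriv j α 0 / j.factorial) := by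
    have h9 : iteratedDeriv j β 0 / j.factorial + 0 * G 0 =
        φ 0 * (iteratedDeriv j α 0 / j.factorial + 0 * F 0) := h7
    linear_combination h9
  field_simp at h8
  exact h8

end LDCM

theorem specLDC : SpecLDC := by
  intro α β φ k hα hβ hφ he h0
  have key : ∀ j ≤ k, ∀ i < j, iteratedDeriv i β 0 = 0 := by
    intro j
    induction j with
    | zero => intro _ i hi; omega
    | succ j ih =>
      intro hj i hi
      rcases Nat.lt_succ_iff_lt_or_eq.1 hi with h | h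
      · exact ih (by omega) i h
      · subst h
        rw [LDCM.step hα hβ hφ he i (fun l hl => h0 l (by omega)) (ih (by omega)),
          h0 i (by omega), mul_zero]
  exact ⟨key k le_rfl, LDCM.step hα hβ hφ he k h0 (key k le_rfl)⟩

end Pool.Agent.Lib.MPf11a48.AS
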