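import Pool.Agent.Lib.MP_f11a48_ag.AS.SpecF

/-!
Module LFT of project AS for MP_f11a48_ag: lifting of analytic germs.
-/

set_option autoImplicit false

open MvPolynomial Pool.Agent.Lib.MPf11a48.CM Filter Topology

namespace Pool.Agent.Lib.MPf11a48.AS

namespace LFTM

/-- a choice of coordinates with invertible differential -/
theorem exists_indices {Z I : Type} [Fintype Z] (φ : I → ((Z → ℂ) →L[ℂ] ℂ))
    (h : ∀ v, (∀ i, φ i v = 0) → v = 0) :
    ∃ s : Z → I, ∃ E : (Z → ℂ) ≃L[ℂ] (Z → ℂ), ∀ v k, E v k = φ (s k) v := by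
  classical
  let F : I → Module.Dual ℂ (Z → ℂ) := fun i => (φ i).toLinearMap
  have hco : (Submodule.span ℂ (Set.range F)).dualCoannihilator = ⊥ := by
    rw [eq_bot_iff]
    intro v hv
    rw [Submodule.mem_dualCoannihilator] at hv
    rw [Submodule.mem_bot]
    exact h v fun i => hv (F i) (Submodule.subset_span ⟨i, rfl⟩)
  have hsp : Submodule.span ℂ (Set.range F) = ⊤ := by
    rw [← Subspace.dualCoannihilator_dualAnnihilator_eq (W := Submodule.span ℂ (Set.range F)), hco,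
      Submodule.dualAnnihilator_bot]
  obtain ⟨κ, a, -, hspan, hli⟩ := exists_linearIndependent' ℂ F
  have : Finite κ := hli.finite
  have := Fintype.ofFinite κ
  let B := Module.Basis.mk hli (by rw [hspan, hsp])
  have hcard : Fintype.card κ = Fintype.card Z := by
    rw [← Module.finrank_eq_card_basis B, Subspace.dual_finrank_eq, Module.finrank_fintype_fun_eq_card]
  obtain ⟨e⟩ : Nonempty (Z ≃ κ) := Fintype.card_eq.mp hcard.symm
  let s : Z → I := fun k => a (e k)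
  let L : (Z → ℂ) →ₗ[ℂ] (Z → ℂ) := LinearMap.pi fun k => (φ (s k)).toLinearMap
  have hinj : Function.Injective L := by
    rw [← LinearMap.ker_eq_bot, LinearMap.ker_eq_bot']
    intro v hv
    apply h v
    intro i
    have h1 : ∀ f : Module.Dual ℂ (Z → ℂ), f v = 0 := by
      intro f
      have h2 : f ∈ Submodule.span ℂ (Set.range (F ∘ a)) := by
        rw [hspan, hsp]
        exact Submodule.mem_top
      refine Submodule.span_induction (p := fun g _ => g v = 0) ?_ ?_ ?_ ?_ h2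
      · rintro g ⟨k, rfl⟩
        have h3 := congrFun hv (e.symm k)
        show φ (a k) v = 0
        have h4 : φ (a (e (e.symm k))) v = 0 := h3
        rwa [e.apply_symm_apply] at h4
      · rfl
      · intro g g' _ _ hg hg'
        show g v + g' v = 0
        rw [hg, hg', add_zero]
      · intro c g _ hg
        show c * g v = 0
        rw [hg, mul_zero]
    exact h1 (F i)
  let E₀ := LinearEquiv.ofInjectiveEndo L hinj
  refine ⟨s, E₀.toContinuousLinearEquiv, fun v k => ?_⟩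
  rfl

theorem vec_neg {Z I Λ : Type} [Fintype Λ] (D : TH Z I Λ) (x : Λ → ℤ) :
    D.vec (-x) = -D.vec x := by
  unfold TH.vec
  rw [← Finset.sum_neg_distrib]
  refine Finset.sum_congr rfl fun l _ => ?_
  rw [← neg_smul]
  congr 1
  simp

end LFTM

open LFTM

theorem specLFT (hBAS : SpecBAS) (hDIM : SpecDIM) (hGRW : SpecGRW) (hNSZ : SpecNSZ) :
    SpecLFT := by
  classical
  intro Z I Λ _ _ _ D hD u₀ w hw hrel
  obtain ⟨hper, hana, -, -, himm, hinj, -, R, hR1, hR⟩ := hBAS D hD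
  obtain ⟨N, hN⟩ := hDIM D hD
  obtain ⟨C, κ, hC, hgrow⟩ := (hGRW D hD N hN).1 R
  -- representatives
  have hex : ∀ u, (∀ P ∈ D.nf, eval (fun i => w i u) P = 0) →
      ∃ γ : Z → ℂ, ‖γ‖ ≤ R ∧ D.th D.o γ ≠ 0 ∧ D.fv γ = fun i => w i u := by
    intro u hu
    obtain ⟨z, hz, hzw⟩ := hNSZ D hD _ hu
    obtain ⟨x, hx⟩ := hR z
    exact ⟨z + D.vec x, hx, (hper x z).1.mpr hz, by rw [(hper x z).2, hzw]⟩
  obtain ⟨γ, hγ⟩ : ∃ γ : ℂ → (Z → ℂ), ∀ u, (∀ P ∈ D.nf, eval (fun i => w i u) P = 0) →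
      ‖γ u‖ ≤ R ∧ D.th D.o (γ u) ≠ 0 ∧ D.fv (γ u) = fun i => w i u := by
    refine ⟨fun u => if h : (∀ P ∈ D.nf, eval (fun i => w i u) P = 0) then (hex u h).choose
      else 0, fun u hu => ?_⟩
    simp only [dif_pos hu]
    exact (hex u hu).choose_spec
  obtain ⟨-, hγ₀, hγ₀w⟩ := hγ u₀ hrel.self_of_nhds
  -- the local inverse
  obtain ⟨s, E, hE⟩ := exists_indices (fun i => fderiv ℂ (D.f i) (γ u₀)) (himm (γ u₀) · hγ₀)
  let G : (Z → ℂ) → (Z → ℂ) := fun z k => D.f (s k) z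
  have hGa : AnalyticAt ℂ G (γ u₀) := AnalyticAt.pi fun k => hana (s k) _ hγ₀
  have hfd : fderiv ℂ G (γ u₀) = (E : (Z → ℂ) →L[ℂ] (Z → ℂ)) := by
    have h1 : HasFDerivAt G (ContinuousLinearMap.pi fun k => fderiv ℂ (D.f (s k)) (γ u₀))
        (γ u₀) := hasFDerivAt_pi.mpr fun k => (hana (s k) _ hγ₀).differentiableAt.hasFDerivAt
    rw [h1.fderiv]
    ext v k
    exact (hE v k).symm
  have hst : HasStrictFDerivAt G (E : (Z → ℂ) →L[ℂ] (Z → ℂ)) (γ u₀) := by
    rw [← hfd]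
    exact hGa.hasStrictFDerivAt
  let e := hst.toOpenPartialHomeomorph G
  have hes : γ u₀ ∈ e.source := hst.mem_toOpenPartialHomeomorph_source
  have hinv : AnalyticAt ℂ e.symm (G (γ u₀)) := e.analyticAt_symm' hes hGa hfd
  have hws : AnalyticAt ℂ (fun u k => w (s k) u) u₀ := AnalyticAt.pi fun k => hw (s k)
  have hw0 : (fun k => w (s k) u₀) = G (γ u₀) := by
    funext k
    exact (congrFun hγ₀w (s k)).symm
  let ζ : ℂ → (Z → ℂ) := fun u => e.symm fun k => w (s k) u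
  have hζa : AnalyticAt ℂ ζ u₀ := by
    have h1 : AnalyticAt ℂ e.symm ((fun u k => w (s k) u) u₀) := by
      show AnalyticAt ℂ e.symm (fun k => w (s k) u₀)
      rw [hw0]
      exact hinv
    exact h1.comp hws
  have hζ0 : ζ u₀ = γ u₀ := by
    show e.symm (fun k => w (s k) u₀) = γ u₀
    rw [hw0]
    exact e.left_inv hes
  have hne : ∀ᶠ u in 𝓝 u₀, D.th D.o (ζ u) ≠ 0 := by
    have h1 : ContinuousAt (fun u => D.th D.o (ζ u)) u₀ :=
      (hD.diff D.o).continuous.continuousAt.comp hζa.continuousAt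
    apply h1.eventually_ne
    rw [hζ0]
    exact hγ₀
  refine ⟨ζ, hζa, ?_⟩
  refine hne.and ?_
  by_contra hcon
  have hfr : ∃ᶠ u in 𝓝 u₀, ¬ D.fv (ζ u) = fun i => w i u :=
    Filter.not_eventually.mp hcon
  -- an ultrafilter on the bad points
  have hF : NeBot (𝓝 u₀ ⊓ 𝓟 {u | ¬ D.fv (ζ u) = fun i => w i u}) :=
    frequently_mem_iff_neBot.mp hfr
  let 𝒰 : Ultrafilter ℂ := Ultrafilter.of (𝓝 u₀ ⊓ 𝓟 {u | ¬ D.fv (ζ u) = fun i => w i u})
  have h𝒰 : (𝒰 : Filter ℂ) ≤ 𝓝 u₀ ⊓ 𝓟 {u | ¬ D.fv (ζ u) = fun i => w i u} :=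
    Ultrafilter.of_le _
  have h𝒰1 : (𝒰 : Filter ℂ) ≤ 𝓝 u₀ := h𝒰.trans inf_le_left
  have h𝒰2 : ∀ᶠ u in (𝒰 : Filter ℂ), ¬ D.fv (ζ u) = fun i => w i u :=
    (h𝒰.trans inf_le_right) (mem_principal_self _)
  have hγ' : ∀ᶠ u in (𝒰 : Filter ℂ), ‖γ u‖ ≤ R ∧ D.th D.o (γ u) ≠ 0 ∧
      D.fv (γ u) = fun i => w i u := by
    filter_upwards [h𝒰1 hrel] with u hu
    exact hγ u hu
  -- the cluster point
  obtain ⟨g, -, hg⟩ : ∃ g ∈ Metric.closedBall (0 : Z → ℂ) R,
      ((𝒰.map γ : Ultrafilter (Z → ℂ)) : Filter (Z → ℂ)) ≤ 𝓝 g := by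
    apply (isCompact_closedBall (0 : Z → ℂ) R).ultrafilter_le_nhds
    rw [le_principal_iff]
    show ∀ᶠ u in (𝒰 : Filter ℂ), γ u ∈ Metric.closedBall (0 : Z → ℂ) R
    filter_upwards [hγ'] with u hu
    rw [mem_closedBall_zero_iff]
    exact hu.1
  have hgt : Tendsto γ (𝒰 : Filter ℂ) (𝓝 g) := hg
  -- `th_o` does not vanish at the cluster point
  have hwc : ContinuousAt (fun u i => w i u) u₀ :=
    continuousAt_pi.mpr fun i => (hw i).continuousAt
  have hth : D.th D.o g ≠ 0 := by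
    have hM : ∃ M : ℝ, 0 ≤ M ∧ ∀ᶠ u in (𝒰 : Filter ℂ), ‖D.yv N (γ u)‖ ≤ M := by
      have h1 : ContinuousAt (fun u (k : Z) => eval (fun i => w i u) (N.y k)) u₀ := by
        refine continuousAt_pi.mpr fun k => ?_
        exact (MvPolynomial.continuous_eval (N.y k)).continuousAt.comp hwc
      have h2 := h1.norm.eventually (gt_mem_nhds (lt_add_one _))
      refine ⟨‖fun (k : Z) => eval (fun i => w i u₀) (N.y k)‖ + 1, by positivity, ?_⟩
      filter_upwards [h𝒰1 h2, hγ'] with u hu hu'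
      have h3 : D.yv N (γ u) = fun (k : Z) => eval (fun i => w i u) (N.y k) := by
        funext k
        show eval (D.fv (γ u)) (N.y k) = _
        rw [hu'.2.2]
      rw [h3]
      exact le_of_lt hu
    obtain ⟨M, hM0, hM⟩ := hM
    have h4 : Tendsto (fun u => ‖D.th D.o (γ u)‖) (𝒰 : Filter ℂ) (𝓝 ‖D.th D.o g‖) :=
      ((hD.diff D.o).continuous.continuousAt.tendsto.comp hgt).norm
    have h5 : 1 ≤ C * (1 + M) ^ κ * ‖D.th D.o g‖ := by
      refine ge_of_tendsto (h4.const_mul (C * (1 + M) ^ κ)) ?_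
      filter_upwards [hM, hγ'] with u hu hu'
      refine le_trans (hgrow (γ u) hu'.1 hu'.2.1) ?_
      gcongr
    intro h6
    rw [h6, norm_zero, mul_zero] at h5
    linarith
  -- the value of `f` at the cluster point
  have hfg : D.fv g = D.fv (γ u₀) := by
    rw [hγ₀w]
    have h1 : Tendsto (fun u => D.fv (γ u)) (𝒰 : Filter ℂ) (𝓝 (D.fv g)) := by
      refine tendsto_pi_nhds.mpr fun i => ?_
      exact (hana i g hth).continuousAt.tendsto.comp hgt
    have h2 : Tendsto (fun u => D.fv (γ u)) (𝒰 : Filter ℂ) (𝓝 fun i => w i u₀) := by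
      refine (hwc.tendsto.mono_left h𝒰1).congr' ?_
      filter_upwards [hγ'] with u hu
      exact hu.2.2.symm
    exact tendsto_nhds_unique h1 h2
  obtain ⟨x, hx⟩ := hinj g (γ u₀) hth hγ₀ hfg
  have htr : Tendsto (fun u => γ u + D.vec (-x)) (𝒰 : Filter ℂ) (𝓝 (γ u₀)) := by
    have h1 := hgt.add_const (D.vec (-x))
    have h2 : g + D.vec (-x) = γ u₀ := by
      rw [vec_neg, ← hx]
      abel
    rwa [h2] at h1
  have hsrc : ∀ᶠ u in (𝒰 : Filter ℂ), γ u + D.vec (-x) ∈ e.source :=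
    htr (e.open_source.mem_nhds hes)
  obtain ⟨u, hu1, hu2, hu3⟩ := (hsrc.and (hγ'.and h𝒰2)).exists
  apply hu3
  have h1 : D.fv (γ u + D.vec (-x)) = fun i => w i u := by
    rw [(hper (-x) (γ u)).2, hu2.2.2]
  have h2 : ζ u = γ u + D.vec (-x) := by
    have h3 : (fun k => w (s k) u) = e (γ u + D.vec (-x)) := by
      funext k
      exact (congrFun h1 (s k)).symm
    show e.symm (fun k => w (s k) u) = _
    rw [h3]
    exact e.left_inv hu1
  rw [h2, h1]

end Pool.Agent.Lib.MPf11a48.AS
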