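import Pool.Agent.Lib.MP_f11a48_ag.AS.SpecT
import Pool.Agent.Lib.MP_f11a48_ag.U.Red
import Pool.Agent.Lib.MP_f11a48_ag.U.Size
import Pool.Agent.Lib.MP_f11a48_ag.U.Tl

/-!
# Project AS, module LIO: Liouville's inequality for the values of the auxiliary polynomial
-/

set_option autoImplicit false

open MvPolynomial Pool.Agent.Lib.MPf11a48.CM Filter Topology Asymptotics NumberField
open Pool.Agent.Lib.MPf11a48.U (oEmb dW)
open Pool.Agent.Lib.MPf11a48.U.SizeM Pool.Agent.Lib.MPf11a48.U.TlM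
  Pool.Agent.Lib.MPf11a48.U.RedM

namespace Pool.Agent.Lib.MPf11a48.AS

namespace LIOM

section

variable {R J : Type} [CommRing R]

/-- homogenisation of the coefficients -/
noncomputable def hom (n : R) (D : ℕ) (P : MvPolynomial J R) : MvPolynomial J R :=
  ∑ m ∈ P.support, monomial m (n ^ (D - m.sum fun _ k => k) * P.coeff m)

theorem hom_eval {F : Type} [Field F] (φ : R →+* F) (n : R) (yy : J → R) (v : J → F)
    (hv : ∀ i, φ (yy i) = φ n * v i) (P : MvPolynomial J R) (D : ℕ) (hD : P.totalDegree ≤ D) :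
    φ (aeval yy (hom n D P)) = φ n ^ D * eval₂ φ v P := by
  unfold hom
  conv_rhs => rw [P.as_sum, eval₂_sum, Finset.mul_sum]
  rw [map_sum, map_sum]
  refine Finset.sum_congr rfl fun m hm => ?_
  rw [aeval_monomial, eval₂_monomial]
  have h1 : (m.sum fun _ k => k) ≤ D := (le_totalDegree hm).trans hD
  have h2 : φ (m.prod fun i k => yy i ^ k) = φ n ^ (m.sum fun _ k => k) * m.prod fun i k => v i ^ k := by
    unfold Finsupp.prod Finsupp.sum
    rw [map_prod, ← Finset.prod_pow_eq_pow_sum, ← Finset.prod_mul_distrib]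
    refine Finset.prod_congr rfl fun i _ => ?_
    rw [map_pow, hv, mul_pow]
  rw [map_mul, h2, Algebra.algebraMap_self, RingHom.id_apply, map_mul, map_pow]
  have h3 : φ n ^ D = φ n ^ (D - m.sum fun _ k => k) * φ n ^ (m.sum fun _ k => k) := by
    rw [← pow_add, Nat.sub_add_cancel h1]
  rw [h3]
  ring

theorem hom_deg (n : R) (D : ℕ) (P : MvPolynomial J R) (hD : P.totalDegree ≤ D) :
    (hom n D P).totalDegree ≤ D := by
  unfold hom
  refine totalDegree_finsetSum_le fun m hm => ?_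
  exact (totalDegree_monomial_le _ _).trans ((le_totalDegree hm).trans hD)

theorem size_pow {N : R → ℝ} (hN : IsSize N) (a : R) (X : ℝ) (hX : 1 ≤ X) (ha : N a ≤ X) (k : ℕ) :
    N (a ^ k) ≤ X ^ k := by
  have h1 : N (1 : R) ≤ 1 := by simpa using hN.nat 1
  induction k with
  | zero => simpa using h1
  | succ k ih =>
    rw [pow_succ, pow_succ]
    exact (hN.mul _ _).trans (mul_le_mul ih ha (hN.nonneg _) (by positivity))

theorem hom_len {N : R → ℝ} (hN : IsSize N) (n : R) (X : ℝ) (hX : 1 ≤ X) (hn : N n ≤ X) (D : ℕ)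
    (P : MvPolynomial J R) : len N (hom n D P) ≤ X ^ D * len N P := by
  unfold hom
  refine (len_sum hN _ _).trans ?_
  conv_rhs => rw [len, Finset.mul_sum]
  refine Finset.sum_le_sum fun m _ => ?_
  refine (len_monomial_le hN _ _).trans ((hN.mul _ _).trans ?_)
  refine mul_le_mul_of_nonneg_right ?_ (hN.nonneg _)
  exact (size_pow hN n X hX hn _).trans (pow_le_pow_right₀ hX (Nat.sub_le _ _))

end

/-- the house decreases under embeddings -/
theorem house_map_le {K L : Type} [Field K] [NumberField K] [Field L] [NumberField L]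
    (τ : K →+* L) (a : K) : house (τ a) ≤ house a := by
  rw [house_eq_sup' (τ a)]
  have h : (Finset.univ.sup' Finset.univ_nonempty (fun φ : L →+* ℂ ↦ ‖φ (τ a)‖₊)) ≤
      (⟨house a, house_nonneg a⟩ : NNReal) := by
    refine Finset.sup'_le _ _ fun φ _ => ?_
    refine NNReal.coe_le_coe.mp ?_
    rw [coe_nnnorm]
    exact norm_embedding_le_house a (φ.comp τ)
  exact_mod_cast h

theorem lw_eq {β : ℕ} {I Λ : Type} [Fintype I] [Fintype Λ] (D : QD β I Λ) {K : Type} [Field K]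
    [NumberField K] (σ : K →+* ℂ) (xv : Option I → 𝓞 K)
    (p : Option I → Fin β → MvPolynomial (Option I) (𝓞 K)) (h : D.IntD σ xv p)
    (w : List (Fin β)) (P : MvPolynomial (Option I) (𝓞 K)) :
    D.lw w (map (oEmb σ) P) = map (oEmb σ) (dW p w P) := by
  rw [map_dW]
  unfold QD.lw
  have hp : (fun i j => map (oEmb σ) (p i j)) = fun i j => D.pp i (some j) := by
    funext i j
    rw [h.ders]
  rw [hp]
  induction w with
  | nil => rfl
  | cons j w ih =>
    rw [List.map_cons, it, ih]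
    rfl

end LIOM

open LIOM in
theorem specLIO : SpecLIO := by
  classical
  intro β I Λ _ _ D hD K _ _ σ xv p hI γ hγ hf hze
  -- the values
  set val : Option I → ℂ := fun i => Option.elim i (D.ze γ + 0) fun i => D.f i γ with hval
  have hvQ : ∀ i, val i ∈ Qbar := by
    intro i
    cases i with
    | none => simpa [hval] using hze
    | some i => simpa [hval] using hf i
  -- a number field which contains everything
  let b := Module.finBasis ℚ K
  let S : Finset ℂ := (Finset.univ.image val) ∪ (Finset.univ.image fun j => σ (b j))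
  have hSQ : ∀ s ∈ S, s ∈ Qbar := by
    intro s hs
    rcases Finset.mem_union.1 hs with hs | hs
    · obtain ⟨i, _, rfl⟩ := Finset.mem_image.1 hs
      exact hvQ i
    · obtain ⟨j, _, rfl⟩ := Finset.mem_image.1 hs
      rw [mem_algebraicClosure_iff]
      have h1 : IsAlgebraic ℚ (b j) := Algebra.IsAlgebraic.isAlgebraic (b j)
      exact h1.algHom (σ.toRatAlgHom)
  let K₁ : IntermediateField ℚ ℂ := IntermediateField.adjoin ℚ (S : Set ℂ)
  have : Finite (S : Set ℂ) := S.finite_toSet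
  have hfd : FiniteDimensional ℚ K₁ :=
    IntermediateField.finiteDimensional_adjoin (fun x hx =>
      (mem_algebraicClosure_iff.1 (hSQ x hx)).isIntegral)
  have hnf : NumberField K₁ := ⟨⟩
  have hSK : ∀ s ∈ S, s ∈ K₁ := fun s hs => IntermediateField.subset_adjoin ℚ _ hs
  have hvK : ∀ i, val i ∈ K₁ := fun i =>
    hSK _ (Finset.mem_union_left _ (Finset.mem_image.2 ⟨i, Finset.mem_univ i, rfl⟩))
  have hσK : ∀ a, σ a ∈ K₁ := by
    intro a
    rw [← b.sum_repr a, map_sum]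
    refine sum_mem fun j _ => ?_
    have h1 : σ (b.repr a j • b j) = b.repr a j • σ (b j) := by
      rw [Rat.smul_def, Rat.smul_def, map_mul, map_ratCast]
    rw [h1]
    exact K₁.smul_mem (hSK _ (Finset.mem_union_right _ (Finset.mem_image.2 ⟨j, Finset.mem_univ j, rfl⟩)))
  let τ : K →+* K₁ := σ.codRestrict K₁ hσK
  let τO : 𝓞 K →+* 𝓞 K₁ := RingOfIntegers.mapRingHom τ
  set σ₁ : K₁ →+* ℂ := algebraMap K₁ ℂ with hσ₁
  have hcomp : (oEmb σ₁).comp τO = oEmb σ := by
    ext a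
    rfl
  -- common denominator
  obtain ⟨n, hn, hint⟩ := exists_denom S hSQ
  have hnC : (n : ℂ) ≠ 0 := Nat.cast_ne_zero.2 hn
  have hyy : ∀ i, ∃ y : 𝓞 K₁, oEmb σ₁ y = (n : ℂ) * val i := fun i =>
    exists_int K₁ _ (K₁.mul_mem (natCast_mem K₁ n) (hvK i)) (hint _
      (Finset.mem_union_left _ (Finset.mem_image.2 ⟨i, Finset.mem_univ i, rfl⟩)))
  choose yy hyy using hyy
  -- sizes
  set N : 𝓞 K → ℝ := fun a => house (algebraMap (𝓞 K) K a) with hN
  set N₁ : 𝓞 K₁ → ℝ := fun a => house (algebraMap (𝓞 K₁) K₁ a) with hN₁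
  have sN : IsSize N := isSize_house K
  have sN₁ : IsSize N₁ := isSize_house K₁
  obtain ⟨B, hB1, hB⟩ : ∃ B : ℝ, 1 ≤ B ∧ ∀ i j, len N (p i j) ≤ B := by
    refine ⟨1 + ∑ i, ∑ j, len N (p i j), ?_, fun i j => ?_⟩
    · have : 0 ≤ ∑ i, ∑ j, len N (p i j) :=
        Finset.sum_nonneg fun i _ => Finset.sum_nonneg fun j _ => len_nonneg sN _
      linarith
    · have h1 : len N (p i j) ≤ ∑ j, len N (p i j) :=
        Finset.single_le_sum (f := fun j => len N (p i j)) (fun j _ => len_nonneg sN _)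
          (Finset.mem_univ j)
      have h2 : ∑ j, len N (p i j) ≤ ∑ i, ∑ j, len N (p i j) :=
        Finset.single_le_sum (f := fun i => ∑ j, len N (p i j))
          (fun i _ => Finset.sum_nonneg fun j _ => len_nonneg sN _) (Finset.mem_univ i)
      linarith
  obtain ⟨δ, hδ⟩ : ∃ δ : ℕ, ∀ i j, (p i j).totalDegree ≤ δ := by
    refine ⟨∑ i, ∑ j, (p i j).totalDegree, fun i j => ?_⟩
    have h1 : (p i j).totalDegree ≤ ∑ j, (p i j).totalDegree :=
      Finset.single_le_sum (f := fun j => (p i j).totalDegree) (fun j _ => Nat.zero_le _)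
        (Finset.mem_univ j)
    have h2 : ∑ j, (p i j).totalDegree ≤ ∑ i, ∑ j, (p i j).totalDegree :=
      Finset.single_le_sum (f := fun i => ∑ j, (p i j).totalDegree)
        (fun i _ => Nat.zero_le _) (Finset.mem_univ i)
    exact h1.trans h2
  obtain ⟨X, hX1, hXn, hX⟩ : ∃ X : ℝ, 1 ≤ X ∧ (n : ℝ) ≤ X ∧ ∀ i, N₁ (yy i) ≤ X := by
    have h0 : 0 ≤ ∑ i, N₁ (yy i) := Finset.sum_nonneg fun i _ => sN₁.nonneg _
    have hn0 : (0 : ℝ) ≤ n := Nat.cast_nonneg n
    refine ⟨1 + n + ∑ i, N₁ (yy i), ?_, ?_, fun i => ?_⟩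
    · linarith
    · linarith
    · have h1 : N₁ (yy i) ≤ ∑ i, N₁ (yy i) :=
        Finset.single_le_sum (f := fun i => N₁ (yy i)) (fun i _ => sN₁.nonneg _)
          (Finset.mem_univ i)
      linarith
  have hBd : 1 ≤ B * (δ + 1) := by
    have : (0 : ℝ) ≤ δ := Nat.cast_nonneg δ
    nlinarith
  have hXX : 1 ≤ X * X := by nlinarith
  set G : ℝ := B * (δ + 1) * (X * X) ^ (δ + 1) with hG
  have hG1 : 1 ≤ G := one_le_mul_of_one_le_of_one_le hBd (one_le_pow₀ hXX)
  set r := Module.finrank ℚ K₁ with hr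
  have hr1 : 1 ≤ r := Module.finrank_pos
  refine ⟨⌈G⌉₊ + r, by omega, ?_⟩
  intro d H P w hH hPd hPH hne
  set s : ℕ := d + w.length with hs
  set v := D.ev γ 0 (D.lw w (map (oEmb σ) P)) with hv
  obtain ⟨q1, q2⟩ := dW_bound sN p (by linarith : (0 : ℝ) ≤ B) hB hδ P hPd w le_rfl
  set Q := dW p w P with hQ
  set Q₁ := map τO Q with hQ₁
  set D' := d + w.length * δ with hD'
  have hQ₁d : Q₁.totalDegree ≤ D' := by
    refine le_trans ?_ q1
    exact Finset.sup_mono (support_map_subset τO Q)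
  have hQ₁l : len N₁ Q₁ ≤ len N Q := by
    rw [len_eq sN₁ Q₁ Q.support (support_map_subset τO Q)]
    refine Finset.sum_le_sum fun m _ => ?_
    rw [hQ₁, coeff_map]
    exact house_map_le τ _
  have hv2 : v = eval₂ (oEmb σ₁) val Q₁ := by
    rw [hv, lw_eq D σ xv p hI w P, hQ₁, eval₂_map, hcomp]
    unfold QD.ev
    rw [aeval_def, eval₂_map]
    rfl
  set α : 𝓞 K₁ := aeval yy (hom (n : 𝓞 K₁) D' Q₁) with hα
  have hn1 : oEmb σ₁ (n : 𝓞 K₁) = n := map_natCast _ n
  have hα1 : oEmb σ₁ α = (n : ℂ) ^ D' * v := by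
    rw [hα, hom_eval (oEmb σ₁) (n : 𝓞 K₁) yy val (fun i => by rw [hn1, hyy]) Q₁ D' hQ₁d, hn1, hv2]
  have hα0 : α ≠ 0 := by
    intro h0
    rw [h0, map_zero] at hα1
    exact mul_ne_zero (pow_ne_zero _ hnC) hne hα1.symm
  have hN₁n : N₁ (n : 𝓞 K₁) ≤ X := (sN₁.nat n).trans hXn
  have hl0 : 0 ≤ len N₁ Q₁ := len_nonneg sN₁ _
  have hS0 : (0 : ℝ) ≤ ((s : ℕ) : ℝ) := Nat.cast_nonneg s
  have hlen : len N₁ Q₁ ≤ H * (B * (δ + 1) * (s : ℝ)) ^ w.length := by
    refine hQ₁l.trans (q2.trans ?_)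
    exact mul_le_mul_of_nonneg_right hPH (by positivity)
  have hXD : (X * X) ^ D' ≤ ((X * X) ^ (δ + 1)) ^ s := by
    rw [← pow_mul]
    apply pow_le_pow_right₀ hXX
    rw [hD', hs]
    nlinarith [Nat.zero_le (δ * d), Nat.zero_le w.length]
  set E₀ : ℝ := H * G ^ s * (s : ℝ) ^ w.length with hE₀
  have hsL : 1 ≤ (s : ℝ) ^ w.length := by
    rcases Nat.eq_zero_or_pos w.length with h0 | h0
    · rw [h0, pow_zero]
    · apply one_le_pow₀
      have : 1 ≤ s := by omega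
      exact_mod_cast this
  have hGs : 1 ≤ G ^ s := one_le_pow₀ hG1
  have hE₀1 : G ^ s ≤ E₀ := by
    rw [hE₀]
    calc G ^ s = 1 * G ^ s * 1 := by ring
      _ ≤ H * G ^ s * (s : ℝ) ^ w.length := by
          apply mul_le_mul _ hsL (by norm_num) (by positivity)
          exact mul_le_mul_of_nonneg_right hH (by positivity)
  have hhouse : N₁ α ≤ E₀ := by
    have h1 : N₁ α ≤ len N₁ (hom (n : 𝓞 K₁) D' Q₁) * X ^ D' :=
      size_aeval sN₁ yy hX1 hX _ (hom_deg _ _ _ hQ₁d)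
    have h2 := hom_len sN₁ (n : 𝓞 K₁) X hX1 hN₁n D' Q₁
    calc N₁ α ≤ len N₁ (hom (n : 𝓞 K₁) D' Q₁) * X ^ D' := h1
      _ ≤ (X ^ D' * len N₁ Q₁) * X ^ D' := mul_le_mul_of_nonneg_right h2 (by positivity)
      _ = (X * X) ^ D' * len N₁ Q₁ := by rw [mul_pow]; ring
      _ ≤ ((X * X) ^ (δ + 1)) ^ s * (H * (B * (δ + 1) * (s : ℝ)) ^ w.length) :=
          mul_le_mul hXD hlen hl0 (by positivity)
      _ = H * ((B * (δ + 1)) ^ w.length * ((X * X) ^ (δ + 1)) ^ s) * (s : ℝ) ^ w.length := by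
          rw [mul_pow (B * (δ + 1 : ℝ)) (s : ℝ)]; ring
      _ ≤ H * ((B * (δ + 1)) ^ s * ((X * X) ^ (δ + 1)) ^ s) * (s : ℝ) ^ w.length := by
          apply mul_le_mul_of_nonneg_right _ (by positivity)
          apply mul_le_mul_of_nonneg_left _ (by linarith)
          apply mul_le_mul_of_nonneg_right _ (by positivity)
          exact pow_le_pow_right₀ hBd (by omega)
      _ = E₀ := by rw [hE₀, hG, mul_pow (B * (δ + 1 : ℝ))]
  have hnD : (n : ℝ) ^ D' ≤ E₀ := by
    refine le_trans ?_ hE₀1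
    calc (n : ℝ) ^ D' ≤ (X * X) ^ D' := by
          apply pow_le_pow_left₀ (Nat.cast_nonneg n)
          nlinarith
      _ ≤ ((X * X) ^ (δ + 1)) ^ s := hXD
      _ ≤ G ^ s := by
          apply pow_le_pow_left₀ (by positivity)
          rw [hG]
          exact le_mul_of_one_le_left (by positivity) hBd
  have hliou := liouville σ₁ hα0
  rw [hα1, norm_mul, norm_pow, Complex.norm_natCast] at hliou
  have hE₀0 : 0 ≤ E₀ := le_trans (by positivity) hE₀1
  have hE₀1' : 1 ≤ E₀ := hGs.trans hE₀1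
  have hstep : 1 ≤ ‖v‖ * E₀ ^ r := by
    calc (1 : ℝ) ≤ (n : ℝ) ^ D' * ‖v‖ * N₁ α ^ (r - 1) := hliou
      _ ≤ E₀ * ‖v‖ * E₀ ^ (r - 1) := by
          apply mul_le_mul _ (pow_le_pow_left₀ (sN₁.nonneg _) hhouse _)
            (pow_nonneg (sN₁.nonneg _) _) (by positivity)
          exact mul_le_mul_of_nonneg_right hnD (norm_nonneg _)
      _ = ‖v‖ * E₀ ^ (r - 1 + 1) := by rw [pow_succ]; ring
      _ = ‖v‖ * E₀ ^ r := by rw [Nat.sub_add_cancel hr1]
  refine hstep.trans (mul_le_mul_of_nonneg_left ?_ (norm_nonneg _))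
  have hGC : G ≤ ((⌈G⌉₊ + r : ℕ) : ℝ) := by
    push_cast
    have := Nat.le_ceil G
    have : (0 : ℝ) ≤ r := Nat.cast_nonneg r
    linarith
  have hEE : E₀ ≤ H * ((⌈G⌉₊ + r : ℕ) : ℝ) ^ s * (s : ℝ) ^ w.length := by
    rw [hE₀]
    apply mul_le_mul_of_nonneg_right _ (by positivity)
    apply mul_le_mul_of_nonneg_left _ (by linarith)
    exact pow_le_pow_left₀ (by linarith) hGC _
  calc E₀ ^ r ≤ (H * ((⌈G⌉₊ + r : ℕ) : ℝ) ^ s * (s : ℝ) ^ w.length) ^ r :=
        pow_le_pow_left₀ hE₀0 hEE _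
    _ ≤ (H * ((⌈G⌉₊ + r : ℕ) : ℝ) ^ s * (s : ℝ) ^ w.length) ^ (⌈G⌉₊ + r) :=
        pow_le_pow_right₀ (hE₀1'.trans hEE) (by omega)

end Pool.Agent.Lib.MPf11a48.AS
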