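import Pool.Agent.Lib.MP_f11a48_ag.AS.SpecT

/-!
# NMR: the numerical part of the extrapolation
-/

namespace Pool.Agent.Lib.MPf11a48.AS.NMRM

open Real Filter Asymptotics

theorem growth (β C : ℕ) (K : ℝ) (hK : 0 < K) : ∃ T₀ : ℕ, ∀ T : ℕ, T₀ ≤ T → ∀ d : ℕ,
    d ^ (β + 1) ≤ C * T ^ β → K * (1 + Real.log T) * d ≤ T := by
  have h1 : (fun x : ℝ => Real.log x ^ (β + 1)) =o[atTop] (id : ℝ → ℝ) :=
    isLittleO_pow_log_id_atTop
  have hc : (0 : ℝ) < 1 / ((2 * K) ^ (β + 1) * C + 1) := by positivity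
  have h2 := h1.def hc
  have h3 : ∀ᶠ x : ℝ in atTop, 1 ≤ Real.log x := by
    have := Real.tendsto_log_atTop.eventually_ge_atTop 1
    exact this
  have h4 : ∀ᶠ n : ℕ in atTop, ‖Real.log (n : ℝ) ^ (β + 1)‖ ≤
      1 / ((2 * K) ^ (β + 1) * C + 1) * ‖(id (n : ℝ) : ℝ)‖ ∧ 1 ≤ Real.log (n : ℝ) :=
    tendsto_natCast_atTop_atTop.eventually (h2.and h3)
  obtain ⟨T₀, hT₀⟩ := (h4.and (eventually_ge_atTop 1)).exists_forall_of_atTop
  refine ⟨T₀, fun T hT d hd => ?_⟩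
  obtain ⟨⟨ha, hb⟩, hT1⟩ := hT₀ T hT
  have hTp : (0 : ℝ) < T := by exact_mod_cast hT1
  by_contra hcon
  push Not at hcon
  have hlog : (0 : ℝ) < Real.log T := by linarith
  have e1 : (T : ℝ) ^ (β + 1) < (K * (1 + Real.log T) * d) ^ (β + 1) :=
    pow_lt_pow_left₀ hcon hTp.le (Nat.succ_ne_zero β)
  have e2 : ((d : ℝ)) ^ (β + 1) ≤ C * (T : ℝ) ^ β := by exact_mod_cast hd
  have e3 : (K * (1 + Real.log T) * d) ^ (β + 1) ≤
      (2 * K) ^ (β + 1) * Real.log T ^ (β + 1) * (C * (T : ℝ) ^ β) := by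
    rw [mul_pow]
    have : (K * (1 + Real.log T)) ^ (β + 1) ≤ (2 * K) ^ (β + 1) * Real.log T ^ (β + 1) := by
      rw [← mul_pow]
      apply pow_le_pow_left₀ (by positivity)
      nlinarith
    exact mul_le_mul this e2 (by positivity) (by positivity)
  have e4 : (T : ℝ) ^ (β + 1) < (2 * K) ^ (β + 1) * C * Real.log T ^ (β + 1) * (T : ℝ) ^ β := by
    calc (T : ℝ) ^ (β + 1) < _ := lt_of_lt_of_le e1 e3
      _ = _ := by ring
  have e5 : (T : ℝ) < (2 * K) ^ (β + 1) * C * Real.log T ^ (β + 1) := by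
    rw [pow_succ, mul_comm] at e4
    exact lt_of_mul_lt_mul_right e4 (by positivity)
  rw [Real.norm_of_nonneg (by positivity)] at ha
  simp only [id, Real.norm_of_nonneg hTp.le] at ha
  rw [div_mul_eq_mul_div, one_mul, le_div_iff₀ (by positivity)] at ha
  have hpos : 0 < Real.log (T : ℝ) ^ (β + 1) := by positivity
  nlinarith

theorem le_exp (x : ℝ) : x ≤ Real.exp x := by
  linarith [Real.add_one_le_exp x]

theorem numer {C A : ℕ} {ε : ℝ} (hC : 1 ≤ C) (hA : 1 ≤ A) (hε : 0 < ε)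
    {K : ℝ} (hK : K = 80 * A * (A + C ^ 2 + 1 + ε⁻¹ * A + A * (C ^ 2 + 2 * A + 1)) + 1)
    {T d : ℕ} (hT : 1 ≤ T) (hd : 1 ≤ d) (hKd : K * (1 + Real.log T) * d ≤ T) :
    A * d ≤ T ∧ ∃ S : ℕ, 1 ≤ S ∧ ∀ k : ℕ, 2 * k ≤ T →
      (A * ((C * T : ℕ) : ℝ) ^ (C * T) * (k : ℝ) ^ k * Real.exp (A * d * (S : ℝ) ^ 2) *
        (1 / 2 : ℝ) ^ ((T - k) * S)) * (ε ^ (A * d))⁻¹ *
        (((C * T : ℕ) : ℝ) ^ (C * T) * (A : ℝ) ^ (d + k) * ((d + k : ℕ) : ℝ) ^ k) ^ A < 1 := by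
  have hT1 : (1 : ℝ) ≤ T := by exact_mod_cast hT
  have hTp : (0 : ℝ) < T := by linarith
  have hd1 : (1 : ℝ) ≤ d := by exact_mod_cast hd
  have hA1 : (1 : ℝ) ≤ A := by exact_mod_cast hA
  have hC1 : (1 : ℝ) ≤ C := by exact_mod_cast hC
  have hlog : (0 : ℝ) ≤ Real.log T := Real.log_nonneg hT1
  set l : ℝ := 1 + Real.log T with hl
  have hl1 : 1 ≤ l := by linarith
  set K1 : ℝ := A + C ^ 2 + 1 + ε⁻¹ * A + A * (C ^ 2 + 2 * A + 1) with hK1
  have hεi : 0 < ε⁻¹ := inv_pos.2 hε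
  have hK1p : 1 ≤ K1 := by
    have : 0 ≤ (A : ℝ) + C ^ 2 + ε⁻¹ * A + A * (C ^ 2 + 2 * A + 1) := by positivity
    rw [hK1]; linarith
  have hKA : 80 * (A : ℝ) ≤ K := by
    rw [hK]
    have : 80 * (A : ℝ) ≤ 80 * A * K1 := le_mul_of_one_le_right (by linarith) hK1p
    linarith
  have hKp : 0 < K := by linarith
  have hld : (1 : ℝ) * d ≤ l * d := mul_le_mul_of_nonneg_right hl1 (by linarith)
  have hAd0 : (0 : ℝ) ≤ A * d := by positivity
  have h16 : 16 * (A : ℝ) * d ≤ T := by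
    have h0 : (0 : ℝ) ≤ l * d := by positivity
    have h1 : 80 * (A : ℝ) * (l * d) ≤ K * (l * d) := mul_le_mul_of_nonneg_right hKA h0
    have h2 : (A : ℝ) * (1 * d) ≤ A * (l * d) := mul_le_mul_of_nonneg_left hld (by linarith)
    have h3 : K * (l * d) ≤ T := by
      rw [← mul_assoc]; exact hKd
    have h4 : (0 : ℝ) ≤ A * (l * d) := by positivity
    linarith
  have hAd : (A : ℝ) * d ≤ T := by linarith
  have hdT : (d : ℝ) ≤ T := (le_mul_of_one_le_left (by linarith) hA1).trans hAd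
  refine ⟨by exact_mod_cast hAd, ?_⟩
  have h8 : (0 : ℝ) < 8 * A * d := by positivity
  set S : ℕ := ⌊(T : ℝ) / (8 * A * d)⌋₊ with hS
  have hSle : (S : ℝ) ≤ T / (8 * A * d) := Nat.floor_le (by positivity)
  have hSgt : (T : ℝ) / (8 * A * d) < S + 1 := Nat.lt_floor_add_one _
  have h2le : 2 ≤ (T : ℝ) / (8 * A * d) := by
    rw [le_div_iff₀ h8]; linarith
  have hS16 : (T : ℝ) / (8 * A * d) ≤ 2 * S := by
    have : (1 : ℝ) < S := by linarith
    linarith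
  have hS1 : (1 : ℝ) ≤ S := by linarith
  refine ⟨S, by exact_mod_cast hS1, fun k hk => ?_⟩
  have hkT : 2 * (k : ℝ) ≤ T := by exact_mod_cast hk
  have hkle : k ≤ T := by omega
  have hk0 : (0 : ℝ) ≤ k := Nat.cast_nonneg k
  have hkT' : (k : ℝ) ≤ T := by linarith
  -- the main estimates
  have hTexp : (T : ℝ) = Real.exp (Real.log T) := (Real.exp_log hTp).symm
  have h2T : 2 * (T : ℝ) ≤ Real.exp l := by
    rw [hl, Real.exp_add, Real.exp_log hTp]
    have : (2 : ℝ) ≤ Real.exp 1 := by linarith [Real.add_one_le_exp (1 : ℝ)]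
    exact mul_le_mul_of_nonneg_right this hTp.le
  have hTl : (0 : ℝ) ≤ T * l := by positivity
  have hTlT : (T : ℝ) ≤ T * l := le_mul_of_one_le_right hTp.le hl1
  have f1 : (A : ℝ) ≤ Real.exp (A * (T * l)) := by
    refine (le_exp _).trans (Real.exp_le_exp.2 ?_)
    exact le_mul_of_one_le_right (Nat.cast_nonneg A) (hT1.trans hTlT)
  have f2 : ((C * T : ℕ) : ℝ) ^ (C * T) ≤ Real.exp (C ^ 2 * (T * l)) := by
    have g1 : ((C * T : ℕ) : ℝ) ≤ Real.exp (C * l) := by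
      push_cast
      have g2 : (C : ℝ) ≤ Real.exp C := le_exp _
      calc (C : ℝ) * T ≤ Real.exp C * Real.exp (C * Real.log T) := by
            refine mul_le_mul g2 ?_ hTp.le (Real.exp_pos _).le
            conv_lhs => rw [hTexp]
            exact Real.exp_le_exp.2 (le_mul_of_one_le_left hlog hC1)
        _ = Real.exp (C * l) := by rw [← Real.exp_add, hl]; ring_nf
    calc ((C * T : ℕ) : ℝ) ^ (C * T) ≤ (Real.exp (C * l)) ^ (C * T) :=
          pow_le_pow_left₀ (Nat.cast_nonneg _) g1 _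
      _ = Real.exp (C ^ 2 * (T * l)) := by
          rw [← Real.exp_nat_mul]; push_cast; ring_nf
  have f3 : (k : ℝ) ^ k ≤ Real.exp (T * l) := by
    calc (k : ℝ) ^ k ≤ (Real.exp l) ^ k := pow_le_pow_left₀ hk0 (by linarith) _
      _ = Real.exp (k * l) := by rw [← Real.exp_nat_mul]
      _ ≤ _ := Real.exp_le_exp.2 (mul_le_mul_of_nonneg_right hkT' (by linarith))
  have f4 : (ε ^ (A * d))⁻¹ ≤ Real.exp (ε⁻¹ * A * (T * l)) := by
    rw [← inv_pow]
    calc (ε⁻¹) ^ (A * d) ≤ (Real.exp ε⁻¹) ^ (A * d) := pow_le_pow_left₀ hεi.le (le_exp _) _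
      _ = Real.exp ((A * d : ℕ) * ε⁻¹) := by rw [← Real.exp_nat_mul]
      _ ≤ _ := by
        refine Real.exp_le_exp.2 ?_
        push_cast
        have : (d : ℝ) ≤ T * l := hdT.trans hTlT
        have h0 : 0 ≤ ε⁻¹ * A := by positivity
        calc (A : ℝ) * d * ε⁻¹ = ε⁻¹ * A * d := by ring
          _ ≤ ε⁻¹ * A * (T * l) := mul_le_mul_of_nonneg_left this h0
  have f5 : (A : ℝ) ^ (d + k) ≤ Real.exp (2 * A * (T * l)) := by
    calc (A : ℝ) ^ (d + k) ≤ (Real.exp A) ^ (d + k) :=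
          pow_le_pow_left₀ (Nat.cast_nonneg _) (le_exp _) _
      _ = Real.exp ((d + k : ℕ) * A) := by rw [← Real.exp_nat_mul]
      _ ≤ _ := by
        refine Real.exp_le_exp.2 ?_
        push_cast
        have : (d : ℝ) + k ≤ 2 * (T * l) := by linarith
        calc ((d : ℝ) + k) * A ≤ 2 * (T * l) * A :=
              mul_le_mul_of_nonneg_right this (Nat.cast_nonneg A)
          _ = 2 * A * (T * l) := by ring
  have f6 : ((d + k : ℕ) : ℝ) ^ k ≤ Real.exp (T * l) := by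
    calc ((d + k : ℕ) : ℝ) ^ k ≤ (Real.exp l) ^ k :=
          pow_le_pow_left₀ (Nat.cast_nonneg _) (by push_cast; linarith) _
      _ = Real.exp (k * l) := by rw [← Real.exp_nat_mul]
      _ ≤ _ := Real.exp_le_exp.2 (mul_le_mul_of_nonneg_right hkT' (by linarith))
  have f7 : (((C * T : ℕ) : ℝ) ^ (C * T) * (A : ℝ) ^ (d + k) * ((d + k : ℕ) : ℝ) ^ k) ^ A ≤
      Real.exp (A * (C ^ 2 + 2 * A + 1) * (T * l)) := by
    have g : ((C * T : ℕ) : ℝ) ^ (C * T) * (A : ℝ) ^ (d + k) * ((d + k : ℕ) : ℝ) ^ k ≤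
        Real.exp ((C ^ 2 + 2 * A + 1) * (T * l)) := by
      calc ((C * T : ℕ) : ℝ) ^ (C * T) * (A : ℝ) ^ (d + k) * ((d + k : ℕ) : ℝ) ^ k
          ≤ Real.exp (C ^ 2 * (T * l)) * Real.exp (2 * A * (T * l)) * Real.exp (T * l) :=
            mul_le_mul (mul_le_mul f2 f5 (by positivity) (by positivity)) f6 (by positivity)
              (by positivity)
        _ = _ := by rw [← Real.exp_add, ← Real.exp_add]; ring_nf
    calc _ ≤ (Real.exp ((C ^ 2 + 2 * A + 1) * (T * l))) ^ A :=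
          pow_le_pow_left₀ (by positivity) g _
      _ = _ := by rw [← Real.exp_nat_mul]; ring_nf
  have f8 : Real.exp (A * d * (S : ℝ) ^ 2) * (1 / 2 : ℝ) ^ ((T - k) * S) ≤
      Real.exp (- (T * S / 5)) := by
    have g1 : (1 / 2 : ℝ) ^ ((T - k) * S) = Real.exp (-(((T : ℝ) - k) * S * Real.log 2)) := by
      have : (1 / 2 : ℝ) = Real.exp (-Real.log 2) := by
        rw [Real.exp_neg, Real.exp_log (by norm_num)]; norm_num
      rw [this, ← Real.exp_nat_mul]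
      congr 1
      push_cast [Nat.cast_sub hkle]
      ring
    rw [g1, ← Real.exp_add]
    refine Real.exp_le_exp.2 ?_
    have g2 : (A : ℝ) * d * (S : ℝ) ^ 2 ≤ T * S / 8 := by
      rw [le_div_iff₀ h8] at hSle
      have h0 : (S : ℝ) * (8 * A * d) * S ≤ T * S := mul_le_mul_of_nonneg_right hSle (by linarith)
      have h1 : (A : ℝ) * d * (S : ℝ) ^ 2 = (S : ℝ) * (8 * A * d) * S / 8 := by ring
      rw [h1]
      linarith
    have g3 : (0.69 : ℝ) < Real.log 2 := by linarith [Real.log_two_gt_d9]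
    have g4 : (T : ℝ) / 2 ≤ T - k := by linarith
    have g5 : (T : ℝ) * S * 0.345 ≤ ((T : ℝ) - k) * S * Real.log 2 := by
      have s1 : (T : ℝ) / 2 * S ≤ ((T : ℝ) - k) * S := mul_le_mul_of_nonneg_right g4 (by linarith)
      have s2 : (0 : ℝ) ≤ (T : ℝ) / 2 * S := by positivity
      calc (T : ℝ) * S * 0.345 = (T : ℝ) / 2 * S * 0.69 := by ring
        _ ≤ ((T : ℝ) - k) * S * Real.log 2 :=
          mul_le_mul s1 g3.le (by norm_num) (s2.trans s1)
    have hTS : (0 : ℝ) ≤ (T : ℝ) * S := by positivity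
    linarith
  have hfin : (K1 * (T * l)) < T * S / 5 := by
    -- S ≥ T/(16 A d) ≥ K l/(16 A) > 5 K1 l
    have g1 : (T : ℝ) ≤ 2 * S * (8 * A * d) := by
      rwa [div_le_iff₀ h8] at hS16
    have g2 : K * l * d ≤ 2 * S * (8 * A * d) := hKd.trans g1
    have g3 : K * l ≤ 16 * A * S := by
      have : K * l * d ≤ (16 * A * S) * d := by
        calc K * l * d ≤ 2 * S * (8 * A * d) := g2
          _ = (16 * A * S) * d := by ring
      exact le_of_mul_le_mul_right this (by linarith)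
    have g4 : K * l = 80 * A * K1 * l + l := by
      rw [hK]
      ring
    have g5 : 5 * K1 * l < S := by
      have : (16 * (A : ℝ)) * (5 * K1 * l) < (16 * A) * S := by
        calc (16 * (A : ℝ)) * (5 * K1 * l) = 80 * A * K1 * l := by ring
          _ < K * l := by linarith
          _ ≤ (16 * A) * S := g3
      exact lt_of_mul_lt_mul_left this (by positivity)
    have g6 : (T : ℝ) * (5 * K1 * l) < T * S := mul_lt_mul_of_pos_left g5 hTp
    have g7 : K1 * (T * l) = (T : ℝ) * (5 * K1 * l) / 5 := by ring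
    rw [g7]
    linarith
  have e0 : (A * ((C * T : ℕ) : ℝ) ^ (C * T) * (k : ℝ) ^ k * Real.exp (A * d * (S : ℝ) ^ 2) *
        (1 / 2 : ℝ) ^ ((T - k) * S)) * (ε ^ (A * d))⁻¹ *
        (((C * T : ℕ) : ℝ) ^ (C * T) * (A : ℝ) ^ (d + k) * ((d + k : ℕ) : ℝ) ^ k) ^ A =
      A * ((C * T : ℕ) : ℝ) ^ (C * T) * (k : ℝ) ^ k * (ε ^ (A * d))⁻¹ *
        (((C * T : ℕ) : ℝ) ^ (C * T) * (A : ℝ) ^ (d + k) * ((d + k : ℕ) : ℝ) ^ k) ^ A *
        (Real.exp (A * d * (S : ℝ) ^ 2) * (1 / 2 : ℝ) ^ ((T - k) * S)) := by ring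
  rw [e0]
  have hεp : 0 < (ε ^ (A * d))⁻¹ := by positivity
  calc A * ((C * T : ℕ) : ℝ) ^ (C * T) * (k : ℝ) ^ k * (ε ^ (A * d))⁻¹ *
        (((C * T : ℕ) : ℝ) ^ (C * T) * (A : ℝ) ^ (d + k) * ((d + k : ℕ) : ℝ) ^ k) ^ A *
        (Real.exp (A * d * (S : ℝ) ^ 2) * (1 / 2 : ℝ) ^ ((T - k) * S))
      ≤ Real.exp (A * (T * l)) * Real.exp (C ^ 2 * (T * l)) * Real.exp (T * l) *
        Real.exp (ε⁻¹ * A * (T * l)) * Real.exp (A * (C ^ 2 + 2 * A + 1) * (T * l)) *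
        Real.exp (- (T * S / 5)) := by
        refine mul_le_mul (mul_le_mul (mul_le_mul (mul_le_mul (mul_le_mul f1 f2 ?_ ?_) f3 ?_ ?_)
          f4 ?_ ?_) f7 ?_ ?_) f8 ?_ ?_ <;> positivity
    _ = Real.exp (K1 * (T * l) - T * S / 5) := by
        rw [← Real.exp_add, ← Real.exp_add, ← Real.exp_add, ← Real.exp_add, ← Real.exp_add, hK1]
        ring_nf
    _ < 1 := by
        rw [Real.exp_lt_one_iff]
        linarith

end Pool.Agent.Lib.MPf11a48.AS.NMRM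

namespace Pool.Agent.Lib.MPf11a48.AS

theorem specNMR : SpecNMR := by
  intro β C A ε _ hC hA hε _
  have hKp : (0 : ℝ) < 80 * A * (A + C ^ 2 + 1 + ε⁻¹ * A + A * (C ^ 2 + 2 * A + 1)) + 1 := by
    positivity
  obtain ⟨T₀, hT₀⟩ := NMRM.growth β C _ hKp
  refine ⟨max T₀ 1, fun T hT d hd hdT => ?_⟩
  exact NMRM.numer hC hA hε rfl ((le_max_right _ _).trans hT) hd
    (hT₀ T ((le_max_left _ _).trans hT) d hdT)

end Pool.Agent.Lib.MPf11a48.AS
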