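import Pool.Agent.Lib.MP_f11a48_ag.AS.SpecZ
import Pool.Agent.Lib.MP_f11a48_ag.U.Osgood

/-!
# Project AS, module NNP: the ideal `nn` is prime, stable under the letters, and words commute
-/

set_option autoImplicit false

open MvPolynomial Pool.Agent.Lib.MPf11a48.CM Filter Topology Asymptotics

namespace Pool.Agent.Lib.MPf11a48.AS

namespace NNPM

variable {β : ℕ} {I Λ : Type} (D : QD β I Λ)

/-- the function of `(z, ρ)` -/
noncomputable def Phi (P : MvPolynomial (Option I) ℂ) (zr : (Fin β → ℂ) × ℂ) : ℂ :=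
  D.ev zr.1 zr.2 P

/-- the direction of a letter -/
noncomputable def dir : Option (Fin β) → (Fin β → ℂ) × ℂ
  | some j => (Pi.single j 1, 0)
  | none => (0, 1)

theorem ev_X (z : Fin β → ℂ) (ρ : ℂ) (i : Option I) :
    D.ev z ρ (X i) = Option.elim i (D.ze z + ρ) fun i => D.f i z := by
  unfold QD.ev
  rw [aeval_X]

theorem dl_X (c : Option (Fin β)) (i : Option I) : D.dl c (X i) = D.pp i c := by
  unfold QD.dl
  rw [mkDerivation_X]

variable [Fintype I] [Fintype Λ]

theorem isOpen_U (hD : D.Good) : IsOpen {zr : (Fin β → ℂ) × ℂ | D.th D.o zr.1 ≠ 0} :=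
  isOpen_ne_fun ((hD.good.diff D.o).continuous.comp continuous_fst) continuous_const

theorem eventually_U (hD : D.Good) {zr : (Fin β → ℂ) × ℂ} (h : D.th D.o zr.1 ≠ 0) :
    ∀ᶠ x in 𝓝 zr, D.th D.o x.1 ≠ 0 :=
  (isOpen_U D hD).mem_nhds h

theorem fderiv_Phi (hDEV : SpecDEV) (hD : D.Good) (P : MvPolynomial (Option I) ℂ)
    (c : Option (Fin β)) {zr : (Fin β → ℂ) × ℂ} (h : D.th D.o zr.1 ≠ 0) :
    fderiv ℂ (Phi D P) zr (dir c) = Phi D (D.dl c P) zr := by
  obtain ⟨-, h1, h2⟩ := hDEV D hD P zr.1 zr.2 h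
  rcases c with _ | j
  · exact h2
  · exact h1 j

theorem analytic_Phi (hDEV : SpecDEV) (hD : D.Good) (P : MvPolynomial (Option I) ℂ)
    {zr : (Fin β → ℂ) × ℂ} (h : D.th D.o zr.1 ≠ 0) : AnalyticAt ℂ (Phi D P) zr :=
  (hDEV D hD P zr.1 zr.2 h).1

theorem dl_mem (hDEV : SpecDEV) (hD : D.Good) (c : Option (Fin β))
    (P : MvPolynomial (Option I) ℂ) (hP : P ∈ D.nn) : D.dl c P ∈ D.nn := by
  rw [QD.mem_nn] at hP ⊢
  intro z ρ hz
  have h0 : Phi D P =ᶠ[𝓝 (z, ρ)] fun _ => (0 : ℂ) := by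
    filter_upwards [eventually_U D hD (zr := (z, ρ)) hz] with x hx
    exact hP x.1 x.2 hx
  have h1 := fderiv_Phi D hDEV hD P c (zr := (z, ρ)) hz
  rw [h0.fderiv_eq, fderiv_fun_const] at h1
  exact h1.symm

theorem comm_mem (hDEV : SpecDEV) (hD : D.Good) (c c' : Option (Fin β))
    (P : MvPolynomial (Option I) ℂ) :
    D.dl c (D.dl c' P) - D.dl c' (D.dl c P) ∈ D.nn := by
  rw [QD.mem_nn]
  intro z ρ hz
  have key : ∀ c c' : Option (Fin β), Phi D (D.dl c' (D.dl c P)) (z, ρ) =
      fderiv ℂ (fderiv ℂ (Phi D P)) (z, ρ) (dir c') (dir c) := by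
    intro c c'
    rw [← fderiv_Phi D hDEV hD (D.dl c P) c' (zr := (z, ρ)) hz]
    have h1 : Phi D (D.dl c P) =ᶠ[𝓝 (z, ρ)] fun x => fderiv ℂ (Phi D P) x (dir c) := by
      filter_upwards [eventually_U D hD (zr := (z, ρ)) hz] with x hx
      exact (fderiv_Phi D hDEV hD P c hx).symm
    rw [h1.fderiv_eq]
    have han : AnalyticAt ℂ (Phi D P) (z, ρ) := analytic_Phi D hDEV hD P hz
    have h2 : HasFDerivAt (fderiv ℂ (Phi D P)) (fderiv ℂ (fderiv ℂ (Phi D P)) (z, ρ)) (z, ρ) :=
      han.fderiv.differentiableAt.hasFDerivAt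
    have h3 := h2.clm_apply (hasFDerivAt_const (dir c : (Fin β → ℂ) × ℂ) (z, ρ))
    rw [h3.fderiv]
    simp
  have hsym : IsSymmSndFDerivAt ℂ (Phi D P) (z, ρ) := by
    have han : AnalyticAt ℂ (Phi D P) (z, ρ) := analytic_Phi D hDEV hD P hz
    exact ContDiffAt.isSymmSndFDerivAt_of_omega han.contDiffAt
  rw [map_sub, sub_eq_zero]
  show Phi D (D.dl c (D.dl c' P)) (z, ρ) = Phi D (D.dl c' (D.dl c P)) (z, ρ)
  rw [key, key]
  exact hsym.eq _ _

omit [Fintype I] [Fintype Λ] in
theorem it_cons (w : List (Option (Fin β))) (c : Option (Fin β))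
    (P : MvPolynomial (Option I) ℂ) : it D.dl (c :: w) P = D.dl c (it D.dl w P) := rfl

theorem perm_mem (hDEV : SpecDEV) (hD : D.Good) {w w' : List (Option (Fin β))} (h : w.Perm w')
    (P : MvPolynomial (Option I) ℂ) : it D.dl w P - it D.dl w' P ∈ D.nn := by
  induction h with
  | nil => rw [sub_self]; exact D.nn.zero_mem
  | cons x _ ih =>
    rw [it_cons, it_cons, ← map_sub]
    exact dl_mem D hDEV hD x _ ih
  | swap x y l =>
    rw [it_cons, it_cons, it_cons, it_cons]
    exact comm_mem D hDEV hD _ _ _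
  | trans _ _ ih1 ih2 =>
    have := D.nn.add_mem ih1 ih2
    rwa [sub_add_sub_cancel] at this

omit [Fintype I] [Fintype Λ] in
theorem dl_none_rename (p : MvPolynomial I ℂ) : D.dl none (rename some p) = 0 := by
  induction p using MvPolynomial.induction_on with
  | C a => rw [rename_C, ← algebraMap_eq, Derivation.map_algebraMap]
  | add p q hp hq => rw [map_add, map_add, hp, hq, add_zero]
  | mul_X p i hp =>
    rw [map_mul, Derivation.leibniz, hp, rename_X, dl_X]
    show _ • (0 : MvPolynomial (Option I) ℂ) + _ = _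
    rw [smul_zero, smul_zero, add_zero]

omit [Fintype I] [Fintype Λ] in
theorem none_comm (c : Option (Fin β)) (P : MvPolynomial (Option I) ℂ) :
    D.dl none (D.dl c P) = D.dl c (D.dl none P) := by
  have h : ⁅D.dl none, D.dl c⁆ = 0 := by
    refine MvPolynomial.derivation_ext fun i => ?_
    rw [Derivation.commutator_apply, dl_X, dl_X]
    have h1 : D.dl none (D.pp i c) = 0 := by
      rcases i with _ | i <;> rcases c with _ | j
      · show D.dl none 1 = 0
        exact Derivation.map_one_eq_zero _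
      · exact dl_none_rename D _
      · show D.dl none 0 = 0
        exact map_zero _
      · exact dl_none_rename D _
    have h2 : D.dl c (D.pp i none) = 0 := by
      rcases i with _ | i
      · show D.dl c 1 = 0
        exact Derivation.map_one_eq_zero _
      · show D.dl c 0 = 0
        exact map_zero _
    rw [h1, h2, sub_zero]
    rfl
  have h3 := Derivation.commutator_apply (D1 := D.dl none) (D2 := D.dl c) P
  rw [h] at h3
  exact (sub_eq_zero.1 h3.symm)

/-- a power of `th_o` times a polynomial in the functions is entire -/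
theorem exists_entire (hD : D.Good) (P : MvPolynomial (Option I) ℂ) :
    ∃ (N : ℕ) (G : (Fin β → ℂ) × ℂ → ℂ), AnalyticOnNhd ℂ G Set.univ ∧
      ∀ zr : (Fin β → ℂ) × ℂ, D.th D.o zr.1 ≠ 0 → Phi D P zr * D.th D.o zr.1 ^ N = G zr := by
  have hth : ∀ i, AnalyticOnNhd ℂ (fun zr : (Fin β → ℂ) × ℂ => D.th i zr.1) Set.univ :=
    fun i x _ => Pool.Agent.Lib.MPf11a48.U.Osgood.analyticAt_of_differentiable
      ((hD.good.diff i).comp differentiable_fst) x
  have hY : AnalyticOnNhd ℂ (fun zr : (Fin β → ℂ) × ℂ => D.Y zr.1) Set.univ :=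
    fun x _ => Pool.Agent.Lib.MPf11a48.U.Osgood.analyticAt_of_differentiable
      (hD.Y_diff.comp differentiable_fst) x
  have hsnd : AnalyticOnNhd ℂ (fun zr : (Fin β → ℂ) × ℂ => zr.2) Set.univ :=
    fun x _ => analyticAt_snd
  induction P using MvPolynomial.induction_on with
  | C a =>
    refine ⟨0, fun _ => a, analyticOnNhd_const, fun zr _ => ?_⟩
    unfold Phi QD.ev
    rw [← algebraMap_eq, AlgHom.commutes, pow_zero, mul_one]
    rfl
  | add P Q hP hQ =>
    obtain ⟨N, G, hG, h⟩ := hP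
    obtain ⟨N', G', hG', h'⟩ := hQ
    refine ⟨N + N', fun zr => G zr * D.th D.o zr.1 ^ N' + G' zr * D.th D.o zr.1 ^ N,
      (hG.mul ((hth D.o).pow N')).add (hG'.mul ((hth D.o).pow N)), fun zr hz => ?_⟩
    show Phi D (P + Q) zr * _ = G zr * D.th D.o zr.1 ^ N' + G' zr * D.th D.o zr.1 ^ N
    rw [← h zr hz, ← h' zr hz]
    unfold Phi
    rw [map_add]
    ring
  | mul_X P i hP =>
    obtain ⟨N, G, hG, h⟩ := hP
    rcases i with _ | i
    · refine ⟨N + D.m, fun zr => G zr * (D.Y zr.1 + zr.2 * D.th D.o zr.1 ^ D.m),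
        hG.mul (hY.add (hsnd.mul ((hth D.o).pow D.m))), fun zr hz => ?_⟩
      show Phi D (P * X none) zr * _ = G zr * (D.Y zr.1 + zr.2 * D.th D.o zr.1 ^ D.m)
      rw [← h zr hz]
      have h1 : D.ze zr.1 * D.th D.o zr.1 ^ D.m = D.Y zr.1 := by
        unfold QD.ze
        field_simp
      rw [← h1]
      unfold Phi
      rw [map_mul, ev_X]
      show _ * (D.ze zr.1 + zr.2) * _ = _
      ring
    · refine ⟨N + 1, fun zr => G zr * D.th i zr.1, hG.mul (hth i), fun zr hz => ?_⟩
      show Phi D (P * X (some i)) zr * _ = G zr * D.th i zr.1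
      rw [← h zr hz]
      have h1 : D.f i zr.1 * D.th D.o zr.1 = D.th i zr.1 := by
        unfold TH.f
        field_simp
      rw [← h1]
      unfold Phi
      rw [map_mul, ev_X]
      show _ * (D.f i zr.1) * _ = _
      ring

omit [Fintype I] [Fintype Λ] in
/-- no zero divisors among the entire functions -/
theorem entire_mul {G G' : (Fin β → ℂ) × ℂ → ℂ} (hG : AnalyticOnNhd ℂ G Set.univ)
    (hG' : AnalyticOnNhd ℂ G' Set.univ) (h : ∀ x, G x * G' x = 0) :
    (∀ x, G x = 0) ∨ ∀ x, G' x = 0 := by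
  by_contra hcon
  push Not at hcon
  obtain ⟨⟨x, hx⟩, ⟨y, hy⟩⟩ := hcon
  have hev : G' =ᶠ[𝓝 x] fun _ => (0 : ℂ) := by
    have hc : ContinuousAt G x := (hG x (Set.mem_univ x)).continuousAt
    filter_upwards [hc.eventually_ne hx] with u hu
    exact (mul_eq_zero.1 (h u)).resolve_left hu
  exact hy (congrFun (hG'.eq_of_eventuallyEq analyticOnNhd_const hev) y)

theorem prime_nn (hD : D.Good) : D.nn.IsPrime := by
  refine ⟨?_, ?_⟩
  · intro htop
    have h1 : (1 : MvPolynomial (Option I) ℂ) ∈ D.nn := by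
      rw [htop]
      exact Submodule.mem_top
    have h2 := (QD.mem_nn D 1).1 h1 0 0 hD.good.zero
    rw [map_one] at h2
    exact one_ne_zero h2
  · intro P Q hPQ
    obtain ⟨N, G, hG, h⟩ := exists_entire D hD P
    obtain ⟨N', G', hG', h'⟩ := exists_entire D hD Q
    have hth : AnalyticOnNhd ℂ (fun zr : (Fin β → ℂ) × ℂ => D.th D.o zr.1) Set.univ :=
      fun x _ => Pool.Agent.Lib.MPf11a48.U.Osgood.analyticAt_of_differentiable
        ((hD.good.diff D.o).comp differentiable_fst) x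
    have hne : ¬ ∀ x : (Fin β → ℂ) × ℂ, D.th D.o x.1 = 0 := fun hall =>
      hD.good.zero (hall (0, 0))
    have h0 : ∀ x : (Fin β → ℂ) × ℂ, D.th D.o x.1 * (G x * G' x) = 0 := by
      intro x
      by_cases hx : D.th D.o x.1 = 0
      · rw [hx, zero_mul]
      · rw [← h x hx, ← h' x hx]
        have h3 : Phi D P x * Phi D Q x = 0 := by
          have := (QD.mem_nn D _).1 hPQ x.1 x.2 hx
          rw [map_mul] at this
          exact this
        calc D.th D.o x.1 * (Phi D P x * D.th D.o x.1 ^ N * (Phi D Q x * D.th D.o x.1 ^ N'))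
            = (Phi D P x * Phi D Q x) * (D.th D.o x.1 * D.th D.o x.1 ^ N * D.th D.o x.1 ^ N') := by
              ring
          _ = 0 := by rw [h3, zero_mul]
    have h4 := (entire_mul hth (hG.mul hG') h0).resolve_left hne
    have hback : ∀ (R : MvPolynomial (Option I) ℂ) (M : ℕ) (F : (Fin β → ℂ) × ℂ → ℂ),
        (∀ zr : (Fin β → ℂ) × ℂ, D.th D.o zr.1 ≠ 0 → Phi D R zr * D.th D.o zr.1 ^ M = F zr) →
        (∀ x, F x = 0) → R ∈ D.nn := by
      intro R M F hF hF0
      rw [QD.mem_nn]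
      intro z ρ hz
      have h5 := hF (z, ρ) hz
      rw [hF0] at h5
      exact (mul_eq_zero.1 h5).resolve_right (pow_ne_zero _ hz)
    rcases entire_mul hG hG' h4 with h5 | h5
    · exact Or.inl (hback P N G h h5)
    · exact Or.inr (hback Q N' G' h' h5)

end NNPM

open NNPM in
theorem specNNP (hDEV : SpecDEV) : SpecNNP := by
  intro β I Λ _ _ D hD
  exact ⟨prime_nn D hD, fun c P hP => dl_mem D hDEV hD c P hP, fun c P => none_comm D c P,
    fun w w' h P => perm_mem D hDEV hD h P⟩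

end Pool.Agent.Lib.MPf11a48.AS
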