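import Pool.Agent.Lib.MP_f11a48_ag.AS.SpecF

/-!
# Project AS, module NOE: Noether normalisation with separable equations
-/

set_option autoImplicit false

open MvPolynomial Pool.Agent.Lib.MPf11a48.CM

namespace Pool.Agent.Lib.MPf11a48.AS

namespace NOEM

/-- a monic irreducible equation, and a Bezout identity for it and its derivative -/
theorem key {A R : Type*} [CommRing A] [IsDomain A] [IsIntegrallyClosed A] [CharZero A]
    [CommRing R] [IsDomain R] (g : A →+* R) (x : R) (hx : g.IsIntegralElem x) :
    ∃ Q : Polynomial A, Q.Monic ∧ Q.eval₂ g x = 0 ∧ ∃ a : A, a ≠ 0 ∧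
      ∃ u v : Polynomial A, Polynomial.C a = u * Q + v * Polynomial.derivative Q := by
  let _ : Algebra A R := g.toAlgebra
  have hint : IsIntegral A x := hx
  set Q := minpoly A x with hQ
  have hmon : Q.Monic := minpoly.monic hint
  have hirr : Irreducible Q := minpoly.irreducible hint
  refine ⟨Q, hmon, minpoly.aeval A x, ?_⟩
  set K := FractionRing A
  have : CharZero K := IsFractionRing.charZero A
  have hirrK : Irreducible (Q.map (algebraMap A K)) :=
    (hmon.irreducible_iff_irreducible_map_fraction_map).1 hirr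
  have hsep : (Q.map (algebraMap A K)).Separable := hirrK.separable
  obtain ⟨p, q, hpq⟩ := hsep
  obtain ⟨b, hb, h1⟩ := IsLocalization.integerNormalization_spec (nonZeroDivisors A) p
  obtain ⟨c, hc, h2⟩ := IsLocalization.integerNormalization_spec (nonZeroDivisors A) q
  set p' := IsLocalization.integerNormalization (nonZeroDivisors A) p
  set q' := IsLocalization.integerNormalization (nonZeroDivisors A) q
  refine ⟨b * c, mul_ne_zero (nonZeroDivisors.ne_zero hb) (nonZeroDivisors.ne_zero hc),
    Polynomial.C c * p', Polynomial.C b * q', ?_⟩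
  apply Polynomial.map_injective (algebraMap A K) (IsFractionRing.injective A K)
  rw [Polynomial.map_add, Polynomial.map_mul, Polynomial.map_mul, Polynomial.map_mul,
    Polynomial.map_mul, Polynomial.map_C, Polynomial.map_C, Polynomial.map_C, h1, h2,
    ← Polynomial.derivative_map]
  have e1 : b • p = Polynomial.C (algebraMap A K b) * p := by
    rw [← Polynomial.smul_eq_C_mul, algebraMap_smul]
  have e2 : c • q = Polynomial.C (algebraMap A K c) * q := by
    rw [← Polynomial.smul_eq_C_mul, algebraMap_smul]
  rw [e1, e2, map_mul, Polynomial.C_mul]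
  calc Polynomial.C (algebraMap A K b) * Polynomial.C (algebraMap A K c)
      = Polynomial.C (algebraMap A K b) * Polynomial.C (algebraMap A K c) *
        (p * Q.map (algebraMap A K) + q * Polynomial.derivative (Q.map (algebraMap A K))) := by
        rw [hpq, mul_one]
    _ = _ := by ring

end NOEM

open NOEM in
theorem specNOE : SpecNOE := by
  intro I _ n hn
  have := hn
  have : IsDomain (MvPolynomial I ℂ ⧸ n) := Ideal.Quotient.isDomain n
  have hfin : Algebra.FiniteType ℂ (MvPolynomial I ℂ ⧸ n) :=
    Algebra.FiniteType.of_surjective (Ideal.Quotient.mkₐ ℂ n)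
      (Ideal.Quotient.mkₐ_surjective ℂ n)
  obtain ⟨s, g, hginj, hgint⟩ := exists_integral_inj_algHom_of_fg ℂ (MvPolynomial I ℂ ⧸ n)
  choose y hy using fun k : Fin s => Ideal.Quotient.mk_surjective (I := n) (g (X k))
  have hg : ∀ P : MvPolynomial (Fin s) ℂ,
      Ideal.Quotient.mk n (aeval y P : MvPolynomial I ℂ) = g P := by
    intro P
    have h1 : (Ideal.Quotient.mkₐ ℂ n).comp (aeval y) = g := by
      apply MvPolynomial.algHom_ext
      intro k
      rw [AlgHom.comp_apply, aeval_X]
      exact hy k
    exact DFunLike.congr_fun h1 P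
  have hkey : ∀ i : I, _ := fun i => key g.toRingHom (Ideal.Quotient.mk n (X i))
    (hgint (Ideal.Quotient.mk n (X i)))
  choose Q hQm hQ0 a ha u v huv using hkey
  refine ⟨s, y, Q, a, ?_, fun i => ⟨hQm i, ?_, ha i, u i, v i, huv i⟩⟩
  · intro P hP
    have h1 : g P = 0 := by
      rw [← hg P]
      exact Ideal.Quotient.eq_zero_iff_mem.2 hP
    exact hginj (h1.trans (map_zero g).symm)
  · rw [← Ideal.Quotient.eq_zero_iff_mem, Polynomial.hom_eval₂]
    have h1 : (Ideal.Quotient.mk n).comp
        ((aeval y : MvPolynomial (Fin s) ℂ →ₐ[ℂ] MvPolynomial I ℂ).toRingHom) = g.toRingHom :=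
      RingHom.ext hg
    rw [h1]
    exact hQ0 i

end Pool.Agent.Lib.MPf11a48.AS
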