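import Pool.Agent.Lib.MP_f11a48_ag.AS.SpecF

/-!
# Project AS, module NSZ: a point which satisfies all relations between the `f_i` is a point `f(z)`
-/

set_option autoImplicit false

open MvPolynomial Pool.Agent.Lib.MPf11a48.CM Filter Topology Asymptotics

namespace Pool.Agent.Lib.MPf11a48.AS

namespace NSZM

variable {Z I Λ : Type} [Fintype Z] [Fintype I] [Fintype Λ]

/-- The complement of a hypersurface is dense. -/
theorem freq (Δ : MvPolynomial Z ℂ) (h : Δ ≠ 0) (y₀ : Z → ℂ) :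
    ∃ᶠ y in 𝓝 y₀, eval y Δ ≠ 0 := by
  intro hcon
  have h1 : ∀ᶠ y in 𝓝 y₀, eval y Δ = 0 := by
    filter_upwards [hcon] with y hy
    exact not_not.mp hy
  have hA : AnalyticOnNhd ℂ (fun y : Z → ℂ => eval y Δ) Set.univ :=
    AnalyticOnNhd.eval_mvPolynomial Δ
  have h2 := hA.eqOn_zero_of_preconnected_of_eventuallyEq_zero isPreconnected_univ
    (Set.mem_univ y₀) h1
  apply h
  apply MvPolynomial.funext
  intro y
  rw [map_zero]
  exact h2 (Set.mem_univ y)

omit [Fintype Z] [Fintype I] [Fintype Λ] in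
theorem yv_cont (D : TH Z I Λ) (N : TH.Nor I Z) (z : Z → ℂ)
    (h : ∀ i, ContinuousAt (D.f i) z) : ContinuousAt (D.yv N) z := by
  have h1 : ContinuousAt D.fv z := continuousAt_pi.mpr h
  refine continuousAt_pi.mpr fun k => ?_
  exact (MvPolynomial.continuous_eval (N.y k)).continuousAt.comp h1

end NSZM

open NSZM in
theorem specNSZ (hBAS : SpecBAS) (hSRG : SpecSRG) (hDIM : SpecDIM) (hGRW : SpecGRW)
    (hCST : SpecCST) (hCHR : SpecCHR) : SpecNSZ := by
  classical
  intro Z I Λ _ _ _ D hD x hx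
  obtain ⟨b1, b2, -, -, -, -, -, R, -, hR⟩ := hBAS D hD
  obtain ⟨N, hN⟩ := hDIM D hD
  obtain ⟨d, hd, hen⟩ := hCST D hD N hN
  set y₀ : Z → ℂ := fun k => eval x (N.y k) with hy₀
  by_contra hcon
  have hcon' : ∀ w, D.th D.o w ≠ 0 → D.fv w ≠ x := fun w h1 h2 => hcon ⟨w, h1, h2⟩
  -- the fibre is finite
  set F : Set (I → ℂ) := {v | ∃ w, D.th D.o w ≠ 0 ∧ D.yv N w = y₀ ∧ D.fv w = v} with hF
  have hFin : F.Finite := by
    have h1 : (Set.pi Set.univ fun i : I =>
        {a : ℂ | ((N.Q i).map (eval y₀)).IsRoot a}).Finite :=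
      Set.Finite.pi fun i => Polynomial.finite_setOfPred_isRoot
        ((hN.monic i).map (eval y₀)).ne_zero
    refine h1.subset ?_
    rintro v ⟨w, hw, hy, rfl⟩ i -
    have h2 := hN.root i w hw
    rw [hy] at h2
    exact h2
  have : Finite F := hFin
  obtain ⟨l, hl⟩ := Module.exists_dual_forall_apply_ne_zero (K := ℂ)
    (fun v : F => (v : I → ℂ) - x) (by
      rintro ⟨v, w, hw, hy, rfl⟩
      exact sub_ne_zero.mpr (hcon' w hw))
  -- the linear polynomial
  set lp : MvPolynomial I ℂ := ∑ i, C (l (Pi.single i 1)) * X i - C (l x) with hlp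
  have hlpe : ∀ v : I → ℂ, eval v lp = l v - l x := by
    intro v
    have h1 : l v = ∑ i, l (Pi.single i 1) * v i := by
      conv_lhs => rw [← Finset.univ_sum_single v]
      rw [map_sum]
      refine Finset.sum_congr rfl fun i _ => ?_
      have h2 : (Pi.single i (v i) : I → ℂ) = v i • Pi.single i (1 : ℂ) := by
        rw [← Pi.single_smul]
        simp
      rw [h2, map_smul, smul_eq_mul, mul_comm]
    rw [hlp, map_sub, map_sum, eval_C, h1]
    congr 1
    refine Finset.sum_congr rfl fun i _ => ?_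
    rw [map_mul, eval_C, eval_X]
  set g : (Z → ℂ) → ℂ := fun z => eval (D.fv z) lp with hg
  have hgne : ∀ w, D.th D.o w ≠ 0 → D.yv N w = y₀ → g w ≠ 0 := by
    intro w hw hy
    have h1 := hl ⟨D.fv w, w, hw, hy, rfl⟩
    simp only [hg]
    rw [hlpe, ← map_sub]
    exact h1
  have hgS : D.IsS g := (hSRG D hD).1 lp
  -- compactness
  have hthc : Continuous (D.th D.o) := (hD.diff D.o).continuous
  have hfc : ∀ z, D.th D.o z ≠ 0 → ContinuousAt D.fv z := fun z hz =>
    continuousAt_pi.mpr fun i => (b2 i z hz).continuousAt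
  have hyc : ∀ z, D.th D.o z ≠ 0 → ContinuousAt (D.yv N) z := fun z hz =>
    yv_cont D N z fun i => (b2 i z hz).continuousAt
  obtain ⟨C, κ, hC, hgr⟩ := (hGRW D hD N hN).1 R
  have hA : ∃ e c : ℝ, 0 < e ∧ 0 < c ∧ ∀ w, D.th D.o w ≠ 0 → ‖w‖ ≤ R → ‖D.yv N w - y₀‖ ≤ e →
      c ≤ ‖g w‖ := by
    set M := C * (1 + (‖y₀‖ + 1)) ^ κ with hM
    have hM0 : 0 < M := by positivity
    set K : Set (Z → ℂ) := Metric.closedBall 0 R ∩ {w | 1 / M ≤ ‖D.th D.o w‖} with hK
    have hKc : IsCompact K :=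
      (isCompact_closedBall 0 R).inter_right (isClosed_le continuous_const hthc.norm)
    have hK0 : ∀ w ∈ K, D.th D.o w ≠ 0 := by
      rintro w ⟨-, hw⟩ h0
      have hw' : 1 / M ≤ ‖D.th D.o w‖ := hw
      rw [h0, norm_zero] at hw'
      have : 0 < 1 / M := by positivity
      linarith
    have hin : ∀ w, D.th D.o w ≠ 0 → ‖w‖ ≤ R → ‖D.yv N w - y₀‖ ≤ 1 → w ∈ K := by
      intro w hw hwR hwy
      refine ⟨by simpa using hwR, ?_⟩
      have h1 := hgr w hwR hw
      have h2 : ‖D.yv N w‖ ≤ ‖y₀‖ + 1 := by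
        have := norm_sub_norm_le (D.yv N w) y₀
        linarith
      show 1 / M ≤ ‖D.th D.o w‖
      rw [div_le_iff₀ hM0]
      calc 1 ≤ C * (1 + ‖D.yv N w‖) ^ κ * ‖D.th D.o w‖ := h1
        _ ≤ M * ‖D.th D.o w‖ := by
            apply mul_le_mul_of_nonneg_right _ (norm_nonneg _)
            apply mul_le_mul_of_nonneg_left _ hC.le
            apply pow_le_pow_left₀ (by positivity)
            linarith
        _ = ‖D.th D.o w‖ * M := mul_comm _ _
    set h : (Z → ℂ) → ℝ := fun w => ‖D.yv N w - y₀‖ + ‖g w‖ with hh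
    have hhc : ContinuousOn h K := by
      intro w hw
      have h1 := hyc w (hK0 w hw)
      have h2 : ContinuousAt g w :=
        (MvPolynomial.continuous_eval lp).continuousAt.comp (hfc w (hK0 w hw))
      exact (((h1.sub continuousAt_const).norm).add h2.norm).continuousWithinAt
    have hhp : ∀ w ∈ K, 0 < h w := by
      intro w hw
      by_cases hy : D.yv N w = y₀
      · have := norm_pos_iff.mpr (hgne w (hK0 w hw) hy)
        simp only [hh]
        positivity
      · have := norm_pos_iff.mpr (sub_ne_zero.mpr hy)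
        simp only [hh]
        positivity
    obtain ⟨m, hm0, hm⟩ : ∃ m : ℝ, 0 < m ∧ ∀ w ∈ K, m ≤ h w := by
      rcases K.eq_empty_or_nonempty with hE | hE
      · exact ⟨1, one_pos, fun w hw => by rw [hE] at hw; exact absurd hw (Set.notMem_empty w)⟩
      · obtain ⟨w₀, hw₀, hmin⟩ := hKc.exists_isMinOn hE hhc
        exact ⟨h w₀, hhp w₀ hw₀, fun w hw => hmin hw⟩
    refine ⟨min 1 (m / 2), m / 2, by positivity, by positivity, fun w hw hwR hwy => ?_⟩
    have h1 := hm w (hin w hw hwR (hwy.trans (min_le_left _ _)))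
    have h2 := hwy.trans (min_le_right _ _)
    simp only [hh] at h1
    linarith
  obtain ⟨e, c, he, hc, hA⟩ := hA
  -- the characteristic polynomial
  obtain ⟨χ, -, -, hχ, hχ0⟩ := hCHR D hD N hN d hd hen g hgS
  have hc0 : ∀ y, eval y N.Δ ≠ 0 → ‖y - y₀‖ ≤ e → c ^ d ≤ ‖eval y (χ.coeff 0)‖ := by
    intro y hy hye
    obtain ⟨z, hz⟩ := hen y hy
    have h1 := hχ y hy z hz
    have h2 : eval y (χ.coeff 0) = ∏ j, -g (z j) := by
      have h3 : (χ.map (eval y)).coeff 0 = eval y (χ.coeff 0) := Polynomial.coeff_map _ _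
      rw [← h3, h1, Polynomial.coeff_zero_eq_eval_zero, Polynomial.eval_prod]
      refine Finset.prod_congr rfl fun j _ => ?_
      simp
    rw [h2, norm_prod]
    have h4 : c ^ d = ∏ _j : Fin d, c := by simp
    rw [h4]
    refine Finset.prod_le_prod (fun j _ => hc.le) fun j _ => ?_
    rw [norm_neg]
    obtain ⟨hz1, hz2⟩ := hz.1 j
    obtain ⟨v, hv⟩ := hR (z j)
    have hb := b1 v (z j)
    have h5 := hA (z j + D.vec v) (hb.1.mpr hz1) hv (by
      have h6 : D.yv N (z j + D.vec v) = D.yv N (z j) := by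
        funext k
        simp only [TH.yv, hb.2]
      rw [h6, hz2]
      exact hye)
    have h7 : g (z j + D.vec v) = g (z j) := by
      simp only [hg, hb.2]
    rwa [h7] at h5
  have hne : eval y₀ (χ.coeff 0) ≠ 0 := by
    intro h0
    have h1 : ∀ᶠ y in 𝓝 y₀, ‖eval y (χ.coeff 0)‖ < c ^ d := by
      have h2 : ContinuousAt (fun y : Z → ℂ => ‖eval y (χ.coeff 0)‖) y₀ :=
        (MvPolynomial.continuous_eval _).norm.continuousAt
      refine h2.eventually_lt continuousAt_const ?_
      rw [h0, norm_zero]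
      positivity
    have h3 : ∀ᶠ y in 𝓝 y₀, ‖y - y₀‖ ≤ e := by
      filter_upwards [Metric.closedBall_mem_nhds y₀ he] with y hy
      rwa [Metric.mem_closedBall, dist_eq_norm] at hy
    obtain ⟨y, hy, hy1, hy2⟩ := ((freq N.Δ hN.ne y₀).and_eventually (h1.and h3)).exists
    have := hc0 y hy hy2
    linarith
  -- the relation
  set W : MvPolynomial I ℂ :=
    χ.eval₂ (aeval N.y : MvPolynomial Z ℂ →ₐ[ℂ] MvPolynomial I ℂ).toRingHom lp with hW
  have hWe : ∀ v : I → ℂ, eval v W = (χ.map (eval fun k => eval v (N.y k))).eval (eval v lp) := by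
    intro v
    rw [hW, Polynomial.hom_eval₂, Polynomial.eval_map]
    congr 1
    apply MvPolynomial.ringHom_ext
    · intro r
      simp
    · intro k
      simp
  have hWn : W ∈ D.nf := by
    rw [TH.mem_nf]
    intro z hz
    rw [hWe]
    exact hχ0 z hz
  have hWx := hx W hWn
  rw [hWe, hlpe, sub_self, ← Polynomial.coeff_zero_eq_eval_zero, Polynomial.coeff_map] at hWx
  exact hne hWx

end Pool.Agent.Lib.MPf11a48.AS
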