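import Pool.Agent.Lib.MP_f11a48_ag.AS.SpecZ

/-!
# Project AS, module PHI: words of derivations and order of vanishing
-/

set_option autoImplicit false

open MvPolynomial Pool.Agent.Lib.MPf11a48.CM Filter Topology Asymptotics Metric

namespace Pool.Agent.Lib.MPf11a48.AS

namespace PHIM

theorem bigO_succ {E : Type} [NormedAddCommGroup E] [NormedSpace ℂ E] {f : E → ℂ} {k : ℕ} {a : E}
    (hd : ∀ᶠ z in 𝓝 a, DifferentiableAt ℂ f z) (h0 : f a = 0)
    (h : (fun z => fderiv ℂ f z) =O[𝓝 a] (fun z : E => ‖z - a‖ ^ k)) :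
    f =O[𝓝 a] (fun z : E => ‖z - a‖ ^ (k + 1)) := by
  obtain ⟨C, hC0, hC⟩ := h.exists_pos
  have h3 := hC.bound.and hd
  obtain ⟨ε, hε, hb⟩ := Metric.eventually_nhds_iff_ball.1 h3
  refine IsBigO.of_bound C ?_
  filter_upwards [ball_mem_nhds a hε] with x hx
  rw [mem_ball_iff_norm] at hx
  have h1 : ∀ y ∈ closedBall a ‖x - a‖, ‖fderiv ℂ f y‖ ≤ C * ‖x - a‖ ^ k := by
    intro y hy
    rw [mem_closedBall_iff_norm] at hy
    have h4 := (hb y (mem_ball_iff_norm.2 (lt_of_le_of_lt hy hx))).1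
    rw [norm_pow, norm_norm] at h4
    exact h4.trans (mul_le_mul_of_nonneg_left (pow_le_pow_left₀ (norm_nonneg _) hy _) hC0.le)
  have h2 := Convex.norm_image_sub_le_of_norm_fderiv_le (𝕜 := ℂ) (f := f) (x := a) (y := x)
    (fun y hy => (hb y (mem_ball_iff_norm.2
      (lt_of_le_of_lt (mem_closedBall_iff_norm.1 hy) hx))).2) h1
    (convex_closedBall a ‖x - a‖) (mem_closedBall_self (norm_nonneg _))
    (mem_closedBall_iff_norm.2 le_rfl)
  rw [h0, sub_zero] at h2
  rw [norm_pow, norm_norm, pow_succ, ← mul_assoc]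
  exact h2

theorem opnorm_bound {β : ℕ} (u : ((Fin β → ℂ) × ℂ) →L[ℂ] ℂ) {M : ℝ} (hM : 0 ≤ M)
    (h1 : ∀ j, ‖u (Pi.single j 1, 0)‖ ≤ M) (h2 : ‖u (0, 1)‖ ≤ M) :
    ‖u‖ ≤ (β + 1) * M := by
  refine ContinuousLinearMap.opNorm_le_bound u (by positivity) fun x => ?_
  obtain ⟨v, s⟩ := x
  have hx : ((v, s) : (Fin β → ℂ) × ℂ) =
      ∑ j, v j • ((Pi.single j 1, 0) : (Fin β → ℂ) × ℂ) + s • ((0, 1) : (Fin β → ℂ) × ℂ) := by
    refine Prod.ext ?_ ?_
    · simp only [Prod.fst_add, Prod.fst_sum, Prod.smul_fst, smul_zero, add_zero]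
      funext i
      simp [Finset.sum_apply, Pi.single_apply]
    · simp [Prod.snd_add, Prod.snd_sum]
  have hv : ‖v‖ ≤ ‖((v, s) : (Fin β → ℂ) × ℂ)‖ := le_max_left _ _
  have hs : ‖s‖ ≤ ‖((v, s) : (Fin β → ℂ) × ℂ)‖ := le_max_right _ _
  set N := ‖((v, s) : (Fin β → ℂ) × ℂ)‖ with hN
  rw [hx, map_add, map_sum, map_smul]
  simp only [map_smul]
  refine (norm_add_le _ _).trans ?_
  have h3 : ‖∑ j, v j • u (Pi.single j 1, 0)‖ ≤ β * (N * M) := by
    refine (norm_sum_le _ _).trans ?_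
    refine (Finset.sum_le_card_nsmul Finset.univ _ (N * M) fun j _ => ?_).trans ?_
    · rw [norm_smul]
      exact mul_le_mul ((norm_le_pi_norm v j).trans hv) (h1 j) (norm_nonneg _) (norm_nonneg _)
    · rw [Finset.card_univ, Fintype.card_fin, nsmul_eq_mul]
  have h4 : ‖s • u (0, 1)‖ ≤ N * M := by
    rw [norm_smul]
    exact mul_le_mul hs h2 (norm_nonneg _) (norm_nonneg _)
  calc _ ≤ β * (N * M) + N * M := add_le_add h3 h4
    _ = _ := by ring

theorem it_append {R κ : Type} [CommRing R] [Algebra ℂ R] (δ : κ → Derivation ℂ R R)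
    (u w : List κ) (a : R) : it δ (u ++ w) a = it δ u (it δ w a) := by
  induction u with
  | nil => rfl
  | cons c u ih => exact congrArg (δ c) ih

end PHIM

open PHIM in
theorem specPHI (hDEV : SpecDEV) : SpecPHI := by
  intro β I Λ _ _ D hD P T z ρ hz hw
  have hopen : ∀ᶠ zr in 𝓝 ((z, ρ) : (Fin β → ℂ) × ℂ), D.th D.o zr.1 ≠ 0 := by
    have h1 : ContinuousAt (fun zr : (Fin β → ℂ) × ℂ => D.th D.o zr.1) (z, ρ) :=
      ((hD.good.diff D.o).continuous.comp continuous_fst).continuousAt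
    exact h1.eventually_ne hz
  induction T generalizing P with
  | zero =>
    simp only [pow_zero]
    exact ((hDEV D hD P z ρ hz).1.continuousAt.norm.isBoundedUnder_le).isBigO_one ℝ
  | succ T ih =>
    refine bigO_succ ?_ (hw [] (Nat.succ_pos T)) ?_
    · filter_upwards [hopen] with zr hzr
      exact (hDEV D hD P zr.1 zr.2 hzr).1.differentiableAt
    · have h1 : ∀ c : Option (Fin β), (fun zr : (Fin β → ℂ) × ℂ => D.ev zr.1 zr.2 (D.dl c P))
          =O[𝓝 (z, ρ)] fun zr => ‖zr - (z, ρ)‖ ^ T := by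
        intro c
        refine ih (D.dl c P) fun w hw' => ?_
        have h2 := hw (w ++ [c]) (by rw [List.length_append, List.length_singleton]; omega)
        rw [it_append] at h2
        exact h2
      choose C hC0 hC using fun c => (h1 c).exists_pos
      have hev : ∀ᶠ zr in 𝓝 ((z, ρ) : (Fin β → ℂ) × ℂ), ∀ c,
          ‖D.ev zr.1 zr.2 (D.dl c P)‖ ≤ C c * ‖‖zr - (z, ρ)‖ ^ T‖ :=
        eventually_all.2 fun c => (hC c).bound
      refine IsBigO.of_bound ((β + 1) * ∑ c, C c) ?_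
      filter_upwards [hev, hopen] with zr h3 h4
      have hsum : 0 ≤ ∑ c, C c := Finset.sum_nonneg fun c _ => (hC0 c).le
      obtain ⟨_, h5, h6⟩ := hDEV D hD P zr.1 zr.2 h4
      have h7 : ∀ c, ‖D.ev zr.1 zr.2 (D.dl c P)‖ ≤ (∑ c, C c) * ‖‖zr - (z, ρ)‖ ^ T‖ := fun c =>
        (h3 c).trans (mul_le_mul_of_nonneg_right
          (Finset.single_le_sum (f := C) (fun i _ => (hC0 i).le) (Finset.mem_univ c))
          (norm_nonneg _))
      rw [mul_assoc]
      refine opnorm_bound _ (by positivity) (fun j => ?_) ?_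
      · have h8 := h5 j
        rw [h8]
        exact h7 (some j)
      · rw [h6]
        exact h7 none

end Pool.Agent.Lib.MPf11a48.AS
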