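import Pool.Agent.Lib.MP_f11a48_ag.AS.SpecX
import Pool.Agent.Lib.MP_f11a48_ag.U.SpecTl

/-!
# Project AS, block T: transcendence

Paper: /team-store/MP_f11a48_ag_AST.md, section 5. Final theorem of the blocks F, X, Z, T: `SpecMAIN`.
All modules may take any `Spec` as a hypothesis.
-/

set_option autoImplicit false

open MvPolynomial Pool.Agent.Lib.MPf11a48.CM Filter Topology Asymptotics NumberField
open Pool.Agent.Lib.MPf11a48.U (oEmb)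

namespace Pool.Agent.Lib.MPf11a48.AS

/-- `τ` is an automorphism of `ℂ` which fixes the algebraic numbers. -/
def FixQ (τ : ℂ ≃+* ℂ) : Prop := ∀ a ∈ Qbar, τ a = a

/-! ## Torsion values -/

/-- Module AUT (120 lines). (1) is `AutC.mem_of_fixed` of `helper17/AutC.lean`. (2) If `z` is
transcendental over `Qbar`, every `w` transcendental over `Qbar` is in its orbit: extend `{z}` and `{w}`
to transcendence bases of `ℂ / Qbar`, of the same cardinality, and take a bijection which maps `z` to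
`w` (`AutC.exists_ringEquiv` is similar); the set of all such `w` is uncountable, since `Qbar` is
countable. -/
def SpecAUT : Prop :=
  (∀ z : ℂ, (∀ τ : ℂ ≃+* ℂ, FixQ τ → τ z = z) → z ∈ Qbar) ∧
  ∀ z : ℂ, {w : ℂ | ∃ τ : ℂ ≃+* ℂ, FixQ τ ∧ τ z = w}.Countable → z ∈ Qbar

/-- Module QMU (120 lines; uses BAS): multiplication by `q`. Proof: `aut` for `q x` at `q z`: the factor
of `th_i(q z)` for `z ↦ z + μ_x` is `exp(q^2 (a_x(z) + a_x(μ_x)/2))`, that of `th_o(z)^{q^2}` is the same.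
In (2), `Y(w + μ) = e_μ(w)^m (Y(w) + L(μ) th_o(w)^m)` for all `w`, and `L(q x) = q L(x)`; multiply by
`th_o(z)^{q^2 m + m}` to get an entire function. -/
def SpecQMU : Prop :=
  ∀ {β : ℕ} {I Λ : Type} [Fintype I] [Fintype Λ] (D : QD β I Λ), D.Good → ∀ q : ℕ, 1 ≤ q →
    (∀ i, D.IsS fun z => D.th i ((q : ℂ) • z) / D.th D.o z ^ (q ^ 2)) ∧
    D.IsS fun z => (D.Y ((q : ℂ) • z) - (q : ℂ) * D.ze z * D.th D.o ((q : ℂ) • z) ^ D.m) /
      D.th D.o z ^ (q ^ 2 * D.m)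

/-- Module QFR (120 lines; uses BAS, FRC, QMU): the functions `f_i(q z)` and `ze(q z) - q ze(z)` are
quotients of polynomials in the `f_k(z)`. Proof: let `A_i = th_i(q z) / th_o(z)^{q^2}`,
`A_i a_i = b_i` (FRC). (1) `a = a_i b_o`, `b = b_i a_o`; `b_o ∉ 𝔫_f` as `A_o(0) ≠ 0`. (2) If `B` is the
function of QMU (2), `B a'' = b''`, and `B = (ze(q z) - q ze(z)) A_o^m`, take `a = b_o^m a''`,
`b = b'' a_o^m`. -/
def SpecQFR : Prop :=
  ∀ {β : ℕ} {I Λ : Type} [Fintype I] [Fintype Λ] (D : QD β I Λ), D.Good → ∀ q : ℕ, 1 ≤ q →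
    (∀ i, ∃ a b : MvPolynomial I ℂ, a ∉ D.nf ∧ ∀ z, D.th D.o z ≠ 0 →
      D.th i ((q : ℂ) • z) * eval (D.fv z) a = D.th D.o ((q : ℂ) • z) * eval (D.fv z) b) ∧
    ∃ a b : MvPolynomial I ℂ, a ∉ D.nf ∧ ∀ z, D.th D.o z ≠ 0 → D.th D.o ((q : ℂ) • z) ≠ 0 →
      (D.ze ((q : ℂ) • z) - (q : ℂ) * D.ze z) * eval (D.fv z) a = eval (D.fv z) b

/-- Module CNJ (200 lines; uses BAS): conjugation of derivatives along a line. Proof: let
`D_v = ∑ v_j ∂_j` be the derivation of `ℂ[X_i]` with `X_i ↦ ∑_j v_j p_ij`; the `k`-th derivative of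
`t ↦ P(f(γ + t v))` at `0` is `(D_v^k P)(f(γ))`, and `map τ (D_v^k P) = D_v^k (map τ P)`. -/
def SpecCNJ : Prop :=
  ∀ {β : ℕ} {I Λ : Type} [Fintype I] [Fintype Λ] (D : QD β I Λ), D.Good → D.Alg →
    ∀ τ : ℂ ≃+* ℂ, FixQ τ → ∀ γ γ' : Fin β → ℂ, D.th D.o γ ≠ 0 → D.th D.o γ' ≠ 0 →
    (∀ i, D.f i γ' = τ (D.f i γ)) → ∀ v : Fin β → ℂ, (∀ j, τ (v j) = v j) →
    ∀ (P : MvPolynomial I ℂ) (k : ℕ),
      iteratedDeriv k (fun t : ℂ => eval (D.fv (γ' + t • v)) (map (τ : ℂ →+* ℂ) P)) 0 =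
        τ (iteratedDeriv k (fun t : ℂ => eval (D.fv (γ + t • v)) P) 0)

/-- Module TAU (250 lines; uses BAS): conjugation of relations. Proof: the Taylor coefficients of the
`f_i` and of `ze` at `0` are in `Qbar`; use the calculus `ConjM.Cj` of `U/Conj.lean` (`F'` is conjugate to
`F` to all orders at `0`): the conjugate of `F_1 P_1(f) + F_2 P_2(f)`, `F_1`, `F_2` with Taylor
coefficients fixed by `τ`, is `F_1 (τP_1)(f) + F_2 (τP_2)(f)`; so if the first vanishes near `0`, so does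
the second (`ConjM.eventually_zero`), and then it vanishes everywhere, after multiplication by powers
of `th_o(z)`, `th_o(q z)` (entire functions). -/
def SpecTAU : Prop :=
  ∀ {β : ℕ} {I Λ : Type} [Fintype I] [Fintype Λ] (D : QD β I Λ), D.Good → D.Alg →
    ∀ τ : ℂ ≃+* ℂ, FixQ τ →
    (∀ P ∈ D.nf, map (τ : ℂ →+* ℂ) P ∈ D.nf) ∧
    ∀ q : ℕ, 1 ≤ q →
      (∀ i (a b : MvPolynomial I ℂ), (∀ z, D.th D.o z ≠ 0 →
        D.th i ((q : ℂ) • z) * eval (D.fv z) a = D.th D.o ((q : ℂ) • z) * eval (D.fv z) b) →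
        ∀ z, D.th D.o z ≠ 0 → D.th i ((q : ℂ) • z) * eval (D.fv z) (map (τ : ℂ →+* ℂ) a) =
          D.th D.o ((q : ℂ) • z) * eval (D.fv z) (map (τ : ℂ →+* ℂ) b)) ∧
      ∀ (a b : MvPolynomial I ℂ), (∀ z, D.th D.o z ≠ 0 → D.th D.o ((q : ℂ) • z) ≠ 0 →
        (D.ze ((q : ℂ) • z) - (q : ℂ) * D.ze z) * eval (D.fv z) a = eval (D.fv z) b) →
        ∀ z, D.th D.o z ≠ 0 → D.th D.o ((q : ℂ) • z) ≠ 0 →
          (D.ze ((q : ℂ) • z) - (q : ℂ) * D.ze z) * eval (D.fv z) (map (τ : ℂ →+* ℂ) a) =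
            eval (D.fv z) (map (τ : ℂ →+* ℂ) b)

/-- Module LDC (60 lines): leading coefficients. Proof: `β = O(t^k)`, compare `t^{-k} α`, `t^{-k} β` as
`t → 0`. -/
def SpecLDC : Prop :=
  ∀ (α β φ : ℂ → ℂ) (k : ℕ), AnalyticAt ℂ α 0 → AnalyticAt ℂ β 0 → ContinuousAt φ 0 →
    (∀ᶠ t in 𝓝 0, φ t * α t = β t) → (∀ j < k, iteratedDeriv j α 0 = 0) →
    (∀ j < k, iteratedDeriv j β 0 = 0) ∧ iteratedDeriv k β 0 = φ 0 * iteratedDeriv k α 0

/-- Module TFV (300 lines; uses BAS, NSZ, AUT, QFR, CNJ, TAU, LDC): the values of the `f_i` at torsion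
points are algebraic. Proof: let `τ` be in `FixQ`. The point `(τ(f_i(γ)))_i` satisfies all relations
(TAU (1)), so there is `γ'` with `f_i(γ') = τ(f_i(γ))` (NSZ). Fix `i`, `a, b` as in QFR (1). Choose
`v ∈ Qbar^β` with `α(t) = a(f(γ + t v))` not identically `0` near `0` (`a ∉ 𝔫_f`; the entire function
`z ↦ th_o(z)^N a(f(z))` is not `0` at some point `γ + v`, `v ∈ Qbar^β`, by density; identity theorem in
`t`). Let `β(t) = b(f(γ + t v))`, `φ(t) = f_i(q(γ + t v))`, continuous at `0`, since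
`th_o(q γ) = e th_o(0) ≠ 0`; `φ α = β`. Let `k` be the order of `α`. With
`α'(t) = (τa)(f(γ' + t v))`, `β'(t) = (τb)(f(γ' + t v))`, CNJ gives `α'^{(j)}(0) = τ(α^{(j)}(0))`, the same
for `β`. By TAU `th_i(q(γ' + t v)) α'(t) = th_o(q(γ' + t v)) β'(t)`; LDC (for both sides) gives
`th_i(q γ') α'^{(k)}(0) = th_o(q γ') β'^{(k)}(0)`, and `β^{(k)}(0) = f_i(0) α^{(k)}(0)` by LDC for `φ`
(`φ(0) = f_i(q γ) = f_i(0)`), so `th_i(q γ') = th_o(q γ') f_i(0)` (`τ(f_i(0)) = f_i(0)`). For all `i`: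
`th_o(q γ') ≠ 0` (`ne`), and `q γ'` is a lattice vector (`inj`). So `τ(f_i(γ))` is in the countable set
of the `f_i(γ'')`, `q γ''` a lattice vector. Apply AUT (2). -/
def SpecTFV : Prop :=
  ∀ {β : ℕ} {I Λ : Type} [Fintype I] [Fintype Λ] (D : QD β I Λ), D.Good → D.Alg →
    ∀ q : ℕ, 1 ≤ q → ∀ (γ : Fin β → ℂ) (x : Λ → ℤ), D.th D.o γ ≠ 0 → (q : ℂ) • γ = D.vec x →
    ∀ i, D.f i γ ∈ Qbar

/-- Module TZV (200 lines; uses BAS, AUT, QFR, CNJ, TAU, LDC, TFV): the values of `ze` at torsion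
points, if `L(x) = 0`. Proof: `f_i(γ) ∈ Qbar` (TFV). Let `a, b` be as in QFR (2), `v`, `α`, `β` as in
TFV, `φ(t) = V(γ + t v)`, `V(z) = ze(q z) - q ze(z)`, `φ α = β`. For `τ` in `FixQ`, (`γ' = γ`)
`α'(t) = (τa)(f(γ + t v))`, `β'`: `φ α' = β'` (TAU), `α'^{(k)}(0) = τ(α^{(k)}(0)) ≠ 0`, so by LDC
`φ(0) = β'^{(k)}(0) / α'^{(k)}(0) = τ(φ(0))`. So `V(γ) ∈ Qbar` (AUT (1)), and
`q ze(γ) = ze(q γ) - V(γ) = ze(0) + L(x) - V(γ)`. -/
def SpecTZV : Prop :=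
  ∀ {β : ℕ} {I Λ : Type} [Fintype I] [Fintype Λ] (D : QD β I Λ), D.Good → D.Alg →
    ∀ q : ℕ, 1 ≤ q → ∀ (γ : Fin β → ℂ) (x : Λ → ℤ), D.th D.o γ ≠ 0 → (q : ℂ) • γ = D.vec x →
    D.L x = 0 → D.ze γ ∈ Qbar

/-! ## Integral data -/

/-- The values at `0` and the coefficients of the derivations are algebraic integers of the number
field `K`, embedded by `σ`. -/
structure QD.IntD {β : ℕ} {I Λ : Type} (D : QD β I Λ) {K : Type} [Field K] [NumberField K]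
    (σ : K →+* ℂ) (xv : Option I → 𝓞 K) (p : Option I → Fin β → MvPolynomial (Option I) (𝓞 K)) :
    Prop where
  value : ∀ i, D.ev 0 0 (X i) = oEmb σ (xv i)
  ders : ∀ i j, D.pp i (some j) = map (oEmb σ) (p i j)

/-- Module RDC (300 lines; as `specRED` in `U/Red.lean`): reduction to integral data. Proof: let `N` be a
common denominator of the `f_i(0)`, `ze(0)`; replace `th_i` by `N th_i` for `i ≠ o`, `Y` by `N Y`
(so `ell` by `N ell`), and then the coordinates by `z = M z'` (`th'(z') = th(M z')`, `lat' = lat / M`,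
`a' = M a`), `M` a positive integer such that the new polynomials `p, q` have integral coefficients:
the new `f` satisfy `∂'_j f'_i = M N p_ij(f')`, where `X_k` is replaced by `X_k / N` for `k ≠ o`, and
`p' o j = 0`. The axioms and `SS` are preserved. -/
def SpecRDC : Prop :=
  ∀ {β : ℕ} {I Λ : Type} [Fintype I] [Fintype Λ] (D : QD β I Λ), D.Good → D.Alg → D.SS →
    ∀ x : Λ → ℤ, D.L x = 0 →
    ∃ D' : QD β I Λ, D'.Good ∧ D'.Alg ∧ D'.SS ∧ D'.L x = 0 ∧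
      ∃ (K : Type) (_ : Field K) (_ : NumberField K) (σ : K →+* ℂ) (xv : Option I → 𝓞 K)
        (p : Option I → Fin β → MvPolynomial (Option I) (𝓞 K)), D'.IntD σ xv p

/-- Module AUX (auxiliary polynomial, 400 lines; uses BAS, NNP; `U.specSIZE` in `U/Size.lean`, `TlM`
facts `siegel`, `mon`, `QQ`, `word` in `U/Tl.lean`, `specJAC`). Proof: there are `s_1, …, s_β` such that
the differentials of the `f_{s_k}` at `0` are independent (BAS 5), so a non-zero polynomial in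
`X_{s_1}, …, X_{s_β}, X` is not in `𝔫` (JAC in `ℂ^{β+1}`, or: coefficients in `X` first). Let `E` be minimal
with `E^{β+1} ≥ 2 T^β`; `E^{β+1} ≤ 2^{β+2} T^β`; `d = (β + 1) E`. Unknowns: the `E^{β+1}` coefficients of
the monomials with exponents `< E`; equations: `T^β`, one for each sorted word with `b_j < T` letters
`j`. Siegel's lemma over `𝓞 K`, entries of house `≤ C_1^{d + βT} (d + βT)^{βT}` (SIZE with `H = 1`). All
words of length `< T` follow (NNP (4)). -/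
def SpecAUX : Prop :=
  ∀ {β : ℕ} {I Λ : Type} [Fintype I] [Fintype Λ] (D : QD β I Λ), D.Good → 0 < β →
    ∀ {K : Type} [Field K] [NumberField K] (σ : K →+* ℂ) (xv : Option I → 𝓞 K)
      (p : Option I → Fin β → MvPolynomial (Option I) (𝓞 K)), D.IntD σ xv p →
    ∃ C : ℕ, 1 ≤ C ∧ ∀ T : ℕ, 1 ≤ T →
      ∃ (d : ℕ) (P : MvPolynomial (Option I) (𝓞 K)), 1 ≤ d ∧ d ^ (β + 1) ≤ C * T ^ β ∧
        P.totalDegree ≤ d ∧ map (oEmb σ) P ∉ D.nn ∧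
        ∑ m ∈ P.support, house (algebraMap (𝓞 K) K (P.coeff m)) ≤ ((C * T : ℕ) : ℝ) ^ (C * T) ∧
        ∀ w : List (Fin β), w.length < T → D.ev 0 0 (D.lw w (map (oEmb σ) P)) = 0

/-- Module GRO (150 lines; uses BAS; `U/Grow.lean` is similar): growth. Proof: `z = z₀ + μ_x` with
`‖z₀‖ ≤ R`, so `‖μ_x‖ ≤ ‖z‖ + R`, `|x_l| ≤ C (1 + ‖z‖)` (`ℝ`-independence of `lat`), and
`|exp(a_x(z₀) + a_x(μ_x)/2)| ≤ exp(C (1 + ‖z‖)^2)`;
`Y(z₀ + μ_x) = e_μ(z₀)^m (Y(z₀) + L(x) th_o(z₀)^m)`. -/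
def SpecGRO : Prop :=
  ∀ {β : ℕ} {I Λ : Type} [Fintype I] [Fintype Λ] (D : QD β I Λ), D.Good →
    ∃ C : ℝ, 1 ≤ C ∧ ∀ z, (∀ i, ‖D.th i z‖ ≤ Real.exp (C * (1 + ‖z‖ ^ 2))) ∧
      ‖D.Y z‖ ≤ Real.exp (C * (1 + ‖z‖ ^ 2))

/-- Module EXT (analytic estimate, 350 lines; uses BAS, DEV, GRO; `SchwM.schwarz` or `specSCHW` for `r = 1` in
`U/Schw.lean`, `HolM` in `U/Hol.lean`). Proof: `G = th_o^{(m+1) d} Φ_P(·, 0)` is entire,
`|G(z)| ≤ H exp(C d (1 + ‖z‖^2))` (GRO). For a word `w` of length `k` let `g(t)` be the iterated partial derivative of `G` along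
`w` at `t μ_x`, `t ∈ ℂ`. `Φ_P(z + μ_x, 0) = Φ_P(z, 0)` as `L(x) = 0`, so all words of length `< T` vanish
at the integers, and `g` vanishes to order `≥ T - k` at the integers. At `t ∈ [0,1]` all words of length
`< k` vanish, so `g(t) = th_o(t μ_x)^{(m+1) d} ev (t μ_x) 0 (D.lw w P)` (Leibniz). Cauchy:
`|g(t)| ≤ k^k sup_{‖y‖ ≤ 1} |G(t μ_x + y)|` (`HolM.norm_iteratedFDeriv_apply_le`). Schwarz lemma for the
integers `|j| ≤ S`, with multiplicity `T - k`, radius `8 S`. -/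
def SpecEXT : Prop :=
  ∀ {β : ℕ} {I Λ : Type} [Fintype I] [Fintype Λ] (D : QD β I Λ), D.Good →
    ∀ x : Λ → ℤ, D.L x = 0 → ∃ C : ℝ, 1 ≤ C ∧
    ∀ (d T S k : ℕ) (H : ℝ) (P : MvPolynomial (Option I) ℂ), 1 ≤ d → 1 ≤ S → k ≤ T →
      P.totalDegree ≤ d → ∑ m ∈ P.support, ‖P.coeff m‖ ≤ H →
      (∀ w : List (Fin β), w.length < T → D.ev 0 0 (D.lw w P) = 0) →
      ∀ t : ℝ, 0 ≤ t → t ≤ 1 → D.th D.o ((t : ℂ) • D.vec x) ≠ 0 →
      (∀ w : List (Fin β), w.length < k → D.ev ((t : ℂ) • D.vec x) 0 (D.lw w P) = 0) →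
      ∀ w : List (Fin β), w.length = k →
        ‖D.ev ((t : ℂ) • D.vec x) 0 (D.lw w P)‖ *
            ‖D.th D.o ((t : ℂ) • D.vec x)‖ ^ ((D.m + 1) * d) ≤
          C * H * (k : ℝ) ^ k * Real.exp (C * d * (S : ℝ) ^ 2) * (1 / 2 : ℝ) ^ ((T - k) * S)

/-- Module LIO (Liouville, 300 lines; `U/Size.lean` (`dW_bound`, `size_aeval`), `TlM.liouville` in
`U/Tl.lean`). Proof: let `K₁` be a number field with an embedding `σ₁` in `ℂ` which contains `K` (via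
`σ`) and the `f_i(γ)`, `ze(γ)`; `N` a common denominator of these values. `Q = dW p w P` (integral
coefficients) has degree `≤ d + C |w|` and length `≤ H C^{d + |w|} (d + |w|)^{|w|}`; the number
`α = N^{deg} Q(f(γ), ze(γ))` is an algebraic integer of `K₁`, its house is at most
`length(Q) (N B)^{deg}` (the house of an element of `K` is the same in `K₁`); if `α ≠ 0`,
`1 ≤ |σ₁ α| house(α)^{[K₁:ℚ] - 1}`. -/
def SpecLIO : Prop :=
  ∀ {β : ℕ} {I Λ : Type} [Fintype I] [Fintype Λ] (D : QD β I Λ), D.Good →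
    ∀ {K : Type} [Field K] [NumberField K] (σ : K →+* ℂ) (xv : Option I → 𝓞 K)
      (p : Option I → Fin β → MvPolynomial (Option I) (𝓞 K)), D.IntD σ xv p →
    ∀ γ : Fin β → ℂ, D.th D.o γ ≠ 0 → (∀ i, D.f i γ ∈ Qbar) → D.ze γ ∈ Qbar →
    ∃ C : ℕ, 1 ≤ C ∧ ∀ (d : ℕ) (H : ℝ) (P : MvPolynomial (Option I) (𝓞 K)) (w : List (Fin β)),
      1 ≤ H → P.totalDegree ≤ d →
      ∑ m ∈ P.support, house (algebraMap (𝓞 K) K (P.coeff m)) ≤ H →
      D.ev γ 0 (D.lw w (map (oEmb σ) P)) ≠ 0 →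
      1 ≤ ‖D.ev γ 0 (D.lw w (map (oEmb σ) P))‖ *
        (H * (C : ℝ) ^ (d + w.length) * ((d + w.length : ℕ) : ℝ) ^ w.length) ^ C

/-- Module NMR (numerical part, 200 lines). Proof: `d ≤ (C T^β)^{1/(β+1)}`, so
`T / d ≥ c_1 T^{1/(β+1)} → ∞`. Take `S = ⌊c T / d⌋`, `c` small: `A d S^2 ≤ A c^2 T^2 / d`,
`(T - k) S log 2 ≥ (T/2) (c T / d - 1) log 2`; so the exponent is `≤ -c' T^2 / d ≤ -c'' T^{1 + 1/(β+1)}`,
and all other terms are `exp(O(T log T))`. -/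
def SpecNMR : Prop :=
  ∀ (β C A : ℕ) (ε : ℝ), 0 < β → 1 ≤ C → 1 ≤ A → 0 < ε → ε ≤ 1 → ∃ T₀ : ℕ, ∀ T : ℕ, T₀ ≤ T →
    ∀ d : ℕ, 1 ≤ d → d ^ (β + 1) ≤ C * T ^ β →
    A * d ≤ T ∧ ∃ S : ℕ, 1 ≤ S ∧ ∀ k : ℕ, 2 * k ≤ T →
      (A * ((C * T : ℕ) : ℝ) ^ (C * T) * (k : ℝ) ^ k * Real.exp (A * d * (S : ℝ) ^ 2) *
        (1 / 2 : ℝ) ^ ((T - k) * S)) * (ε ^ (A * d))⁻¹ *
        (((C * T : ℕ) : ℝ) ^ (C * T) * (A : ℝ) ^ (d + k) * ((d + k : ℕ) : ℝ) ^ k) ^ A < 1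

/-- Module PNT (150 lines; uses BAS): the points. Proof: `t ↦ th_o(t μ_x)` is analytic and not
identically `0`, so it has finitely many zeros in `[0,1]`; their number is `C₅`. If
`f(j μ_x / q) = f(j' μ_x / q)` then `(j - j') μ_x / q` is a lattice vector (BAS 6), so `q` divides
`(j - j') x_l` for all `l` (`ℝ`-independence), so `q ∣ j - j'`. -/
def SpecPNT : Prop :=
  ∀ {β : ℕ} {I Λ : Type} [Fintype I] [Fintype Λ] (D : QD β I Λ), D.Good → ∀ x : Λ → ℤ,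
    ∃ C₅ : ℕ, ∀ q : ℕ, q.Prime → (∃ l, ¬ (q : ℤ) ∣ x l) →
    ∃ Γ : Finset (Fin q), q ≤ Γ.card + C₅ ∧
      (∀ j ∈ Γ, D.th D.o ((((j : ℕ) : ℂ) / q) • D.vec x) ≠ 0) ∧
      ∀ j ∈ Γ, ∀ j' ∈ Γ, D.fv ((((j : ℕ) : ℂ) / q) • D.vec x) =
        D.fv ((((j' : ℕ) : ℂ) / q) • D.vec x) → j = j'

/-- Module MAIN (250 lines; uses everything above, ZERO): THE TRANSCENDENCE THEOREM. Proof: suppose
`x ≠ 0`, `L(x) = 0`; RDC; then constants `C_A` (AUX), `C_Z` (ZERO), `C₅` (PNT). Choose a prime `q` which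
does not divide some `x_l`, with `q > C₅ + 8^β C_Z C_A`. For the (finitely many) `γ = j μ_x / q`, `j ∈ Γ`:
`q γ = μ_{jx}`, `L(j x) = 0`, so TFV, TZV, LIO apply; `A` = a bound for all the constants (EXT, LIO,
`4 C_Z`, `m + 1`), `ε ≤ 1` a lower bound for all `|th_o(γ)|`; `T` from NMR, `T ≥ 8`; `d`, `P` from AUX.
Induction on `k`, `2 k ≤ T`: all words of length `k` vanish at `(γ, 0)` (EXT, LIO, NMR). So ZERO with
`⌊T/4⌋` for `T` (`⌊T/4⌋ + C_Z d ≤ T/2`): `#Γ (T/8)^β ≤ #Γ ⌊T/4⌋^β ≤ C_Z d^{β+1} ≤ C_Z C_A T^β`,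
`#Γ ≥ q - C₅`. Contradiction. -/
def SpecMAIN : Prop :=
  ∀ {β : ℕ} {I Λ : Type} [Fintype I] [Fintype Λ] (D : QD β I Λ), 0 < β → D.Good → D.Alg → D.SS →
    ∀ x : Λ → ℤ, x ≠ 0 → D.L x ≠ 0

end Pool.Agent.Lib.MPf11a48.AS
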