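import Pool.Agent.Lib.MP_f11a48_ag.AS.SpecF
import Pool.Agent.Lib.MP_f11a48_ag.AS.SpecT

/-!
# Project AS, module PNT: the points `j μ_x / q`
-/

set_option autoImplicit false

open MvPolynomial Pool.Agent.Lib.MPf11a48.CM Filter Topology Asymptotics NumberField
open Pool.Agent.Lib.MPf11a48.U (oEmb)

namespace Pool.Agent.Lib.MPf11a48.AS

namespace PNTM

/-- an entire function which is not `0` at `0` has finitely many zeros in the unit disc -/
theorem zeros_finite (h : ℂ → ℂ) (hh : Differentiable ℂ h) (h0 : h 0 ≠ 0) :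
    {t : ℂ | ‖t‖ ≤ 1 ∧ h t = 0}.Finite := by
  by_contra hinf
  have hA : AnalyticOnNhd ℂ h Set.univ := hh.differentiableOn.analyticOnNhd isOpen_univ
  obtain ⟨z, -, hz⟩ := Set.Infinite.exists_accPt_of_subset_isCompact hinf
    (isCompact_closedBall (0 : ℂ) 1) (fun t ht => by simpa using ht.1)
  have hfr : ∃ᶠ t in 𝓝[≠] z, h t = 0 := by
    rw [accPt_iff_frequently_nhdsNE] at hz
    exact hz.mono fun t ht => ht.2
  have := hA.eqOn_zero_of_preconnected_of_frequently_eq_zero isPreconnected_univ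
    (Set.mem_univ z) hfr
  exact h0 (this (Set.mem_univ 0))

theorem vec_smul {Z I Λ : Type} [Fintype Λ] (D : TH Z I Λ) (n : ℤ) (x : Λ → ℤ) :
    D.vec (fun l => n * x l) = (n : ℂ) • D.vec x := by
  unfold TH.vec
  rw [Finset.smul_sum]
  refine Finset.sum_congr rfl fun l _ => ?_
  rw [smul_smul]
  push_cast
  rfl

theorem vec_inj {Z I Λ : Type} [Fintype Λ] (D : TH Z I Λ) (hD : LinearIndependent ℝ D.lat)
    (x y : Λ → ℤ) (h : D.vec x = D.vec y) : x = y := by
  have h1 : ∑ l, ((x l : ℝ) - (y l : ℝ)) • D.lat l = 0 := by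
    have h2 : D.vec x - D.vec y = 0 := sub_eq_zero.mpr h
    rw [← h2]
    unfold TH.vec
    rw [← Finset.sum_sub_distrib]
    refine Finset.sum_congr rfl fun l _ => ?_
    funext k
    simp [sub_mul]
  have h3 := (Fintype.linearIndependent_iff.mp hD) _ h1
  funext l
  have h4 : (x l : ℝ) = (y l : ℝ) := by linarith [h3 l]
  exact_mod_cast h4

end PNTM

open PNTM in
theorem specPNT (hBAS : SpecBAS) : SpecPNT := by
  classical
  intro β I Λ _ _ D hD x
  obtain ⟨-, -, -, -, -, b6, -⟩ := hBAS D.toTH hD.good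
  set h : ℂ → ℂ := fun t => D.th D.o (t • D.vec x) with hh
  have hd : Differentiable ℂ h := by
    have h1 : Differentiable ℂ fun t : ℂ => t • D.vec x := differentiable_id.smul_const _
    exact (hD.good.diff D.o).comp h1
  have h0 : h 0 ≠ 0 := by
    simp only [hh, zero_smul]
    exact hD.good.zero
  have hfin := zeros_finite h hd h0
  refine ⟨hfin.toFinset.card, ?_⟩
  intro q hq hx
  have hq0 : (q : ℂ) ≠ 0 := by exact_mod_cast hq.ne_zero
  set Γ : Finset (Fin q) := Finset.univ.filter fun j => h (((j : ℕ) : ℂ) / q) ≠ 0 with hΓ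
  refine ⟨Γ, ?_, ?_, ?_⟩
  · have h1 : (Finset.univ.filter fun j : Fin q => ¬ h (((j : ℕ) : ℂ) / q) ≠ 0).card ≤
        hfin.toFinset.card := by
      refine Finset.card_le_card_of_injOn (fun j => ((j : ℕ) : ℂ) / q) ?_ ?_
      · intro j hj
        have hj' : j ∈ Finset.univ.filter fun j : Fin q => ¬ h (((j : ℕ) : ℂ) / q) ≠ 0 := hj
        rw [Finset.mem_filter] at hj'
        show ((j : ℕ) : ℂ) / q ∈ (hfin.toFinset : Set ℂ)
        rw [Set.Finite.coe_toFinset]
        refine ⟨?_, not_not.mp hj'.2⟩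
        rw [norm_div, Complex.norm_natCast, Complex.norm_natCast,
          div_le_one (by exact_mod_cast hq.pos)]
        exact_mod_cast j.2.le
      · intro j _ j' _ hjj
        have hjj' : ((j : ℕ) : ℂ) / q = ((j' : ℕ) : ℂ) / q := hjj
        rw [div_left_inj' hq0] at hjj'
        exact Fin.ext (by exact_mod_cast hjj')
    have h2 := Finset.card_filter_add_card_filter_not (s := (Finset.univ : Finset (Fin q)))
      (fun j => h (((j : ℕ) : ℂ) / q) ≠ 0)
    rw [Finset.card_univ, Fintype.card_fin] at h2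
    have h3 : Γ.card = (Finset.univ.filter fun j : Fin q => h (((j : ℕ) : ℂ) / q) ≠ 0).card := rfl
    omega
  · intro j hj
    exact (Finset.mem_filter.mp hj).2
  · intro j hj j' hj' heq
    obtain ⟨y, hy⟩ := b6 _ _ (Finset.mem_filter.mp hj).2 (Finset.mem_filter.mp hj').2 heq
    have h1 : D.vec (fun l => ((j : ℕ) : ℤ) * x l - ((j' : ℕ) : ℤ) * x l) =
        D.vec (fun l => (q : ℤ) * y l) := by
      have h2 : D.vec (fun l => (q : ℤ) * y l) = (q : ℂ) • D.vec y := by
        rw [vec_smul]; simp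
      rw [h2, ← hy]
      have h3 : D.vec (fun l => ((j : ℕ) : ℤ) * x l - ((j' : ℕ) : ℤ) * x l) =
          ((j : ℕ) : ℂ) • D.vec x - ((j' : ℕ) : ℂ) • D.vec x := by
        have h4 : (fun l => ((j : ℕ) : ℤ) * x l - ((j' : ℕ) : ℤ) * x l) =
            fun l => (((j : ℕ) : ℤ) - ((j' : ℕ) : ℤ)) * x l := by
          funext l; ring
        rw [h4, vec_smul, ← sub_smul]
        push_cast
        rfl
      rw [h3, smul_sub, smul_smul, smul_smul]
      congr 2 <;> field_simp
    have h2 := vec_inj D.toTH hD.good.indep _ _ h1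
    obtain ⟨l, hl⟩ := hx
    have h3 : (((j : ℕ) : ℤ) - ((j' : ℕ) : ℤ)) * x l = (q : ℤ) * y l := by
      have := congrFun h2 l
      linarith
    have h4 : (q : ℤ) ∣ (((j : ℕ) : ℤ) - ((j' : ℕ) : ℤ)) * x l := ⟨y l, h3⟩
    have h5 : (q : ℤ) ∣ (((j : ℕ) : ℤ) - ((j' : ℕ) : ℤ)) :=
      ((Nat.prime_iff_prime_int.mp hq).dvd_or_dvd h4).resolve_right hl
    have hj1 := j.2
    have hj2 := j'.2
    have h6 : ((j : ℕ) : ℤ) - ((j' : ℕ) : ℤ) = 0 := by
      apply Int.eq_zero_of_abs_lt_dvd h5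
      rw [abs_lt]
      constructor <;> omega
    exact Fin.ext (by omega)

end Pool.Agent.Lib.MPf11a48.AS
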