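import Pool.Agent.Lib.MP_f11a48_ag.AS.SpecF

/-!
# Project AS, module POL: analytic functions of polynomial growth on the complement of a hypersurface
-/

set_option autoImplicit false

open MvPolynomial Filter Topology

namespace Pool.Agent.Lib.MPf11a48.AS

namespace POLM

/-! ### One variable -/

/-- removable singularities -/
theorem remove (S : Finset ℂ) : ∀ (g : ℂ → ℂ) (C : ℝ) (κ : ℕ),
    (∀ t ∉ S, DifferentiableAt ℂ g t) → (∀ t ∉ S, ‖g t‖ ≤ C * (1 + ‖t‖) ^ κ) →
    ∃ G : ℂ → ℂ, Differentiable ℂ G ∧ (∀ t ∉ S, G t = g t) ∧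
      ∀ t, ‖G t‖ ≤ C * (1 + ‖t‖) ^ κ := by
  classical
  induction S using Finset.induction_on with
  | empty =>
    intro g C κ h1 h2
    exact ⟨g, fun t => h1 t (by simp), fun t _ => rfl, fun t => h2 t (by simp)⟩
  | insert a S ha ih =>
    intro g C κ h1 h2
    have hU : (S : Set ℂ)ᶜ ∈ 𝓝 a :=
      S.finite_toSet.isClosed.isOpen_compl.mem_nhds (by simpa using ha)
    set U : Set ℂ := (S : Set ℂ)ᶜ ∩ Metric.ball a 1 with hUdef
    have hUa : U ∈ 𝓝 a := inter_mem hU (Metric.ball_mem_nhds a one_pos)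
    have hUm : ∀ t ∈ U \ {a}, t ∉ insert a S := by
      intro t ht
      have h5 : t ∉ (S : Set ℂ) := ht.1.1
      have h6 : t ≠ a := ht.2
      rw [Finset.mem_insert, not_or]
      exact ⟨h6, by simpa using h5⟩
    have hd : DifferentiableOn ℂ g (U \ {a}) := fun t ht =>
      (h1 t (hUm t ht)).differentiableWithinAt
    have hb : BddAbove (norm ∘ g '' (U \ {a})) := by
      refine ⟨|C| * (2 + ‖a‖) ^ κ, ?_⟩
      rintro x ⟨t, ht, rfl⟩
      have h3 : ‖t‖ ≤ 1 + ‖a‖ := by
        have h4 : dist t a < 1 := ht.1.2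
        rw [dist_eq_norm] at h4
        have h5 := norm_sub_norm_le t a
        linarith
      calc ‖g t‖ ≤ C * (1 + ‖t‖) ^ κ := h2 t (hUm t ht)
        _ ≤ |C| * (1 + ‖t‖) ^ κ := mul_le_mul_of_nonneg_right (le_abs_self C) (by positivity)
        _ ≤ |C| * (2 + ‖a‖) ^ κ := by
          refine mul_le_mul_of_nonneg_left ?_ (abs_nonneg C)
          exact pow_le_pow_left₀ (by positivity) (by linarith) κ
    have h3 := Complex.differentiableOn_update_limUnder_of_bddAbove hUa hd hb
    set g' := Function.update g a (limUnder (𝓝[≠] a) g) with hg'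
    have h4 : DifferentiableAt ℂ g' a := h3.differentiableAt hUa
    have hne : ∀ t, t ≠ a → g' t = g t := fun t ht => Function.update_of_ne ht _ _
    have hba : ‖g' a‖ ≤ C * (1 + ‖a‖) ^ κ := by
      have e1 : Tendsto (fun t => ‖g' t‖) (𝓝[≠] a) (𝓝 ‖g' a‖) :=
        h4.continuousAt.norm.tendsto.mono_left nhdsWithin_le_nhds
      have e2 : Tendsto (fun t : ℂ => C * (1 + ‖t‖) ^ κ) (𝓝[≠] a) (𝓝 (C * (1 + ‖a‖) ^ κ)) := by
        have : Continuous fun t : ℂ => C * (1 + ‖t‖) ^ κ := by fun_prop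
        exact (this.tendsto a).mono_left nhdsWithin_le_nhds
      refine le_of_tendsto_of_tendsto e1 e2 ?_
      filter_upwards [mem_nhdsWithin_of_mem_nhds hUa, self_mem_nhdsWithin] with t ht1 ht2
      rw [hne t ht2]
      exact h2 t (hUm t ⟨ht1, ht2⟩)
    obtain ⟨G, hG1, hG2, hG3⟩ := ih g' C κ (fun t ht => by
        by_cases hta : t = a
        · rw [hta]
          exact h4
        · have h5 : g' =ᶠ[𝓝 t] g := by
            filter_upwards [isOpen_ne.mem_nhds hta] with z hz using hne z hz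
          exact (h1 t (by simp [hta, ht])).congr_of_eventuallyEq h5)
      (fun t ht => by
        by_cases hta : t = a
        · rw [hta]
          exact hba
        · rw [hne t hta]
          exact h2 t (by simp [hta, ht]))
    refine ⟨G, hG1, fun t ht => ?_, hG3⟩
    rw [Finset.mem_insert, not_or] at ht
    rw [hG2 t ht.2, hne t ht.1]

/-- entire functions of polynomial growth are polynomials -/
theorem liou (κ : ℕ) : ∀ (G : ℂ → ℂ) (C : ℝ), Differentiable ℂ G →
    (∀ t, ‖G t‖ ≤ C * (1 + ‖t‖) ^ κ) →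
    ∃ r : Polynomial ℂ, r.natDegree ≤ κ ∧ ∀ t, G t = r.eval t := by
  induction κ with
  | zero =>
    intro G C hG hb
    have hbd : Bornology.IsBounded (Set.range G) := by
      rw [isBounded_iff_forall_norm_le]
      refine ⟨C, ?_⟩
      rintro x ⟨t, rfl⟩
      simpa using hb t
    refine ⟨Polynomial.C (G 0), by simp, fun t => ?_⟩
    rw [Polynomial.eval_C]
    exact hG.apply_eq_apply_of_bounded hbd t 0
  | succ κ ih =>
    intro G C hG hb
    have hC : 0 ≤ C := by
      have := (norm_nonneg _).trans (hb 0)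
      simpa using this
    have hG0 : ‖G 0‖ ≤ C := by simpa using hb 0
    set H := dslope G 0 with hH
    have hHd : Differentiable ℂ H := by
      have h1 : DifferentiableOn ℂ H Set.univ :=
        (Complex.differentiableOn_dslope univ_mem).2 hG.differentiableOn
      exact differentiableOn_univ.1 h1
    obtain ⟨B, hB⟩ := (isCompact_closedBall (0 : ℂ) 1).exists_bound_of_continuousOn
      hHd.continuous.continuousOn
    have hHt : ∀ t, t * H t = G t - G 0 := by
      intro t
      have := sub_smul_dslope G 0 t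
      rw [sub_zero, smul_eq_mul] at this
      exact this
    obtain ⟨r, hr1, hr2⟩ := ih H (3 * C + |B|) hHd (fun t => by
      have hp : (1 : ℝ) ≤ (1 + ‖t‖) ^ κ := one_le_pow₀ (by linarith [norm_nonneg t])
      rcases le_total ‖t‖ 1 with ht | ht
      · have h1 : ‖H t‖ ≤ B := hB t (by simpa using ht)
        calc ‖H t‖ ≤ |B| := h1.trans (le_abs_self B)
          _ ≤ (3 * C + |B|) * 1 := by linarith
          _ ≤ (3 * C + |B|) * (1 + ‖t‖) ^ κ :=
            mul_le_mul_of_nonneg_left hp (by positivity)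
      · have h0 : 0 < ‖t‖ := by linarith
        have h1 : ‖t‖ * ‖H t‖ ≤ C * (1 + ‖t‖) ^ (κ + 1) + C := by
          rw [← norm_mul, hHt]
          exact (norm_sub_le _ _).trans (add_le_add (hb t) hG0)
        have h2 : C * (1 + ‖t‖) ^ (κ + 1) + C ≤ ‖t‖ * (3 * C * (1 + ‖t‖) ^ κ) := by
          rw [pow_succ]
          have h3 : C ≤ C * (1 + ‖t‖) ^ κ * ‖t‖ := by
            have h4 : (1 : ℝ) ≤ (1 + ‖t‖) ^ κ * ‖t‖ := one_le_mul_of_one_le_of_one_le hp ht
            nlinarith
          have h5 : C * (1 + ‖t‖) ^ κ ≤ C * (1 + ‖t‖) ^ κ * ‖t‖ :=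
            le_mul_of_one_le_right (by positivity) ht
          nlinarith
        have h3 : ‖H t‖ ≤ 3 * C * (1 + ‖t‖) ^ κ := le_of_mul_le_mul_left (h1.trans h2) h0
        refine h3.trans (mul_le_mul_of_nonneg_right ?_ (by positivity))
        linarith [abs_nonneg B])
    refine ⟨Polynomial.C (G 0) + Polynomial.X * r, ?_, fun t => ?_⟩
    · refine (Polynomial.natDegree_add_le _ _).trans (max_le (by simp) ?_)
      refine Polynomial.natDegree_mul_le.trans ?_
      have := Polynomial.natDegree_X_le (R := ℂ)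
      omega
    · rw [Polynomial.eval_add, Polynomial.eval_C, Polynomial.eval_mul, Polynomial.eval_X, ← hr2 t,
        hHt]
      ring

theorem line (S : Finset ℂ) (g : ℂ → ℂ) (C : ℝ) (κ : ℕ)
    (h1 : ∀ t ∉ S, DifferentiableAt ℂ g t) (h2 : ∀ t ∉ S, ‖g t‖ ≤ C * (1 + ‖t‖) ^ κ) :
    ∃ r : Polynomial ℂ, r.natDegree ≤ κ ∧ ∀ t ∉ S, g t = r.eval t := by
  obtain ⟨G, hG1, hG2, hG3⟩ := remove S g C κ h1 h2
  obtain ⟨r, hr1, hr2⟩ := liou κ G C hG1 hG3
  exact ⟨r, hr1, fun t ht => by rw [← hG2 t ht, hr2]⟩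

/-! ### The Taylor series on lines -/

variable {Z : Type} [Fintype Z]

theorem taylor {h : (Z → ℂ) → ℂ} {y₀ : Z → ℂ} {p : FormalMultilinearSeries ℂ (Z → ℂ) ℂ}
    (hp : HasFPowerSeriesAt h p y₀) (v : Z → ℂ) (r : Polynomial ℂ)
    (hr : ∀ᶠ t in 𝓝 (0 : ℂ), h (y₀ + t • v) = r.eval t) (n : ℕ) :
    (p n fun _ => v) = r.coeff n := by
  have h1 : HasFPowerSeriesAt (fun t : ℂ => h (y₀ + t • v))
      (FormalMultilinearSeries.ofScalars ℂ fun n => p n fun _ => v) 0 := by
    rw [hasFPowerSeriesAt_iff]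
    have h3 : Tendsto (fun t : ℂ => t • v) (𝓝 0) (𝓝 0) := by
      have : Continuous fun t : ℂ => t • v := by fun_prop
      simpa using this.tendsto 0
    filter_upwards [h3.eventually hp.eventually_hasSum] with t ht
    rw [zero_add]
    have e1 : (fun n => (p n) fun _ => t • v) = fun n => t ^ n •
        (FormalMultilinearSeries.ofScalars ℂ fun n => p n fun _ => v).coeff n := by
      funext n
      rw [FormalMultilinearSeries.coeff_ofScalars]
      have := (p n).map_smul_univ (fun _ => t) (fun _ => v)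
      simpa using this
    rw [← e1]
    exact ht
  have h2 : HasFPowerSeriesAt (fun t : ℂ => r.eval t)
      (FormalMultilinearSeries.ofScalars ℂ fun n => r.coeff n) 0 := by
    rw [hasFPowerSeriesAt_iff]
    refine Eventually.of_forall fun t => ?_
    rw [zero_add, Polynomial.eval_eq_sum_range]
    have e1 : (fun n => t ^ n •
        (FormalMultilinearSeries.ofScalars ℂ fun n => r.coeff n).coeff n) =
        fun n => r.coeff n * t ^ n := by
      funext n
      rw [FormalMultilinearSeries.coeff_ofScalars, smul_eq_mul, mul_comm]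
    rw [e1]
    refine hasSum_sum_of_ne_finset_zero fun n hn => ?_
    rw [Finset.mem_range, not_lt] at hn
    rw [Polynomial.coeff_eq_zero_of_natDegree_lt (by omega), zero_mul]
  have h3 := h1.eq_formalMultilinearSeries_of_eventually h2 hr
  have h4 := congrArg (fun q => FormalMultilinearSeries.coeff q n) h3
  simpa [FormalMultilinearSeries.coeff_ofScalars] using h4

theorem multi_poly (n : ℕ) (f : ContinuousMultilinearMap ℂ (fun _ : Fin n => (Z → ℂ)) ℂ) :
    ∃ P : MvPolynomial Z ℂ, ∀ v, eval v P = f fun _ => v := by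
  classical
  refine ⟨∑ s : Fin n → Z, C (f fun k => Pi.single (s k) 1) * ∏ k, X (s k), fun v => ?_⟩
  have h1 : (fun _ : Fin n => v) = fun _ => ∑ i, v i • (Pi.single i (1 : ℂ) : Z → ℂ) := by
    funext k
    rw [← pi_eq_sum_univ' v]
  rw [h1, f.map_sum, map_sum]
  refine Finset.sum_congr rfl fun s _ => ?_
  rw [ContinuousMultilinearMap.map_smul_univ f (fun k => v (s k)) fun k => Pi.single (s k) 1,
    map_mul, eval_C, map_prod, smul_eq_mul, mul_comm]
  simp only [eval_X]

omit [Fintype Z] in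
theorem eval_line (Δ : MvPolynomial Z ℂ) (y₀ v : Z → ℂ) (t : ℂ) :
    Polynomial.eval t (aeval (fun i => Polynomial.C (y₀ i) + Polynomial.C (v i) * Polynomial.X) Δ) =
      eval (y₀ + t • v) Δ := by
  induction Δ using MvPolynomial.induction_on with
  | C a =>
    rw [← MvPolynomial.algebraMap_eq, AlgHom.commutes, MvPolynomial.algebraMap_eq, eval_C]
    simp
  | add p q hp hq => rw [map_add, map_add, Polynomial.eval_add, hp, hq]
  | mul_X p i hp =>
    rw [map_mul, map_mul, Polynomial.eval_mul, hp, aeval_X, eval_X]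
    congr 1
    simp only [Polynomial.eval_add, Polynomial.eval_C, Polynomial.eval_mul, Polynomial.eval_X,
      Pi.add_apply, Pi.smul_apply, smul_eq_mul]
    ring

end POLM

open POLM in
theorem specPOL : SpecPOL := by
  intro Z _ Δ h C κ hΔ hh
  obtain ⟨y₀, hy₀⟩ : ∃ y₀, eval y₀ Δ ≠ 0 := by
    by_contra hcon
    push Not at hcon
    exact hΔ (MvPolynomial.funext fun y => by rw [hcon y, map_zero])
  obtain ⟨⟨p, hp⟩, hb0⟩ := hh y₀ hy₀
  have hC : 0 ≤ C := by
    have h1 := (norm_nonneg _).trans hb0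
    have h2 : 0 < (1 + ‖y₀‖) ^ κ := by positivity
    exact nonneg_of_mul_nonneg_left h1 h2
  choose Pn hPn using fun n => multi_poly n (p n)
  refine ⟨∑ n ∈ Finset.range (κ + 1), bind₁ (fun i => X i - MvPolynomial.C (y₀ i)) (Pn n),
    fun y hy => ?_⟩
  set v := y - y₀ with hv
  set δ : Polynomial ℂ :=
    aeval (fun i => Polynomial.C (y₀ i) + Polynomial.C (v i) * Polynomial.X) Δ with hδ
  have hδe : ∀ t, δ.eval t = eval (y₀ + t • v) Δ := fun t => eval_line Δ y₀ v t
  have hδ0 : δ ≠ 0 := by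
    intro h0
    apply hy₀
    have := hδe 0
    rw [h0] at this
    simpa using this.symm
  have hS : ∀ t, t ∉ δ.roots.toFinset → eval (y₀ + t • v) Δ ≠ 0 := by
    intro t ht h0
    apply ht
    rw [Multiset.mem_toFinset, Polynomial.mem_roots hδ0, Polynomial.IsRoot.def, hδe t, h0]
  have hS' : ∀ t, eval (y₀ + t • v) Δ ≠ 0 → t ∉ δ.roots.toFinset := by
    intro t ht h0
    apply ht
    rw [Multiset.mem_toFinset, Polynomial.mem_roots hδ0, Polynomial.IsRoot.def, hδe t] at h0
    exact h0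
  obtain ⟨r, hr1, hr2⟩ := line δ.roots.toFinset (fun t => h (y₀ + t • v))
    (C * (1 + ‖y₀‖ + ‖v‖) ^ κ) κ (fun t ht => by
      have h1 := (hh _ (hS t ht)).1.differentiableAt
      have h2 : DifferentiableAt ℂ (fun t : ℂ => y₀ + t • v) t := by fun_prop
      exact h1.comp t h2)
    (fun t ht => by
      refine (hh _ (hS t ht)).2.trans ?_
      rw [mul_assoc, ← mul_pow]
      refine mul_le_mul_of_nonneg_left (pow_le_pow_left₀ (by positivity) ?_ κ) hC
      have h1 : ‖y₀ + t • v‖ ≤ ‖y₀‖ + ‖t‖ * ‖v‖ := by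
        refine (norm_add_le _ _).trans ?_
        rw [norm_smul]
      have h2 := norm_nonneg y₀
      have h3 := norm_nonneg v
      have h4 := norm_nonneg t
      nlinarith [mul_nonneg h2 h4, mul_nonneg h3 h4])
  have hev : ∀ᶠ t in 𝓝 (0 : ℂ), h (y₀ + t • v) = r.eval t := by
    have h0 : (0 : ℂ) ∉ δ.roots.toFinset := hS' 0 (by simpa using hy₀)
    have hU : ((δ.roots.toFinset : Finset ℂ) : Set ℂ)ᶜ ∈ 𝓝 (0 : ℂ) :=
      (δ.roots.toFinset).finite_toSet.isClosed.isOpen_compl.mem_nhds (by simpa using h0)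
    filter_upwards [hU] with t ht
    exact hr2 t (by simpa using ht)
  have hyv : y₀ + (1 : ℂ) • v = y := by rw [hv, one_smul]; abel
  have h1 : h y = r.eval 1 := by
    have := hr2 1 (hS' 1 (by rw [hyv]; exact hy))
    simp only [hyv] at this
    exact this
  rw [h1, Polynomial.eval_eq_sum_range' (Nat.lt_succ_of_le hr1), map_sum]
  refine Finset.sum_congr rfl fun n _ => ?_
  rw [one_pow, mul_one, ← taylor hp v r hev n, ← hPn n v]
  have e : eval y (bind₁ (fun i => X i - MvPolynomial.C (y₀ i)) (Pn n)) =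
      eval (fun i => eval y (X i - MvPolynomial.C (y₀ i))) (Pn n) :=
    eval₂Hom_bind₁ (RingHom.id ℂ) y (fun i => X i - MvPolynomial.C (y₀ i)) (Pn n)
  have e2 : v = fun i => eval y (X i - MvPolynomial.C (y₀ i)) := by
    funext i
    rw [map_sub, eval_X, eval_C, hv, Pi.sub_apply]
  rw [e, ← e2]

end Pool.Agent.Lib.MPf11a48.AS
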