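import Pool.Agent.Lib.MP_f11a48_ag.AS.SpecE

/-!
# Project AS, block E, module PRB: the projectors onto Hodge substructures
-/

set_option autoImplicit false

open Matrix MvPolynomial Pool.Agent.Lib.MPf11a48.CM Pool.Agent.Lib.MPf11a48.GL2T
open Filter Topology
open Pool.Agent.Lib.MPf11a48.U (AbData Ix EndAlg ComAlg mR mC HDAM.JM)

namespace Pool.Agent.Lib.MPf11a48.AS

namespace PRBM

variable {g : ℕ}

/-- the blocks of an endomorphism of the space of matrices -/
def blk (e : Matrix (Ix g) (Ix g) ℚ →ₗ[ℚ] Matrix (Ix g) (Ix g) ℚ) (k' k : Ix g) :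
    Matrix (Ix g) (Ix g) ℚ := Matrix.of fun l' l => e (Matrix.single k' l' 1) k l

theorem prE_apply {R : Type} [CommRing R] (Bk : Ix g → Ix g → Matrix (Ix g) (Ix g) R)
    (Y : Matrix (Ix g) (Ix g) R) (k l : Ix g) :
    prE Bk Y k l = ∑ k', ∑ l', Y k' l' * Bk k' k l' l := rfl

theorem prE_blk (e : Matrix (Ix g) (Ix g) ℚ →ₗ[ℚ] Matrix (Ix g) (Ix g) ℚ)
    (Y : Matrix (Ix g) (Ix g) ℚ) : prE (blk e) Y = e Y := by
  ext k l
  rw [prE_apply]
  conv_rhs => rw [Matrix.matrix_eq_sum_single Y]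
  simp only [map_sum, Matrix.sum_apply]
  refine Finset.sum_congr rfl fun k' _ => Finset.sum_congr rfl fun l' _ => ?_
  have h : Matrix.single k' l' (Y k' l') = Y k' l' • Matrix.single k' l' (1 : ℚ) := by
    rw [Matrix.smul_single, smul_eq_mul, mul_one]
  rw [h, map_smul]
  rfl

/-- the real extension -/
theorem prE_mR (Bk : Ix g → Ix g → Matrix (Ix g) (Ix g) ℚ) (Y : Matrix (Ix g) (Ix g) ℚ) :
    prE (fun k' k => mR (Bk k' k)) (mR Y) = mR (prE Bk Y) := by
  ext k l
  simp only [prE_apply, Matrix.map_apply]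
  push_cast
  rfl

theorem prE_add {R : Type} [CommRing R] (Bk : Ix g → Ix g → Matrix (Ix g) (Ix g) R)
    (Y Z : Matrix (Ix g) (Ix g) R) : prE Bk (Y + Z) = prE Bk Y + prE Bk Z := by
  ext k l
  simp only [prE_apply, Matrix.add_apply, add_mul, Finset.sum_add_distrib]

theorem prE_smul {R : Type} [CommRing R] (Bk : Ix g → Ix g → Matrix (Ix g) (Ix g) R)
    (t : R) (Y : Matrix (Ix g) (Ix g) R) : prE Bk (t • Y) = t • prE Bk Y := by
  ext k l
  simp only [prE_apply, Matrix.smul_apply, smul_eq_mul, mul_assoc, Finset.mul_sum]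

theorem prE_zero {R : Type} [CommRing R] (Bk : Ix g → Ix g → Matrix (Ix g) (Ix g) R) :
    prE Bk 0 = 0 := by
  ext k l
  simp [prE_apply]

theorem prE_span_id {Bk : Ix g → Ix g → Matrix (Ix g) (Ix g) ℚ}
    {N : Submodule ℚ (Matrix (Ix g) (Ix g) ℚ)} (h : ∀ Y ∈ N, prE Bk Y = Y)
    {X : Matrix (Ix g) (Ix g) ℝ}
    (hX : X ∈ Submodule.span ℝ {Y : Matrix (Ix g) (Ix g) ℝ | ∃ X' ∈ N, Y = mR X'}) :
    prE (fun k' k => mR (Bk k' k)) X = X := by
  induction hX using Submodule.span_induction with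
  | mem x hx =>
    obtain ⟨X', hX', rfl⟩ := hx
    rw [prE_mR, h X' hX']
  | zero => exact prE_zero _
  | add x y _ _ hx hy => rw [prE_add, hx, hy]
  | smul t x _ hx => rw [prE_smul, hx]

theorem prE_span_zero {Bk : Ix g → Ix g → Matrix (Ix g) (Ix g) ℚ}
    {N : Submodule ℚ (Matrix (Ix g) (Ix g) ℚ)} (h : ∀ Y ∈ N, prE Bk Y = 0)
    {X : Matrix (Ix g) (Ix g) ℝ}
    (hX : X ∈ Submodule.span ℝ {Y : Matrix (Ix g) (Ix g) ℝ | ∃ X' ∈ N, Y = mR X'}) :
    prE (fun k' k => mR (Bk k' k)) X = 0 := by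
  induction hX using Submodule.span_induction with
  | mem x hx =>
    obtain ⟨X', hX', rfl⟩ := hx
    rw [prE_mR, h X' hX']
    ext i j
    simp
  | zero => exact prE_zero _
  | add x y _ _ hx hy => rw [prE_add, hx, hy, add_zero]
  | smul t x _ hx => rw [prE_smul, hx, smul_zero]

/-- the blocks of the projector commute with `J` -/
theorem comm {J : Matrix (Ix g) (Ix g) ℝ} {Bk : Ix g → Ix g → Matrix (Ix g) (Ix g) ℚ}
    {N₀ N₁ : Submodule ℚ (Matrix (Ix g) (Ix g) ℚ)} (hJ₀ : JStab J N₀) (hJ₁ : JStab J N₁)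
    (h₁ : ∀ Y ∈ N₁, prE Bk Y = Y) (h₀ : ∀ Y ∈ N₀, prE Bk Y = 0)
    (hc : ∀ X, ∃ Y ∈ N₀, ∃ Z ∈ N₁, X = Y + Z) (k' k : Ix g) :
    J * mR (Bk k' k) = mR (Bk k' k) * J := by
  have key : ∀ X : Matrix (Ix g) (Ix g) ℚ,
      prE (fun k' k => mR (Bk k' k)) (mR X * J) = mR (prE Bk X) * J := by
    intro X
    obtain ⟨Y, hY, Z, hZ, rfl⟩ := hc X
    have e1 : mR (Y + Z) = mR Y + mR Z := by
      ext i j
      simp
    rw [e1, add_mul, prE_add, prE_span_zero h₀ (hJ₀ Y hY), prE_span_id h₁ (hJ₁ Z hZ), prE_add,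
      h₀ Y hY, h₁ Z hZ, zero_add, zero_add]
  ext l' l
  have h := congrFun (congrFun (key (Matrix.single k' l' 1)) k) l
  have e1 : ∀ a b, (mR (Matrix.single k' l' (1 : ℚ)) * J) a b = if a = k' then J l' b else 0 := by
    intro a b
    rw [Matrix.mul_apply]
    by_cases hab : a = k'
    · subst hab
      rw [if_pos rfl, Finset.sum_eq_single l']
      · simp
      · intro c _ hcl
        have : Matrix.single a l' (1 : ℚ) a c = 0 := by
          rw [Matrix.single_apply]
          simp [hcl.symm]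
        simp [this]
      · intro hl
        exact absurd (Finset.mem_univ _) hl
    · rw [if_neg hab]
      refine Finset.sum_eq_zero fun c _ => ?_
      have : Matrix.single k' l' (1 : ℚ) a c = 0 := by
        rw [Matrix.single_apply]
        simp [Ne.symm hab]
      simp [this]
  have e2 : ∀ a b, prE Bk (Matrix.single k' l' 1) a b = Bk k' a l' b := by
    intro a b
    rw [prE_apply, Finset.sum_eq_single k', Finset.sum_eq_single l']
    · simp
    · intro c _ hcl
      rw [Matrix.single_apply]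
      simp [hcl.symm]
    · intro hl
      exact absurd (Finset.mem_univ _) hl
    · intro c _ hcl
      refine Finset.sum_eq_zero fun d _ => ?_
      rw [Matrix.single_apply]
      simp [hcl.symm]
    · intro hl
      exact absurd (Finset.mem_univ _) hl
  rw [prE_apply] at h
  rw [Matrix.mul_apply, Matrix.mul_apply]
  rw [Matrix.mul_apply, Finset.sum_eq_single k'] at h
  · calc ∑ j, J l' j * mR (Bk k' k) j l
        = ∑ j, (mR (Matrix.single k' l' (1 : ℚ)) * J) k' j * mR (Bk k' k) j l := by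
          refine Finset.sum_congr rfl fun j _ => ?_
          rw [e1, if_pos rfl]
      _ = _ := h
      _ = _ := by
          refine Finset.sum_congr rfl fun j _ => ?_
          show ((prE Bk (Matrix.single k' l' 1) k j : ℚ) : ℝ) * J j l =
            ((Bk k' k l' j : ℚ) : ℝ) * J j l
          rw [e2]
  · intro c _ hcl
    refine Finset.sum_eq_zero fun d _ => ?_
    rw [e1, if_neg hcl, zero_mul]
  · intro hl
    exact absurd (Finset.mem_univ _) hl

end PRBM

open PRBM

theorem specPRB (hEND : SpecEND) : SpecPRB := by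
  intro K g N A c hK hA hc N₀ N₁ hJ₀ hJ₁ hcompl
  set e : Matrix (Ix g) (Ix g) ℚ →ₗ[ℚ] Matrix (Ix g) (Ix g) ℚ :=
    N₁.subtype ∘ₗ N₁.projectionOnto N₀ hcompl.symm with he
  have h₁ : ∀ Y ∈ N₁, prE (blk e) Y = Y := by
    intro Y hY
    rw [prE_blk]
    have := Submodule.projectionOnto_apply_left hcompl.symm ⟨Y, hY⟩
    simp only [he, LinearMap.comp_apply]
    rw [this]
    rfl
  have h₀ : ∀ Y ∈ N₀, prE (blk e) Y = 0 := by
    intro Y hY
    rw [prE_blk]
    have := Submodule.projectionOnto_apply_right hcompl.symm ⟨Y, hY⟩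
    simp only [he, LinearMap.comp_apply]
    rw [this, map_zero]
  refine ⟨blk e, fun k' k => ?_, fun Y => ?_, h₁, h₀⟩
  · refine hEND K g N A c hK hA hc _ (U.HDAM.isEndo_of_comm hA ?_)
    refine comm hJ₀ hJ₁ h₁ h₀ (fun X => ?_) k' k
    have hX : X ∈ N₀ ⊔ N₁ := by
      rw [hcompl.sup_eq_top]
      trivial
    obtain ⟨Y, hY, Z, hZ, h⟩ := Submodule.mem_sup.1 hX
    exact ⟨Y, hY, Z, hZ, h.symm⟩
  · rw [prE_blk]
    exact (N₁.projectionOnto N₀ hcompl.symm Y).2

end Pool.Agent.Lib.MPf11a48.AS
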