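import Pool.Agent.Lib.MP_f11a48_ag.AS.SpecF

/-!
# Project AS, module PRD: products of good theta data are good
-/

set_option autoImplicit false

open MvPolynomial Pool.Agent.Lib.MPf11a48.CM Filter Topology

namespace Pool.Agent.Lib.MPf11a48.AS

set_option linter.unusedSectionVars false

namespace PrdM

variable {Z I Λ Z' I' Λ' : Type} [Fintype Z] [Fintype I] [Fintype Λ] [Fintype Z'] [Fintype I']
  [Fintype Λ'] (D : TH Z I Λ) (D' : TH Z' I' Λ')

theorem prod_th (i : I × I') (z : Z ⊕ Z' → ℂ) :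
    (D.prod D').th i z = D.th i.1 (fun k => z (Sum.inl k)) * D'.th i.2 (fun k => z (Sum.inr k)) :=
  rfl

theorem prod_lat_inl (l : Λ) (l' : Z) : (D.prod D').lat (Sum.inl l) (Sum.inl l') = D.lat l l' := rfl
theorem prod_lat_inl' (l : Λ) (l' : Z') : (D.prod D').lat (Sum.inl l) (Sum.inr l') = 0 := rfl
theorem prod_lat_inr (l : Λ') (l' : Z) : (D.prod D').lat (Sum.inr l) (Sum.inl l') = 0 := rfl
theorem prod_lat_inr' (l : Λ') (l' : Z') :
    (D.prod D').lat (Sum.inr l) (Sum.inr l') = D'.lat l l' := rfl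

theorem vec_inl (x : Λ ⊕ Λ' → ℤ) (k : Z) :
    (D.prod D').vec x (Sum.inl k) = D.vec (fun l => x (Sum.inl l)) k := by
  simp only [TH.vec, Finset.sum_apply, Pi.smul_apply, smul_eq_mul, Fintype.sum_sum_type,
    prod_lat_inl, prod_lat_inr, mul_zero, Finset.sum_const_zero, add_zero]

theorem vec_inr (x : Λ ⊕ Λ' → ℤ) (k : Z') :
    (D.prod D').vec x (Sum.inr k) = D'.vec (fun l => x (Sum.inr l)) k := by
  simp only [TH.vec, Finset.sum_apply, Pi.smul_apply, smul_eq_mul, Fintype.sum_sum_type,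
    prod_lat_inl', prod_lat_inr', mul_zero, Finset.sum_const_zero, zero_add]

theorem al_prod (x : Λ ⊕ Λ' → ℤ) (z : Z ⊕ Z' → ℂ) :
    (D.prod D').al x z = D.al (fun l => x (Sum.inl l)) (fun k => z (Sum.inl k)) +
      D'.al (fun l => x (Sum.inr l)) (fun k => z (Sum.inr k)) := by
  rw [TH.al, TH.al, TH.al, Fintype.sum_sum_type, LinearMap.add_apply, LinearMap.sum_apply,
    LinearMap.sum_apply, LinearMap.sum_apply, LinearMap.sum_apply]
  rfl

theorem indep (hD : D.Good) (hD' : D'.Good) : LinearIndependent ℝ (D.prod D').lat := by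
  rw [Fintype.linearIndependent_iff]
  intro g hg
  have h1 := Fintype.linearIndependent_iff.1 hD.indep (fun l => g (Sum.inl l)) (by
    funext k
    have := congrFun hg (Sum.inl k)
    simpa only [Finset.sum_apply, Pi.smul_apply, Fintype.sum_sum_type, prod_lat_inl, prod_lat_inr,
      smul_zero, Finset.sum_const_zero, add_zero, Pi.zero_apply] using this)
  have h2 := Fintype.linearIndependent_iff.1 hD'.indep (fun l => g (Sum.inr l)) (by
    funext k
    have := congrFun hg (Sum.inr k)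
    simpa only [Finset.sum_apply, Pi.smul_apply, Fintype.sum_sum_type, prod_lat_inl', prod_lat_inr',
      smul_zero, Finset.sum_const_zero, zero_add, Pi.zero_apply] using this)
  rintro (l | l)
  · exact h1 l
  · exact h2 l

/-- The two projections. -/
noncomputable def p1 : (Z ⊕ Z' → ℂ) →L[ℂ] (Z → ℂ) :=
  LinearMap.toContinuousLinearMap (LinearMap.funLeft ℂ ℂ Sum.inl)

noncomputable def p2 : (Z ⊕ Z' → ℂ) →L[ℂ] (Z' → ℂ) :=
  LinearMap.toContinuousLinearMap (LinearMap.funLeft ℂ ℂ Sum.inr)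

theorem hasF (hD : D.Good) (hD' : D'.Good) (i : I × I') (z : Z ⊕ Z' → ℂ) :
    HasFDerivAt ((D.prod D').th i)
      (D.th i.1 (p1 z) • (fderiv ℂ (D'.th i.2) (p2 z)).comp (p2 (Z := Z) (Z' := Z')) +
        D'.th i.2 (p2 z) • (fderiv ℂ (D.th i.1) (p1 z)).comp (p1 (Z := Z) (Z' := Z'))) z := by
  have h1 : HasFDerivAt (fun z : Z ⊕ Z' → ℂ => D.th i.1 (p1 z))
      ((fderiv ℂ (D.th i.1) (p1 z)).comp (p1 (Z := Z) (Z' := Z'))) z :=
    ((hD.diff i.1) (p1 z)).hasFDerivAt.comp z (p1 (Z := Z) (Z' := Z')).hasFDerivAt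
  have h2 : HasFDerivAt (fun z : Z ⊕ Z' → ℂ => D'.th i.2 (p2 z))
      ((fderiv ℂ (D'.th i.2) (p2 z)).comp (p2 (Z := Z) (Z' := Z'))) z :=
    ((hD'.diff i.2) (p2 z)).hasFDerivAt.comp z (p2 (Z := Z) (Z' := Z')).hasFDerivAt
  exact h1.mul h2

theorem fd (hD : D.Good) (hD' : D'.Good) (i : I) (i' : I') (z v : Z ⊕ Z' → ℂ) :
    fderiv ℂ ((D.prod D').th (i, i')) z v =
      D.th i (fun k => z (Sum.inl k)) *
          fderiv ℂ (D'.th i') (fun k => z (Sum.inr k)) (fun k => v (Sum.inr k)) +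
        D'.th i' (fun k => z (Sum.inr k)) *
          fderiv ℂ (D.th i) (fun k => z (Sum.inl k)) (fun k => v (Sum.inl k)) := by
  rw [(hasF D D' hD hD' (i, i') z).fderiv]
  rfl

theorem exp4 (a b c d : ℂ) :
    Complex.exp (a + b + (c + d) / 2) = Complex.exp (a + c / 2) * Complex.exp (b + d / 2) := by
  rw [← Complex.exp_add]
  congr 1
  ring

/-- Segre: the first factor. -/
theorem segre {J K : Type} (A C : J → ℂ) (B E : K → ℂ) (hA : ∃ i, A i ≠ 0) (hB : ∃ i, B i ≠ 0)
    (hC : ∃ i, C i ≠ 0) (hE : ∃ i, E i ≠ 0)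
    (h : ∀ i j k l, (A i * B k) * (C j * E l) = (A j * B l) * (C i * E k)) (i j : J) :
    A i * C j = A j * C i := by
  obtain ⟨p, hp⟩ := hA
  obtain ⟨q, hq⟩ := hC
  obtain ⟨k, hk⟩ := hB
  obtain ⟨l, hl⟩ := hE
  have h1 : (A q * B l) * (C p * E k) ≠ 0 := by
    rw [← h]
    exact mul_ne_zero (mul_ne_zero hp hk) (mul_ne_zero hq hl)
  have hEk : E k ≠ 0 := right_ne_zero_of_mul (right_ne_zero_of_mul h1)
  have h2 := h i j k k
  have h3 : (A i * C j - A j * C i) * (B k * E k) = 0 := by linear_combination h2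
  rcases mul_eq_zero.1 h3 with h4 | h4
  · exact sub_eq_zero.1 h4
  · exact absurd h4 (mul_ne_zero hk hEk)

end PrdM

open PrdM in
/-- **PRD.** -/
theorem specPRD : SpecPRD := by
  intro Z I Λ Z' I' Λ' _ _ _ _ _ _ D D' hD hD'
  refine ⟨indep D D' hD hD', ?_, ?_, ?_, ?_, ?_, ?_, ?_, ?_⟩
  · rw [Fintype.card_sum, Fintype.card_sum, hD.card, hD'.card]; ring
  · exact fun i z => (hasF D D' hD hD' i z).differentiableAt
  · intro x i z
    have e1 : (fun k => (z + (D.prod D').vec x) (Sum.inl k)) =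
        (fun k => z (Sum.inl k)) + D.vec (fun l => x (Sum.inl l)) := by
      funext k
      rw [Pi.add_apply, Pi.add_apply, vec_inl]
    have e2 : (fun k => (z + (D.prod D').vec x) (Sum.inr k)) =
        (fun k => z (Sum.inr k)) + D'.vec (fun l => x (Sum.inr l)) := by
      funext k
      rw [Pi.add_apply, Pi.add_apply, vec_inr]
    have e3 : (fun k => (D.prod D').vec x (Sum.inl k)) = D.vec (fun l => x (Sum.inl l)) := by
      funext k; exact vec_inl D D' x k
    have e4 : (fun k => (D.prod D').vec x (Sum.inr k)) = D'.vec (fun l => x (Sum.inr l)) := by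
      funext k; exact vec_inr D D' x k
    rw [prod_th, prod_th, e1, e2, hD.aut, hD'.aut, al_prod, al_prod, e3, e4]
    rw [exp4]
    ring
  · intro z
    obtain ⟨i, hi⟩ := hD.ne fun k => z (Sum.inl k)
    obtain ⟨i', hi'⟩ := hD'.ne fun k => z (Sum.inr k)
    exact ⟨(i, i'), mul_ne_zero hi hi'⟩
  · exact mul_ne_zero hD.zero hD'.zero
  · intro z
    have h1 := hD.even fun k => z (Sum.inl k)
    have h2 := hD'.even fun k => z (Sum.inr k)
    have e1 : (fun k => (-z) (Sum.inl k)) = -(fun k => z (Sum.inl k)) := rfl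
    have e2 : (fun k => (-z) (Sum.inr k)) = -(fun k => z (Sum.inr k)) := rfl
    rw [prod_th, prod_th, e1, e2]
    change D.th D.o _ * D'.th D'.o _ = D.th D.o _ * D'.th D'.o _
    rw [h1, h2]
  · intro z w h
    have hz1 := hD.ne fun k => z (Sum.inl k)
    have hz2 := hD'.ne fun k => z (Sum.inr k)
    have hw1 := hD.ne fun k => w (Sum.inl k)
    have hw2 := hD'.ne fun k => w (Sum.inr k)
    obtain ⟨x, hx⟩ := hD.inj (fun k => z (Sum.inl k)) (fun k => w (Sum.inl k)) fun i j =>
      segre _ _ _ _ hz1 hz2 hw1 hw2 (fun i j k l => h (i, k) (j, l)) i j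
    obtain ⟨y, hy⟩ := hD'.inj (fun k => z (Sum.inr k)) (fun k => w (Sum.inr k)) fun i j =>
      segre _ _ _ _ hz2 hz1 hw2 hw1 (fun i j k l => by
        have := h (k, i) (l, j)
        rw [prod_th, prod_th, prod_th, prod_th] at this
        dsimp only at this
        linear_combination this) i j
    refine ⟨Sum.elim x y, ?_⟩
    funext k
    rcases k with k | k
    · rw [vec_inl]
      exact congrFun hx k
    · rw [vec_inr]
      exact congrFun hy k
  · intro z v hv
    have hv' : (fun k => v (Sum.inl k)) ≠ 0 ∨ (fun k => v (Sum.inr k)) ≠ 0 := by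
      by_contra hcon
      push Not at hcon
      apply hv
      funext k
      rcases k with k | k
      · exact congrFun hcon.1 k
      · exact congrFun hcon.2 k
    rcases hv' with h1 | h1
    · obtain ⟨i, j, hij⟩ := hD.imm (fun k => z (Sum.inl k)) _ h1
      obtain ⟨k, hk⟩ := hD'.ne fun k => z (Sum.inr k)
      refine ⟨(i, k), (j, k), ?_⟩
      rw [fd D D' hD hD', fd D D' hD hD', prod_th, prod_th]
      intro hcon
      apply hij
      dsimp only at hcon
      have h2 := mul_ne_zero hk hk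
      apply mul_left_cancel₀ h2
      linear_combination hcon
    · obtain ⟨i, j, hij⟩ := hD'.imm (fun k => z (Sum.inr k)) _ h1
      obtain ⟨k, hk⟩ := hD.ne fun k => z (Sum.inl k)
      refine ⟨(k, i), (k, j), ?_⟩
      rw [fd D D' hD hD', fd D D' hD hD', prod_th, prod_th]
      intro hcon
      apply hij
      dsimp only at hcon
      have h2 := mul_ne_zero hk hk
      apply mul_left_cancel₀ h2
      linear_combination hcon

end Pool.Agent.Lib.MPf11a48.AS
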