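import Pool.Agent.Lib.MP_f11a48_ag.AS.SpecF
import Pool.Agent.Lib.MP_f11a48_ag.AS.SpecZ

/-!
# Project AS, module PTS: coordinates and idempotents at finitely many points
-/

set_option autoImplicit false

open MvPolynomial Pool.Agent.Lib.MPf11a48.CM Filter Topology Asymptotics

namespace Pool.Agent.Lib.MPf11a48.AS

namespace PTSM

variable {β : ℕ} {I Λ : Type} (D : QD β I Λ)

theorem ev_X (z : Fin β → ℂ) (ρ : ℂ) (i : Option I) :
    D.ev z ρ (X i) = Option.elim i (D.ze z + ρ) fun i => D.f i z := by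
  unfold QD.ev
  rw [aeval_X]

theorem ev_C (z : Fin β → ℂ) (ρ : ℂ) (a : ℂ) : D.ev z ρ (C a) = a := by
  rw [← algebraMap_eq, AlgHom.commutes]
  rfl

theorem ev_rename (z : Fin β → ℂ) (ρ : ℂ) (p : MvPolynomial I ℂ) :
    D.ev z ρ (rename some p) = eval (D.fv z) p := by
  unfold QD.ev
  rw [aeval_rename, ← coe_aeval_eq_eval]
  rfl

theorem dl_X (c : Option (Fin β)) (i : Option I) : D.dl c (X i) = D.pp i c := by
  unfold QD.dl
  rw [mkDerivation_X]

theorem dl_C (c : Option (Fin β)) (a : ℂ) : D.dl c (C a) = 0 := by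
  rw [← algebraMap_eq, Derivation.map_algebraMap]

theorem dl_C_mul (c : Option (Fin β)) (a : ℂ) (P : MvPolynomial (Option I) ℂ) :
    D.dl c (C a * P) = C a * D.dl c P := by
  rw [Derivation.leibniz, dl_C, smul_zero, add_zero, smul_eq_mul]

/-- left inverse of the Jacobian matrix -/
theorem exists_left [Fintype I] (M : I → Fin β → ℂ)
    (hM : ∀ v : Fin β → ℂ, (∀ i, ∑ k, v k * M i k = 0) → v = 0) :
    ∃ A : Fin β → I → ℂ, ∀ j k, ∑ i, A j i * M i k = if j = k then 1 else 0 := by
  classical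
  let F : (Fin β → ℂ) →ₗ[ℂ] (I → ℂ) :=
    { toFun := fun v i => ∑ k, v k * M i k
      map_add' := fun v w => by
        funext i
        simp only [Pi.add_apply, add_mul, Finset.sum_add_distrib]
      map_smul' := fun c v => by
        funext i
        simp only [Pi.smul_apply, smul_eq_mul, RingHom.id_apply, Finset.mul_sum, mul_assoc] }
  have hker : LinearMap.ker F = ⊥ := by
    rw [LinearMap.ker_eq_bot']
    intro v hv
    exact hM v fun i => congrFun hv i
  obtain ⟨g, hg⟩ := LinearMap.exists_leftInverse_of_injective F hker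
  refine ⟨fun j i => g (Pi.single i 1) j, fun j k => ?_⟩
  have h1 : g (F (Pi.single k 1)) = Pi.single k 1 := by
    have := congrArg (fun φ : (Fin β → ℂ) →ₗ[ℂ] (Fin β → ℂ) => φ (Pi.single k 1)) hg
    simpa using this
  have h2 : F (Pi.single k 1) = ∑ i, M i k • (Pi.single i 1 : I → ℂ) := by
    funext i
    show ∑ l, (Pi.single k (1 : ℂ) : Fin β → ℂ) l * M i l = _
    rw [Finset.sum_apply, Finset.sum_eq_single k, Finset.sum_eq_single i]
    · simp
    · intro b _ hb
      simp [hb.symm]
    · simp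
    · intro b _ hb
      simp [hb]
    · simp
  rw [h2, map_sum] at h1
  have h3 := congrFun h1 j
  rw [Finset.sum_apply] at h3
  rw [← Pi.single_apply, ← h3]
  refine Finset.sum_congr rfl fun i _ => ?_
  rw [map_smul, Pi.smul_apply, smul_eq_mul, mul_comm]

theorem exists_Y [Fintype I] [Fintype Λ] (hBAS : SpecBAS) (hD : D.Good) (z : Fin β → ℂ)
    (hz : D.th D.o z ≠ 0) : ∃ Y : Option (Fin β) → MvPolynomial (Option I) ℂ,
    (∀ c, D.ev z 0 (Y c) = 0) ∧
    ∀ c c', D.ev z 0 (D.dl c' (Y c)) = if c = c' then 1 else 0 := by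
  classical
  obtain ⟨A, hA⟩ := exists_left (fun i k => eval (D.fv z) (D.p i k)) (by
    intro v hv
    refine (hBAS D.toTH hD.good).2.2.2.2.1 z v hz fun i => ?_
    have h1 : v = ∑ k, v k • (Pi.single k 1 : Fin β → ℂ) := by
      funext l
      simp [Finset.sum_apply, Pi.single_apply]
    rw [h1, map_sum, ← hv i]
    refine Finset.sum_congr rfl fun k _ => ?_
    rw [map_smul, hD.f_deriv i k z hz, smul_eq_mul])
  set Ys : Fin β → MvPolynomial (Option I) ℂ := fun j =>
    ∑ i, C (A j i) * (X (some i) - C (D.f i z)) with hYs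
  have hY0 : ∀ j, D.ev z 0 (Ys j) = 0 := by
    intro j
    rw [hYs]
    simp only [map_sum, map_mul, map_sub, ev_C, ev_X, Option.elim_some, sub_self, mul_zero,
      Finset.sum_const_zero]
  have hYd : ∀ j k, D.ev z 0 (D.dl (some k) (Ys j)) = if j = k then 1 else 0 := by
    intro j k
    rw [hYs, ← hA j k]
    simp only [map_sum, dl_C_mul, map_mul, map_sub, ev_C, dl_C, dl_X, sub_zero]
    refine Finset.sum_congr rfl fun i _ => ?_
    congr 1
    exact ev_rename D z 0 (D.p i k)
  have hYn : ∀ j, D.dl none (Ys j) = 0 := by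
    intro j
    rw [hYs]
    simp only [map_sum, dl_C_mul, map_sub, dl_C, dl_X, sub_zero]
    refine Finset.sum_eq_zero fun i _ => ?_
    show C (A j i) * 0 = 0
    rw [mul_zero]
  refine ⟨fun c => Option.elim c
    (X none - C (D.ze z) - ∑ j, C (eval (D.fv z) (D.q j)) * Ys j) Ys, ?_, ?_⟩
  · intro c
    rcases c with _ | j
    · simp only [Option.elim_none, map_sub, map_sum, map_mul, ev_C, ev_X, hY0, mul_zero,
        Finset.sum_const_zero, add_zero, sub_self]
    · exact hY0 j
  · intro c c'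
    rcases c with _ | j <;> rcases c' with _ | k
    · simp only [Option.elim_none, map_sub, map_sum, dl_C_mul, dl_C, dl_X, hYn, mul_zero,
        Finset.sum_const_zero, sub_zero, if_true]
      show D.ev z 0 1 = 1
      rw [map_one]
    · simp only [Option.elim_none, map_sub, map_sum, dl_C_mul, dl_C, dl_X, map_mul, ev_C, hYd,
        sub_zero, reduceCtorEq, if_false]
      have h1 : D.ev z 0 (D.pp none (some k)) = eval (D.fv z) (D.q k) := ev_rename D z 0 (D.q k)
      rw [h1]
      simp
    · simp only [Option.elim_some, hYn, map_zero, reduceCtorEq, if_false]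
    · simp only [Option.elim_some, hYd, Option.some.injEq]

end PTSM

open PTSM in
theorem specPTS (hBAS : SpecBAS) : SpecPTS := by
  classical
  intro β I Λ _ _ D hD Γ _ _ z hz hinj
  choose Y hY0 hYd using fun γ => exists_Y D hBAS hD (z γ) (hz γ)
  have hne : ∀ γ γ', γ' ≠ γ → ∃ i, D.f i (z γ') ≠ D.f i (z γ) := by
    intro γ γ' h
    by_contra hc
    push Not at hc
    exact h (hinj γ' γ (funext hc))
  have : Nonempty I := ⟨D.o⟩
  choose! i hi using hne
  refine ⟨Y, fun γ => ∏ γ' ∈ Finset.univ.erase γ,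
    (C ((D.f (i γ γ') (z γ) - D.f (i γ γ') (z γ'))⁻¹) *
      (X (some (i γ γ')) - C (D.f (i γ γ') (z γ')))), hY0, hYd, ?_⟩
  intro γ γ'
  rw [map_prod]
  simp only [map_mul, map_sub, ev_C, ev_X, Option.elim_some]
  split_ifs with h
  · subst h
    refine Finset.prod_eq_one fun γ' hγ' => ?_
    have h1 := hi γ γ' (Finset.ne_of_mem_erase hγ')
    exact inv_mul_cancel₀ (sub_ne_zero.2 h1.symm)
  · refine Finset.prod_eq_zero (Finset.mem_erase.2 ⟨fun h' => h h'.symm, Finset.mem_univ γ'⟩) ?_
    rw [sub_self, mul_zero]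

end Pool.Agent.Lib.MPf11a48.AS
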