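import Pool.Agent.Lib.MP_f11a48_ag.AS.SpecZ

/-!
# Project AS, block Z, module PWR: powers of an ideal of finite codimension
-/

set_option autoImplicit false

open MvPolynomial

namespace Pool.Agent.Lib.MPf11a48.AS

namespace PWRM

/-- representatives of bounded degree -/
theorem rep {σ : Type} [Fintype σ] (J : Ideal (MvPolynomial σ ℂ))
    (h : Module.Finite ℂ (MvPolynomial σ ℂ ⧸ J)) :
    ∃ M : ℕ, ∀ a : MvPolynomial σ ℂ, ∃ u : MvPolynomial σ ℂ, u.totalDegree ≤ M ∧ a - u ∈ J := by
  classical
  obtain ⟨s, hs⟩ := h.fg_top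
  choose g hg using fun x : MvPolynomial σ ℂ ⧸ J => Ideal.Quotient.mk_surjective x
  refine ⟨s.sup fun x => (g x).totalDegree, fun a => ?_⟩
  have key : ∀ x ∈ Submodule.span ℂ (s : Set (MvPolynomial σ ℂ ⧸ J)),
      ∃ u : MvPolynomial σ ℂ, u.totalDegree ≤ s.sup (fun x => (g x).totalDegree) ∧
        Ideal.Quotient.mk J u = x := by
    intro x hx
    induction hx using Submodule.span_induction with
    | mem y hy => exact ⟨g y, Finset.le_sup (f := fun x => (g x).totalDegree) hy, hg y⟩
    | zero => exact ⟨0, by simp, by simp⟩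
    | add y z _ _ hy hz =>
      obtain ⟨u, hu, hu'⟩ := hy
      obtain ⟨v, hv, hv'⟩ := hz
      exact ⟨u + v, (totalDegree_add _ _).trans (max_le hu hv), by rw [map_add, hu', hv']⟩
    | smul c y _ hy =>
      obtain ⟨u, hu, hu'⟩ := hy
      refine ⟨c • u, (totalDegree_smul_le _ _).trans hu, ?_⟩
      rw [← hu']
      rfl
  obtain ⟨u, hu, hu'⟩ := key (Ideal.Quotient.mk J a) (by rw [hs]; exact Submodule.mem_top)
  refine ⟨u, hu, ?_⟩
  rw [← Ideal.Quotient.eq, hu']

end PWRM

open PWRM in
theorem specPWR : SpecPWR := by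
  intro σ _ n G D hG hfin
  obtain ⟨M, hM⟩ := rep _ hfin
  refine ⟨M, fun k => ?_⟩
  induction k with
  | zero =>
    intro a
    refine ⟨0, by simp, ?_⟩
    rw [pow_zero, Ideal.one_eq_top, sup_top_eq]
    exact Submodule.mem_top
  | succ k ih =>
    intro a
    have key : ∀ x ∈ Ideal.span G, ∀ b : MvPolynomial σ ℂ, ∃ v : MvPolynomial σ ℂ,
        v.totalDegree ≤ M + (k + 1) * D ∧ b * x - v ∈ n ⊔ Ideal.span G ^ (k + 1) := by
      intro x hx
      induction hx using Submodule.span_induction with
      | mem g hg =>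
        intro b
        obtain ⟨v, hv, hv'⟩ := ih b
        refine ⟨g * v, ?_, ?_⟩
        · have h1 := totalDegree_mul g v
          have h2 := hG g hg
          have h3 : (k + 1) * D = k * D + D := by ring
          omega
        · rw [Submodule.mem_sup] at hv' ⊢
          obtain ⟨ν, hν, r, hr, hsum⟩ := hv'
          refine ⟨g * ν, n.mul_mem_left _ hν, r * g, ?_, ?_⟩
          · rw [pow_succ]
            exact Ideal.mul_mem_mul hr (Ideal.subset_span hg)
          · have : b * g - g * v = g * (b - v) := by ring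
            rw [this, ← hsum]
            ring
      | zero =>
        intro b
        refine ⟨0, by simp, ?_⟩
        rw [mul_zero, sub_zero]
        exact Submodule.zero_mem _
      | add y z _ _ hy hz =>
        intro b
        obtain ⟨u, hu, hu'⟩ := hy b
        obtain ⟨v, hv, hv'⟩ := hz b
        refine ⟨u + v, (totalDegree_add _ _).trans (max_le hu hv), ?_⟩
        have : b * (y + z) - (u + v) = (b * y - u) + (b * z - v) := by ring
        rw [this]
        exact Submodule.add_mem _ hu' hv'
      | smul c y _ hy =>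
        intro b
        obtain ⟨u, hu, hu'⟩ := hy (b * c)
        refine ⟨u, hu, ?_⟩
        rw [smul_eq_mul, ← mul_assoc]
        exact hu'
    obtain ⟨u, hu, hu'⟩ := hM a
    rw [Submodule.mem_sup] at hu'
    obtain ⟨ν, hν, x, hx, hsum⟩ := hu'
    obtain ⟨v, hv, hv'⟩ := key x hx 1
    refine ⟨u + v, (totalDegree_add _ _).trans (max_le (by omega) hv), ?_⟩
    have : a - (u + v) = ν + (1 * x - v) := by
      rw [← sub_sub, ← hsum]; ring
    rw [this]
    exact Submodule.add_mem _ (Submodule.mem_sup_left hν) hv'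

end Pool.Agent.Lib.MPf11a48.AS
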