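import Pool.Agent.Lib.MP_f11a48_ag.AS.Clo
import Pool.Agent.Lib.MP_f11a48_ag.U.Quasi

/-!
# Project AS, module QUA

An additive function which is algebraic over the periodic functions has no quasi-periods.
-/

set_option autoImplicit false

open MvPolynomial Pool.Agent.Lib.MPf11a48.CM Filter Topology

namespace Pool.Agent.Lib.MPf11a48.AS

namespace QUAM

variable {β : ℕ} {I Λ : Type}

/-- Pairs (period, quasi-period). -/
def PerG (D : QD β I Λ) : AddSubgroup ((Fin β → ℂ) × ℂ) where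
  carrier := {p | (∀ z, D.th D.o (z + p.1) ≠ 0 ↔ D.th D.o z ≠ 0) ∧
    (∀ i z, D.th D.o z ≠ 0 → D.f i (z + p.1) = D.f i z) ∧
    ∀ z, D.th D.o z ≠ 0 → D.ze (z + p.1) = D.ze z + p.2}
  zero_mem' := by simp
  add_mem' := by
    rintro ⟨a, a'⟩ ⟨b, b'⟩ ⟨h1, h2, h3⟩ ⟨k1, k2, k3⟩
    simp only [Set.mem_ofPred_eq, Prod.mk_add_mk] at h1 h2 h3 k1 k2 k3 ⊢
    refine ⟨fun z => ?_, fun i z hz => ?_, fun z hz => ?_⟩
    · rw [← add_assoc, k1, h1]
    · rw [← add_assoc, k2 i _ ((h1 z).2 hz), h2 i z hz]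
    · rw [← add_assoc, k3 _ ((h1 z).2 hz), h3 z hz, add_assoc]
  neg_mem' := by
    rintro ⟨a, a'⟩ ⟨h1, h2, h3⟩
    simp only [Set.mem_ofPred_eq, Prod.neg_mk] at h1 h2 h3 ⊢
    have h0 : ∀ z, D.th D.o (z + -a) ≠ 0 ↔ D.th D.o z ≠ 0 := by
      intro z
      have := h1 (z + -a)
      rw [neg_add_cancel_right] at this
      exact this.symm
    refine ⟨h0, fun i z hz => ?_, fun z hz => ?_⟩
    · have := h2 i (z + -a) ((h0 z).2 hz)
      rw [neg_add_cancel_right] at this
      exact this.symm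
    · have := h3 (z + -a) ((h0 z).2 hz)
      rw [neg_add_cancel_right] at this
      rw [this]
      ring

variable [Fintype I] [Fintype Λ]

theorem vec_single [DecidableEq Λ] (D : TH (Fin β) I Λ) (a : Λ) :
    D.vec (Pi.single a (1 : ℤ)) = D.lat a := by
  unfold TH.vec
  rw [Finset.sum_eq_single a]
  · simp
  · intro b _ hb
    simp [Pi.single_eq_of_ne hb]
  · simp

theorem gen_mem (hB : SpecBAS) (D : QD β I Λ) (hD : D.Good) (a : Λ) :
    (D.lat a, D.ell a) ∈ PerG D := by
  classical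
  obtain ⟨hper, -⟩ := hB D.toTH hD.good
  have h1 := fun z => hper (Pi.single a 1) z
  rw [vec_single] at h1
  exact ⟨fun z => (h1 z).1, fun i z _ => congrFun (h1 z).2 i, fun z hz => hD.per a z hz⟩

theorem comb_mem (hB : SpecBAS) (D : QD β I Λ) (hD : D.Good) (x : Λ → ℤ) :
    (D.vec x, D.L x) ∈ PerG D := by
  have h1 : (D.vec x, D.L x) = ∑ a, x a • (D.lat a, D.ell a) := by
    refine Prod.ext ?_ ?_
    · rw [Prod.fst_sum]
      refine Finset.sum_congr rfl fun a _ => ?_
      rw [Prod.smul_fst, Int.cast_smul_eq_zsmul]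
    · rw [Prod.snd_sum]
      refine Finset.sum_congr rfl fun a _ => ?_
      rw [Prod.smul_snd, zsmul_eq_mul]
  rw [h1]
  exact AddSubgroup.sum_mem _ fun a _ => AddSubgroup.zsmul_mem _ (gen_mem hB D hD a) _

end QUAM

open QUAM in
theorem specQUA (hB : SpecBAS) : SpecQUA := by
  intro β I Λ _ _ D hD U hrel x hxU
  by_contra hne
  obtain ⟨s, hs⟩ := CLOM.exists_indices hB D.toTH hD.good U _ le_rfl
  obtain ⟨P, hP0, hP⟩ := hrel s
  set lam : Fin β → ℂ := D.vec x with hlam
  set q : ℂ := D.L x with hq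
  have hq0 : q ≠ 0 := hne
  -- periodicity
  have hper : (lam, q) ∈ PerG D := comb_mem hB D hD x
  have hpern : ∀ n : ℕ, (n • lam, (n : ℂ) * q) ∈ PerG D := by
    intro n
    have h1 := AddSubgroup.nsmul_mem (PerG D) hper n
    convert h1 using 1
    refine Prod.ext rfl ?_
    simp
  have hY : ∀ z, D.th D.o z ≠ 0 → ∀ n : ℕ, D.ze (z + n • lam) = D.ze z + n * q := by
    intro z hz n
    obtain ⟨-, -, h3⟩ := hpern n
    exact h3 z hz
  -- all coefficients vanish
  set Q := optionEquivLeft ℂ (Fin (Module.finrank ℂ U)) P with hQ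
  have hQ0 : Q ≠ 0 := by
    rw [hQ]
    simpa using hP0
  have hcoef : ∀ z ∈ U, D.th D.o z ≠ 0 → ∀ j, aeval (fun k => D.f (s k) z) (Q.coeff j) = 0 := by
    intro z hzU hz j
    set R : Polynomial ℂ := Q.map (aeval (fun k => D.f (s k) z) :
      MvPolynomial (Fin (Module.finrank ℂ U)) ℂ →ₐ[ℂ] ℂ).toRingHom with hR
    have hzero : ∀ n : ℕ, R.eval (D.ze z + n * q) = 0 := by
      intro n
      obtain ⟨h1, h2, -⟩ := hpern n
      have h3 : D.th D.o (z + n • lam) ≠ 0 := (h1 z).2 hz
      have h4 := hP (z + n • lam) (U.add_mem hzU (U.nsmul_mem hxU n)) h3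
      rw [hY z hz n] at h4
      have h5 : (fun k => D.f (s k) (z + n • lam)) = fun k => D.f (s k) z := by
        funext k
        exact h2 (s k) z hz
      have h6 := Pool.Agent.Lib.MPf11a48.U.Quasi.aeval_option P (D.ze z + n * q)
        (fun k => D.f (s k) (z + n • lam))
      have h7 := DFunLike.congr_fun (coe_aeval_eq_eval
        (fun k => Option.elim k (D.ze z + n * q) fun k => D.f (s k) (z + n • lam))) P
      rw [show aeval (fun k => Option.elim k (D.ze z + n * q) fun k => D.f (s k) (z + n • lam)) P =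
        0 from h7.trans h4, h5] at h6
      exact h6.symm
    have hR0 : R = 0 := by
      refine Polynomial.eq_zero_of_infinite_isRoot R ?_
      refine Set.infinite_of_injective_forall_mem
        (f := fun n : ℕ => D.ze z + n * q) ?_ hzero
      intro m n hmn
      have h7 : (m : ℂ) * q = n * q := add_left_cancel hmn
      exact_mod_cast mul_right_cancel₀ hq0 h7
    have h8 := congrArg (fun p : Polynomial ℂ => p.coeff j) hR0
    simpa [hR, Polynomial.coeff_map] using h8
  obtain ⟨j, hj⟩ : ∃ j, Q.coeff j ≠ 0 := by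
    by_contra h9
    push Not at h9
    exact hQ0 (Polynomial.ext fun j => by simpa using h9 j)
  have han := (hB D.toTH hD.good).2.1
  refine hj (Pool.Agent.Lib.MPf11a48.U.specJAC U _ (fun k => D.f (s k))
    (fun k => han (s k) 0 hD.good.zero) hs (Q.coeff j) ?_)
  have h10 : ∀ᶠ z in 𝓝 (0 : Fin β → ℂ), D.th D.o z ≠ 0 :=
    (hD.good.diff D.o).continuous.continuousAt.eventually_ne hD.good.zero
  filter_upwards [h10] with z hz hzU
  exact hcoef z hzU hz j

end Pool.Agent.Lib.MPf11a48.AS
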