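import Pool.Agent.Lib.MP_f11a48_ag.AS.SpecT
import Pool.Agent.Lib.MP_f11a48_ag.U.Red

/-!
# Project AS, module RDC: reduction to integral data
-/

set_option autoImplicit false

open MvPolynomial Pool.Agent.Lib.MPf11a48.CM Filter Topology Asymptotics NumberField
open Pool.Agent.Lib.MPf11a48.U (oEmb)

namespace Pool.Agent.Lib.MPf11a48.AS

namespace RDCM

/-! ## Scaling of polynomials -/

/-- The scaled polynomial. -/
noncomputable def sp {I : Type} [Fintype I] (u : ℂ) (c : I → ℂ) (P : MvPolynomial I ℂ) :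
    MvPolynomial I ℂ :=
  ∑ m ∈ P.support, monomial m (u * (P.coeff m * ∏ i, c i ^ m i))

theorem coeff_sp {I : Type} [Fintype I] (u : ℂ) (c : I → ℂ) (P : MvPolynomial I ℂ) (m : I →₀ ℕ) :
    (sp u c P).coeff m = u * (P.coeff m * ∏ i, c i ^ m i) := by
  classical
  rw [sp, coeff_sum]
  simp only [coeff_monomial]
  rw [Finset.sum_ite_eq' P.support m]
  split_ifs with h
  · rfl
  · rw [notMem_support_iff.1 h]
    ring

theorem eval_sp {I : Type} [Fintype I] (u : ℂ) (c : I → ℂ) (P : MvPolynomial I ℂ) (x : I → ℂ) :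
    eval x (sp u c P) = u * eval (fun i => c i * x i) P := by
  rw [sp, map_sum, eval_eq' (fun i => c i * x i) P, Finset.mul_sum]
  apply Finset.sum_congr rfl
  intro m _
  rw [eval_monomial, Finsupp.prod_fintype _ _ (fun _ => pow_zero _)]
  simp only [mul_pow, Finset.prod_mul_distrib]
  ring

/-- Lifting a polynomial with integral coefficients. -/
theorem lift {J : Type} (K : IntermediateField ℚ ℂ) (P : MvPolynomial J ℂ)
    (h : ∀ m, P.coeff m ∈ K ∧ IsIntegral ℤ (P.coeff m)) :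
    ∃ P' : MvPolynomial J (𝓞 K), map (oEmb (algebraMap K ℂ)) P' = P := by
  choose y hy using fun m => U.RedM.exists_int K (P.coeff m) (h m).1 (h m).2
  refine ⟨∑ m ∈ P.support, monomial m (y m), ?_⟩
  rw [map_sum]
  simp only [map_monomial, hy]
  exact P.support_sum_monomial_coeff

/-- Chain rule for a scaling. -/
theorem fd {β : ℕ} (g : (Fin β → ℂ) → ℂ) (c M : ℂ) (z v : Fin β → ℂ)
    (hg : DifferentiableAt ℂ g (M • z)) :
    fderiv ℂ (fun w => c * g (M • w)) z v = c * (M * fderiv ℂ g (M • z) v) := by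
  have h1 : HasFDerivAt (fun w : Fin β → ℂ => M • w)
      (M • ContinuousLinearMap.id ℂ (Fin β → ℂ)) z := (hasFDerivAt_id z).const_smul M
  have h2 := (hg.hasFDerivAt.comp z h1).const_mul c
  have h3 := h2.fderiv
  simp only [Function.comp_def] at h3
  rw [h3]
  simp

/-! ## Scaling of the data -/

variable {β : ℕ} {I Λ : Type}

open Classical in
/-- the scaling factors -/
noncomputable def sf (o : I) (N : ℕ) (i : I) : ℂ := if i = o then 1 else N

theorem sf_o (o : I) (N : ℕ) : sf o N o = 1 := if_pos rfl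

theorem sf_cases (o : I) (N : ℕ) (i : I) : (i = o ∧ sf o N i = 1) ∨ sf o N i = N := by
  classical
  by_cases h : i = o
  · exact Or.inl ⟨h, if_pos h⟩
  · exact Or.inr (if_neg h)

theorem sf_ne (o : I) {N : ℕ} (hN : N ≠ 0) (i : I) : sf o N i ≠ 0 := by
  rcases sf_cases o N i with ⟨_, h⟩ | h
  · rw [h]
    exact one_ne_zero
  · rw [h]
    exact Nat.cast_ne_zero.2 hN

theorem sf_Qbar (o : I) (N : ℕ) (i : I) : sf o N i ∈ Qbar := by
  rcases sf_cases o N i with ⟨_, h⟩ | h
  · rw [h]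
    exact one_mem _
  · rw [h]
    exact natCast_mem _ _

theorem sf_int (o : I) (N : ℕ) (i : I) : IsIntegral ℤ (sf o N i) := by
  rcases sf_cases o N i with ⟨_, h⟩ | h
  · rw [h]
    exact isIntegral_one
  · rw [h]
    exact isIntegral_natCast N

/-- The scaled data. -/
noncomputable def sD [Fintype I] (D : QD β I Λ) (N M : ℕ) : QD β I Λ where
  o := D.o
  th := fun i z => sf D.o N i * D.th i ((M : ℂ) • z)
  lat := fun l => (M : ℂ)⁻¹ • D.lat l
  a := fun l => (M : ℂ) • D.a l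
  m := D.m
  Y := fun z => (N : ℂ) * D.Y ((M : ℂ) • z)
  ell := fun l => (N : ℂ) * D.ell l
  p := fun i j => sp (sf D.o N i * M) (fun k => (sf D.o N k)⁻¹) (D.p i j)
  q := fun j => sp ((N : ℂ) * M) (fun k => (sf D.o N k)⁻¹) (D.q j)

variable [Fintype I] (D : QD β I Λ) (N M : ℕ)

theorem tho (z : Fin β → ℂ) : (sD D N M).th (sD D N M).o z = D.th D.o ((M : ℂ) • z) := by
  change sf D.o N D.o * D.th D.o ((M : ℂ) • z) = _
  rw [sf_o, one_mul]

theorem f_eq (i : I) (z : Fin β → ℂ) : (sD D N M).f i z = sf D.o N i * D.f i ((M : ℂ) • z) := by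
  unfold TH.f
  rw [tho]
  change sf D.o N i * D.th i ((M : ℂ) • z) / _ = _
  rw [mul_div_assoc]

theorem ze_eq (z : Fin β → ℂ) : (sD D N M).ze z = N * D.ze ((M : ℂ) • z) := by
  unfold QD.ze
  rw [tho]
  change (N : ℂ) * D.Y ((M : ℂ) • z) / _ = _
  rw [mul_div_assoc]
  rfl

theorem vec_eq [Fintype Λ] (x : Λ → ℤ) : (sD D N M).vec x = (M : ℂ)⁻¹ • D.vec x := by
  unfold TH.vec
  rw [Finset.smul_sum]
  apply Finset.sum_congr rfl
  intro l _
  exact smul_comm _ _ _

theorem al_eq [Fintype Λ] (x : Λ → ℤ) : (sD D N M).al x = (M : ℂ) • D.al x := by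
  unfold TH.al
  rw [Finset.smul_sum]
  apply Finset.sum_congr rfl
  intro l _
  exact smul_comm _ _ _

theorem L_eq [Fintype Λ] (x : Λ → ℤ) : (sD D N M).L x = (N : ℂ) * D.L x := by
  unfold QD.L
  rw [Finset.mul_sum]
  apply Finset.sum_congr rfl
  intro l _
  change (x l : ℂ) * ((N : ℂ) * D.ell l) = _
  ring

theorem M_smul {M : ℕ} (hM : M ≠ 0) (v : Fin β → ℂ) : (M : ℂ) • (M : ℂ)⁻¹ • v = v := by
  rw [smul_smul, mul_inv_cancel₀ (Nat.cast_ne_zero.2 hM), one_smul]

theorem diff_f {D : QD β I Λ} [Fintype Λ] (h : D.toTH.Good) (i : I) {z : Fin β → ℂ}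
    (hz : D.th D.o z ≠ 0) : DifferentiableAt ℂ (D.f i) z := by
  have e : D.f i = fun w => D.th i w * (D.th D.o w)⁻¹ := by
    funext w
    rw [← div_eq_mul_inv]
    rfl
  rw [e]
  exact (h.diff i z).fun_mul ((h.diff D.o z).fun_inv hz)

theorem diff_ze {D : QD β I Λ} [Fintype Λ] (h : D.Good) {z : Fin β → ℂ}
    (hz : D.th D.o z ≠ 0) : DifferentiableAt ℂ D.ze z := by
  have e : D.ze = fun w => D.Y w * (D.th D.o w ^ D.m)⁻¹ := by
    funext w
    rw [← div_eq_mul_inv]
    rfl
  rw [e]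
  exact (h.Y_diff z).fun_mul (((h.good.diff D.o z).fun_pow D.m).fun_inv (pow_ne_zero _ hz))

theorem goodTH {D : QD β I Λ} [Fintype Λ] (h : D.toTH.Good) {N M : ℕ} (hN : N ≠ 0) (hM : M ≠ 0) :
    (sD D N M).toTH.Good := by
  have hMC : (M : ℂ) ≠ 0 := Nat.cast_ne_zero.2 hM
  refine ⟨?_, h.card, ?_, ?_, ?_, ?_, ?_, ?_, ?_⟩
  · have hMR : ((M : ℝ)⁻¹) ≠ 0 := inv_ne_zero (Nat.cast_ne_zero.2 hM)
    have h1 := h.indep.units_smul (fun _ => Units.mk0 ((M : ℝ)⁻¹) hMR)
    convert h1 using 1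
    funext l
    change (M : ℂ)⁻¹ • D.lat l = ((M : ℝ)⁻¹) • D.lat l
    ext k
    simp
  · intro i
    exact ((h.diff i).comp (differentiable_id.const_smul (M : ℂ))).const_mul (sf D.o N i)
  · intro x i z
    rw [al_eq, vec_eq]
    change sf D.o N i * D.th i ((M : ℂ) • (z + (M : ℂ)⁻¹ • D.vec x)) =
      _ * (sf D.o N i * D.th i ((M : ℂ) • z))
    rw [smul_add, M_smul hM, h.aut x i]
    have e1 : ((M : ℂ) • D.al x) z = D.al x ((M : ℂ) • z) := by
      rw [LinearMap.smul_apply, map_smul]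
    have e2 : ((M : ℂ) • D.al x) ((M : ℂ)⁻¹ • D.vec x) = D.al x (D.vec x) := by
      rw [LinearMap.smul_apply, ← map_smul, M_smul hM]
    rw [e1, e2]
    ring
  · intro z
    obtain ⟨i, hi⟩ := h.ne ((M : ℂ) • z)
    exact ⟨i, mul_ne_zero (sf_ne D.o hN i) hi⟩
  · rw [tho, smul_zero]
    exact h.zero
  · intro z
    rw [tho, tho, smul_neg]
    exact h.even _
  · intro z w hzw
    obtain ⟨x, hx⟩ := h.inj ((M : ℂ) • z) ((M : ℂ) • w) (fun i j => by
      have h1 : sf D.o N i * D.th i ((M : ℂ) • z) * (sf D.o N j * D.th j ((M : ℂ) • w)) =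
        sf D.o N j * D.th j ((M : ℂ) • z) * (sf D.o N i * D.th i ((M : ℂ) • w)) := hzw i j
      apply mul_left_cancel₀ (mul_ne_zero (sf_ne D.o hN i) (sf_ne D.o hN j))
      linear_combination h1)
    refine ⟨x, ?_⟩
    rw [vec_eq, ← hx, ← smul_sub, smul_smul, inv_mul_cancel₀ hMC, one_smul]
  · intro z v hv
    obtain ⟨i, j, hij⟩ := h.imm ((M : ℂ) • z) v hv
    refine ⟨i, j, fun h1 => hij ?_⟩
    have e : ∀ k, fderiv ℂ ((sD D N M).th k) z v =
        sf D.o N k * (M * fderiv ℂ (D.th k) ((M : ℂ) • z) v) := fun k =>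
      fd (D.th k) (sf D.o N k) M z v (h.diff k _)
    rw [e i, e j] at h1
    have h2 : sf D.o N i * D.th i ((M : ℂ) • z) *
        (sf D.o N j * (M * fderiv ℂ (D.th j) ((M : ℂ) • z) v)) =
      sf D.o N j * D.th j ((M : ℂ) • z) *
        (sf D.o N i * (M * fderiv ℂ (D.th i) ((M : ℂ) • z) v)) := h1
    apply mul_left_cancel₀ (mul_ne_zero (mul_ne_zero (sf_ne D.o hN i) (sf_ne D.o hN j)) hMC)
    linear_combination h2

theorem eval_p {D : QD β I Λ} {N : ℕ} (hN : N ≠ 0) (M : ℕ) (z : Fin β → ℂ) (u : ℂ)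
    (P : MvPolynomial I ℂ) :
    eval ((sD D N M).fv z) (sp u (fun k => (sf D.o N k)⁻¹) P) =
      u * eval (D.fv ((M : ℂ) • z)) P := by
  rw [eval_sp]
  congr 2
  have : (fun i => (sf D.o N i)⁻¹ * (sD D N M).fv z i) = D.fv ((M : ℂ) • z) := by
    funext i
    change (sf D.o N i)⁻¹ * (sD D N M).f i z = D.f i ((M : ℂ) • z)
    rw [f_eq, ← mul_assoc, inv_mul_cancel₀ (sf_ne D.o hN i), one_mul]
  rw [this]

theorem good {D : QD β I Λ} [Fintype Λ] (h : D.Good) {N M : ℕ} (hN : N ≠ 0) (hM : M ≠ 0) :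
    (sD D N M).Good := by
  refine ⟨goodTH h.good hN hM, ?_, ?_, ?_, ?_⟩
  · exact (h.Y_diff.comp (differentiable_id.const_smul (M : ℂ))).const_mul (N : ℂ)
  · intro l z hz
    rw [tho] at hz
    rw [ze_eq, ze_eq]
    change (N : ℂ) * D.ze ((M : ℂ) • (z + (M : ℂ)⁻¹ • D.lat l)) =
      (N : ℂ) * D.ze ((M : ℂ) • z) + (N : ℂ) * D.ell l
    rw [smul_add, M_smul hM, h.per l _ hz]
    ring
  · intro i j z hz
    rw [tho] at hz
    have e : (sD D N M).f i = fun w => sf D.o N i * D.f i ((M : ℂ) • w) :=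
      funext fun w => f_eq D N M i w
    rw [e, fd (D.f i) (sf D.o N i) M z _ (diff_f h.good i hz), h.f_deriv i j _ hz]
    change _ = eval ((sD D N M).fv z)
      (sp (sf D.o N i * M) (fun k => (sf D.o N k)⁻¹) (D.p i j))
    rw [eval_p hN]
    ring
  · intro j z hz
    rw [tho] at hz
    have e : (sD D N M).ze = fun w => (N : ℂ) * D.ze ((M : ℂ) • w) :=
      funext fun w => ze_eq D N M w
    rw [e, fd D.ze (N : ℂ) M z _ (diff_ze h hz), h.ze_deriv j _ hz]
    change _ = eval ((sD D N M).fv z)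
      (sp ((N : ℂ) * M) (fun k => (sf D.o N k)⁻¹) (D.q j))
    rw [eval_p hN]
    ring

theorem coef_Qbar {P : MvPolynomial I ℂ} (hP : ∀ m, P.coeff m ∈ Qbar) (o : I) (N : ℕ)
    (m : I →₀ ℕ) : P.coeff m * ∏ i, (sf o N i)⁻¹ ^ m i ∈ Qbar :=
  mul_mem (hP m) (prod_mem fun i _ => pow_mem (inv_mem (sf_Qbar o N i)) _)

theorem alg {D : QD β I Λ} (h : D.Alg) (N M : ℕ) : (sD D N M).Alg := by
  refine ⟨?_, ?_, ?_, ?_⟩
  · intro i
    rw [f_eq, smul_zero]
    exact mul_mem (sf_Qbar D.o N i) (h.f_value i)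
  · rw [ze_eq, smul_zero]
    exact mul_mem (natCast_mem _ _) h.ze_value
  · intro i j m
    change (sp (sf D.o N i * M) (fun k => (sf D.o N k)⁻¹) (D.p i j)).coeff m ∈ Qbar
    rw [coeff_sp]
    exact mul_mem (mul_mem (sf_Qbar D.o N i) (natCast_mem _ _))
      (coef_Qbar (h.p_coeff i j) D.o N m)
  · intro j m
    change (sp ((N : ℂ) * M) (fun k => (sf D.o N k)⁻¹) (D.q j)).coeff m ∈ Qbar
    rw [coeff_sp]
    exact mul_mem (mul_mem (natCast_mem _ _) (natCast_mem _ _))
      (coef_Qbar (h.q_coeff j) D.o N m)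

theorem ss {D : QD β I Λ} [Fintype Λ] (h : D.SS) {N M : ℕ} (hN : N ≠ 0) (hM : M ≠ 0) :
    (sD D N M).SS := by
  have hMC : (M : ℂ) ≠ 0 := Nat.cast_ne_zero.2 hM
  intro U hU hspan
  have key : Submodule.span ℝ {w : Fin β → ℂ | w ∈ U ∧ ∃ x : Λ → ℤ, w = (sD D N M).vec x} ≤
      Submodule.span ℝ {w : Fin β → ℂ | w ∈ U ∧ ∃ x : Λ → ℤ, w = D.vec x} := by
    rw [Submodule.span_le]
    rintro w ⟨hw, x, hx⟩
    rw [vec_eq] at hx
    have h1 : D.vec x ∈ U := by
      have h2 : D.vec x = (M : ℂ) • w := by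
        rw [hx, M_smul hM]
      rw [h2]
      exact U.smul_mem _ hw
    have h3 : w = ((M : ℝ)⁻¹) • D.vec x := by
      rw [hx]
      ext k
      simp
    change w ∈ Submodule.span ℝ {w : Fin β → ℂ | w ∈ U ∧ ∃ x : Λ → ℤ, w = D.vec x}
    rw [h3]
    exact Submodule.smul_mem _ _ (Submodule.subset_span ⟨h1, x, rfl⟩)
  obtain ⟨x, hx1, hx2⟩ := h U hU fun u hu => key (hspan u hu)
  refine ⟨x, ?_, ?_⟩
  · rw [vec_eq]
    exact U.smul_mem _ hx1
  · rw [L_eq]
    exact mul_ne_zero (Nat.cast_ne_zero.2 hN) hx2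

end RDCM

open RDCM in
theorem specRDC : SpecRDC := by
  intro β I Λ _ _ D hG hA hS x hx
  classical
  -- the denominator of the values
  obtain ⟨N, hN, hNint⟩ := U.RedM.exists_denom
    ((Finset.univ.image fun i => D.f i 0) ∪ {D.ze 0}) (by
      intro s hs
      rcases Finset.mem_union.1 hs with hs | hs
      · obtain ⟨i, _, rfl⟩ := Finset.mem_image.1 hs
        exact hA.f_value i
      · rw [Finset.mem_singleton.1 hs]
        exact hA.ze_value)
  -- the denominator of the coefficients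
  let c : (I →₀ ℕ) → ℂ := fun m => ∏ i, (sf D.o N i)⁻¹ ^ m i
  let S : Finset ℂ := ((Finset.univ : Finset (I × Fin β)).biUnion fun ij =>
      (D.p ij.1 ij.2).support.image fun m => (D.p ij.1 ij.2).coeff m * c m) ∪
    ((Finset.univ : Finset (Fin β)).biUnion fun j =>
      (D.q j).support.image fun m => (D.q j).coeff m * c m)
  have hSp : ∀ i j m, m ∈ (D.p i j).support → (D.p i j).coeff m * c m ∈ S :=
    fun i j m hm => Finset.mem_union_left _ (Finset.mem_biUnion.2
      ⟨(i, j), Finset.mem_univ _, Finset.mem_image.2 ⟨m, hm, rfl⟩⟩)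
  have hSq : ∀ j m, m ∈ (D.q j).support → (D.q j).coeff m * c m ∈ S :=
    fun j m hm => Finset.mem_union_right _ (Finset.mem_biUnion.2
      ⟨j, Finset.mem_univ _, Finset.mem_image.2 ⟨m, hm, rfl⟩⟩)
  have hSQ : ∀ s ∈ S, s ∈ Qbar := by
    intro s hs
    rcases Finset.mem_union.1 hs with hs | hs
    · obtain ⟨ij, _, hs⟩ := Finset.mem_biUnion.1 hs
      obtain ⟨m, _, rfl⟩ := Finset.mem_image.1 hs
      exact coef_Qbar (hA.p_coeff ij.1 ij.2) D.o N m
    · obtain ⟨j, _, hs⟩ := Finset.mem_biUnion.1 hs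
      obtain ⟨m, _, rfl⟩ := Finset.mem_image.1 hs
      exact coef_Qbar (hA.q_coeff j) D.o N m
  obtain ⟨M, hM, hMint⟩ := U.RedM.exists_denom S hSQ
  -- the number field
  let S' : Finset ℂ := S ∪ ((Finset.univ.image fun i => D.f i 0) ∪ {D.ze 0})
  have hS'Q : ∀ s ∈ S', s ∈ Qbar := by
    intro s hs
    rcases Finset.mem_union.1 hs with hs | hs
    · exact hSQ s hs
    · rcases Finset.mem_union.1 hs with hs | hs
      · obtain ⟨i, _, rfl⟩ := Finset.mem_image.1 hs
        exact hA.f_value i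
      · rw [Finset.mem_singleton.1 hs]
        exact hA.ze_value
  let K : IntermediateField ℚ ℂ := IntermediateField.adjoin ℚ (S' : Set ℂ)
  have : Finite (S' : Set ℂ) := S'.finite_toSet
  have hfd : FiniteDimensional ℚ K :=
    IntermediateField.finiteDimensional_adjoin (fun x hx =>
      (mem_algebraicClosure_iff.1 (hS'Q x hx)).isIntegral)
  have hnf : NumberField K := ⟨⟩
  have hSK : ∀ s ∈ S', s ∈ K := fun s hs => IntermediateField.subset_adjoin ℚ _ hs
  have hsfK : ∀ i, sf D.o N i ∈ K := by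
    intro i
    rcases sf_cases D.o N i with ⟨_, h⟩ | h
    · rw [h]
      exact one_mem _
    · rw [h]
      exact natCast_mem _ _
  -- the values
  have hxv : ∀ i : Option I, ∃ y : 𝓞 K,
      oEmb (algebraMap K ℂ) y = (sD D N M).ev 0 0 (X i) := by
    intro i
    cases i with
    | none =>
      have e : (sD D N M).ev 0 0 (X (none : Option I)) = (N : ℂ) * D.ze 0 := by
        unfold QD.ev
        rw [aeval_X]
        change (sD D N M).ze 0 + 0 = _
        rw [ze_eq, smul_zero, add_zero]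
      rw [e]
      apply U.RedM.exists_int
      · exact mul_mem (natCast_mem _ _) (hSK _ (Finset.mem_union_right _
          (Finset.mem_union_right _ (Finset.mem_singleton_self _))))
      · exact hNint _ (Finset.mem_union_right _ (Finset.mem_singleton_self _))
    | some i =>
      have e : (sD D N M).ev 0 0 (X (some i)) = sf D.o N i * D.f i 0 := by
        unfold QD.ev
        rw [aeval_X]
        change (sD D N M).f i 0 = _
        rw [f_eq, smul_zero]
      rw [e]
      have hmem : D.f i 0 ∈ (Finset.univ.image fun i => D.f i 0) ∪ {D.ze 0} :=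
        Finset.mem_union_left _ (Finset.mem_image.2 ⟨i, Finset.mem_univ i, rfl⟩)
      apply U.RedM.exists_int
      · exact mul_mem (hsfK i) (hSK _ (Finset.mem_union_right _ hmem))
      · rcases sf_cases D.o N i with ⟨h1, h2⟩ | h2
        · have h3 : D.f i 0 = 1 := by
            rw [h1]
            exact div_self hG.good.zero
          rw [h2, h3, one_mul]
          exact isIntegral_one
        · rw [h2]
          exact hNint _ hmem
  -- the coefficients
  have hcoef : ∀ (u : ℂ) (P : MvPolynomial I ℂ), u ∈ K → IsIntegral ℤ u →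
      (∀ m ∈ P.support, P.coeff m * c m ∈ S) →
      ∀ m, (sp (u * M) (fun k => (sf D.o N k)⁻¹) P).coeff m ∈ K ∧
        IsIntegral ℤ ((sp (u * M) (fun k => (sf D.o N k)⁻¹) P).coeff m) := by
    intro u P hu hui hP m
    rw [coeff_sp]
    by_cases hm : m ∈ P.support
    · have hs := hP m hm
      constructor
      · exact mul_mem (mul_mem hu (natCast_mem _ _)) (hSK _ (Finset.mem_union_left _ hs))
      · have := hui.mul (hMint _ hs)
        rw [← mul_assoc] at this
        exact this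
    · rw [notMem_support_iff.1 hm, zero_mul, mul_zero]
      exact ⟨zero_mem _, isIntegral_zero⟩
  have hp : ∀ i j, ∃ P' : MvPolynomial I (𝓞 K),
      map (oEmb (algebraMap K ℂ)) P' = (sD D N M).p i j := fun i j =>
    lift K _ (hcoef (sf D.o N i) (D.p i j) (hsfK i) (sf_int D.o N i) fun m hm => hSp i j m hm)
  have hq : ∀ j, ∃ P' : MvPolynomial I (𝓞 K),
      map (oEmb (algebraMap K ℂ)) P' = (sD D N M).q j := fun j =>
    lift K _ (hcoef (N : ℂ) (D.q j) (natCast_mem _ _) (isIntegral_natCast N)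
      fun m hm => hSq j m hm)
  choose xv hxv using hxv
  choose pp hpp using hp
  choose qq hqq using hq
  refine ⟨sD D N M, good hG hN hM, alg hA N M, ss hS hN hM, ?_, K, inferInstance, hnf,
    algebraMap K ℂ, xv, fun i j => Option.elim i (rename some (qq j)) fun i => rename some (pp i j),
    ?_, ?_⟩
  · rw [L_eq, hx, mul_zero]
  · intro i
    exact (hxv i).symm
  · intro i j
    cases i with
    | none =>
      change rename some ((sD D N M).q j) = map _ (rename some (qq j))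
      rw [map_rename, hqq]
    | some i =>
      change rename some ((sD D N M).p i j) = map _ (rename some (pp i j))
      rw [map_rename, hpp]

end Pool.Agent.Lib.MPf11a48.AS
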