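import Pool.Agent.Lib.MP_f11a48_ag.AS.SpecF

/-!
# Project AS, module SCH: Schwarz lemma on lines
-/

set_option autoImplicit false

open Filter Topology Asymptotics

namespace Pool.Agent.Lib.MPf11a48.AS

namespace SCHM

/-- One variable: division by `s` and the maximum principle, `T` times. -/
theorem line (T : ℕ) : ∀ g : ℂ → ℂ, Differentiable ℂ g →
    (g =O[𝓝[≠] (0 : ℂ)] fun s => ‖s‖ ^ T) → ∀ B : ℝ, (∀ s : ℂ, ‖s‖ ≤ 3 → ‖g s‖ ≤ B) →
    ‖g 1‖ ≤ (1 / 3 : ℝ) ^ T * B := by
  induction T with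
  | zero =>
    intro g _ _ B hB
    have h := hB 1 (by norm_num)
    simpa using h
  | succ T ih =>
    intro g hg hO B hB
    have hg0 : g 0 = 0 := by
      have h1 : Tendsto g (𝓝[≠] (0 : ℂ)) (𝓝 0) := by
        refine hO.trans_tendsto ?_
        have h2 : Tendsto (fun s : ℂ => ‖s‖ ^ (T + 1)) (𝓝 0) (𝓝 (‖(0 : ℂ)‖ ^ (T + 1))) :=
          (continuous_norm.pow (T + 1)).tendsto 0
        rw [norm_zero, zero_pow (Nat.succ_ne_zero T)] at h2
        exact h2.mono_left nhdsWithin_le_nhds
      have h3 : Tendsto g (𝓝[≠] (0 : ℂ)) (𝓝 (g 0)) :=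
        (hg.continuous.tendsto 0).mono_left nhdsWithin_le_nhds
      exact tendsto_nhds_unique h3 h1
    have hdiv : ∀ s, g s = s * dslope g 0 s := by
      intro s
      have h := sub_smul_dslope g 0 s
      rw [sub_zero, hg0, sub_zero, smul_eq_mul] at h
      exact h.symm
    have hd : Differentiable ℂ (dslope g 0) := by
      have h := (Complex.differentiableOn_dslope (s := Set.univ) (c := (0 : ℂ)) (f := g)
        Filter.univ_mem).mpr hg.differentiableOn
      exact differentiableOn_univ.mp h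
    have hO' : dslope g 0 =O[𝓝[≠] (0 : ℂ)] fun s => ‖s‖ ^ T := by
      obtain ⟨c, hc⟩ := hO.bound
      refine IsBigO.of_bound c ?_
      filter_upwards [hc, self_mem_nhdsWithin] with s hs hs0
      have hs0' : 0 < ‖s‖ := norm_pos_iff.mpr hs0
      rw [hdiv s, norm_mul, Real.norm_of_nonneg (by positivity), pow_succ] at hs
      rw [Real.norm_of_nonneg (by positivity)]
      have h2 : ‖s‖ * ‖dslope g 0 s‖ ≤ ‖s‖ * (c * ‖s‖ ^ T) := by
        calc ‖s‖ * ‖dslope g 0 s‖ ≤ c * (‖s‖ ^ T * ‖s‖) := hs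
          _ = _ := by ring
      exact le_of_mul_le_mul_left h2 hs0'
    have hB' : ∀ s : ℂ, ‖s‖ ≤ 3 → ‖dslope g 0 s‖ ≤ B / 3 := by
      intro s hs
      refine Complex.norm_le_of_forall_mem_frontier_norm_le (U := Metric.ball (0 : ℂ) 3)
        Metric.isBounded_ball hd.diffContOnCl ?_ ?_
      · intro w hw
        rw [frontier_ball (0 : ℂ) (by norm_num)] at hw
        have hw3 : ‖w‖ = 3 := by simpa using hw
        have h1 := hB w hw3.le
        rw [hdiv w, norm_mul, hw3] at h1
        rw [le_div_iff₀ (by norm_num)]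
        linarith
      · rw [closure_ball (0 : ℂ) (by norm_num)]
        simpa using hs
    have h := ih (dslope g 0) hd hO' (B / 3) hB'
    have h1 : g 1 = dslope g 0 1 := by
      have := hdiv 1
      rwa [one_mul] at this
    rw [h1]
    refine h.trans_eq ?_
    rw [pow_succ]
    ring

end SCHM

/-- Module SCH. -/
theorem specSCH : SpecSCH := by
  intro E _ _ H hH z₀ z T B hO hB
  have hg : Differentiable ℂ fun s : ℂ => H (z₀ + s • (z - z₀)) := by
    refine hH.comp ?_
    exact (differentiable_const _).add (differentiable_id.smul_const _)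
  have ht : Tendsto (fun s : ℂ => z₀ + s • (z - z₀)) (𝓝 0) (𝓝 z₀) := by
    have h1 : Continuous fun s : ℂ => z₀ + s • (z - z₀) :=
      continuous_const.add (continuous_id.smul continuous_const)
    have h2 := h1.tendsto 0
    rwa [zero_smul, add_zero] at h2
  have hO1 : (fun s : ℂ => H (z₀ + s • (z - z₀))) =O[𝓝[≠] (0 : ℂ)] fun s => ‖s‖ ^ T := by
    have h1 := hO.comp_tendsto ht
    have h2 : ((fun w => ‖w - z₀‖ ^ T) ∘ fun s : ℂ => z₀ + s • (z - z₀)) =O[𝓝 (0 : ℂ)]
        fun s => ‖s‖ ^ T := by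
      refine IsBigO.of_bound (‖z - z₀‖ ^ T) (Eventually.of_forall fun s => ?_)
      simp only [Function.comp_apply, add_sub_cancel_left, norm_smul, mul_pow]
      rw [Real.norm_of_nonneg (by positivity), Real.norm_of_nonneg (by positivity)]
      exact le_of_eq (mul_comm _ _)
    exact (h1.trans h2).mono nhdsWithin_le_nhds
  have h := SCHM.line T _ hg hO1 B hB
  simpa using h

end Pool.Agent.Lib.MPf11a48.AS
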