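import Pool.Agent.Lib.MP_f11a48_ag.AS.SpecX

/-!
# Project AS, module SHF: translation to the origin
-/

set_option autoImplicit false

open MvPolynomial Pool.Agent.Lib.MPf11a48.CM Filter Topology Asymptotics

namespace Pool.Agent.Lib.MPf11a48.AS

/-- Module SHF. -/
theorem specSHF (hSTP : SpecSTP) (hAGR : SpecAGR) (hAGO : SpecAGO) : SpecSHF := by
  intro β I Λ _ _ D hD u₀ ζ hζ h0 hf hze
  obtain ⟨hc, -, -, -, -, -, -, -⟩ := hAGR (fun _ : Fin 1 => u₀)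
  have hz : AGQ D (fun _ : Fin 1 => u₀) fun u => ζ (u 0) := by
    refine ⟨?_, h0, fun i => ?_, ?_⟩
    · have h1 : AnalyticAt ℂ (fun u : Fin 1 → ℂ => u 0) (fun _ : Fin 1 => u₀) :=
        (ContinuousLinearMap.proj (R := ℂ) (φ := fun _ : Fin 1 => ℂ) 0).analyticAt _
      exact AnalyticAt.comp (g := ζ) (f := fun u : Fin 1 → ℂ => u 0) hζ h1
    · exact (hAGO u₀ fun u => D.f i (ζ u)).1 (hf i)
    · exact (hAGO u₀ fun u => D.ze (ζ u)).1 hze
  have hw : AGQ D (fun _ : Fin 1 => u₀) fun _ => -ζ u₀ := by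
    refine ⟨analyticAt_const, ?_, fun i => hc _, hc _⟩
    rw [hD.good.even]
    exact h0
  have hs : D.th D.o (ζ u₀ + -ζ u₀) ≠ 0 := by
    rw [add_neg_cancel]
    exact hD.good.zero
  obtain ⟨-, -, h3, h4⟩ := hSTP D hD (fun _ : Fin 1 => u₀) (fun u => ζ (u 0)) (fun _ => -ζ u₀)
    hz hw hs
  refine ⟨fun i => ?_, ?_⟩
  · have h5 := (hAGO u₀ fun u => D.f i (ζ u + -ζ u₀)).2 (h3 i)
    simpa only [← sub_eq_add_neg] using h5
  · have h5 := (hAGO u₀ fun u => D.ze (ζ u + -ζ u₀)).2 h4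
    simpa only [← sub_eq_add_neg] using h5

end Pool.Agent.Lib.MPf11a48.AS
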