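import Pool.Agent.Lib.MP_f11a48_ag.AS.SpecX

/-!
# Project AS, module SMM: sums of points of the curve
-/

set_option autoImplicit false

open MvPolynomial Pool.Agent.Lib.MPf11a48.CM Filter Topology

namespace Pool.Agent.Lib.MPf11a48.AS

theorem specSMM (hS : SpecSTP) (hA : SpecAGR) : SpecSMM := by
  intro β I Λ _ _ D hD u₀ ζ hζ hζ0 hf hz r
  obtain ⟨hc, -, -, -, -, hk, -⟩ := hA (fun _ : Fin r => u₀)
  -- one point
  have hone : ∀ k : Fin r, AGQ D (fun _ : Fin r => u₀) fun u => ζ (u k) := by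
    intro k
    refine ⟨?_, ?_, fun i => hk k _ (hf i), hk k _ hz⟩
    · have h1 : AnalyticAt ℂ (fun u : Fin r → ℂ => u k) (fun _ : Fin r => u₀) :=
        (ContinuousLinearMap.proj (R := ℂ) (φ := fun _ : Fin r => ℂ) k).analyticAt _
      exact AnalyticAt.fun_comp (g := ζ) hζ h1
    · show D.th D.o (ζ u₀) ≠ 0
      rw [hζ0]
      exact hD.good.zero
  have hval : ∀ s : Finset (Fin r), ∑ _k ∈ s, ζ u₀ = 0 := by
    intro s
    rw [hζ0]
    simp
  have hall : ∀ s : Finset (Fin r), AGQ D (fun _ : Fin r => u₀) fun u => ∑ k ∈ s, ζ (u k) := by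
    classical
    intro s
    induction s using Finset.induction_on with
    | empty =>
      simp only [Finset.sum_empty]
      exact ⟨analyticAt_const, hD.good.zero, fun i => hc _, hc _⟩
    | insert a s ha ih =>
      have h1 := hS D hD (fun _ : Fin r => u₀) (fun u => ζ (u a)) (fun u => ∑ k ∈ s, ζ (u k))
        (hone a) ih (by
          show D.th D.o (ζ u₀ + ∑ _k ∈ s, ζ u₀) ≠ 0
          rw [hval, hζ0, add_zero]
          exact hD.good.zero)
      have h2 : (fun u : Fin r → ℂ => ∑ k ∈ insert a s, ζ (u k)) =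
          fun u => ζ (u a) + ∑ k ∈ s, ζ (u k) := by
        funext u
        rw [Finset.sum_insert ha]
      rw [h2]
      exact h1
  exact hall Finset.univ

end Pool.Agent.Lib.MPf11a48.AS
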