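import Pool.Agent.Lib.MP_f11a48_ag.AS.SpecE

/-!
# Project AS, block E, module STB: Hodge substructures are stable under the commutant
-/

set_option autoImplicit false

open Matrix MvPolynomial Pool.Agent.Lib.MPf11a48.CM Pool.Agent.Lib.MPf11a48.GL2T
open Filter Topology
open Pool.Agent.Lib.MPf11a48.U (AbData Ix EndAlg ComAlg mR mC HDAM.JM)

namespace Pool.Agent.Lib.MPf11a48.AS

namespace STBM

theorem prE_mul {g : ℕ} {R : Type} [CommRing R] (Bk : Ix g → Ix g → Matrix (Ix g) (Ix g) R)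
    (Y X : Matrix (Ix g) (Ix g) R) (h : ∀ k' k, Bk k' k * X = X * Bk k' k) :
    prE Bk (Y * X) = prE Bk Y * X := by
  ext k l
  have e1 : ∀ k', (Y * X) k' = Y k' ᵥ* X := fun _ => rfl
  have e2 : (prE Bk Y * X) k l = ((∑ k', (Y k' ᵥ* Bk k' k)) ᵥ* X) l := by
    have : (prE Bk Y) k = ∑ k', (Y k' ᵥ* Bk k' k) := by
      funext m
      rw [Finset.sum_apply]
      rfl
    rw [← this]
    rfl
  rw [e2]
  show ∑ k', ((Y * X) k' ᵥ* Bk k' k) l = _
  rw [Matrix.sum_vecMul, Finset.sum_apply]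
  refine Finset.sum_congr rfl fun k' _ => ?_
  rw [e1, Matrix.vecMul_vecMul, Matrix.vecMul_vecMul, h]

end STBM

theorem specSTB (hPRB : SpecPRB) : SpecSTB := by
  intro K g N A c hK hA hc N₀ N₁ hJ₀ hJ₁ hcompl Y hY X hX
  obtain ⟨Bk, hB, hN, h1, -⟩ := hPRB K g N A c hK hA hc N₁ N₀ hJ₁ hJ₀ hcompl.symm
  have h2 : prE Bk (Y * X) = Y * X := by
    rw [STBM.prE_mul Bk Y X fun k' k => ?_, h1 Y hY]
    exact Subalgebra.mem_centralizer_iff ℚ |>.1 hX _ (hB k' k)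
  rw [← h2]
  exact hN _

end Pool.Agent.Lib.MPf11a48.AS
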