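import Pool.Agent.Lib.MP_f11a48_ag.AS.SpecX

/-!
# Project AS, block X, module STP: the addition theorem
-/

set_option autoImplicit false

open MvPolynomial Pool.Agent.Lib.MPf11a48.CM Filter Topology Asymptotics

namespace Pool.Agent.Lib.MPf11a48.AS

namespace STPM

/-- polynomials in algebraic germs are algebraic -/
theorem AG_eval (hAGR : SpecAGR) {r : ℕ} {u₀ : Fin r → ℂ} {ι : Type}
    {g : ι → (Fin r → ℂ) → ℂ} (hg : ∀ i, AG u₀ (g i)) (P : MvPolynomial ι ℂ) :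
    AG u₀ fun u => eval (fun i => g i u) P := by
  obtain ⟨hc, -, hadd, hmul, -, -, -, -⟩ := hAGR u₀
  induction P using MvPolynomial.induction_on with
  | C a => simpa using hc a
  | add p q hp hq => simpa only [map_add] using hadd _ _ hp hq
  | mul_X p k hp => simpa only [map_mul, eval_X] using hmul _ _ hp (hg k)

theorem AG_pow (hAGR : SpecAGR) {r : ℕ} {u₀ : Fin r → ℂ} {g : (Fin r → ℂ) → ℂ}
    (hg : AG u₀ g) (n : ℕ) : AG u₀ fun u => g u ^ n := by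
  obtain ⟨hc, -, hadd, hmul, -, -, -, -⟩ := hAGR u₀
  induction n with
  | zero => simpa using hc 1
  | succ n ih => simpa only [pow_succ] using hmul _ _ ih hg

variable {β : ℕ} {I Λ : Type}

/-- the point `(z, w)` -/
def jn (z w : Fin β → ℂ) : Fin β ⊕ Fin β → ℂ := Sum.elim z w

theorem alg (m : ℕ) {Y a b T J P : ℂ} (hT : T ≠ 0) (hJ : J ≠ 0) (hP : P ≠ 0) :
    a + b + (Y - (a + b) * T ^ m) * J ^ m / P ^ (2 * m) * ((T * J / P ^ 2)⁻¹) ^ m =
      Y / T ^ m := by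
  have h1 : ((T * J / P ^ 2)⁻¹) ^ m = P ^ (2 * m) / (T ^ m * J ^ m) := by
    rw [inv_div, div_pow, mul_pow, ← pow_mul]
  rw [h1]
  have h2 : T ^ m ≠ 0 := pow_ne_zero _ hT
  have h3 : J ^ m ≠ 0 := pow_ne_zero _ hJ
  have h4 : P ^ (2 * m) ≠ 0 := pow_ne_zero _ hP
  field_simp
  ring

theorem prod_th (D : TH (Fin β) I Λ) (a b : Fin β → ℂ) :
    (D.prod D).th (D.prod D).o (jn a b) = D.th D.o a * D.th D.o b := rfl

theorem prod_fv (D : TH (Fin β) I Λ) (a b : Fin β → ℂ) :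
    (D.prod D).fv (jn a b) = fun i => D.f i.1 a * D.f i.2 b := by
  funext i
  show D.th i.1 a * D.th i.2 b / (D.th D.o a * D.th D.o b) = _
  unfold TH.f
  rw [div_mul_div_comm]

/-- elements of `S` of the product are algebraic along a pair of algebraic germs -/
theorem AG_S [Fintype I] [Fintype Λ] (hPRD : SpecPRD) (hINT : SpecINT) (hSRG : SpecSRG) (hAGR : SpecAGR)
    (D : TH (Fin β) I Λ) (hD : D.Good)
    {r : ℕ} {u₀ : Fin r → ℂ} {z w : (Fin r → ℂ) → (Fin β → ℂ)}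
    (hz : AnalyticAt ℂ z u₀) (hw : AnalyticAt ℂ w u₀)
    (hz0 : D.th D.o (z u₀) ≠ 0) (hw0 : D.th D.o (w u₀) ≠ 0)
    (hzf : ∀ i, AG u₀ fun u => D.f i (z u)) (hwf : ∀ i, AG u₀ fun u => D.f i (w u))
    {A : (Fin β ⊕ Fin β → ℂ) → ℂ} (hA : (D.prod D).IsS A) :
    AG u₀ fun u => A (jn (z u) (w u)) := by
  have hP := hPRD D D hD hD
  obtain ⟨n, c, hc⟩ := hINT (D.prod D) hP A hA
  obtain ⟨-, -, hadd, hmul, -, -, hroot, -⟩ := hAGR u₀
  have hza : ∀ᶠ u in 𝓝 u₀, D.th D.o (z u) ≠ 0 :=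
    (((hD.diff D.o).continuous.continuousAt).comp hz.continuousAt).eventually_ne hz0
  have hwa : ∀ᶠ u in 𝓝 u₀, D.th D.o (w u) ≠ 0 :=
    (((hD.diff D.o).continuous.continuousAt).comp hw.continuousAt).eventually_ne hw0
  have hjn : AnalyticAt ℂ (fun u => jn (z u) (w u)) u₀ := by
    rw [analyticAt_pi_iff]
    rintro (k | k)
    · exact (analyticAt_pi_iff.1 hz) k
    · exact (analyticAt_pi_iff.1 hw) k
  have hAa : AnalyticAt ℂ (fun u => A (jn (z u) (w u))) u₀ :=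
    AnalyticAt.fun_comp ((hSRG (D.prod D) hP).2.2.2 A hA (jn (z u₀) (w u₀))
      (by rw [prod_th]; exact mul_ne_zero hz0 hw0)) hjn
  have hg : ∀ i : I × I, AG u₀ fun u => D.f i.1 (z u) * D.f i.2 (w u) := fun i =>
    hmul (fun u => D.f i.1 (z u)) (fun u => D.f i.2 (w u)) (hzf i.1) (hwf i.2)
  have hck : ∀ k, AG u₀ fun u => eval (fun i : I × I => D.f i.1 (z u) * D.f i.2 (w u)) (c k) :=
    fun k => AG_eval hAGR (g := fun (i : I × I) u => D.f i.1 (z u) * D.f i.2 (w u)) hg (c k)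
  refine hroot (fun u => A (jn (z u) (w u))) n
    (fun k u => eval (fun i : I × I => D.f i.1 (z u) * D.f i.2 (w u)) (c k)) hAa hck ?_
  filter_upwards [hza, hwa] with u h1 h2
  have h3 := hc (jn (z u) (w u)) (by rw [prod_th]; exact mul_ne_zero h1 h2)
  rw [prod_fv] at h3
  exact h3

end STPM

open STPM in
/-- The addition theorem. -/
theorem specSTP (hPRD : SpecPRD) (hINT : SpecINT) (hSRG : SpecSRG) (hADF : SpecADF)
    (hADZ : SpecADZ) (hAGR : SpecAGR) : SpecSTP := by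
  intro β I Λ _ _ D hD r u₀ z w hz hw h0
  obtain ⟨hza, hz0, hzf, hzz⟩ := hz
  obtain ⟨hwa, hw0, hwf, hwz⟩ := hw
  obtain ⟨hc, -, hadd, hmul, hinv, -, -, hcong⟩ := hAGR u₀
  have hDt := hD.good
  obtain ⟨j, hj⟩ := hDt.ne (z u₀ - w u₀)
  have hA : ∀ i, AG u₀ fun u => addF D.toTH i j (jn (z u) (w u)) := fun i =>
    AG_S hPRD hINT hSRG hAGR D.toTH hDt hza hwa hz0 hw0 hzf hwf (hADF D.toTH hDt i j)
  have hV : AG u₀ fun u => addZ D j (jn (z u) (w u)) :=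
    AG_S hPRD hINT hSRG hAGR D.toTH hDt hza hwa hz0 hw0 hzf hwf (hADZ D hD j)
  have hAe : ∀ i (a b : Fin β → ℂ), addF D.toTH i j (jn a b) =
      D.th i (a + b) * D.th j (a - b) / (D.th D.o a * D.th D.o b) ^ 2 := fun i a b => rfl
  have hVe : ∀ (a b : Fin β → ℂ), addZ D j (jn a b) =
      (D.Y (a + b) - (D.ze a + D.ze b) * D.th D.o (a + b) ^ D.m) * D.th j (a - b) ^ D.m /
        (D.th D.o a * D.th D.o b) ^ (2 * D.m) := fun a b => rfl
  have hAo : addF D.toTH D.o j (jn (z u₀) (w u₀)) ≠ 0 := by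
    rw [hAe]
    exact div_ne_zero (mul_ne_zero h0 hj) (pow_ne_zero 2 (mul_ne_zero hz0 hw0))
  have hAi := hinv _ (hA D.o) hAo
  -- neighbourhoods
  have e1 : ∀ᶠ u in 𝓝 u₀, D.th D.o (z u) ≠ 0 :=
    (((hDt.diff D.o).continuous.continuousAt).comp hza.continuousAt).eventually_ne hz0
  have e2 : ∀ᶠ u in 𝓝 u₀, D.th D.o (w u) ≠ 0 :=
    (((hDt.diff D.o).continuous.continuousAt).comp hwa.continuousAt).eventually_ne hw0
  have e3 : ∀ᶠ u in 𝓝 u₀, D.th D.o (z u + w u) ≠ 0 :=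
    (((hDt.diff D.o).continuous.continuousAt).comp
      (hza.continuousAt.add hwa.continuousAt)).eventually_ne h0
  have e4 : ∀ᶠ u in 𝓝 u₀, D.th j (z u - w u) ≠ 0 :=
    (((hDt.diff j).continuous.continuousAt).comp
      (hza.continuousAt.sub hwa.continuousAt)).eventually_ne hj
  refine ⟨hza.add hwa, h0, fun i => ?_, ?_⟩
  · refine hcong _ _ (hmul _ _ (hA i) hAi) ?_
    filter_upwards [e1, e2, e3, e4] with u h1 h2 h3 h4
    rw [hAe, hAe]
    unfold TH.f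
    field_simp
  · refine hcong _ _ (hadd _ _ (hadd _ _ hzz hwz) (hmul _ _ hV (AG_pow hAGR hAi D.m))) ?_
    filter_upwards [e1, e2, e3, e4] with u h1 h2 h3 h4
    rw [hAe, hVe]
    exact alg D.m h3 h4 (mul_ne_zero h1 h2)

end Pool.Agent.Lib.MPf11a48.AS
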