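import Pool.Agent.Lib.MP_f11a48_ag.AS.Cst

/-!
# Project AS, module SYM: norms of elements of `S` are polynomials
-/

set_option autoImplicit false

open MvPolynomial Pool.Agent.Lib.MPf11a48.CM Filter Topology Asymptotics

namespace Pool.Agent.Lib.MPf11a48.AS

theorem specSYM (hBAS : SpecBAS) (hSRG : SpecSRG) (hGRW : SpecGRW) (hCOV : SpecCOV)
    (hPOL : SpecPOL) : SpecSYM := by
  classical
  intro Z I Λ _ _ _ D hD N hN d hE A hA
  obtain ⟨-, -, -, -, -, hinj, hper, -⟩ := hBAS D hD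
  obtain ⟨-, -, -, han⟩ := hSRG D hD
  have hAan := han A hA
  obtain ⟨C, κ, hC, hgr⟩ := (hGRW D hD N hN).2 A hA
  -- `A(z)` depends only on `f(z)`
  have hAf : ∀ z w, D.th D.o z ≠ 0 → D.th D.o w ≠ 0 → D.fv z = D.fv w → A z = A w := by
    intro z w hz hw h
    obtain ⟨x, hx⟩ := hinj z w hz hw h
    have h1 : z = w + D.vec x := by rw [← hx]; abel
    rw [h1]
    exact hper A hA x w hw
  -- the product does not depend on the enumeration
  have hprod : ∀ (y : Z → ℂ) (z z' : Fin d → (Z → ℂ)), D.Enum N y z → D.Enum N y z' →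
      ∏ j, A (z j) = ∏ j, A (z' j) := by
    intro y z z' h h'
    obtain ⟨σ, hσ⟩ := CSTM.enum_perm h h'
    rw [← Equiv.prod_comp σ (fun j => A (z' j))]
    exact Finset.prod_congr rfl fun j _ => hAf _ _ (h.1 j).1 (h'.1 (σ j)).1 (hσ j)
  let h : (Z → ℂ) → ℂ := fun y =>
    if hy : eval y N.Δ ≠ 0 then ∏ j, A ((hE y hy).choose j) else 0
  have hh : ∀ (y : Z → ℂ) (z : Fin d → (Z → ℂ)), eval y N.Δ ≠ 0 → D.Enum N y z →
      h y = ∏ j, A (z j) := by
    intro y z hy hz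
    simp only [h]
    rw [dif_pos hy]
    exact hprod y _ z (hE y hy).choose_spec hz
  have hopen : ∀ y₀ : Z → ℂ, eval y₀ N.Δ ≠ 0 → ∀ᶠ y in 𝓝 y₀, eval y N.Δ ≠ 0 := by
    intro y₀ hy₀
    exact (MvPolynomial.continuous_eval N.Δ).continuousAt.eventually_ne hy₀
  obtain ⟨P, hP⟩ := hPOL N.Δ h (C ^ d) (κ * d) hN.ne fun y₀ hy₀ => by
    constructor
    · obtain ⟨d', ζ, hζ, hev⟩ := hCOV D hD N hN y₀ hy₀
      obtain ⟨z₀, hz₀⟩ := hE y₀ hy₀
      have hd : d' = d := CSTM.enum_len hev.self_of_nhds hz₀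
      subst hd
      have h0 := hev.self_of_nhds
      have han' : AnalyticAt ℂ (fun y => ∏ j, A (ζ j y)) y₀ := by
        have : AnalyticAt ℂ (fun y => ∏ j ∈ Finset.univ, A (ζ j y)) y₀ :=
          Finset.analyticAt_fun_prod _ fun j _ =>
            AnalyticAt.fun_comp (hAan _ (h0.1 j).1) (hζ j)
        exact this
      refine han'.congr ?_
      filter_upwards [hev, hopen y₀ hy₀] with y hy1 hy2
      exact (hh y _ hy2 hy1).symm
    · obtain ⟨z₀, hz₀⟩ := hE y₀ hy₀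
      rw [hh y₀ z₀ hy₀ hz₀, norm_prod]
      calc ∏ j, ‖A (z₀ j)‖ ≤ ∏ _j : Fin d, C * (1 + ‖y₀‖) ^ κ := by
            refine Finset.prod_le_prod (fun j _ => norm_nonneg _) fun j _ => ?_
            have := hgr (z₀ j) (hz₀.1 j).1
            rwa [(hz₀.1 j).2] at this
        _ = C ^ d * (1 + ‖y₀‖) ^ (κ * d) := by
            rw [Finset.prod_const, Finset.card_univ, Fintype.card_fin, mul_pow, pow_mul]
  exact ⟨P, fun y hy z hz => by rw [← hP y hy, hh y z hy hz]⟩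

end Pool.Agent.Lib.MPf11a48.AS
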