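import Pool.Agent.Lib.MP_f11a48_ag.AS.SpecZ

/-!
# Project AS, block Z, module TAN: arcs which are not contained in a leaf
-/

set_option autoImplicit false

open MvPolynomial Pool.Agent.Lib.MPf11a48.CM Filter Topology Asymptotics

namespace Pool.Agent.Lib.MPf11a48.AS

namespace TANM

theorem it_append {R κ : Type} [CommRing R] [Algebra ℂ R] (δ : κ → Derivation ℂ R R)
    (w : List κ) (c : κ) (a : R) : it δ (w ++ [c]) a = it δ w (δ c a) := by
  induction w with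
  | nil => rfl
  | cons d w ih => rw [List.cons_append, it, ih, it]

variable {β : ℕ} {I Λ : Type}

theorem lw_some (D : QD β I Λ) (w : List (Fin β)) (j : Fin β) (P : MvPolynomial (Option I) ℂ) :
    D.lw w (D.dl (some j) P) = D.lw (w ++ [j]) P := by
  unfold QD.lw
  rw [List.map_append, List.map_singleton, it_append]

theorem lw_cons (D : QD β I Λ) (w : List (Fin β)) (j : Fin β) (P : MvPolynomial (Option I) ℂ) :
    D.lw (j :: w) P = D.dl (some j) (D.lw w P) := rfl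

theorem lw_none (D : QD β I Λ)
    (h : ∀ c P, D.dl none (D.dl c P) = D.dl c (D.dl none P))
    (w : List (Fin β)) (P : MvPolynomial (Option I) ℂ) :
    D.lw w (D.dl none P) = D.dl none (D.lw w P) := by
  induction w with
  | nil => rfl
  | cons j w ih => rw [lw_cons, lw_cons, ih, h]

variable [Fintype I] [Fintype Λ]

/-- chain rule along an arc -/
theorem chain (hDEV : SpecDEV) (D : QD β I Λ) (hD : D.Good) (Q : MvPolynomial (Option I) ℂ)
    {ζ : ℂ → (Fin β → ℂ)} {ρ : ℂ → ℂ} {u : ℂ} (hζ : DifferentiableAt ℂ ζ u)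
    (hρ : DifferentiableAt ℂ ρ u) (h0 : D.th D.o (ζ u) ≠ 0) :
    HasDerivAt (fun v => D.ev (ζ v) (ρ v) Q)
      (∑ j, deriv ζ u j * D.ev (ζ u) (ρ u) (D.dl (some j) Q)
        + deriv ρ u * D.ev (ζ u) (ρ u) (D.dl none Q)) u := by
  obtain ⟨h1, h2, h3⟩ := hDEV D hD Q (ζ u) (ρ u) h0
  have h4 : HasDerivAt (fun v => (ζ v, ρ v)) (deriv ζ u, deriv ρ u) u :=
    hζ.hasDerivAt.prodMk hρ.hasDerivAt
  have h5 := h1.differentiableAt.hasFDerivAt
  have h6 := h5.comp_hasDerivAt u h4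
  refine h6.congr_deriv ?_
  have h7 : ((deriv ζ u, deriv ρ u) : (Fin β → ℂ) × ℂ) =
      ∑ j, deriv ζ u j • ((Pi.single j 1, 0) : (Fin β → ℂ) × ℂ)
        + deriv ρ u • ((0, 1) : (Fin β → ℂ) × ℂ) := by
    refine Prod.ext ?_ ?_
    · rw [Prod.fst_add, Prod.fst_sum]
      simp only [Prod.smul_fst, smul_zero, add_zero]
      exact (pi_eq_sum_univ' (deriv ζ u)).trans
        (Finset.sum_congr rfl fun j _ => by congr 1)
    · rw [Prod.snd_add, Prod.snd_sum]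
      simp
  rw [h7, map_add, map_sum, map_smul, h3]
  simp only [map_smul, h2, smul_eq_mul]

/-- all derivatives of order `≤ k` along the leaves vanish on the arc -/
def EK (D : QD β I Λ) (ζ : ℂ → (Fin β → ℂ)) (ρ : ℂ → ℂ) (u₀ : ℂ) (k : ℕ)
    (Q : MvPolynomial (Option I) ℂ) : Prop :=
  ∀ w : List (Fin β), w.length ≤ k → ∀ᶠ u in 𝓝 u₀, D.ev (ζ u) (ρ u) (D.lw w Q) = 0

omit [Fintype I] [Fintype Λ] in
theorem EK_some (D : QD β I Λ) {ζ : ℂ → (Fin β → ℂ)} {ρ : ℂ → ℂ} {u₀ : ℂ} {k : ℕ}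
    {Q : MvPolynomial (Option I) ℂ} (h : EK D ζ ρ u₀ (k + 1) Q) (j : Fin β) :
    EK D ζ ρ u₀ k (D.dl (some j) Q) := by
  intro w hw
  rw [lw_some]
  refine h _ ?_
  rw [List.length_append, List.length_singleton]
  omega

theorem EK_none (hDEV : SpecDEV) (D : QD β I Λ) (hD : D.Good)
    (hcom : ∀ c P, D.dl none (D.dl c P) = D.dl c (D.dl none P))
    {ζ : ℂ → (Fin β → ℂ)} {ρ : ℂ → ℂ} {u₀ : ℂ} {k : ℕ} (hζ : AnalyticAt ℂ ζ u₀)
    (hρ : AnalyticAt ℂ ρ u₀) (h0 : D.th D.o (ζ u₀) ≠ 0) (hn : ¬ ∀ᶠ u in 𝓝 u₀, ρ u = ρ u₀)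
    {Q : MvPolynomial (Option I) ℂ} (h : EK D ζ ρ u₀ (k + 1) Q) :
    EK D ζ ρ u₀ k (D.dl none Q) := by
  intro w hw
  rw [lw_none D hcom]
  -- the derivative of ρ does not vanish near u₀
  have hρ' : ¬ ∀ᶠ u in 𝓝 u₀, deriv ρ u = 0 := by
    intro h1
    apply hn
    obtain ⟨ε, hε, hb⟩ := Metric.eventually_nhds_iff_ball.1 (h1.and hρ.eventually_analyticAt)
    filter_upwards [Metric.ball_mem_nhds u₀ hε] with u hu
    refine (convex_ball u₀ ε).is_const_of_fderivWithin_eq_zero (𝕜 := ℂ) (f := ρ) ?_ ?_ hu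
      (Metric.mem_ball_self hε)
    · intro x hx
      exact (hb x hx).2.differentiableAt.differentiableWithinAt
    · intro x hx
      rw [fderivWithin_of_isOpen Metric.isOpen_ball hx]
      ext
      have := (hb x hx).1
      simpa using this
  have hth : ∀ᶠ u in 𝓝 u₀, D.th D.o (ζ u) ≠ 0 := by
    have hc : ContinuousAt (fun u => D.th D.o (ζ u)) u₀ :=
      ((hD.good.diff D.o).continuous.continuousAt).comp hζ.continuousAt
    exact hc.eventually_ne h0
  have hg : ∀ᶠ u in 𝓝 u₀, D.ev (ζ u) (ρ u) (D.lw w Q) = 0 := h w (by omega)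
  have hgj : ∀ᶠ u in 𝓝 u₀, ∀ j, D.ev (ζ u) (ρ u) (D.dl (some j) (D.lw w Q)) = 0 := by
    rw [eventually_all]
    intro j
    refine h (j :: w) ?_
    rw [List.length_cons]
    omega
  have hprod : ∀ᶠ u in 𝓝 u₀, deriv ρ u * D.ev (ζ u) (ρ u) (D.dl none (D.lw w Q)) = 0 := by
    filter_upwards [hg.eventually_nhds, hgj, hth, hζ.eventually_analyticAt,
      hρ.eventually_analyticAt] with u h1 h2 h3 h4 h5
    have h6 := chain hDEV D hD (D.lw w Q) h4.differentiableAt h5.differentiableAt h3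
    have h7 : HasDerivAt (fun v => D.ev (ζ v) (ρ v) (D.lw w Q)) 0 u :=
      (hasDerivAt_const u (0 : ℂ)).congr_of_eventuallyEq h1
    have h8 := h6.unique h7
    simpa [h2] using h8
  have ha : AnalyticAt ℂ (fun u => D.ev (ζ u) (ρ u) (D.dl none (D.lw w Q))) u₀ :=
    AnalyticAt.fun_comp (g := fun zr : (Fin β → ℂ) × ℂ => D.ev zr.1 zr.2 (D.dl none (D.lw w Q)))
      (f := fun u => (ζ u, ρ u)) (hDEV D hD (D.dl none (D.lw w Q)) (ζ u₀) (ρ u₀) h0).1
      (hζ.prod hρ)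
  rcases (hρ.deriv).eventually_eq_zero_or_eventually_ne_zero with h1 | h1
  · exact absurd h1 hρ'
  rcases ha.eventually_eq_zero_or_eventually_ne_zero with h2 | h2
  · exact h2
  · exfalso
    have h3 := (hprod.filter_mono nhdsWithin_le_nhds).and (h1.and h2)
    obtain ⟨u, h4, h5, h6⟩ := h3.exists
    rcases mul_eq_zero.1 h4 with h7 | h7
    · exact h5 h7
    · exact h6 h7

theorem EK_it (hDEV : SpecDEV) (D : QD β I Λ) (hD : D.Good)
    (hcom : ∀ c P, D.dl none (D.dl c P) = D.dl c (D.dl none P))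
    {ζ : ℂ → (Fin β → ℂ)} {ρ : ℂ → ℂ} {u₀ : ℂ} {k : ℕ} (hζ : AnalyticAt ℂ ζ u₀)
    (hρ : AnalyticAt ℂ ρ u₀) (h0 : D.th D.o (ζ u₀) ≠ 0) (hn : ¬ ∀ᶠ u in 𝓝 u₀, ρ u = ρ u₀)
    {Q : MvPolynomial (Option I) ℂ} (h : EK D ζ ρ u₀ k Q) :
    ∀ w : List (Option (Fin β)), w.length ≤ k → EK D ζ ρ u₀ (k - w.length) (it D.dl w Q)
  | [], _ => h
  | c :: w, hw => by
    rw [List.length_cons] at hw
    have ih := EK_it hDEV D hD hcom hζ hρ h0 hn h w (by omega)
    have he : k - w.length = (k - (w.length + 1)) + 1 := by omega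
    rw [he] at ih
    rw [List.length_cons]
    cases c with
    | none => exact EK_none hDEV D hD hcom hζ hρ h0 hn ih
    | some j => exact EK_some D ih j

end TANM

open TANM in
/-- Arcs which are not contained in a leaf. -/
theorem specTAN (hDEV : SpecDEV) (hNNP : SpecNNP) : SpecTAN := by
  intro β I Λ _ _ D hD C hC d P hP u₀ ζ ρ hζ hρ h0 hw hn
  obtain ⟨-, -, hcom, -⟩ := hNNP D hD
  refine hC.2 d P hP (ζ u₀) (ρ u₀) h0 fun w hwl => ?_
  have h1 := EK_it hDEV D hD hcom hζ hρ h0 hn (k := C * d) hw w hwl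
  have h2 := (h1 [] (Nat.zero_le _)).self_of_nhds
  exact h2

end Pool.Agent.Lib.MPf11a48.AS
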