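import Pool.Agent.Lib.MP_f11a48_ag.AS.SpecT
import Pool.Agent.Lib.MP_f11a48_ag.AS.Qmu

/-!
# Project AS, module TFV (helper23): the values of the `f_i` at torsion points are algebraic
-/

set_option autoImplicit false

open MvPolynomial Pool.Agent.Lib.MPf11a48.CM Filter Topology Asymptotics NumberField

namespace Pool.Agent.Lib.MPf11a48.AS

namespace TFVM

/-- the order of an analytic function -/
theorem exists_order {α : ℂ → ℂ} (hα : AnalyticAt ℂ α 0) (h : ¬ ∀ᶠ t in 𝓝 (0 : ℂ), α t = 0) :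
    ∃ k, iteratedDeriv k α 0 ≠ 0 ∧ ∀ j < k, iteratedDeriv j α 0 = 0 := by
  classical
  have hex : ∃ k, iteratedDeriv k α 0 ≠ 0 := by
    by_contra hcon
    push Not at hcon
    apply h
    rw [hα.hasFPowerSeriesAt.locally_zero_iff]
    ext n
    simp [hcon n]
  exact ⟨Nat.find hex, Nat.find_spec hex, fun j hj => by
    have := Nat.find_min hex hj
    push Not at this
    exact this⟩

/-- algebraic numbers are dense -/
theorem dense_Qbar : Dense {a : ℂ | a ∈ Qbar} := by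
  rw [Metric.dense_iff]
  intro z r hr
  obtain ⟨p, hp⟩ := exists_rat_near z.re (show (0 : ℝ) < r / 2 by positivity)
  obtain ⟨q, hq⟩ := exists_rat_near z.im (show (0 : ℝ) < r / 2 by positivity)
  refine ⟨(p : ℂ) + (q : ℂ) * Complex.I, ?_, ?_⟩
  · rw [Metric.mem_ball, dist_eq_norm]
    refine lt_of_le_of_lt (Complex.norm_le_abs_re_add_abs_im _) ?_
    have h1 : ((p : ℂ) + (q : ℂ) * Complex.I - z).re = p - z.re := by simp
    have h2 : ((p : ℂ) + (q : ℂ) * Complex.I - z).im = q - z.im := by simp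
    rw [h1, h2, abs_sub_comm, abs_sub_comm (q : ℝ)]
    linarith
  · have hI : Complex.I ∈ Qbar := by
      rw [mem_algebraicClosure_iff]
      refine ⟨Polynomial.X ^ 2 + 1, ?_, by simp⟩
      exact (Polynomial.monic_X_pow_add_C (1 : ℚ) two_ne_zero).ne_zero
    have hr : ∀ a : ℚ, (a : ℂ) ∈ Qbar := fun a => by simp
    exact add_mem (hr p) (mul_mem (hr q) hI)

/-- approximation in `ℂ^β` -/
theorem exists_Qbar {β : ℕ} {G : (Fin β → ℂ) → ℂ} (hG : Continuous G) (γ z : Fin β → ℂ)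
    (h : G z ≠ 0) : ∃ v : Fin β → ℂ, (∀ j, v j ∈ Qbar) ∧ G (γ + v) ≠ 0 := by
  have hd : Dense (Set.univ.pi fun _ : Fin β => {a : ℂ | a ∈ Qbar}) :=
    dense_pi _ fun _ _ => dense_Qbar
  have hc : Continuous fun v : Fin β → ℂ => G (γ + v) := hG.comp (by fun_prop)
  have ho : IsOpen {v : Fin β → ℂ | G (γ + v) ≠ 0} := isOpen_ne_fun hc continuous_const
  obtain ⟨v, hv1, hv2⟩ := hd.inter_open_nonempty _ ho ⟨z - γ, by
    show G (γ + (z - γ)) ≠ 0
    rwa [add_sub_cancel]⟩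
  exact ⟨v, fun j => hv2 j (Set.mem_univ j), hv1⟩

variable {β : ℕ} {I Λ : Type} [Fintype I] [Fintype Λ]

/-- the choice of the direction and of the order -/
theorem exists_dir (hSRG : SpecSRG) (D : QD β I Λ) (hD : D.Good) (γ : Fin β → ℂ)
    (hγ : D.th D.o γ ≠ 0) (a : MvPolynomial I ℂ) (ha : a ∉ D.nf) :
    ∃ (v : Fin β → ℂ) (k : ℕ), (∀ j, v j ∈ Qbar) ∧
      iteratedDeriv k (fun t : ℂ => eval (D.fv (γ + t • v)) a) 0 ≠ 0 ∧
      ∀ j < k, iteratedDeriv j (fun t : ℂ => eval (D.fv (γ + t • v)) a) 0 = 0 := by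
  obtain ⟨s1, -, -, s4⟩ := hSRG D.toTH hD.good
  obtain ⟨⟨N, G, hG, hGe⟩, -⟩ := s1 a
  have hex : ∃ z, G z ≠ 0 := by
    rw [TH.mem_nf] at ha
    push Not at ha
    obtain ⟨z, hz, hza⟩ := ha
    refine ⟨z, ?_⟩
    rw [← hGe z hz]
    exact mul_ne_zero hza (pow_ne_zero _ hz)
  obtain ⟨z, hz⟩ := hex
  obtain ⟨v, hv, hGv⟩ := exists_Qbar hG.continuous γ z hz
  have hline : Differentiable ℂ fun t : ℂ => γ + t • v := by fun_prop
  have han : AnalyticAt ℂ (fun t : ℂ => eval (D.fv (γ + t • v)) a) 0 := by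
    have h1 : AnalyticAt ℂ (fun t : ℂ => γ + t • v) 0 := hline.analyticAt 0
    have h2 : AnalyticAt ℂ (fun z => eval (D.fv z) a) (γ + (0 : ℂ) • v) := by
      rw [zero_smul, add_zero]
      exact s4 _ (s1 a) γ hγ
    exact AnalyticAt.fun_comp (g := fun z => eval (D.fv z) a) (f := fun t : ℂ => γ + t • v) h2 h1
  obtain ⟨k, hk1, hk2⟩ := exists_order han (by
    intro h0
    have hne : ∀ᶠ t in 𝓝 (0 : ℂ), D.th D.o (γ + t • v) ≠ 0 := by
      have hc : Continuous fun t : ℂ => D.th D.o (γ + t • v) :=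
        (hD.good.diff D.o).continuous.comp (by fun_prop)
      refine hc.continuousAt.eventually_ne ?_
      rw [zero_smul, add_zero]
      exact hγ
    have hg : Differentiable ℂ fun t : ℂ => G (γ + t • v) := hG.comp hline
    have hA : AnalyticOnNhd ℂ (fun t : ℂ => G (γ + t • v)) Set.univ :=
      hg.differentiableOn.analyticOnNhd isOpen_univ
    have h1 : (fun t : ℂ => G (γ + t • v)) =ᶠ[𝓝 0] 0 := by
      filter_upwards [h0, hne] with t ht1 ht2
      show G (γ + t • v) = 0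
      rw [← hGe _ ht2]
      show eval (D.fv (γ + t • v)) a * _ = 0
      rw [ht1, zero_mul]
    have h2 := hA.eqOn_zero_of_preconnected_of_eventuallyEq_zero isPreconnected_univ
      (Set.mem_univ 0) h1 (Set.mem_univ 1)
    apply hGv
    have h3 : G (γ + (1 : ℂ) • v) = 0 := h2
    rwa [one_smul] at h3)
  exact ⟨v, k, hv, hk1, hk2⟩

omit [Fintype I] [Fintype Λ] in
/-- the conjugate point satisfies all relations -/
theorem conj_rel (D : QD β I Λ) (τ : ℂ ≃+* ℂ)
    (hn : ∀ P ∈ D.nf, map (τ.symm : ℂ →+* ℂ) P ∈ D.nf) (γ : Fin β → ℂ) (hγ : D.th D.o γ ≠ 0)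
    (P : MvPolynomial I ℂ) (hP : P ∈ D.nf) : eval (fun i => τ (D.f i γ)) P = 0 := by
  have h1 := (TH.mem_nf D.toTH _).1 (hn P hP) γ hγ
  have h2 : (τ : ℂ →+* ℂ) (eval (D.fv γ) (map (τ.symm : ℂ →+* ℂ) P)) = 0 := by
    rw [h1, map_zero]
  rw [eval_map, eval₂_comp_left] at h2
  have h3 : (τ : ℂ →+* ℂ).comp (τ.symm : ℂ →+* ℂ) = RingHom.id ℂ := by
    ext x
    simp
  rw [h3] at h2
  exact h2

end TFVM

open TFVM in
theorem specTFV (hBAS : SpecBAS) (hSRG : SpecSRG) (hNSZ : SpecNSZ) (hAUT : SpecAUT)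
    (hQFR : SpecQFR) (hCNJ : SpecCNJ) (hTAU : SpecTAU) (hLDC : SpecLDC) : SpecTFV := by
  intro β I Λ _ _ D hD hA q hq γ x hγ hx i₀
  have hq0 : (q : ℂ) ≠ 0 := by exact_mod_cast (by omega : q ≠ 0)
  obtain ⟨b1, -, -, -, -, b6, -⟩ := hBAS D.toTH hD.good
  obtain ⟨s1, -, -, s4⟩ := hSRG D.toTH hD.good
  refine hAUT.2 _ (Set.Countable.mono ?_
    (Set.countable_range fun y : Λ → ℤ => D.f i₀ ((q : ℂ)⁻¹ • D.vec y)))
  rintro w ⟨τ, hτ, rfl⟩
  have hτs : FixQ τ.symm := fun a ha => by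
    rw [RingEquiv.symm_apply_eq]
    exact (hτ a ha).symm
  obtain ⟨γ', hγ', hfv⟩ := hNSZ D.toTH hD.good (fun i => τ (D.f i γ))
    (conj_rel D τ (hTAU D hD hA τ.symm hτs).1 γ hγ)
  have hf' : ∀ i, D.f i γ' = τ (D.f i γ) := fun i => congrFun hfv i
  have htau := ((hTAU D hD hA τ hτ).2 q hq).1
  -- the values at `q γ'`
  have hval : ∀ i, D.th i ((q : ℂ) • γ') = D.th D.o ((q : ℂ) • γ') * D.f i 0 := by
    intro i
    obtain ⟨a, b, ha, hab⟩ := (hQFR D hD q hq).1 i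
    obtain ⟨v, k, hv, hk1, hk2⟩ := exists_dir hSRG D hD γ hγ a ha
    have hline : Differentiable ℂ fun t : ℂ => γ + t • v := by fun_prop
    have hline' : Differentiable ℂ fun t : ℂ => γ' + t • v := by fun_prop
    have hpan : ∀ (δ : Fin β → ℂ), D.th D.o δ ≠ 0 → ∀ P : MvPolynomial I ℂ,
        AnalyticAt ℂ (fun t : ℂ => eval (D.fv (δ + t • v)) P) 0 := by
      intro δ hδ P
      have hl : Differentiable ℂ fun t : ℂ => δ + t • v := by fun_prop
      have h2 : AnalyticAt ℂ (fun z => eval (D.fv z) P) (δ + (0 : ℂ) • v) := by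
        rw [zero_smul, add_zero]
        exact s4 _ (s1 P) δ hδ
      exact AnalyticAt.fun_comp (g := fun z => eval (D.fv z) P) (f := fun t : ℂ => δ + t • v) h2
        (hl.analyticAt 0)
    have hth : ∀ (j : I) (δ : Fin β → ℂ),
        Differentiable ℂ fun t : ℂ => D.th j ((q : ℂ) • (δ + t • v)) := by
      intro j δ
      have h1 : Differentiable ℂ fun t : ℂ => (q : ℂ) • (δ + t • v) := by fun_prop
      exact (hD.good.diff j).comp h1
    have hne : ∀ δ : Fin β → ℂ, D.th D.o δ ≠ 0 →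
        ∀ᶠ t in 𝓝 (0 : ℂ), D.th D.o (δ + t • v) ≠ 0 := by
      intro δ hδ
      have hc : Continuous fun t : ℂ => D.th D.o (δ + t • v) :=
        (hD.good.diff D.o).continuous.comp (by fun_prop)
      refine hc.continuousAt.eventually_ne ?_
      rw [zero_smul, add_zero]
      exact hδ
    -- at `γ`
    have hqγ : D.th D.o ((q : ℂ) • γ) ≠ 0 := by
      have h1 := QMUM.ne_vec D.toTH hD.good x hD.good.zero
      rw [zero_add] at h1
      rw [hx]
      exact h1
    have hqne : ∀ᶠ t in 𝓝 (0 : ℂ), D.th D.o ((q : ℂ) • (γ + t • v)) ≠ 0 := by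
      refine (hth D.o γ).continuous.continuousAt.eventually_ne ?_
      rw [zero_smul, add_zero]
      exact hqγ
    have hφ : ContinuousAt (fun t : ℂ => D.f i ((q : ℂ) • (γ + t • v))) 0 := by
      show ContinuousAt (fun t : ℂ => D.th i ((q : ℂ) • (γ + t • v)) /
        D.th D.o ((q : ℂ) • (γ + t • v))) 0
      refine (hth i γ).continuous.continuousAt.div (hth D.o γ).continuous.continuousAt ?_
      rw [zero_smul, add_zero]
      exact hqγ
    obtain ⟨l1, l2⟩ := hLDC (fun t : ℂ => eval (D.fv (γ + t • v)) a)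
      (fun t : ℂ => eval (D.fv (γ + t • v)) b) (fun t : ℂ => D.f i ((q : ℂ) • (γ + t • v))) k
      (hpan γ hγ a) (hpan γ hγ b) hφ (by
        filter_upwards [hne γ hγ, hqne] with t ht1 ht2
        have h1 := hab _ ht1
        show D.th i ((q : ℂ) • (γ + t • v)) / D.th D.o ((q : ℂ) • (γ + t • v)) *
          eval (D.fv (γ + t • v)) a = eval (D.fv (γ + t • v)) b
        rw [div_mul_eq_mul_div, h1, mul_div_cancel_left₀ _ ht2]) hk2
    have hφ0 : D.f i ((q : ℂ) • (γ + (0 : ℂ) • v)) = D.f i 0 := by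
      rw [zero_smul, add_zero, hx]
      have h1 := congrFun (b1 x 0).2 i
      rw [zero_add] at h1
      exact h1
    have l2' : iteratedDeriv k (fun t : ℂ => eval (D.fv (γ + t • v)) b) 0 =
        D.f i 0 * iteratedDeriv k (fun t : ℂ => eval (D.fv (γ + t • v)) a) 0 := by
      rw [l2]
      show D.f i ((q : ℂ) • (γ + (0 : ℂ) • v)) * _ = _
      rw [hφ0]
    -- at `γ'`
    have hvτ : ∀ j, τ (v j) = v j := fun j => hτ _ (hv j)
    have cα := hCNJ D hD hA τ hτ γ γ' hγ hγ' hf' v hvτ a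
    have cβ := hCNJ D hD hA τ hτ γ γ' hγ hγ' hf' v hvτ b
    have hχ : AnalyticAt ℂ (fun t : ℂ => D.th i ((q : ℂ) • (γ' + t • v)) *
        eval (D.fv (γ' + t • v)) (map (τ : ℂ →+* ℂ) a)) 0 :=
      ((hth i γ').analyticAt 0).mul (hpan γ' hγ' _)
    obtain ⟨-, m1⟩ := hLDC (fun t : ℂ => eval (D.fv (γ' + t • v)) (map (τ : ℂ →+* ℂ) a))
      (fun t : ℂ => D.th i ((q : ℂ) • (γ' + t • v)) *
        eval (D.fv (γ' + t • v)) (map (τ : ℂ →+* ℂ) a))
      (fun t : ℂ => D.th i ((q : ℂ) • (γ' + t • v))) k (hpan γ' hγ' _) hχ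
      (hth i γ').continuous.continuousAt (Eventually.of_forall fun t => rfl) (fun j hj => by
        rw [cα j, hk2 j hj, map_zero])
    obtain ⟨-, m2⟩ := hLDC (fun t : ℂ => eval (D.fv (γ' + t • v)) (map (τ : ℂ →+* ℂ) b))
      (fun t : ℂ => D.th i ((q : ℂ) • (γ' + t • v)) *
        eval (D.fv (γ' + t • v)) (map (τ : ℂ →+* ℂ) a))
      (fun t : ℂ => D.th D.o ((q : ℂ) • (γ' + t • v))) k (hpan γ' hγ' _) hχ
      (hth D.o γ').continuous.continuousAt (by
        filter_upwards [hne γ' hγ'] with t ht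
        exact (htau i a b hab _ ht).symm) (fun j hj => by
        rw [cβ j, l1 j hj, map_zero])
    have m3 := m1.symm.trans m2
    simp only [zero_smul, add_zero] at m3
    rw [cα k, cβ k, l2', map_mul, hτ _ (hA.f_value i)] at m3
    have hτk : τ (iteratedDeriv k (fun t : ℂ => eval (D.fv (γ + t • v)) a) 0) ≠ 0 := by
      rwa [Ne, map_eq_zero_iff τ τ.injective]
    rw [← mul_assoc] at m3
    exact mul_right_cancel₀ hτk m3
  have hne : D.th D.o ((q : ℂ) • γ') ≠ 0 := by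
    intro h0
    obtain ⟨i, hi⟩ := hD.good.ne ((q : ℂ) • γ')
    apply hi
    rw [hval i, h0, zero_mul]
  obtain ⟨y, hy⟩ := b6 ((q : ℂ) • γ') 0 hne hD.good.zero (by
    funext i
    show D.th i ((q : ℂ) • γ') / D.th D.o ((q : ℂ) • γ') = D.f i 0
    rw [hval i, mul_div_cancel_left₀ _ hne])
  refine ⟨y, ?_⟩
  show D.f i₀ ((q : ℂ)⁻¹ • D.vec y) = τ (D.f i₀ γ)
  rw [← hf' i₀, ← hy, sub_zero, smul_smul, inv_mul_cancel₀ hq0, one_smul]

end Pool.Agent.Lib.MPf11a48.AS
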