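import Pool.Agent.Lib.MP_f11a48_ag.AS.SpecT
import Pool.Agent.Lib.MP_f11a48_ag.AS.Qua
import Pool.Agent.Lib.MP_f11a48_ag.U.Osgood

/-!
# Project AS, block T, module TZV: the values of `ze` at torsion points
-/

set_option autoImplicit false

open MvPolynomial Pool.Agent.Lib.MPf11a48.CM Filter Topology Asymptotics

namespace Pool.Agent.Lib.MPf11a48.AS

namespace TZVM

theorem I_mem : Complex.I ∈ Qbar := by
  rw [mem_algebraicClosure_iff']
  exact Complex.isIntegral_rat_I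

/-- algebraic numbers are dense -/
theorem dense_one (w : ℂ) {ε : ℝ} (hε : 0 < ε) : ∃ v ∈ Qbar, ‖v - w‖ < ε := by
  obtain ⟨a, ha1, ha2⟩ := exists_rat_btwn (show w.re < w.re + ε / 2 by linarith)
  obtain ⟨b, hb1, hb2⟩ := exists_rat_btwn (show w.im < w.im + ε / 2 by linarith)
  refine ⟨(a : ℂ) + (b : ℂ) * Complex.I, ?_, ?_⟩
  · exact Qbar.add_mem (SubfieldClass.ratCast_mem Qbar a)
      (Qbar.mul_mem (SubfieldClass.ratCast_mem Qbar b) I_mem)
  · refine (Complex.norm_le_abs_re_add_abs_im _).trans_lt ?_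
    have h1 : ((a : ℂ) + (b : ℂ) * Complex.I - w).re = a - w.re := by simp
    have h2 : ((a : ℂ) + (b : ℂ) * Complex.I - w).im = b - w.im := by simp
    rw [h1, h2, abs_of_pos (by linarith), abs_of_pos (by linarith)]
    linarith

theorem dense_pi {β : ℕ} (w : Fin β → ℂ) {ε : ℝ} (hε : 0 < ε) :
    ∃ v : Fin β → ℂ, (∀ j, v j ∈ Qbar) ∧ ‖v - w‖ < ε := by
  choose v hv1 hv2 using fun j => dense_one (w j) hε
  refine ⟨v, hv1, ?_⟩
  rw [pi_norm_lt_iff hε]
  exact hv2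

variable {β : ℕ} {I Λ : Type} [Fintype I] [Fintype Λ]

theorem f_an (D : TH (Fin β) I Λ) (hD : D.Good) (i : I) {z : Fin β → ℂ}
    (hz : D.th D.o z ≠ 0) : AnalyticAt ℂ (D.f i) z :=
  (U.Osgood.analyticAt_of_differentiable (hD.diff i) z).fun_div
    (U.Osgood.analyticAt_of_differentiable (hD.diff D.o) z) hz

theorem ze_an (D : QD β I Λ) (hD : D.Good) {z : Fin β → ℂ}
    (hz : D.th D.o z ≠ 0) : AnalyticAt ℂ D.ze z :=
  (U.Osgood.analyticAt_of_differentiable hD.Y_diff z).fun_div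
    ((U.Osgood.analyticAt_of_differentiable (hD.good.diff D.o) z).fun_pow D.m) (pow_ne_zero _ hz)

/-- polynomials in the `f_i` along a line -/
theorem line_an (D : TH (Fin β) I Λ) (hD : D.Good) (P : MvPolynomial I ℂ)
    {γ : Fin β → ℂ} (hz : D.th D.o γ ≠ 0) (v : Fin β → ℂ) :
    AnalyticAt ℂ (fun t : ℂ => eval (D.fv (γ + t • v)) P) 0 := by
  have hl : AnalyticAt ℂ (fun t : ℂ => γ + t • v) 0 := by fun_prop
  have hf : ∀ i, AnalyticAt ℂ (fun t : ℂ => D.f i (γ + t • v)) 0 := fun i =>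
    AnalyticAt.fun_comp (g := D.f i) (f := fun t : ℂ => γ + t • v)
      (by
        have : γ + (0 : ℂ) • v = γ := by simp
        rw [this]
        exact f_an D hD i hz) hl
  induction P using MvPolynomial.induction_on with
  | C a => simpa using analyticAt_const
  | add p q hp hq => simpa only [map_add] using hp.fun_add hq
  | mul_X p k hp =>
    have h := hp.fun_mul (hf k)
    simp only [map_mul, eval_X]
    exact h

/-- A direction over `Qbar` in which a polynomial in the `f_i` does not vanish. -/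
theorem dir (hSRG : SpecSRG) (D : TH (Fin β) I Λ) (hD : D.Good) {a : MvPolynomial I ℂ}
    (ha : a ∉ D.nf) {γ : Fin β → ℂ} (hγ : D.th D.o γ ≠ 0) :
    ∃ v : Fin β → ℂ, (∀ j, v j ∈ Qbar) ∧
      ¬ ∀ᶠ t : ℂ in 𝓝 0, eval (D.fv (γ + t • v)) a = 0 := by
  obtain ⟨⟨k, G, hG, hGe⟩, -⟩ := (hSRG D hD).1 a
  rw [TH.mem_nf] at ha
  push Not at ha
  obtain ⟨z₁, hz₁, hz₂⟩ := ha
  have hG1 : G z₁ ≠ 0 := by
    rw [← hGe z₁ hz₁]
    exact mul_ne_zero hz₂ (pow_ne_zero _ hz₁)
  obtain ⟨ε, hε, hb⟩ := Metric.eventually_nhds_iff_ball.1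
    ((hG.continuous.continuousAt (x := z₁)).eventually_ne hG1)
  obtain ⟨v, hv, hvn⟩ := dense_pi (z₁ - γ) hε
  refine ⟨v, hv, fun h => ?_⟩
  have hgd : Differentiable ℂ fun t : ℂ => G (γ + t • v) :=
    hG.comp ((differentiable_const γ).add (differentiable_id.smul_const v))
  have h1 : AnalyticOnNhd ℂ (fun t : ℂ => G (γ + t • v)) Set.univ :=
    fun t _ => hgd.analyticAt t
  have h2 : (fun t : ℂ => G (γ + t • v)) =ᶠ[𝓝 0] fun _ => 0 := by
    have h3 : ∀ᶠ t : ℂ in 𝓝 0, D.th D.o (γ + t • v) ≠ 0 := by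
      have hc : Continuous fun t : ℂ => D.th D.o (γ + t • v) :=
        (hD.diff D.o).continuous.comp (by fun_prop)
      refine hc.continuousAt.eventually_ne ?_
      simpa using hγ
    filter_upwards [h, h3] with t h4 h5
    have h6 := hGe _ h5
    rw [← h6]
    show eval (D.fv (γ + t • v)) a * _ = 0
    rw [h4, zero_mul]
  have h3 := h1.eq_of_eventuallyEq (fun _ _ => analyticAt_const) h2
  have h4 := congrFun h3 1
  rw [one_smul] at h4
  refine hb (γ + v) ?_ h4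
  rw [mem_ball_iff_norm]
  have h5 : γ + v - z₁ = v - (z₁ - γ) := by abel
  rw [h5]
  exact hvn

end TZVM

open TZVM in
/-- The values of `ze` at torsion points. -/
theorem specTZV (hBAS : SpecBAS) (hSRG : SpecSRG) (hAUT : SpecAUT) (hQFR : SpecQFR)
    (hCNJ : SpecCNJ) (hTAU : SpecTAU) (hLDC : SpecLDC) (hTFV : SpecTFV) : SpecTZV := by
  intro β I Λ _ _ D hD hAl q hq γ x hγ hx hL
  have hDt := hD.good
  obtain ⟨-, a, b, ha, hab⟩ := hQFR D hD q hq
  obtain ⟨v, hv, hvn⟩ := dir hSRG D.toTH hDt ha hγ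
  obtain ⟨-, -, hze⟩ := QUAM.comb_mem hBAS D hD x
  have hz0 := hDt.zero
  have hqγ : D.th D.o ((q : ℂ) • γ) ≠ 0 := by
    rw [hx]
    have h := ((hBAS D.toTH hDt).1 x 0).1.2 hz0
    rwa [zero_add] at h
  -- the function V along the line
  set φ : ℂ → ℂ := fun t => D.ze ((q : ℂ) • (γ + t • v)) - (q : ℂ) * D.ze (γ + t • v) with hφ
  have hγ0 : γ + (0 : ℂ) • v = γ := by simp
  have hl : AnalyticAt ℂ (fun t : ℂ => γ + t • v) 0 := by fun_prop
  have hl2 : AnalyticAt ℂ (fun t : ℂ => (q : ℂ) • (γ + t • v)) 0 := by fun_prop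
  have hφa : AnalyticAt ℂ φ 0 := by
    refine AnalyticAt.fun_sub ?_ (analyticAt_const.fun_mul ?_)
    · exact AnalyticAt.fun_comp (g := D.ze) (f := fun t : ℂ => (q : ℂ) • (γ + t • v))
        (by rw [hγ0]; exact ze_an D hD hqγ) hl2
    · exact AnalyticAt.fun_comp (g := D.ze) (f := fun t : ℂ => γ + t • v)
        (by rw [hγ0]; exact ze_an D hD hγ) hl
  have e1 : ∀ᶠ t : ℂ in 𝓝 0, D.th D.o (γ + t • v) ≠ 0 := by
    have hc : Continuous fun t : ℂ => D.th D.o (γ + t • v) :=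
      (hDt.diff D.o).continuous.comp (by fun_prop)
    refine hc.continuousAt.eventually_ne ?_
    rw [hγ0]
    exact hγ
  have e2 : ∀ᶠ t : ℂ in 𝓝 0, D.th D.o ((q : ℂ) • (γ + t • v)) ≠ 0 := by
    have hc : Continuous fun t : ℂ => D.th D.o ((q : ℂ) • (γ + t • v)) :=
      (hDt.diff D.o).continuous.comp (by fun_prop)
    refine hc.continuousAt.eventually_ne ?_
    rw [hγ0]
    exact hqγ
  -- the order of α
  have hα := line_an D.toTH hDt a hγ v
  have hβ := line_an D.toTH hDt b hγ v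
  obtain ⟨k, hk⟩ : ∃ k : ℕ,
      analyticOrderAt (fun t : ℂ => eval (D.fv (γ + t • v)) a) 0 = k := by
    have h1 : analyticOrderAt (fun t : ℂ => eval (D.fv (γ + t • v)) a) 0 ≠ ⊤ := by
      rw [Ne, analyticOrderAt_eq_top]
      exact hvn
    obtain ⟨k, hk⟩ := ENat.ne_top_iff_exists.1 h1
    exact ⟨k, hk.symm⟩
  rw [analyticOrderAt_eq_nat_iff_iteratedDeriv_eq_zero hα] at hk
  obtain ⟨hk1, hk2⟩ := hk
  have hld := (hLDC _ _ φ k hα hβ hφa.continuousAt (by
    filter_upwards [e1, e2] with t h1 h2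
    exact hab _ h1 h2) hk1).2
  -- the value is fixed
  have hV : φ 0 ∈ Qbar := by
    refine hAUT.1 _ fun τ hτ => ?_
    have hfix : ∀ i, D.f i γ = τ (D.f i γ) := fun i =>
      (hτ _ (hTFV D hD hAl q hq γ x hγ hx i)).symm
    have hcj := fun P => hCNJ D hD hAl τ hτ γ γ hγ hγ hfix v (fun j => hτ _ (hv j)) P
    have htau := ((hTAU D hD hAl τ hτ).2 q hq).2 a b hab
    have hα' := line_an D.toTH hDt (MvPolynomial.map (τ : ℂ →+* ℂ) a) hγ v
    have hβ' := line_an D.toTH hDt (MvPolynomial.map (τ : ℂ →+* ℂ) b) hγ v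
    have hld' := (hLDC _ _ φ k hα' hβ' hφa.continuousAt (by
      filter_upwards [e1, e2] with t h1 h2
      exact htau _ h1 h2) (fun j hj => by rw [hcj a j, hk1 j hj, map_zero])).2
    rw [hcj b k, hcj a k, hld, map_mul] at hld'
    have hne : τ (iteratedDeriv k (fun t : ℂ => eval (D.fv (γ + t • v)) a) 0) ≠ 0 :=
      (map_ne_zero τ).2 hk2
    exact mul_right_cancel₀ hne hld'
  -- conclusion
  have h1 : φ 0 = D.ze ((q : ℂ) • γ) - (q : ℂ) * D.ze γ := by
    simp only [hφ, hγ0]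
  have h2 : D.ze ((q : ℂ) • γ) = D.ze 0 := by
    have h := hze 0 hz0
    rw [zero_add] at h
    rw [hx, h, hL, add_zero]
  have h3 : D.ze γ = (D.ze 0 - φ 0) / q := by
    rw [h1, h2]
    have hq0 : (q : ℂ) ≠ 0 := by
      have : q ≠ 0 := by omega
      exact_mod_cast this
    field_simp
    ring
  rw [h3]
  exact Qbar.div_mem (Qbar.sub_mem hAl.ze_value hV) (natCast_mem Qbar q)

end Pool.Agent.Lib.MPf11a48.AS
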