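import Pool.Agent.Lib.MP_f11a48_ag.AS.Hdc

/-!
# Project AS, module UDF: the complex subspace given by a Hodge substructure
-/

set_option autoImplicit false

open Matrix MvPolynomial Pool.Agent.Lib.MPf11a48.CM Pool.Agent.Lib.MPf11a48.GL2T
open Pool.Agent.Lib.MPf11a48.U (AbData Ix EndAlg ComAlg mR mC)
open Pool.Agent.Lib.MPf11a48.U.HDAM (JM JM_row ind_real isEndo_of_comm bas bas_apply real_smul)

namespace Pool.Agent.Lib.MPf11a48.AS

namespace UDFM

open HDCM

variable {g N : ℕ} {K : IntermediateField ℚ ℂ} {A : AbData g N}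

/-- `Ph` as a real linear map -/
noncomputable def PhL (A : AbData g N) :
    Matrix (Ix g) (Ix g) ℝ →ₗ[ℝ] (Ix g → Fin g → ℂ) where
  toFun := Ph A
  map_add' X Y := by
    funext k
    simp only [Ph, Matrix.add_apply, Complex.ofReal_add, add_smul, Finset.sum_add_distrib,
      Pi.add_apply]
  map_smul' t X := by
    funext k
    simp only [Ph, Matrix.smul_apply, smul_eq_mul, Complex.ofReal_mul, RingHom.id_apply,
      Pi.smul_apply, Finset.smul_sum]
    refine Finset.sum_congr rfl fun m _ => ?_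
    rw [mul_smul, real_smul t]

theorem PhL_apply (A : AbData g N) (X : Matrix (Ix g) (Ix g) ℝ) : PhL A X = Ph A X := rfl

theorem Ph_J (hA : A.IsAbVar K) (X : Matrix (Ix g) (Ix g) ℝ) :
    Ph A (X * JM A.lat hA.lat_indep) = Complex.I • Ph A X := by
  funext k
  exact JM_row A.lat hA.lat_indep (X k)

theorem Ph_inj (hA : A.IsAbVar K) : Function.Injective (PhL A) := by
  intro X Y h
  funext k
  exact ind_real hA.lat_indep (congrFun h k)

theorem Ph_surj (hA : A.IsAbVar K) : Function.Surjective (PhL A) := by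
  intro w
  refine ⟨Matrix.of fun k m => (bas A.lat hA.lat_indep).repr (w k) m, ?_⟩
  funext k
  have h1 := (bas A.lat hA.lat_indep).sum_repr (w k)
  change ∑ m, (((bas A.lat hA.lat_indep).repr (w k) m : ℝ) : ℂ) • A.lat m = w k
  simp only [real_smul]
  simpa only [bas_apply] using h1

/-- the complex subspace -/
noncomputable def W (hA : A.IsAbVar K) (N₁ : Submodule ℚ (Matrix (Ix g) (Ix g) ℚ))
    (h : JStab (JM A.lat hA.lat_indep) N₁) : Submodule ℂ (Ix g → Fin g → ℂ) where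
  carrier := (RS N₁).map (PhL A)
  add_mem' := fun {a b} ha hb => ((RS N₁).map (PhL A)).add_mem ha hb
  zero_mem' := ((RS N₁).map (PhL A)).zero_mem
  smul_mem' := by
    rintro t _ ⟨X, hX, rfl⟩
    refine ⟨t.re • X + t.im • (X * JM A.lat hA.lat_indep),
      (RS N₁).add_mem ((RS N₁).smul_mem _ hX) ((RS N₁).smul_mem _ (RS_stab h hX)), ?_⟩
    rw [map_add, map_smul, map_smul, PhL_apply, PhL_apply, Ph_J hA]
    funext k j
    simp only [Pi.smul_apply, Pi.add_apply, smul_eq_mul, Complex.real_smul]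
    conv_rhs => rw [← Complex.re_add_im t]
    ring

theorem mem_W (hA : A.IsAbVar K) (N₁ : Submodule ℚ (Matrix (Ix g) (Ix g) ℚ))
    (h : JStab (JM A.lat hA.lat_indep) N₁) (w : Ix g → Fin g → ℂ) :
    w ∈ W hA N₁ h ↔ ∃ X ∈ RS N₁, Ph A X = w := Iff.rfl

theorem mem_W_iff (hA : A.IsAbVar K) (N₁ : Submodule ℚ (Matrix (Ix g) (Ix g) ℚ))
    (h : JStab (JM A.lat hA.lat_indep) N₁) (X : Matrix (Ix g) (Ix g) ℝ) :
    Ph A X ∈ W hA N₁ h ↔ X ∈ RS N₁ := by
  rw [mem_W]
  constructor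
  · rintro ⟨Y, hY, hYX⟩
    rwa [← Ph_inj hA (show PhL A Y = PhL A X from hYX)]
  · exact fun h => ⟨X, h, rfl⟩

/-! ### Dimensions -/

theorem finrank_RS_le (N₁ : Submodule ℚ (Matrix (Ix g) (Ix g) ℚ)) :
    Module.finrank ℝ (RS N₁) ≤ Module.finrank ℚ N₁ := by
  let b := Module.finBasis ℚ N₁
  have h1 : RS N₁ ≤ Submodule.span ℝ (Set.range fun i => mR (b i).1) := by
    refine Submodule.span_le.2 ?_
    rintro _ ⟨X, hX, rfl⟩
    have h2 : X = ∑ i, b.repr ⟨X, hX⟩ i • (b i).1 := by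
      have h3 := congrArg Subtype.val (b.sum_repr ⟨X, hX⟩)
      rw [Submodule.coe_sum] at h3
      exact h3.symm
    have h4 : mR X = ∑ i, ((b.repr ⟨X, hX⟩ i : ℚ) : ℝ) • mR (b i).1 := by
      conv_lhs => rw [h2]
      ext k m
      simp only [Matrix.map_apply, Matrix.sum_apply, Matrix.smul_apply, smul_eq_mul]
      push_cast
      rfl
    rw [SetLike.mem_coe, h4]
    exact Submodule.sum_mem _ fun i _ => Submodule.smul_mem _ _ (Submodule.subset_span ⟨i, rfl⟩)
  refine (Submodule.finrank_mono h1).trans ?_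
  refine (finrank_range_le_card _).trans ?_
  simp

theorem finrank_RS {N₀ N₁ : Submodule ℚ (Matrix (Ix g) (Ix g) ℚ)} (h : IsCompl N₀ N₁) :
    Module.finrank ℝ (RS N₁) = Module.finrank ℚ N₁ := by
  have h1 := finrank_RS_le N₀
  have h2 := finrank_RS_le N₁
  have h3 := Submodule.finrank_add_le_finrank_add_finrank (RS N₀) (RS N₁)
  rw [RS_sup h.sup_eq_top, finrank_top] at h3
  have h4 := Submodule.finrank_add_eq_of_isCompl h
  rw [Module.finrank_matrix, Module.finrank_self] at h3 h4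
  omega

theorem finrank_W (hA : A.IsAbVar K) {N₀ N₁ : Submodule ℚ (Matrix (Ix g) (Ix g) ℚ)}
    (h : JStab (JM A.lat hA.lat_indep) N₁) (hC : IsCompl N₀ N₁) :
    Module.finrank ℚ N₁ = 2 * Module.finrank ℂ (W hA N₁ h) := by
  rw [← finrank_real_of_complex, ← finrank_RS hC]
  have h1 := LinearMap.finrank_range_of_inj (f := (PhL A).domRestrict (RS N₁))
    (fun x y hxy => Subtype.ext (Ph_inj hA hxy))
  rw [LinearMap.range_domRestrict] at h1
  rw [← h1]
  rfl

/-! ### The projector -/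

/-- `prE` as a linear map -/
def prL {R : Type} [CommRing R] (Bk : Ix g → Ix g → Matrix (Ix g) (Ix g) R) :
    Matrix (Ix g) (Ix g) R →ₗ[R] Matrix (Ix g) (Ix g) R where
  toFun := prE Bk
  map_add' X Y := by
    ext k l
    simp only [prE, Matrix.of_apply, Matrix.add_apply, ← Finset.sum_add_distrib]
    refine Finset.sum_congr rfl fun k' _ => ?_
    rw [show (X + Y) k' = X k' + Y k' from rfl, Matrix.add_vecMul]
    rfl
  map_smul' t X := by
    ext k l
    simp only [prE, Matrix.of_apply, Matrix.smul_apply, smul_eq_mul, Finset.mul_sum,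
      RingHom.id_apply]
    refine Finset.sum_congr rfl fun k' _ => ?_
    rw [show (t • X) k' = t • X k' from rfl, Matrix.smul_vecMul]
    rfl

theorem prL_cast (Bk : Ix g → Ix g → Matrix (Ix g) (Ix g) ℚ) (Y : Matrix (Ix g) (Ix g) ℚ) :
    prL (fun k' k => mR (Bk k' k)) (mR Y) = mR (prE Bk Y) := by
  ext k l
  simp only [prL, LinearMap.coe_mk, AddHom.coe_mk, prE, Matrix.of_apply, Matrix.vecMul, dotProduct,
    Matrix.map_apply]
  push_cast
  rfl

section Pr

variable {Bk : Ix g → Ix g → Matrix (Ix g) (Ix g) ℚ}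
  {N₀ N₁ : Submodule ℚ (Matrix (Ix g) (Ix g) ℚ)}

theorem pr_mem (h1 : ∀ Y, prE Bk Y ∈ N₁) (Z : Matrix (Ix g) (Ix g) ℝ) :
    prL (fun k' k => mR (Bk k' k)) Z ∈ RS N₁ := by
  have h : RS (⊤ : Submodule ℚ (Matrix (Ix g) (Ix g) ℚ)) ≤
      (RS N₁).comap (prL (fun k' k => mR (Bk k' k))) := by
    refine Submodule.span_le.2 ?_
    rintro _ ⟨X, -, rfl⟩
    rw [SetLike.mem_coe, Submodule.mem_comap, prL_cast]
    exact mem_RS (h1 X)
  exact h (mem_RS_top Z)

theorem pr_id (h2 : ∀ Y ∈ N₁, prE Bk Y = Y) {Z : Matrix (Ix g) (Ix g) ℝ} (hZ : Z ∈ RS N₁) :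
    prL (fun k' k => mR (Bk k' k)) Z = Z := by
  have h : RS N₁ ≤ LinearMap.eqLocus (prL (fun k' k => mR (Bk k' k))) LinearMap.id := by
    refine Submodule.span_le.2 ?_
    rintro _ ⟨X, hX, rfl⟩
    rw [SetLike.mem_coe, LinearMap.mem_eqLocus, prL_cast, h2 X hX]
    rfl
  exact h hZ

theorem pr_zero (h3 : ∀ Y ∈ N₀, prE Bk Y = 0) {Z : Matrix (Ix g) (Ix g) ℝ} (hZ : Z ∈ RS N₀) :
    prL (fun k' k => mR (Bk k' k)) Z = 0 := by
  have h : RS N₀ ≤ LinearMap.ker (prL (fun k' k => mR (Bk k' k))) := by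
    refine Submodule.span_le.2 ?_
    rintro _ ⟨X, hX, rfl⟩
    rw [SetLike.mem_coe, LinearMap.mem_ker, prL_cast, h3 X hX]
    ext i j
    simp
  exact h hZ

/-- the projector commutes with `J` -/
theorem pr_J {J : Matrix (Ix g) (Ix g) ℝ} (hC : IsCompl N₀ N₁) (s0 : JStab J N₀)
    (s1 : JStab J N₁) (h2 : ∀ Y ∈ N₁, prE Bk Y = Y) (h3 : ∀ Y ∈ N₀, prE Bk Y = 0)
    (Z : Matrix (Ix g) (Ix g) ℝ) :
    prL (fun k' k => mR (Bk k' k)) (Z * J) = prL (fun k' k => mR (Bk k' k)) Z * J := by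
  have hZ : Z ∈ RS N₀ ⊔ RS N₁ := by
    rw [RS_sup hC.sup_eq_top]
    trivial
  obtain ⟨a, ha, b, hb, rfl⟩ := Submodule.mem_sup.1 hZ
  rw [Matrix.add_mul, map_add, map_add, pr_zero h3 ha, pr_id h2 hb, pr_zero h3 (RS_stab s0 ha),
    pr_id h2 (RS_stab s1 hb), zero_add, zero_add]

theorem pr_single (Bk' : Ix g → Ix g → Matrix (Ix g) (Ix g) ℝ) (k' : Ix g) (x : Ix g → ℝ)
    (k : Ix g) : (prL Bk' (Matrix.of (Pi.single k' x))) k = x ᵥ* Bk' k' k := by
  funext l
  change ∑ k'', ((Matrix.of (Pi.single k' x)) k'' ᵥ* Bk' k'' k) l = _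
  rw [Finset.sum_eq_single k']
  · have : (Matrix.of (Pi.single k' x)) k' = x := by
      change (Pi.single (M := fun _ => Ix g → ℝ) k' x) k' = x
      simp
    rw [this]
  · intro b _ hb
    have : (Matrix.of (Pi.single k' x)) b = (0 : Ix g → ℝ) := by
      change (Pi.single (M := fun _ => Ix g → ℝ) k' x) b = 0
      simp [Pi.single_eq_of_ne hb]
    rw [this, Matrix.zero_vecMul]
    rfl
  · intro h
    exact absurd (Finset.mem_univ k') h

theorem blk_comm {J : Matrix (Ix g) (Ix g) ℝ} (hC : IsCompl N₀ N₁) (s0 : JStab J N₀)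
    (s1 : JStab J N₁) (h2 : ∀ Y ∈ N₁, prE Bk Y = Y) (h3 : ∀ Y ∈ N₀, prE Bk Y = 0) (k' k : Ix g) :
    J * mR (Bk k' k) = mR (Bk k' k) * J := by
  have key : ∀ x : Ix g → ℝ, (x ᵥ* J) ᵥ* mR (Bk k' k) = (x ᵥ* mR (Bk k' k)) ᵥ* J := by
    intro x
    have h1 := pr_J (Bk := Bk) hC s0 s1 h2 h3 (Matrix.of (Pi.single k' x))
    have h4 : (Matrix.of (Pi.single k' x)) * J = Matrix.of (Pi.single k' (x ᵥ* J)) := by
      funext a
      change (Pi.single (M := fun _ => Ix g → ℝ) k' x) a ᵥ* J =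
        (Pi.single (M := fun _ => Ix g → ℝ) k' (x ᵥ* J)) a
      by_cases ha : a = k'
      · subst ha
        simp
      · rw [Pi.single_eq_of_ne ha, Pi.single_eq_of_ne ha, Matrix.zero_vecMul]
    rw [h4] at h1
    have h5 := congrFun h1 k
    rw [pr_single] at h5
    rw [h5]
    change (prL (fun k' k => mR (Bk k' k)) (Matrix.of (Pi.single k' x))) k ᵥ* J = _
    rw [pr_single]
  ext a b
  have h1 := congrFun (key (Pi.single a 1)) b
  rw [Matrix.vecMul_vecMul, Matrix.vecMul_vecMul, Matrix.single_one_vecMul,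
    Matrix.single_one_vecMul] at h1
  exact h1

end Pr

/-- the algebraic block -/
theorem exists_P (hA : A.IsAbVar K) {c : GL (Ix g) ℂ} (hc : c.1 = A.per)
    {B : Matrix (Ix g) (Ix g) ℚ} (hB : B ∈ EndAlg c.1)
    (hJ : JM A.lat hA.lat_indep * mR B = mR B * JM A.lat hA.lat_indep) :
    ∃ P : Matrix (Fin g) (Fin g) ℂ, (∀ i j, P i j ∈ Qbar) ∧
      ∀ l j, ∑ i, A.lat l i * P i j = ∑ l', (B l l' : ℂ) * A.lat l' j := by
  obtain ⟨α, hα⟩ := isEndo_of_comm hA hJ
  obtain ⟨B', hB', hcB⟩ := hB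
  have hcinv : c⁻¹.1 * c.1 = 1 := by rw [← Units.val_mul, inv_mul_cancel]; rfl
  let P : Matrix (Fin g) (Fin g) ℂ := fun i j => α (Pi.single i 1) j
  have hP : ∀ z j, α z j = ∑ i, z i * P i j := by
    intro z j
    have h1 : z = ∑ i, z i • (Pi.single i 1 : Fin g → ℂ) := by
      conv_lhs => rw [pi_eq_sum_univ' z]
    conv_lhs => rw [h1]
    rw [map_sum, Finset.sum_apply]
    refine Finset.sum_congr rfl fun i _ => ?_
    rw [map_smul]
    rfl
  have hlat : ∀ l j, ∑ i, A.lat l i * P i j = ∑ l', (B l l' : ℂ) * A.lat l' j := by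
    intro l j
    rw [← hP, hα, Finset.sum_apply]
    rfl
  refine ⟨P, fun i j => ?_, hlat⟩
  -- the column of `B'`
  have hcol : B'.col (Sum.inl j) = Sum.elim (fun i => P i j) 0 := by
    have h1 : c.1 *ᵥ B'.col (Sum.inl j) = c.1 *ᵥ (Sum.elim (fun i => P i j) 0) := by
      funext l
      have h2 := congrFun (congrFun hcB l) (Sum.inl j)
      have h3 : (c.1 *ᵥ B'.col (Sum.inl j)) l = (c.1 * B') l (Sum.inl j) := rfl
      rw [h3, h2, hc]
      simp only [Matrix.mul_apply, Matrix.map_apply, Matrix.mulVec, dotProduct, AbData.per,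
        Fintype.sum_sum_type, Sum.elim_inl, Sum.elim_inr, Pi.zero_apply, mul_zero,
        Finset.sum_const_zero, add_zero]
      rw [hlat, Fintype.sum_sum_type]
    have h4 := congrArg (fun v => c⁻¹.1 *ᵥ v) h1
    simpa only [Matrix.mulVec_mulVec, hcinv, Matrix.one_mulVec] using h4
  have h5 := congrFun hcol (Sum.inl i)
  have h6 : P i j = B' (Sum.inl i) (Sum.inl j) := h5.symm
  rw [h6]
  exact hB' _ _

/-- the complex linear map with blocks `P` -/
def TL (P : Ix g → Ix g → Matrix (Fin g) (Fin g) ℂ) :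
    (Ix g → Fin g → ℂ) →ₗ[ℂ] (Ix g → Fin g → ℂ) where
  toFun w := fun k => ∑ k', w k' ᵥ* P k' k
  map_add' w w' := by
    funext k
    simp only [Pi.add_apply, Matrix.add_vecMul, Finset.sum_add_distrib]
  map_smul' t w := by
    funext k
    simp only [Pi.smul_apply, Matrix.smul_vecMul, Finset.smul_sum, RingHom.id_apply]

theorem TL_Ph {Bk : Ix g → Ix g → Matrix (Ix g) (Ix g) ℚ}
    {P : Ix g → Ix g → Matrix (Fin g) (Fin g) ℂ}
    (hP : ∀ k' k l j, ∑ i, A.lat l i * P k' k i j = ∑ l', (Bk k' k l l' : ℂ) * A.lat l' j)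
    (X : Matrix (Ix g) (Ix g) ℝ) :
    TL P (Ph A X) = Ph A (prL (fun k' k => mR (Bk k' k)) X) := by
  funext k j
  change (∑ k', Ph A X k' ᵥ* P k' k) j = (∑ m, ((∑ k', (X k' ᵥ* mR (Bk k' k)) m : ℝ) : ℂ) • A.lat m) j
  simp only [Finset.sum_apply, Pi.smul_apply, smul_eq_mul, Complex.ofReal_sum, Finset.sum_mul]
  rw [Finset.sum_comm (f := fun m k' => (((X k' ᵥ* mR (Bk k' k)) m : ℝ) : ℂ) * A.lat m j)]
  refine Finset.sum_congr rfl fun k' _ => ?_
  have h1 : (Ph A X k' ᵥ* P k' k) j = ∑ m, (X k' m : ℂ) * ∑ i, A.lat m i * P k' k i j := by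
    simp only [Matrix.vecMul, dotProduct, Ph, Finset.sum_apply, Pi.smul_apply, smul_eq_mul,
      Finset.sum_mul, Finset.mul_sum]
    rw [Finset.sum_comm]
    exact Finset.sum_congr rfl fun _ _ => Finset.sum_congr rfl fun _ _ => by ring
  rw [h1]
  simp only [hP, Finset.mul_sum]
  rw [Finset.sum_comm]
  refine Finset.sum_congr rfl fun m _ => ?_
  simp only [Matrix.vecMul, dotProduct, Matrix.map_apply, Complex.ofReal_sum, Finset.sum_mul,
    Complex.ofReal_mul, Complex.ofReal_ratCast]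
  exact Finset.sum_congr rfl fun _ _ => by ring

/-- the generators of the image -/
def gen (P : Ix g → Ix g → Matrix (Fin g) (Fin g) ℂ) (q : Ix g × Fin g) : Ix g → Fin g → ℂ :=
  fun k j => P q.1 k q.2 j

theorem TL_range (P : Ix g → Ix g → Matrix (Fin g) (Fin g) ℂ) :
    LinearMap.range (TL P) = Submodule.span ℂ (Set.range (gen P)) := by
  have hw : ∀ w, TL P w = ∑ q : Ix g × Fin g, w q.1 q.2 • gen P q := by
    intro w
    funext k j
    change (∑ k', w k' ᵥ* P k' k) j = _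
    rw [Fintype.sum_prod_type]
    simp only [Finset.sum_apply, Pi.smul_apply, smul_eq_mul, gen, Matrix.vecMul, dotProduct]
  apply le_antisymm
  · rintro _ ⟨w, rfl⟩
    rw [hw]
    exact Submodule.sum_mem _ fun q _ => Submodule.smul_mem _ _ (Submodule.subset_span ⟨q, rfl⟩)
  · refine Submodule.span_le.2 ?_
    rintro _ ⟨q, rfl⟩
    refine ⟨Pi.single q.1 (Pi.single q.2 1), ?_⟩
    rw [hw, Finset.sum_eq_single q]
    · simp
    · intro b _ hb
      by_cases h1 : b.1 = q.1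
      · have h2 : b.2 ≠ q.2 := fun h2 => hb (Prod.ext h1 h2)
        rw [h1]
        simp [Pi.single_eq_of_ne h2]
      · simp [Pi.single_eq_of_ne h1]
    · intro h
      exact absurd (Finset.mem_univ q) h

end UDFM

open HDCM UDFM in
theorem specUDF (hPRB : SpecPRB) : SpecUDF := by
  intro K g N A c hK hA hc N₀ N₁ s0 s1 hC
  obtain ⟨Bk, hBk, h1, h2, h3⟩ := hPRB K g N A c hK hA hc N₀ N₁ s0 s1 hC
  have hP : ∀ k' k, ∃ P : Matrix (Fin g) (Fin g) ℂ, (∀ i j, P i j ∈ Qbar) ∧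
      ∀ l j, ∑ i, A.lat l i * P i j = ∑ l', (Bk k' k l l' : ℂ) * A.lat l' j := fun k' k =>
    exists_P hA hc (hBk k' k) (blk_comm hC s0 s1 h2 h3 k' k)
  choose P hPalg hPlat using hP
  have hrange : LinearMap.range (TL P) = W hA N₁ s1 := by
    ext w
    rw [mem_W]
    constructor
    · rintro ⟨v, rfl⟩
      obtain ⟨X, rfl⟩ := Ph_surj hA v
      exact ⟨_, pr_mem h1 X, (TL_Ph hPlat X).symm⟩
    · rintro ⟨X, hX, rfl⟩
      exact ⟨Ph A X, by rw [TL_Ph hPlat, pr_id h2 hX]⟩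
  rw [TL_range] at hrange
  obtain ⟨u, hu1, hu2, hu3⟩ := Submodule.exists_fun_fin_finrank_span_eq ℂ (Set.range (gen P))
  refine ⟨_, u, hu3, ?_, ?_, ?_, ?_⟩
  · intro a k j
    obtain ⟨q, hq⟩ := hu1 a
    rw [← hq]
    exact hPalg _ _ _ _
  · rw [hrange]
    exact finrank_W hA s1 hC
  · intro X hX
    rw [hu2, hrange, mem_W_iff]
    exact mem_RS hX
  · intro X hX
    rw [hu2, hrange, mem_W_iff] at hX
    exact hX

end Pool.Agent.Lib.MPf11a48.AS
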