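import Pool.Agent.Lib.MP_f11a48_ag.AS.SpecZ

/-!
# Project AS, block Z, module WGT: weighted orders add under multiplication
-/

set_option autoImplicit false

namespace Pool.Agent.Lib.MPf11a48.AS

namespace WGTM

variable {R κ : Type} [CommRing R] [Algebra ℂ R] (δ : κ → Derivation ℂ R R) (wt : κ → ℕ)

theorem it_append (w : List κ) (c : κ) (a : R) : it δ (w ++ [c]) a = it δ w (δ c a) := by
  induction w with
  | nil => rfl
  | cons x w ih => simp only [List.cons_append, it, ih]

theorem it_add (w : List κ) (a b : R) : it δ w (a + b) = it δ w a + it δ w b := by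
  induction w with
  | nil => rfl
  | cons x w ih => simp only [it, ih, map_add]

theorem it_sub (w : List κ) (a b : R) : it δ w (a - b) = it δ w a - it δ w b := by
  induction w with
  | nil => rfl
  | cons x w ih => simp only [it, ih, map_sub]

theorem it_zero (w : List κ) : it δ w (0 : R) = 0 := by
  induction w with
  | nil => rfl
  | cons x w ih => simp only [it, ih, map_zero]

theorem it_nsmul (w : List κ) (n : ℕ) (a : R) : it δ w (n • a) = n • it δ w a := by
  induction w with
  | nil => rfl
  | cons x w ih => simp only [it, ih, map_nsmul]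

variable {δ wt} {ev : R →ₐ[ℂ] ℂ}

theorem WO_der {r : ℕ} {a : R} (h : WO δ wt ev r a) (c : κ) : WO δ wt ev (r - wt c) (δ c a) := by
  intro w hw
  rw [← it_append]
  refine h _ ?_
  simp only [List.map_append, List.sum_append, List.map_cons, List.map_nil, List.sum_cons,
    List.sum_nil]
  omega

theorem main (w : List κ) : ∀ (r s : ℕ) (a b : R), WO δ wt ev r a → WO δ wt ev s b →
    (w.map wt).sum < r + s → ev (it δ w (a * b)) = 0 := by
  induction w using List.reverseRecOn with
  | nil =>
    intro r s a b ha hb hw
    simp only [List.map_nil, List.sum_nil] at hw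
    show ev (a * b) = 0
    rw [map_mul]
    rcases Nat.eq_zero_or_pos r with h0 | h0
    · have h1 : ev b = 0 := hb [] (by simp; omega)
      rw [h1, mul_zero]
    · have h1 : ev a = 0 := ha [] (by simp; omega)
      rw [h1, zero_mul]
  | append_singleton w c ih =>
    intro r s a b ha hb hw
    simp only [List.map_append, List.sum_append, List.map_cons, List.map_nil, List.sum_cons,
      List.sum_nil] at hw
    rw [it_append, Derivation.leibniz, smul_eq_mul, smul_eq_mul, it_add, map_add,
      ih r (s - wt c) a (δ c b) ha (WO_der hb c) (by omega),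
      ih s (r - wt c) b (δ c a) hb (WO_der ha c) (by omega), add_zero]

end WGTM

theorem specWGT : SpecWGT := by
  intro R κ _ _ δ wt ev r s a b ha hb w hw
  exact WGTM.main w r s a b ha hb hw

end Pool.Agent.Lib.MPf11a48.AS
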