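import Pool.Agent.Lib.MP_f11a48_ag.AS.Ctz

/-!
# Project AS, block Z: ZERO (the zero estimate)
-/

set_option autoImplicit false
set_option linter.unusedSectionVars false

open MvPolynomial Pool.Agent.Lib.MPf11a48.CM Filter Topology

namespace Pool.Agent.Lib.MPf11a48.AS

namespace ZEROM

variable {β : ℕ} {I Λ : Type} [Fintype I] [Fintype Λ] (D : QD β I Λ)

/-- degrees of derivatives -/
lemma totalDegree_dl (δ₀ : ℕ) (c : Option (Fin β)) (hp : ∀ i, (D.pp i c).totalDegree ≤ δ₀)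
    (P : MvPolynomial (Option I) ℂ) : (D.dl c P).totalDegree ≤ P.totalDegree + δ₀ := by
  have h0 : D.dl c P = ∑ s ∈ P.support, D.dl c (monomial s (P.coeff s)) := by
    conv_lhs => rw [P.as_sum]
    rw [map_sum]
  rw [h0]
  refine totalDegree_finsetSum_le fun s hs => ?_
  unfold QD.dl
  rw [mkDerivation_monomial]
  refine (totalDegree_smul_le _ _).trans ?_
  unfold Finsupp.sum
  refine totalDegree_finsetSum_le fun i hi => ?_
  dsimp only
  rw [smul_eq_mul]
  refine (totalDegree_mul _ _).trans ?_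
  refine Nat.add_le_add ?_ (hp i)
  refine (totalDegree_monomial_le _ _).trans ?_
  refine le_trans ?_ (le_totalDegree hs)
  rw [Finsupp.sum, Finsupp.sum]
  calc ∑ j ∈ (s - Finsupp.single i 1 : Option I →₀ ℕ).support,
        (s - Finsupp.single i 1 : Option I →₀ ℕ) j
      ≤ ∑ j ∈ s.support, (s - Finsupp.single i 1 : Option I →₀ ℕ) j :=
        Finset.sum_le_sum_of_subset (Finsupp.support_tsub)
    _ ≤ ∑ j ∈ s.support, s j := Finset.sum_le_sum fun j _ => by
        rw [Finsupp.tsub_apply]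
        exact Nat.sub_le _ _

lemma totalDegree_lw (δ₀ : ℕ) (hp : ∀ i j, (D.pp i (some j)).totalDegree ≤ δ₀)
    (w : List (Fin β)) (P : MvPolynomial (Option I) ℂ) :
    (D.lw w P).totalDegree ≤ P.totalDegree + δ₀ * w.length := by
  induction w with
  | nil => simp [QD.lw, it]
  | cons j w ih =>
    have h1 := totalDegree_dl D δ₀ (some j) (fun i => hp i j) (D.lw w P)
    have h2 : D.lw (j :: w) P = D.dl (some j) (D.lw w P) := rfl
    rw [h2, List.length_cons]
    refine h1.trans ?_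
    rw [Nat.mul_succ]
    omega

lemma exists_bound : ∃ δ₀ : ℕ, ∀ i j, (D.pp i (some j)).totalDegree ≤ δ₀ := by
  classical
  refine ⟨∑ i, ∑ j, (D.pp i (some j)).totalDegree, fun i j => ?_⟩
  refine le_trans ?_ (Finset.single_le_sum (f := fun i => ∑ j, (D.pp i (some j)).totalDegree)
    (fun _ _ => Nat.zero_le _) (Finset.mem_univ i))
  exact Finset.single_le_sum (f := fun j => (D.pp i (some j)).totalDegree)
    (fun _ _ => Nat.zero_le _) (Finset.mem_univ j)

end ZEROM

open ZEROM CTZM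

theorem specZERO (hC0 : SpecC0) (hFIN : SpecFIN) (hCTZ : SpecCTZ) : SpecZERO := by
  intro β I Λ _ _ D hD hSS hβ
  obtain ⟨C, hOB⟩ := hC0 D hD
  obtain ⟨δ₀, hδ⟩ := exists_bound D
  refine ⟨C + (2 * β * C * (1 + C * δ₀)) ^ (β + 1), fun d P hd hPd hPn T hT Γ _ z hz hinj hv => ?_⟩
  have hfin := hFIN D hD hSS C hOB d P hPd hPn
  have hDG : ∀ g ∈ {Q | ∃ w : List (Fin β), w.length ≤ C * d ∧ Q = D.lw w P},
      g.totalDegree ≤ (1 + C * δ₀) * d := by
    rintro g ⟨w, hw, rfl⟩
    refine (totalDegree_lw D δ₀ hδ w P).trans ?_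
    calc P.totalDegree + δ₀ * w.length ≤ d + δ₀ * (C * d) :=
          Nat.add_le_add hPd (Nat.mul_le_mul_left _ hw)
      _ = (1 + C * δ₀) * d := by ring
  have hvG : ∀ g ∈ {Q | ∃ w : List (Fin β), w.length ≤ C * d ∧ Q = D.lw w P}, ∀ γ,
      ∀ v : List (Fin β), v.length < T → D.ev (z γ) 0 (D.lw v g) = 0 := by
    rintro g ⟨w, hw, rfl⟩ γ v hvl
    have h1 : D.lw v (D.lw w P) = D.lw (v ++ w) P := by
      unfold QD.lw
      rw [List.map_append, it_append]
    rw [h1]
    refine hv γ _ ?_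
    rw [List.length_append]
    have h2 : C * d ≤ (C + (2 * β * C * (1 + C * δ₀)) ^ (β + 1)) * d :=
      Nat.mul_le_mul_right _ (Nat.le_add_right _ _)
    omega
  have h3 := hCTZ D hD hβ C hOB z hz hinj T ((1 + C * δ₀) * d) hT _ hDG hvG hfin
  refine h3.trans ?_
  have h4 : (2 * β * C * ((1 + C * δ₀) * d)) ^ (β + 1) =
      (2 * β * C * (1 + C * δ₀)) ^ (β + 1) * d ^ (β + 1) := by
    rw [← mul_pow]
    ring
  rw [h4]
  exact Nat.mul_le_mul_right _ (Nat.le_add_left _ _)

end Pool.Agent.Lib.MPf11a48.AS
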