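import Pool.Agent.Lib.MP_f11a48_ag.AS.Adf
import Pool.Agent.Lib.MP_f11a48_ag.AS.Adz
import Pool.Agent.Lib.MP_f11a48_ag.AS.Agd
import Pool.Agent.Lib.MP_f11a48_ag.AS.Agr
import Pool.Agent.Lib.MP_f11a48_ag.AS.Arc
import Pool.Agent.Lib.MP_f11a48_ag.AS.Asp
import Pool.Agent.Lib.MP_f11a48_ag.AS.Aut
import Pool.Agent.Lib.MP_f11a48_ag.AS.AuxP
import Pool.Agent.Lib.MP_f11a48_ag.AS.Axf
import Pool.Agent.Lib.MP_f11a48_ag.AS.Bas
import Pool.Agent.Lib.MP_f11a48_ag.AS.Bicq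
import Pool.Agent.Lib.MP_f11a48_ag.AS.Bih
import Pool.Agent.Lib.MP_f11a48_ag.AS.C0
import Pool.Agent.Lib.MP_f11a48_ag.AS.Cdv
import Pool.Agent.Lib.MP_f11a48_ag.AS.Chr
import Pool.Agent.Lib.MP_f11a48_ag.AS.Clo
import Pool.Agent.Lib.MP_f11a48_ag.AS.Cnj
import Pool.Agent.Lib.MP_f11a48_ag.AS.Cnt
import Pool.Agent.Lib.MP_f11a48_ag.AS.Cov
import Pool.Agent.Lib.MP_f11a48_ag.AS.Cqd
import Pool.Agent.Lib.MP_f11a48_ag.AS.Cst
import Pool.Agent.Lib.MP_f11a48_ag.AS.Cth
import Pool.Agent.Lib.MP_f11a48_ag.AS.Ctz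
import Pool.Agent.Lib.MP_f11a48_ag.AS.Cze
import Pool.Agent.Lib.MP_f11a48_ag.AS.Dev
import Pool.Agent.Lib.MP_f11a48_ag.AS.Dim
import Pool.Agent.Lib.MP_f11a48_ag.AS.Dqs
import Pool.Agent.Lib.MP_f11a48_ag.AS.Emb
import Pool.Agent.Lib.MP_f11a48_ag.AS.End
import Pool.Agent.Lib.MP_f11a48_ag.AS.Enq
import Pool.Agent.Lib.MP_f11a48_ag.AS.Enr
import Pool.Agent.Lib.MP_f11a48_ag.AS.Ess
import Pool.Agent.Lib.MP_f11a48_ag.AS.Ext
import Pool.Agent.Lib.MP_f11a48_ag.AS.Fin
import Pool.Agent.Lib.MP_f11a48_ag.AS.Frc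
import Pool.Agent.Lib.MP_f11a48_ag.AS.Gro
import Pool.Agent.Lib.MP_f11a48_ag.AS.Grw
import Pool.Agent.Lib.MP_f11a48_ag.AS.Hdc
import Pool.Agent.Lib.MP_f11a48_ag.AS.Ind
import Pool.Agent.Lib.MP_f11a48_ag.AS.Int
import Pool.Agent.Lib.MP_f11a48_ag.AS.Jet
import Pool.Agent.Lib.MP_f11a48_ag.AS.Lat
import Pool.Agent.Lib.MP_f11a48_ag.AS.Ldc
import Pool.Agent.Lib.MP_f11a48_ag.AS.Lft
import Pool.Agent.Lib.MP_f11a48_ag.AS.Lio
import Pool.Agent.Lib.MP_f11a48_ag.AS.Main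
import Pool.Agent.Lib.MP_f11a48_ag.AS.Nmr
import Pool.Agent.Lib.MP_f11a48_ag.AS.Nnp
import Pool.Agent.Lib.MP_f11a48_ag.AS.Noe
import Pool.Agent.Lib.MP_f11a48_ag.AS.Nsz
import Pool.Agent.Lib.MP_f11a48_ag.AS.Phi
import Pool.Agent.Lib.MP_f11a48_ag.AS.Pnt
import Pool.Agent.Lib.MP_f11a48_ag.AS.Pol
import Pool.Agent.Lib.MP_f11a48_ag.AS.Prb
import Pool.Agent.Lib.MP_f11a48_ag.AS.Prd
import Pool.Agent.Lib.MP_f11a48_ag.AS.Pts
import Pool.Agent.Lib.MP_f11a48_ag.AS.Pwr
import Pool.Agent.Lib.MP_f11a48_ag.AS.Qfr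
import Pool.Agent.Lib.MP_f11a48_ag.AS.Qmu
import Pool.Agent.Lib.MP_f11a48_ag.AS.Qua
import Pool.Agent.Lib.MP_f11a48_ag.AS.Rdc
import Pool.Agent.Lib.MP_f11a48_ag.AS.Sch
import Pool.Agent.Lib.MP_f11a48_ag.AS.Shf
import Pool.Agent.Lib.MP_f11a48_ag.AS.Smm
import Pool.Agent.Lib.MP_f11a48_ag.AS.Srg
import Pool.Agent.Lib.MP_f11a48_ag.AS.Stb
import Pool.Agent.Lib.MP_f11a48_ag.AS.Stp
import Pool.Agent.Lib.MP_f11a48_ag.AS.Sym
import Pool.Agent.Lib.MP_f11a48_ag.AS.Tan
import Pool.Agent.Lib.MP_f11a48_ag.AS.Tau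
import Pool.Agent.Lib.MP_f11a48_ag.AS.Tfv
import Pool.Agent.Lib.MP_f11a48_ag.AS.Tzv
import Pool.Agent.Lib.MP_f11a48_ag.AS.Udf
import Pool.Agent.Lib.MP_f11a48_ag.AS.Wgt
import Pool.Agent.Lib.MP_f11a48_ag.AS.Zero

/-!
# Project AS: the analytic subgroup theorem for the periods of an abelian variety

`asp : SpecASP`: if `A` is an abelian variety over `K ⊆ Qbar` with period matrix `c`, and `R` is a
matrix over `Qbar` with `tr (c R) = 0`, then `tr (X c R) = 0` for all `X` in the commutant of the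
endomorphisms.
-/

set_option autoImplicit false

namespace Pool.Agent.Lib.MPf11a48.AS

namespace AllM

theorem bas : SpecBAS := specBAS
theorem srg : SpecSRG := specSRG
theorem grw : SpecGRW := specGRW bas
theorem cov : SpecCOV := specCOV bas grw
theorem cst : SpecCST := specCST cov
theorem sym : SpecSYM := specSYM bas srg grw cov specPOL
theorem chr : SpecCHR := specCHR bas srg sym
theorem cnt : SpecCNT := specCNT specSCH specJET
theorem dim : SpecDIM := specDIM specNOE cnt bas srg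
theorem int : SpecINT := specINT dim cst chr
theorem frc : SpecFRC := specFRC bas srg dim cst sym chr
theorem nsz : SpecNSZ := specNSZ bas srg dim grw cst chr
theorem lft : SpecLFT := specLFT bas dim grw nsz
theorem adz : SpecADZ := specADZ bas
theorem dev : SpecDEV := specDEV bas
theorem nnp : SpecNNP := specNNP dev
theorem phi : SpecPHI := specPHI dev
theorem c0 : SpecC0 := specC0 bas specSCH phi
theorem pts : SpecPTS := specPTS bas
theorem ctz : SpecCTZ := specCTZ specWGT specIND specPWR nnp pts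
theorem tan : SpecTAN := specTAN dev nnp
theorem stp : SpecSTP := specSTP specPRD int srg specADF adz specAGR
theorem shf : SpecSHF := specSHF stp specAGR specAGO
theorem smm : SpecSMM := specSMM stp specAGR
theorem bih : SpecBIH := specBIH smm specAGD
theorem ax : SpecAX := specAXF shf bih (specCLO bas) (specQUA bas)
theorem fin : SpecFIN := specFIN specARC lft tan ax
theorem zero : SpecZERO := specZERO c0 fin ctz
theorem qfr : SpecQFR := specQFR bas srg frc (specQMU bas)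
theorem tfv : SpecTFV := specTFV bas srg nsz specAUT qfr specCNJ specTAU specLDC
theorem tzv : SpecTZV := specTZV bas srg specAUT qfr specCNJ specTAU specLDC tfv
theorem main : SpecMAIN :=
  specMAIN specRDC (specAUX bas nnp) zero (specPNT bas) tfv tzv specLIO (specEXT dev specGRO)
    specNMR
theorem end' : SpecEND := specEND (specENQ (specENR cnt)) specAUT
theorem prb : SpecPRB := specPRB end'
theorem emb : SpecEMB := specEMB (specUDF prb) specLAT
theorem cqd : SpecCQD := specCQD specCTH specCDV specCZE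

end AllM

open AllM in
/-- The analytic subgroup theorem for the periods of abelian varieties. -/
theorem asp : SpecASP := specASP specHDC (specSTB prb) emb cqd specESS main

end Pool.Agent.Lib.MPf11a48.AS
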