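import Pool.Agent.Lib.MP_f11a48_ag.AS.Dqs
import Pool.Agent.Lib.MP_f11a48_ag.U.Rep

/-! # Module BICQ: the bicommutant theorem over `Qbar` -/

set_option autoImplicit false

open Matrix MvPolynomial Pool.Agent.Lib.MPf11a48.CM Pool.Agent.Lib.MPf11a48.GL2T
open Pool.Agent.Lib.MPf11a48.U (EndAlg ComAlg mC DerM.map_mul DerM.mul_inv DerM.inv_mul
  REPM.mem_span_com)

namespace Pool.Agent.Lib.MPf11a48.AS

namespace BICQM

variable {ι : Type} [Fintype ι] [DecidableEq ι]

/-- the matrices over `Qbar` in an algebra -/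
def S (A : Subalgebra ℂ (Matrix ι ι ℂ)) : Set (Matrix ι ι ℂ) :=
  {Y : Matrix ι ι ℂ | Y ∈ A ∧ ∀ i j, Y i j ∈ Qbar}

theorem S_mul {A : Subalgebra ℂ (Matrix ι ι ℂ)} {Y Z : Matrix ι ι ℂ} (hY : Y ∈ S A)
    (hZ : Z ∈ S A) : Y * Z ∈ S A := by
  refine ⟨A.mul_mem hY.1 hZ.1, fun i j => ?_⟩
  rw [Matrix.mul_apply]
  exact Subalgebra.sum_mem _ fun k _ => mul_mem (hY.2 i k) (hZ.2 k j)

theorem qspan_adjoin (kk : Submodule ℂ (Matrix ι ι ℂ)) (hkk : QSpan kk) :
    QSpan (Subalgebra.toSubmodule (Algebra.adjoin ℂ (kk : Set (Matrix ι ι ℂ)))) := by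
  intro X hX
  have hX' : X ∈ Algebra.adjoin ℂ (kk : Set (Matrix ι ι ℂ)) := hX
  clear hX
  change X ∈ Submodule.span ℂ (S (Algebra.adjoin ℂ (kk : Set (Matrix ι ι ℂ))))
  induction hX' using Algebra.adjoin_induction with
  | mem Y hY =>
    refine Submodule.span_mono ?_ (hkk Y hY)
    rintro Z ⟨hZ1, hZ2⟩
    exact ⟨Algebra.subset_adjoin hZ1, hZ2⟩
  | algebraMap r =>
    rw [Algebra.algebraMap_eq_smul_one]
    refine Submodule.smul_mem _ _ (Submodule.subset_span ⟨one_mem _, fun i j => ?_⟩)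
    rw [Matrix.one_apply]
    split_ifs
    · exact one_mem _
    · exact zero_mem _
  | add Y Z _ _ h1 h2 => exact Submodule.add_mem _ h1 h2
  | mul Y Z _ _ h1 h2 =>
    have h3 := Submodule.mul_mem_mul h1 h2
    rw [Submodule.span_mul_span] at h3
    refine Submodule.span_mono ?_ h3
    rintro _ ⟨U, hU, W, hW, rfl⟩
    exact S_mul hU hW

theorem functional (f : Matrix ι ι Qbar →ₗ[Qbar] Qbar) :
    ∃ R : Matrix ι ι Qbar, ∀ Y : Matrix ι ι Qbar, f Y = (Y * R).trace := by
  refine ⟨Matrix.of fun j i => f (Matrix.single i j 1), fun Y => ?_⟩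
  conv_lhs => rw [Matrix.matrix_eq_sum_single Y]
  rw [map_sum, Matrix.trace]
  refine Finset.sum_congr rfl fun i _ => ?_
  rw [map_sum, Matrix.diag_apply, Matrix.mul_apply]
  refine Finset.sum_congr rfl fun j _ => ?_
  have : Matrix.single i j (Y i j) = Y i j • Matrix.single i j (1 : Qbar) := by
    rw [Matrix.smul_single, smul_eq_mul, mul_one]
  rw [this, map_smul, smul_eq_mul, Matrix.of_apply]

/-- a matrix over `Qbar` which is not in a space defined over `Qbar` is separated by a trace form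
over `Qbar` -/
theorem separate (V : Submodule ℂ (Matrix ι ι ℂ)) (hV : QSpan V) (X : Matrix ι ι Qbar)
    (hX : X.map (algebraMap Qbar ℂ) ∉ V) :
    ∃ R : Matrix ι ι ℂ, (∀ i j, R i j ∈ Qbar) ∧ (∀ a ∈ V, (a * R).trace = 0) ∧
      (X.map (algebraMap Qbar ℂ) * R).trace ≠ 0 := by
  let V₀ : Submodule Qbar (Matrix ι ι Qbar) :=
    { carrier := {Y | Y.map (algebraMap Qbar ℂ) ∈ V}
      add_mem' := by
        intro Y Z hY hZ
        have : (Y + Z).map (algebraMap Qbar ℂ) = Y.map (algebraMap Qbar ℂ) +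
            Z.map (algebraMap Qbar ℂ) := by
          ext i j
          simp
        change (Y + Z).map (algebraMap Qbar ℂ) ∈ V
        rw [this]
        exact V.add_mem hY hZ
      zero_mem' := by
        have : (0 : Matrix ι ι Qbar).map (algebraMap Qbar ℂ) = 0 := by
          ext i j
          simp
        change (0 : Matrix ι ι Qbar).map (algebraMap Qbar ℂ) ∈ V
        rw [this]
        exact V.zero_mem
      smul_mem' := by
        intro a Y hY
        have : (a • Y).map (algebraMap Qbar ℂ) = (a : ℂ) • Y.map (algebraMap Qbar ℂ) := by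
          ext i j
          simp
        change (a • Y).map (algebraMap Qbar ℂ) ∈ V
        rw [this]
        exact V.smul_mem _ hY }
  have hX0 : X ∉ V₀ := hX
  obtain ⟨f, hf, hf0⟩ := Submodule.exists_dual_map_eq_bot_of_notMem hX0 inferInstance
  obtain ⟨R, hR⟩ := functional f
  have htr : ∀ Y : Matrix ι ι Qbar, (Y.map (algebraMap Qbar ℂ) *
      R.map (algebraMap Qbar ℂ)).trace = algebraMap Qbar ℂ (f Y) := by
    intro Y
    rw [hR Y, ← Matrix.map_mul]
    simp only [Matrix.trace, Matrix.diag_apply, Matrix.map_apply, map_sum]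
  refine ⟨R.map (algebraMap Qbar ℂ), fun i j => (R i j).2, ?_, ?_⟩
  · intro a ha
    have h := hV a ha
    clear ha
    induction h using Submodule.span_induction with
    | mem Y hY =>
      let Y₀ : Matrix ι ι Qbar := fun i j => ⟨Y i j, hY.2 i j⟩
      have hY0 : Y₀.map (algebraMap Qbar ℂ) = Y := rfl
      have h1 : Y₀ ∈ V₀ := by
        change Y₀.map (algebraMap Qbar ℂ) ∈ V
        rw [hY0]
        exact hY.1
      have h2 : f Y₀ = 0 := by
        have h3 : f Y₀ ∈ V₀.map f := Submodule.mem_map_of_mem h1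
        rw [hf0] at h3
        exact (Submodule.mem_bot _).1 h3
      have h4 := htr Y₀
      rw [hY0, h2, map_zero] at h4
      exact h4
    | zero => simp
    | add Y Z _ _ h1 h2 => rw [Matrix.add_mul, Matrix.trace_add, h1, h2, add_zero]
    | smul a Y _ h1 => rw [Matrix.smul_mul, Matrix.trace_smul, h1, smul_zero]
  · rw [htr X]
    intro h
    exact hf ((algebraMap Qbar ℂ).injective (by rw [h, map_zero]))

theorem com_mem (c : GL ι ℂ) (hc : ASP c) (A : Subalgebra ℂ (Matrix ι ι ℂ))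
    (hA : QSpan (Subalgebra.toSubmodule A))
    (hδ : ∀ δ : Derivation Qbar ℂ ℂ, c.1.map δ * c⁻¹.1 ∈ A) {X : Matrix ι ι ℚ}
    (hX : X ∈ ComAlg c.1) : mC X ∈ A := by
  by_contra hcon
  let X₀ : Matrix ι ι Qbar := X.map (algebraMap ℚ Qbar)
  have hX0 : X₀.map (algebraMap Qbar ℂ) = mC X := by
    ext i j
    change algebraMap Qbar ℂ (algebraMap ℚ Qbar (X i j)) = ((X i j : ℚ) : ℂ)
    rw [← IsScalarTower.algebraMap_apply]
    rfl
  obtain ⟨R, hR1, hR2, hR3⟩ := separate (Subalgebra.toSubmodule A) hA X₀ (by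
    rw [hX0]
    exact hcon)
  rw [hX0] at hR3
  let V : Submodule ℂ (Matrix ι ι ℂ) :=
    (Subalgebra.toSubmodule A).comap (LinearMap.mulLeft ℂ c.1)
  have hV : QSpan V := by
    apply DQSM.qspan
    intro δ η hη
    have hη' : c.1 * η ∈ A := hη
    have h1 : (c.1 * η).map δ ∈ A := DQSM.map_mem δ (Subalgebra.toSubmodule A) hA hη'
    have h2 : (c.1.map δ * c⁻¹.1) * (c.1 * η) ∈ A := A.mul_mem (hδ δ) hη'
    have h3 : c.1 * η.map δ = (c.1 * η).map δ - (c.1.map δ * c⁻¹.1) * (c.1 * η) := by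
      rw [DerM.map_mul, Matrix.mul_assoc (c.1.map δ), ← Matrix.mul_assoc c⁻¹.1, DerM.inv_mul,
        Matrix.one_mul, add_sub_cancel_left]
    change c.1 * η.map δ ∈ A
    rw [h3]
    exact A.sub_mem h1 h2
  have hci : c⁻¹.1 ∈ V := by
    change c.1 * c⁻¹.1 ∈ A
    rw [DerM.mul_inv]
    exact A.one_mem
  have hmain : ∀ η ∈ V, (mC X * (c.1 * η) * R).trace = 0 := by
    intro η hη
    have h := hV η hη
    clear hη
    induction h using Submodule.span_induction with
    | mem Y hY =>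
      have h1 : (c.1 * (Y * R)).trace = 0 := by
        rw [← Matrix.mul_assoc]
        exact hR2 _ hY.1
      have h2 := hc (Y * R) (fun i j => by
        rw [Matrix.mul_apply]
        exact Subalgebra.sum_mem _ fun k _ => mul_mem (hY.2 i k) (hR1 k j)) h1 X hX
      rw [← h2]
      congr 1
      simp only [Matrix.mul_assoc]
    | zero => simp
    | add Y Z _ _ h1 h2 =>
      rw [Matrix.mul_add, Matrix.mul_add, Matrix.add_mul, Matrix.trace_add, h1, h2, add_zero]
    | smul a Y _ h1 =>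
      rw [Matrix.mul_smul, Matrix.mul_smul, Matrix.smul_mul, Matrix.trace_smul, h1, smul_zero]
  have h4 := hmain _ hci
  rw [DerM.mul_inv, Matrix.mul_one] at h4
  exact hR3 h4

end BICQM

theorem specBICQ : SpecBICQ := by
  intro ι _ _ c hc kk hkk hδ x hx
  have hA := BICQM.qspan_adjoin kk hkk
  have h := REPM.mem_span_com hx
  clear hx
  induction h using Submodule.span_induction with
  | mem Y hY =>
    obtain ⟨Z, hZ, rfl⟩ := hY
    exact BICQM.com_mem c hc _ hA (fun δ => Algebra.subset_adjoin (hδ δ)) hZ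
  | zero => exact zero_mem _
  | add Y Z _ _ h1 h2 => exact add_mem h1 h2
  | smul a Y _ h1 => exact Subalgebra.smul_mem _ h1 a

end Pool.Agent.Lib.MPf11a48.AS
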