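import Pool.Agent.Lib.MP_f11a48_ag.AS.SpecZ

/-!
# Project AS, block Z: CTZ (the count)
-/

set_option autoImplicit false
set_option linter.unusedSectionVars false

open MvPolynomial Pool.Agent.Lib.MPf11a48.CM Filter Topology

namespace Pool.Agent.Lib.MPf11a48.AS

namespace CTZM

section words

variable {R κ : Type} [CommRing R] [Algebra ℂ R] (δ : κ → Derivation ℂ R R)

/-- `it δ w` as a linear map -/
noncomputable def itL : List κ → R →ₗ[ℂ] R
  | [] => LinearMap.id
  | c :: w => (δ c : R →ₗ[ℂ] R) ∘ₗ itL w

lemma itL_apply (w : List κ) (a : R) : itL δ w a = it δ w a := by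
  induction w with
  | nil => rfl
  | cons c w ih =>
    show (δ c) (itL δ w a) = δ c (it δ w a)
    rw [ih]

lemma it_add (w : List κ) (a b : R) : it δ w (a + b) = it δ w a + it δ w b := by
  simp only [← itL_apply, map_add]

lemma it_sub (w : List κ) (a b : R) : it δ w (a - b) = it δ w a - it δ w b := by
  simp only [← itL_apply, map_sub]

lemma it_zero (w : List κ) : it δ w (0 : R) = 0 := by
  simp only [← itL_apply, map_zero]

lemma it_append (v w : List κ) (a : R) : it δ (v ++ w) a = it δ v (it δ w a) := by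
  induction v with
  | nil => rfl
  | cons c v ih =>
    show δ c (it δ (v ++ w) a) = δ c (it δ v (it δ w a))
    rw [ih]

/-- the word with given counts -/
noncomputable def wdf [Fintype κ] (b : κ → ℕ) : List κ :=
  (Finset.univ.toList : List κ).flatMap fun c => List.replicate (b c) c

lemma count_wdf [Fintype κ] [BEq κ] [LawfulBEq κ] (b : κ → ℕ) (c : κ) :
    (wdf b).count c = b c := by
  unfold wdf
  rw [List.count_flatMap, Finset.sum_map_toList]
  rw [Finset.sum_eq_single_of_mem c (Finset.mem_univ c)]
  · simp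
  · intro c' _ hne
    simp only [Function.comp]
    rw [List.count_replicate, if_neg]
    simpa using hne

lemma count_wdf' [Fintype κ] [DecidableEq κ] (b : κ → ℕ) (c : κ) :
    (wdf b).count c = b c := count_wdf b c

lemma sum_eq_count [Fintype κ] [DecidableEq κ] (wt : κ → ℕ) (w : List κ) :
    (w.map wt).sum = ∑ c, w.count c * wt c := by
  induction w with
  | nil => simp
  | cons a w ih =>
    rw [List.map_cons, List.sum_cons, ih]
    have h1 : ∀ c, (a :: w).count c * wt c = w.count c * wt c + if a = c then wt c else 0 := by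
      intro c
      rw [List.count_cons]
      by_cases h : a = c
      · simp [h, add_mul]
      · have : (a == c) = false := by simpa using h
        simp [h]
    simp only [h1, Finset.sum_add_distrib, Finset.sum_ite_eq, Finset.mem_univ, if_true]
    ring

/-- The ideal of the elements of weighted order `≥ r`. -/
def WI (hWGT : SpecWGT) (wt : κ → ℕ) (ev : R →ₐ[ℂ] ℂ) (r : ℕ) : Ideal R where
  carrier := {a | WO δ wt ev r a}
  add_mem' := fun ha hb w hw => by rw [it_add, map_add, ha w hw, hb w hw, add_zero]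
  zero_mem' := fun w _ => by rw [it_zero, map_zero]
  smul_mem' := fun c a ha => by
    have h0 : WO δ wt ev 0 c := fun w hw => absurd hw (Nat.not_lt_zero _)
    have := hWGT δ wt ev 0 r c a h0 ha
    rwa [zero_add] at this

lemma mem_WI (hWGT : SpecWGT) (wt : κ → ℕ) (ev : R →ₐ[ℂ] ℂ) (r : ℕ) (a : R) :
    a ∈ WI δ hWGT wt ev r ↔ WO δ wt ev r a := Iff.rfl

lemma pow_le (hWGT : SpecWGT) (wt : κ → ℕ) (ev : R →ₐ[ℂ] ℂ) (T : ℕ) (G : Set R)
    (hG : ∀ g ∈ G, WO δ wt ev T g) (k : ℕ) :
    Ideal.span G ^ k ≤ WI δ hWGT wt ev (k * T) := by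
  induction k with
  | zero =>
    intro a _ w hw
    rw [zero_mul] at hw
    exact absurd hw (Nat.not_lt_zero _)
  | succ k ih =>
    rw [pow_succ, Ideal.mul_le]
    intro a ha b hb
    have h1 : b ∈ WI δ hWGT wt ev T := (Ideal.span_le.2 (fun g hg => hG g hg)) hb
    have h2 := hWGT δ wt ev (k * T) T a b (ih ha) h1
    rw [Nat.succ_mul]
    exact h2

end words

lemma limit_ineq (N a b n : ℕ) (h : ∀ m : ℕ, 0 < m → N * m ^ n ≤ (a + b * m) ^ n) :
    N ≤ b ^ n := by
  have h1 : Tendsto (fun m : ℕ => ((a : ℝ) / (m : ℝ) + b) ^ n) atTop (𝓝 ((0 + (b : ℝ)) ^ n)) := by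
    refine Tendsto.pow ?_ n
    exact (tendsto_const_div_atTop_nhds_zero_nat (a : ℝ)).add_const _
  have h2 : ∀ᶠ m : ℕ in atTop, (N : ℝ) ≤ ((a : ℝ) / (m : ℝ) + b) ^ n := by
    filter_upwards [eventually_gt_atTop 0] with m hm
    have hm' : (0 : ℝ) < m := by exact_mod_cast hm
    have h3 : ((N * m ^ n : ℕ) : ℝ) ≤ (((a + b * m) ^ n : ℕ) : ℝ) := by exact_mod_cast h m hm
    push_cast at h3
    have h4 : ((a : ℝ) / (m : ℝ) + b) ^ n = ((a + b * m : ℝ)) ^ n / (m : ℝ) ^ n := by
      rw [← div_pow]
      congr 1
      field_simp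
    rw [h4, le_div_iff₀ (by positivity)]
    exact h3
  have h5 := ge_of_tendsto h1 h2
  rw [zero_add] at h5
  exact_mod_cast h5

section count

variable {β : ℕ} {I Λ : Type} [Fintype I] [Fintype Λ] (D : QD β I Λ)

/-- the weights of the letters -/
def wt (β T : ℕ) : Option (Fin β) → ℕ
  | none => T
  | some _ => 1

lemma ev_nn (P : MvPolynomial (Option I) ℂ) (hP : P ∈ D.nn) (z : Fin β → ℂ) (ρ : ℂ)
    (hz : D.th D.o z ≠ 0) : D.ev z ρ P = 0 := hP z ρ hz

lemma it_nn (hst : ∀ c, ∀ P ∈ D.nn, D.dl c P ∈ D.nn) (w : List (Option (Fin β)))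
    (P : MvPolynomial (Option I) ℂ) (hP : P ∈ D.nn) : it D.dl w P ∈ D.nn := by
  induction w with
  | nil => exact hP
  | cons c w ih => exact hst c _ ih

/-- words without the letter `none` -/
lemma exists_some (T : ℕ) (w : List (Option (Fin β)))
    (hw : (w.map (wt β T)).sum < T) : ∃ v : List (Fin β), w = v.map some ∧ v.length < T := by
  have key : ∀ w : List (Option (Fin β)), (w.map (wt β T)).sum < T →
      ∃ v : List (Fin β), w = v.map some ∧ v.length = (w.map (wt β T)).sum := by
    intro w
    induction w with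
    | nil => exact fun _ => ⟨[], rfl, rfl⟩
    | cons c w ih =>
      intro h
      rw [List.map_cons, List.sum_cons] at h
      cases c with
      | none =>
        exfalso
        have : wt β T none = T := rfl
        omega
      | some j =>
        have h1 : wt β T (some j) = 1 := rfl
        obtain ⟨v, hv, hl⟩ := ih (by omega)
        refine ⟨j :: v, by rw [List.map_cons, ← hv], ?_⟩
        rw [List.length_cons, hl, List.map_cons, List.sum_cons, h1]
        ring
  obtain ⟨v, hv, hl⟩ := key w hw
  exact ⟨v, hv, hl ▸ hw⟩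

end count

end CTZM

open CTZM

theorem specCTZ (hWGT : SpecWGT) (hIND : SpecIND) (hPWR : SpecPWR) (hNNP : SpecNNP)
    (hPTS : SpecPTS) : SpecCTZ := by
  intro β I Λ _ _ D hD hβ C hOB Γ _ z hz hinj T D₂ hT G hGd hGv hfin
  classical
  obtain ⟨-, hst, -, hperm⟩ := hNNP D hD
  obtain ⟨Y, e, hY0, hY1, he⟩ := hPTS D hD z hz hinj
  obtain ⟨M, hM⟩ := hPWR D.nn G D₂ hGd hfin
  have hth0 : D.th D.o 0 ≠ 0 := hD.good.zero
  -- the elements of `G` have weighted order at least `T`
  have hGW : ∀ γ, ∀ g ∈ G, WO D.dl (wt β T) (D.ev (z γ) 0) T g := by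
    intro γ g hg w hw
    obtain ⟨v, hv, hl⟩ := exists_some T w hw
    rw [hv]
    exact hGv g hg γ v hl
  have key : ∀ m : ℕ, 0 < m → Fintype.card Γ * ((β * m) * (m * T) ^ β) ≤
      (C * (M + 2 * β * m * D₂) + 1) ^ (β + 1) := by
    intro m hm
    set k : ℕ := 2 * β * m with hk
    set d : ℕ := M + k * D₂ with hd
    -- the box of exponents
    set B : Finset (Option (Fin β) → ℕ) := Fintype.piFinset fun c =>
      Finset.range (Option.elim c (β * m) fun _ => m * T) with hB
    have hBcard : B.card = (β * m) * (m * T) ^ β := by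
      rw [hB, Fintype.card_piFinset, Fintype.prod_option]
      simp
    have hBw : ∀ b ∈ B, ((wdf b).map (wt β T)).sum < k * T := by
      intro b hb
      rw [hB, Fintype.mem_piFinset] at hb
      rw [sum_eq_count]
      simp only [count_wdf]
      rw [Fintype.sum_option]
      have h1 : b none < β * m := by simpa using hb none
      have h2 : ∀ j : Fin β, b (some j) < m * T := fun j => by simpa using hb (some j)
      have h3 : ∑ j : Fin β, b (some j) * wt β T (some j) ≤ ∑ _j : Fin β, (m * T) :=
        Finset.sum_le_sum fun j _ => by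
          have h4 : wt β T (some j) = 1 := rfl
          rw [h4, mul_one]
          exact (h2 j).le
      rw [Finset.sum_const, Finset.card_univ, Fintype.card_fin, smul_eq_mul] at h3
      have h5 : b none * wt β T none < β * m * T := by
        have h4 : wt β T none = T := rfl
        rw [h4]
        exact Nat.mul_lt_mul_of_pos_right h1 hT
      calc b none * wt β T none + ∑ j : Fin β, b (some j) * wt β T (some j)
          < β * m * T + β * (m * T) := Nat.add_lt_add_of_lt_of_le h5 h3
        _ = k * T := by rw [hk]; ring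
    -- the functionals vanish on `nn + (G)^k`
    have hvan : ∀ γ, ∀ b ∈ B, ∀ x ∈ D.nn ⊔ Ideal.span G ^ k,
        D.ev (z γ) 0 (it D.dl (wdf b) x) = 0 := by
      intro γ b hb x hx
      obtain ⟨x1, hx1, x2, hx2, rfl⟩ := Submodule.mem_sup.1 hx
      rw [it_add, map_add, ev_nn D _ (it_nn D hst _ _ hx1) _ _ (hz γ), zero_add]
      exact (pow_le D.dl hWGT (wt β T) (D.ev (z γ) 0) T G (hGW γ) k hx2) _ (hBw b hb)
    let V : Submodule ℂ (MvPolynomial (Option I) ℂ) := restrictTotalDegree (Option I) ℂ d
    let φ : (Fin β → ℂ) → (Option (Fin β) → ℕ) → (V →ₗ[ℂ] ℂ) := fun x b =>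
      ((D.ev x 0).toLinearMap ∘ₗ itL D.dl (wdf b)) ∘ₗ V.subtype
    have hφ : ∀ x b (P : V), φ x b P = D.ev x 0 (it D.dl (wdf b) (P : MvPolynomial (Option I) ℂ)) := by
      intro x b P
      show D.ev x 0 (itL D.dl (wdf b) (P : MvPolynomial (Option I) ℂ)) = _
      rw [itL_apply]
    -- independence
    let L : Γ × B → (V →ₗ[ℂ] ℂ) := fun i => φ (z i.1) i.2
    have hLI : LinearIndependent ℂ L := by
      rw [Fintype.linearIndependent_iff]
      intro g hg
      let t : Γ → (Option (Fin β) → ℕ) → ℂ := fun γ b =>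
        if h : b ∈ B then g (γ, ⟨b, h⟩) else 0
      have hsum : ∀ a : MvPolynomial (Option I) ℂ,
          ∑ γ, ∑ b ∈ B, t γ b * D.ev (z γ) 0 (it D.dl (wdf b) a) = 0 := by
        intro a
        obtain ⟨v, hv1, hv2⟩ := hM k a
        have hvV : v ∈ V := (mem_restrictTotalDegree _ _ _).2 hv1
        have h1 : ∀ γ, ∀ b ∈ B, t γ b * D.ev (z γ) 0 (it D.dl (wdf b) a) =
            t γ b * D.ev (z γ) 0 (it D.dl (wdf b) v) := by
          intro γ b hb
          have h2 := hvan γ b hb _ hv2
          rw [it_sub, map_sub, sub_eq_zero] at h2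
          rw [h2]
        rw [Finset.sum_congr rfl fun γ _ => Finset.sum_congr rfl (h1 γ)]
        have h3 := LinearMap.congr_fun hg ⟨v, hvV⟩
        rw [LinearMap.sum_apply, LinearMap.zero_apply, Fintype.sum_prod_type] at h3
        refine Eq.trans ?_ h3
        refine Finset.sum_congr rfl fun γ _ => ?_
        rw [← Finset.sum_coe_sort B]
        refine Finset.sum_congr rfl fun b _ => ?_
        rw [LinearMap.smul_apply, smul_eq_mul, hφ]
        congr 1
        simp [t]
      have hzero := hIND D.dl (fun γ => D.ev (z γ) 0) Y e wdf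
        (fun b c => count_wdf' b c) hY0
        (fun γ c c' => hY1 γ c c') (fun γ γ' => he γ γ') B t hsum
      rintro ⟨γ, b, hb⟩
      have := hzero γ b hb
      simpa [t, hb] using this
    -- the functionals at `0`
    let B' : Finset (Option (Fin β) → ℕ) := Fintype.piFinset fun _ => Finset.range (C * d + 1)
    have hB'card : B'.card = (C * d + 1) ^ (β + 1) := by
      rw [Fintype.card_piFinset]
      simp
    let θ : B' → (V →ₗ[ℂ] ℂ) := fun b => φ 0 b
    have hspan : Set.range L ⊆ Submodule.span ℂ (Set.range θ) := by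
      rintro _ ⟨i, rfl⟩
      refine mem_span_of_iInf_ker_le_ker ?_
      intro P hP
      rw [Submodule.mem_iInf] at hP
      have hPd : (P : MvPolynomial (Option I) ℂ).totalDegree ≤ d :=
        (mem_restrictTotalDegree _ _ _).1 P.2
      have hPn : (P : MvPolynomial (Option I) ℂ) ∈ D.nn := by
        refine hOB.2 d P hPd 0 0 hth0 fun w hw => ?_
        have hw' : (fun c => w.count c) ∈ B' := by
          rw [Fintype.mem_piFinset]
          intro c
          rw [Finset.mem_range]
          have := List.count_le_length (a := c) (l := w)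
          omega
        have h1 := LinearMap.mem_ker.1 (hP ⟨_, hw'⟩)
        have h2 : φ 0 (fun c => w.count c) P = 0 := h1
        rw [hφ] at h2
        have h3 : w.Perm (wdf fun c => w.count c) := by
          rw [List.perm_iff_count]
          intro c
          rw [count_wdf]
        have h4 := ev_nn D _ (hperm _ _ h3 (P : MvPolynomial (Option I) ℂ)) 0 0 hth0
        rw [map_sub, h2, sub_zero] at h4
        exact h4
      rw [LinearMap.mem_ker]
      show φ (z i.1) i.2 P = 0
      rw [hφ]
      exact ev_nn D _ (it_nn D hst _ _ hPn) _ _ (hz i.1)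
    have hcard := linearIndependent_le_span' L hLI (Set.range θ) hspan
    rw [Cardinal.mk_fintype, Nat.cast_le] at hcard
    have h6 : Fintype.card (Set.range θ) ≤ B'.card := by
      refine (Fintype.card_range_le θ).trans ?_
      rw [Fintype.card_coe]
    rw [Fintype.card_prod, Fintype.card_coe, hBcard] at hcard
    rw [hB'card] at h6
    exact hcard.trans h6
  have h7 := limit_ineq (Fintype.card Γ * (β * T ^ β)) (C * M + 1) (2 * β * C * D₂) (β + 1)
    (fun m hm => by
      have h8 := key m hm
      have e1 : Fintype.card Γ * (β * T ^ β) * m ^ (β + 1) =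
          Fintype.card Γ * ((β * m) * (m * T) ^ β) := by
        rw [mul_pow, pow_succ]
        ring
      have e2 : C * M + 1 + 2 * β * C * D₂ * m = C * (M + 2 * β * m * D₂) + 1 := by ring
      rw [e1, e2]
      exact h8)
  refine le_trans ?_ h7
  refine Nat.mul_le_mul_left _ ?_
  exact Nat.le_mul_of_pos_left _ hβ

end Pool.Agent.Lib.MPf11a48.AS
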