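import Pool.Agent.Lib.MP_f11a48_ag.U.Spec

/-!
# MP_f11a48_ag, project AS: the analytic subgroup theorem for the periods of abelian varieties

Definitions. Paper: /team-store/MP_f11a48_ag_AST.md.

* `TH`: theta functions on `V = ℂ^Z` with a lattice; `V' = {th_o ≠ 0}`, `f_i = th_i / th_o`.
* `QD`: theta functions on `V = ℂ^β` together with a function `ze` with additive quasi-periods `L`.
-/

set_option autoImplicit false

open MvPolynomial Pool.Agent.Lib.MPf11a48.CM Filter Topology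

namespace Pool.Agent.Lib.MPf11a48.AS

/-! ## Theta data -/

/-- Theta functions `th i` on `ℂ^Z`, a distinguished index `o`, lattice vectors `lat l` and linear
parts `a l` of the exponents of the automorphy factors. -/
structure TH (Z I Λ : Type) where
  o : I
  th : I → (Z → ℂ) → ℂ
  lat : Λ → (Z → ℂ)
  a : Λ → ((Z → ℂ) →ₗ[ℂ] ℂ)

namespace TH

variable {Z I Λ : Type} (D : TH Z I Λ)

/-- the functions `f_i = th_i / th_o` -/
noncomputable def f (i : I) (z : Z → ℂ) : ℂ := D.th i z / D.th D.o z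

/-- the vector of all `f_i(z)` -/
noncomputable def fv (z : Z → ℂ) : I → ℂ := fun i => D.f i z

/-- the lattice vector `μ_x = ∑ x_l lat_l` -/
noncomputable def vec [Fintype Λ] (x : Λ → ℤ) : Z → ℂ := ∑ l, (x l : ℂ) • D.lat l

/-- the linear form `a_x = ∑ x_l a_l` -/
noncomputable def al [Fintype Λ] (x : Λ → ℤ) : (Z → ℂ) →ₗ[ℂ] ℂ := ∑ l, (x l : ℂ) • D.a l

/-- The axioms. -/
structure Good [Fintype Z] [Fintype I] [Fintype Λ] : Prop where
  indep : LinearIndependent ℝ D.lat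
  card : Fintype.card Λ = 2 * Fintype.card Z
  diff : ∀ i, Differentiable ℂ (D.th i)
  aut : ∀ (x : Λ → ℤ) (i : I) (z : Z → ℂ),
    D.th i (z + D.vec x) = Complex.exp (D.al x z + D.al x (D.vec x) / 2) * D.th i z
  /-- no common zeros -/
  ne : ∀ z, ∃ i, D.th i z ≠ 0
  zero : D.th D.o 0 ≠ 0
  even : ∀ z, D.th D.o (-z) = D.th D.o z
  /-- injective modulo the lattice -/
  inj : ∀ z w, (∀ i j, D.th i z * D.th j w = D.th j z * D.th i w) → ∃ x : Λ → ℤ, z - w = D.vec x
  /-- immersion -/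
  imm : ∀ z v, v ≠ 0 → ∃ i j,
    D.th i z * fderiv ℂ (D.th j) z v ≠ D.th j z * fderiv ℂ (D.th i) z v

/-- The ring `S` of the functions `A` on `V'` which are periodic, and such that `A th_o^k` is entire
for some `k`. -/
def IsS [Fintype Z] (A : (Z → ℂ) → ℂ) : Prop :=
  (∃ (k : ℕ) (G : (Z → ℂ) → ℂ), Differentiable ℂ G ∧
    ∀ z, D.th D.o z ≠ 0 → A z * D.th D.o z ^ k = G z) ∧
  ∀ l z, D.th D.o z ≠ 0 → A (z + D.lat l) = A z

/-- The ideal of the relations between the functions `f_i`. -/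
def nf : Ideal (MvPolynomial I ℂ) where
  carrier := {P | ∀ z, D.th D.o z ≠ 0 → eval (D.fv z) P = 0}
  add_mem' := fun ha hb z hz => by rw [map_add, ha z hz, hb z hz, add_zero]
  zero_mem' := fun z _ => map_zero _
  smul_mem' := fun c a ha z hz => by rw [smul_eq_mul, map_mul, ha z hz, mul_zero]

theorem mem_nf (P : MvPolynomial I ℂ) :
    P ∈ D.nf ↔ ∀ z, D.th D.o z ≠ 0 → eval (D.fv z) P = 0 := Iff.rfl

/-- The product of two theta data (Segre embedding). -/
noncomputable def prod {Z' I' Λ' : Type} (D : TH Z I Λ) (D' : TH Z' I' Λ') :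
    TH (Z ⊕ Z') (I × I') (Λ ⊕ Λ') where
  o := (D.o, D'.o)
  th := fun i z => D.th i.1 (fun k => z (Sum.inl k)) * D'.th i.2 (fun k => z (Sum.inr k))
  lat := Sum.elim (fun l => Sum.elim (D.lat l) 0) fun l => Sum.elim 0 (D'.lat l)
  a := Sum.elim (fun l => D.a l ∘ₗ LinearMap.funLeft ℂ ℂ Sum.inl)
    fun l => D'.a l ∘ₗ LinearMap.funLeft ℂ ℂ Sum.inr

/-! ### Noether normalisations -/

/-- A Noether normalisation of `ℂ[f]`: elements `y_k`, monic equations `Q_i` of the `f_i`, and a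
polynomial `Δ`. -/
structure Nor (I Z : Type) where
  y : Z → MvPolynomial I ℂ
  Q : I → Polynomial (MvPolynomial Z ℂ)
  Δ : MvPolynomial Z ℂ

/-- the function `y` -/
noncomputable def yv (N : Nor I Z) (z : Z → ℂ) : Z → ℂ := fun k => eval (D.fv z) (N.y k)

/-- The properties of a Noether normalisation. -/
structure NorGood [Fintype Z] (N : Nor I Z) : Prop where
  indep : ∀ P : MvPolynomial Z ℂ, (∀ z, D.th D.o z ≠ 0 → eval (D.yv N z) P = 0) → P = 0
  monic : ∀ i, (N.Q i).Monic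
  root : ∀ i z, D.th D.o z ≠ 0 → ((N.Q i).map (eval (D.yv N z))).eval (D.f i z) = 0
  ne : N.Δ ≠ 0
  /-- `y` is a local isomorphism at the points where `Δ(y) ≠ 0` -/
  unram : ∀ z, D.th D.o z ≠ 0 → eval (D.yv N z) N.Δ ≠ 0 → ∀ v, fderiv ℂ (D.yv N) z v = 0 → v = 0

/-- `z` is an enumeration of the fibre of `y₀` (modulo the lattice). -/
def Enum (N : Nor I Z) {d : ℕ} (y₀ : Z → ℂ) (z : Fin d → (Z → ℂ)) : Prop :=
  (∀ j, D.th D.o (z j) ≠ 0 ∧ D.yv N (z j) = y₀) ∧ (∀ j k, D.fv (z j) = D.fv (z k) → j = k) ∧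
  ∀ w, D.th D.o w ≠ 0 → D.yv N w = y₀ → ∃ j, D.fv w = D.fv (z j)

end TH

/-! ## Iterated derivations -/

/-- `it δ [c₁, ..., c_n] a = δ_{c₁} ... δ_{c_n} a` -/
def it {R κ : Type} [CommRing R] [Algebra ℂ R] (δ : κ → Derivation ℂ R R) : List κ → R → R
  | [], a => a
  | c :: w, a => δ c (it δ w a)

/-! ## Quasi-periodic data -/

/-- Theta functions on `ℂ^β`, an entire function `Y`, an exponent `m`, the quasi-periods `ell l` of
`ze = Y / th_o^m`, and polynomials `p i j`, `q j` which give the derivatives of the functions `f_i`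
and `ze`. -/
structure QD (β : ℕ) (I Λ : Type) extends TH (Fin β) I Λ where
  m : ℕ
  Y : (Fin β → ℂ) → ℂ
  ell : Λ → ℂ
  p : I → Fin β → MvPolynomial I ℂ
  q : Fin β → MvPolynomial I ℂ

namespace QD

variable {β : ℕ} {I Λ : Type} (D : QD β I Λ)

/-- the function `ze = Y / th_o^m` -/
noncomputable def ze (z : Fin β → ℂ) : ℂ := D.Y z / D.th D.o z ^ D.m

/-- the additive quasi-period `L(x)` of `ze` for the lattice vector `μ_x` -/
noncomputable def L [Fintype Λ] (x : Λ → ℤ) : ℂ := ∑ l, (x l : ℂ) * D.ell l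

/-- The axioms. -/
structure Good [Fintype I] [Fintype Λ] : Prop where
  good : D.toTH.Good
  Y_diff : Differentiable ℂ D.Y
  per : ∀ l z, D.th D.o z ≠ 0 → D.ze (z + D.lat l) = D.ze z + D.ell l
  f_deriv : ∀ i j z, D.th D.o z ≠ 0 →
    fderiv ℂ (D.f i) z (Pi.single j 1) = eval (D.fv z) (D.p i j)
  ze_deriv : ∀ j z, D.th D.o z ≠ 0 → fderiv ℂ D.ze z (Pi.single j 1) = eval (D.fv z) (D.q j)

/-- Everything is defined over `Qbar`. -/
structure Alg : Prop where
  f_value : ∀ i, D.f i 0 ∈ Qbar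
  ze_value : D.ze 0 ∈ Qbar
  p_coeff : ∀ i j m, (D.p i j).coeff m ∈ Qbar
  q_coeff : ∀ j m, (D.q j).coeff m ∈ Qbar

/-- Semistability: every non-zero complex subspace which is spanned over `ℝ` by lattice vectors
contains a lattice vector `μ_x` with `L(x) ≠ 0`. -/
def SS [Fintype Λ] : Prop :=
  ∀ U : Submodule ℂ (Fin β → ℂ), U ≠ ⊥ →
    (∀ u ∈ U, u ∈ Submodule.span ℝ {w : Fin β → ℂ | w ∈ U ∧ ∃ x : Λ → ℤ, w = D.vec x}) →
    ∃ x : Λ → ℤ, D.vec x ∈ U ∧ D.L x ≠ 0

/-- The values of the letters on the variables: the letter `some j` is the derivation `∂ / ∂ z_j`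
along the leaves, the letter `none` is `∂ / ∂ ρ`. -/
noncomputable def pp : Option I → Option (Fin β) → MvPolynomial (Option I) ℂ
  | some i, some j => rename some (D.p i j)
  | none, some j => rename some (D.q j)
  | some _, none => 0
  | none, none => 1

/-- The letters, as derivations of `ℂ[X_i, X]` (`X_i` is the variable `some i`, `X` is the variable
`none`). -/
noncomputable def dl (c : Option (Fin β)) :
    Derivation ℂ (MvPolynomial (Option I) ℂ) (MvPolynomial (Option I) ℂ) :=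
  mkDerivation ℂ fun i => D.pp i c

/-- The value of a polynomial at the point `(z, ρ)`: `X_i ↦ f_i(z)`, `X ↦ ze(z) + ρ`. -/
noncomputable def ev (z : Fin β → ℂ) (ρ : ℂ) : MvPolynomial (Option I) ℂ →ₐ[ℂ] ℂ :=
  aeval fun i => Option.elim i (D.ze z + ρ) fun i => D.f i z

/-- The ideal of the relations between the functions `f_i(z)` and `ze(z) + ρ` of `(z, ρ)`. -/
def nn : Ideal (MvPolynomial (Option I) ℂ) where
  carrier := {P | ∀ z ρ, D.th D.o z ≠ 0 → D.ev z ρ P = 0}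
  add_mem' := fun ha hb z ρ hz => by rw [map_add, ha z ρ hz, hb z ρ hz, add_zero]
  zero_mem' := fun z ρ _ => map_zero _
  smul_mem' := fun c a ha z ρ hz => by rw [smul_eq_mul, map_mul, ha z ρ hz, mul_zero]

theorem mem_nn (P : MvPolynomial (Option I) ℂ) :
    P ∈ D.nn ↔ ∀ z ρ, D.th D.o z ≠ 0 → D.ev z ρ P = 0 := Iff.rfl

/-- `C` is a constant for the order bound `SpecC0`. -/
def OB (C : ℕ) : Prop :=
  1 ≤ C ∧ ∀ (d : ℕ) (P : MvPolynomial (Option I) ℂ), P.totalDegree ≤ d →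
    ∀ z ρ, D.th D.o z ≠ 0 → (∀ w : List (Option (Fin β)), w.length ≤ C * d →
      D.ev z ρ (it D.dl w P) = 0) → P ∈ D.nn

/-- Iterated derivations along the leaves. -/
noncomputable def lw (w : List (Fin β)) (P : MvPolynomial (Option I) ℂ) :
    MvPolynomial (Option I) ℂ := it D.dl (w.map some) P

end QD

/-! ## Algebraic germs -/

/-- `h` is analytic at `u₀ ∈ ℂ^r`, and algebraic over `ℂ(u)` near `u₀`. -/
def AG {r : ℕ} (u₀ : Fin r → ℂ) (h : (Fin r → ℂ) → ℂ) : Prop :=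
  AnalyticAt ℂ h u₀ ∧ ∃ Q : MvPolynomial (Option (Fin r)) ℂ, Q ≠ 0 ∧
    ∀ᶠ u in 𝓝 u₀, eval (fun k => Option.elim k (h u) u) Q = 0

/-- `h` is analytic at `u₀ ∈ ℂ`, and algebraic over `ℂ(u)` near `u₀`. -/
def AG1 (u₀ : ℂ) (h : ℂ → ℂ) : Prop :=
  AnalyticAt ℂ h u₀ ∧ ∃ Q : Polynomial (Polynomial ℂ), Q ≠ 0 ∧
    ∀ᶠ u in 𝓝 u₀, (Q.map (Polynomial.evalRingHom u)).eval (h u) = 0

end Pool.Agent.Lib.MPf11a48.AS
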