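import Pool.Agent.Lib.MP_f11a48_ag.AS.Chr

/-!
Module FRC of project AS for MP_f11a48_ag: the elements of `S` are quotients of polynomials in the
functions `f_i`.
-/

set_option autoImplicit false

open MvPolynomial Pool.Agent.Lib.MPf11a48.CM Filter Topology

namespace Pool.Agent.Lib.MPf11a48.AS

namespace FRCM

open CHRM

/-! ### Linear forms -/

section linear

variable {I : Type} [Fintype I] [DecidableEq I]

/-- a linear form as a polynomial -/
noncomputable def lin (l : Module.Dual ℂ (I → ℂ)) : MvPolynomial I ℂ :=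
  ∑ i, C (l fun j => if i = j then 1 else 0) * X i

theorem eval_lin (l : Module.Dual ℂ (I → ℂ)) (x : I → ℂ) : eval x (lin l) = l x := by
  rw [LinearMap.pi_apply_eq_sum_univ l x]
  simp [lin, mul_comm]

omit [DecidableEq I] in
theorem exists_lin {d : ℕ} (v : Fin d → (I → ℂ)) (hv : Function.Injective v) :
    ∃ G : MvPolynomial I ℂ, ∀ j k, j ≠ k → eval (v j) G ≠ eval (v k) G := by
  classical
  obtain ⟨l, hl⟩ := Module.exists_dual_forall_apply_ne_zero (K := ℂ)
    (fun p : {p : Fin d × Fin d // p.1 ≠ p.2} => v p.1.1 - v p.1.2)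
    (fun p h => p.2 (hv (sub_eq_zero.mp h)))
  refine ⟨lin l, fun j k hjk h => ?_⟩
  apply hl ⟨(j, k), hjk⟩
  show l (v j - v k) = 0
  rw [map_sub, ← eval_lin, ← eval_lin, h, sub_self]

end linear

/-! ### Polynomials in one variable -/

section poly

variable {d : ℕ}

/-- the polynomial `∑_j A_j ∏_{k ≠ j} (T - g_k)` -/
noncomputable def LL (A g : Fin d → ℂ) : Polynomial ℂ :=
  ∑ j, (∏ k ∈ Finset.univ.erase j, (Polynomial.X - Polynomial.C (g k))) * Polynomial.C (A j)

theorem eval_LL (A g : Fin d → ℂ) (t : ℂ) :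
    (LL A g).eval t = ∑ j, (∏ k ∈ Finset.univ.erase j, (t - g k)) * A j := by
  simp [LL, Polynomial.eval_finsetSum, Polynomial.eval_prod]

theorem natDegree_LL (A g : Fin d → ℂ) : (LL A g).natDegree ≤ d := by
  unfold LL
  refine Polynomial.natDegree_sum_le_of_forall_le _ _ fun j _ => ?_
  refine le_trans (Polynomial.natDegree_mul_C_le _ _) ?_
  rw [Polynomial.natDegree_finsetProd_X_sub_C_eq_card]
  exact le_trans (Finset.card_le_univ _) (Fintype.card_fin d).le

/-- the polynomial `∏_j (u_j + v_j T)` -/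
noncomputable def RR (u v : Fin d → ℂ) : Polynomial ℂ :=
  ∏ j, (Polynomial.C (u j) + Polynomial.C (v j) * Polynomial.X)

theorem eval_RR (u v : Fin d → ℂ) (t : ℂ) : (RR u v).eval t = ∏ j, (u j + v j * t) := by
  simp [RR, Polynomial.eval_prod]

theorem natDegree_RR (u v : Fin d → ℂ) : (RR u v).natDegree ≤ d := by
  unfold RR
  refine le_trans (Polynomial.natDegree_prod_le _ _) ?_
  refine le_trans (Finset.sum_le_card_nsmul _ _ 1 fun j _ => ?_) ?_
  · refine le_trans (Polynomial.natDegree_add_le _ _) ?_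
    rw [Polynomial.natDegree_C]
    exact max_le (by norm_num) (le_trans (Polynomial.natDegree_C_mul_le _ _)
      Polynomial.natDegree_X_le)
  · rw [Finset.card_univ, Fintype.card_fin]
    simp

theorem coeff_RR (u v : Fin d → ℂ) :
    (RR u v).coeff 1 = ∑ j, (∏ k ∈ Finset.univ.erase j, u k) * v j := by
  have h1 : (Polynomial.derivative (RR u v)).coeff 0 = (RR u v).coeff 1 := by
    rw [Polynomial.coeff_derivative]
    simp
  rw [← h1, Polynomial.coeff_zero_eq_eval_zero, RR, Polynomial.derivative_prod_finset,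
    Polynomial.eval_finsetSum]
  simp [Polynomial.eval_prod]

theorem eval_der (g : Fin d → ℂ) (t : ℂ) :
    (Polynomial.derivative (∏ j, (Polynomial.X - Polynomial.C (g j)))).eval t =
      ∑ j, ∏ k ∈ Finset.univ.erase j, (t - g k) := by
  rw [Polynomial.derivative_prod_finset, Polynomial.eval_finsetSum]
  simp [Polynomial.eval_prod]

theorem eval_der_at (g : Fin d → ℂ) (i : Fin d) :
    (Polynomial.derivative (∏ j, (Polynomial.X - Polynomial.C (g j)))).eval (g i) =
      ∏ k ∈ Finset.univ.erase i, (g i - g k) := by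
  rw [eval_der]
  refine Finset.sum_eq_single i (fun j _ hj => ?_) (fun h => absurd (Finset.mem_univ i) h)
  exact Finset.prod_eq_zero (Finset.mem_erase.mpr ⟨hj.symm, Finset.mem_univ i⟩) (sub_self _)

theorem eval_LL_at (A g : Fin d → ℂ) (i : Fin d) :
    (LL A g).eval (g i) = A i * ∏ k ∈ Finset.univ.erase i, (g i - g k) := by
  rw [eval_LL, mul_comm (A i)]
  refine Finset.sum_eq_single i (fun j _ hj => ?_) (fun h => absurd (Finset.mem_univ i) h)
  rw [Finset.prod_eq_zero (Finset.mem_erase.mpr ⟨hj.symm, Finset.mem_univ i⟩) (sub_self _),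
    zero_mul]

/-- interpolation -/
theorem interp (q : Polynomial ℂ) (hq : q.natDegree ≤ d) :
    q = ∑ t : Fin (d + 1), Polynomial.C (q.eval (node d t)) * bas d t := by
  have h1 : q.degree < ((Finset.univ : Finset (Fin (d + 1))).card : ℕ) := by
    rw [Finset.card_univ, Fintype.card_fin]
    refine lt_of_le_of_lt Polynomial.degree_le_natDegree ?_
    exact_mod_cast Nat.lt_succ_of_le hq
  have h2 := Lagrange.eq_interpolate (s := Finset.univ) (v := node d) (f := q)
    (node_inj d).injOn h1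
  rw [Lagrange.interpolate_apply] at h2
  exact h2

end poly

/-- The value of `Q(y, G)` as a polynomial in the `f_i`. -/
theorem eval_comp {Z I Λ : Type} (D : TH Z I Λ) (N : TH.Nor I Z) (G : MvPolynomial I ℂ)
    (Q : Polynomial (MvPolynomial Z ℂ)) (z : Z → ℂ) :
    eval (D.fv z) (Q.eval₂ (bind₁ N.y : MvPolynomial Z ℂ →ₐ[ℂ] MvPolynomial I ℂ).toRingHom G) =
      (Q.map (eval (D.yv N z))).eval (eval (D.fv z) G) := by
  rw [Polynomial.hom_eval₂, Polynomial.eval_map]
  congr 1
  refine RingHom.ext fun P => ?_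
  exact (eval_yv N z P).symm

end FRCM

open CHRM FRCM

theorem specFRC (hBAS : SpecBAS) (hSRG : SpecSRG) (hDIM : SpecDIM) (hCST : SpecCST)
    (hSYM : SpecSYM) (hCHR : SpecCHR) : SpecFRC := by
  classical
  intro Z I Λ _ _ _ D hD A hA
  obtain ⟨N, hN⟩ := hDIM D hD
  obtain ⟨d, hd, hE⟩ := hCST D hD N hN
  -- a point of `Ω`
  obtain ⟨y₁, hy₁⟩ : ∃ y₁, eval y₁ N.Δ ≠ 0 := by
    by_contra hcon
    push Not at hcon
    apply hN.ne
    exact MvPolynomial.funext fun x => by rw [hcon x, map_zero]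
  obtain ⟨z₁, hz₁⟩ := hE y₁ hy₁
  obtain ⟨G, hG⟩ := exists_lin (fun j => D.fv (z₁ j)) (fun j k h => hz₁.2.1 j k h)
  have hg : D.IsS fun z => eval (D.fv z) G := (hSRG D hD).1 G
  obtain ⟨χ, -, -, hχ, -⟩ := hCHR D hD N hN d hd hE _ hg
  -- the polynomials `N_{t, ε}`
  have h1 : ∀ t e : Fin (d + 1), ∃ P : MvPolynomial Z ℂ, ∀ y, eval y N.Δ ≠ 0 →
      ∀ z : Fin d → (Z → ℂ), D.Enum N y z →
        eval y P = ∏ j, (node d t - eval (D.fv (z j)) G + A (z j) * node d e) := by
    intro t e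
    exact hSYM D hD N hN d hE (fun z => node d t - eval (D.fv z) G + A z * node d e)
      ((hSRG D hD).2.1 _ _ (isS_sub hSRG hD (isS_const hSRG hD _) hg)
        ((hSRG D hD).2.2.1 _ _ hA (isS_const hSRG hD _)))
  choose P hP using h1
  obtain ⟨L, hL⟩ : ∃ L : Polynomial (MvPolynomial Z ℂ), L = ∑ t : Fin (d + 1),
      Polynomial.C (∑ e, C ((bas d e).coeff 1) * P t e) * (bas d t).map C := ⟨_, rfl⟩
  have hLL : ∀ y, eval y N.Δ ≠ 0 → ∀ z : Fin d → (Z → ℂ), D.Enum N y z →
      L.map (eval y) = LL (fun j => A (z j)) fun j => eval (D.fv (z j)) G := by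
    intro y hy z hz
    rw [interp (LL (fun j => A (z j)) fun j => eval (D.fv (z j)) G) (natDegree_LL _ _), hL,
      Polynomial.map_sum]
    refine Finset.sum_congr rfl fun t _ => ?_
    rw [Polynomial.map_mul, Polynomial.map_C, Polynomial.map_map]
    have h2 : (eval y).comp (C : ℂ →+* MvPolynomial Z ℂ) = RingHom.id ℂ := by
      refine RingHom.ext fun c => ?_
      simp
    rw [h2, Polynomial.map_id]
    congr 2
    rw [map_sum]
    have h3 : (LL (fun j => A (z j)) fun j => eval (D.fv (z j)) G).eval (node d t) =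
        (RR (fun j => node d t - eval (D.fv (z j)) G) fun j => A (z j)).coeff 1 := by
      rw [coeff_RR, eval_LL]
    rw [h3, coeff_eq d _ (natDegree_RR _ _) 1]
    refine Finset.sum_congr rfl fun e _ => ?_
    rw [map_mul, eval_C, hP t e y hy z hz, eval_RR, mul_comm]
  refine ⟨(Polynomial.derivative χ).eval₂
    (bind₁ N.y : MvPolynomial Z ℂ →ₐ[ℂ] MvPolynomial I ℂ).toRingHom G,
    L.eval₂ (bind₁ N.y : MvPolynomial Z ℂ →ₐ[ℂ] MvPolynomial I ℂ).toRingHom G, ?_, ?_⟩
  · intro hmem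
    have h2 := (D.mem_nf _).mp hmem (z₁ ⟨0, hd⟩) (hz₁.1 ⟨0, hd⟩).1
    rw [eval_comp, (hz₁.1 ⟨0, hd⟩).2, ← Polynomial.derivative_map, hχ y₁ hy₁ z₁ hz₁] at h2
    rw [eval_der_at (fun j => eval (D.fv (z₁ j)) G) ⟨0, hd⟩] at h2
    obtain ⟨k, hk, hk0⟩ := Finset.prod_eq_zero_iff.mp h2
    exact hG _ _ (Finset.ne_of_mem_erase hk).symm (sub_eq_zero.mp hk0)
  · have hF : D.IsS fun z => A z * eval (D.fv z) ((Polynomial.derivative χ).eval₂
        (bind₁ N.y : MvPolynomial Z ℂ →ₐ[ℂ] MvPolynomial I ℂ).toRingHom G) -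
        eval (D.fv z) (L.eval₂
          (bind₁ N.y : MvPolynomial Z ℂ →ₐ[ℂ] MvPolynomial I ℂ).toRingHom G) :=
      isS_sub hSRG hD ((hSRG D hD).2.2.1 _ _ hA ((hSRG D hD).1 _)) ((hSRG D hD).1 _)
    have h2 := dense hBAS hSRG hD hN hF (fun z hz hΔ => by
      obtain ⟨w, hw⟩ := hE _ hΔ
      obtain ⟨i, hi⟩ := hw.2.2 z hz rfl
      show A z * eval (D.fv z) ((Polynomial.derivative χ).eval₂
        (bind₁ N.y : MvPolynomial Z ℂ →ₐ[ℂ] MvPolynomial I ℂ).toRingHom G) -
        eval (D.fv z) (L.eval₂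
          (bind₁ N.y : MvPolynomial Z ℂ →ₐ[ℂ] MvPolynomial I ℂ).toRingHom G) = 0
      rw [eval_comp, eval_comp, ← Polynomial.derivative_map, hχ _ hΔ w hw, hLL _ hΔ w hw,
        isS_eq hBAS hD hA hz (hw.1 i).1 hi, hi,
        eval_der_at (fun j => eval (D.fv (w j)) G) i,
        eval_LL_at (fun j => A (w j)) (fun j => eval (D.fv (w j)) G) i]
      exact sub_self _)
    intro z hz
    exact sub_eq_zero.mp (h2 z hz)

end Pool.Agent.Lib.MPf11a48.AS
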