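import Pool.Agent.Lib.MP_f11a48_ag.AS.SpecT

/-!
# Project AS, module MAIN: the transcendence theorem
-/

set_option autoImplicit false

open MvPolynomial Pool.Agent.Lib.MPf11a48.CM Filter Topology Asymptotics NumberField
open Pool.Agent.Lib.MPf11a48.U (oEmb)

namespace Pool.Agent.Lib.MPf11a48.AS

namespace MAINM

theorem norm_map_le {J : Type} {K : Type} [Field K] [NumberField K] (σ : K →+* ℂ)
    (P : MvPolynomial J (𝓞 K)) :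
    ∑ m ∈ (map (oEmb σ) P).support, ‖(map (oEmb σ) P).coeff m‖ ≤
      ∑ m ∈ P.support, house (algebraMap (𝓞 K) K (P.coeff m)) := by
  calc ∑ m ∈ (map (oEmb σ) P).support, ‖(map (oEmb σ) P).coeff m‖
      ≤ ∑ m ∈ P.support, ‖(map (oEmb σ) P).coeff m‖ :=
        Finset.sum_le_sum_of_subset_of_nonneg (support_map_subset _ _) fun _ _ _ => norm_nonneg _
    _ ≤ _ := Finset.sum_le_sum fun m _ => by
        rw [coeff_map]
        exact norm_embedding_le_house _ σ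

theorem vec_mul {Z I Λ : Type} [Fintype Λ] (D : TH Z I Λ) (j : ℤ) (x : Λ → ℤ) :
    D.vec (fun l => j * x l) = (j : ℂ) • D.vec x := by
  unfold TH.vec
  rw [Finset.smul_sum]
  apply Finset.sum_congr rfl
  intro l _
  rw [smul_smul]
  push_cast
  rfl

theorem L_mul {β : ℕ} {I Λ : Type} [Fintype Λ] (D : QD β I Λ) (j : ℤ) (x : Λ → ℤ) :
    D.L (fun l => j * x l) = (j : ℂ) * D.L x := by
  unfold QD.L
  rw [Finset.mul_sum]
  apply Finset.sum_congr rfl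
  intro l _
  push_cast
  ring

theorem exists_eps {ι : Type} (Γ : Finset ι) (f : ι → ℝ) (h : ∀ j ∈ Γ, 0 < f j) :
    ∃ ε : ℝ, 0 < ε ∧ ε ≤ 1 ∧ ∀ j ∈ Γ, ε ≤ f j := by
  classical
  induction Γ using Finset.induction_on with
  | empty => exact ⟨1, one_pos, le_rfl, by simp⟩
  | insert a s _ ih =>
    obtain ⟨ε, h1, h2, h3⟩ := ih fun j hj => h j (Finset.mem_insert_of_mem hj)
    refine ⟨min ε (f a), lt_min h1 (h a (Finset.mem_insert_self a s)),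
      (min_le_left _ _).trans h2, ?_⟩
    intro j hj
    rcases Finset.mem_insert.1 hj with rfl | hj
    · exact min_le_right _ _
    · exact (min_le_left _ _).trans (h3 j hj)

/-- The numerical contradiction. -/
theorem contra {e t CE H ε : ℝ} {A CL d k T S m : ℕ} (he : 0 ≤ e) (hH : 1 ≤ H) (hε : 0 < ε)
    (hε1 : ε ≤ 1) (hεt : ε ≤ t) (hCE : CE ≤ A) (hCL : CL ≤ A) (hCL1 : 1 ≤ CL)
    (hm : m + 1 ≤ A) (hd : 1 ≤ d)
    (h1 : e * t ^ ((m + 1) * d) ≤ CE * H * (k : ℝ) ^ k * Real.exp (CE * d * (S : ℝ) ^ 2) *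
      (1 / 2 : ℝ) ^ ((T - k) * S))
    (h2 : 1 ≤ e * (H * (CL : ℝ) ^ (d + k) * ((d + k : ℕ) : ℝ) ^ k) ^ CL)
    (h3 : (A * H * (k : ℝ) ^ k * Real.exp (A * d * (S : ℝ) ^ 2) *
      (1 / 2 : ℝ) ^ ((T - k) * S)) * (ε ^ (A * d))⁻¹ *
      (H * (A : ℝ) ^ (d + k) * ((d + k : ℕ) : ℝ) ^ k) ^ A < 1) : False := by
  have hA0 : (0 : ℝ) ≤ A := by positivity
  have hH0 : 0 ≤ H := by linarith
  have hCL1' : (1 : ℝ) ≤ CL := by exact_mod_cast hCL1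
  have hCL' : (CL : ℝ) ≤ A := by exact_mod_cast hCL
  have hdk : (1 : ℝ) ≤ ((d + k : ℕ) : ℝ) := by exact_mod_cast (by omega : 1 ≤ d + k)
  -- first factor
  have a1 : ε ^ (A * d) ≤ t ^ ((m + 1) * d) := by
    calc ε ^ (A * d) ≤ ε ^ ((m + 1) * d) :=
          pow_le_pow_of_le_one hε.le hε1 (Nat.mul_le_mul_right d hm)
      _ ≤ t ^ ((m + 1) * d) := pow_le_pow_left₀ hε.le hεt _
  have a2 : CE * H * (k : ℝ) ^ k * Real.exp (CE * d * (S : ℝ) ^ 2) *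
      (1 / 2 : ℝ) ^ ((T - k) * S) ≤ A * H * (k : ℝ) ^ k * Real.exp (A * d * (S : ℝ) ^ 2) *
      (1 / 2 : ℝ) ^ ((T - k) * S) := by
    gcongr
  have a3 : e ≤ (A * H * (k : ℝ) ^ k * Real.exp (A * d * (S : ℝ) ^ 2) *
      (1 / 2 : ℝ) ^ ((T - k) * S)) * (ε ^ (A * d))⁻¹ := by
    rw [← div_eq_mul_inv, le_div_iff₀ (by positivity)]
    exact (mul_le_mul_of_nonneg_left a1 he).trans (h1.trans a2)
  -- second factor
  have b1 : H * (CL : ℝ) ^ (d + k) * ((d + k : ℕ) : ℝ) ^ k ≤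
      H * (A : ℝ) ^ (d + k) * ((d + k : ℕ) : ℝ) ^ k := by
    gcongr
  have b2 : 1 ≤ H * (CL : ℝ) ^ (d + k) * ((d + k : ℕ) : ℝ) ^ k := by
    have c1 : (1 : ℝ) ≤ (CL : ℝ) ^ (d + k) := one_le_pow₀ hCL1'
    have c2 : (1 : ℝ) ≤ ((d + k : ℕ) : ℝ) ^ k := one_le_pow₀ hdk
    exact one_le_mul_of_one_le_of_one_le (one_le_mul_of_one_le_of_one_le hH c1) c2
  have b3 : (H * (CL : ℝ) ^ (d + k) * ((d + k : ℕ) : ℝ) ^ k) ^ CL ≤
      (H * (A : ℝ) ^ (d + k) * ((d + k : ℕ) : ℝ) ^ k) ^ A := by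
    calc (H * (CL : ℝ) ^ (d + k) * ((d + k : ℕ) : ℝ) ^ k) ^ CL
        ≤ (H * (CL : ℝ) ^ (d + k) * ((d + k : ℕ) : ℝ) ^ k) ^ A := pow_le_pow_right₀ b2 hCL
      _ ≤ _ := pow_le_pow_left₀ (by positivity) b1 A
  have c := h2.trans ((mul_le_mul_of_nonneg_left b3 he).trans
    (mul_le_mul_of_nonneg_right a3 (by positivity)))
  linarith

end MAINM

open MAINM in
theorem specMAIN (hRDC : SpecRDC) (hAUX : SpecAUX) (hZERO : SpecZERO) (hPNT : SpecPNT)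
    (hTFV : SpecTFV) (hTZV : SpecTZV) (hLIO : SpecLIO) (hEXT : SpecEXT) (hNMR : SpecNMR) :
    SpecMAIN := by
  intro β I Λ _ _ D₀ hβ hG₀ hA₀ hS₀ x hx hL₀
  classical
  obtain ⟨D, hG, hA, hS, hL, K, iK, iNF, σ, xv, p, hInt⟩ := hRDC D₀ hG₀ hA₀ hS₀ x hL₀
  obtain ⟨CA, hCA, hAux⟩ := hAUX D hG hβ σ xv p hInt
  obtain ⟨CZ, hZ⟩ := hZERO D hG hS hβ
  obtain ⟨C5, h5⟩ := hPNT D hG x
  obtain ⟨l, hl⟩ : ∃ l, x l ≠ 0 := Function.ne_iff.1 hx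
  obtain ⟨q, hqge, hq⟩ := Nat.exists_infinite_primes
    ((x l).natAbs + C5 + 8 ^ β * CZ * CA + 1)
  have hndvd : ¬ (q : ℤ) ∣ x l := by
    intro h
    have h1 : q ∣ (x l).natAbs := Int.natCast_dvd.1 h
    have h2 := Nat.le_of_dvd (Int.natAbs_pos.2 hl) h1
    omega
  obtain ⟨Γ, hΓ1, hΓ2, hΓ3⟩ := h5 q hq ⟨l, hndvd⟩
  have hqC : (q : ℂ) ≠ 0 := Nat.cast_ne_zero.2 hq.ne_zero
  have htor : ∀ j : Fin q, (q : ℂ) • ((((j : ℕ) : ℂ) / q) • D.vec x) =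
      D.vec (fun l => ((j : ℕ) : ℤ) * x l) := by
    intro j
    rw [vec_mul, smul_smul, mul_div_cancel₀ _ hqC]
    push_cast
    rfl
  have hLj : ∀ j : Fin q, D.L (fun l => ((j : ℕ) : ℤ) * x l) = 0 := by
    intro j
    rw [MAINM.L_mul, hL, mul_zero]
  have hF : ∀ j ∈ Γ, ∀ i, D.f i ((((j : ℕ) : ℂ) / q) • D.vec x) ∈ Qbar := fun j hj i =>
    hTFV D hG hA q hq.one_le _ _ (hΓ2 j hj) (htor j) i
  have hZv : ∀ j ∈ Γ, D.ze ((((j : ℕ) : ℂ) / q) • D.vec x) ∈ Qbar := fun j hj =>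
    hTZV D hG hA q hq.one_le _ _ (hΓ2 j hj) (htor j) (hLj j)
  have hLio : ∀ j : Fin q, ∃ C : ℕ, j ∈ Γ → 1 ≤ C ∧
      ∀ (d : ℕ) (H : ℝ) (P : MvPolynomial (Option I) (𝓞 K)) (w : List (Fin β)),
      1 ≤ H → P.totalDegree ≤ d →
      ∑ m ∈ P.support, house (algebraMap (𝓞 K) K (P.coeff m)) ≤ H →
      D.ev ((((j : ℕ) : ℂ) / q) • D.vec x) 0 (D.lw w (map (oEmb σ) P)) ≠ 0 →
      1 ≤ ‖D.ev ((((j : ℕ) : ℂ) / q) • D.vec x) 0 (D.lw w (map (oEmb σ) P))‖ *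
        (H * (C : ℝ) ^ (d + w.length) * ((d + w.length : ℕ) : ℝ) ^ w.length) ^ C := by
    intro j
    by_cases hj : j ∈ Γ
    · obtain ⟨C, hC⟩ := hLIO D hG σ xv p hInt _ (hΓ2 j hj) (hF j hj) (hZv j hj)
      exact ⟨C, fun _ => hC⟩
    · exact ⟨0, fun h => absurd h hj⟩
  choose CL hCL using hLio
  obtain ⟨CE, _, hE⟩ := hEXT D hG x hL
  obtain ⟨ε, hε0, hε1, hεΓ⟩ := exists_eps Γ
    (fun j => ‖D.th D.o ((((j : ℕ) : ℂ) / q) • D.vec x)‖) fun j hj => norm_pos_iff.2 (hΓ2 j hj)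
  obtain ⟨A, hA1, hA2, hA3, hA4, hA5⟩ : ∃ A : ℕ, 1 ≤ A ∧ CE ≤ A ∧ (∀ j, CL j ≤ A) ∧
      4 * CZ ≤ A ∧ D.m + 1 ≤ A := by
    refine ⟨1 + ⌈CE⌉₊ + ∑ j, CL j + 4 * CZ + (D.m + 1), by omega, ?_, fun j => ?_, by omega,
      by omega⟩
    · refine (Nat.le_ceil CE).trans ?_
      exact_mod_cast (by omega : ⌈CE⌉₊ ≤ 1 + ⌈CE⌉₊ + ∑ j, CL j + 4 * CZ + (D.m + 1))
    · have := Finset.single_le_sum (f := CL) (fun _ _ => Nat.zero_le _) (Finset.mem_univ j)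
      omega
  obtain ⟨T₀, hT₀⟩ := hNMR β CA A ε hβ hCA hA1 hε0 hε1
  obtain ⟨T, hT1, hT8⟩ : ∃ T, T₀ ≤ T ∧ 8 ≤ T := ⟨max T₀ 8, le_max_left _ _, le_max_right _ _⟩
  obtain ⟨d, P, hd1, hdT, hPd, hPnn, hPH, hP0⟩ := hAux T (by omega)
  obtain ⟨hAd, S, hS1, hnum⟩ := hT₀ T hT1 d hd1 hdT
  have hH1 : (1 : ℝ) ≤ ((CA * T : ℕ) : ℝ) ^ (CA * T) := by
    apply one_le_pow₀
    have : 1 ≤ CA * T := Nat.mul_pos hCA (by omega)
    exact_mod_cast this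
  have hdeg : (map (oEmb σ) P).totalDegree ≤ d := (Finset.sup_mono (support_map_subset _ _)).trans hPd
  have key : ∀ k, 2 * k ≤ T → ∀ j ∈ Γ, ∀ w : List (Fin β), w.length = k →
      D.ev ((((j : ℕ) : ℂ) / q) • D.vec x) 0 (D.lw w (map (oEmb σ) P)) = 0 := by
    intro k
    induction k using Nat.strong_induction_on with
    | _ k ih =>
      intro hk j hj w hw
      by_contra hne
      have hlt : ∀ w' : List (Fin β), w'.length < k →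
          D.ev ((((j : ℕ) : ℂ) / q) • D.vec x) 0 (D.lw w' (map (oEmb σ) P)) = 0 :=
        fun w' hw' => ih w'.length hw' (by omega) j hj w' rfl
      have ht : (((((j : ℕ) : ℝ) / q : ℝ)) : ℂ) = ((j : ℕ) : ℂ) / q := by push_cast; rfl
      have hq0 : (0 : ℝ) < q := by exact_mod_cast hq.pos
      have e1 := hE d T S k _ (map (oEmb σ) P) hd1 hS1 (by omega) hdeg
        ((norm_map_le σ P).trans hPH) hP0 (((j : ℕ) : ℝ) / q) (by positivity) (by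
          rw [div_le_one hq0]
          exact_mod_cast j.2.le) (by rw [ht]; exact hΓ2 j hj) (by rw [ht]; exact hlt) w hw
      rw [ht] at e1
      have e2 := (hCL j hj).2 d _ P w hH1 hPd hPH hne
      rw [hw] at e2
      exact contra (norm_nonneg _) hH1 hε0 hε1 (hεΓ j hj) hA2 (hA3 j) (hCL j hj).1 hA5 hd1
        e1 e2 (hnum k hk)
  have h4 : 4 * (CZ * d) ≤ T := by
    have : 4 * CZ * d ≤ A * d := Nat.mul_le_mul_right d hA4
    rw [mul_assoc] at this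
    omega
  have hz := hZ d (map (oEmb σ) P) hd1 hdeg hPnn (T / 4) (by omega) (Γ := {j // j ∈ Γ})
    (fun j => (((j.1 : ℕ) : ℂ) / q) • D.vec x) (fun j => hΓ2 j.1 j.2)
    (fun j j' h => Subtype.ext (hΓ3 j.1 j.2 j'.1 j'.2 h))
    (fun j w hw => key w.length (by omega) j.1 j.2 w rfl)
  rw [Fintype.card_coe] at hz
  have h6 : T ^ β ≤ 8 ^ β * (T / 4) ^ β := by
    rw [← mul_pow]
    exact Nat.pow_le_pow_left (by omega) β
  have h7 : Γ.card * (T / 4) ^ β ≤ (8 ^ β * CZ * CA) * (T / 4) ^ β := by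
    calc Γ.card * (T / 4) ^ β ≤ CZ * d ^ (β + 1) := hz
      _ ≤ CZ * (CA * T ^ β) := Nat.mul_le_mul_left _ hdT
      _ ≤ CZ * (CA * (8 ^ β * (T / 4) ^ β)) :=
          Nat.mul_le_mul_left _ (Nat.mul_le_mul_left _ h6)
      _ = (8 ^ β * CZ * CA) * (T / 4) ^ β := by ring
  have h8 : Γ.card ≤ 8 ^ β * CZ * CA :=
    Nat.le_of_mul_le_mul_right h7 (pow_pos (by omega) β)
  omega

end Pool.Agent.Lib.MPf11a48.AS
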