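import Pool.Agent.Lib.MP_f11a48_ag.AS.SpecT

/-!
# Project AS, module QFR: the functions `f_i(q z)` are quotients of polynomials in the `f_k(z)`
-/

set_option autoImplicit false

open MvPolynomial Pool.Agent.Lib.MPf11a48.CM Filter Topology Asymptotics NumberField
open Pool.Agent.Lib.MPf11a48.U (oEmb)

namespace Pool.Agent.Lib.MPf11a48.AS

namespace QFRM

/-- identity theorem for entire functions of one variable -/
theorem eq_zero_of_eventually {g : ℂ → ℂ} (hg : Differentiable ℂ g) (h : ∀ᶠ t in 𝓝 0, g t = 0) :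
    ∀ t, g t = 0 := by
  have h1 : AnalyticOnNhd ℂ g Set.univ := fun t _ => hg.analyticAt t
  intro t
  exact h1.eqOn_zero_of_preconnected_of_eventuallyEq_zero isPreconnected_univ
    (Set.mem_univ 0) h (Set.mem_univ t)

variable {β : ℕ} {I Λ : Type} [Fintype I] [Fintype Λ]

/-- if `th_o(q z) a(f(z)) = 0` on `V'` then `a(f) = 0` -/
theorem nf_of_mul (hSRG : SpecSRG) (D : QD β I Λ) (hD : D.Good) (q : ℕ)
    (a : MvPolynomial I ℂ)
    (h : ∀ z, D.th D.o z ≠ 0 → D.th D.o ((q : ℂ) • z) * eval (D.fv z) a = 0) : a ∈ D.nf := by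
  intro z hz
  obtain ⟨⟨k, G, hG, hGe⟩, -⟩ := (hSRG D.toTH hD.good).1 a
  have hcont : Continuous (D.th D.o) := (hD.good.diff D.o).continuous
  have hline : Differentiable ℂ (fun t : ℂ => t • z) := differentiable_id.smul_const z
  have hlinec : Continuous (fun t : ℂ => t • z) := hline.continuous
  have h1 : ∀ t : ℂ, G (t • z) = 0 := by
    apply eq_zero_of_eventually (hG.comp hline)
    have e1 : ∀ᶠ t : ℂ in 𝓝 0, D.th D.o (t • z) ≠ 0 := by
      have : ContinuousAt (fun t : ℂ => D.th D.o (t • z)) 0 := (hcont.comp hlinec).continuousAt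
      apply this.eventually_ne
      rw [zero_smul]
      exact hD.good.zero
    have e2 : ∀ᶠ t : ℂ in 𝓝 0, D.th D.o ((q : ℂ) • (t • z)) ≠ 0 := by
      have : ContinuousAt (fun t : ℂ => D.th D.o ((q : ℂ) • (t • z))) 0 :=
        (hcont.comp (hlinec.const_smul (q : ℂ))).continuousAt
      apply this.eventually_ne
      rw [zero_smul, smul_zero]
      exact hD.good.zero
    filter_upwards [e1, e2] with t h1 h2
    have h3 := (mul_eq_zero.1 (h _ h1)).resolve_left h2
    have h4 := hGe _ h1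
    simp only [h3, zero_mul] at h4
    exact h4.symm
  have h2 := h1 1
  rw [one_smul] at h2
  have h3 := hGe z hz
  rw [h2] at h3
  exact (mul_eq_zero.1 h3).resolve_right (pow_ne_zero k hz)

end QFRM

open QFRM in
theorem specQFR (hBAS : SpecBAS) (hSRG : SpecSRG) (hFRC : SpecFRC) (hQMU : SpecQMU) :
    SpecQFR := by
  intro β I Λ _ _ D hD q hq
  have hprime : D.nf.IsPrime := (hBAS D.toTH hD.good).2.2.2.1
  obtain ⟨hA, hB⟩ := hQMU D hD q hq
  obtain ⟨ao, bo, hao, hobo⟩ := hFRC D.toTH hD.good _ (hA D.o)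
  have hbo : bo ∉ D.nf := by
    intro hcon
    apply hao
    apply nf_of_mul hSRG D hD q
    intro z hz
    have h1 := hobo z hz
    have h2 : eval (D.fv z) bo = 0 := hcon z hz
    rw [h2, div_mul_eq_mul_div, div_eq_zero_iff] at h1
    exact h1.resolve_right (pow_ne_zero _ hz)
  refine ⟨fun i => ?_, ?_⟩
  · obtain ⟨ai, bi, hai, hibi⟩ := hFRC D.toTH hD.good _ (hA i)
    refine ⟨ai * bo, bi * ao, fun h => ?_, fun z hz => ?_⟩
    · rcases hprime.mem_or_mem h with h | h
      · exact hai h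
      · exact hbo h
    · have h1 := hibi z hz
      have h2 := hobo z hz
      have hP : D.th D.o z ^ (q ^ 2) ≠ 0 := pow_ne_zero _ hz
      change D.th i ((q : ℂ) • z) / D.th D.o z ^ (q ^ 2) * eval (D.fv z) ai =
        eval (D.fv z) bi at h1
      change D.th D.o ((q : ℂ) • z) / D.th D.o z ^ (q ^ 2) * eval (D.fv z) ao =
        eval (D.fv z) bo at h2
      rw [map_mul, map_mul, ← h1, ← h2]
      field_simp
  · obtain ⟨a2, b2, ha2, hab2⟩ := hFRC D.toTH hD.good _ hB
    refine ⟨bo ^ D.m * a2, b2 * ao ^ D.m, fun h => ?_, fun z hz hqz => ?_⟩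
    · rcases hprime.mem_or_mem h with h | h
      · exact hbo (hprime.mem_of_pow_mem _ h)
      · exact ha2 h
    · have h1 := hab2 z hz
      have h2 := hobo z hz
      have hP : D.th D.o z ≠ 0 := hz
      change (D.Y ((q : ℂ) • z) - (q : ℂ) * D.ze z * D.th D.o ((q : ℂ) • z) ^ D.m) /
        D.th D.o z ^ (q ^ 2 * D.m) * eval (D.fv z) a2 = eval (D.fv z) b2 at h1
      change D.th D.o ((q : ℂ) • z) / D.th D.o z ^ (q ^ 2) * eval (D.fv z) ao =
        eval (D.fv z) bo at h2
      have h3 : D.ze ((q : ℂ) • z) = D.Y ((q : ℂ) • z) / D.th D.o ((q : ℂ) • z) ^ D.m := rfl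
      rw [map_mul, map_mul, map_pow, map_pow, ← h1, ← h2, h3, mul_pow, div_pow, ← pow_mul]
      have hQ : D.th D.o ((q : ℂ) • z) ^ D.m ≠ 0 := pow_ne_zero _ hqz
      have hR : D.th D.o z ^ (q ^ 2 * D.m) ≠ 0 := pow_ne_zero _ hz
      generalize D.th D.o ((q : ℂ) • z) ^ D.m = Q at *
      generalize D.th D.o z ^ (q ^ 2 * D.m) = R at *
      field_simp

end Pool.Agent.Lib.MPf11a48.AS
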