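import Pool.Agent.Lib.MP_f11a48_ag.AS.SpecT
import Pool.Agent.Lib.MP_f11a48_ag.U.Hda
import Pool.Agent.Lib.MP_f11a48_ag.U.SpecArt

/-!
# Project AS, block E: from `SpecMAIN` to the periods of an abelian variety

Paper: /team-store/MP_f11a48_ag_AST.md, section 6. `A` is an abelian variety over `K ≤ Qbar`, `c` its
period matrix. Final theorem: `SpecASP`. All modules may take any `Spec` as a hypothesis.

`H_1(A^{2g}, ℚ)` is the space of rational matrices `X` (row `k` = the class in `H_1` of the `k`-th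
factor, in the basis `lat`); the complex structure is `X ↦ X J`, `J = HDAM.JM A.lat _` (see
`HDAM.JM_row`), endomorphisms `B` of `A` act on rows by `x ↦ x B`.
-/

set_option autoImplicit false

open Matrix MvPolynomial Pool.Agent.Lib.MPf11a48.CM Pool.Agent.Lib.MPf11a48.GL2T
open Filter Topology
open Pool.Agent.Lib.MPf11a48.U (AbData Ix EndAlg ComAlg mR mC HDAM.JM)

namespace Pool.Agent.Lib.MPf11a48.AS

/-! ## Endomorphisms are defined over `Qbar` -/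

/-- Module ENR (200 lines; uses CNT of block F). Proof: let `n > 0` be such that `n B` is integral. The
functions `f_{s_k}(z)`, `f_j(z P)`, resp. `gP t`, are periodic for the lattice vectors `n lat_l`
(`lat_l P = ∑ B_{l l'} lat_l'`, and `lat_l Q + eta_l S = ∑ B_{l l'} eta_l'`, from `h`), and become entire
after multiplication by a power of `w(z) = th_0(z) th_0(z P)`, which has automorphy factors for the
`n lat_l`. Apply CNT to the `g + 1` functions, `Z = Fin g`. -/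
def SpecENR : Prop :=
  ∀ (K : IntermediateField ℚ ℂ) (g N : ℕ) (A : AbData g N) (c : GL (Ix g) ℂ), A.IsAbVar K →
    c.1 = A.per → ∀ B : Matrix (Ix g) (Ix g) ℚ, A.IsEndo B →
    ∀ P Q S : Matrix (Fin g) (Fin g) ℂ, c.1 * Matrix.fromBlocks P Q 0 S = mC B * c.1 →
    ∀ s : Fin g → Fin (N + 1),
      (∀ j, ∃ p : MvPolynomial (Option (Fin g)) ℂ, p ≠ 0 ∧ A.Rel P s (A.fP P j) p) ∧
      ∀ t, ∃ p : MvPolynomial (Option (Fin g)) ℂ, p ≠ 0 ∧ A.Rel P s (A.gP P Q S t) p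

/-- Module ENQ (120 lines; uses ENR; `U.specCONJ`, `U.specORB`). Proof: exactly as `U.specGAL` in
`U/Gal.lean`, with ENR in place of GREL (`GalM.blocks` gives the block form, `Clos.exists_indices` the
indices `s`). -/
def SpecENQ : Prop :=
  ∀ (K : IntermediateField ℚ ℂ) (g N : ℕ) (A : AbData g N) (c : GL (Ix g) ℂ), K ≤ Qbar →
    A.IsAbVar K → c.1 = A.per → ∀ B : Matrix (Ix g) (Ix g) ℚ, A.IsEndo B →
    ∀ τ : ℂ ≃+* ℂ, FixQ τ → ∃ B₂ : Matrix (Ix g) (Ix g) ℚ,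
      c.1 * (c⁻¹.1 * mC B * c.1).map τ = mC B₂ * c.1

/-- Module END (60 lines; uses ENQ, AUT of block T): endomorphisms of the complex torus are
endomorphisms of the de Rham-Betti object over `Qbar`. Proof: the orbit of an entry of `c⁻¹ B c` under
`FixQ` is contained in the countable set of the entries of the `c⁻¹ B₂ c`. -/
def SpecEND : Prop :=
  ∀ (K : IntermediateField ℚ ℂ) (g N : ℕ) (A : AbData g N) (c : GL (Ix g) ℂ), K ≤ Qbar →
    A.IsAbVar K → c.1 = A.per → ∀ B : Matrix (Ix g) (Ix g) ℚ, A.IsEndo B → B ∈ EndAlg c.1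

/-! ## Hodge substructures -/

/-- `N` is a Hodge substructure (stable under the complex structure). -/
def JStab {g : ℕ} (J : Matrix (Ix g) (Ix g) ℝ) (N : Submodule ℚ (Matrix (Ix g) (Ix g) ℚ)) : Prop :=
  ∀ X ∈ N, mR X * J ∈ Submodule.span ℝ {Y : Matrix (Ix g) (Ix g) ℝ | ∃ X' ∈ N, Y = mR X'}

/-- Module HDC (250 lines). Proof: `N₀` is the sum of all `J`-stable subspaces on which `L = 0`. The
form `⟨X, Y⟩ = tr (X E Yᵀ)` is alternating and non-degenerate, `⟨X J, Y J⟩ = ⟨X, Y⟩` (`HDAM.E_J`),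
`⟨X, X J⟩ > 0` for real `X ≠ 0` (`HDAM.pos_E` on the rows). `N₁` = the orthogonal complement of `N₀`
(rational): it is `J`-stable, as `⟨X, Y J⟩ = -⟨X J, Y⟩`, and the real points of the orthogonal complement
are the real span of the rational points. `N₀ ∩ N₁ = 0`: `X ∈ N₀ ∩ N₁` gives `⟨X, X J⟩ = 0`. -/
def SpecHDC : Prop :=
  ∀ (K : IntermediateField ℚ ℂ) (g N : ℕ) (A : AbData g N) (hA : A.IsAbVar K)
    (L : Matrix (Ix g) (Ix g) ℚ →ₗ[ℚ] ℂ),
    ∃ N₀ N₁ : Submodule ℚ (Matrix (Ix g) (Ix g) ℚ),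
      JStab (U.HDAM.JM A.lat hA.lat_indep) N₀ ∧ JStab (U.HDAM.JM A.lat hA.lat_indep) N₁ ∧
      IsCompl N₀ N₁ ∧ (∀ X ∈ N₀, L X = 0) ∧
      ∀ N', JStab (U.HDAM.JM A.lat hA.lat_indep) N' → (∀ X ∈ N', L X = 0) → N' ≤ N₀

/-- The endomorphism of the space of matrices with blocks `Bk`: row `k` of the image of `Y` is
`∑_{k'} (row k' of Y) Bk k' k`. -/
def prE {g : ℕ} {R : Type} [CommRing R] (Bk : Ix g → Ix g → Matrix (Ix g) (Ix g) R)
    (Y : Matrix (Ix g) (Ix g) R) : Matrix (Ix g) (Ix g) R :=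
  Matrix.of fun k l => ∑ k', (Y k' ᵥ* Bk k' k) l

/-- Module PRB (150 lines; uses END, `HDAM.isEndo_of_comm`): the projector onto `N₁` along `N₀` has
blocks in `EndAlg c`. Proof: the projector `e` satisfies `e(X J) = e(X) J` on real matrices (both
summands are `J`-stable); the block `Bk k' k` is `(Bk k' k)_{l' l} = (e (single k' l' 1))_{k l}`; so
`J Bk = Bk J`. -/
def SpecPRB : Prop :=
  ∀ (K : IntermediateField ℚ ℂ) (g N : ℕ) (A : AbData g N) (c : GL (Ix g) ℂ) (_ : K ≤ Qbar)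
    (hA : A.IsAbVar K), c.1 = A.per → ∀ N₀ N₁ : Submodule ℚ (Matrix (Ix g) (Ix g) ℚ),
    JStab (U.HDAM.JM A.lat hA.lat_indep) N₀ → JStab (U.HDAM.JM A.lat hA.lat_indep) N₁ →
    IsCompl N₀ N₁ →
    ∃ Bk : Ix g → Ix g → Matrix (Ix g) (Ix g) ℚ, (∀ k' k, Bk k' k ∈ EndAlg c.1) ∧
      (∀ Y, prE Bk Y ∈ N₁) ∧ (∀ Y ∈ N₁, prE Bk Y = Y) ∧ ∀ Y ∈ N₀, prE Bk Y = 0

/-- Module STB (60 lines; uses PRB with `N₀`, `N₁` exchanged): Hodge substructures are stable under right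
multiplication by `ComAlg c`. Proof: `prE Bk (Y X) = prE Bk Y X` as `X` commutes with the blocks. -/
def SpecSTB : Prop :=
  ∀ (K : IntermediateField ℚ ℂ) (g N : ℕ) (A : AbData g N) (c : GL (Ix g) ℂ) (_ : K ≤ Qbar)
    (hA : A.IsAbVar K), c.1 = A.per → ∀ N₀ N₁ : Submodule ℚ (Matrix (Ix g) (Ix g) ℚ),
    JStab (U.HDAM.JM A.lat hA.lat_indep) N₀ → JStab (U.HDAM.JM A.lat hA.lat_indep) N₁ →
    IsCompl N₀ N₁ → ∀ Y ∈ N₀, ∀ X ∈ ComAlg c.1, Y * X ∈ N₀

/-- The vectors of `(ℂ^g)^{2g}` given by the rows of a real matrix. -/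
noncomputable def Ph {g N : ℕ} (A : AbData g N) (X : Matrix (Ix g) (Ix g) ℝ) : Ix g → Fin g → ℂ :=
  fun k => ∑ m, (X k m : ℂ) • A.lat m

/-- Module UDF (250 lines; uses PRB). Proof: `Ph` is an `ℝ`-linear bijection onto `(ℂ^g)^{2g}`,
`Ph (X J) = i Ph X`. `W` = the complex span of `Ph N₁` is `Ph` of the real span of `N₁`. If `P k' k` is the
(algebraic) upper left block of `c⁻¹ (Bk k' k) c`, the complex linear map
`w ↦ (∑_{k'} w_{k'} P k' k)_k` maps `Ph Y` to `Ph (prE Bk Y)`; its image is `W`; so `W` is spanned by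
vectors with coordinates in `Qbar`. `2 dim_ℂ W = dim_ℝ W = dim_ℚ N₁`. -/
def SpecUDF : Prop :=
  ∀ (K : IntermediateField ℚ ℂ) (g N : ℕ) (A : AbData g N) (c : GL (Ix g) ℂ) (_ : K ≤ Qbar)
    (hA : A.IsAbVar K), c.1 = A.per → ∀ N₀ N₁ : Submodule ℚ (Matrix (Ix g) (Ix g) ℚ),
    JStab (U.HDAM.JM A.lat hA.lat_indep) N₀ → JStab (U.HDAM.JM A.lat hA.lat_indep) N₁ →
    IsCompl N₀ N₁ →
    ∃ (β : ℕ) (u : Fin β → Ix g → Fin g → ℂ), LinearIndependent ℂ u ∧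
      (∀ a k j, u a k j ∈ Qbar) ∧ Module.finrank ℚ N₁ = 2 * β ∧
      (∀ X ∈ N₁, Ph A (mR X) ∈ Submodule.span ℂ (Set.range u)) ∧
      ∀ X : Matrix (Ix g) (Ix g) ℝ, Ph A X ∈ Submodule.span ℂ (Set.range u) →
        X ∈ Submodule.span ℝ {Y : Matrix (Ix g) (Ix g) ℝ | ∃ X' ∈ N₁, Y = mR X'}

/-- Module LAT (120 lines, algebra): integral points of a rational subspace. -/
def SpecLAT : Prop :=
  ∀ {ι : Type} [Fintype ι] (N : Submodule ℚ (ι → ℚ)),
    ∃ X : Fin (Module.finrank ℚ N) → ι → ℤ, (∀ l, (fun i => (X l i : ℚ)) ∈ N) ∧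
      LinearIndependent ℚ (fun l i => (X l i : ℚ)) ∧
      ∀ Y : ι → ℤ, (fun i => (Y i : ℚ)) ∈ N →
        ∃ x : Fin (Module.finrank ℚ N) → ℤ, ∀ i, Y i = ∑ l, x l * X l i

/-! ## Restriction of the theta functions of a power of `A` to a subspace -/

/-- `ℂ^β → (ℂ^g)^κ` with basis vectors `u`; lattice vectors `lat l`, with integral coordinates `X l`; a
linear form `R` on the periods. -/
structure Emb (g β : ℕ) (κ Λ : Type) where
  u : Fin β → κ → Fin g → ℂ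
  X : Λ → κ → Ix g → ℤ
  lat : Λ → (Fin β → ℂ)
  R : κ → Ix g → ℂ

namespace Emb

variable {g N β : ℕ} {κ Λ : Type} (E : Emb g β κ Λ)

/-- the map `ℂ^β → (ℂ^g)^κ` -/
noncomputable def io : (Fin β → ℂ) →ₗ[ℂ] (κ → Fin g → ℂ) := Fintype.linearCombination ℂ E.u

/-- the `k`-th component -/
noncomputable def ik (k : κ) : (Fin β → ℂ) →ₗ[ℂ] (Fin g → ℂ) := LinearMap.proj k ∘ₗ E.io

/-- The axioms. -/
structure Good (A : AbData g N) [Fintype Λ] : Prop where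
  u_indep : LinearIndependent ℂ E.u
  u_alg : ∀ a k j, E.u a k j ∈ Qbar
  R_alg : ∀ k y, E.R k y ∈ Qbar
  lat_eq : ∀ l k, E.io (E.lat l) k = ∑ m, (E.X l k m : ℂ) • A.lat m
  indep : LinearIndependent ℝ E.lat
  card : Fintype.card Λ = 2 * β
  sat : ∀ (Y : κ → Ix g → ℤ) (s : Fin β → ℂ),
    (∀ k, E.io s k = ∑ m, (Y k m : ℂ) • A.lat m) → ∃ x : Λ → ℤ, s = ∑ l, (x l : ℂ) • E.lat l

variable [Fintype κ]

/-- The theta data on `ℂ^β`: products of the theta functions of the factors at `io s` and at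
`-io s`. -/
noncomputable def toTH (A : AbData g N) :
    TH (Fin β) ((κ → Fin (N + 1)) × (κ → Fin (N + 1))) Λ where
  o := (fun _ => 0, fun _ => 0)
  th := fun i s => (∏ k, A.th (i.1 k) (E.io s k)) * ∏ k, A.th (i.2 k) (-(E.io s k))
  lat := E.lat
  a := fun l => ∑ k, ∑ m, (2 * (E.X l k m : ℂ)) • (A.a m ∘ₗ E.ik k)

/-- the function `ze` -/
noncomputable def zeF (A : AbData g N) (s : Fin β → ℂ) : ℂ :=
  ∑ k, (∑ j, E.R k (Sum.inl j) * E.io s k j + ∑ t, E.R k (Sum.inr t) * A.zt t (E.io s k))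

/-- its quasi-periods -/
noncomputable def ell (A : AbData g N) (l : Λ) : ℂ :=
  ∑ k, ∑ m, (E.X l k m : ℂ) * ∑ y, A.per m y * E.R k y

end Emb

/-- Module CTH (350 lines). Proof: for `x ∈ ℤ^{Ix g}` there is `b` with
`th_i(z + ∑ x_m lat_m) = exp(a_x(z) + b) th_i(z)`, `a_x = ∑ x_m a_m` (induction), and
`th_j(-z - ∑ x_m lat_m) = exp(a_x(z) + a_x(∑ x_m lat_m) - b) th_j(-z)`: the constants `b` cancel in
the product. Common zeros, injectivity (`sat`), immersion (`u_indep`; the indices: two families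
which differ at one factor `k`) as for products and the Segre embedding; the tensors
`(th_i(z))_i ⊗ (th_j(-z))_j` determine their factors up to scalars. -/
def SpecCTH : Prop :=
  ∀ (K : IntermediateField ℚ ℂ) {g N β : ℕ} {κ Λ : Type} [Fintype κ] [DecidableEq κ] [Fintype Λ]
    (A : AbData g N) (E : Emb g β κ Λ), A.IsAbVar K → E.Good A → (E.toTH A).Good

/-- Module CDV (300 lines): derivatives. Proof: `f_{(i,j)}(s) = ∏ f_{i_k}(w_k) ∏ f_{j_k}(-w_k)`,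
`w = io s`; `∂_a w_k = u a k`; `∂_b f_i = p(f)` with `p` over `K` (`IsAbVar.deriv`); `f_i(w_k)` is the
function `f` with index `(Pi.single k i, 0)` (`f_0 = 1`). In the same way for `zeF` (`zt_deriv`). -/
def SpecCDV : Prop :=
  ∀ (K : IntermediateField ℚ ℂ) {g N β : ℕ} {κ Λ : Type} [Fintype κ] [DecidableEq κ] [Fintype Λ]
    (A : AbData g N) (E : Emb g β κ Λ), K ≤ Qbar → A.IsAbVar K → E.Good A →
    (∀ i (a : Fin β), ∃ p : MvPolynomial ((κ → Fin (N + 1)) × (κ → Fin (N + 1))) ℂ,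
      (∀ m, p.coeff m ∈ Qbar) ∧ ∀ s, (E.toTH A).th (E.toTH A).o s ≠ 0 →
        fderiv ℂ ((E.toTH A).f i) s (Pi.single a 1) = eval ((E.toTH A).fv s) p) ∧
    ∀ a : Fin β, ∃ q : MvPolynomial ((κ → Fin (N + 1)) × (κ → Fin (N + 1))) ℂ,
      (∀ m, q.coeff m ∈ Qbar) ∧ ∀ s, (E.toTH A).th (E.toTH A).o s ≠ 0 →
        fderiv ℂ (E.zeF A) s (Pi.single a 1) = eval ((E.toTH A).fv s) q

/-- Module CZE (150 lines): values and periods. `Y(s)` is
`∑_k ∑_t R_{k t} Y_t(w_k) ∏_{k' ≠ k} th_0(w_{k'})^m ∏_{k'} th_0(-w_{k'})^m` plus the linear form times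
`th_o^m`. -/
def SpecCZE : Prop :=
  ∀ (K : IntermediateField ℚ ℂ) {g N β : ℕ} {κ Λ : Type} [Fintype κ] [DecidableEq κ] [Fintype Λ]
    (A : AbData g N) (E : Emb g β κ Λ), K ≤ Qbar → A.IsAbVar K → E.Good A →
    (∃ Y : (Fin β → ℂ) → ℂ, Differentiable ℂ Y ∧ ∀ s, (E.toTH A).th (E.toTH A).o s ≠ 0 →
      Y s / (E.toTH A).th (E.toTH A).o s ^ A.m = E.zeF A s) ∧
    (∀ l s, (E.toTH A).th (E.toTH A).o s ≠ 0 → E.zeF A (s + E.lat l) = E.zeF A s + E.ell A l) ∧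
    (∀ i, (E.toTH A).f i 0 ∈ Qbar) ∧ E.zeF A 0 ∈ Qbar

/-- Module CQD (80 lines; uses CTH, CDV, CZE): assembly. -/
def SpecCQD : Prop :=
  ∀ (K : IntermediateField ℚ ℂ) {g N β : ℕ} {κ Λ : Type} [Fintype κ] [DecidableEq κ] [Fintype Λ]
    (A : AbData g N) (E : Emb g β κ Λ), K ≤ Qbar → A.IsAbVar K → E.Good A →
    ∃ D : QD β ((κ → Fin (N + 1)) × (κ → Fin (N + 1))) Λ, D.Good ∧ D.Alg ∧ D.lat = E.lat ∧
      D.ell = E.ell A

/-- Module EMB (200 lines; uses UDF, LAT): the embedding given by a Hodge substructure `N₁`. Proof: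
`β`, `u` from UDF, the `X l` from LAT for the matrices as functions on `Ix g × Ix g`
(`finrank N₁ = 2 β`), `lat l` = the coordinates of `Ph (X l)` in the basis `u`. They are
`ℝ`-independent (`Ph` injective). `sat`: `Ph Y ∈ span u`, so `Y` is in the real span of `N₁`, so in
`N₁` (rational), so an integral combination of the `X l`. -/
def SpecEMB : Prop :=
  ∀ (K : IntermediateField ℚ ℂ) (g N : ℕ) (A : AbData g N) (c : GL (Ix g) ℂ) (_ : K ≤ Qbar)
    (hA : A.IsAbVar K), c.1 = A.per → ∀ N₀ N₁ : Submodule ℚ (Matrix (Ix g) (Ix g) ℚ),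
    JStab (U.HDAM.JM A.lat hA.lat_indep) N₀ → JStab (U.HDAM.JM A.lat hA.lat_indep) N₁ →
    IsCompl N₀ N₁ → ∀ R : Matrix (Ix g) (Ix g) ℂ, (∀ i j, R i j ∈ Qbar) →
    ∃ (β : ℕ) (E : Emb g β (Ix g) (Fin (2 * β))), E.Good A ∧ (∀ k y, E.R k y = R y k) ∧
      (∀ l, (Matrix.of fun k m => (E.X l k m : ℚ)) ∈ N₁) ∧
      (∀ Y : Matrix (Ix g) (Ix g) ℤ, Y.map (fun x => (x : ℚ)) ∈ N₁ →
        ∃ x : Fin (2 * β) → ℤ, ∀ k m, Y k m = ∑ l, x l * E.X l k m) ∧
      ∀ X : Matrix (Ix g) (Ix g) ℝ, Ph A X ∈ LinearMap.range E.io →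
        X ∈ Submodule.span ℝ {Y : Matrix (Ix g) (Ix g) ℝ | ∃ X' ∈ N₁, Y = mR X'}

/-- Module ESS (200 lines): semistability. Proof: let `U` be as in `SS` with `L(x) = 0` for all lattice
vectors in `U`. `N' = {X ∈ N₁ : Ph X ∈ io(U)}` is a rational subspace; it is `J`-stable: `io(U)` is complex,
and every element of `io(U)` is a real combination of elements `Ph X`, `X ∈ N'` (`U` is spanned by
lattice vectors), and `Ph` is injective. The form `X ↦ tr(X c R)` vanishes on `N'`: for integral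
`X ∈ N'`, `X = ∑ x_l X_l`, it is `L(x)`, and `μ_x ∈ U`. So `N' ≤ N₀`, `N' ≤ N₁`, `N' = 0`, `U = 0`. -/
def SpecESS : Prop :=
  ∀ (K : IntermediateField ℚ ℂ) (g N : ℕ) (A : AbData g N) (hA : A.IsAbVar K)
    (N₀ N₁ : Submodule ℚ (Matrix (Ix g) (Ix g) ℚ)) (R : Matrix (Ix g) (Ix g) ℂ), IsCompl N₀ N₁ →
    (∀ N', JStab (U.HDAM.JM A.lat hA.lat_indep) N' →
      (∀ X ∈ N', (mC X * A.per * R).trace = 0) → N' ≤ N₀) →
    ∀ (β : ℕ) (E : Emb g β (Ix g) (Fin (2 * β))), E.Good A → (∀ k y, E.R k y = R y k) →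
    (∀ l, (Matrix.of fun k m => (E.X l k m : ℚ)) ∈ N₁) →
    (∀ Y : Matrix (Ix g) (Ix g) ℤ, Y.map (fun x => (x : ℚ)) ∈ N₁ →
      ∃ x : Fin (2 * β) → ℤ, ∀ k m, Y k m = ∑ l, x l * E.X l k m) →
    ∀ (I : Type) [Fintype I] (D : QD β I (Fin (2 * β))), D.lat = E.lat → D.ell = E.ell A → D.SS

/-- The analytic subgroup property: all linear relations over `Qbar` between the periods come from
endomorphisms. -/
def ASP {ι : Type} [Fintype ι] [DecidableEq ι] (c : GL ι ℂ) : Prop :=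
  ∀ R : Matrix ι ι ℂ, (∀ i j, R i j ∈ Qbar) → (c.1 * R).trace = 0 → ∀ X ∈ ComAlg c.1,
    (mC X * c.1 * R).trace = 0

/-- Module ASP (150 lines; uses HDC, STB, EMB, CQD, ESS, `SpecMAIN`): THEOREM (P*). Proof: HDC for
`L(X) = tr(X c R)`. `1 = X₀ + X₁`, `L(X₁) = 0`. If `X₁ ≠ 0`: `n X₁` is integral, `= ∑ x_l X_l`,
`x ≠ 0`; EMB, CQD, ESS, MAIN (`β > 0`) give `L(n X₁) = D.L x ≠ 0`. Contradiction. So `1 ∈ N₀`,
`X = 1 X ∈ N₀` (STB), `tr(X c R) = 0`. -/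
def SpecASP : Prop :=
  ∀ (K : IntermediateField ℚ ℂ) (g N : ℕ) (A : AbData g N) (c : GL (Ix g) ℂ), K ≤ Qbar →
    A.IsAbVar K → c.1 = A.per → ASP c

end Pool.Agent.Lib.MPf11a48.AS
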