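import Pool.Agent.Lib.MP_f11a48_ag.AS.SpecE

/-!
# Project AS, block R: the bicommutant theorem over `Qbar`

Paper: /team-store/MP_f11a48_ag_AST.md, section 0.
-/

set_option autoImplicit false

open Matrix MvPolynomial Pool.Agent.Lib.MPf11a48.CM Pool.Agent.Lib.MPf11a48.GL2T
open Pool.Agent.Lib.MPf11a48.U (AbData Ix EndAlg ComAlg mR mC)

namespace Pool.Agent.Lib.MPf11a48.AS

/-- A complex space of matrices is spanned by matrices with entries in `Qbar`. -/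
def QSpan {ι κ : Type} (V : Submodule ℂ (Matrix ι κ ℂ)) : Prop :=
  ∀ X ∈ V, X ∈ Submodule.span ℂ {Y : Matrix ι κ ℂ | Y ∈ V ∧ ∀ i j, Y i j ∈ Qbar}

/-- Module DQS (80 lines; `U/Der.lean`): a complex space of matrices which is stable under all
derivations of `ℂ / Qbar` is spanned by matrices over `Qbar`, and conversely. -/
def SpecDQS : Prop :=
  ∀ {ι : Type} [Fintype ι] [DecidableEq ι] (V : Submodule ℂ (Matrix ι ι ℂ)),
    (∀ δ : Derivation Qbar ℂ ℂ, ∀ X ∈ V, X.map δ ∈ V) ↔ QSpan V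

/-- Module BICQ (150 lines; uses DQS): the bicommutant theorem over `Qbar`. Proof: let
`𝒜 = adjoin ℂ kk`; it is spanned by products of matrices over `Qbar`, so `QSpan 𝒜` and `δ 𝒜 ⊆ 𝒜`. The
space `V = c⁻¹ 𝒜` is stable under `δ`: `(c⁻¹ x).map δ = -c⁻¹ (c.map δ c⁻¹) x + c⁻¹ (x.map δ)`, so `QSpan V`.
Let `X ∈ ComAlg c`, and let `R` be a matrix over `Qbar` with `tr(a R) = 0` for all `a ∈ 𝒜` (such `R` span
the annihilator of `𝒜`). For `η ∈ V` over `Qbar`, `c η ∈ 𝒜`, so `tr(c η R) = 0`, so `tr(X c η R) = 0` by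
`ASP`. So `X 𝒜 ⊆ 𝒜`, `X ∈ 𝒜`. A complex matrix which commutes with `EndAlg c` is a complex combination of
elements of `ComAlg c` (apply `ℚ`-linear forms to the entries). -/
def SpecBICQ : Prop :=
  ∀ {ι : Type} [Fintype ι] [DecidableEq ι] (c : GL ι ℂ), ASP c →
    ∀ kk : Submodule ℂ (Matrix ι ι ℂ), QSpan kk →
    (∀ δ : Derivation Qbar ℂ ℂ, c.1.map δ * c⁻¹.1 ∈ kk) →
    ∀ x : Matrix ι ι ℂ, (∀ B ∈ EndAlg c.1, x * mC B = mC B * x) →
      x ∈ Algebra.adjoin ℂ (kk : Set (Matrix ι ι ℂ))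

end Pool.Agent.Lib.MPf11a48.AS
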