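import Pool.Agent.Lib.MP_f11a48_ag.AS.SpecF
import Pool.Agent.Lib.MP_f11a48_ag.AS.SpecZ

/-!
# Project AS, block X: no algebraic curve lies in a leaf (Theorem AX)

Paper: /team-store/MP_f11a48_ag_AST.md, section 3. All modules may take any `Spec` as a hypothesis.
-/

set_option autoImplicit false

open MvPolynomial Pool.Agent.Lib.MPf11a48.CM Filter Topology Asymptotics

namespace Pool.Agent.Lib.MPf11a48.AS

/-! ## Algebraic germs -/

/-- Module AGR (250 lines): algebraic germs form a ring which contains the constants and the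
coordinates; inverses; germs of one coordinate; roots of monic polynomials with algebraic germs as
coefficients. Proof: the ring of germs at `u₀` of analytic functions is a domain (identity theorem:
`Orb.loc_mul` in `U/Orb.lean` is similar), it contains `ℂ[u]`, and `AG` means that the germ is algebraic
over `ℂ[u]` (a polynomial `Q(u, T) ≠ 0` with `Q(u, h(u)) = 0`: if `Q` does not contain `T` it vanishes
near `u₀`, so `Q = 0`). Use the facts of Mathlib on algebraic elements over a domain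
(`IsAlgebraic.add`, `.mul`, `.inv`, transitivity). -/
def SpecAGR : Prop :=
  ∀ {r : ℕ} (u₀ : Fin r → ℂ),
    (∀ c : ℂ, AG u₀ fun _ => c) ∧ (∀ k, AG u₀ fun u => u k) ∧
    (∀ g h, AG u₀ g → AG u₀ h → AG u₀ fun u => g u + h u) ∧
    (∀ g h, AG u₀ g → AG u₀ h → AG u₀ fun u => g u * h u) ∧
    (∀ g, AG u₀ g → g u₀ ≠ 0 → AG u₀ fun u => (g u)⁻¹) ∧
    (∀ (k : Fin r) (g : ℂ → ℂ), AG1 (u₀ k) g → AG u₀ fun u => g (u k)) ∧
    (∀ (h : (Fin r → ℂ) → ℂ) (n : ℕ) (c : Fin n → (Fin r → ℂ) → ℂ), AnalyticAt ℂ h u₀ →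
      (∀ k, AG u₀ (c k)) → (∀ᶠ u in 𝓝 u₀, h u ^ n + ∑ k, c k u * h u ^ (k : ℕ) = 0) → AG u₀ h) ∧
    ∀ g h, AG u₀ g → (∀ᶠ u in 𝓝 u₀, g u = h u) → AG u₀ h

/-- Module AGD (150 lines): any `r + 1` algebraic germs at a point of `ℂ^r` are algebraically
dependent over `ℂ`. Proof: transcendence degree of `ℂ(u)` (the algebraic closure of `ℂ(u)` in the
fraction field of the ring of germs has transcendence degree `r` over `ℂ`). -/
def SpecAGD : Prop :=
  ∀ {r : ℕ} (u₀ : Fin r → ℂ) (h : Fin (r + 1) → (Fin r → ℂ) → ℂ), (∀ k, AG u₀ (h k)) →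
    ∃ P : MvPolynomial (Fin (r + 1)) ℂ, P ≠ 0 ∧ ∀ᶠ u in 𝓝 u₀, eval (fun k => h k u) P = 0

/-- Module AGO (60 lines): conversion `ℂ → (Fin 1 → ℂ)`, in both directions. -/
def SpecAGO : Prop :=
  ∀ (u₀ : ℂ) (g : ℂ → ℂ), (AG1 u₀ g → AG (fun _ : Fin 1 => u₀) fun u => g (u 0)) ∧
    (AG (fun _ : Fin 1 => u₀) (fun u => g (u 0)) → AG1 u₀ g)

/-! ## Addition theorems -/

/-- the function `A_{ij}(z, w) = th_i(z + w) th_j(z - w) / (th_o(z) th_o(w))^2` -/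
noncomputable def addF {Z I Λ : Type} (D : TH Z I Λ) (i j : I) (zw : Z ⊕ Z → ℂ) : ℂ :=
  D.th i (fun k => zw (Sum.inl k) + zw (Sum.inr k)) *
    D.th j (fun k => zw (Sum.inl k) - zw (Sum.inr k)) /
    (D.th D.o (fun k => zw (Sum.inl k)) * D.th D.o (fun k => zw (Sum.inr k))) ^ 2

/-- the function `V_j(z, w) = (ze(z + w) - ze(z) - ze(w)) A_{oj}(z, w)^m` -/
noncomputable def addZ {β : ℕ} {I Λ : Type} (D : QD β I Λ) (j : I) (zw : Fin β ⊕ Fin β → ℂ) : ℂ :=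
  (D.Y (fun k => zw (Sum.inl k) + zw (Sum.inr k)) -
    (D.ze (fun k => zw (Sum.inl k)) + D.ze (fun k => zw (Sum.inr k))) *
      D.th D.o (fun k => zw (Sum.inl k) + zw (Sum.inr k)) ^ D.m) *
    D.th j (fun k => zw (Sum.inl k) - zw (Sum.inr k)) ^ D.m /
    (D.th D.o (fun k => zw (Sum.inl k)) * D.th D.o (fun k => zw (Sum.inr k))) ^ (2 * D.m)

/-- Module ADF (100 lines). Proof: for `μ = μ_x`: `th_i(z + μ + w) th_j(z + μ - w) =
exp(a_x(z+w) + a_x(z-w) + a_x(μ)) …`, the same factor as `th_o(z + μ)^2`; in `w`: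
`th_j(z - w - μ) = exp(-a_x(z - w) + a_x(μ)/2) th_j(z - w)` (`aut` for `-x`). -/
def SpecADF : Prop :=
  ∀ {Z I Λ : Type} [Fintype Z] [Fintype I] [Fintype Λ] (D : TH Z I Λ), D.Good → ∀ i j,
    (D.prod D).IsS (addF D i j)

/-- Module ADZ (200 lines). Proof: multiply by `(th_o(z) th_o(w))^{3 m}` to get an entire function.
Periodicity: `Y(z + μ) = e_μ(z)^m (Y(z) + L(μ) th_o(z)^m)` for all `z` (first where `th_o ≠ 0`), so
`V_j(z + μ, w) = V_j(z, w)` since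
`Y(z+w+μ) - (ze(z) + L + ze(w)) th_o(z+w+μ)^m = e^m (Y(z+w) - (ze(z) + ze(w)) th_o(z+w)^m)`; the other
factors as in ADF; the same in `w`. -/
def SpecADZ : Prop :=
  ∀ {β : ℕ} {I Λ : Type} [Fintype I] [Fintype Λ] (D : QD β I Λ), D.Good → ∀ j,
    (D.toTH.prod D.toTH).IsS (addZ D j)

/-- all the functions `f_i` and `ze` are algebraic on the image of the germ `z` -/
def AGQ {β : ℕ} {I Λ : Type} (D : QD β I Λ) {r : ℕ} (u₀ : Fin r → ℂ)
    (z : (Fin r → ℂ) → (Fin β → ℂ)) : Prop :=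
  AnalyticAt ℂ z u₀ ∧ D.th D.o (z u₀) ≠ 0 ∧ (∀ i, AG u₀ fun u => D.f i (z u)) ∧
    AG u₀ fun u => D.ze (z u)

/-- Module STP (200 lines; uses PRD, INT of block F, ADF, ADZ, AGR): addition theorem. Proof: choose `j`
with `th_j(z₀ - w₀) ≠ 0`. Near `u₀`, `A_ij(z(u), w(u))` is a root of a monic polynomial whose
coefficients are polynomials in the `f_k(z) f_l(w)` (INT for `D.prod D`), so algebraic (AGR); the same
for `V_j`. `A_oj ≠ 0` at `u₀`, `f_i(z+w) = A_ij / A_oj`, `ze(z+w) = ze(z) + ze(w) + V_j / A_oj^m`. -/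
def SpecSTP : Prop :=
  ∀ {β : ℕ} {I Λ : Type} [Fintype I] [Fintype Λ] (D : QD β I Λ), D.Good →
    ∀ {r : ℕ} (u₀ : Fin r → ℂ) (z w : (Fin r → ℂ) → (Fin β → ℂ)), AGQ D u₀ z → AGQ D u₀ w →
    D.th D.o (z u₀ + w u₀) ≠ 0 → AGQ D u₀ fun u => z u + w u

/-- Module SHF (100 lines; uses STP, AGR, AGO): translation to the origin. Proof: `w = -ζ(u₀)`
constant; `th_o(-ζ(u₀)) ≠ 0` (`even`), `th_o(0) ≠ 0`. -/
def SpecSHF : Prop :=
  ∀ {β : ℕ} {I Λ : Type} [Fintype I] [Fintype Λ] (D : QD β I Λ), D.Good →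
    ∀ (u₀ : ℂ) (ζ : ℂ → (Fin β → ℂ)), AnalyticAt ℂ ζ u₀ → D.th D.o (ζ u₀) ≠ 0 →
    (∀ i, AG1 u₀ fun u => D.f i (ζ u)) → (AG1 u₀ fun u => D.ze (ζ u)) →
    (∀ i, AG1 u₀ fun u => D.f i (ζ u - ζ u₀)) ∧ AG1 u₀ fun u => D.ze (ζ u - ζ u₀)

/-- Module SMM (120 lines; uses STP, AGR): sums of points of the curve. Proof: induction on the
number of summands (partial sums over `Fin r`); all partial sums are `0` at `(u₀, …, u₀)`. -/
def SpecSMM : Prop :=
  ∀ {β : ℕ} {I Λ : Type} [Fintype I] [Fintype Λ] (D : QD β I Λ), D.Good →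
    ∀ (u₀ : ℂ) (ζ : ℂ → (Fin β → ℂ)), AnalyticAt ℂ ζ u₀ → ζ u₀ = 0 →
    (∀ i, AG1 u₀ fun u => D.f i (ζ u)) → (AG1 u₀ fun u => D.ze (ζ u)) →
    ∀ r : ℕ, AGQ D (fun _ : Fin r => u₀) fun u => ∑ k, ζ (u k)

/-- Module BIH (250 lines; uses BAS, SMM, AGD): algebraic relations on the span `U` of the curve.
Proof: `ζ(u) ∈ U` near `u₀`. For functions `h_0, …, h_r` among the `f_i`, `ze`, AGD gives `P ≠ 0` with
`P(h(∑ ζ(u_k))) = 0` for `u` near `(u₀, …, u₀)`. There are `u⋆_1, …, u⋆_r` arbitrarily near `u₀` such that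
the `ζ'(u⋆_k)` are a basis of `U` (identity theorem: the span of the `ζ'(u)`, `u` near `u₀`, is `U`). The
map `u ↦ ∑ ζ(u_k)` into `U` is a local isomorphism at `u⋆`, so `P(h(z)) = 0` on a non-empty open subset
of `U`, and everywhere on `U ∩ V'` (`th_o^N P(h)` is entire on `U`; `th_o(0) ≠ 0`). -/
def SpecBIH : Prop :=
  ∀ {β : ℕ} {I Λ : Type} [Fintype I] [Fintype Λ] (D : QD β I Λ), D.Good →
    ∀ (u₀ : ℂ) (ζ : ℂ → (Fin β → ℂ)), AnalyticAt ℂ ζ u₀ → ζ u₀ = 0 →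
    (∀ i, AG1 u₀ fun u => D.f i (ζ u)) → (AG1 u₀ fun u => D.ze (ζ u)) →
    (¬ ∀ᶠ u in 𝓝 u₀, ζ u = 0) →
    ∃ U : Submodule ℂ (Fin β → ℂ), U ≠ ⊥ ∧
      ∀ s : Fin (Module.finrank ℂ U + 1) → Option I,
        ∃ P : MvPolynomial (Fin (Module.finrank ℂ U + 1)) ℂ, P ≠ 0 ∧
          ∀ z ∈ U, D.th D.o z ≠ 0 →
            eval (fun k => Option.elim (s k) (D.ze z) fun i => D.f i z) P = 0

/-- Module CLO (copy of `U/Clos.lean`, 450 lines to adapt; uses BAS, `specJAC` of `U/Jac.lean`): if any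
`dim U + 1` of the `f_i` are algebraically dependent on `U`, then `U` is spanned over `ℝ` by lattice
vectors. The proof of `specCLOS` uses `lat_indep`, `lat_card`, `th_zero`, `th_diff`, `th_period`,
`imm` at `0` only. -/
def SpecCLO : Prop :=
  ∀ {β : ℕ} {I Λ : Type} [Fintype I] [Fintype Λ] (D : TH (Fin β) I Λ), D.Good →
    ∀ U : Submodule ℂ (Fin β → ℂ),
      (∀ s : Fin (Module.finrank ℂ U + 1) → I,
        ∃ P : MvPolynomial (Fin (Module.finrank ℂ U + 1)) ℂ, P ≠ 0 ∧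
          ∀ z ∈ U, D.th D.o z ≠ 0 → eval (fun k => D.f (s k) z) P = 0) →
      ∀ u ∈ U, u ∈ Submodule.span ℝ {w : Fin β → ℂ | w ∈ U ∧ ∃ x : Λ → ℤ, w = D.vec x}

/-- Module QUA (copy of `U/Quasi.lean`, 200 lines to adapt): if `ze` and any `dim U` of the `f_i` are
algebraically dependent on `U`, then `L(x) = 0` for the lattice vectors `μ_x ∈ U`. -/
def SpecQUA : Prop :=
  ∀ {β : ℕ} {I Λ : Type} [Fintype I] [Fintype Λ] (D : QD β I Λ), D.Good →
    ∀ U : Submodule ℂ (Fin β → ℂ),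
      (∀ s : Fin (Module.finrank ℂ U) → I,
        ∃ P : MvPolynomial (Option (Fin (Module.finrank ℂ U))) ℂ, P ≠ 0 ∧
          ∀ z ∈ U, D.th D.o z ≠ 0 →
            eval (fun k => Option.elim k (D.ze z) fun k => D.f (s k) z) P = 0) →
      ∀ x : Λ → ℤ, D.vec x ∈ U → D.L x = 0

/-- Module AXF (60 lines; uses SHF, BIH, CLO, QUA): Theorem AX. -/
def SpecAXF : Prop := SpecAX

end Pool.Agent.Lib.MPf11a48.AS
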