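import Pool.Agent.Lib.MP_f11a48_ag.AS.Cnj
import Pool.Agent.Lib.MP_f11a48_ag.U.Conj

/-!
# Project AS, module TAU: conjugation of relations
-/

set_option autoImplicit false
set_option linter.unusedSectionVars false

open MvPolynomial Pool.Agent.Lib.MPf11a48.CM Filter Topology Asymptotics NumberField
open Pool.Agent.Lib.MPf11a48.U (oEmb)

namespace Pool.Agent.Lib.MPf11a48.AS

namespace TAUM

open Pool.Agent.Lib.MPf11a48.U Pool.Agent.Lib.MPf11a48.U.ConjM

variable {β : ℕ} {I Λ : Type} [Fintype I] [Fintype Λ] {τ : ℂ ≃+* ℂ}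

theorem ev_th (D : QD β I Λ) (hD : D.Good) : ∀ᶠ z in 𝓝 (0 : Fin β → ℂ), D.th D.o z ≠ 0 :=
  ((hD.good.diff D.o).continuous.continuousAt (x := 0)).eventually_ne hD.good.zero

theorem analytic_f (D : QD β I Λ) (hD : D.Good) (i : I) : AnalyticAt ℂ (D.f i) 0 :=
  (Osgood.analyticAt_of_differentiable (hD.good.diff i) 0).div
    (Osgood.analyticAt_of_differentiable (hD.good.diff D.o) 0) hD.good.zero

theorem analytic_ze (D : QD β I Λ) (hD : D.Good) : AnalyticAt ℂ D.ze 0 :=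
  (Osgood.analyticAt_of_differentiable hD.Y_diff 0).div
    ((Osgood.analyticAt_of_differentiable (hD.good.diff D.o) 0).pow D.m)
    (pow_ne_zero _ hD.good.zero)

theorem fderiv_sum (F : (Fin β → ℂ) → ℂ) (z v : Fin β → ℂ) :
    fderiv ℂ F z v = ∑ j, v j * fderiv ℂ F z (Pi.single j 1) := by
  have h : v = ∑ j, v j • (Pi.single j 1 : Fin β → ℂ) := by
    funext i
    simp [Finset.sum_apply, Pi.single_apply]
  conv_lhs => rw [h]
  rw [map_sum]
  refine Finset.sum_congr rfl fun j _ => ?_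
  rw [map_smul]
  rfl

/-- `Cj` for polynomials with coefficients in `Qbar` -/
theorem cj_poly {n : ℕ} (hτ : FixQ τ) {F : I → (Fin β → ℂ) → ℂ}
    (h : ∀ i, Cj τ n (F i) (F i)) (p : MvPolynomial I ℂ) (hp : ∀ m, p.coeff m ∈ Qbar) :
    Cj τ n (fun z => eval (fun i => F i z) p) (fun z => eval (fun i => F i z) p) := by
  have h1 := Cj.eval h p
  have h2 : map τ.toRingHom p = p := CNJM.map_fix τ hτ p hp
  rw [h2] at h1
  exact h1

/-- one step -/
theorem step {n : ℕ} (D : QD β I Λ) (hD : D.Good) (hτ : FixQ τ)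
    (hf : ∀ i, Cj τ n (D.f i) (D.f i)) {F : (Fin β → ℂ) → ℂ} (hF : AnalyticAt ℂ F 0)
    (hF0 : F 0 ∈ Qbar) (p : Fin β → MvPolynomial I ℂ) (hp : ∀ j m, (p j).coeff m ∈ Qbar)
    (hd : ∀ j z, D.th D.o z ≠ 0 → fderiv ℂ F z (Pi.single j 1) = eval (D.fv z) (p j)) :
    Cj τ (n + 1) F F := by
  refine ⟨⟨hF, hF, (hτ _ hF0).symm⟩, fun v => ?_⟩
  have h1 : ∀ v : Fin β → ℂ, (fun z => ∑ j, v j * eval (fun i => D.f i z) (p j)) =ᶠ[𝓝 0]
      fun z => fderiv ℂ F z v := by
    intro v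
    filter_upwards [ev_th D hD] with z hz
    rw [fderiv_sum]
    refine Finset.sum_congr rfl fun j _ => ?_
    rw [hd j z hz]
    rfl
  refine Cj.congr (h1 v) (h1 _) ?_
  refine Cj.sum _ fun j _ => ?_
  exact (Cj.const n (v j)).mul (cj_poly hτ hf (p j) (hp j))

theorem cj_f (D : QD β I Λ) (hD : D.Good) (hA : D.Alg) (hτ : FixQ τ) (n : ℕ) :
    ∀ i, Cj τ n (D.f i) (D.f i) := by
  induction n with
  | zero =>
    intro i
    exact ⟨analytic_f D hD i, analytic_f D hD i, (hτ _ (hA.f_value i)).symm⟩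
  | succ n ih =>
    intro i
    exact step D hD hτ ih (analytic_f D hD i) (hA.f_value i) (D.p i) (hA.p_coeff i)
      (hD.f_deriv i)

theorem cj_ze (D : QD β I Λ) (hD : D.Good) (hA : D.Alg) (hτ : FixQ τ) (n : ℕ) :
    Cj τ n D.ze D.ze :=
  (step D hD hτ (cj_f D hD hA hτ n) (analytic_ze D hD) hA.ze_value D.q hA.q_coeff
    hD.ze_deriv).mono

/-- composition with the multiplication by `q` -/
theorem cj_smul {n : ℕ} (q : ℕ) {F F' : (Fin β → ℂ) → ℂ} (h : Cj τ n F F') :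
    Cj τ n (fun z => F ((q : ℂ) • z)) (fun z => F' ((q : ℂ) • z)) := by
  have h1 := h.comp ((q : ℂ) • (1 : Matrix (Fin β) (Fin β) ℂ))
  have h2 : ((q : ℂ) • (1 : Matrix (Fin β) (Fin β) ℂ)).map τ =
      (q : ℂ) • (1 : Matrix (Fin β) (Fin β) ℂ) := by
    ext i j
    rw [Matrix.map_apply, Matrix.smul_apply, smul_eq_mul, map_mul, map_natCast]
    by_cases hij : i = j
    · rw [hij, Matrix.one_apply_eq, map_one]
    · rw [Matrix.one_apply_ne hij, map_zero]
  rw [h2] at h1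
  simp only [Matrix.vecMul_smul, Matrix.vecMul_one] at h1
  exact h1

theorem ent_f (D : QD β I Λ) (hD : D.Good) (i : I) : Ent (D.th D.o) (D.f i) := by
  refine ⟨1, D.th i, hD.good.diff i, fun z hz => ?_⟩
  rw [pow_one]
  exact (mul_div_cancel₀ _ hz).symm

theorem diff_smul (q : ℕ) {F : (Fin β → ℂ) → ℂ} (h : Differentiable ℂ F) :
    Differentiable ℂ fun z => F ((q : ℂ) • z) :=
  h.comp (differentiable_id.const_smul (q : ℂ))

/-- the product of the denominators -/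
noncomputable def ww (D : QD β I Λ) (q : ℕ) (z : Fin β → ℂ) : ℂ :=
  D.th D.o z * D.th D.o ((q : ℂ) • z)

theorem diff_ww (D : QD β I Λ) (hD : D.Good) (q : ℕ) : Differentiable ℂ (ww D q) :=
  (hD.good.diff D.o).mul (diff_smul q (hD.good.diff D.o))

theorem ww_zero (D : QD β I Λ) (hD : D.Good) (q : ℕ) : ww D q 0 ≠ 0 := by
  unfold ww
  rw [smul_zero]
  exact mul_ne_zero hD.good.zero hD.good.zero

theorem ev_ww (D : QD β I Λ) (hD : D.Good) (q : ℕ) :
    ∀ᶠ z in 𝓝 (0 : Fin β → ℂ), ww D q z ≠ 0 :=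
  ((diff_ww D hD q).continuous.continuousAt (x := 0)).eventually_ne (ww_zero D hD q)

theorem entw_f (D : QD β I Λ) (hD : D.Good) (q : ℕ) (i : I) : Ent (ww D q) (D.f i) := by
  refine ⟨1, fun z => D.th i z * D.th D.o ((q : ℂ) • z),
    (hD.good.diff i).mul (diff_smul q (hD.good.diff D.o)), fun z hz => ?_⟩
  have h1 : D.th D.o z ≠ 0 := left_ne_zero_of_mul hz
  change _ = (D.th D.o z * D.th D.o ((q : ℂ) • z)) ^ 1 * (D.th i z / D.th D.o z)
  field_simp

theorem entw_ze (D : QD β I Λ) (hD : D.Good) (q : ℕ) : Ent (ww D q) D.ze := by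
  refine ⟨D.m, fun z => D.Y z * D.th D.o ((q : ℂ) • z) ^ D.m,
    hD.Y_diff.mul ((diff_smul q (hD.good.diff D.o)).pow _), fun z hz => ?_⟩
  have h1 : D.th D.o z ≠ 0 := left_ne_zero_of_mul hz
  change _ = (D.th D.o z * D.th D.o ((q : ℂ) • z)) ^ D.m * (D.Y z / D.th D.o z ^ D.m)
  rw [mul_pow]
  field_simp

theorem entw_zeq (D : QD β I Λ) (hD : D.Good) (q : ℕ) :
    Ent (ww D q) (fun z => D.ze ((q : ℂ) • z)) := by
  refine ⟨D.m, fun z => D.th D.o z ^ D.m * D.Y ((q : ℂ) • z),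
    ((hD.good.diff D.o).pow _).mul (diff_smul q hD.Y_diff), fun z hz => ?_⟩
  have h1 : D.th D.o ((q : ℂ) • z) ≠ 0 := right_ne_zero_of_mul hz
  change _ = (D.th D.o z * D.th D.o ((q : ℂ) • z)) ^ D.m *
    (D.Y ((q : ℂ) • z) / D.th D.o ((q : ℂ) • z) ^ D.m)
  rw [mul_pow]
  field_simp

theorem cj_sub {n : ℕ} {F F' G G' : (Fin β → ℂ) → ℂ} (h : Cj τ n F F') (k : Cj τ n G G') :
    Cj τ n (fun z => F z - G z) (fun z => F' z - G' z) := by
  have h1 := Cj.const (τ := τ) (g := β) n (-1)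
  rw [map_neg, map_one] at h1
  have h2 := h.add (h1.mul k)
  simpa only [neg_mul, one_mul, ← sub_eq_add_neg] using h2

theorem ent_sub {w F G : (Fin β → ℂ) → ℂ} (hw : Differentiable ℂ w) (h : Ent w F)
    (k : Ent w G) : Ent w (fun z => F z - G z) := by
  have h2 := h.add hw ((Ent.of_diff (w := w) (differentiable_const (-1 : ℂ))).mul k)
  simpa only [neg_mul, one_mul, ← sub_eq_add_neg] using h2

theorem cj_eval (D : QD β I Λ) (hD : D.Good) (hA : D.Alg) (hτ : FixQ τ) (n : ℕ)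
    (P : MvPolynomial I ℂ) : Cj τ n (fun z => eval (D.fv z) P)
      (fun z => eval (D.fv z) (map (τ : ℂ →+* ℂ) P)) :=
  Cj.eval (cj_f D hD hA hτ n) P

theorem ent_eval (D : QD β I Λ) (hD : D.Good) (P : MvPolynomial I ℂ) :
    Ent (D.th D.o) (fun z => eval (D.fv z) P) :=
  Ent.eval (hD.good.diff D.o) (ent_f D hD) P

theorem entw_eval (D : QD β I Λ) (hD : D.Good) (q : ℕ) (P : MvPolynomial I ℂ) :
    Ent (ww D q) (fun z => eval (D.fv z) P) :=
  Ent.eval (diff_ww D hD q) (entw_f D hD q) P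

/-- if `F` vanishes near `0` and `F'` is conjugate to `F`, then `F'` vanishes near `0` -/
theorem conj_zero {F F' : (Fin β → ℂ) → ℂ} (h : ∀ n, Cj τ n F F')
    (h0 : ∀ᶠ z in 𝓝 (0 : Fin β → ℂ), F z = 0) : ∀ᶠ z in 𝓝 (0 : Fin β → ℂ), F' z = 0 :=
  eventually_zero (τ := τ) fun n => (h n).congr h0 (EventuallyEq.refl _ _)

end TAUM

open TAUM Pool.Agent.Lib.MPf11a48.U.ConjM in
theorem specTAU : SpecTAU := by
  intro β I Λ _ _ D hD hA τ hτ
  refine ⟨fun P hP => ?_, fun q hq => ⟨fun i a b hab => ?_, fun a b hab => ?_⟩⟩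
  · intro z hz
    refine Ent.eq_zero (hD.good.diff D.o) hD.good.zero (ent_eval D hD _) ?_ z hz
    refine conj_zero (fun n => cj_eval D hD hA hτ n P) ?_
    filter_upwards [ev_th D hD] with z hz
    exact hP z hz
  · intro z hz
    have hth : ∀ j, Ent (D.th D.o) (fun z => D.th j ((q : ℂ) • z)) := fun j =>
      Ent.of_diff (diff_smul q (hD.good.diff j))
    have h1 := Ent.eq_zero (hD.good.diff D.o) hD.good.zero
      (ent_sub (hD.good.diff D.o)
        ((hth i).mul (ent_eval D hD (map (τ : ℂ →+* ℂ) a)))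
        ((hth D.o).mul (ent_eval D hD (map (τ : ℂ →+* ℂ) b)))) ?_ z hz
    · exact sub_eq_zero.1 h1
    · have h2 := conj_zero (τ := τ)
        (fun n => cj_sub ((cj_smul q (cj_f D hD hA hτ n i)).mul (cj_eval D hD hA hτ n a))
          (cj_eval D hD hA hτ n b)) (by
          filter_upwards [ev_ww D hD q] with z hz
          have h3 := hab z (left_ne_zero_of_mul hz)
          have h4 : D.th D.o ((q : ℂ) • z) ≠ 0 := right_ne_zero_of_mul hz
          change D.th i ((q : ℂ) • z) / D.th D.o ((q : ℂ) • z) * eval (D.fv z) a -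
            eval (D.fv z) b = 0
          rw [div_mul_eq_mul_div, h3, mul_div_cancel_left₀ _ h4, sub_self])
      filter_upwards [h2, ev_ww D hD q] with z h5 h6
      have h4 : D.th D.o ((q : ℂ) • z) ≠ 0 := right_ne_zero_of_mul h6
      change D.th i ((q : ℂ) • z) / D.th D.o ((q : ℂ) • z) *
        eval (D.fv z) (map (τ : ℂ →+* ℂ) a) - eval (D.fv z) (map (τ : ℂ →+* ℂ) b) = 0 at h5
      rw [sub_eq_zero] at h5 ⊢
      rw [← h5]
      field_simp
  · intro z hz hqz
    have hwz : ww D q z ≠ 0 := mul_ne_zero hz hqz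
    have hq' : τ (q : ℂ) = q := map_natCast τ q
    have h1 := Ent.eq_zero (diff_ww D hD q) (ww_zero D hD q)
      (ent_sub (diff_ww D hD q)
        ((ent_sub (diff_ww D hD q) (entw_zeq D hD q)
          ((Ent.of_diff (w := ww D q) (differentiable_const (q : ℂ))).mul
            (entw_ze D hD q))).mul (entw_eval D hD q (map (τ : ℂ →+* ℂ) a)))
        (entw_eval D hD q (map (τ : ℂ →+* ℂ) b))) ?_ z hwz
    · exact sub_eq_zero.1 h1
    · refine conj_zero (τ := τ)
        (F := fun z => (D.ze ((q : ℂ) • z) - (q : ℂ) * D.ze z) * eval (D.fv z) a -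
          eval (D.fv z) b) (fun n => ?_) ?_
      · have hc := Cj.const (τ := τ) (g := β) n (q : ℂ)
        rw [hq'] at hc
        exact cj_sub ((cj_sub (cj_smul q (cj_ze D hD hA hτ n)) (hc.mul (cj_ze D hD hA hτ n))).mul
          (cj_eval D hD hA hτ n a)) (cj_eval D hD hA hτ n b)
      · filter_upwards [ev_ww D hD q] with z hz
        rw [hab z (left_ne_zero_of_mul hz) (right_ne_zero_of_mul hz), sub_self]

end Pool.Agent.Lib.MPf11a48.AS
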